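import Pool.Agent.Lib.MP_788af2_nt.R0.Base

namespace Pool.Agent.Lib.MP_788af2_nt.R0

open Finset Filter
open scoped NumberTheorySymbols

/-! Square divisors and common divisors along progressions. -/

/-- A modulus coprime to the common difference divides the terms of one class only. -/
lemma ap_count (c d m T : ℕ) (hm : 0 < m) (hcop : Nat.Coprime m d) :
    (((range T).filter fun t => m ∣ c + d * t).card : ℝ) ≤ T / m + 1 := by
  have h1 : ((range T).filter fun t => m ∣ c + d * t).card ≤ (range (T / m + 1)).card := by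
    refine card_le_card_of_injOn (fun t => t / m) ?_ ?_
    · intro t ht
      simp only [coe_filter, mem_range, Set.mem_setOf_eq] at ht
      simp only [coe_range, Set.mem_Iio]
      exact Nat.lt_succ_of_le (Nat.div_le_div_right ht.1.le)
    · intro s hs t ht hst
      simp only [coe_filter, mem_range, Set.mem_setOf_eq] at hs ht
      have h2 : c + d * s ≡ c + d * t [MOD m] :=
        ((Nat.modEq_zero_iff_dvd).2 hs.2).trans ((Nat.modEq_zero_iff_dvd).2 ht.2).symm
      have h3 : d * s ≡ d * t [MOD m] := Nat.ModEq.add_left_cancel' c h2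
      have h4 : s ≡ t [MOD m] := Nat.ModEq.cancel_left_of_coprime hcop h3
      have hst' : s / m = t / m := hst
      rw [← Nat.div_add_mod s m, ← Nat.div_add_mod t m, hst', h4]
  rw [card_range] at h1
  calc (((range T).filter fun t => m ∣ c + d * t).card : ℝ) ≤ ((T / m + 1 : ℕ) : ℝ) := by
        exact_mod_cast h1
    _ ≤ T / m + 1 := by
        push_cast
        linarith [Nat.cast_div_le (α := ℝ) (m := T) (n := m)]

lemma ap_inv_sq (E y : ℕ) (hE : 0 < E) :
    ∑ p ∈ (Ioc E y).filter Nat.Prime, ((p : ℝ) ^ 2)⁻¹ ≤ 2 / E := by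
  have h := sum_inv_sq_le ((Ioc E y).filter Nat.Prime) E
    fun n hn => (mem_Ioc.1 (mem_filter.1 hn).1).1
  refine h.trans ?_
  have : (0 : ℝ) < E := by exact_mod_cast hE
  exact div_le_div_of_nonneg_left (by norm_num) this (by linarith)

lemma ap_inv (E y : ℕ) :
    ∑ p ∈ (Ioc E y).filter Nat.Prime, (p : ℝ)⁻¹ ≤ 1 + Real.log y := by
  refine le_trans (sum_le_sum_of_subset_of_nonneg ?_ fun _ _ _ => by positivity) (harm_le_log y)
  intro n hn
  have := mem_Ioc.1 (mem_filter.1 hn).1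
  exact mem_Ioc.2 ⟨by omega, this.2⟩

lemma ap_card (E y : ℕ) : (((Ioc E y).filter Nat.Prime).card : ℝ) ≤ y := by
  have h : ((Ioc E y).filter Nat.Prime).card ≤ y := by
    refine (card_filter_le _ _).trans ?_
    rw [Nat.card_Ioc]
    omega
  exact_mod_cast h

/-- Terms of a progression divisible by the square of a prime in `(E, y]`. -/
theorem sq_ap (c0 d T E y : ℕ) (hE : 0 < E) (hd : ∀ p, p.Prime → p ∣ d → p ≤ E ∨ y < p) :
    (((range T).filter fun t => ∃ p ∈ Ioc E y, p.Prime ∧ p ^ 2 ∣ c0 + d * t).card : ℝ) ≤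
      2 * T / E + y := by
  have hsub : ((range T).filter fun t => ∃ p ∈ Ioc E y, p.Prime ∧ p ^ 2 ∣ c0 + d * t) ⊆
      ((Ioc E y).filter Nat.Prime).biUnion
        fun p => (range T).filter fun t => p ^ 2 ∣ c0 + d * t := by
    intro t ht
    obtain ⟨ht, p, hp, hpp, hdv⟩ := mem_filter.1 ht
    exact mem_biUnion.2 ⟨p, mem_filter.2 ⟨hp, hpp⟩, mem_filter.2 ⟨ht, hdv⟩⟩
  have h1 := (card_le_card hsub).trans card_biUnion_le
  have h2 : (((range T).filter fun t => ∃ p ∈ Ioc E y, p.Prime ∧ p ^ 2 ∣ c0 + d * t).card : ℝ) ≤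
      ∑ p ∈ (Ioc E y).filter Nat.Prime,
        (((range T).filter fun t => p ^ 2 ∣ c0 + d * t).card : ℝ) := by
    exact_mod_cast h1
  refine h2.trans ?_
  have h3 : ∀ p ∈ (Ioc E y).filter Nat.Prime,
      (((range T).filter fun t => p ^ 2 ∣ c0 + d * t).card : ℝ) ≤ T * ((p : ℝ) ^ 2)⁻¹ + 1 := by
    intro p hp
    obtain ⟨hp, hpp⟩ := mem_filter.1 hp
    have hp' := mem_Ioc.1 hp
    have hc : Nat.Coprime p d := (Nat.Prime.coprime_iff_not_dvd hpp).2 fun h => by
      rcases hd p hpp h with h | h <;> omega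
    have := ap_count c0 d (p ^ 2) T (pow_pos hpp.pos 2) (Nat.Coprime.pow_left 2 hc)
    push_cast at this
    rwa [div_eq_mul_inv] at this
  refine (sum_le_sum h3).trans ?_
  rw [sum_add_distrib, ← mul_sum, sum_const, nsmul_eq_mul, mul_one]
  have h4 := mul_le_mul_of_nonneg_left (ap_inv_sq E y hE) (Nat.cast_nonneg (α := ℝ) T)
  have h5 := ap_card E y
  have h6 : (T : ℝ) * (2 / E) = 2 * T / E := by ring
  linarith

/-- Pairs of terms of two progressions with a common prime factor in `(E, y]`. -/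
theorem gcd_ap (c0 c1 d T0 T1 E y : ℕ) (hE : 0 < E) (hd : ∀ p, p.Prime → p ∣ d → p ≤ E) :
    (((range T0 ×ˢ range T1).filter fun t =>
      ∃ p ∈ Ioc E y, p.Prime ∧ p ∣ c0 + d * t.1 ∧ p ∣ c1 + d * t.2).card : ℝ) ≤
      2 * T0 * T1 / E + (T0 + T1) * (1 + Real.log y) + y := by
  have hsub : ((range T0 ×ˢ range T1).filter fun t =>
      ∃ p ∈ Ioc E y, p.Prime ∧ p ∣ c0 + d * t.1 ∧ p ∣ c1 + d * t.2) ⊆
      ((Ioc E y).filter Nat.Prime).biUnion
        fun p => ((range T0).filter fun t => p ∣ c0 + d * t) ×ˢ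
          ((range T1).filter fun t => p ∣ c1 + d * t) := by
    intro t ht
    obtain ⟨ht, p, hp, hpp, h0, h1⟩ := mem_filter.1 ht
    have ht' := mem_product.1 ht
    exact mem_biUnion.2 ⟨p, mem_filter.2 ⟨hp, hpp⟩,
      mem_product.2 ⟨mem_filter.2 ⟨ht'.1, h0⟩, mem_filter.2 ⟨ht'.2, h1⟩⟩⟩
  have h1 := (card_le_card hsub).trans card_biUnion_le
  simp only [card_product] at h1
  have h2 : (((range T0 ×ˢ range T1).filter fun t =>
      ∃ p ∈ Ioc E y, p.Prime ∧ p ∣ c0 + d * t.1 ∧ p ∣ c1 + d * t.2).card : ℝ) ≤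
      ∑ p ∈ (Ioc E y).filter Nat.Prime,
        (((range T0).filter fun t => p ∣ c0 + d * t).card : ℝ) *
          (((range T1).filter fun t => p ∣ c1 + d * t).card : ℝ) := by
    exact_mod_cast h1
  refine h2.trans ?_
  have h3 : ∀ p ∈ (Ioc E y).filter Nat.Prime,
      (((range T0).filter fun t => p ∣ c0 + d * t).card : ℝ) *
          (((range T1).filter fun t => p ∣ c1 + d * t).card : ℝ) ≤
        T0 * T1 * ((p : ℝ) ^ 2)⁻¹ + (T0 + T1) * (p : ℝ)⁻¹ + 1 := by
    intro p hp
    obtain ⟨hp, hpp⟩ := mem_filter.1 hp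
    have hp' := mem_Ioc.1 hp
    have hc : Nat.Coprime p d := (Nat.Prime.coprime_iff_not_dvd hpp).2 fun h => by
      have := hd p hpp h
      omega
    have a0 := ap_count c0 d p T0 hpp.pos hc
    have a1 := ap_count c1 d p T1 hpp.pos hc
    refine (mul_le_mul a0 a1 (by positivity) (by positivity)).trans (le_of_eq ?_)
    rw [div_eq_mul_inv, div_eq_mul_inv, ← inv_pow]
    ring
  refine (sum_le_sum h3).trans ?_
  rw [sum_add_distrib, sum_add_distrib, ← mul_sum, ← mul_sum, sum_const, nsmul_eq_mul, mul_one]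
  have h4 := mul_le_mul_of_nonneg_left (ap_inv_sq E y hE)
    (show (0 : ℝ) ≤ T0 * T1 by positivity)
  have h5 := ap_card E y
  have h6 : (T0 : ℝ) * T1 * (2 / E) = 2 * T0 * T1 / E := by ring
  have h7 := mul_le_mul_of_nonneg_left (ap_inv E y) (show (0 : ℝ) ≤ T0 + T1 by positivity)
  linarith

end Pool.Agent.Lib.MP_788af2_nt.R0
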