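import Pool.Agent.Lib.MP_788af2_nt.R0.Tup

namespace Pool.Agent.Lib.MP_788af2_nt.R0

open Finset Filter
open scoped NumberTheorySymbols

/-! Basic facts on cells. -/

lemma WW_le {g c : ℕ} (hg : 1 ≤ g) (hc : 0 < c) (h : c ≤ 4 * XX g) : WW g c ≤ 4 := by
  by_contra h5
  have h5' : 5 ≤ WW g c := by omega
  have hd : ∏ p ∈ (RR g).filter (· ∣ c), p ∣ c :=
    Finset.prod_primes_dvd c (fun p hp => (mem_filter.1 (mem_filter.1 hp).1).2.prime)
      fun p hp => (mem_filter.1 hp).2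
  have h1 : (2 ^ (9 * g)) ^ WW g c ≤ ∏ p ∈ (RR g).filter (· ∣ c), p :=
    Finset.pow_card_le_prod _ _ _ fun p hp =>
      (mem_Ioc.1 (mem_filter.1 (mem_filter.1 hp).1).1).1.le
  have h2 : (2 ^ (9 * g)) ^ 5 ≤ (2 ^ (9 * g)) ^ WW g c :=
    Nat.pow_le_pow_right (by positivity) h5'
  have h3 : 4 * XX g < (2 ^ (9 * g)) ^ 5 := by
    rw [← pow_mul, XX, show 4 * 2 ^ (40 * g) = 2 ^ (40 * g + 2) by ring]
    exact Nat.pow_lt_pow_right (by norm_num) (by omega)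
  have h4 := Nat.le_of_dvd hc hd
  omega

/-- Sizes in a cell. -/
lemma Cell.sizes {g Z : ℕ} (C : Cell g Z) (hg : 10 ≤ g) {a b P Q : ℕ} (ha : a ∈ C.SA)
    (hb : b ∈ C.SB) (hP : P ∈ C.SP) (hQ : Q ∈ C.SQ) :
    b < a ∧ a ≤ 2 ^ (4 * g) ∧ 2 ^ (36 * g) < P ∧ P < Q ∧ b * Q < a * P ∧ a * P ≤ 64 * XX g ∧
      b * Q ≤ 8 * XX g := by
  obtain ⟨a1, a2, -⟩ := C.hA a ha
  obtain ⟨b1, b2, -⟩ := C.hB b hb
  obtain ⟨-, p1, p2⟩ := C.hP P hP
  obtain ⟨-, q1, q2⟩ := C.hQ Q hQ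
  have hi := C.hi
  have hi' := C.hi'
  have hj := C.hj
  have hj' := C.hj'
  have mono : ∀ m n : ℕ, m ≤ n → 2 ^ m ≤ 2 ^ n := fun m n h =>
    Nat.pow_le_pow_right (by norm_num) h
  have e1 : b * Q ≤ 8 * XX g := by
    have : b * Q ≤ 2 ^ (C.j + 1) * Q := Nat.mul_le_mul_right _ b2
    rw [pow_succ, mul_right_comm] at this
    omega
  have e2 : 2 ^ C.i * P ≤ a * P := Nat.mul_le_mul_right _ a1.le
  have e3 : a * P ≤ 64 * XX g := by
    have : a * P ≤ 2 ^ (C.i + 1) * P := Nat.mul_le_mul_right _ a2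
    rw [pow_succ, mul_right_comm] at this
    omega
  refine ⟨?_, a2.trans (mono _ _ (by omega)), ?_, ?_, by omega, e3, e1⟩
  · exact lt_of_le_of_lt (b2.trans (mono _ _ (by omega))) a1
  · have h1 : 2 ^ C.i * P ≤ 2 ^ (4 * g) * P := Nat.mul_le_mul_right _ (mono _ _ hi'.le)
    have h2 : XX g = 2 ^ (4 * g) * 2 ^ (36 * g) := by rw [XX, ← pow_add]; congr 1; ring
    exact Nat.lt_of_mul_lt_mul_left (a := 2 ^ (4 * g)) (by omega)
  · have h1 : 2 ^ (3 * g) * P ≤ 2 ^ C.i * P := Nat.mul_le_mul_right _ (mono _ _ hi)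
    have h2 : 2 ^ (C.j + 5) * Q ≤ 2 ^ (3 * g) * Q :=
      Nat.mul_le_mul_right _ (mono _ _ (by omega))
    rw [pow_add, mul_right_comm] at h2
    exact Nat.lt_of_mul_lt_mul_left (a := 2 ^ (3 * g)) (by omega)

lemma Cell.coprime {g Z : ℕ} (C : Cell g Z) (hg : 10 ≤ g) {a b P Q : ℕ} (ha : a ∈ C.SA)
    (hb : b ∈ C.SB) (hP : P ∈ C.SP) (hQ : Q ∈ C.SQ) (hab : a.Coprime b) :
    (a * P).Coprime (b * Q) := by
  obtain ⟨s1, s2, s3, s4, -⟩ := C.sizes hg ha hb hP hQ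
  have hP' := (C.hP P hP).1
  have hQ' := (C.hQ Q hQ).1
  have h36 : 2 ^ (4 * g) ≤ 2 ^ (36 * g) := Nat.pow_le_pow_right (by norm_num) (by omega)
  have hb0 : b ≠ 0 := (lt_of_le_of_lt (Nat.zero_le _) (C.hB b hb).1).ne'
  have c1 : a.Coprime Q := (Nat.coprime_of_lt_prime (by omega) (by omega) hQ').symm
  have c2 : P.Coprime b := Nat.coprime_of_lt_prime hb0 (by omega) hP'
  have c3 : P.Coprime Q := (Nat.coprime_primes hP' hQ').2 s4.ne
  exact Nat.Coprime.mul_left (Nat.Coprime.mul_right hab c1) (Nat.Coprime.mul_right c2 c3)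

lemma Cell.adm {g Z : ℕ} (C : Cell g Z) (hg : 10 ≤ g) {a b P Q c : ℕ} (ha : a ∈ C.SA)
    (hb : b ∈ C.SB) (hP : P ∈ C.SP) (hQ : Q ∈ C.SQ) (hab : a.Coprime b)
    (he : a * P = b * Q + 16 * c) (hc : Squarefree c) : Adm a b P Q c := by
  obtain ⟨s1, s2, s3, s4, -⟩ := C.sizes hg ha hb hP hQ
  have hco := C.coprime hg ha hb hP hQ hab
  have hP' := (C.hP P hP).1
  have hQ' := (C.hQ Q hQ).1
  have h36 : 2 ^ (4 * g) ≤ 2 ^ (36 * g) := Nat.pow_le_pow_right (by norm_num) (by omega)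
  have hb0 : b ≠ 0 := (lt_of_le_of_lt (Nat.zero_le _) (C.hB b hb).1).ne'
  have c1 : a.Coprime P := (Nat.coprime_of_lt_prime (by omega) (by omega) hP').symm
  have c2 : b.Coprime Q := (Nat.coprime_of_lt_prime hb0 (by omega) hQ').symm
  have c3 : (b * Q).Coprime c := by
    have h1 := hco
    rw [he, Nat.coprime_self_add_left] at h1
    exact (Nat.Coprime.coprime_mul_left h1).symm
  have c4 : (a * P).Coprime c := by
    rw [he, Nat.coprime_add_mul_right_left]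
    exact c3
  have mA := C.mA a ha P hP
  have mB := C.mB b hb Q hQ
  refine ⟨hP', hQ', ?_, he, by omega, by omega⟩
  rw [Nat.squarefree_mul (Nat.Coprime.mul_left c4 c3), Nat.squarefree_mul hco,
    Nat.squarefree_mul c1, Nat.squarefree_mul c2]
  exact ⟨⟨⟨(C.hA a ha).2.2.1, hP'.squarefree⟩, (C.hB b hb).2.2.1, hQ'.squarefree⟩, hc⟩

lemma Cell.card_SA {g Z : ℕ} (C : Cell g Z) : C.SA.card ≤ 2 ^ C.i := by
  have h : C.SA ⊆ Ioc (2 ^ C.i) (2 ^ (C.i + 1)) := fun a ha =>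
    mem_Ioc.2 ⟨(C.hA a ha).1, (C.hA a ha).2.1⟩
  have := card_le_card h
  rw [Nat.card_Ioc, pow_succ] at this
  omega

lemma Cell.card_SB {g Z : ℕ} (C : Cell g Z) : C.SB.card ≤ 2 ^ C.j := by
  have h : C.SB ⊆ Ioc (2 ^ C.j) (2 ^ (C.j + 1)) := fun b hb =>
    mem_Ioc.2 ⟨(C.hB b hb).1, (C.hB b hb).2.1⟩
  have := card_le_card h
  rw [Nat.card_Ioc, pow_succ] at this
  omega

lemma Cell.card_SP {g Z : ℕ} (C : Cell g Z) : 2 ^ C.i * C.SP.card ≤ 32 * XX g := by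
  have h : C.SP ⊆ Ioc 0 (32 * XX g / 2 ^ C.i) := fun P hP =>
    mem_Ioc.2 ⟨(C.hP P hP).1.pos, (Nat.le_div_iff_mul_le (by positivity)).2
      (by rw [mul_comm]; exact (C.hP P hP).2.2)⟩
  have := card_le_card h
  rw [Nat.card_Ioc, Nat.sub_zero] at this
  exact (Nat.mul_le_mul_left _ this).trans (Nat.mul_div_le _ _)

lemma Cell.card_SQ {g Z : ℕ} (C : Cell g Z) : 2 ^ C.j * C.SQ.card ≤ 4 * XX g := by
  have h : C.SQ ⊆ Ioc 0 (4 * XX g / 2 ^ C.j) := fun Q hQ =>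
    mem_Ioc.2 ⟨(C.hQ Q hQ).1.pos, (Nat.le_div_iff_mul_le (by positivity)).2
      (by rw [mul_comm]; exact (C.hQ Q hQ).2.2)⟩
  have := card_le_card h
  rw [Nat.card_Ioc, Nat.sub_zero] at this
  exact (Nat.mul_le_mul_left _ this).trans (Nat.mul_div_le _ _)

/-- Pointwise bounds give bounds for the family sum. -/
lemma abs_FS_le {g Z : ℕ} (C : Cell g Z) {f : ℕ → ℕ → ℕ → ℕ → ℕ → ℝ} {δ : ℝ} (hδ : 0 ≤ δ)
    (h : ∀ a ∈ C.SA, ∀ b ∈ C.SB, ∀ P ∈ C.SP, ∀ Q ∈ C.SQ, ∀ c ∈ Icc 1 (4 * XX g), a.Coprime b →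
      a * P = b * Q + 16 * c → typ g Z c → |f a b P Q c| ≤ δ) :
    |FS C f| ≤ δ * (C.SA.card * C.SB.card * C.SP.card * C.SQ.card) := by
  have key : ∀ a ∈ C.SA, ∀ b ∈ C.SB, ∀ P ∈ C.SP, ∀ Q ∈ C.SQ,
      |∑ c ∈ Icc 1 (4 * XX g), if a.Coprime b ∧ a * P = b * Q + 16 * c ∧ typ g Z c then
        f a b P Q c else 0| ≤ δ := by
    intro a ha b hb P hP Q hQ
    refine (abs_sum_le_sum_abs _ _).trans ?_
    refine (sum_le_sum (g := fun c => if c = (a * P - b * Q) / 16 then δ else 0) ?_).trans ?_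
    · intro c hc
      by_cases hh : a.Coprime b ∧ a * P = b * Q + 16 * c ∧ typ g Z c
      · rw [if_pos hh, if_pos (by have := hh.2.1; omega)]
        exact h a ha b hb P hP Q hQ c hc hh.1 hh.2.1 hh.2.2
      · rw [if_neg hh, abs_zero]
        split_ifs
        · exact hδ
        · exact le_rfl
    · rw [sum_ite_eq']
      split_ifs
      · exact le_rfl
      · exact hδ
  unfold FS
  refine (abs_sum_le_sum_abs _ _).trans ((sum_le_sum fun a ha =>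
    (abs_sum_le_sum_abs _ _).trans (sum_le_sum fun b hb =>
    (abs_sum_le_sum_abs _ _).trans (sum_le_sum fun P hP =>
    (abs_sum_le_sum_abs _ _).trans (sum_le_sum fun Q hQ => key a ha b hb P hP Q hQ)))).trans ?_)
  simp only [sum_const, nsmul_eq_mul]
  exact le_of_eq (by ring)

lemma FS_mono {g Z : ℕ} (C : Cell g Z) {f f' : ℕ → ℕ → ℕ → ℕ → ℕ → ℝ}
    (h : ∀ a ∈ C.SA, ∀ b ∈ C.SB, ∀ P ∈ C.SP, ∀ Q ∈ C.SQ, ∀ c ∈ Icc 1 (4 * XX g), a.Coprime b →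
      a * P = b * Q + 16 * c → typ g Z c → f a b P Q c ≤ f' a b P Q c) :
    FS C f ≤ FS C f' := by
  unfold FS
  refine sum_le_sum fun a ha => sum_le_sum fun b hb => sum_le_sum fun P hP =>
    sum_le_sum fun Q hQ => sum_le_sum fun c hc => ?_
  split_ifs with hh
  · exact h a ha b hb P hP Q hQ c hc hh.1 hh.2.1 hh.2.2
  · exact le_rfl

lemma FS_congr {g Z : ℕ} (C : Cell g Z) {f f' : ℕ → ℕ → ℕ → ℕ → ℕ → ℝ}
    (h : ∀ a ∈ C.SA, ∀ b ∈ C.SB, ∀ P ∈ C.SP, ∀ Q ∈ C.SQ, ∀ c ∈ Icc 1 (4 * XX g), a.Coprime b →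
      a * P = b * Q + 16 * c → typ g Z c → f a b P Q c = f' a b P Q c) :
    FS C f = FS C f' :=
  le_antisymm (FS_mono C fun a ha b hb P hP Q hQ c hc h1 h2 h3 =>
      (h a ha b hb P hP Q hQ c hc h1 h2 h3).le)
    (FS_mono C fun a ha b hb P hP Q hQ c hc h1 h2 h3 =>
      (h a ha b hb P hP Q hQ c hc h1 h2 h3).ge)

lemma FS_add {g Z : ℕ} (C : Cell g Z) (f f' : ℕ → ℕ → ℕ → ℕ → ℕ → ℝ) :
    FS C (fun a b P Q c => f a b P Q c + f' a b P Q c) = FS C f + FS C f' := by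
  unfold FS
  simp only [← sum_add_distrib]
  refine sum_congr rfl fun a _ => sum_congr rfl fun b _ => sum_congr rfl fun P _ =>
    sum_congr rfl fun Q _ => sum_congr rfl fun c _ => ?_
  split_ifs
  · rfl
  · rw [add_zero]

lemma FS_mul {g Z : ℕ} (C : Cell g Z) (r : ℝ) (f : ℕ → ℕ → ℕ → ℕ → ℕ → ℝ) :
    FS C (fun a b P Q c => r * f a b P Q c) = r * FS C f := by
  unfold FS
  simp only [mul_sum]
  refine sum_congr rfl fun a _ => sum_congr rfl fun b _ => sum_congr rfl fun P _ =>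
    sum_congr rfl fun Q _ => sum_congr rfl fun c _ => ?_
  split_ifs
  · rfl
  · rw [mul_zero]

lemma FS_sum {g Z : ℕ} (C : Cell g Z) {ι : Type} (s : Finset ι)
    (f : ι → ℕ → ℕ → ℕ → ℕ → ℕ → ℝ) :
    FS C (fun a b P Q c => ∑ x ∈ s, f x a b P Q c) = ∑ x ∈ s, FS C (f x) := by
  classical
  induction s using Finset.induction_on with
  | empty => simp [FS]
  | insert x s hx ih =>
    simp only [sum_insert hx]
    rw [FS_add, ih]

/-- Polynomials are eventually below exponentials. -/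
lemma ev_pow_le (c k : ℕ) : ∀ᶠ g : ℕ in atTop, c * g ^ k ≤ 2 ^ g := by
  have h := tendsto_pow_const_div_const_pow_of_one_lt k (r := (2 : ℝ)) (by norm_num)
  have hc : (0 : ℝ) < 1 / (c + 1) := by positivity
  filter_upwards [h.eventually (gt_mem_nhds hc)] with g hg
  rw [div_lt_div_iff₀ (by positivity) (by positivity)] at hg
  have h0 : (0 : ℝ) ≤ (g : ℝ) ^ k := by positivity
  have : (c : ℝ) * (g : ℝ) ^ k ≤ 2 ^ g := by nlinarith
  exact_mod_cast this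

end Pool.Agent.Lib.MP_788af2_nt.R0
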