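import Pool.Agent.Lib.MP_788af2_nt.R0.Base

namespace Pool.Agent.Lib.MP_788af2_nt.R0

open Finset Filter
open scoped NumberTheorySymbols

/-! Chebyshev-type inputs. -/

lemma cheb_theta (n : ℕ) :
    Chebyshev.theta n = ∑ p ∈ Ioc 0 n, if p.Prime then Real.log p else 0 := by
  rw [Chebyshev.theta, Nat.floor_natCast, sum_filter]

lemma cheb_log4 : Real.log 4 = 2 * Real.log 2 := by
  rw [show (4 : ℝ) = 2 ^ 2 by norm_num, Real.log_pow]; norm_num

/-- Lower bound for the number of primes in `(x, 4x]`. -/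
lemma cheb_block {x : ℕ} (hx : 2 ^ 24 ≤ x) :
    (x : ℝ) * Real.log 2 ≤
      (((Ioc x (4 * x)).filter Nat.Prime).card : ℝ) * Real.log (4 * x) := by
  have hx' : (2 : ℝ) ^ 24 ≤ x := by exact_mod_cast hx
  have hx0 : (0 : ℝ) < x := lt_of_lt_of_le (by norm_num) hx'
  have h1 : Chebyshev.theta ((4 * x : ℕ) : ℝ) - Chebyshev.theta x ≤
      (((Ioc x (4 * x)).filter Nat.Prime).card : ℝ) * Real.log (4 * x) := by
    rw [cheb_theta, cheb_theta,
      ← sum_Ioc_consecutive _ (Nat.zero_le x) (show x ≤ 4 * x by omega), add_sub_cancel_left,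
      ← sum_filter, ← nsmul_eq_mul]
    refine sum_le_card_nsmul _ _ _ fun p hp => ?_
    obtain ⟨hp1, hp2⟩ := mem_filter.1 hp
    have h3 : (p : ℝ) ≤ 4 * x := by exact_mod_cast (mem_Ioc.1 hp1).2
    exact Real.log_le_log (by exact_mod_cast hp2.pos) h3
  have h2 := Chebyshev.theta_ge (4 * x)
  have h3 := Chebyshev.theta_le_log4_mul_x hx0.le
  rw [cheb_log4] at h3
  set s := √(√(x : ℝ)) with hs
  have hs0 : 0 ≤ s := Real.sqrt_nonneg _
  have hs2 : s ^ 2 = √(x : ℝ) := Real.sq_sqrt (Real.sqrt_nonneg _)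
  have hs4 : s ^ 4 = x := by
    rw [show s ^ 4 = (s ^ 2) ^ 2 by ring, hs2, Real.sq_sqrt hx0.le]
  have hs64 : 64 ≤ s := by
    by_contra h
    have h' : s ^ 4 < 64 ^ 4 := pow_lt_pow_left₀ (not_le.1 h) hs0 (by norm_num)
    rw [hs4] at h'
    norm_num at hx' h'
    linarith
  have hl : Real.log (16 * x) ≤ 8 * s := by
    have : (16 * x : ℝ) = (2 * s) ^ 4 := by rw [← hs4]; ring
    rw [this, Real.log_pow]
    have := Real.log_le_sub_one_of_pos (show 0 < 2 * s by linarith)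
    push_cast
    linarith
  have hl1 : Real.log (((4 * x : ℕ) : ℝ) + 1) ≤ 8 * s := by
    refine le_trans (Real.log_le_log (by positivity) ?_) hl
    push_cast
    have : (1 : ℝ) ≤ 2 ^ 24 := by norm_num
    linarith
  have hl2 : Real.log ((4 * x : ℕ) : ℝ) ≤ 8 * s := by
    refine le_trans (Real.log_le_log (by positivity) ?_) hl
    push_cast
    linarith
  have hsq : √((4 * x : ℕ) : ℝ) = 2 * s ^ 2 := by
    rw [hs2]
    push_cast
    rw [Real.sqrt_mul (by norm_num), show (4 : ℝ) = 2 ^ 2 by norm_num,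
      Real.sqrt_sq (by norm_num)]
  rw [hsq] at h2
  have h4 : 2 * (2 * s ^ 2) * Real.log ((4 * x : ℕ) : ℝ) ≤ 32 * s ^ 3 := by
    calc _ ≤ 2 * (2 * s ^ 2) * (8 * s) := mul_le_mul_of_nonneg_left hl2 (by positivity)
      _ = _ := by ring
  have h5 := Real.log_two_gt_d9
  have h6 : 8 * s + 32 * s ^ 3 ≤ x * Real.log 2 := by
    rw [← hs4]
    have h7 : s ≤ s ^ 3 := by nlinarith [sq_nonneg s, mul_nonneg hs0 hs0]
    have h8 : 64 * s ^ 3 ≤ s ^ 4 := by
      have : 0 ≤ s ^ 3 := by positivity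
      nlinarith
    have h9 : 0 ≤ s ^ 4 := by positivity
    nlinarith
  have h7 : ((4 * x : ℕ) : ℝ) = 4 * x := by push_cast; ring
  rw [h7] at h2 h1 hl1 h4
  nlinarith

lemma cheb_block' {x m : ℕ} (hx : 2 ^ 24 ≤ x) (hm : 4 * x ≤ 2 ^ m) :
    (x : ℝ) ≤ (((Ioc x (4 * x)).filter Nat.Prime).card : ℝ) * m := by
  have h1 := cheb_block hx
  have hx0 : (0 : ℝ) < x := by
    have : 0 < x := lt_of_lt_of_le (by norm_num) hx
    exact_mod_cast this
  have h2 : Real.log (4 * x) ≤ m * Real.log 2 := by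
    rw [← Real.log_pow]
    exact Real.log_le_log (by positivity) (by exact_mod_cast hm)
  have h3 : 0 < Real.log 2 := Real.log_pos (by norm_num)
  have h4 := mul_le_mul_of_nonneg_left h2
    (Nat.cast_nonneg (α := ℝ) ((Ioc x (4 * x)).filter Nat.Prime).card)
  refine le_of_mul_le_mul_right ?_ h3
  calc _ ≤ _ := h1
    _ ≤ _ := h4
    _ = _ := by ring

/-- Upper bound for the number of large primes. -/
lemma cheb_upper {S : Finset ℕ} {N m : ℕ} (h : ∀ p ∈ S, p.Prime ∧ 2 ^ m ≤ p ∧ p ≤ N) :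
    (S.card : ℝ) * m ≤ 2 * N := by
  have h1 := Chebyshev.theta_le_log4_mul_x (Nat.cast_nonneg (α := ℝ) N)
  rw [cheb_log4, Chebyshev.theta, Nat.floor_natCast] at h1
  have h2 : ∑ p ∈ S, Real.log p ≤ ∑ p ∈ (Ioc 0 N).filter Nat.Prime, Real.log p := by
    refine sum_le_sum_of_subset_of_nonneg (fun p hp => ?_) fun p _ _ => Real.log_natCast_nonneg p
    obtain ⟨h3, -, h4⟩ := h p hp
    exact mem_filter.2 ⟨mem_Ioc.2 ⟨h3.pos, h4⟩, h3⟩
  have h3 : S.card • (m * Real.log 2) ≤ ∑ p ∈ S, Real.log p := by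
    refine card_nsmul_le_sum _ _ _ fun p hp => ?_
    rw [← Real.log_pow]
    exact Real.log_le_log (by positivity) (by exact_mod_cast (h p hp).2.1)
  rw [nsmul_eq_mul] at h3
  have h4 : 0 < Real.log 2 := Real.log_pos (by norm_num)
  refine le_of_mul_le_mul_right ?_ h4
  nlinarith

theorem sum_inv_RR : ∀ᶠ g : ℕ in atTop, (1 : ℝ) / 20 ≤ ∑ R ∈ RR g, (R : ℝ)⁻¹ := by
  filter_upwards [eventually_ge_atTop 3] with g hg
  have hg0 : (0 : ℝ) < g := by exact_mod_cast (show 0 < g by omega)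
  have key : ∀ t ≤ 4 * g, (t : ℝ) / (72 * g) ≤
      ∑ p ∈ Ioc (2 ^ (9 * g) : ℕ) (2 ^ (9 * g + 2 * t)),
        if Nat.Prime p then ((p : ℕ) : ℝ)⁻¹ else 0 := by
    intro t
    induction t with
    | zero => intro _; simp
    | succ t ih =>
      intro ht
      have h1 := ih (by omega)
      have e1 : 2 ^ (9 * g + 2 * (t + 1)) = 4 * 2 ^ (9 * g + 2 * t) := by ring
      set x := 2 ^ (9 * g + 2 * t) with hx
      have hx1 : 2 ^ (9 * g) ≤ x := Nat.pow_le_pow_right (by norm_num) (by omega)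
      have hx2 : 2 ^ 24 ≤ x := Nat.pow_le_pow_right (by norm_num) (by omega)
      have hx3 : 4 * x ≤ 2 ^ (18 * g) := by
        rw [← e1]; exact Nat.pow_le_pow_right (by norm_num) (by omega)
      have hx0 : (0 : ℝ) < x := by positivity
      rw [e1, ← sum_Ioc_consecutive _ hx1 (show x ≤ 4 * x by omega)]
      have h2 := cheb_block' hx2 hx3
      have h3 : ((Ioc x (4 * x)).filter Nat.Prime).card • ((4 * x : ℝ))⁻¹ ≤
          ∑ p ∈ (Ioc x (4 * x)).filter Nat.Prime, (p : ℝ)⁻¹ := by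
        refine card_nsmul_le_sum _ _ _ fun p hp => ?_
        obtain ⟨hp1, hp2⟩ := mem_filter.1 hp
        exact inv_anti₀ (by exact_mod_cast hp2.pos) (by exact_mod_cast (mem_Ioc.1 hp1).2)
      rw [nsmul_eq_mul, sum_filter] at h3
      have h4 : 1 / (72 * (g : ℝ)) ≤
          (((Ioc x (4 * x)).filter Nat.Prime).card : ℝ) * (4 * x : ℝ)⁻¹ := by
        rw [← div_eq_mul_inv, div_le_div_iff₀ (by positivity) (by positivity)]
        push_cast at h2
        nlinarith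
      have h5 : ((t + 1 : ℕ) : ℝ) / (72 * g) = t / (72 * g) + 1 / (72 * g) := by
        push_cast; ring
      rw [h5]
      linarith
  have h1 := key (4 * g) le_rfl
  have h2 : ((4 * g : ℕ) : ℝ) / (72 * g) = 1 / 18 := by
    push_cast; field_simp; norm_num
  rw [h2, ← sum_filter] at h1
  refine le_trans (by norm_num) (h1.trans ?_)
  refine sum_le_sum_of_subset_of_nonneg (filter_subset_filter _ (Ioc_subset_Ioc_right ?_))
    fun p _ _ => by positivity
  exact Nat.pow_le_pow_right (by norm_num) (by omega)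

lemma cheb_cell {S : Finset ℕ} {i n k m : ℕ} (hi : i + m ≤ n)
    (h : ∀ p ∈ S, p.Prime ∧ 2 ^ n < 2 ^ i * p ∧ 2 ^ i * p ≤ k * 2 ^ n) :
    (2 : ℝ) ^ i * S.card * m ≤ 2 * k * 2 ^ n := by
  obtain ⟨d, rfl⟩ : ∃ d, n = i + d := ⟨n - i, by omega⟩
  have h1 := cheb_upper (S := S) (N := k * 2 ^ d) (m := m) fun p hp => by
    obtain ⟨h1, h2, h3⟩ := h p hp
    rw [pow_add] at h2 h3
    refine ⟨h1, ?_, ?_⟩
    · exact le_trans (Nat.pow_le_pow_right (by norm_num) (by omega))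
        (Nat.lt_of_mul_lt_mul_left h2).le
    · refine Nat.le_of_mul_le_mul_left (c := 2 ^ i) ?_ (by positivity)
      calc _ ≤ _ := h3
        _ = _ := by ring
  push_cast at h1
  calc (2 : ℝ) ^ i * S.card * m = 2 ^ i * (S.card * m) := by ring
    _ ≤ 2 ^ i * (2 * (k * 2 ^ d)) := mul_le_mul_of_nonneg_left h1 (by positivity)
    _ = _ := by ring

theorem cell_card : ∀ᶠ g : ℕ in atTop, ∀ (Z : ℕ) (C : Cell g Z),
    (2 ^ C.i * C.SP.card : ℝ) ≤ 2 * XX g / g ∧ (2 ^ C.j * C.SQ.card : ℝ) ≤ XX g / (2 * g) ∧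
    (C.SA.card * C.SB.card * C.SP.card * C.SQ.card : ℝ) ≤ (XX g : ℝ) ^ 2 / (g : ℝ) ^ 2 := by
  filter_upwards [eventually_ge_atTop 1] with g hg Z C
  have hg0 : (0 : ℝ) < g := by exact_mod_cast (show 0 < g by omega)
  have hX : (XX g : ℝ) = 2 ^ (40 * g) := by simp [XX]
  have h1 := cheb_cell (S := C.SP) (i := C.i) (n := 40 * g) (k := 32) (m := 36 * g)
    (by have := C.hi'; omega) fun p hp => by
      obtain ⟨h1, h2, h3⟩ := C.hP p hp
      unfold XX at h2 h3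
      exact ⟨h1, by omega, h3⟩
  have h2 := cheb_cell (S := C.SQ) (i := C.j) (n := 40 * g) (k := 4) (m := 38 * g)
    (by have := C.hj'; omega) fun p hp => C.hQ p hp
  rw [← hX] at h1 h2
  push_cast at h1 h2
  have hX0 : (0 : ℝ) ≤ XX g := Nat.cast_nonneg _
  have h3 : (2 ^ C.i * C.SP.card : ℝ) ≤ 2 * XX g / g := by
    rw [le_div_iff₀ hg0]; nlinarith
  have h4 : (2 ^ C.j * C.SQ.card : ℝ) ≤ XX g / (2 * g) := by
    rw [le_div_iff₀ (by positivity)]; nlinarith
  refine ⟨h3, h4, ?_⟩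
  have h5 : (C.SA.card : ℝ) ≤ 2 ^ C.i := by exact_mod_cast C.card_SA
  have h6 : (C.SB.card : ℝ) ≤ 2 ^ C.j := by exact_mod_cast C.card_SB
  calc (C.SA.card * C.SB.card * C.SP.card * C.SQ.card : ℝ)
      = (C.SA.card * C.SP.card) * (C.SB.card * C.SQ.card) := by ring
    _ ≤ (2 ^ C.i * C.SP.card) * (2 ^ C.j * C.SQ.card) := by gcongr
    _ ≤ (2 * XX g / g) * (XX g / (2 * g)) := by gcongr
    _ = _ := by field_simp

theorem prime_class (W : ℕ) (hW : 0 < W) : ∃ c : ℝ, 0 < c ∧ ∀ᶠ g : ℕ in atTop, ∀ x : ℕ,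
    2 ^ (30 * g) ≤ x → x ≤ 2 ^ (50 * g) → ∃ r : ℕ, r.Coprime W ∧
      c * x / g ≤ ((Ioc x (4 * x)).filter fun p => p.Prime ∧ p ≡ r [MOD W]).card := by
  have hW' : (0 : ℝ) < W := by exact_mod_cast hW
  refine ⟨1 / (52 * W), by positivity, ?_⟩
  filter_upwards [eventually_ge_atTop 1, eventually_ge_atTop W] with g hg hgW x hx1 hx2
  have hg0 : (0 : ℝ) < g := by exact_mod_cast (show 0 < g by omega)
  have hx3 : 2 ^ 24 ≤ x := le_trans (Nat.pow_le_pow_right (by norm_num) (by omega)) hx1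
  have hx4 : 4 * x ≤ 2 ^ (52 * g) := by
    calc 4 * x ≤ 2 ^ 2 * 2 ^ (50 * g) := by omega
      _ = 2 ^ (2 + 50 * g) := by rw [pow_add]
      _ ≤ _ := Nat.pow_le_pow_right (by norm_num) (by omega)
  have hxW : W ≤ x := by
    calc W ≤ 30 * g := by omega
      _ ≤ 2 ^ (30 * g) := Nat.lt_two_pow_self.le
      _ ≤ x := hx1
  have hx0 : (0 : ℝ) < x := by
    have : 0 < x := by omega
    exact_mod_cast this
  have h1 := cheb_block' hx3 hx4
  set S := (Ioc x (4 * x)).filter Nat.Prime with hS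
  obtain ⟨r, -, hr⟩ := exists_le_card_fiber_of_nsmul_le_card_of_maps_to
    (s := S) (t := range W) (f := fun p => p % W) (b := (S.card : ℝ) / W)
    (fun p _ => mem_range.2 (Nat.mod_lt _ hW)) ⟨0, mem_range.2 hW⟩
    (by rw [card_range, nsmul_eq_mul, mul_div_cancel₀ _ hW'.ne'])
  have h2 : 1 / (52 * (W : ℝ)) * x / g ≤ (S.card : ℝ) / W := by
    rw [div_le_div_iff₀ hg0 hW']
    push_cast at h1
    have : 1 / (52 * (W : ℝ)) * x * W = x / 52 := by field_simp
    rw [this]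
    linarith
  have h3 : (0 : ℝ) < 1 / (52 * (W : ℝ)) * x / g := by positivity
  have h4 : 0 < (S.filter fun p => p % W = r).card := by
    exact_mod_cast h3.trans_le (h2.trans hr)
  obtain ⟨p, hp⟩ := card_pos.1 h4
  obtain ⟨hp1, hp2⟩ := mem_filter.1 hp
  obtain ⟨hp3, hp4⟩ := mem_filter.1 hp1
  refine ⟨p, (Nat.Prime.coprime_iff_not_dvd hp4).2 fun h => ?_, h2.trans (hr.trans ?_)⟩
  · have := Nat.le_of_dvd hW h
    have := (mem_Ioc.1 hp3).1
    omega
  · rw [hS, filter_filter]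
    exact_mod_cast (congrArg card (filter_congr fun q _ => by rw [Nat.ModEq, hp2])).le

end Pool.Agent.Lib.MP_788af2_nt.R0
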