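import Pool.Agent.Lib.MP_788af2_nt.R0.Defs

namespace Pool.Agent.Lib.MP_788af2_nt.R0

open Finset Filter
open scoped NumberTheorySymbols

/-! The classification of the profiles. -/

set_option synthInstance.maxSize 100000 in
theorem comb_aux : ∀ (τ : ZMod 2) (sC : Finset U), (∃ u ∈ sC, qf u + τ = 1) ∨
    ∀ sA sB : Finset U, (∃ u ∈ sC, qf u + τ = 0 ∧ ∃ v ∈ sA, br v u + qf v = 1) ∨
    (∃ u ∈ sC, qf u + τ = 0 ∧ ∃ v ∈ sB, br v u + qf v = 1) ∨ (EEs sA sB sC → ∀ uR ∈ sC,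
    ((∀ u ∈ sC, u = uR) ∧ qf uR + τ = 0 ∧ ∃ v ∈ sA, ∃ w ∈ sB, br v w = 1 ∧
      br v uR + qf v = 0 ∧ br w uR + qf w = 0) ∨
    max 1 sA.card * max 1 sB.card * sC.card ≤ 6) := by
  decide +kernel

theorem classify (τ : ZMod 2) (uR : U) (sA sB tC : Finset U) (h : EEs sA sB (insert uR tC)) :
    (∃ u ∈ insert uR tC, qf u + τ = 1) ∨
    (∃ u ∈ insert uR tC, qf u + τ = 0 ∧ ∃ v ∈ sA, br v u + qf v = 1) ∨
    (∃ u ∈ insert uR tC, qf u + τ = 0 ∧ ∃ v ∈ sB, br v u + qf v = 1) ∨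
    ((∀ u ∈ tC, u = uR) ∧ qf uR + τ = 0 ∧ ∃ v ∈ sA, ∃ w ∈ sB, br v w = 1 ∧
      br v uR + qf v = 0 ∧ br w uR + qf w = 0) ∨
    max 1 sA.card * max 1 sB.card * (insert uR tC).card ≤ 6 := by
  rcases comb_aux τ (insert uR tC) with h1 | h1
  · exact Or.inl h1
  rcases h1 sA sB with h1 | h1 | h1
  · exact Or.inr (Or.inl h1)
  · exact Or.inr (Or.inr (Or.inl h1))
  rcases h1 h uR (mem_insert_self _ _) with h1 | h1
  · exact Or.inr (Or.inr (Or.inr (Or.inl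
      ⟨fun u hu => h1.1 u (mem_insert_of_mem hu), h1.2⟩)))
  · exact Or.inr (Or.inr (Or.inr (Or.inr h1)))

end Pool.Agent.Lib.MP_788af2_nt.R0
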