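import Pool.Agent.Lib.MP_788af2_nt.Families
import Pool.Agent.Lib.MP_0a06fe_nt.Mertens

/-!
Definitions for the proof that a positive proportion of the curves with full 2-torsion have
rank zero.
-/

namespace Pool.Agent.Lib.MP_788af2_nt.R0

open Finset
open scoped NumberTheorySymbols

/-! ### Signs, symbols, tuples -/

/-- The four types of a prime. -/
abbrev U : Type := ZMod 2 × ZMod 2

/-- The quadratic form on types. -/
def qf (u : U) : ZMod 2 := u.1 * u.2

/-- The alternating form on types. -/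
def br (u v : U) : ZMod 2 := u.1 * v.2 + u.2 * v.1

/-- The sign attached to a bit. -/
noncomputable def sgn (e : ZMod 2) : ℝ := if e = 0 then 1 else -1

/-- The Jacobi symbol to the power `e`. -/
noncomputable def Jp (e : ZMod 2) (a n : ℕ) : ℝ := if e = 0 then 1 else (J((a : ℤ) | n) : ℝ)

/-- The bit of an odd number modulo 4. -/
def lam (n : ℕ) : ZMod 2 := if n % 4 = 3 then 1 else 0

/-- The bit of a Jacobi symbol. -/
def lj (a n : ℕ) : ZMod 2 := if J((a : ℤ) | n) = -1 then 1 else 0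

/-- The number of prime factors. -/
def om (n : ℕ) : ℕ := n.primeFactors.card

/-- The number of prime factors up to `Z`. -/
def omZ (Z n : ℕ) : ℕ := (n.primeFactors.filter (· ≤ Z)).card

/-- `n` has a prime factor above `Z`. -/
def big (Z n : ℕ) : Prop := ∃ p ∈ n.primeFactors, Z < p

instance (Z n : ℕ) : Decidable (big Z n) := by unfold big; infer_instance

/-- Ordered factorisations of `n` indexed by `κ`. -/
def tup (κ : Type) [Fintype κ] [DecidableEq κ] (n : ℕ) : Finset (κ → ℕ) :=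
  (Fintype.piFinset fun _ => n.divisors).filter fun A => ∏ u, A u = n

/-- Squarefree, prime to 6, and with few prime factors. -/
def good (g n : ℕ) : Prop := Squarefree n ∧ n.Coprime 6 ∧ 2 ^ om n ≤ g

instance (g n : ℕ) : Decidable (good g n) := by unfold good; infer_instance

/-- Typical integers. -/
def typ (g Z n : ℕ) : Prop :=
  Squarefree n ∧ n.Coprime 6 ∧ |(om n : ℝ) - Real.log g| ≤ Real.log g / 100 ∧
    (omZ Z n : ℝ) ≤ Real.log g / 100

noncomputable instance (g Z n : ℕ) : Decidable (typ g Z n) := Classical.dec _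

/-! ### The Selmer matrix -/

/-- Admissible data: the curve is `y^2 = x (x - a1 P) (x - b1 Q)`. -/
structure Adm (a1 b1 P Q c : ℕ) : Prop where
  hP : P.Prime
  hQ : Q.Prime
  sq : Squarefree (a1 * P * (b1 * Q) * c)
  eq : a1 * P = b1 * Q + 16 * c
  hb : b1 * Q % 4 = 1
  hc : c % 4 = 1

/-- The entries of the Selmer matrix. -/
def ent (a1 b1 c a : ℕ) : Option ℕ → Option ℕ → ZMod 2
  | none, none => 0
  | none, some p => if p ∣ c then 0 else lam p
  | some p, none => if p ∣ c then 0 else lam p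
  | some p, some q =>
    if p = q then (if p ∣ c then lj a p else lj p c)
    else if p ∣ a1 then (if q ∣ a1 then 0 else lj p q)
    else if p ∣ b1 then (if q ∣ a1 then lj q p else if q ∣ b1 then lam p * lam q else lj p q)
    else (if q ∣ c then 0 else lj q p)

/-- The index set of the Selmer matrix. -/
abbrev Ix (a1 b1 c : ℕ) : Type := Option {p // p ∈ (a1 * b1 * c).primeFactors}

/-- The Selmer matrix. -/
def mat (a1 b1 c a : ℕ) : Matrix (Ix a1 b1 c) (Ix a1 b1 c) (ZMod 2) :=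
  fun i j => ent a1 b1 c a (i.map Subtype.val) (j.map Subtype.val)

/-- The vector attached to a bit and a divisor. -/
def vecD (a1 b1 c : ℕ) (e : ZMod 2) (d : ℕ) : Ix a1 b1 c → ZMod 2 :=
  fun i => i.elim e fun p => if p.1 ∣ d then 1 else 0

/-- The vectors supported on small primes. -/
def Sm (a1 b1 c Z : ℕ) : Finset (Ix a1 b1 c → ZMod 2) :=
  univ.filter fun x => ∀ p : {p // p ∈ (a1 * b1 * c).primeFactors}, Z < p.1 → x (some p) = 0

/-- The number of small vectors in the kernel. -/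
def NS (Z a1 b1 c a : ℕ) : ℕ := ((Sm a1 b1 c Z).filter fun x => (mat a1 b1 c a).mulVec x = 0).card

/-- The parity of the Selmer rank. -/
noncomputable def sig (a1 b1 c a : ℕ) : ℝ :=
  (-1) ^ (om a1 + om b1 + om c + 1) * (J((a : ℤ) | c) : ℝ)

/-- The sum over the pairs outside the three main families. -/
noncomputable def E0 {ι : Type} [Fintype ι] [DecidableEq ι] (M : Matrix ι ι (ZMod 2))
    (w : ι → ZMod 2) (S : Finset (ι → ZMod 2)) : ℝ :=
  ∑ x : ι → ZMod 2, ∑ y : ι → ZMod 2,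
    if x ∉ S ∧ y ∉ S ∧ x + y + w ∉ S then sgn (x ⬝ᵥ M.mulVec y) else 0

/-- The character `J(. | D) chi4^e` is `1` at all prime factors of `n` above `Z`. -/
def killed (Z n D : ℕ) (e : ZMod 2) : Prop :=
  ∀ p ∈ n.primeFactors, Z < p → lj p D + e * lam p = 0 ∧ p.Coprime D

instance (Z n D : ℕ) (e : ZMod 2) : Decidable (killed Z n D e) := by unfold killed; infer_instance

/-- First count of small kernel vectors. -/
def n1 (Z a1 b1 c : ℕ) : ℕ :=
  ∑ B ∈ b1.divisors, ∑ C ∈ c.divisors, ∑ e : ZMod 2,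
    if ¬big Z B ∧ ¬big Z C ∧ ¬(B * C = 1 ∧ e = 0) ∧ killed Z a1 (B * C) e then 1 else 0

/-- Second count of small kernel vectors. -/
def n2 (Z a1 b1 : ℕ) : ℕ :=
  ∑ A ∈ a1.divisors, if ¬big Z A ∧ A ≠ 1 ∧ killed Z b1 A (lam A) then 1 else 0

/-! ### The expansion over types -/

/-- The part with first bit `1`. -/
def x1 (A : U → ℕ) : ℕ := A (1, 0) * A (1, 1)

/-- The part with second bit `1`. -/
def x2 (A : U → ℕ) : ℕ := A (0, 1) * A (1, 1)

/-- The sign coming from the primes of `a1`. -/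
noncomputable def sgA (e f : ZMod 2) (A : U → ℕ) : ℝ := sgn (e * lam (x2 A) + f * lam (x1 A))

/-- The sign coming from the primes of `b1`. -/
noncomputable def sgB (e f : ZMod 2) (B : U → ℕ) : ℝ :=
  sgn (lam (x1 B) * lam (x2 B) + lam (B (1, 1)) + e * lam (x2 B) + f * lam (x1 B))

/-- The symbols between the primes of `a1` and of `b1`. -/
noncomputable def kab (A B : U → ℕ) : ℝ := ∏ v, ∏ w, Jp (br v w) (A v) (B w)

/-- The symbols between a tuple and a factor `n` of `c` of type `u`. -/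
noncomputable def lkA (u : U) (A : U → ℕ) (n : ℕ) : ℝ := ∏ v, Jp (br v u + qf v) (A v) n

/-- All symbols with a factor `n` of `c` of type `u` below. -/
noncomputable def lk (τ : ZMod 2) (u : U) (A B : U → ℕ) (a n : ℕ) : ℝ :=
  lkA u A n * lkA u B n * Jp (qf u + τ) a n

/-- The types that contain a large prime. -/
def prof (Z : ℕ) (A : U → ℕ) : Finset U := univ.filter fun u => big Z (A u)

/-- The profiles outside the three main families. -/
def EEs (sA sB sC : Finset U) : Prop :=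
  (∃ u ∈ sA ∪ sB ∪ sC, u.1 = 1) ∧ (∃ u ∈ sA ∪ sB ∪ sC, u.2 = 1) ∧
    ((∃ u ∈ sA ∪ sB, u.1 + u.2 = 1) ∨ ∃ u ∈ sC, u.1 + u.2 = 0)

instance (sA sB sC : Finset U) : Decidable (EEs sA sB sC) := by unfold EEs; infer_instance

/-- The error term of the first moment (`τ = 0`) and of the twisted first moment (`τ = 1`). -/
noncomputable def Et (τ : ZMod 2) (Z a1 b1 c a : ℕ) : ℝ :=
  (sgn τ / 2) ^ (om a1 + om b1 + om c + 1) *
    ∑ e : ZMod 2, ∑ f : ZMod 2, ∑ A ∈ tup U a1, ∑ B ∈ tup U b1, ∑ C ∈ tup U c,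
      if EEs (prof Z A) (prof Z B) (prof Z C) then
        sgA e f A * sgB e f B * kab A B * ∏ u, lk τ u A B a (C u) else 0

/-! ### The family -/

/-- The size parameter. -/
def XX (g : ℕ) : ℕ := 2 ^ (40 * g)

/-- The range of the distinguished prime factor of `c`. -/
def RR (g : ℕ) : Finset ℕ := (Ioc (2 ^ (9 * g)) (2 ^ (18 * g))).filter Nat.Prime

/-- The weight of `c`. -/
def WW (g c : ℕ) : ℕ := ((RR g).filter (· ∣ c)).card

/-- A cell of the family. -/
structure Cell (g Z : ℕ) where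
  /-- dyadic range of `a1` -/
  i : ℕ
  /-- dyadic range of `b1` -/
  j : ℕ
  /-- the set of `a1` -/
  SA : Finset ℕ
  /-- the set of `b1` -/
  SB : Finset ℕ
  /-- the set of `P` -/
  SP : Finset ℕ
  /-- the set of `Q` -/
  SQ : Finset ℕ
  hi : 3 * g ≤ i
  hi' : i < 4 * g
  hj : g ≤ j
  hj' : j < 2 * g
  hA : ∀ a ∈ SA, 2 ^ i < a ∧ a ≤ 2 ^ (i + 1) ∧ typ g Z a
  hB : ∀ b ∈ SB, 2 ^ j < b ∧ b ≤ 2 ^ (j + 1) ∧ typ g Z b
  hP : ∀ P ∈ SP, P.Prime ∧ 8 * XX g < 2 ^ i * P ∧ 2 ^ i * P ≤ 32 * XX g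
  hQ : ∀ Q ∈ SQ, Q.Prime ∧ XX g < 2 ^ j * Q ∧ 2 ^ j * Q ≤ 4 * XX g
  mA : ∀ a ∈ SA, ∀ P ∈ SP, a * P % 192 = 145
  mB : ∀ b ∈ SB, ∀ Q ∈ SQ, b * Q % 192 = 65

/-- The sum over the family of a cell. -/
noncomputable def FS {g Z : ℕ} (C : Cell g Z) (f : ℕ → ℕ → ℕ → ℕ → ℕ → ℝ) : ℝ :=
  ∑ a ∈ C.SA, ∑ b ∈ C.SB, ∑ P ∈ C.SP, ∑ Q ∈ C.SQ, ∑ c ∈ Icc 1 (4 * XX g),
    if a.Coprime b ∧ a * P = b * Q + 16 * c ∧ typ g Z c then f a b P Q c else 0

/-- The sum over coprime pairs and their factorisations. -/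
noncomputable def PS {g Z : ℕ} (C : Cell g Z) {M : Type} [AddCommMonoid M]
    (f : ℕ → ℕ → (U → ℕ) → (U → ℕ) → M) : M :=
  ∑ a ∈ C.SA, ∑ b ∈ C.SB, if a.Coprime b then ∑ A ∈ tup U a, ∑ B ∈ tup U b, f a b A B else 0

/-- The basic multilinear sum; the component `none` of `D` is the distinguished prime, of type
`uR`. -/
noncomputable def TT {g Z : ℕ} (C : Cell g Z) (τ : ZMod 2) (uR : U) (gA gB : (U → ℕ) → ℝ)
    (φ : Option U → ℕ → ℝ) : ℝ :=
  FS C fun a b P _ c => ∑ A ∈ tup U a, ∑ B ∈ tup U b, ∑ D ∈ tup (Option U) c,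
    gA A * gB B * kab A B * ∏ o, (φ o (D o) * lk τ (o.getD uR) A B (a * P) (D o))

/-- Bounded weights. -/
structure Wt (g : ℕ) (gA gB : (U → ℕ) → ℝ) (φ : Option U → ℕ → ℝ) : Prop where
  hA : ∀ A, |gA A| ≤ 1
  hB : ∀ B, |gB B| ≤ 1
  hφ : ∀ o n, |φ o n| ≤ 1
  hR : ∀ n, φ none n ≠ 0 → n ∈ RR g

/-- The weight of a tuple with profile `s` and sign `sg`. -/
noncomputable def gw (τ : ZMod 2) (Z : ℕ) (sg : (U → ℕ) → ℝ) (s : Finset U) (A : U → ℕ) : ℝ :=
  if prof Z A = s then sg A * (sgn τ / 2) ^ om (∏ u, A u) else 0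

/-- The weights of the factors of `c`. -/
noncomputable def φw (g : ℕ) (τ : ZMod 2) (Z : ℕ) (thr : U → ℕ) (sC tC : Finset U) :
    Option U → ℕ → ℝ
  | none, n => if n ∈ RR g then sgn τ / 2 else 0
  | some u, n =>
    if (big Z n ↔ u ∈ sC) ∧ (thr u < n ↔ u ∈ tC) then (sgn τ / 2) ^ om n else 0

/-! ### Additive characters -/

/-- `e(t)`. -/
noncomputable def ex (t : ℝ) : ℂ := Complex.exp (((2 * Real.pi * t : ℝ) : ℂ) * Complex.I)

/-- The exponential sum. -/
noncomputable def FT (I : Finset ℤ) (H : ℤ → ℂ) (θ : ℝ) : ℂ := ∑ y ∈ I, H y * ex (θ * y)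

/-- The mass at the reduced fractions with denominator `q`. -/
noncomputable def Mq (I : Finset ℤ) (H : ℤ → ℂ) (q : ℕ) : ℝ :=
  ∑ h ∈ range q with h.Coprime q, ‖FT I H ((h : ℝ) / q)‖ ^ 2

/-- The mean square of the sums over residue classes. -/
noncomputable def Vr (I : Finset ℤ) (H : ℤ → ℂ) (D : ℕ) : ℝ :=
  ∑ r ∈ range D, ‖∑ y ∈ I with y % (D : ℤ) = r, H y‖ ^ 2

/-- The squared norm. -/
noncomputable def N2 (I : Finset ℤ) (H : ℤ → ℂ) : ℝ := ∑ y ∈ I, ‖H y‖ ^ 2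

/-- The `i`-th interval of length `l`. -/
noncomputable def Iv (l i : ℕ) : Finset ℤ := Ioc ((i : ℤ) * l) (((i : ℤ) + 1) * l)

/-- The cut-off weight. -/
noncomputable def clamp (V : ℕ) (v : ℝ) : ℝ := max 0 (min 1 (2 - |v| / V))

/-- The length of the short intervals. -/
def ell (g kK : ℕ) : ℕ := 64 * XX g / g ^ (3 * kK) + 1

/-- The major arc part of `H` on the interval `I` of length `l`. -/
noncomputable def flat (I : Finset ℤ) (l Q : ℕ) (H : ℤ → ℂ) (y : ℤ) : ℂ :=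
  ∑ q ∈ Icc 1 Q, ∑ h ∈ range q with h.Coprime q,
    FT I H ((h : ℝ) / q) / l * ex (-((h : ℝ) / q * y))

/-! ### Small facts -/

lemma ex_add (s t : ℝ) : ex (s + t) = ex s * ex t := by
  unfold ex; rw [← Complex.exp_add]; congr 1; push_cast; ring

lemma norm_ex (t : ℝ) : ‖ex t‖ = 1 := Complex.norm_exp_ofReal_mul_I _

lemma ex_zero : ex 0 = 1 := by simp [ex]

lemma ex_int (n : ℤ) : ex n = 1 := by
  unfold ex
  rw [← Complex.exp_int_mul_two_pi_mul_I n]; congr 1; push_cast; ring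

lemma conj_ex (t : ℝ) : (starRingEnd ℂ) (ex t) = ex (-t) := by
  unfold ex
  rw [← Complex.exp_conj, map_mul, Complex.conj_ofReal, Complex.conj_I]; congr 1
  push_cast; ring

lemma Mq_nonneg (I : Finset ℤ) (H : ℤ → ℂ) (q : ℕ) : 0 ≤ Mq I H q :=
  sum_nonneg fun _ _ => by positivity

lemma N2_nonneg (I : Finset ℤ) (H : ℤ → ℂ) : 0 ≤ N2 I H := sum_nonneg fun _ _ => by positivity

lemma abs_sgn (e : ZMod 2) : |sgn e| = 1 := by unfold sgn; split_ifs <;> simp

lemma sgn_add (e f : ZMod 2) : sgn (e + f) = sgn e * sgn f := by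
  have h : ∀ e : ZMod 2, e = 0 ∨ e = 1 := by decide
  have h2 : (1 : ZMod 2) + 1 = 0 := by decide
  rcases h e with rfl | rfl <;> rcases h f with rfl | rfl <;> simp [sgn, h2]

lemma abs_Jp_le (e : ZMod 2) (a n : ℕ) : |Jp e a n| ≤ 1 := by
  unfold Jp; split_ifs
  · simp
  · exact abs_jac_le _ _

lemma Jp_mul_left (e : ZMod 2) (a b n : ℕ) : Jp e (a * b) n = Jp e a n * Jp e b n := by
  unfold Jp; split_ifs
  · simp
  · push_cast; rw [jacobiSym.mul_left]; push_cast; rfl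

lemma Jp_mul_right (e : ZMod 2) (a : ℕ) {m n : ℕ} (hm : m ≠ 0) (hn : n ≠ 0) :
    Jp e a (m * n) = Jp e a m * Jp e a n := by
  unfold Jp; split_ifs
  · simp
  · rw [jacobiSym.mul_right' _ hm hn]; push_cast; rfl

lemma abs_prod_le_one {ι : Type*} (s : Finset ι) (f : ι → ℝ) (h : ∀ i ∈ s, |f i| ≤ 1) :
    |∏ i ∈ s, f i| ≤ 1 := by
  rw [abs_prod]; exact prod_le_one (fun _ _ => abs_nonneg _) h

lemma abs_kab_le (A B : U → ℕ) : |kab A B| ≤ 1 :=
  abs_prod_le_one _ _ fun _ _ => abs_prod_le_one _ _ fun _ _ => abs_Jp_le _ _ _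

lemma abs_lkA_le (u : U) (A : U → ℕ) (n : ℕ) : |lkA u A n| ≤ 1 :=
  abs_prod_le_one _ _ fun _ _ => abs_Jp_le _ _ _

lemma abs_lk_le (τ : ZMod 2) (u : U) (A B : U → ℕ) (a n : ℕ) : |lk τ u A B a n| ≤ 1 := by
  unfold lk
  rw [abs_mul, abs_mul]
  exact mul_le_one₀ (mul_le_one₀ (abs_lkA_le ..) (abs_nonneg _) (abs_lkA_le ..)) (abs_nonneg _)
    (abs_Jp_le ..)

lemma mem_tup {κ : Type} [Fintype κ] [DecidableEq κ] {n : ℕ} (hn : n ≠ 0) {A : κ → ℕ} :
    A ∈ tup κ n ↔ ∏ u, A u = n := by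
  simp only [tup, mem_filter, Fintype.mem_piFinset, Nat.mem_divisors, and_iff_right_iff_imp]
  rintro rfl u
  exact ⟨dvd_prod_of_mem _ (mem_univ u), hn⟩

lemma prod_of_mem_tup {κ : Type} [Fintype κ] [DecidableEq κ] {n : ℕ} {A : κ → ℕ}
    (h : A ∈ tup κ n) : ∏ u, A u = n := (mem_filter.1 h).2

end Pool.Agent.Lib.MP_788af2_nt.R0
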