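import Pool.Agent.Lib.MP_788af2_nt.R0.Defs

namespace Pool.Agent.Lib.MP_788af2_nt.R0

open Finset Filter
open scoped NumberTheorySymbols

/-! The local conditions satisfied by a rational point. -/

lemma desc1_dec {n : ℤ} (hn : 0 < n) :
    ∃ d s : ℕ, Squarefree d ∧ 0 < s ∧ n = (d : ℤ) * (s : ℤ) ^ 2 := by
  obtain ⟨m, rfl⟩ := Int.eq_ofNat_of_zero_le hn.le
  have hm : 0 < m := by exact_mod_cast hn
  obtain ⟨d, s, _, hs, hds, hsq⟩ := Nat.sq_mul_squarefree_of_pos hm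
  refine ⟨d, s, hsq, hs, ?_⟩
  rw [← hds]
  push_cast
  ring

lemma desc1_eq {x z m : ℕ} (hx : Squarefree x) (hz : Squarefree z) (h : x * z = m ^ 2) :
    z = x := by
  have h1 : x ∣ m := hx.isRadical 2 m ⟨z, h.symm⟩
  obtain ⟨k, rfl⟩ := h1
  have hx0 : x ≠ 0 := hx.ne_zero
  have h2 : z = x * (k * k) := by
    apply Nat.eq_of_mul_eq_mul_left (Nat.pos_of_ne_zero hx0)
    rw [h]; ring
  have h3 : IsUnit k := hz k ⟨x, by rw [h2]; ring⟩
  rw [Nat.isUnit_iff] at h3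
  rw [h2, h3]; ring

lemma desc1_three {d0 d1 d2 m : ℕ} (h0 : Squarefree d0) (h1 : Squarefree d1)
    (h2 : Squarefree d2) (h : d0 * d1 * d2 = m ^ 2) :
    ∃ A B C : ℕ, d0 = A * B ∧ d1 = A * C ∧ d2 = B * C := by
  have hg : 0 < Nat.gcd d0 d1 := Nat.gcd_pos_of_pos_left _ (Nat.pos_of_ne_zero h0.ne_zero)
  obtain ⟨B, C, hBC, e0, e1⟩ := Nat.exists_coprime d0 d1
  generalize Nat.gcd d0 d1 = A at hg e0 e1
  have hB : Squarefree B := h0.squarefree_of_dvd ⟨A, e0⟩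
  have hC : Squarefree C := h1.squarefree_of_dvd ⟨A, e1⟩
  have hA : A ∣ m := by
    rw [← Nat.pow_dvd_pow_iff two_ne_zero, ← h, e0, e1]
    exact ⟨B * C * d2, by ring⟩
  obtain ⟨k, rfl⟩ := hA
  have h3 : B * C * d2 = k ^ 2 := by
    apply Nat.eq_of_mul_eq_mul_left (pow_pos hg 2)
    rw [e0, e1] at h
    rw [← mul_pow, ← h]; ring
  refine ⟨A, B, C, by rw [e0]; ring, by rw [e1]; ring, ?_⟩
  exact desc1_eq ((Nat.squarefree_mul hBC).2 ⟨hB, hC⟩) h2 h3

lemma desc1_jac {p : ℕ} (hp : p.Prime) {X Y r s : ℤ} (h : (p : ℤ) ∣ X * r ^ 2 - Y * s ^ 2)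
    (hY : ¬(p : ℤ) ∣ Y * s ^ 2) : J(X * Y | p) = 1 := by
  have : Fact p.Prime := ⟨hp⟩
  have hpr : Prime (p : ℤ) := Nat.prime_iff_prime_int.1 hp
  have hr : ¬(p : ℤ) ∣ r := by
    intro hr
    apply hY
    have h1 : (p : ℤ) ∣ X * r ^ 2 := Dvd.dvd.mul_left (dvd_pow hr two_ne_zero) _
    have h2 := dvd_sub h1 h
    rwa [show X * r ^ 2 - (X * r ^ 2 - Y * s ^ 2) = Y * s ^ 2 by ring] at h2
  have hYs : ¬(p : ℤ) ∣ Y * s := by
    intro h1
    apply hY
    rw [show Y * s ^ 2 = Y * s * s by ring]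
    exact Dvd.dvd.mul_right h1 _
  have e1 : J(X * Y * r ^ 2 | p) = J((Y * s) ^ 2 | p) := by
    rw [show X * Y * r ^ 2 = (Y * s) ^ 2 + Y * (X * r ^ 2 - Y * s ^ 2) by ring]
    exact jac_add_dvd (Dvd.dvd.mul_left h _)
  rw [jacobiSym.mul_left, jacobiSym.pow_left, jacobiSym.pow_left] at e1
  rcases jac_unit hr with h1 | h1 <;> rcases jac_unit hYs with h2 | h2 <;>
    simpa [h1, h2] using e1

lemma desc1_sq8 {s : ℤ} (hs : s % 2 = 1) : s ^ 2 % 8 = 1 := by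
  have : s % 8 = 1 ∨ s % 8 = 3 ∨ s % 8 = 5 ∨ s % 8 = 7 := by omega
  rcases this with h | h | h | h <;> simp [pow_two, Int.mul_emod, h]

lemma desc1_mul8 {x s : ℤ} (hs : s % 2 = 1) : (x * s ^ 2) % 8 = x % 8 := by
  rw [Int.mul_emod, desc1_sq8 hs]; simp

lemma desc1_odd_of_mul {x z : ℤ} (h : (x * z) % 2 = 1) : x % 2 = 1 ∧ z % 2 = 1 := by
  rcases Int.emod_two_eq_zero_or_one x with h1 | h1 <;>
    rcases Int.emod_two_eq_zero_or_one z with h2 | h2 <;>
    simp [Int.mul_emod, h1, h2] at h ⊢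

lemma desc1_odd_mul {x z : ℤ} (hx : x % 2 = 1) (hz : z % 2 = 1) : (x * z) % 2 = 1 := by
  simp [Int.mul_emod, hx, hz]

lemma desc1_odd_of_sq {x s : ℤ} (h : (x * s ^ 2) % 2 = 1) : s % 2 = 1 := by
  have := (desc1_odd_of_mul h).2
  rw [pow_two] at this
  exact (desc1_odd_of_mul this).1

lemma desc1_cong {D A B : ℤ} (hD : D % 2 = 1) (hA : A % 2 = 1)
    (h : (D * A) % 4 = (D * B) % 4) : (A * B) % 4 = 1 := by
  have h1 : D % 4 = 1 ∨ D % 4 = 3 := by omega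
  have h2 : A % 4 = 1 ∨ A % 4 = 3 := by omega
  have h3 : B % 4 = 0 ∨ B % 4 = 1 ∨ B % 4 = 2 ∨ B % 4 = 3 := by omega
  rcases h1 with h1 | h1 <;> rcases h2 with h2 | h2 <;> rcases h3 with h3 | h3 | h3 | h3 <;>
    simp [Int.mul_emod, h1, h2, h3] at h ⊢

lemma desc1_cong2 {D A B : ℤ} (hD : D % 2 = 1) (hA : A % 2 = 1)
    (h : (D * B - D * A) % 4 = 2) : (A * B) % 4 = 3 := by
  have h1 : D % 4 = 1 ∨ D % 4 = 3 := by omega
  have h2 : A % 4 = 1 ∨ A % 4 = 3 := by omega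
  have h3 : B % 4 = 0 ∨ B % 4 = 1 ∨ B % 4 = 2 ∨ B % 4 = 3 := by omega
  rcases h1 with h1 | h1 <;> rcases h2 with h2 | h2 <;> rcases h3 with h3 | h3 | h3 | h3 <;>
    simp [Int.mul_emod, Int.sub_emod, h1, h2, h3] at h ⊢

/-- The conditions at the prime 2 when the third factor is odd. -/
lemma desc1_two_odd {a c u t A B D s0 s1 s2 : ℤ} (ha : a % 4 = 1)
    (hut : t % 2 = 0 → u % 2 = 1) (hA : A % 2 = 1) (hD : D % 2 = 1)
    (e0 : u = A * B * s0 ^ 2) (e1 : u - a * t ^ 2 = D * A * s1 ^ 2)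
    (e2 : u - a * t ^ 2 + 16 * (c * t ^ 2) = D * B * s2 ^ 2) : (A * B) % 4 = 1 := by
  rcases Int.emod_two_eq_zero_or_one s1 with h1 | h1
  · obtain ⟨k, rfl⟩ : ∃ k, s1 = 2 * k := ⟨s1 / 2, by omega⟩
    have e3 : u - a * t ^ 2 = 4 * (D * A * k ^ 2) := by rw [e1]; ring
    have ht : t % 2 = 1 := by
      rcases Int.emod_two_eq_zero_or_one t with h | h
      · exfalso
        have hu := hut h
        obtain ⟨j, rfl⟩ : ∃ j, t = 2 * j := ⟨t / 2, by omega⟩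
        have : a * (2 * j) ^ 2 = 4 * (a * j ^ 2) := by ring
        omega
      · exact h
    have h4 := desc1_mul8 (x := a) ht
    have hu : u % 4 = 1 := by omega
    have hs0 : s0 % 2 = 1 := desc1_odd_of_sq (x := A * B) (by rw [← e0]; omega)
    have h5 := desc1_mul8 (x := A * B) hs0
    omega
  · have h4 := desc1_mul8 (x := D * A) h1
    have h5 := desc1_odd_mul hD hA
    have hs2 : s2 % 2 = 1 := desc1_odd_of_sq (x := D * B) (by rw [← e2]; omega)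
    have h6 := desc1_mul8 (x := D * B) hs2
    exact desc1_cong hD hA (by omega)

/-- The third factor cannot be even. -/
lemma desc1_two_even {a c u t A B D s0 s1 s2 : ℤ} (ha : a % 4 = 1) (hc : c % 2 = 1)
    (hut : t % 2 = 0 → u % 2 = 1) (hA : A % 2 = 1) (hB : B % 2 = 1) (hD : D % 2 = 1)
    (e0 : u = A * B * s0 ^ 2) (e1 : u - a * t ^ 2 = 2 * (D * A * s1 ^ 2))
    (e2 : u - a * t ^ 2 + 16 * (c * t ^ 2) = 2 * (D * B * s2 ^ 2)) : False := by
  have ht : t % 2 = 1 := by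
    rcases Int.emod_two_eq_zero_or_one t with h | h
    · exfalso
      have hu := hut h
      obtain ⟨j, rfl⟩ : ∃ j, t = 2 * j := ⟨t / 2, by omega⟩
      have : a * (2 * j) ^ 2 = 4 * (a * j ^ 2) := by ring
      omega
    · exact h
  have h4 := desc1_mul8 (x := a) ht
  have h4' := desc1_mul8 (x := c) ht
  have hs0 : s0 % 2 = 1 := desc1_odd_of_sq (x := A * B) (by rw [← e0]; omega)
  have h5 := desc1_mul8 (x := A * B) hs0
  have hDA := desc1_odd_mul hD hA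
  have hDB := desc1_odd_mul hD hB
  rcases Int.emod_two_eq_zero_or_one s1 with h1 | h1
  · obtain ⟨k, rfl⟩ : ∃ k, s1 = 2 * k := ⟨s1 / 2, by omega⟩
    have e3 : D * A * (2 * k) ^ 2 = 4 * (D * A * k ^ 2) := by ring
    rcases Int.emod_two_eq_zero_or_one s2 with h2 | h2
    · obtain ⟨j, rfl⟩ : ∃ j, s2 = 2 * j := ⟨s2 / 2, by omega⟩
      have e4 : D * B * (2 * j) ^ 2 = 4 * (D * B * j ^ 2) := by ring
      have e5 : D * B * j ^ 2 - D * A * k ^ 2 = 2 * (c * t ^ 2) := by omega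
      rcases Int.emod_two_eq_zero_or_one k with h3 | h3
      · obtain ⟨k', rfl⟩ : ∃ k', k = 2 * k' := ⟨k / 2, by omega⟩
        have e6 : D * A * (2 * k') ^ 2 = 4 * (D * A * k' ^ 2) := by ring
        rcases Int.emod_two_eq_zero_or_one j with h6 | h6
        · obtain ⟨j', rfl⟩ : ∃ j', j = 2 * j' := ⟨j / 2, by omega⟩
          have e7 : D * B * (2 * j') ^ 2 = 4 * (D * B * j' ^ 2) := by ring
          omega
        · have h7 := desc1_mul8 (x := D * B) h6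
          omega
      · have h7 := desc1_mul8 (x := D * A) h3
        have h6 : j % 2 = 1 := desc1_odd_of_sq (x := D * B) (by omega)
        have h8 := desc1_mul8 (x := D * B) h6
        have h9 := desc1_cong2 (B := B) hD hA (by omega)
        omega
    · have h7 := desc1_mul8 (x := D * B) h2
      omega
  · have h7 := desc1_mul8 (x := D * A) h1
    have h6 : s2 % 2 = 1 := desc1_odd_of_sq (x := D * B) (by omega)
    have h8 := desc1_mul8 (x := D * B) h6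
    have h9 := desc1_cong (B := B) hD hA (by omega)
    omega

/-- A prime dividing the difference exactly once cannot divide two terms of even valuation. -/
lemma desc1_not_dvd {p : ℕ} (hp : p.Prime) {X Y r s w t : ℤ}
    (h : X * r ^ 2 - Y * s ^ 2 = w * t ^ 2) (hX : ¬(p : ℤ) ∣ X) (hY : ¬(p : ℤ) ∣ Y)
    (hw : (p : ℤ) ∣ w) (hw2 : ¬(p : ℤ) ^ 2 ∣ w) (ht : (p : ℤ) ∣ Y * s ^ 2 → ¬(p : ℤ) ∣ t) :
    ¬(p : ℤ) ∣ Y * s ^ 2 := by
  have hpr : Prime (p : ℤ) := Nat.prime_iff_prime_int.1 hp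
  intro h1
  have h2 : (p : ℤ) ∣ X * r ^ 2 := by
    rw [show X * r ^ 2 = w * t ^ 2 + Y * s ^ 2 by linear_combination h]
    exact dvd_add (Dvd.dvd.mul_right hw _) h1
  have hs : (p : ℤ) ∣ s := hpr.dvd_of_dvd_pow ((hpr.dvd_or_dvd h1).resolve_left hY)
  have hr : (p : ℤ) ∣ r := hpr.dvd_of_dvd_pow ((hpr.dvd_or_dvd h2).resolve_left hX)
  have h3 : (p : ℤ) ^ 2 ∣ w * t ^ 2 := by
    rw [← h]
    exact dvd_sub (Dvd.dvd.mul_left (pow_dvd_pow_of_dvd hr 2) _)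
      (Dvd.dvd.mul_left (pow_dvd_pow_of_dvd hs 2) _)
  apply hw2
  have h4 : IsCoprime ((p : ℤ) ^ 2) (t ^ 2) :=
    (hpr.irreducible.coprime_iff_not_dvd.2 (ht h1)).pow
  exact h4.dvd_of_dvd_mul_right h3

lemma desc1_shape {a b c : ℕ} (he : a = b + 16 * c) {u t y : ℤ} (hut : IsCoprime u t)
    (h0 : u ≠ 0) (h1 : u - a * t ^ 2 ≠ 0) (h2 : u - b * t ^ 2 ≠ 0)
    (hy : u * (u - a * t ^ 2) * (u - b * t ^ 2) = y ^ 2) :
    ∃ (A B C : ℕ) (ε s0 s1 s2 : ℤ), (ε = 1 ∨ ε = -1) ∧ A ∣ a ∧ B ∣ b ∧ C ∣ 16 * c ∧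
      Squarefree C ∧ u = A * B * s0 ^ 2 ∧ u - a * t ^ 2 = ε * (A * C) * s1 ^ 2 ∧
      u - b * t ^ 2 = ε * (B * C) * s2 ^ 2 := by
  have hat : (0 : ℤ) ≤ a * t ^ 2 := by positivity
  have hbt : (0 : ℤ) ≤ b * t ^ 2 := by positivity
  have hy0 : 0 ≤ u * (u - a * t ^ 2) * (u - b * t ^ 2) := by rw [hy]; positivity
  have hu : 0 < u := by
    by_contra hu
    have hu' : u < 0 := lt_of_le_of_ne (not_lt.1 hu) h0
    have h3 : 0 < u * (u - a * t ^ 2) := mul_pos_of_neg_of_neg hu' (by linarith)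
    have h4 := mul_neg_of_pos_of_neg h3 (show u - b * t ^ 2 < 0 by linarith)
    linarith
  obtain ⟨ε, hε, p1, p2⟩ : ∃ ε : ℤ, (ε = 1 ∨ ε = -1) ∧ 0 < ε * (u - a * t ^ 2) ∧
      0 < ε * (u - b * t ^ 2) := by
    rcases lt_or_gt_of_ne h1 with h3 | h3 <;> rcases lt_or_gt_of_ne h2 with h4 | h4
    · exact ⟨-1, Or.inr rfl, by linarith, by linarith⟩
    · exfalso
      have := mul_neg_of_neg_of_pos (mul_neg_of_pos_of_neg hu h3) h4
      linarith
    · exfalso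
      have := mul_neg_of_pos_of_neg (mul_pos hu h3) h4
      linarith
    · exact ⟨1, Or.inl rfl, by linarith, by linarith⟩
  have hε2 : ε * ε = 1 := by rcases hε with h | h <;> simp [h]
  obtain ⟨d0, s0, q0, r0, e0⟩ := desc1_dec hu
  obtain ⟨d1, s1, q1, r1, e1⟩ := desc1_dec p1
  obtain ⟨d2, s2, q2, r2, e2⟩ := desc1_dec p2
  have e3 : (d0 * d1 * d2 : ℤ) * ((s0 : ℤ) * s1 * s2) ^ 2 = y ^ 2 := by
    have : u * (ε * (u - a * t ^ 2)) * (ε * (u - b * t ^ 2)) = y ^ 2 := by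
      rw [← hy]
      linear_combination (u * (u - a * t ^ 2) * (u - b * t ^ 2)) * hε2
    rw [e1, e2] at this
    rw [← this]
    conv_rhs => rw [e0]
    ring
  have e4 : ((s0 : ℤ) * s1 * s2) ∣ y := by
    rw [← Int.pow_dvd_pow_iff two_ne_zero, ← e3]
    exact Dvd.intro_left _ rfl
  obtain ⟨m, rfl⟩ := e4
  have e5 : (d0 * d1 * d2 : ℤ) = m ^ 2 := by
    have hs : ((s0 : ℤ) * s1 * s2) ^ 2 ≠ 0 := by positivity
    apply mul_right_cancel₀ hs
    rw [e3]; ring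
  have e6 : d0 * d1 * d2 = m.natAbs ^ 2 := by
    have : ((d0 * d1 * d2 : ℕ) : ℤ) = ((m.natAbs ^ 2 : ℕ) : ℤ) := by
      push_cast
      rw [e5, sq_abs]
    exact_mod_cast this
  obtain ⟨A, B, C, rfl, rfl, rfl⟩ := desc1_three q0 q1 q2 e6
  push_cast at e0 e1 e2
  have f1 : u - a * t ^ 2 = ε * (A * C) * (s1 : ℤ) ^ 2 := by
    linear_combination ε * e1 - (u - a * t ^ 2) * hε2
  have f2 : u - b * t ^ 2 = ε * (B * C) * (s2 : ℤ) ^ 2 := by
    linear_combination ε * e2 - (u - b * t ^ 2) * hε2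
  have hAu : (A : ℤ) ∣ u := ⟨B * (s0 : ℤ) ^ 2, by rw [e0]; ring⟩
  have hBu : (B : ℤ) ∣ u := ⟨A * (s0 : ℤ) ^ 2, by rw [e0]; ring⟩
  have hC1 : (C : ℤ) ∣ u - a * t ^ 2 := ⟨ε * A * (s1 : ℤ) ^ 2, by rw [f1]; ring⟩
  have hC2 : (C : ℤ) ∣ u - b * t ^ 2 := ⟨ε * B * (s2 : ℤ) ^ 2, by rw [f2]; ring⟩
  refine ⟨A, B, C, ε, s0, s1, s2, hε, ?_, ?_, ?_, q1.squarefree_of_dvd (Dvd.intro_left _ rfl),
    e0, f1, f2⟩
  · have h3 : (A : ℤ) ∣ u - a * t ^ 2 := ⟨ε * C * (s1 : ℤ) ^ 2, by rw [f1]; ring⟩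
    have h4 := dvd_sub hAu h3
    rw [show u - (u - a * t ^ 2) = a * t ^ 2 by ring] at h4
    have h5 : IsCoprime (A : ℤ) (t ^ 2) := (hut.of_isCoprime_of_dvd_left hAu).pow_right
    exact_mod_cast h5.dvd_of_dvd_mul_right h4
  · have h3 : (B : ℤ) ∣ u - b * t ^ 2 := ⟨ε * C * (s2 : ℤ) ^ 2, by rw [f2]; ring⟩
    have h4 := dvd_sub hBu h3
    rw [show u - (u - b * t ^ 2) = b * t ^ 2 by ring] at h4
    have h5 : IsCoprime (B : ℤ) (t ^ 2) := (hut.of_isCoprime_of_dvd_left hBu).pow_right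
    exact_mod_cast h5.dvd_of_dvd_mul_right h4
  · have h4 := dvd_sub hC2 hC1
    rw [show u - b * t ^ 2 - (u - a * t ^ 2) = ((16 * c : ℕ) : ℤ) * t ^ 2 by
      rw [he]; push_cast; ring] at h4
    have h6 : IsCoprime (u - a * t ^ 2) t := by
      have := hut.add_mul_right_left (-(a * t))
      rwa [show u + -(a * t) * t = u - a * t ^ 2 by ring] at this
    have h5 : IsCoprime (C : ℤ) (t ^ 2) := (h6.of_isCoprime_of_dvd_left hC1).pow_right
    exact_mod_cast h5.dvd_of_dvd_mul_right h4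

theorem sel_data {a b c : ℕ} (hsq : Squarefree (a * b * c)) (he : a = b + 16 * c)
    (hb : b % 4 = 1) (hc : c % 4 = 1) {u t y : ℤ} (hut : IsCoprime u t) (h0 : u ≠ 0)
    (h1 : u - a * t ^ 2 ≠ 0) (h2 : u - b * t ^ 2 ≠ 0)
    (hy : u * (u - a * t ^ 2) * (u - b * t ^ 2) = y ^ 2) :
    ∃ (A B C : ℕ) (ε : ℤ), (ε = 1 ∨ ε = -1) ∧ A ∣ a ∧ B ∣ b ∧ C ∣ c ∧
      IsSquare (u * (A * B)) ∧ IsSquare ((u - a * t ^ 2) * (ε * (A * C))) ∧ A * B % 4 = 1 ∧
      (∀ p : ℕ, p.Prime → p ∣ a → J(ε * (B * C) * (if p ∣ A then (c : ℤ) else 1) | p) = 1) ∧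
      (∀ p : ℕ, p.Prime → p ∣ b → J(ε * (A * C) * (if p ∣ B then -(c : ℤ) else 1) | p) = 1) ∧
      (∀ p : ℕ, p.Prime → p ∣ c → J((A * B : ℤ) * (if p ∣ C then (a : ℤ) else 1) | p) = 1) := by
  obtain ⟨A, B, C, ε, s0, s1, s2, hε, hA, hB, hC, hCs, e0, e1, e2⟩ :=
    desc1_shape he hut h0 h1 h2 hy
  have hε2 : ε * ε = 1 := by rcases hε with h | h <;> simp [h]
  have hε3 : ε % 2 = 1 := by rcases hε with h | h <;> simp [h]
  have hez : (a : ℤ) = b + 16 * c := by exact_mod_cast he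
  have ha : a % 4 = 1 := by omega
  have odd_of : ∀ {x z : ℕ}, x ∣ z → z % 4 = 1 → x % 2 = 1 := by
    intro x z hxz hz
    by_contra hx
    have : 2 ∣ z := (Nat.dvd_of_mod_eq_zero (by omega : x % 2 = 0)).trans hxz
    omega
  have hAo : (A : ℤ) % 2 = 1 := by have := odd_of hA ha; omega
  have hBo : (B : ℤ) % 2 = 1 := by have := odd_of hB hb; omega
  have hut2 : t % 2 = 0 → u % 2 = 1 := by
    intro ht
    by_contra hu
    have := hut.isUnit_of_dvd' (x := 2) (by omega) (by omega)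
    rcases Int.isUnit_iff.1 this with h | h <;> omega
  have hCo : C % 2 = 1 := by
    by_contra hC2
    obtain ⟨D, rfl⟩ : ∃ D, C = 2 * D := ⟨C / 2, by omega⟩
    have hD : (D : ℤ) % 2 = 1 := by
      by_contra hD
      obtain ⟨E, rfl⟩ : ∃ E, D = 2 * E := ⟨D / 2, by omega⟩
      have := hCs 2 ⟨E, by ring⟩
      simp at this
    refine desc1_two_even (a := a) (c := c) (D := ε * D) (s0 := s0) (s1 := s1) (s2 := s2)
      (by omega) (by omega) hut2 hAo hBo (desc1_odd_mul hε3 hD) e0 ?_ ?_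
    · rw [e1]; push_cast; ring
    · push_cast at e2
      linear_combination e2 - t ^ 2 * hez
  have hCc : C ∣ c := by
    have : Nat.Coprime C 16 := by
      rw [show 16 = 2 ^ 4 by norm_num]
      exact Nat.Coprime.pow_right _ ((Nat.coprime_two_right).2 (Nat.odd_iff.2 hCo))
    exact this.dvd_of_dvd_mul_left hC
  have hAB : ((A : ℤ) * B) % 4 = 1 := by
    refine desc1_two_odd (a := a) (c := c) (D := ε * C) (s0 := s0) (s1 := s1) (s2 := s2)
      (by omega) hut2 hAo (desc1_odd_mul hε3 (by omega)) e0 ?_ ?_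
    · rw [e1]; ring
    · linear_combination e2 - t ^ 2 * hez
  obtain ⟨cabc, sab, sc⟩ := Nat.squarefree_mul_iff.1 hsq
  obtain ⟨cab, sa, sb⟩ := Nat.squarefree_mul_iff.1 sab
  have cac : Nat.Coprime a c := Nat.Coprime.coprime_mul_right_right cabc.symm |>.symm
  have cbc : Nat.Coprime b c := Nat.Coprime.coprime_mul_left_right cabc.symm |>.symm
  have nd : ∀ {p x z w : ℕ}, p.Prime → Nat.Coprime x z → p ∣ x → w ∣ z → ¬(p : ℤ) ∣ w := by
    intro p x z w hp hxz hx hw h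
    have h3 : p ∣ z := (Int.natCast_dvd_natCast.1 h).trans hw
    exact hp.one_lt.ne' (Nat.eq_one_of_dvd_coprimes hxz hx h3)
  have nsq : ∀ {p x : ℕ}, p.Prime → Squarefree x → ¬(p : ℤ) ^ 2 ∣ x := by
    intro p x hp hx h
    have h3 : p * p ∣ x := by
      rw [← sq]; exact_mod_cast h
    exact hp.not_isUnit (hx p h3)
  have nε : ∀ {p : ℕ}, p.Prime → ¬(p : ℤ) ∣ ε := by
    intro p hp h
    have h3 : (p : ℤ) ∣ 1 := by rw [← hε2]; exact Dvd.dvd.mul_right h _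
    exact (Nat.prime_iff_prime_int.1 hp).not_dvd_one h3
  have n16 : ∀ {p x : ℕ}, p.Prime → p ∣ x → x % 4 = 1 → ¬(p : ℤ) ∣ 4 := by
    intro p x hp hx hx4 h
    have h3 : p ∣ 2 ^ 2 := by exact_mod_cast h
    have h4 := (Nat.prime_dvd_prime_iff_eq hp Nat.prime_two).1 (hp.dvd_of_dvd_pow h3)
    have := odd_of hx hx4
    omega
  have nt : ∀ {p : ℕ}, p.Prime → (p : ℤ) ∣ u → ¬(p : ℤ) ∣ t := by
    intro p hp hu ht
    exact (Nat.prime_iff_prime_int.1 hp).not_isUnit (hut.isUnit_of_dvd' hu ht)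
  have nt1 : ∀ {p : ℕ}, p.Prime → (p : ℤ) ∣ u - a * t ^ 2 → ¬(p : ℤ) ∣ t := by
    intro p hp hu ht
    have h3 : (p : ℤ) ∣ a * t ^ 2 := Dvd.dvd.mul_left (dvd_pow ht two_ne_zero) _
    have h4 := dvd_add hu h3
    rw [sub_add_cancel] at h4
    exact nt hp h4 ht
  have nmul : ∀ {p : ℕ} {x z : ℤ}, p.Prime → ¬(p : ℤ) ∣ x → ¬(p : ℤ) ∣ z → ¬(p : ℤ) ∣ x * z := by
    intro p x z hp hx hz h
    exact ((Nat.prime_iff_prime_int.1 hp).dvd_or_dvd h).elim hx hz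
  have npow : ∀ {p : ℕ} {x : ℤ}, p.Prime → ¬(p : ℤ) ∣ x → ¬(p : ℤ) ∣ x ^ 2 := by
    intro p x hp hx h
    exact hx ((Nat.prime_iff_prime_int.1 hp).dvd_of_dvd_pow h)
  refine ⟨A, B, C, ε, hε, hA, hB, hCc, ⟨A * B * s0, by rw [e0]; ring⟩,
    ⟨ε * (A * C) * s1, by rw [e1]; ring⟩, by omega, ?_, ?_, ?_⟩
  · intro p hp hpa
    have hpa' : (p : ℤ) ∣ a := Int.natCast_dvd_natCast.2 hpa
    split_ifs with hpA
    · have hpu : (p : ℤ) ∣ u := by
        rw [e0, mul_assoc]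
        exact Dvd.dvd.mul_right (Int.natCast_dvd_natCast.2 hpA) _
      apply desc1_jac hp (r := s2) (s := 4 * t)
      · rw [show ε * (B * C) * s2 ^ 2 - c * (4 * t) ^ 2 = u - a * t ^ 2 by
          linear_combination t ^ 2 * hez - e2]
        exact dvd_sub hpu (Dvd.dvd.mul_right hpa' _)
      · exact nmul hp (nd hp cac hpa dvd_rfl) (npow hp (nmul hp (n16 hp hpa ha) (nt hp hpu)))
    · have hpA' : ¬(p : ℤ) ∣ A := fun h => hpA (Int.natCast_dvd_natCast.1 h)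
      have hpB := nd hp cab hpa hB
      have hpC := nd hp cac hpa hCc
      have h3 : ¬(p : ℤ) ∣ (A * B) * s0 ^ 2 := by
        refine desc1_not_dvd hp (X := ε * (A * C)) (r := s1) (w := -a) (t := t) ?_
          (nmul hp (nε hp) (nmul hp hpA' hpC)) (nmul hp hpA' hpB) (dvd_neg.2 hpa')
          (fun h => nsq hp sa (dvd_neg.1 h)) (fun h => nt hp (by rwa [e0]))
        linear_combination e0 - e1
      have h4 : J(ε * C * B | p) = 1 := by
        apply desc1_jac hp (r := A * s1) (s := A * s0)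
        · rw [show ε * C * (A * s1) ^ 2 - B * (A * s0) ^ 2 = a * (-(A * t ^ 2)) by
            linear_combination (A : ℤ) * e0 - A * e1]
          exact Dvd.dvd.mul_right hpa' _
        · rw [show (B : ℤ) * (A * s0) ^ 2 = A * (A * B * s0 ^ 2) by ring]
          exact nmul hp hpA' h3
      rwa [show ε * (B * C) * 1 = ε * C * B by ring]
  · intro p hp hpb
    have hpb' : (p : ℤ) ∣ b := Int.natCast_dvd_natCast.2 hpb
    split_ifs with hpB
    · have hpu : (p : ℤ) ∣ u := by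
        rw [e0, mul_comm (A : ℤ), mul_assoc]
        exact Dvd.dvd.mul_right (Int.natCast_dvd_natCast.2 hpB) _
      apply desc1_jac hp (r := s1) (s := 4 * t)
      · rw [show ε * (A * C) * s1 ^ 2 - -c * (4 * t) ^ 2 = u - b * t ^ 2 by
          linear_combination -t ^ 2 * hez - e1]
        exact dvd_sub hpu (Dvd.dvd.mul_right hpb' _)
      · exact nmul hp (fun h => nd hp cbc hpb dvd_rfl (dvd_neg.1 h))
          (npow hp (nmul hp (n16 hp hpb hb) (nt hp hpu)))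
    · have hpB' : ¬(p : ℤ) ∣ B := fun h => hpB (Int.natCast_dvd_natCast.1 h)
      have hpA := nd hp cab.symm hpb hA
      have hpC := nd hp cbc hpb hCc
      have h3 : ¬(p : ℤ) ∣ (A * B) * s0 ^ 2 := by
        refine desc1_not_dvd hp (X := ε * (B * C)) (r := s2) (w := -b) (t := t) ?_
          (nmul hp (nε hp) (nmul hp hpB' hpC)) (nmul hp hpA hpB') (dvd_neg.2 hpb')
          (fun h => nsq hp sb (dvd_neg.1 h)) (fun h => nt hp (by rwa [e0]))
        linear_combination e0 - e2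
      have h4 : J(ε * C * A | p) = 1 := by
        apply desc1_jac hp (r := B * s2) (s := B * s0)
        · rw [show ε * C * (B * s2) ^ 2 - A * (B * s0) ^ 2 = b * (-(B * t ^ 2)) by
            linear_combination (B : ℤ) * e0 - B * e2]
          exact Dvd.dvd.mul_right hpb' _
        · rw [show (A : ℤ) * (B * s0) ^ 2 = B * (A * B * s0 ^ 2) by ring]
          exact nmul hp hpB' h3
      rwa [show ε * (A * C) * 1 = ε * C * A by ring]
  · intro p hp hpc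
    have hpc' : (p : ℤ) ∣ c := Int.natCast_dvd_natCast.2 hpc
    split_ifs with hpC
    · have hp1 : (p : ℤ) ∣ u - a * t ^ 2 := by
        rw [e1]
        exact Dvd.dvd.mul_right (Dvd.dvd.mul_left (Dvd.dvd.mul_left
          (Int.natCast_dvd_natCast.2 hpC) _) _) _
      apply desc1_jac hp (r := s0) (s := t)
      · rw [← e0]; exact hp1
      · exact nmul hp (nd hp cac.symm hpc dvd_rfl) (npow hp (nt1 hp hp1))
    · have hpC' : ¬(p : ℤ) ∣ C := fun h => hpC (Int.natCast_dvd_natCast.1 h)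
      have hpA := nd hp cac.symm hpc hA
      have hpB := nd hp cbc.symm hpc hB
      have h4p := n16 hp hpc hc
      have h3 : ¬(p : ℤ) ∣ ε * (A * C) * s1 ^ 2 := by
        refine desc1_not_dvd hp (X := ε * (B * C)) (r := s2) (w := c) (t := 4 * t) ?_
          (nmul hp (nε hp) (nmul hp hpB hpC')) (nmul hp (nε hp) (nmul hp hpA hpC')) hpc'
          (nsq hp sc) (fun h => nmul hp h4p (nt1 hp (by rwa [e1])))
        linear_combination e1 - e2 + t ^ 2 * hez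
      have h4 : J((B : ℤ) * A | p) = 1 := by
        apply desc1_jac hp (r := ε * C * s2) (s := ε * C * s1)
        · rw [show (B : ℤ) * (ε * C * s2) ^ 2 - A * (ε * C * s1) ^ 2 =
              c * (ε * C * 16 * t ^ 2) by
            linear_combination (ε * C) * e1 - (ε * C) * e2 + (ε * C * t ^ 2) * hez]
          exact Dvd.dvd.mul_right hpc' _
        · rw [show (A : ℤ) * (ε * C * s1) ^ 2 = ε * C * (ε * (A * C) * s1 ^ 2) by ring]
          exact nmul hp (nmul hp (nε hp) hpC') h3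
      rwa [show (A * B : ℤ) * 1 = B * A by ring]

end Pool.Agent.Lib.MP_788af2_nt.R0
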