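import Pool.Agent.Lib.MP_788af2_nt.R0.Rows

namespace Pool.Agent.Lib.MP_788af2_nt.R0

open Finset Filter
open scoped NumberTheorySymbols

/-! A trivial kernel forces trivial Selmer data. -/

/-- The bit of a Jacobi symbol with an integer on top. -/
def desc2_bit (z : ℤ) (n : ℕ) : ZMod 2 := if J(z | n) = -1 then 1 else 0

lemma desc2_bit_nat (a n : ℕ) : desc2_bit (a : ℤ) n = lj a n := rfl

lemma desc2_bit_one (n : ℕ) : desc2_bit 1 n = 0 := by
  simp [desc2_bit, jacobiSym.one_left]

lemma desc2_bit_mul {x y : ℤ} {n : ℕ} (h : J(x * y | n) ≠ 0) :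
    desc2_bit (x * y) n = desc2_bit x n + desc2_bit y n := by
  have h2 : (1 : ZMod 2) + 1 = 0 := by decide
  unfold desc2_bit
  rw [jacobiSym.mul_left] at h ⊢
  rcases jacobiSym.trichotomy x n with hx | hx | hx <;>
    rcases jacobiSym.trichotomy y n with hy | hy | hy <;>
    simp [hx, hy, h2] at h ⊢

lemma desc2_ne_left {x y : ℤ} {n : ℕ} (h : J(x * y | n) ≠ 0) : J(x | n) ≠ 0 := by
  rw [jacobiSym.mul_left] at h
  exact left_ne_zero_of_mul h

lemma desc2_ne_right {x y : ℤ} {n : ℕ} (h : J(x * y | n) ≠ 0) : J(y | n) ≠ 0 := by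
  rw [jacobiSym.mul_left] at h
  exact right_ne_zero_of_mul h

lemma desc2_three {x y w : ℤ} {n : ℕ} (h : J(x * y * w | n) = 1) :
    desc2_bit x n + desc2_bit y n + desc2_bit w n = 0 := by
  have h0 : J(x * y * w | n) ≠ 0 := by rw [h]; exact one_ne_zero
  rw [← desc2_bit_mul (desc2_ne_left h0), ← desc2_bit_mul h0]
  simp [desc2_bit, h]

lemma desc2_four {x y z w : ℤ} {n : ℕ} (h : J(x * (y * z) * w | n) = 1) :
    desc2_bit x n + desc2_bit y n + desc2_bit z n + desc2_bit w n = 0 := by
  have h0 : J(x * (y * z) * w | n) ≠ 0 := by rw [h]; exact one_ne_zero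
  have h3 := desc2_three h
  rw [desc2_bit_mul (desc2_ne_right (desc2_ne_left h0))] at h3
  rw [← h3]; ring

lemma desc2_neg_one {n : ℕ} (hn : Odd n) : desc2_bit (-1) n = lam n := by
  unfold desc2_bit lam
  rw [jacobiSym.at_neg_one hn, ZMod.χ₄_nat_eq_if_mod_four]
  have h2 : n % 2 = 1 := Nat.odd_iff.1 hn
  have h4 : n % 4 = 1 ∨ n % 4 = 3 := by omega
  rcases h4 with h4 | h4 <;> simp [h2, h4]

lemma desc2_eps {ε : ℤ} (hε : ε = 1 ∨ ε = -1) {n : ℕ} (hn : Odd n) :
    desc2_bit ε n = (if ε = -1 then 1 else 0) * lam n := by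
  rcases hε with rfl | rfl
  · simp [desc2_bit_one]
  · simp [desc2_neg_one hn]

lemma desc2_lam_of_one {n : ℕ} (h : n % 4 = 1) : lam n = 0 := by
  simp [lam, h]

theorem sel_trivial {a1 b1 P Q c : ℕ} (h : Adm a1 b1 P Q c)
    (hk : ∀ x, (mat a1 b1 c (a1 * P)).mulVec x = 0 → x = 0) {A B C : ℕ} {ε : ℤ}
    (hε : ε = 1 ∨ ε = -1) (hA : A ∣ a1) (hB : B ∣ b1) (hC : C ∣ c) (h4 : A * B % 4 = 1)
    (ha : ∀ p : ℕ, p.Prime → p ∣ a1 → J(ε * (B * C) * (if p ∣ A then (c : ℤ) else 1) | p) = 1)
    (hb : ∀ p : ℕ, p.Prime → p ∣ b1 → J(ε * (A * C) * (if p ∣ B then -(c : ℤ) else 1) | p) = 1)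
    (hc : ∀ p : ℕ, p.Prime → p ∣ c →
      J((A * B : ℤ) * (if p ∣ C then ((a1 * P : ℕ) : ℤ) else 1) | p) = 1) :
    A = 1 ∧ B = 1 ∧ C = 1 ∧ ε = 1 := by
  obtain ⟨-, oa, ob, oc, -, -, cab, cac, cbc, -, -⟩ := h.facts
  have oA : Odd A := oa.of_dvd_nat hA
  have oB : Odd B := ob.of_dvd_nat hB
  have oC : Odd C := oc.of_dvd_nat hC
  have h2 : (2 : ZMod 2) = 0 := by decide
  have lc : lam c = 0 := desc2_lam_of_one h.hc
  set s : ZMod 2 := if ε = -1 then 1 else 0 with hs
  have hx : (mat a1 b1 c (a1 * P)).mulVec (vecD a1 b1 c (s + lam B + lam C) (A * B * C)) = 0 := by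
    funext i
    rcases i with _ | p
    · rw [h.row_none _ _ hA hB hC, ← lam_mul oA oB, desc2_lam_of_one h4]; rfl
    · have hp : p.1.Prime := Nat.prime_of_mem_primeFactors p.2
      have hd : p.1 ∣ a1 * b1 * c := Nat.dvd_of_mem_primeFactors p.2
      rcases (Nat.Prime.dvd_mul hp).1 hd with hd | hd
      · rcases (Nat.Prime.dvd_mul hp).1 hd with hd | hd
        · -- primes of a1
          have op : Odd p.1 := oa.of_dvd_nat hd
          have k := desc2_four (ha p.1 hp hd)
          rw [desc2_eps hε op, ← hs, desc2_bit_nat, desc2_bit_nat] at k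
          have cB : B.Coprime p.1 := (Nat.Coprime.of_dvd hd hB cab).symm
          have cC : C.Coprime p.1 := (Nat.Coprime.of_dvd hd hC cac).symm
          have cc : c.Coprime p.1 := (Nat.Coprime.of_dvd hd dvd_rfl cac).symm
          rw [lj_recip oB op cB, lj_recip oC op cC] at k
          rw [h.row_a _ _ hA hB hC p hd, Pi.zero_apply]
          by_cases hpA : p.1 ∣ A
          · rw [if_pos hpA] at k ⊢
            rw [desc2_bit_nat, lj_recip oc op cc, lc] at k
            linear_combination k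
          · rw [if_neg hpA] at k ⊢
            rw [desc2_bit_one] at k
            linear_combination k
        · -- primes of b1
          have op : Odd p.1 := ob.of_dvd_nat hd
          have k0 := hb p.1 hp hd
          have k := desc2_four k0
          rw [desc2_eps hε op, ← hs, desc2_bit_nat, desc2_bit_nat] at k
          have cC : C.Coprime p.1 := (Nat.Coprime.of_dvd hd hC cbc).symm
          have cc : c.Coprime p.1 := (Nat.Coprime.of_dvd hd dvd_rfl cbc).symm
          rw [lj_recip oC op cC] at k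
          rw [h.row_b _ _ hA hB hC p hd, Pi.zero_apply]
          by_cases hpB : p.1 ∣ B
          · rw [if_pos hpB] at k k0 ⊢
            have h0 : J(-1 * (c : ℤ) | p.1) ≠ 0 := by
              rw [neg_one_mul]
              exact desc2_ne_right (by rw [k0]; exact one_ne_zero)
            rw [← neg_one_mul, desc2_bit_mul h0, desc2_neg_one op, desc2_bit_nat,
              lj_recip oc op cc, lc] at k
            linear_combination k + lam B * lam p.1 * h2
          · rw [if_neg hpB] at k ⊢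
            rw [desc2_bit_one] at k
            linear_combination k + lam B * lam p.1 * h2
      · -- primes of c
        have k := desc2_three (hc p.1 hp hd)
        rw [desc2_bit_nat, desc2_bit_nat] at k
        rw [h.row_c _ _ hA hB hC p hd, Pi.zero_apply]
        by_cases hpC : p.1 ∣ C
        · rw [if_pos hpC] at k ⊢
          rw [desc2_bit_nat] at k
          exact k
        · rw [if_neg hpC] at k ⊢
          rw [desc2_bit_one] at k
          exact k
  obtain ⟨he, h1⟩ := (h.vecD_eq_zero (mul_dvd_mul (mul_dvd_mul hA hB) hC)).1 (hk _ hx)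
  have hC1 : C = 1 := Nat.eq_one_of_mul_eq_one_left h1
  have hAB : A * B = 1 := Nat.eq_one_of_mul_eq_one_right h1
  have hA1 : A = 1 := Nat.eq_one_of_mul_eq_one_right hAB
  have hB1 : B = 1 := Nat.eq_one_of_mul_eq_one_left hAB
  refine ⟨hA1, hB1, hC1, ?_⟩
  rcases hε with h1 | h1
  · exact h1
  · exfalso
    have l1 : lam 1 = 0 := desc2_lam_of_one rfl
    rw [hB1, hC1, l1, hs, if_pos h1] at he
    revert he
    decide

end Pool.Agent.Lib.MP_788af2_nt.R0
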