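import Pool.Agent.Lib.MP_788af2_nt.R0.Desc1
import Pool.Agent.Lib.MP_788af2_nt.R0.Desc2

namespace Pool.Agent.Lib.MP_788af2_nt.R0

open Finset Filter
open scoped NumberTheorySymbols

/-! A trivial kernel forces rank zero. -/

lemma desc3_rank {G : Type} [AddCommGroup G] (hG : AddGroup.FG G)
    (h : ∀ P : G, ∃ T Q : G, 2 • T = 0 ∧ P = T + 2 • Q) : Module.rank ℤ G = 0 := by
  have : Module.Finite ℤ G := Module.Finite.iff_addGroup_fg.2 hG
  obtain ⟨r, hr, hr'⟩ := Submodule.exists_sub_one_mem_and_smul_eq_zero_of_fg_of_le_smul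
    (Ideal.span {(2 : ℤ)}) (LinearMap.range (LinearMap.lsmul ℤ G 2)) (IsNoetherian.noetherian _)
    (by
      rintro _ ⟨P, rfl⟩
      obtain ⟨T, Q, hT, rfl⟩ := h P
      have e : LinearMap.lsmul ℤ G 2 (T + 2 • Q) = (2 : ℤ) • LinearMap.lsmul ℤ G 2 Q := by
        simp only [LinearMap.lsmul_apply, two_smul] at hT ⊢
        rw [← zero_add (Q + Q + (Q + Q)), ← hT]
        abel
      rw [e]
      exact Submodule.smul_mem_smul (Ideal.mem_span_singleton_self _) ⟨Q, rfl⟩)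
  rw [Ideal.mem_span_singleton] at hr
  rw [rank_eq_zero_iff]
  intro P
  refine ⟨r * 2, mul_ne_zero (by omega) two_ne_zero, ?_⟩
  rw [mul_smul]
  exact hr' _ ⟨P, rfl⟩

lemma desc3_zero {p n : ℕ} (h : ¬p ∣ n) : qV p (n : ℤ) = 0 := by
  rw [qV, padicValInt.eq_zero_of_not_dvd (by exact_mod_cast h), Nat.cast_zero]

lemma desc3_one {p n : ℕ} (hp : p.Prime) (hn : Squarefree n) (h : p ∣ n) : qV p (n : ℤ) = 1 := by
  rw [qV, padicValInt.of_nat, ← Nat.factorization_def n hp,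
    Nat.factorization_eq_one_of_squarefree hn hp h, Nat.cast_one]

lemma desc3_rep (n : ℤ) : rep (n : ℚ) = n := by simp [rep]

lemma desc3_sq {x : ℚ} {α t : ℤ} (ht : t ≠ 0) (h : (α : ℚ) = x * t ^ 2) (hα : IsSquare α) :
    IsSquare x := by
  obtain ⟨k, hk⟩ := hα
  have ht' : (t : ℚ) ≠ 0 := by exact_mod_cast ht
  have hk' : (α : ℚ) = k * k := by exact_mod_cast hk
  refine ⟨k / t, ?_⟩
  field_simp
  linear_combination hk' - h

theorem rank_zero {a1 b1 P Q c : ℕ} (h : Adm a1 b1 P Q c)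
    (hk : ∀ x, (mat a1 b1 c (a1 * P)).mulVec x = 0 → x = 0) :
    Module.rank ℤ (cvE ![0, ((a1 * P : ℕ) : ℤ), ((b1 * Q : ℕ) : ℤ)]).Point = 0 := by
  have hab : Squarefree (a1 * P * (b1 * Q)) := h.sq.of_mul_left
  obtain ⟨hco, ha, hb⟩ := Nat.squarefree_mul_iff.1 hab
  have ha0 : a1 * P ≠ 0 := ha.ne_zero
  have hb0 : b1 * Q ≠ 0 := hb.ne_zero
  have hc0 : c ≠ 0 := h.sq.of_mul_right.ne_zero
  have hne : a1 * P ≠ b1 * Q := by have := h.eq; omega
  have hPa : P ∣ a1 * P := dvd_mul_left _ _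
  have hQb : Q ∣ b1 * Q := dvd_mul_left _ _
  have hPb : ¬P ∣ b1 * Q := (h.hP.coprime_iff_not_dvd).1 (hco.coprime_dvd_left hPa)
  have hQa : ¬Q ∣ a1 * P := (h.hQ.coprime_iff_not_dvd).1 (hco.symm.coprime_dvd_left hQb)
  set e : Fin 3 → ℤ := ![0, ((a1 * P : ℕ) : ℤ), ((b1 * Q : ℕ) : ℤ)] with hedef
  have e0 : e 0 = 0 := rfl
  have e1 : e 1 = (a1 * P : ℕ) := rfl
  have e2 : e 2 = (b1 * Q : ℕ) := rfl
  have he : dsc e ≠ 0 := by
    rw [dsc, e0, e1, e2]
    refine mul_ne_zero (mul_ne_zero ?_ ?_) ?_ <;> omega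
  let Φ : (cvE e).Point →+ ZMod 2 × ZMod 2 :=
    (qfHom he 0 (isQF_qV h.hP)).prod (qfHom he 0 (isQF_qV h.hQ))
  have hΦ : ∀ X, Φ X = (qV P (rep (dl e 0 X)), qV Q (rep (dl e 0 X))) := fun X => rfl
  have v0 : ∀ y hy, Φ (.some (e 0) y hy) = (1, 1) := fun y hy => by
    have : dl e 0 (.some (e 0) y hy) = ((a1 * P * (b1 * Q) : ℕ) : ℤ) := by
      simp only [dl, if_true]
      change ((e 0 : ℚ) - e 1) * (e 0 - e 2) = _
      rw [e0, e1, e2]
      push_cast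
      ring
    rw [hΦ, this, desc3_rep, desc3_one h.hP hab (hPa.mul_right _),
      desc3_one h.hQ hab (hQb.mul_left _)]
  have v1 : ∀ y hy, Φ (.some (e 1) y hy) = (1, 0) := fun y hy => by
    have : dl e 0 (.some (e 1) y hy) = ((a1 * P : ℕ) : ℤ) := by
      simp only [dl, if_neg (sub_ne_zero.1 (sub_ne he (show (1 : Fin 3) ≠ 0 by decide)))]
      rw [e0, e1, Int.cast_zero, sub_zero]
    rw [hΦ, this, desc3_rep, desc3_one h.hP ha hPa, desc3_zero hQa]
  have v2 : ∀ y hy, Φ (.some (e 2) y hy) = (0, 1) := fun y hy => by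
    have : dl e 0 (.some (e 2) y hy) = ((b1 * Q : ℕ) : ℤ) := by
      simp only [dl, if_neg (sub_ne_zero.1 (sub_ne he (show (2 : Fin 3) ≠ 0 by decide)))]
      rw [e0, e2, Int.cast_zero, sub_zero]
    rw [hΦ, this, desc3_rep, desc3_one h.hQ hb hQb, desc3_zero hPb]
  have hker : ∀ X, Φ X = 0 → ∃ Y, X = 2 • Y := by
    rintro (_ | ⟨x, y, hxy⟩) hX
    · exact ⟨0, rfl⟩
    have x0 : x ≠ e 0 := by rintro rfl; rw [v0] at hX; exact absurd hX (by decide)
    have x1 : x ≠ e 1 := by rintro rfl; rw [v1] at hX; exact absurd hX (by decide)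
    have x2 : x ≠ e 2 := by rintro rfl; rw [v2] at hX; exact absurd hX (by decide)
    obtain ⟨u, w, t, ht, hut, hx, hw⟩ := point_int (eqn_cvE hxy)
    have ht' : (t : ℚ) ≠ 0 := by exact_mod_cast ht
    have hα : ∀ m, ((u - e m * t ^ 2 : ℤ) : ℚ) = (x - e m) * t ^ 2 := by
      intro m; rw [hx]; push_cast; field_simp
    have hn : ∀ m, x ≠ e m → u - e m * t ^ 2 ≠ 0 := by
      intro m hm
      rw [← Int.cast_ne_zero (α := ℚ), hα]
      exact mul_ne_zero (sub_ne_zero.2 hm) (pow_ne_zero _ ht')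
    have hu : u - e 0 * t ^ 2 = u := by rw [e0]; ring
    have hu0 : u ≠ 0 := hu ▸ hn 0 x0
    rw [hu] at hw
    obtain ⟨A, B, C, ε, hε, hA, hB, hC, s0, s1, h4, ra, rb, rc⟩ :=
      sel_data h.sq h.eq h.hb h.hc hut hu0 (hn 1 x1) (hn 2 x2) hw
    have d0 : dl e 0 (.some x y hxy) = x - e 0 := by simp only [dl, if_neg x0]
    have d1 : dl e 1 (.some x y hxy) = x - e 1 := by simp only [dl, if_neg x1]
    have hA0 : A ≠ 0 := ne_zero_of_dvd_ne_zero ha0 hA
    have hB0 : B ≠ 0 := ne_zero_of_dvd_ne_zero hb0 hB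
    have hF : ∀ F, IsQF F → F (rep (x - e 0)) = F ((A * B : ℕ) : ℤ) := fun F hF => by
      have a1 : F (rep (x - e 0)) = F u := by
        refine hF.eq_of_isSquare (rep_ne_zero (sub_ne_zero.2 x0)) hu0 ?_
        rw [← Rat.isSquare_intCast_iff, Int.cast_mul, ← hu, hα, rep_cast]
        exact ⟨(x - e 0) * (x - e 0).den * t, by ring⟩
      rw [a1]
      refine hF.eq_of_isSquare hu0 (by exact_mod_cast mul_ne_zero hA0 hB0) ?_
      rwa [Nat.cast_mul]
    have hAB : Squarefree (A * B) := hab.squarefree_of_dvd (mul_dvd_mul hA hB)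
    rw [hΦ, d0, hF _ (isQF_qV h.hP), hF _ (isQF_qV h.hQ), Prod.mk_eq_zero] at hX
    have hA' : A ∣ a1 := by
      refine Nat.Coprime.dvd_of_dvd_mul_right ((h.hP.coprime_iff_not_dvd.2 fun hd => ?_).symm) hA
      rw [desc3_one h.hP hAB (hd.mul_right _)] at hX
      exact one_ne_zero hX.1
    have hB' : B ∣ b1 := by
      refine Nat.Coprime.dvd_of_dvd_mul_right ((h.hQ.coprime_iff_not_dvd.2 fun hd => ?_).symm) hB
      rw [desc3_one h.hQ hAB (hd.mul_left _)] at hX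
      exact one_ne_zero hX.2
    obtain ⟨rfl, rfl, rfl, rfl⟩ := sel_trivial h hk hε hA' hB' hC h4
      (fun p hp hd => ra p hp (hd.mul_right _)) (fun p hp hd => rb p hp (hd.mul_right _)) rc
    refine halve' he _ ?_ ?_
    · rw [d0]
      refine desc3_sq ht (hα 0) ?_
      rw [hu]
      simpa using s0
    · rw [d1]
      refine desc3_sq ht (hα 1) ?_
      rw [e1]
      simpa using s1
  have hT : ∀ m, ∃ hy : (cvE e).Nonsingular (e m) 0,
      2 • (WeierstrassCurve.Affine.Point.some (e m) 0 hy : (cvE e).Point) = 0 := fun m => by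
    refine ⟨nonsing_of_disc (disc_cvE he) (by fin_cases m <;> simp <;> ring), ?_⟩
    rw [two_nsmul]
    exact WeierstrassCurve.Affine.Point.add_of_Y_eq rfl
      (by simp [WeierstrassCurve.Affine.negY])
  have hsurj : ∀ v : ZMod 2 × ZMod 2, ∃ T, 2 • T = 0 ∧ Φ T = v := fun v => by
    have hv : v = 0 ∨ v = (1, 1) ∨ v = (1, 0) ∨ v = (0, 1) := by revert v; decide
    rcases hv with rfl | rfl | rfl | rfl
    · exact ⟨0, nsmul_zero _, map_zero _⟩
    · exact ⟨_, (hT 0).2, v0 _ _⟩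
    · exact ⟨_, (hT 1).2, v1 _ _⟩
    · exact ⟨_, (hT 2).2, v2 _ _⟩
  refine desc3_rank (fg_of_finiteIndex (disc_cvE he) (finiteIndex_two Φ hker)) fun X => ?_
  obtain ⟨T, h2, hT'⟩ := hsurj (Φ X)
  obtain ⟨Y, hY⟩ := hker (X - T) (by rw [map_sub, hT', sub_self])
  exact ⟨T, Y, h2, by rw [← hY, add_sub_cancel]⟩

end Pool.Agent.Lib.MP_788af2_nt.R0
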