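import Pool.Agent.Lib.MP_788af2_nt.R0.PL

namespace Pool.Agent.Lib.MP_788af2_nt.R0

open Finset Filter
open scoped NumberTheorySymbols

/-! The correlation of two functions of linear forms. -/

lemma disp0_fibre {α β : ℤ} (hc : IsCoprime α β) {A : ℕ} (hA : 0 < A) (hα : (A : ℤ) ≤ |α|)
    (W : ℕ) (T : Finset (ℤ × ℤ)) (hT : ∀ x ∈ T, |x.2| ≤ W) (y : ℤ) :
    ((T.filter fun x => α * x.1 + β * x.2 = y).card : ℝ) ≤ 2 * W / A + 1 := by
  have hA' : (0 : ℤ) < A := by exact_mod_cast hA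
  have h1 : (T.filter fun x => α * x.1 + β * x.2 = y).card ≤ (range (2 * W / A + 1)).card := by
    refine card_le_card_of_injOn (fun x => (x.2 + W).toNat / A) ?_ ?_
    · intro x hx
      have h2 := abs_le.1 (hT x (mem_filter.1 hx).1)
      have h3 : (x.2 + W).toNat ≤ 2 * W := by omega
      exact mem_range.2 (Nat.lt_succ_of_le (Nat.div_le_div_right h3))
    · intro x hx x' hx' he
      obtain ⟨hx1, hx2⟩ := mem_filter.1 hx
      obtain ⟨hx1', hx2'⟩ := mem_filter.1 hx'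
      have h2 := abs_le.1 (hT x hx1)
      have h2' := abs_le.1 (hT x' hx1')
      have he' : (x.2 + W).toNat / A = (x'.2 + W).toNat / A := he
      have h3 := Nat.div_add_mod (x.2 + W).toNat A
      have h3' := Nat.div_add_mod (x'.2 + W).toNat A
      have h4 := Nat.mod_lt (x.2 + W).toNat hA
      have h4' := Nat.mod_lt (x'.2 + W).toNat hA
      rw [he'] at h3
      have h5 : |x.2 - x'.2| < A := by
        rw [abs_lt]
        constructor <;> omega
      have h6 : α ∣ x.2 - x'.2 :=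
        hc.dvd_of_dvd_mul_left ⟨x'.1 - x.1, by linear_combination hx2 - hx2'⟩
      have h7 : x.2 - x'.2 = 0 :=
        Int.eq_zero_of_abs_lt_dvd ((abs_dvd _ _).2 h6) (h5.trans_le hα)
      have h8 : α ≠ 0 := abs_pos.1 (hA'.trans_le hα)
      have h9 : x.1 = x'.1 :=
        mul_left_cancel₀ h8 (by linear_combination hx2 - hx2' - β * h7)
      exact Prod.ext h9 (sub_eq_zero.1 h7)
  rw [card_range] at h1
  have h2 : ((2 * W / A : ℕ) : ℝ) ≤ 2 * W / A := by
    have := Nat.cast_div_le (α := ℝ) (m := 2 * W) (n := A)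
    push_cast at this
    exact this
  have h3 : ((T.filter fun x => α * x.1 + β * x.2 = y).card : ℝ) ≤ ((2 * W / A + 1 : ℕ) : ℝ) := by
    exact_mod_cast h1
  push_cast at h3
  linarith

/-- Points on the lines `α u + β v = y` with `|v| ≤ W`. -/
theorem line_count {α β : ℤ} (hc : IsCoprime α β) {A : ℕ} (hA : 0 < A) (hα : (A : ℤ) ≤ |α|)
    (W : ℕ) (I : Finset ℤ) (H : ℤ → ℂ) (hH : ∀ y, H y ≠ 0 → y ∈ I) (T : Finset (ℤ × ℤ))
    (hT : ∀ x ∈ T, |x.2| ≤ W) :
    ∑ x ∈ T, ‖H (α * x.1 + β * x.2)‖ ^ 2 ≤ (2 * W / A + 1) * N2 I H := by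
  have h1 : ∑ x ∈ T, ‖H (α * x.1 + β * x.2)‖ ^ 2 =
      ∑ x ∈ T, ∑ y ∈ I, if α * x.1 + β * x.2 = y then ‖H y‖ ^ 2 else 0 := by
    refine sum_congr rfl fun x _ => ?_
    rw [sum_ite_eq]
    split_ifs with h
    · rfl
    · have : H (α * x.1 + β * x.2) = 0 := by
        by_contra h0
        exact h (hH _ h0)
      simp [this]
  rw [h1, sum_comm, N2, mul_sum]
  refine sum_le_sum fun y _ => ?_
  rw [← sum_filter, sum_const, nsmul_eq_mul]
  exact mul_le_mul_of_nonneg_right (disp0_fibre hc hA hα W T hT y) (by positivity)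

theorem corr_classes (I I' : Finset ℤ) (H H' : ℤ → ℂ) {D : ℕ} (hD : 0 < D) {t : ℤ}
    (ht : IsCoprime t D) :
    ‖∑ y ∈ I, ∑ y' ∈ I' with (D : ℤ) ∣ y' - t * y, H y * (starRingEnd ℂ) (H' y')‖ ≤
      (Vr I H D + Vr I' H' D) / 2 := by
  have hD' : (0 : ℤ) < D := by exact_mod_cast hD
  set σ : ℕ → ℕ := fun r => (t * r % D).toNat with hσ
  have hσc : ∀ r : ℕ, ((σ r : ℕ) : ℤ) = t * r % D := fun r =>
    Int.toNat_of_nonneg (Int.emod_nonneg _ hD'.ne')
  have hσm : ∀ r ∈ range D, σ r ∈ range D := fun r _ => by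
    have h1 := Int.emod_lt_of_pos (t * r) hD'
    rw [← hσc] at h1
    exact mem_range.2 (by exact_mod_cast h1)
  have hσi : Set.InjOn σ (range D : Set ℕ) := fun r hr s hs he => by
    have h1 : t * r % D = t * s % D := by rw [← hσc, ← hσc, he]
    have h2 : (D : ℤ) ∣ t * (s - r) := by
      rw [mul_sub]
      exact Int.ModEq.dvd h1
    have h3 : (D : ℤ) ∣ s - r := ht.symm.dvd_of_dvd_mul_left h2
    have hr' : r < D := mem_range.1 hr
    have hs' : s < D := mem_range.1 hs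
    have h4 : (s : ℤ) - r = 0 := Int.eq_zero_of_abs_lt_dvd h3 (by
      rw [abs_lt]
      constructor <;> omega)
    omega
  set S : ℕ → ℂ := fun r => ∑ y ∈ I with y % (D : ℤ) = r, H y with hS
  set S' : ℕ → ℂ := fun r => ∑ y ∈ I' with y % (D : ℤ) = r, H' y with hS'
  have e1 : ∑ y ∈ I, ∑ y' ∈ I' with (D : ℤ) ∣ y' - t * y, H y * (starRingEnd ℂ) (H' y') =
      ∑ r ∈ range D, S r * (starRingEnd ℂ) (S' (σ r)) := by
    rw [← sum_fiberwise_of_maps_to (s := I) (t := range D) (g := fun y => (y % (D : ℤ)).toNat)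
      (fun y _ => by
        have h1 := Int.emod_lt_of_pos y hD'
        have h2 := Int.emod_nonneg y hD'.ne'
        exact mem_range.2 (by omega))]
    refine sum_congr rfl fun r _ => ?_
    simp only [hS, hS', map_sum]
    rw [sum_mul_sum]
    refine sum_congr ?_ fun y hy => sum_congr ?_ fun _ _ => rfl
    · refine filter_congr fun y _ => ?_
      have h2 := Int.emod_nonneg y hD'.ne'
      omega
    · have h1 : y % (D : ℤ) = r := (mem_filter.1 hy).2
      refine filter_congr fun y' _ => ?_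
      have h2 : t * y % D = t * r % D := by
        rw [← h1, Int.mul_emod, Int.mul_emod t (y % D), Int.emod_emod]
      rw [hσc, ← h2, ← Int.modEq_iff_dvd]
      exact ⟨fun h => h.symm, fun h => Int.ModEq.symm h⟩
  have e2 : ∑ r ∈ range D, ‖S' (σ r)‖ ^ 2 ≤ Vr I' H' D := by
    rw [← sum_image (f := fun r => ‖S' r‖ ^ 2) hσi]
    exact sum_le_sum_of_subset_of_nonneg (image_subset_iff.2 hσm) fun _ _ _ => by positivity
  have e3 : ∑ r ∈ range D, ‖S r‖ ^ 2 = Vr I H D := rfl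
  rw [e1]
  refine (norm_sum_le _ _).trans ?_
  have e4 : ∑ r ∈ range D, ‖S r * (starRingEnd ℂ) (S' (σ r))‖ ≤
      ∑ r ∈ range D, (‖S r‖ ^ 2 + ‖S' (σ r)‖ ^ 2) / 2 := by
    refine sum_le_sum fun r _ => ?_
    rw [norm_mul, Complex.norm_conj]
    nlinarith [sq_nonneg (‖S r‖ - ‖S' (σ r)‖)]
  rw [← sum_div, sum_add_distrib] at e4
  linarith

end Pool.Agent.Lib.MP_788af2_nt.R0
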