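import Pool.Agent.Lib.MP_788af2_nt.R0.Disp0

namespace Pool.Agent.Lib.MP_788af2_nt.R0

open Finset Filter
open scoped NumberTheorySymbols

/-! The correlation for a pair of forms with large determinant. -/

lemma disp1_clamp_nonneg (V : ℕ) (v : ℝ) : 0 ≤ clamp V v := le_max_left _ _

lemma disp1_clamp_le (V : ℕ) (v : ℝ) : clamp V v ≤ 1 := max_le zero_le_one (min_le_left _ _)

lemma disp1_clamp_zero {V : ℕ} (hV : 0 < V) {v : ℝ} (h : 2 * V ≤ |v|) : clamp V v = 0 := by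
  have hV' : (0 : ℝ) < V := by exact_mod_cast hV
  have : 2 - |v| / V ≤ 0 := by
    rw [sub_nonpos, le_div_iff₀ hV']
    exact h
  exact max_eq_left ((min_le_right _ _).trans this)

lemma disp1_clamp_lip {V : ℕ} (hV : 0 < V) (a b : ℝ) :
    |clamp V a - clamp V b| ≤ |a - b| / V := by
  have hV' : (0 : ℝ) < V := by exact_mod_cast hV
  have h0 : 0 ≤ |a - b| / V := by positivity
  unfold clamp
  refine (abs_max_sub_max_le_max _ _ _ _).trans (max_le (by simpa using h0) ?_)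
  refine (abs_min_sub_min_le_max _ _ _ _).trans (max_le (by simpa using h0) ?_)
  have e : 2 - |a| / V - (2 - |b| / V) = (|b| - |a|) / V := by ring
  rw [e, abs_div, abs_of_pos hV', abs_sub_comm a b]
  exact div_le_div_of_nonneg_right (abs_abs_sub_abs_le_abs_sub b a) hV'.le

lemma disp1_sum_Iv {M : Type} [AddCommMonoid M] (l N : ℕ) (g : ℤ → M) :
    ∑ y ∈ Ioc (0 : ℤ) (N * l), g y = ∑ i ∈ range N, ∑ y ∈ Iv l i, g y := by
  induction N with
  | zero => simp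
  | succ N ih =>
    have h0 : (0 : ℤ) ≤ N * l := by positivity
    have h1 : (N : ℤ) * l ≤ ((N : ℤ) + 1) * l := by
      have : (0 : ℤ) ≤ l := by positivity
      linarith
    rw [sum_range_succ, ← ih, Iv, ← sum_union, Ioc_union_Ioc_eq_Ioc h0 h1]
    · push_cast
      rfl
    · rw [disjoint_left]
      intro y hy hy'
      exact absurd (mem_Ioc.1 hy').1 (not_lt.2 (mem_Ioc.1 hy).2)

lemma disp1_card (s : Finset ℕ) (m ρ : ℝ) (hρ : 0 ≤ ρ) (h : ∀ j ∈ s, |(j : ℝ) - m| ≤ ρ) :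
    (s.card : ℝ) ≤ 2 * ρ + 1 := by
  rcases s.eq_empty_or_nonempty with rfl | hs
  · simp only [card_empty, Nat.cast_zero]
    linarith
  · have h1 : s ⊆ Icc (s.min' hs) (s.max' hs) := fun j hj =>
      mem_Icc.2 ⟨s.min'_le j hj, s.le_max' j hj⟩
    have h2 := card_le_card h1
    rw [Nat.card_Icc] at h2
    have h3 : s.min' hs ≤ s.max' hs := s.min'_le _ (s.max'_mem hs)
    have h4 : s.card + s.min' hs ≤ s.max' hs + 1 := by omega
    have h5 : (s.card : ℝ) + (s.min' hs : ℕ) ≤ (s.max' hs : ℕ) + 1 := by exact_mod_cast h4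
    have h6 := abs_le.1 (h _ (s.min'_mem hs))
    have h7 := abs_le.1 (h _ (s.max'_mem hs))
    linarith [h6.1, h7.2]

lemma disp1_inj {α β α' β' : ℤ} (hΔ : α * β' - α' * β ≠ 0) :
    Function.Injective fun x : ℤ × ℤ => (α * x.1 + β * x.2, α' * x.1 + β' * x.2) := by
  intro x x' h
  simp only [Prod.mk.injEq] at h
  obtain ⟨h1, h2⟩ := h
  refine Prod.ext (mul_left_cancel₀ hΔ ?_) (mul_left_cancel₀ hΔ ?_)
  · linear_combination β' * h1 - β * h2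
  · linear_combination α * h2 - α' * h1

lemma disp1_transfer {M : Type} [AddCommMonoid M] {α β α' β' r s : ℤ} (hrs : r * α + s * β = 1)
    (hΔ : α * β' - α' * β ≠ 0) (I : Finset ℤ) (T : Finset (ℤ × ℤ))
    (hT : ∀ x, x ∈ T ↔ α * x.1 + β * x.2 ∈ I ∧ α' * x.1 + β' * x.2 ∈ I) (g : ℤ → ℤ → M) :
    ∑ x ∈ T, g (α * x.1 + β * x.2) (α' * x.1 + β' * x.2) =
      ∑ y ∈ I, ∑ y' ∈ I with (((α * β' - α' * β).natAbs : ℕ) : ℤ) ∣ y' - (α' * r + β' * s) * y,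
        g y y' := by
  have e : ∑ y ∈ I, ∑ y' ∈ I with
      (((α * β' - α' * β).natAbs : ℕ) : ℤ) ∣ y' - (α' * r + β' * s) * y, g y y' =
      ∑ p ∈ I ×ˢ I with
        (((α * β' - α' * β).natAbs : ℕ) : ℤ) ∣ p.2 - (α' * r + β' * s) * p.1, g p.1 p.2 := by
    simp only [sum_filter, sum_product]
  rw [e]
  refine sum_nbij (fun x : ℤ × ℤ => (α * x.1 + β * x.2, α' * x.1 + β' * x.2)) ?_
    (disp1_inj hΔ).injOn ?_ (fun _ _ => rfl)
  · intro x hx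
    refine mem_filter.2 ⟨mem_product.2 ((hT x).1 hx), Int.natAbs_dvd.2 ⟨x.2 * r - x.1 * s, ?_⟩⟩
    linear_combination (-(α' * x.1 + β' * x.2)) * hrs
  · intro p hp
    obtain ⟨h1, h2⟩ := mem_filter.1 (mem_coe.1 hp)
    obtain ⟨k, hk⟩ := Int.natAbs_dvd.1 h2
    obtain ⟨h3, h4⟩ := mem_product.1 h1
    have e1 : α * (r * p.1 - β * k) + β * (s * p.1 + α * k) = p.1 := by
      linear_combination p.1 * hrs
    have e2 : α' * (r * p.1 - β * k) + β' * (s * p.1 + α * k) = p.2 := by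
      linear_combination -hk
    refine ⟨(r * p.1 - β * k, s * p.1 + α * k), mem_coe.2 ((hT _).2 ?_), Prod.ext e1 e2⟩
    simp only [e1, e2]
    exact ⟨h3, h4⟩

/-- The estimate on one pair of short intervals. -/
lemma disp1_cell (I I' : Finset ℤ) (H H' : ℤ → ℂ) {D : ℕ} (hD : 0 < D) {t : ℤ}
    (ht : IsCoprime t D) (k e : ℤ → ℤ → ℝ) {c : ℝ} (hc : 0 ≤ c)
    (h : ∀ y ∈ I, ∀ y' ∈ I', |k y y' - c| ≤ 2 * e y y') :
    ‖∑ y ∈ I, ∑ y' ∈ I' with (D : ℤ) ∣ y' - t * y,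
        (k y y' : ℂ) * (H y * (starRingEnd ℂ) (H' y'))‖ ≤
      c * ((Vr I H D + Vr I' H' D) / 2) +
        ∑ y ∈ I, ∑ y' ∈ I' with (D : ℤ) ∣ y' - t * y, e y y' * (‖H y‖ ^ 2 + ‖H' y'‖ ^ 2) := by
  have e1 : ∑ y ∈ I, ∑ y' ∈ I' with (D : ℤ) ∣ y' - t * y,
      (k y y' : ℂ) * (H y * (starRingEnd ℂ) (H' y')) =
      (c : ℂ) * (∑ y ∈ I, ∑ y' ∈ I' with (D : ℤ) ∣ y' - t * y, H y * (starRingEnd ℂ) (H' y')) +
        ∑ y ∈ I, ∑ y' ∈ I' with (D : ℤ) ∣ y' - t * y,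
          ((k y y' - c : ℝ) : ℂ) * (H y * (starRingEnd ℂ) (H' y')) := by
    simp only [mul_sum, ← sum_add_distrib]
    refine sum_congr rfl fun y _ => sum_congr rfl fun y' _ => ?_
    push_cast
    ring
  rw [e1]
  refine (norm_add_le _ _).trans (add_le_add ?_ ?_)
  · rw [norm_mul, Complex.norm_real, Real.norm_of_nonneg hc]
    exact mul_le_mul_of_nonneg_left (corr_classes I I' H H' hD ht) hc
  · refine (norm_sum_le _ _).trans (sum_le_sum fun y hy => ?_)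
    refine (norm_sum_le _ _).trans (sum_le_sum fun y' hy' => ?_)
    have h1 := h y hy y' (mem_filter.1 hy').1
    rw [norm_mul, norm_mul, Complex.norm_real, Real.norm_eq_abs, RCLike.norm_conj]
    have h2 : 0 ≤ e y y' := by linarith [abs_nonneg (k y y' - c)]
    have h3 : ‖H y‖ * ‖H' y'‖ ≤ (‖H y‖ ^ 2 + ‖H' y'‖ ^ 2) / 2 := by
      nlinarith [sq_nonneg (‖H y‖ - ‖H' y'‖)]
    calc |k y y' - c| * (‖H y‖ * ‖H' y'‖)
        ≤ 2 * e y y' * ((‖H y‖ ^ 2 + ‖H' y'‖ ^ 2) / 2) :=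
          mul_le_mul h1 h3 (by positivity) (by positivity)
      _ = _ := by ring

/-- Freezing the weight on a pair of short intervals. -/
lemma disp1_freeze {α α' Δ : ℤ} {A V K l : ℕ} (hA : 0 < A) (hAV : A ≤ V) (hK : 2 ≤ K)
    (hl : 0 < l) (hα : |α| ≤ 2 * A) (hα' : |α'| ≤ 2 * A) (hΔ : (A : ℤ) * K ^ 2 * l ≤ |Δ| * V)
    {i j : ℕ} {y y' : ℤ} (hy : y ∈ Iv l i) (hy' : y' ∈ Iv l j) :
    |clamp V (((α : ℝ) * y' - α' * y) / Δ) - clamp V (((α : ℝ) * j - α' * i) * l / Δ)| ≤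
      2 * (if |((α : ℝ) * y' - α' * y) / Δ| ≤ 3 * V then 2 / (K : ℝ) ^ 2 else 0) := by
  have hV : 0 < V := hA.trans_le hAV
  have hV' : (0 : ℝ) < V := by exact_mod_cast hV
  have hK' : (2 : ℝ) ≤ K := by exact_mod_cast hK
  have hK4 : (4 : ℝ) ≤ (K : ℝ) ^ 2 := by nlinarith
  have hΔ' : (A : ℝ) * K ^ 2 * l ≤ |(Δ : ℝ)| * V := by exact_mod_cast hΔ
  have hD : 0 < |(Δ : ℝ)| := by
    have : (0 : ℝ) < A * K ^ 2 * l := by positivity
    exact (mul_pos_iff_of_pos_right hV').1 (this.trans_le hΔ')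
  obtain ⟨a1, a2⟩ := mem_Ioc.1 hy
  obtain ⟨b1, b2⟩ := mem_Ioc.1 hy'
  have a3 : |y - i * l| ≤ l := abs_le.2 ⟨by linarith, by linarith⟩
  have b3 : |y' - j * l| ≤ l := abs_le.2 ⟨by linarith, by linarith⟩
  have h1 : |α * (y' - j * l) - α' * (y - i * l)| ≤ 4 * A * l := by
    refine (abs_sub _ _).trans ?_
    rw [abs_mul, abs_mul]
    have c1 := mul_le_mul hα b3 (abs_nonneg _) (by positivity)
    have c2 := mul_le_mul hα' a3 (abs_nonneg _) (by positivity)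
    linarith
  have h2 : |(α : ℝ) * (y' - j * l) - α' * (y - i * l)| ≤ 4 * A * l := by exact_mod_cast h1
  have h3 : |((α : ℝ) * y' - α' * y) / Δ - ((α : ℝ) * j - α' * i) * l / Δ| ≤
      4 / (K : ℝ) ^ 2 * V := by
    have e : ((α : ℝ) * y' - α' * y) / Δ - ((α : ℝ) * j - α' * i) * l / Δ =
        ((α : ℝ) * (y' - j * l) - α' * (y - i * l)) / Δ := by ring
    rw [e, abs_div, div_le_iff₀ hD]
    refine h2.trans ?_
    rw [div_mul_eq_mul_div, div_mul_eq_mul_div, le_div_iff₀ (by positivity)]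
    linarith
  split_ifs with h
  · refine (disp1_clamp_lip hV _ _).trans ?_
    rw [div_le_iff₀ hV']
    refine h3.trans (le_of_eq ?_)
    ring
  · have h4 : 4 / (K : ℝ) ^ 2 * V ≤ V :=
      mul_le_of_le_one_left hV'.le ((div_le_one (by positivity)).2 hK4)
    have h5 := abs_sub_abs_le_abs_sub (((α : ℝ) * y' - α' * y) / Δ)
      (((α : ℝ) * j - α' * i) * l / Δ)
    have h6 := not_le.1 h
    rw [disp1_clamp_zero hV (by linarith), disp1_clamp_zero hV (by linarith)]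
    simp

/-- The number of short intervals that carry the weight. -/
lemma disp1_row {α Δ : ℤ} {A V K l : ℕ} (hA : 0 < A) (hAV : A ≤ V) (hK : 2 ≤ K)
    (hl : 0 < l) (hα : (A : ℤ) ≤ |α|) (hΔ : (A : ℤ) * K ^ 2 * l ≤ |Δ| * V) (N : ℕ) (b : ℝ)
    (w : ℕ → ℝ) (hw : ∀ j, |w j| = |((α : ℝ) * j - b) * l / Δ|) :
    ∑ j ∈ range N, clamp V (w j) ≤ 5 * V * |(Δ : ℝ)| / (A * l) := by
  have hV : 0 < V := hA.trans_le hAV
  have hV' : (0 : ℝ) < V := by exact_mod_cast hV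
  have hA' : (0 : ℝ) < A := by exact_mod_cast hA
  have hl' : (0 : ℝ) < l := by exact_mod_cast hl
  have hK' : (2 : ℝ) ≤ K := by exact_mod_cast hK
  have hK4 : (1 : ℝ) ≤ (K : ℝ) ^ 2 := by nlinarith
  have hΔ' : (A : ℝ) * K ^ 2 * l ≤ |(Δ : ℝ)| * V := by exact_mod_cast hΔ
  have hα' : (A : ℝ) ≤ |(α : ℝ)| := by exact_mod_cast hα
  have hα0 : (α : ℝ) ≠ 0 := abs_pos.1 (hA'.trans_le hα')
  have hD : 0 < |(Δ : ℝ)| := by
    have : (0 : ℝ) < A * K ^ 2 * l := by positivity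
    exact (mul_pos_iff_of_pos_right hV').1 (this.trans_le hΔ')
  rw [← sum_filter_ne_zero]
  refine (sum_le_card_nsmul _ _ 1 fun j _ => disp1_clamp_le V _).trans ?_
  rw [nsmul_eq_mul, mul_one]
  refine (disp1_card _ (b / α) (2 * V * |(Δ : ℝ)| / (A * l)) (by positivity)
    fun j hj => ?_).trans ?_
  · have h1 : |w j| ≤ 2 * V := by
      by_contra h
      exact (mem_filter.1 hj).2 (disp1_clamp_zero hV (not_le.1 h).le)
    have e : (α : ℝ) * j - b = α * (j - b / α) := by field_simp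
    rw [hw, e, abs_div, abs_mul, abs_mul, abs_of_pos hl', div_le_iff₀ hD] at h1
    rw [le_div_iff₀ (by positivity)]
    refine le_trans ?_ h1
    have := mul_le_mul_of_nonneg_right hα' (mul_nonneg (abs_nonneg ((j : ℝ) - b / α)) hl'.le)
    linarith
  · have h1 : (A : ℝ) * l ≤ V * |(Δ : ℝ)| := by
      have := mul_le_mul_of_nonneg_left hK4 (mul_pos hA' hl').le
      linarith
    have h2 : 1 ≤ V * |(Δ : ℝ)| / (A * l) := (one_le_div (by positivity)).2 h1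
    have e1 : 5 * V * |(Δ : ℝ)| / (A * l) = 5 * (V * |(Δ : ℝ)| / (A * l)) := by ring
    have e2 : 2 * V * |(Δ : ℝ)| / (A * l) = 2 * (V * |(Δ : ℝ)| / (A * l)) := by ring
    rw [e1, e2]
    linarith

theorem far_pair {α β α' β' : ℤ} (hc : IsCoprime α β) (hc' : IsCoprime α' β') {A V K l N : ℕ}
    (hA : 0 < A) (hAV : A ≤ V) (hK : 2 ≤ K) (hl : 0 < l) (hα : (A : ℤ) ≤ |α| ∧ |α| ≤ 2 * A)
    (hα' : (A : ℤ) ≤ |α'| ∧ |α'| ≤ 2 * A) (hΔ : (A : ℤ) * K ^ 2 * l ≤ |α * β' - α' * β| * V)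
    (H H' : ℤ → ℂ) (hH : ∀ y, H y ≠ 0 → y ∈ Ioc (0 : ℤ) (N * l))
    (hH' : ∀ y, H' y ≠ 0 → y ∈ Ioc (0 : ℤ) (N * l)) (T : Finset (ℤ × ℤ))
    (hT : ∀ x : ℤ × ℤ, |x.2| ≤ 2 * V → H (α * x.1 + β * x.2) ≠ 0 → x ∈ T) :
    ‖∑ x ∈ T, (clamp V x.2 : ℂ) * (H (α * x.1 + β * x.2) *
        (starRingEnd ℂ) (H' (α' * x.1 + β' * x.2)))‖ ≤
      14 / (K : ℝ) ^ 2 * (V / A) * (N2 (Ioc 0 (N * l)) H + N2 (Ioc 0 (N * l)) H') +
        5 / (2 * l) * (V / A) * ∑ i ∈ range N, ∑ q ∈ (α * β' - α' * β).natAbs.divisors,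
          (Mq (Iv l i) H q + Mq (Iv l i) H' q) := by
  have hV : 0 < V := hA.trans_le hAV
  have hV' : (0 : ℝ) < V := by exact_mod_cast hV
  have hA' : (0 : ℝ) < A := by exact_mod_cast hA
  have hAV' : (A : ℝ) ≤ V := by exact_mod_cast hAV
  have hl' : (0 : ℝ) < l := by exact_mod_cast hl
  have hK0 : 0 < K := by omega
  obtain ⟨r, s, hrs⟩ := id hc
  obtain ⟨r', s', hrs'⟩ := id hc'
  have hΔ0 : α * β' - α' * β ≠ 0 := by
    intro h
    rw [h, abs_zero, zero_mul] at hΔ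
    have : (0 : ℤ) < (A : ℤ) * K ^ 2 * l := by positivity
    exact absurd hΔ (not_le.2 this)
  obtain ⟨T₁, hT₁⟩ : ∃ T₁ : Finset (ℤ × ℤ), ∀ x, x ∈ T₁ ↔
      α * x.1 + β * x.2 ∈ Ioc (0 : ℤ) (N * l) ∧ α' * x.1 + β' * x.2 ∈ Ioc (0 : ℤ) (N * l) :=
    ⟨(Ioc (0 : ℤ) (N * l) ×ˢ Ioc (0 : ℤ) (N * l)).preimage _ (disp1_inj hΔ0).injOn, fun x => by
      rw [mem_preimage, mem_product]⟩
  have tr := fun (g : ℤ → ℤ → ℝ) => disp1_transfer hrs hΔ0 _ T₁ hT₁ g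
  have tc := fun (g : ℤ → ℤ → ℂ) => disp1_transfer hrs hΔ0 _ T₁ hT₁ g
  have hw : ∀ x : ℤ × ℤ, ((α : ℝ) * ((α' * x.1 + β' * x.2 : ℤ) : ℝ) -
      α' * ((α * x.1 + β * x.2 : ℤ) : ℝ)) / ((α * β' - α' * β : ℤ) : ℝ) = x.2 := by
    intro x
    have : ((α * β' - α' * β : ℤ) : ℝ) ≠ 0 := by exact_mod_cast hΔ0
    rw [div_eq_iff this]
    push_cast
    ring
  have ht : IsCoprime (α' * r + β' * s) (((α * β' - α' * β).natAbs : ℕ) : ℤ) := by
    refine IsCoprime.of_isCoprime_of_dvd_right (y := α * β' - α' * β)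
      ⟨α * r' + β * s', s' * r - r' * s, ?_⟩ (Int.natAbs_dvd.2 dvd_rfl)
    linear_combination (r' * α' + s' * β') * hrs + hrs'
  have hDR : (((α * β' - α' * β).natAbs : ℕ) : ℝ) = |((α * β' - α' * β : ℤ) : ℝ)| := by
    rw [Nat.cast_natAbs, Int.cast_abs]
  have hD : 0 < (α * β' - α' * β).natAbs := Int.natAbs_pos.2 hΔ0
  generalize (α * β' - α' * β).natAbs = D at *
  generalize α' * r + β' * s = t at *
  generalize α * β' - α' * β = Δ at *
  have e1 : ∑ x ∈ T, (clamp V x.2 : ℂ) * (H (α * x.1 + β * x.2) *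
      (starRingEnd ℂ) (H' (α' * x.1 + β' * x.2))) =
      ∑ x ∈ T₁, (clamp V x.2 : ℂ) * (H (α * x.1 + β * x.2) *
        (starRingEnd ℂ) (H' (α' * x.1 + β' * x.2))) := by
    rw [← sum_filter_ne_zero T, ← sum_filter_ne_zero T₁]
    refine sum_congr ?_ fun _ _ => rfl
    ext x
    simp only [mem_filter]
    refine and_congr_left fun hx => ?_
    obtain ⟨h1, h2⟩ := mul_ne_zero_iff.1 hx
    obtain ⟨h2, h3⟩ := mul_ne_zero_iff.1 h2
    refine iff_of_true (hT x ?_ h2) ((hT₁ x).2 ⟨hH _ h2, hH' _ fun h => h3 (by simp [h])⟩)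
    by_contra h
    apply h1
    have h4 : 2 * (V : ℝ) ≤ |(x.2 : ℝ)| := by exact_mod_cast (not_le.1 h).le
    rw [disp1_clamp_zero hV h4, Complex.ofReal_zero]
  have e2 := tc fun y y' => (clamp V (((α : ℝ) * y' - α' * y) / Δ) : ℂ) *
    (H y * (starRingEnd ℂ) (H' y'))
  simp only [hw] at e2
  have e3 := tr fun y y' => (if |((α : ℝ) * y' - α' * y) / Δ| ≤ 3 * V then 2 / (K : ℝ) ^ 2
    else 0) * (‖H y‖ ^ 2 + ‖H' y'‖ ^ 2)
  simp only [hw] at e3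
  have sp : ∀ {M : Type} [AddCommMonoid M] (g : ℤ → ℤ → M),
      ∑ y ∈ Ioc (0 : ℤ) (N * l), ∑ y' ∈ Ioc (0 : ℤ) (N * l) with (D : ℤ) ∣ y' - t * y, g y y' =
      ∑ i ∈ range N, ∑ j ∈ range N, ∑ y ∈ Iv l i, ∑ y' ∈ Iv l j with (D : ℤ) ∣ y' - t * y,
        g y y' := by
    intro M _ g
    simp only [sum_filter, disp1_sum_Iv l N]
    exact sum_congr rfl fun i _ => sum_comm
  rw [sp] at e2 e3
  have b1 : ‖∑ x ∈ T, (clamp V x.2 : ℂ) * (H (α * x.1 + β * x.2) *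
      (starRingEnd ℂ) (H' (α' * x.1 + β' * x.2)))‖ ≤
      ∑ i ∈ range N, ∑ j ∈ range N, clamp V (((α : ℝ) * j - α' * i) * l / Δ) *
        ((Vr (Iv l i) H D + Vr (Iv l j) H' D) / 2) +
      ∑ x ∈ T₁, (if |(x.2 : ℝ)| ≤ 3 * V then 2 / (K : ℝ) ^ 2 else 0) *
        (‖H (α * x.1 + β * x.2)‖ ^ 2 + ‖H' (α' * x.1 + β' * x.2)‖ ^ 2) := by
    rw [e1, e2, e3, ← sum_add_distrib]
    refine (norm_sum_le _ _).trans (sum_le_sum fun i _ => ?_)
    rw [← sum_add_distrib]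
    refine (norm_sum_le _ _).trans (sum_le_sum fun j _ => ?_)
    exact disp1_cell (Iv l i) (Iv l j) H H' hD ht
      (fun y y' => clamp V (((α : ℝ) * y' - α' * y) / Δ))
      (fun y y' => if |((α : ℝ) * y' - α' * y) / Δ| ≤ 3 * V then 2 / (K : ℝ) ^ 2 else 0)
      (disp1_clamp_nonneg _ _)
      fun y hy y' hy' => disp1_freeze hA hAV hK hl hα.2 hα'.2 hΔ hy hy'
  have b2 : ∑ x ∈ T₁, (if |(x.2 : ℝ)| ≤ 3 * V then 2 / (K : ℝ) ^ 2 else 0) *
      (‖H (α * x.1 + β * x.2)‖ ^ 2 + ‖H' (α' * x.1 + β' * x.2)‖ ^ 2) ≤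
      14 / (K : ℝ) ^ 2 * (V / A) * (N2 (Ioc 0 (N * l)) H + N2 (Ioc 0 (N * l)) H') := by
    simp only [ite_mul, zero_mul]
    rw [← sum_filter, ← mul_sum, sum_add_distrib]
    have hW : ∀ x ∈ T₁.filter fun x => |(x.2 : ℝ)| ≤ 3 * V, |x.2| ≤ ((3 * V : ℕ) : ℤ) := by
      intro x hx
      exact_mod_cast (mem_filter.1 hx).2
    have c1 := line_count hc hA hα.1 (3 * V) _ H hH _ hW
    have c2 := line_count hc' hA hα'.1 (3 * V) _ H' hH' _ hW
    have c3 : 2 * ((3 * V : ℕ) : ℝ) / A + 1 ≤ 7 * (V / A) := by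
      have : 1 ≤ (V : ℝ) / A := (one_le_div hA').2 hAV'
      have e : 2 * ((3 * V : ℕ) : ℝ) / A = 6 * (V / A) := by
        push_cast
        ring
      linarith
    have c4 := c1.trans (mul_le_mul_of_nonneg_right c3 (N2_nonneg _ _))
    have c5 := c2.trans (mul_le_mul_of_nonneg_right c3 (N2_nonneg _ _))
    refine (mul_le_mul_of_nonneg_left (add_le_add c4 c5) (by positivity)).trans (le_of_eq ?_)
    ring
  have b3 : ∑ i ∈ range N, ∑ j ∈ range N, clamp V (((α : ℝ) * j - α' * i) * l / Δ) *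
      ((Vr (Iv l i) H D + Vr (Iv l j) H' D) / 2) ≤
      5 / (2 * l) * (V / A) * ∑ i ∈ range N, ∑ q ∈ D.divisors,
        (Mq (Iv l i) H q + Mq (Iv l i) H' q) := by
    have hVr : ∀ (I : Finset ℤ) (G : ℤ → ℂ), 0 ≤ Vr I G D / 2 := fun I G =>
      div_nonneg (sum_nonneg fun _ _ => by positivity) zero_le_two
    have c1 : ∑ i ∈ range N, ∑ j ∈ range N,
        clamp V (((α : ℝ) * j - α' * i) * l / Δ) * (Vr (Iv l i) H D / 2) ≤
        ∑ i ∈ range N, 5 * V * |(Δ : ℝ)| / (A * l) * (Vr (Iv l i) H D / 2) := by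
      refine sum_le_sum fun i _ => ?_
      rw [← sum_mul]
      exact mul_le_mul_of_nonneg_right
        (disp1_row hA hAV hK hl hα.1 hΔ N ((α' : ℝ) * i) _ fun j => rfl) (hVr _ _)
    have c2 : ∑ i ∈ range N, ∑ j ∈ range N,
        clamp V (((α : ℝ) * j - α' * i) * l / Δ) * (Vr (Iv l j) H' D / 2) ≤
        ∑ j ∈ range N, 5 * V * |(Δ : ℝ)| / (A * l) * (Vr (Iv l j) H' D / 2) := by
      rw [sum_comm]
      refine sum_le_sum fun j _ => ?_
      rw [← sum_mul]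
      refine mul_le_mul_of_nonneg_right
        (disp1_row hA hAV hK hl hα'.1 hΔ N ((α : ℝ) * j) _ fun i => ?_) (hVr _ _)
      rw [← abs_neg]
      congr 1
      ring
    simp only [add_div, mul_add, sum_add_distrib, ← parseval_classes _ _ hD, mul_sum, hDR]
    refine add_le_add (c1.trans (le_of_eq ?_)) (c2.trans (le_of_eq ?_)) <;>
    · refine sum_congr rfl fun i _ => ?_
      field_simp
  linarith

end Pool.Agent.Lib.MP_788af2_nt.R0
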