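import Pool.Agent.Lib.MP_788af2_nt.R0.Disp1

namespace Pool.Agent.Lib.MP_788af2_nt.R0

open Finset Filter
open scoped NumberTheorySymbols

/-! The dispersion inequality. -/

lemma disp2_clamp_nonneg (V : ℕ) (v : ℝ) : 0 ≤ clamp V v := le_max_left _ _

lemma disp2_clamp_le (V : ℕ) (v : ℝ) : clamp V v ≤ 1 := max_le zero_le_one (min_le_left _ _)

lemma disp2_clamp_one {V : ℕ} (hV : 0 < V) {v : ℝ} (hv : |v| ≤ V) : clamp V v = 1 := by
  have h0 : (0 : ℝ) < V := by exact_mod_cast hV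
  have h1 : |v| / V ≤ 1 := (div_le_one h0).2 hv
  rw [clamp, min_eq_left (by linarith), max_eq_right zero_le_one]

lemma disp2_expand {ι : Type} (S : Finset ι) (T : Finset (ℤ × ℤ)) (w : ℤ × ℤ → ℝ)
    (G : ι → ℤ × ℤ → ℂ) :
    ∑ x ∈ T, w x * ‖∑ n ∈ S, G n x‖ ^ 2 ≤
      ∑ n ∈ S, ∑ n' ∈ S, ‖∑ x ∈ T, (w x : ℂ) * (G n x * (starRingEnd ℂ) (G n' x))‖ := by
  have h1 : ((∑ x ∈ T, w x * ‖∑ n ∈ S, G n x‖ ^ 2 : ℝ) : ℂ) =
      ∑ n ∈ S, ∑ n' ∈ S, ∑ x ∈ T, (w x : ℂ) * (G n x * (starRingEnd ℂ) (G n' x)) := by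
    push_cast
    rw [sum_congr rfl fun n _ => sum_comm, sum_comm]
    refine sum_congr rfl fun x _ => ?_
    rw [← Complex.mul_conj', map_sum, sum_mul_sum, mul_sum]
    exact sum_congr rfl fun n _ => by rw [mul_sum]
  calc _ ≤ ‖((∑ x ∈ T, w x * ‖∑ n ∈ S, G n x‖ ^ 2 : ℝ) : ℂ)‖ := by
        rw [Complex.norm_real]; exact le_abs_self _
    _ ≤ _ := by
        rw [h1]
        exact (norm_sum_le _ _).trans (sum_le_sum fun n _ => norm_sum_le _ _)

lemma disp2_near {α β α' β' : ℤ} (hc : IsCoprime α β) (hc' : IsCoprime α' β') {A V : ℕ}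
    (hA : 0 < A) (hAV : A ≤ V) (hα : (A : ℤ) ≤ |α|) (hα' : (A : ℤ) ≤ |α'|) (I : Finset ℤ)
    (H H' : ℤ → ℂ) (hH : ∀ y, H y ≠ 0 → y ∈ I) (hH' : ∀ y, H' y ≠ 0 → y ∈ I)
    (T : Finset (ℤ × ℤ)) (hT : ∀ x ∈ T, |x.2| ≤ 2 * V) :
    ‖∑ x ∈ T, (clamp V x.2 : ℂ) * (H (α * x.1 + β * x.2) *
        (starRingEnd ℂ) (H' (α' * x.1 + β' * x.2)))‖ ≤
      5 / 2 * ((V : ℝ) / A) * (N2 I H + N2 I H') := by
  have hT' : ∀ x ∈ T, |x.2| ≤ ((2 * V : ℕ) : ℤ) := fun x hx => by push_cast; exact hT x hx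
  have l1 := line_count hc hA hα (2 * V) I H hH T hT'
  have l2 := line_count hc' hA hα' (2 * V) I H' hH' T hT'
  have hA' : (0 : ℝ) < A := by exact_mod_cast hA
  have h1 : (1 : ℝ) ≤ V / A := (one_le_div hA').2 (by exact_mod_cast hAV)
  have h2 : (2 * ((2 * V : ℕ) : ℝ) / A + 1) ≤ 5 * ((V : ℝ) / A) := by
    push_cast
    rw [show 2 * (2 * (V : ℝ)) / A = 4 * (V / A) by ring]
    linarith
  have n1 := N2_nonneg I H
  have n2 := N2_nonneg I H'
  calc _ ≤ ∑ x ∈ T, (‖H (α * x.1 + β * x.2)‖ ^ 2 + ‖H' (α' * x.1 + β' * x.2)‖ ^ 2) / 2 := by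
        refine (norm_sum_le _ _).trans (sum_le_sum fun x _ => ?_)
        rw [norm_mul, norm_mul, Complex.norm_real, Complex.norm_conj, Real.norm_eq_abs,
          abs_of_nonneg (disp2_clamp_nonneg _ _)]
        have c1 := disp2_clamp_le V x.2
        have c0 := disp2_clamp_nonneg V x.2
        have a0 := norm_nonneg (H (α * x.1 + β * x.2))
        have b0 := norm_nonneg (H' (α' * x.1 + β' * x.2))
        generalize ‖H (α * x.1 + β * x.2)‖ = a at *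
        generalize ‖H' (α' * x.1 + β' * x.2)‖ = b at *
        have := mul_le_mul_of_nonneg_right c1 (mul_nonneg a0 b0)
        nlinarith [sq_nonneg (a - b)]
    _ = (∑ x ∈ T, ‖H (α * x.1 + β * x.2)‖ ^ 2 + ∑ x ∈ T, ‖H' (α' * x.1 + β' * x.2)‖ ^ 2) / 2 := by
        rw [← sum_add_distrib, sum_div]
    _ ≤ _ := by
        have m1 := mul_le_mul_of_nonneg_right h2 n1
        have m2 := mul_le_mul_of_nonneg_right h2 n2
        linarith

lemma disp2_symm {ι : Type} (S : Finset ι) (f : ι → ι → ℝ) :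
    ∑ n ∈ S, ∑ n' ∈ S, (f n n' + f n' n) = 2 * ∑ n ∈ S, ∑ n' ∈ S, f n n' := by
  simp only [sum_add_distrib]
  rw [sum_comm (s := S) (t := S) (f := fun n n' => f n' n)]
  ring

theorem disp {ι : Type} [DecidableEq ι] (S : Finset ι) (α β : ι → ℤ) (H : ι → ℤ → ℂ)
    {A V K l N n₁ : ℕ} (hA : 0 < A) (hAV : A ≤ V) (hK : 2 ≤ K) (hl : 0 < l)
    (hα : ∀ n ∈ S, (A : ℤ) ≤ |α n| ∧ |α n| ≤ 2 * A) (hc : ∀ n ∈ S, IsCoprime (α n) (β n))
    (hH : ∀ n ∈ S, ∀ y, H n y ≠ 0 → y ∈ Ioc (0 : ℤ) (N * l))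
    (hn : ∀ n ∈ S, (S.filter fun n' =>
      |α n * β n' - α n' * β n| * V < (A : ℤ) * K ^ 2 * l).card ≤ n₁)
    (T : Finset (ℤ × ℤ)) (hT : ∀ x ∈ T, |x.2| ≤ V) (F : ℤ × ℤ → ℂ) :
    ‖∑ x ∈ T, F x * ∑ n ∈ S, H n (α n * x.1 + β n * x.2)‖ ^ 2 ≤
      (∑ x ∈ T, ‖F x‖ ^ 2) * ((V : ℝ) / A) *
        ((5 * n₁ + 28 * S.card / (K : ℝ) ^ 2) * ∑ n ∈ S, N2 (Ioc 0 (N * l)) (H n) +
          5 / l * ∑ n ∈ S, ∑ n' ∈ S, ∑ i ∈ range N,
            ∑ q ∈ (α n * β n' - α n' * β n).natAbs.divisors, Mq (Iv l i) (H n) q) := by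
  classical
  have hV : 0 < V := hA.trans_le hAV
  have hA' : (0 : ℝ) < A := by exact_mod_cast hA
  have hl' : (0 : ℝ) < l := by exact_mod_cast hl
  have hK' : (0 : ℝ) < K := by exact_mod_cast (by omega : 0 < K)
  have hVA : (0 : ℝ) ≤ V / A := by positivity
  set I : Finset ℤ := Ioc 0 (N * l) with hI
  set R : ℤ := N * l + 2 * V * ∑ n ∈ S, |β n| with hR
  set T' : Finset (ℤ × ℤ) := T ∪ Icc (-R) R ×ˢ Icc (-(2 * V : ℤ)) (2 * V) with hT'
  have t1 : ∀ x ∈ T', |x.2| ≤ 2 * V := by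
    intro x hx
    rcases mem_union.1 hx with h | h
    · have := hT x h
      omega
    · exact abs_le.2 (mem_Icc.1 (mem_product.1 h).2)
  have t2 : ∀ n ∈ S, ∀ x : ℤ × ℤ, |x.2| ≤ 2 * V → H n (α n * x.1 + β n * x.2) ≠ 0 → x ∈ T' := by
    intro n hnS x h1 h2
    refine mem_union_right _ (mem_product.2 ⟨mem_Icc.2 (abs_le.1 ?_), mem_Icc.2 (abs_le.1 h1)⟩)
    obtain ⟨y1, y2⟩ := mem_Ioc.1 (hH n hnS _ h2)
    have a1 : (1 : ℤ) ≤ |α n| := le_trans (by exact_mod_cast hA) (hα n hnS).1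
    have a2 : |x.1| ≤ |α n * x.1| := by
      rw [abs_mul]; exact le_mul_of_one_le_left (abs_nonneg _) a1
    have a3 : |β n * x.2| ≤ 2 * V * ∑ n ∈ S, |β n| := by
      rw [abs_mul, mul_comm]
      exact mul_le_mul h1 (single_le_sum (f := fun n => |β n|) (fun _ _ => abs_nonneg _) hnS)
        (abs_nonneg _) (by positivity)
    have a4 := abs_le.1 a3
    have a5 : |α n * x.1| ≤ R := abs_le.2 ⟨by omega, by omega⟩
    exact a2.trans a5
  let near : ι → ι → Prop := fun n n' => |α n * β n' - α n' * β n| * V < (A : ℤ) * K ^ 2 * l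
  have nsym : ∀ n n', near n n' ↔ near n' n := fun n n' => by
    simp only [near]; rw [abs_sub_comm]
  let M : ι → ι → ℝ := fun n n' => ∑ i ∈ range N,
    ∑ q ∈ (α n * β n' - α n' * β n).natAbs.divisors, Mq (Iv l i) (H n) q
  have M0 : ∀ n n', 0 ≤ M n n' := fun n n' =>
    sum_nonneg fun _ _ => sum_nonneg fun _ _ => Mq_nonneg _ _ _
  let f : ι → ι → ℝ := fun n n' => (V : ℝ) / A * (5 / 2 * (if near n n' then N2 I (H n) else 0) +
    14 / (K : ℝ) ^ 2 * N2 I (H n) + 5 / (2 * l) * M n n')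
  have pair : ∀ n ∈ S, ∀ n' ∈ S,
      ‖∑ x ∈ T', (clamp V x.2 : ℂ) * (H n (α n * x.1 + β n * x.2) *
        (starRingEnd ℂ) (H n' (α n' * x.1 + β n' * x.2)))‖ ≤ f n n' + f n' n := by
    intro n h1 n' h2
    have n1 := N2_nonneg I (H n)
    have n2 := N2_nonneg I (H n')
    have m1 := M0 n n'
    have m2 := M0 n' n
    by_cases hnear : near n n'
    · refine (disp2_near (hc n h1) (hc n' h2) hA hAV (hα n h1).1 (hα n' h2).1 I (H n) (H n')
        (hH n h1) (hH n' h2) T' t1).trans ?_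
      simp only [f, if_pos hnear, if_pos ((nsym n n').1 hnear)]
      have p : 0 ≤ (V : ℝ) / A * (14 / (K : ℝ) ^ 2 * N2 I (H n) + 5 / (2 * l) * M n n' +
        (14 / (K : ℝ) ^ 2 * N2 I (H n') + 5 / (2 * l) * M n' n)) := by positivity
      linarith
    · refine (far_pair (hc n h1) (hc n' h2) hA hAV hK hl (hα n h1) (hα n' h2) (not_lt.1 hnear)
        (H n) (H n') (hH n h1) (hH n' h2) T' (t2 n h1)).trans (le_of_eq ?_)
      have e : ∑ i ∈ range N, ∑ q ∈ (α n * β n' - α n' * β n).natAbs.divisors,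
          (Mq (Iv l i) (H n) q + Mq (Iv l i) (H n') q) = M n n' + M n' n := by
        simp only [M, sum_add_distrib]
        rw [← Int.natAbs_neg (α n' * β n - α n * β n'), neg_sub]
      rw [e]
      simp only [f, if_neg hnear, if_neg fun h => hnear ((nsym n n').2 h)]
      ring
  have tot : ∑ n ∈ S, ∑ n' ∈ S, f n n' ≤ (V : ℝ) / A * ((5 / 2 * n₁ + 14 * S.card / (K : ℝ) ^ 2) *
      ∑ n ∈ S, N2 I (H n) + 5 / (2 * l) * ∑ n ∈ S, ∑ n' ∈ S, M n n') := by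
    rw [mul_sum, mul_sum, ← sum_add_distrib, mul_sum]
    refine sum_le_sum fun n hnS => ?_
    simp only [f]
    rw [← mul_sum, sum_add_distrib, sum_add_distrib, ← mul_sum, ← mul_sum (s := S) (f := M n),
      sum_const, ← sum_filter, sum_const, nsmul_eq_mul, nsmul_eq_mul]
    refine mul_le_mul_of_nonneg_left ?_ hVA
    have c1 : ((S.filter (near n)).card : ℝ) ≤ n₁ := by exact_mod_cast hn n hnS
    have c2 := mul_le_mul_of_nonneg_right c1 (N2_nonneg I (H n))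
    have c3 : (S.card : ℝ) * (14 / (K : ℝ) ^ 2 * N2 I (H n)) =
      14 * S.card / (K : ℝ) ^ 2 * N2 I (H n) := by ring
    linarith
  have cs : ‖∑ x ∈ T, F x * ∑ n ∈ S, H n (α n * x.1 + β n * x.2)‖ ^ 2 ≤
      (∑ x ∈ T, ‖F x‖ ^ 2) * ∑ x ∈ T, ‖∑ n ∈ S, H n (α n * x.1 + β n * x.2)‖ ^ 2 := by
    refine le_trans ?_ (sum_mul_sq_le_sq_mul_sq T _ _)
    refine pow_le_pow_left₀ (norm_nonneg _) ((norm_sum_le _ _).trans (le_of_eq ?_)) 2
    exact sum_congr rfl fun x _ => norm_mul _ _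
  have enl : ∑ x ∈ T, ‖∑ n ∈ S, H n (α n * x.1 + β n * x.2)‖ ^ 2 ≤
      ∑ x ∈ T', clamp V x.2 * ‖∑ n ∈ S, H n (α n * x.1 + β n * x.2)‖ ^ 2 := by
    refine le_trans (le_of_eq (sum_congr rfl fun x hx => ?_))
      (sum_le_sum_of_subset_of_nonneg subset_union_left fun x _ _ =>
        mul_nonneg (disp2_clamp_nonneg _ _) (by positivity))
    rw [disp2_clamp_one hV (by exact_mod_cast hT x hx), one_mul]
  have main := (enl.trans (disp2_expand S T' (fun x => clamp V x.2)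
    fun n x => H n (α n * x.1 + β n * x.2))).trans
      (sum_le_sum fun n h1 => sum_le_sum fun n' h2 => pair n h1 n' h2)
  rw [disp2_symm] at main
  refine cs.trans ?_
  rw [mul_assoc]
  refine mul_le_mul_of_nonneg_left (main.trans ?_) (sum_nonneg fun _ _ => by positivity)
  refine (mul_le_mul_of_nonneg_left tot zero_le_two).trans (le_of_eq ?_)
  simp only [M]
  field_simp
  ring

end Pool.Agent.Lib.MP_788af2_nt.R0
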