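import Pool.Agent.Lib.MP_788af2_nt.R0.Rows

namespace Pool.Agent.Lib.MP_788af2_nt.R0

open Finset Filter
open scoped NumberTheorySymbols

/-! Pairs of vectors correspond to triples of factorisations. -/

lemma exp1_dvd {n : ℕ} {A : U → ℕ} (hA : A ∈ tup U n) (u : U) : A u ∣ n := by
  rw [← prod_of_mem_tup hA]
  exact dvd_prod_of_mem _ (mem_univ u)

lemma exp1_ex {n p : ℕ} {A : U → ℕ} (hA : A ∈ tup U n) (hp : p.Prime) (h : p ∣ n) :
    ∃ u, p ∣ A u := by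
  rw [← prod_of_mem_tup hA] at h
  obtain ⟨u, -, hu⟩ := (Prime.dvd_finsetProd_iff hp.prime _).1 h
  exact ⟨u, hu⟩

lemma exp1_mul_dvd {n : ℕ} {A : U → ℕ} (hA : A ∈ tup U n) {u v : U} (h : u ≠ v) :
    A u * A v ∣ n := by
  rw [← prod_of_mem_tup hA, ← prod_pair h]
  exact prod_dvd_prod_of_subset _ _ _ (subset_univ _)

lemma exp1_uniq {n p : ℕ} (hn : Squarefree n) {A : U → ℕ} (hA : A ∈ tup U n) (hp : p.Prime)
    {u v : U} (hu : p ∣ A u) (hv : p ∣ A v) : u = v := by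
  by_contra h
  exact hp.one_lt.ne' (Nat.isUnit_iff.1
    (hn p ((mul_dvd_mul hu hv).trans (exp1_mul_dvd hA h))))

lemma exp1_x1_dvd {n : ℕ} {A : U → ℕ} (hA : A ∈ tup U n) : x1 A ∣ n :=
  exp1_mul_dvd hA (by decide)

lemma exp1_x2_dvd {n : ℕ} {A : U → ℕ} (hA : A ∈ tup U n) : x2 A ∣ n :=
  exp1_mul_dvd hA (by decide)

lemma exp1_x1 {n p : ℕ} (hn : Squarefree n) {A : U → ℕ} (hA : A ∈ tup U n) (hp : p.Prime)
    {u : U} (hu : p ∣ A u) : p ∣ x1 A ↔ u.1 = 1 := by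
  rw [x1, hp.dvd_mul]
  constructor
  · rintro (h | h) <;> rw [exp1_uniq hn hA hp hu h]
  · intro h
    have h1 : ∀ u : U, u.1 = 1 → u = (1, 0) ∨ u = (1, 1) := by decide
    rcases h1 u h with rfl | rfl
    · exact Or.inl hu
    · exact Or.inr hu

lemma exp1_x2 {n p : ℕ} (hn : Squarefree n) {A : U → ℕ} (hA : A ∈ tup U n) (hp : p.Prime)
    {u : U} (hu : p ∣ A u) : p ∣ x2 A ↔ u.2 = 1 := by
  rw [x2, hp.dvd_mul]
  constructor
  · rintro (h | h) <;> rw [exp1_uniq hn hA hp hu h]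
  · intro h
    have h1 : ∀ u : U, u.2 = 1 → u = (0, 1) ∨ u = (1, 1) := by decide
    rcases h1 u h with rfl | rfl
    · exact Or.inl hu
    · exact Or.inr hu

lemma exp1_not {m n p k : ℕ} (h : m.Coprime n) (hp : p.Prime) (hm : p ∣ m) (hk : k ∣ n) :
    ¬p ∣ k := fun hk' =>
  hp.one_lt.ne' (Nat.eq_one_of_dvd_coprimes h hm (hk'.trans hk))

lemma exp1_three {n1 n2 n3 p : ℕ} (hn : Squarefree n1) (h2 : n1.Coprime n2) (h3 : n1.Coprime n3)
    {A B C : U → ℕ} (hA : A ∈ tup U n1) (hB : B ∈ tup U n2) (hC : C ∈ tup U n3) (hp : p.Prime)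
    {u : U} (hu : p ∣ A u) :
    (p ∣ x1 A * x1 B * x1 C ↔ u.1 = 1) ∧ (p ∣ x2 A * x2 B * x2 C ↔ u.2 = 1) := by
  have h4 : p ∣ n1 := hu.trans (exp1_dvd hA u)
  rw [hp.dvd_mul, hp.dvd_mul, hp.dvd_mul, hp.dvd_mul, exp1_x1 hn hA hp hu, exp1_x2 hn hA hp hu]
  simp [exp1_not h2 hp h4 (exp1_x1_dvd hB), exp1_not h2 hp h4 (exp1_x2_dvd hB),
    exp1_not h3 hp h4 (exp1_x1_dvd hC), exp1_not h3 hp h4 (exp1_x2_dvd hC)]

lemma exp1_ite {q : Prop} [Decidable q] {e : ZMod 2} (h : q ↔ e = 1) :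
    (if q then (1 : ZMod 2) else 0) = e := by
  have h1 : ∀ e : ZMod 2, e = 0 ∨ e = 1 := by decide
  rcases h1 e with rfl | rfl
  · rw [if_neg]
    rw [h]
    decide
  · rw [if_pos (h.2 rfl)]

lemma exp1_sq {a1 b1 P Q c : ℕ} (h : Adm a1 b1 P Q c) :
    Squarefree a1 ∧ Squarefree b1 ∧ Squarefree c := by
  have h1 := h.facts.1
  exact ⟨h1.squarefree_of_dvd ((dvd_mul_right a1 b1).trans (dvd_mul_right _ c)),
    h1.squarefree_of_dvd ((dvd_mul_left b1 a1).trans (dvd_mul_right _ c)),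
    h1.squarefree_of_dvd (dvd_mul_left c _)⟩

lemma exp1_val {a1 b1 P Q c : ℕ} (h : Adm a1 b1 P Q c) (e f : ZMod 2) {A B C : U → ℕ}
    (hA : A ∈ tup U a1) (hB : B ∈ tup U b1) (hC : C ∈ tup U c)
    (p : {p // p ∈ (a1 * b1 * c).primeFactors}) {u : U}
    (hu : p.1 ∣ A u ∨ p.1 ∣ B u ∨ p.1 ∣ C u) :
    vecD a1 b1 c e (x1 A * x1 B * x1 C) (some p) = u.1 ∧
      vecD a1 b1 c f (x2 A * x2 B * x2 C) (some p) = u.2 := by
  obtain ⟨s1, s2, s3⟩ := exp1_sq h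
  obtain ⟨-, -, -, -, -, -, c1, c2, c3, -⟩ := h.facts
  have hp := Nat.prime_of_mem_primeFactors p.2
  have key : (p.1 ∣ x1 A * x1 B * x1 C ↔ u.1 = 1) ∧ (p.1 ∣ x2 A * x2 B * x2 C ↔ u.2 = 1) := by
    rcases hu with hu | hu | hu
    · exact exp1_three s1 c1 c2 hA hB hC hp hu
    · have h1 := exp1_three s2 c1.symm c3 hB hA hC hp hu
      rwa [mul_comm (x1 B), mul_comm (x2 B)] at h1
    · have h1 := exp1_three s3 c2.symm c3.symm hC hA hB hp hu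
      rwa [mul_assoc (x1 C), mul_comm (x1 C), mul_assoc (x2 C), mul_comm (x2 C)] at h1
  exact ⟨exp1_ite key.1, exp1_ite key.2⟩

lemma exp1_ext {n : ℕ} (hn : Squarefree n) {A A' : U → ℕ} (hA : A ∈ tup U n) (hA' : A' ∈ tup U n)
    (h : ∀ p : ℕ, p.Prime → ∀ u v, p ∣ A u → p ∣ A' v → u = v) : A = A' := by
  funext u
  rw [Nat.Squarefree.ext_iff (hn.squarefree_of_dvd (exp1_dvd hA u))
    (hn.squarefree_of_dvd (exp1_dvd hA' u))]
  intro p hp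
  constructor
  · intro hu
    obtain ⟨v, hv⟩ := exp1_ex hA' hp (hu.trans (exp1_dvd hA u))
    rwa [h p hp u v hu hv]
  · intro hu
    obtain ⟨v, hv⟩ := exp1_ex hA hp (hu.trans (exp1_dvd hA' u))
    rwa [← h p hp v u hv hu]

lemma exp1_mk {n : ℕ} (hn : Squarefree n) (t : ℕ → U) :
    ∃ A ∈ tup U n, ∀ p : ℕ, p.Prime → p ∣ n → p ∣ A (t p) := by
  refine ⟨fun u => ∏ p ∈ n.primeFactors with t p = u, p, ?_, fun p hp hpn => ?_⟩
  · rw [mem_tup hn.ne_zero, prod_fiberwise, Nat.prod_primeFactors_of_squarefree hn]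
  · exact dvd_prod_of_mem _ (mem_filter.2 ⟨Nat.mem_primeFactors.2 ⟨hp, hpn, hn.ne_zero⟩, rfl⟩)

lemma exp1_cases {a1 b1 c : ℕ} (p : {p // p ∈ (a1 * b1 * c).primeFactors}) :
    p.1 ∣ a1 ∨ p.1 ∣ b1 ∨ p.1 ∣ c := by
  have hp := Nat.prime_of_mem_primeFactors p.2
  have h1 := Nat.dvd_of_mem_primeFactors p.2
  rwa [hp.dvd_mul, hp.dvd_mul, or_assoc] at h1

lemma exp1_mem {a1 b1 P Q c p : ℕ} (h : Adm a1 b1 P Q c) (hp : p.Prime)
    (hd : p ∣ a1 ∨ p ∣ b1 ∨ p ∣ c) : p ∈ (a1 * b1 * c).primeFactors := by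
  refine Nat.mem_primeFactors.2 ⟨hp, ?_, h.facts.1.ne_zero⟩
  rwa [hp.dvd_mul, hp.dvd_mul, or_assoc]

theorem sum_types {a1 b1 P Q c : ℕ} (h : Adm a1 b1 P Q c)
    (F : (Ix a1 b1 c → ZMod 2) → (Ix a1 b1 c → ZMod 2) → ℝ) :
    ∑ x, ∑ y, F x y = ∑ e : ZMod 2, ∑ f : ZMod 2, ∑ A ∈ tup U a1, ∑ B ∈ tup U b1, ∑ C ∈ tup U c,
      F (vecD a1 b1 c e (x1 A * x1 B * x1 C)) (vecD a1 b1 c f (x2 A * x2 B * x2 C)) := by
  obtain ⟨s1, s2, s3⟩ := exp1_sq h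
  have key : ∑ z ∈ (univ : Finset (ZMod 2)) ×ˢ (univ : Finset (ZMod 2)) ×ˢ tup U a1 ×ˢ
      tup U b1 ×ˢ tup U c,
      F (vecD a1 b1 c z.1 (x1 z.2.2.1 * x1 z.2.2.2.1 * x1 z.2.2.2.2))
        (vecD a1 b1 c z.2.1 (x2 z.2.2.1 * x2 z.2.2.2.1 * x2 z.2.2.2.2)) =
      ∑ w ∈ (univ : Finset (Ix a1 b1 c → ZMod 2)) ×ˢ (univ : Finset (Ix a1 b1 c → ZMod 2)),
        F w.1 w.2 := by
    refine sum_bij (fun z _ => (vecD a1 b1 c z.1 (x1 z.2.2.1 * x1 z.2.2.2.1 * x1 z.2.2.2.2),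
      vecD a1 b1 c z.2.1 (x2 z.2.2.1 * x2 z.2.2.2.1 * x2 z.2.2.2.2))) ?_ ?_ ?_ ?_
    · intro z _
      exact mem_product.2 ⟨mem_univ _, mem_univ _⟩
    · rintro ⟨e, f, A, B, C⟩ hz ⟨e', f', A', B', C'⟩ hz' he
      simp only [mem_product, mem_univ, true_and] at hz hz'
      obtain ⟨hA, hB, hC⟩ := hz
      obtain ⟨hA', hB', hC'⟩ := hz'
      simp only [Prod.mk.injEq] at he
      obtain ⟨k1, k2⟩ := he
      have k3 : e = e' := congrFun k1 none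
      have k4 : f = f' := congrFun k2 none
      have k5 : ∀ p : ℕ, p.Prime → (p ∣ a1 ∨ p ∣ b1 ∨ p ∣ c) → ∀ u v : U,
          (p ∣ A u ∨ p ∣ B u ∨ p ∣ C u) → (p ∣ A' v ∨ p ∣ B' v ∨ p ∣ C' v) → u = v := by
        intro p hp hd u v hu hv
        have h1 := exp1_val h e f hA hB hC ⟨p, exp1_mem h hp hd⟩ hu
        have h2 := exp1_val h e' f' hA' hB' hC' ⟨p, exp1_mem h hp hd⟩ hv
        rw [k1, k2] at h1
        exact Prod.ext (h1.1.symm.trans h2.1) (h1.2.symm.trans h2.2)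
      have k6 : A = A' := exp1_ext s1 hA hA' fun p hp u v hu hv =>
        k5 p hp (Or.inl (hu.trans (exp1_dvd hA u))) u v (Or.inl hu) (Or.inl hv)
      have k7 : B = B' := exp1_ext s2 hB hB' fun p hp u v hu hv =>
        k5 p hp (Or.inr (Or.inl (hu.trans (exp1_dvd hB u)))) u v (Or.inr (Or.inl hu))
          (Or.inr (Or.inl hv))
      have k8 : C = C' := exp1_ext s3 hC hC' fun p hp u v hu hv =>
        k5 p hp (Or.inr (Or.inr (hu.trans (exp1_dvd hC u)))) u v (Or.inr (Or.inr hu))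
          (Or.inr (Or.inr hv))
      rw [k3, k4, k6, k7, k8]
    · rintro ⟨x, y⟩ -
      let t : ℕ → U := fun p => if hp : p ∈ (a1 * b1 * c).primeFactors then
        (x (some ⟨p, hp⟩), y (some ⟨p, hp⟩)) else 0
      obtain ⟨A, hA, kA⟩ := exp1_mk s1 t
      obtain ⟨B, hB, kB⟩ := exp1_mk s2 t
      obtain ⟨C, hC, kC⟩ := exp1_mk s3 t
      have k1 : ∀ p : {p // p ∈ (a1 * b1 * c).primeFactors},
          vecD a1 b1 c (x none) (x1 A * x1 B * x1 C) (some p) = x (some p) ∧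
          vecD a1 b1 c (y none) (x2 A * x2 B * x2 C) (some p) = y (some p) := by
        intro p
        have hp := Nat.prime_of_mem_primeFactors p.2
        have h1 : t p.1 = (x (some p), y (some p)) := dif_pos p.2
        have h2 := exp1_val h (x none) (y none) hA hB hC p (u := t p.1)
          ((exp1_cases p).imp (kA _ hp) (Or.imp (kB _ hp) (kC _ hp)))
        rwa [h1] at h2
      refine ⟨(x none, y none, A, B, C), by simp [hA, hB, hC], Prod.ext ?_ ?_⟩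
      · funext i
        cases i with
        | none => rfl
        | some p => exact (k1 p).1
      · funext i
        cases i with
        | none => rfl
        | some p => exact (k1 p).2
    · intro z _
      rfl
  simp only [sum_product] at key
  exact key.symm

lemma exp1_prof {n Z : ℕ} (hn : n ≠ 0) {A : U → ℕ} (hA : A ∈ tup U n) {u : U} :
    u ∈ prof Z A ↔ ∃ p : ℕ, p.Prime ∧ p ∣ A u ∧ Z < p := by
  have h1 : A u ≠ 0 := ne_zero_of_dvd_ne_zero hn (exp1_dvd hA u)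
  have h0 : u ∈ prof Z A ↔ big Z (A u) := by
    rw [prof, mem_filter]
    exact and_iff_right (mem_univ u)
  rw [h0]
  simp only [big, Nat.mem_primeFactors]
  constructor
  · rintro ⟨p, ⟨h2, h3, -⟩, h4⟩
    exact ⟨p, h2, h3, h4⟩
  · rintro ⟨p, h2, h3, h4⟩
    exact ⟨p, ⟨h2, h3, h1⟩, h4⟩

lemma exp1_Sm {a1 b1 c Z : ℕ} {x : Ix a1 b1 c → ZMod 2} : x ∉ Sm a1 b1 c Z ↔
    ∃ p : {p // p ∈ (a1 * b1 * c).primeFactors}, Z < p.1 ∧ x (some p) = 1 := by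
  have h1 : ∀ e : ZMod 2, ¬e = 0 ↔ e = 1 := by decide
  simp only [Sm, mem_filter, mem_univ, true_and, not_forall, h1, exists_prop]

lemma exp1_big {a1 b1 P Q c : ℕ} (h : Adm a1 b1 P Q c) (Z : ℕ) {A B C : U → ℕ}
    (hA : A ∈ tup U a1) (hB : B ∈ tup U b1) (hC : C ∈ tup U c) {x : Ix a1 b1 c → ZMod 2}
    {φ ψ : U → ZMod 2}
    (hx : ∀ (p : {p // p ∈ (a1 * b1 * c).primeFactors}) (u : U),
      ((p.1 ∣ A u ∨ p.1 ∣ B u) → x (some p) = φ u) ∧ (p.1 ∣ C u → x (some p) = ψ u)) :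
    x ∉ Sm a1 b1 c Z ↔ (∃ u ∈ prof Z A ∪ prof Z B, φ u = 1) ∨ ∃ u ∈ prof Z C, ψ u = 1 := by
  obtain ⟨s1, s2, s3⟩ := exp1_sq h
  rw [exp1_Sm]
  constructor
  · rintro ⟨p, h1, h2⟩
    have hp := Nat.prime_of_mem_primeFactors p.2
    rcases exp1_cases p with h3 | h3 | h3
    · obtain ⟨u, hu⟩ := exp1_ex hA hp h3
      exact Or.inl ⟨u, mem_union_left _ ((exp1_prof s1.ne_zero hA).2 ⟨p, hp, hu, h1⟩),
        ((hx p u).1 (Or.inl hu)).symm.trans h2⟩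
    · obtain ⟨u, hu⟩ := exp1_ex hB hp h3
      exact Or.inl ⟨u, mem_union_right _ ((exp1_prof s2.ne_zero hB).2 ⟨p, hp, hu, h1⟩),
        ((hx p u).1 (Or.inr hu)).symm.trans h2⟩
    · obtain ⟨u, hu⟩ := exp1_ex hC hp h3
      exact Or.inr ⟨u, (exp1_prof s3.ne_zero hC).2 ⟨p, hp, hu, h1⟩,
        ((hx p u).2 hu).symm.trans h2⟩
  · rintro (⟨u, hu, h1⟩ | ⟨u, hu, h1⟩)
    · rcases mem_union.1 hu with hu | hu
      · obtain ⟨p, hp, h2, h3⟩ := (exp1_prof s1.ne_zero hA).1 hu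
        exact ⟨⟨p, exp1_mem h hp (Or.inl (h2.trans (exp1_dvd hA u)))⟩, h3,
          ((hx _ u).1 (Or.inl h2)).trans h1⟩
      · obtain ⟨p, hp, h2, h3⟩ := (exp1_prof s2.ne_zero hB).1 hu
        exact ⟨⟨p, exp1_mem h hp (Or.inr (Or.inl (h2.trans (exp1_dvd hB u))))⟩, h3,
          ((hx _ u).1 (Or.inr h2)).trans h1⟩
    · obtain ⟨p, hp, h2, h3⟩ := (exp1_prof s3.ne_zero hC).1 hu
      exact ⟨⟨p, exp1_mem h hp (Or.inr (Or.inr (h2.trans (exp1_dvd hC u))))⟩, h3,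
        ((hx _ u).2 h2).trans h1⟩

lemma exp1_union {s t : Finset U} {φ : U → ZMod 2} :
    ((∃ u ∈ s, φ u = 1) ∨ ∃ u ∈ t, φ u = 1) ↔ ∃ u ∈ s ∪ t, φ u = 1 := by
  simp only [mem_union, or_and_right, exists_or]

theorem EE_iff {a1 b1 P Q c : ℕ} (h : Adm a1 b1 P Q c) (Z : ℕ) (e f : ZMod 2) {A B C : U → ℕ}
    (hA : A ∈ tup U a1) (hB : B ∈ tup U b1) (hC : C ∈ tup U c) :
    (vecD a1 b1 c e (x1 A * x1 B * x1 C) ∉ Sm a1 b1 c Z ∧
      vecD a1 b1 c f (x2 A * x2 B * x2 C) ∉ Sm a1 b1 c Z ∧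
      vecD a1 b1 c e (x1 A * x1 B * x1 C) + vecD a1 b1 c f (x2 A * x2 B * x2 C) +
        vecD a1 b1 c 0 c ∉ Sm a1 b1 c Z) ↔ EEs (prof Z A) (prof Z B) (prof Z C) := by
  obtain ⟨-, -, -, -, -, -, c1, c2, c3, -⟩ := h.facts
  have k1 := exp1_big h Z hA hB hC (x := vecD a1 b1 c e (x1 A * x1 B * x1 C))
    (φ := fun u => u.1) (ψ := fun u => u.1) fun p u =>
      ⟨fun hu => (exp1_val h e f hA hB hC p (hu.imp id Or.inl)).1,
        fun hu => (exp1_val h e f hA hB hC p (Or.inr (Or.inr hu))).1⟩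
  have k2 := exp1_big h Z hA hB hC (x := vecD a1 b1 c f (x2 A * x2 B * x2 C))
    (φ := fun u => u.2) (ψ := fun u => u.2) fun p u =>
      ⟨fun hu => (exp1_val h e f hA hB hC p (hu.imp id Or.inl)).2,
        fun hu => (exp1_val h e f hA hB hC p (Or.inr (Or.inr hu))).2⟩
  have k3 := exp1_big h Z hA hB hC (x := vecD a1 b1 c e (x1 A * x1 B * x1 C) +
      vecD a1 b1 c f (x2 A * x2 B * x2 C) + vecD a1 b1 c 0 c)
    (φ := fun u => u.1 + u.2) (ψ := fun u => u.1 + u.2 + 1) fun p u => by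
      have hp := Nat.prime_of_mem_primeFactors p.2
      constructor
      · intro hu
        obtain ⟨h1, h2⟩ := exp1_val h e f hA hB hC p (hu.imp id Or.inl)
        have h3 : ¬p.1 ∣ c := by
          rcases hu with hu | hu
          · exact exp1_not c2 hp (hu.trans (exp1_dvd hA u)) dvd_rfl
          · exact exp1_not c3 hp (hu.trans (exp1_dvd hB u)) dvd_rfl
        have h4 : vecD a1 b1 c 0 c (some p) = 0 := if_neg h3
        rw [Pi.add_apply, Pi.add_apply, h1, h2, h4, add_zero]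
      · intro hu
        obtain ⟨h1, h2⟩ := exp1_val h e f hA hB hC p (Or.inr (Or.inr hu))
        have h4 : vecD a1 b1 c 0 c (some p) = 1 := if_pos (hu.trans (exp1_dvd hC u))
        rw [Pi.add_apply, Pi.add_apply, h1, h2, h4]
  have k4 : ∀ z : ZMod 2, z + 1 = 1 ↔ z = 0 := by decide
  rw [k1, k2, k3, exp1_union, exp1_union]
  simp only [k4]
  rfl

end Pool.Agent.Lib.MP_788af2_nt.R0
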