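import Pool.Agent.Lib.MP_788af2_nt.R0.Rows

namespace Pool.Agent.Lib.MP_788af2_nt.R0

open Finset Filter
open scoped NumberTheorySymbols

/-! Evaluation of the bilinear form on a pair of vectors. -/

lemma exp2_add {d : ℕ} (hd : Squarefree d) (F : ℕ → ZMod 2) (h1 : F 1 = 0)
    (hm : ∀ m n, m * n ∣ d → F (m * n) = F m + F n) : ∑ p ∈ d.primeFactors, F p = F d := by
  have key : ∀ s : Finset ℕ, s ⊆ d.primeFactors → ∑ p ∈ s, F p = F (∏ p ∈ s, p) := by
    intro s
    induction s using Finset.induction_on with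
    | empty => intro _; simp [h1]
    | insert p s hp ih =>
      intro hs
      have h2 : ∏ q ∈ insert p s, q ∣ d :=
        (prod_dvd_prod_of_subset _ _ _ hs).trans (Nat.prod_primeFactors_dvd d)
      rw [prod_insert hp] at h2
      rw [sum_insert hp, prod_insert hp, hm _ _ h2, ih ((subset_insert p s).trans hs)]
  rw [key _ Subset.rfl, Nat.prod_primeFactors_of_squarefree hd]

lemma exp2_lam {d : ℕ} (hd : Squarefree d) (ho : Odd d) :
    ∑ p ∈ d.primeFactors, lam p = lam d :=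
  exp2_add hd lam (by simp [lam]) fun m n h =>
    lam_mul (ho.of_dvd_nat ((dvd_mul_right m n).trans h))
      (ho.of_dvd_nat ((dvd_mul_left n m).trans h))

lemma exp2_left {d n : ℕ} (hd : Squarefree d) (hc : d.Coprime n) :
    ∑ p ∈ d.primeFactors, lj p n = lj d n :=
  exp2_add hd (fun p => lj p n) (by simp [lj]) fun a b h =>
    lj_mul_left (hc.coprime_dvd_left ((dvd_mul_right a b).trans h))
      (hc.coprime_dvd_left ((dvd_mul_left b a).trans h))

lemma exp2_right {d a : ℕ} (hd : Squarefree d) (hc : a.Coprime d) :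
    ∑ p ∈ d.primeFactors, lj a p = lj a d :=
  exp2_add hd (fun p => lj a p) (by simp [lj]) fun m n h =>
    lj_mul_right (ne_zero_of_dvd_ne_zero hd.ne_zero ((dvd_mul_right m n).trans h))
      (ne_zero_of_dvd_ne_zero hd.ne_zero ((dvd_mul_left n m).trans h))
      (hc.coprime_dvd_right ((dvd_mul_right m n).trans h))
      (hc.coprime_dvd_right ((dvd_mul_left n m).trans h))

lemma exp2_filter {x y z : ℕ} (hx : x * z ≠ 0) (hxy : x.Coprime y) (g : ℕ → ZMod 2) :
    ∑ p ∈ (x * z).primeFactors, (if p ∣ y * z then g p else 0) = ∑ p ∈ z.primeFactors, g p := by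
  rw [← sum_filter]
  congr 1
  ext p
  simp only [mem_filter, Nat.mem_primeFactors]
  constructor
  · rintro ⟨⟨hp, h1, -⟩, h2⟩
    refine ⟨hp, ?_, right_ne_zero_of_mul hx⟩
    rcases (Nat.Prime.dvd_mul hp).1 h1 with h3 | h3
    · rcases (Nat.Prime.dvd_mul hp).1 h2 with h4 | h4
      · exact absurd (Nat.eq_one_of_dvd_coprimes hxy h3 h4) hp.one_lt.ne'
      · exact h4
    · exact h3
  · rintro ⟨hp, h1, -⟩
    exact ⟨⟨hp, h1.mul_left x, hx⟩, h1.mul_left y⟩

lemma exp2_sum (f : U → ZMod 2) : ∑ u, f u = f (0, 0) + f (0, 1) + f (1, 0) + f (1, 1) := by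
  have h : ∀ g : ZMod 2 → ZMod 2, ∑ x, g x = g 0 + g 1 := fun g => Fin.sum_univ_two g
  rw [Fintype.sum_prod_type, h, h, h]
  ring

lemma exp2_prod (f : U → ℕ) : ∏ u, f u = f (0, 0) * f (0, 1) * f (1, 0) * f (1, 1) := by
  have h : ∀ g : ZMod 2 → ℕ, ∏ x, g x = g 0 * g 1 := fun g => Fin.prod_univ_two g
  rw [Fintype.prod_prod_type, h, h, h]
  ring

lemma exp2_sgn_sum {ι : Type} (s : Finset ι) (f : ι → ZMod 2) :
    ∏ i ∈ s, sgn (f i) = sgn (∑ i ∈ s, f i) := by
  classical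
  induction s using Finset.induction_on with
  | empty => simp [sgn]
  | insert i s hi ih => rw [prod_insert hi, sum_insert hi, sgn_add, ih]

lemma exp2_Jp (e : ZMod 2) {m n : ℕ} (h : m.Coprime n) : Jp e m n = sgn (e * lj m n) := by
  have h2 : ∀ e : ZMod 2, e = 0 ∨ e = 1 := by decide
  rcases h2 e with rfl | rfl
  · simp [Jp, sgn]
  · rw [one_mul, sgn_lj h]
    simp [Jp]

lemma exp2_lj {x y z w : ℕ} (hz : z * w ≠ 0) (h : (x * y).Coprime (z * w)) :
    lj (x * y) (z * w) = lj x z + lj x w + lj y z + lj y w := by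
  have hx : x.Coprime (z * w) := h.coprime_mul_right
  have hy : y.Coprime (z * w) := h.coprime_mul_left
  have h1 := left_ne_zero_of_mul hz
  have h2 := right_ne_zero_of_mul hz
  rw [lj_mul_left hx hy, lj_mul_right h1 h2 hx.coprime_mul_right_right hx.coprime_mul_left_right,
    lj_mul_right h1 h2 hy.coprime_mul_right_right hy.coprime_mul_left_right]
  ring

lemma exp2_lj4 {x x0 x1 x2 x3 : ℕ} (hz : x0 * x1 * x2 * x3 ≠ 0)
    (h : x.Coprime (x0 * x1 * x2 * x3)) :
    lj x (x0 * x1 * x2 * x3) = lj x x0 + lj x x1 + lj x x2 + lj x x3 := by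
  have h1 := left_ne_zero_of_mul hz
  have h2 := left_ne_zero_of_mul h1
  have k1 := h.coprime_mul_right_right
  have k2 := k1.coprime_mul_right_right
  rw [lj_mul_right h1 (right_ne_zero_of_mul hz) k1 h.coprime_mul_left_right,
    lj_mul_right h2 (right_ne_zero_of_mul h1) k2 k1.coprime_mul_left_right,
    lj_mul_right (left_ne_zero_of_mul h2) (right_ne_zero_of_mul h2) k2.coprime_mul_right_right
      k2.coprime_mul_left_right]

/-- The parts of a factorisation of a squarefree number. -/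
lemma exp2_parts {n : ℕ} (hn : Squarefree n) {A : U → ℕ} (hA : A ∈ tup U n) :
    (∀ u, A u ∣ n) ∧ x1 A ∣ n ∧ x2 A ∣ n ∧ (A (1, 0)).Coprime (A (0, 1)) ∧
      A (0, 0) * A (0, 1) * A (1, 0) * A (1, 1) = n := by
  have h1 := prod_of_mem_tup hA
  have h2 := (exp2_prod A).symm.trans h1
  refine ⟨fun u => h1 ▸ dvd_prod_of_mem A (mem_univ u), ⟨A (0, 0) * A (0, 1), ?_⟩,
    ⟨A (0, 0) * A (1, 0), ?_⟩, ?_, h2⟩
  · rw [← h2, x1]; ring
  · rw [← h2, x2]; ring
  · have h3 : A (1, 0) * A (0, 1) ∣ n := ⟨A (0, 0) * A (1, 1), by rw [← h2]; ring⟩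
    exact Nat.coprime_of_squarefree_mul (hn.squarefree_of_dvd h3)

/-- The form as a sum over the primes of the three parts of the first vector. -/
lemma exp2_dot {a1 b1 P Q c : ℕ} (h : Adm a1 b1 P Q c) (a : ℕ) (e f : ZMod 2)
    {A B C A' B' C' : ℕ} (hA : A ∣ a1) (hB : B ∣ b1) (hC : C ∣ c) (hA' : A' ∣ a1) (hB' : B' ∣ b1)
    (hC' : C' ∣ c) :
    vecD a1 b1 c e (A * B * C) ⬝ᵥ (mat a1 b1 c a).mulVec (vecD a1 b1 c f (A' * B' * C')) =
      e * (lam A' + lam B') +
      (∑ p ∈ A.primeFactors, (f * lam p + lj p B' + lj p C' + if p ∣ A' then lj p c else 0) +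
      ∑ p ∈ B.primeFactors, (f * lam p + lj A' p + lj p C' + lam p * lam B' +
        if p ∣ B' then lam p + lj p c else 0) +
      ∑ p ∈ C.primeFactors, (lj A' p + lj B' p + if p ∣ C' then lj a p else 0)) := by
  obtain ⟨hsq, -, -, -, -, -, hab, hac, hbc, -, -⟩ := h.facts
  obtain ⟨G, hG⟩ : ∃ G : ℕ → ZMod 2, ∀ p, G p =
      if p ∣ a1 then f * lam p + lj p B' + lj p C' + (if p ∣ A' then lj p c else 0)
      else if p ∣ b1 then f * lam p + lj A' p + lj p C' + lam p * lam B' +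
        (if p ∣ B' then lam p + lj p c else 0)
      else lj A' p + lj B' p + (if p ∣ C' then lj a p else 0) := ⟨_, fun _ => rfl⟩
  have hrow : ∀ p : {p // p ∈ (a1 * b1 * c).primeFactors},
      (mat a1 b1 c a).mulVec (vecD a1 b1 c f (A' * B' * C')) (some p) = G p := by
    intro p
    rw [hG]
    by_cases h1 : p.1 ∣ a1
    · rw [if_pos h1]
      exact h.row_a a f hA' hB' hC' p h1
    rw [if_neg h1]
    by_cases h2 : p.1 ∣ b1
    · rw [if_pos h2]
      exact h.row_b a f hA' hB' hC' p h2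
    rw [if_neg h2]
    refine h.row_c a f hA' hB' hC' p ?_
    have hp := Nat.prime_of_mem_primeFactors p.2
    rcases (Nat.Prime.dvd_mul hp).1 (Nat.dvd_of_mem_primeFactors p.2) with h3 | h3
    · exact absurd ((Nat.Prime.dvd_mul hp).1 h3) (not_or.2 ⟨h1, h2⟩)
    · exact h3
  have hd : A * B * C ∣ a1 * b1 * c := mul_dvd_mul (mul_dvd_mul hA hB) hC
  have hAB : A.Coprime B := (hab.coprime_dvd_left hA).coprime_dvd_right hB
  have hABC : (A * B).Coprime C := Nat.Coprime.mul_left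
    ((hac.coprime_dvd_left hA).coprime_dvd_right hC)
    ((hbc.coprime_dvd_left hB).coprime_dvd_right hC)
  have e1 : ∑ p : {p // p ∈ (a1 * b1 * c).primeFactors},
      vecD a1 b1 c e (A * B * C) (some p) *
        (mat a1 b1 c a).mulVec (vecD a1 b1 c f (A' * B' * C')) (some p) =
      ∑ p ∈ (A * B * C).primeFactors, G p := by
    have e2 : ∀ p : {p // p ∈ (a1 * b1 * c).primeFactors},
        vecD a1 b1 c e (A * B * C) (some p) *
          (mat a1 b1 c a).mulVec (vecD a1 b1 c f (A' * B' * C')) (some p) =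
        if p.1 ∣ A * B * C then G p else 0 := by
      intro p
      rw [hrow]
      simp only [vecD, Option.elim]
      split_ifs <;> simp
    rw [sum_congr rfl fun p _ => e2 p,
      sum_coe_sort (a1 * b1 * c).primeFactors fun p => if p ∣ A * B * C then G p else 0,
      ← sum_filter]
    congr 1
    ext p
    simp only [mem_filter, Nat.mem_primeFactors]
    constructor
    · rintro ⟨⟨hp, -, -⟩, h2⟩
      exact ⟨hp, h2, ne_zero_of_dvd_ne_zero hsq.ne_zero hd⟩
    · rintro ⟨hp, h2, -⟩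
      exact ⟨⟨hp, h2.trans hd, hsq.ne_zero⟩, h2⟩
  rw [dotProduct, Fintype.sum_option, e1, h.row_none a f hA' hB' hC', hABC.primeFactors_mul,
    sum_union hABC.disjoint_primeFactors, hAB.primeFactors_mul,
    sum_union hAB.disjoint_primeFactors]
  have nd : ∀ {m n p : ℕ}, m.Coprime n → p.Prime → p ∣ n → ¬p ∣ m := fun k hp k1 k2 =>
    hp.one_lt.ne' (Nat.eq_one_of_dvd_coprimes k k2 k1)
  congr 2
  · congr 1
    · refine sum_congr rfl fun p hp => ?_
      rw [hG, if_pos ((Nat.dvd_of_mem_primeFactors hp).trans hA)]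
    · refine sum_congr rfl fun p hp => ?_
      have k := (Nat.dvd_of_mem_primeFactors hp).trans hB
      rw [hG, if_neg (nd hab (Nat.prime_of_mem_primeFactors hp) k), if_pos k]
  · refine sum_congr rfl fun p hp => ?_
    have k := (Nat.dvd_of_mem_primeFactors hp).trans hC
    rw [hG, if_neg (nd hac (Nat.prime_of_mem_primeFactors hp) k),
      if_neg (nd hbc (Nat.prime_of_mem_primeFactors hp) k)]

theorem sgn_eval {a1 b1 P Q c : ℕ} (h : Adm a1 b1 P Q c) (e f : ZMod 2) {A B C : U → ℕ}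
    (hA : A ∈ tup U a1) (hB : B ∈ tup U b1) (hC : C ∈ tup U c) :
    sgn (vecD a1 b1 c e (x1 A * x1 B * x1 C) ⬝ᵥ
        (mat a1 b1 c (a1 * P)).mulVec (vecD a1 b1 c f (x2 A * x2 B * x2 C))) =
      sgA e f A * sgB e f B * kab A B * ∏ u, lk 0 u A B (a1 * P) (C u) := by
  obtain ⟨hsq, ha, hb, hc, -, -, hab, hac, hbc, hPc, -⟩ := h.facts
  have sa : Squarefree a1 := hsq.squarefree_of_dvd ((dvd_mul_right a1 b1).mul_right c)
  have sb : Squarefree b1 := hsq.squarefree_of_dvd ((dvd_mul_left b1 a1).mul_right c)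
  have sc : Squarefree c := hsq.squarefree_of_dvd (dvd_mul_left c _)
  obtain ⟨dA, A1, A2, cA, -⟩ := exp2_parts sa hA
  obtain ⟨dB, B1, B2, cB, -⟩ := exp2_parts sb hB
  obtain ⟨dC, C1, C2, cC, pC⟩ := exp2_parts sc hC
  have co : ∀ {m n m' n' : ℕ}, m.Coprime n → m' ∣ m → n' ∣ n → m'.Coprime n' :=
    fun k k1 k2 => (k.coprime_dvd_left k1).coprime_dvd_right k2
  have nz : ∀ {m n : ℕ}, Squarefree n → m ∣ n → m ≠ 0 := fun k k1 =>
    ne_zero_of_dvd_ne_zero k.ne_zero k1
  have sA1 := sa.squarefree_of_dvd A1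
  have sB1 := sb.squarefree_of_dvd B1
  have sC1 := sc.squarefree_of_dvd C1
  have eA : ∑ p ∈ (x1 A).primeFactors, (f * lam p + lj p (x2 B) + lj p (x2 C) +
      if p ∣ x2 A then lj p c else 0) =
      f * lam (x1 A) + lj (x1 A) (x2 B) + lj (x1 A) (x2 C) + lj (A (1, 1)) c := by
    rw [sum_add_distrib, sum_add_distrib, sum_add_distrib, ← mul_sum,
      exp2_lam sA1 (ha.of_dvd_nat A1), exp2_left sA1 (co hab A1 B2),
      exp2_left sA1 (co hac A1 C2), ← exp2_left (sa.squarefree_of_dvd (dA (1, 1)))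
        (co hac (dA (1, 1)) dvd_rfl)]
    congr 1
    exact exp2_filter (nz sa A1) cA _
  have eB : ∑ p ∈ (x1 B).primeFactors, (f * lam p + lj (x2 A) p + lj p (x2 C) +
      lam p * lam (x2 B) + if p ∣ x2 B then lam p + lj p c else 0) =
      f * lam (x1 B) + lj (x2 A) (x1 B) + lj (x1 B) (x2 C) + lam (x1 B) * lam (x2 B) +
        (lam (B (1, 1)) + lj (B (1, 1)) c) := by
    rw [sum_add_distrib, sum_add_distrib, sum_add_distrib, sum_add_distrib, ← mul_sum, ← sum_mul,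
      exp2_lam sB1 (hb.of_dvd_nat B1), exp2_right sB1 (co hab A2 B1),
      exp2_left sB1 (co hbc B1 C2), ← exp2_left (sb.squarefree_of_dvd (dB (1, 1)))
        (co hbc (dB (1, 1)) dvd_rfl),
      ← exp2_lam (sb.squarefree_of_dvd (dB (1, 1))) (hb.of_dvd_nat (dB (1, 1))),
      ← sum_add_distrib]
    congr 1
    exact exp2_filter (nz sb B1) cB _
  have eC : ∑ p ∈ (x1 C).primeFactors, (lj (x2 A) p + lj (x2 B) p +
      if p ∣ x2 C then lj (a1 * P) p else 0) =
      lj (x2 A) (x1 C) + lj (x2 B) (x1 C) + lj (a1 * P) (C (1, 1)) := by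
    rw [sum_add_distrib, sum_add_distrib, exp2_right sC1 (co hac A2 C1),
      exp2_right sC1 (co hbc B2 C1), ← exp2_right (sc.squarefree_of_dvd (dC (1, 1)))
        (co hPc dvd_rfl (dC (1, 1)))]
    congr 1
    exact exp2_filter (nz sc C1) cC _
  have k1 : kab A B = sgn (∑ v, ∑ w, br v w * lj (A v) (B w)) := by
    rw [← exp2_sgn_sum]
    refine prod_congr rfl fun v _ => ?_
    rw [← exp2_sgn_sum]
    exact prod_congr rfl fun w _ => exp2_Jp _ (co hab (dA v) (dB w))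
  have k2 : ∀ {n : ℕ} {D : U → ℕ}, n.Coprime c → (∀ v, D v ∣ n) → ∀ u,
      lkA u D (C u) = sgn (∑ v, (br v u + qf v) * lj (D v) (C u)) := by
    intro n D hn hD u
    rw [← exp2_sgn_sum]
    exact prod_congr rfl fun v _ => exp2_Jp _ (co hn (hD v) (dC u))
  have k3 : ∏ u, lk 0 u A B (a1 * P) (C u) = sgn (∑ u, (∑ v, (br v u + qf v) * lj (A v) (C u) +
      ∑ v, (br v u + qf v) * lj (B v) (C u) + (qf u + 0) * lj (a1 * P) (C u))) := by
    rw [← exp2_sgn_sum]
    refine prod_congr rfl fun u _ => ?_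
    rw [lk, k2 hac dA, k2 hbc dB, exp2_Jp _ (co hPc dvd_rfl (dC u)), sgn_add, sgn_add]
  rw [exp2_dot h _ e f A1 B1 C1 A2 B2 C2, eA, eB, eC, k1, k3, sgA, sgB, ← sgn_add, ← sgn_add,
    ← sgn_add]
  congr 1
  have l1 := exp2_lj (nz sb B2) (co hab A1 B2)
  have l2 := exp2_lj (nz sc C2) (co hac A1 C2)
  have l3 := exp2_lj (nz sb B1) (co hab A2 B1)
  have l4 := exp2_lj (nz sc C2) (co hbc B1 C2)
  have l5 := exp2_lj (nz sc C1) (co hac A2 C1)
  have l6 := exp2_lj (nz sc C1) (co hbc B2 C1)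
  have l7 := exp2_lj4 (x := A (1, 1)) (pC.symm ▸ sc.ne_zero)
    (pC.symm ▸ co hac (dA (1, 1)) dvd_rfl)
  have l8 := exp2_lj4 (x := B (1, 1)) (pC.symm ▸ sc.ne_zero)
    (pC.symm ▸ co hbc (dB (1, 1)) dvd_rfl)
  rw [pC] at l7 l8
  have h2 : (2 : ZMod 2) = 0 := by decide
  have h3 : (1 : ZMod 2) + 1 = 0 := by decide
  simp only [exp2_sum, br, qf, mul_zero, zero_mul, mul_one, one_mul, add_zero, zero_add, h3]
  simp only [x1, x2] at l1 l2 l3 l4 l5 l6 ⊢
  rw [l1, l2, l3, l4, l5, l6, l7, l8]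
  linear_combination (lj (A (1, 1)) (B (1, 1)) + lj (A (1, 1)) (C (1, 1)) +
    lj (A (1, 1)) (C (0, 1)) + lj (A (1, 1)) (C (1, 0)) + lj (B (1, 1)) (C (1, 1)) +
    lj (B (1, 1)) (C (0, 1)) + lj (B (1, 1)) (C (1, 0))) * h2

end Pool.Agent.Lib.MP_788af2_nt.R0
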