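import Pool.Agent.Lib.MP_788af2_nt.R0.Base

namespace Pool.Agent.Lib.MP_788af2_nt.R0

open Finset Filter
open scoped NumberTheorySymbols

/-! Decomposition of the error term according to profiles. -/

lemma exp3_om_prod {ι : Type} [DecidableEq ι] (s : Finset ι) (f : ι → ℕ)
    (h : Squarefree (∏ i ∈ s, f i)) : om (∏ i ∈ s, f i) = ∑ i ∈ s, om (f i) := by
  induction s using Finset.induction_on with
  | empty => simp [om]
  | insert a s ha ih =>
    rw [prod_insert ha] at h ⊢
    rw [sum_insert ha, om_mul (Nat.coprime_of_squarefree_mul h), ih h.of_mul_right]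

/-- Put the distinguished component into the component `u`. -/
def exp3_merge (u : U) (D : Option U → ℕ) : U → ℕ :=
  Function.update (fun v => D (some v)) u (D (some u) * D none)

lemma exp3_prod_merge {M : Type} [CommMonoid M] (u : U) (D : Option U → ℕ) (L : U → ℕ → M)
    (h : L u (D (some u) * D none) = L u (D (some u)) * L u (D none)) :
    ∏ v, L v (exp3_merge u D v) = L u (D none) * ∏ v, L v (D (some v)) := by
  rw [← mul_prod_erase univ _ (mem_univ u), ← mul_prod_erase univ (fun v => L v (D (some v)))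
    (mem_univ u)]
  have h1 : exp3_merge u D u = D (some u) * D none := by simp [exp3_merge]
  have h2 : ∏ v ∈ univ.erase u, L v (exp3_merge u D v) = ∏ v ∈ univ.erase u, L v (D (some v)) := by
    refine prod_congr rfl fun v hv => ?_
    simp [exp3_merge, Function.update_of_ne (ne_of_mem_erase hv)]
  rw [h1, h2, h, mul_left_comm, mul_assoc, mul_left_comm]

lemma exp3_merge_mem {c : ℕ} (hc : c ≠ 0) (u : U) {D : Option U → ℕ} :
    exp3_merge u D ∈ tup U c ↔ D ∈ tup (Option U) c := by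
  rw [mem_tup hc, mem_tup hc, Fintype.prod_option,
    exp3_prod_merge u D (fun _ n => n) rfl]

lemma exp3_unique {c R : ℕ} (hc : Squarefree c) (hR : R.Prime) {C : U → ℕ} (hC : C ∈ tup U c) :
    ∑ u : U, (if R ∣ C u then (1 : ℝ) else 0) = if R ∣ c then 1 else 0 := by
  have hp := prod_of_mem_tup hC
  split_ifs with h
  · rw [← hp] at h
    obtain ⟨u, -, hu⟩ := (Prime.dvd_finsetProd_iff hR.prime C).1 h
    rw [sum_eq_single u, if_pos hu]
    · intro v _ hv
      rw [if_neg]
      intro hv'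
      have h2 : C u * C v ∣ c := by
        rw [← hp, ← prod_pair hv.symm]
        exact prod_dvd_prod_of_subset _ _ _ (subset_univ _)
      exact hR.prime.not_isUnit (hc R ((mul_dvd_mul hu hv').trans h2))
    · simp
  · refine sum_eq_zero fun u _ => if_neg fun hu => h ?_
    rw [← hp]
    exact hu.trans (dvd_prod_of_mem _ (mem_univ u))

lemma exp3_bij {c : ℕ} (hc : c ≠ 0) (S : Finset ℕ) (hS : ∀ R ∈ S, R ≠ 0) (u : U)
    (ψ : (U → ℕ) → ℝ) :
    ∑ R ∈ S, ∑ C ∈ tup U c, (if R ∣ C u then ψ C else 0) =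
      ∑ D ∈ tup (Option U) c, if D none ∈ S then ψ (exp3_merge u D) else 0 := by
  rw [← sum_product', ← sum_filter, ← sum_filter]
  symm
  refine sum_nbij' (fun D => (D none, exp3_merge u D))
    (fun x => fun o => o.elim x.1 (Function.update x.2 u (x.2 u / x.1))) ?_ ?_ ?_ ?_ ?_
  · intro D hD
    rw [mem_filter] at hD
    rw [mem_filter, mem_product]
    refine ⟨⟨hD.2, (exp3_merge_mem hc u).2 hD.1⟩, ?_⟩
    simp [exp3_merge]
  · rintro ⟨R, C⟩ hx
    rw [mem_filter, mem_product] at hx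
    obtain ⟨⟨h1, h2⟩, h3⟩ := hx
    rw [mem_filter]
    refine ⟨(exp3_merge_mem hc u).1 ?_, h1⟩
    convert h2 using 1
    funext v
    by_cases hv : v = u
    · subst hv
      simp [exp3_merge, Nat.div_mul_cancel h3]
    · simp [exp3_merge, Function.update_of_ne hv]
  · intro D hD
    rw [mem_filter] at hD
    funext o
    rcases o with _ | v
    · rfl
    · by_cases hv : v = u
      · subst hv
        simp [exp3_merge, Nat.mul_div_cancel _ (Nat.pos_of_ne_zero (hS _ hD.2))]
      · simp [exp3_merge, Function.update_of_ne hv]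
  · rintro ⟨R, C⟩ hx
    rw [mem_filter, mem_product] at hx
    obtain ⟨⟨h1, h2⟩, h3⟩ := hx
    refine Prod.ext rfl ?_
    funext v
    by_cases hv : v = u
    · subst hv
      simp [exp3_merge, Nat.div_mul_cancel h3]
    · simp [exp3_merge, Function.update_of_ne hv]
  · intro D _
    rfl

lemma exp3_WW {g c : ℕ} (hc : Squarefree c) (ψ : (U → ℕ) → ℝ) :
    (WW g c : ℝ) * ∑ C ∈ tup U c, ψ C =
      ∑ u : U, ∑ D ∈ tup (Option U) c, if D none ∈ RR g then ψ (exp3_merge u D) else 0 := by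
  have hpr : ∀ R ∈ RR g, R.Prime := fun R hR => (mem_filter.1 hR).2
  have h1 : (WW g c : ℝ) = ∑ R ∈ RR g, if R ∣ c then (1 : ℝ) else 0 := by
    rw [WW, card_filter]; push_cast; rfl
  rw [h1, sum_mul]
  simp_rw [← exp3_bij hc.ne_zero (RR g) (fun R hR => (hpr R hR).ne_zero)]
  rw [sum_comm]
  refine sum_congr rfl fun R hR => ?_
  rw [sum_comm, mul_sum]
  refine sum_congr rfl fun C hC => ?_
  rw [← exp3_unique hc (hpr R hR) hC, sum_mul]
  refine sum_congr rfl fun u _ => ?_
  split_ifs <;> simp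

lemma exp3_prof {g Z : ℕ} (hZ : Z ≤ 2 ^ (9 * g)) (u : U) {D : Option U → ℕ}
    (h0 : D (some u) ≠ 0) (hR : D none ∈ RR g) :
    prof Z (exp3_merge u D) = insert u (prof Z fun v => D (some v)) := by
  rw [RR, mem_filter, mem_Ioc] at hR
  ext v
  simp only [prof, mem_filter, mem_univ, true_and, mem_insert]
  by_cases hv : v = u
  · subst hv
    simp only [exp3_merge, Function.update_self, true_or, iff_true]
    exact ⟨D none, Nat.mem_primeFactors.2 ⟨hR.2, dvd_mul_left _ _,
      mul_ne_zero h0 hR.2.ne_zero⟩, lt_of_le_of_lt hZ hR.1.1⟩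
  · simp [exp3_merge, hv]

lemma exp3_unity (g : ℕ) (τ : ZMod 2) (Z : ℕ) (thr : U → ℕ) (D : Option U → ℕ)
    (F : Finset U → ℝ) :
    ∑ sC : Finset U, ∑ tC : Finset U, F sC * ∏ o, φw g τ Z thr sC tC o (D o) =
      F (prof Z fun v => D (some v)) * ((if D none ∈ RR g then sgn τ / 2 else 0) *
        ∏ v, (sgn τ / 2) ^ om (D (some v))) := by
  have key : ∀ sC tC : Finset U, ∏ v, φw g τ Z thr sC tC (some v) (D (some v)) =
      if sC = prof Z (fun v => D (some v)) ∧ tC = univ.filter (fun v => thr v < D (some v)) then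
        ∏ v, (sgn τ / 2) ^ om (D (some v)) else 0 := by
    intro sC tC
    split_ifs with h
    · obtain ⟨rfl, rfl⟩ := h
      refine prod_congr rfl fun v _ => ?_
      simp [φw, prof]
    · by_contra hne
      apply h
      have hall : ∀ v, (big Z (D (some v)) ↔ v ∈ sC) ∧ (thr v < D (some v) ↔ v ∈ tC) := by
        intro v
        by_contra hv
        exact hne (prod_eq_zero (mem_univ v) (by simp only [φw]; rw [if_neg hv]))
      constructor
      · ext v
        simp [prof, (hall v).1]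
      · ext v
        simp [(hall v).2]
  simp_rw [Fintype.prod_option, key]
  rw [sum_eq_single (prof Z fun v => D (some v)),
    sum_eq_single (univ.filter (fun v => thr v < D (some v)))]
  · simp [φw]
  · intro t _ ht
    simp [ht]
  · simp
  · intro s _ hs
    simp [hs]
  · simp

lemma exp3_key {g Z c : ℕ} (hZ : Z ≤ 2 ^ (9 * g)) (hc : Squarefree c) (τ : ZMod 2)
    (thr : U → ℕ) (F : Finset U → ℝ) (L : U → ℕ → ℝ)
    (hL : ∀ u m n, m ≠ 0 → n ≠ 0 → L u (m * n) = L u m * L u n) :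
    (WW g c : ℝ) * ((sgn τ / 2) ^ om c * ∑ C ∈ tup U c, F (prof Z C) * ∏ u, L u (C u)) =
      ∑ uR : U, ∑ sC : Finset U, ∑ tC : Finset U, ∑ D ∈ tup (Option U) c,
        F (insert uR sC) * ∏ o, (φw g τ Z thr sC tC o (D o) * L (o.getD uR) (D o)) := by
  rw [mul_sum, exp3_WW hc]
  refine sum_congr rfl fun uR _ => ?_
  simp_rw [← sum_comm (s := tup (Option U) c)]
  refine sum_congr rfl fun D hD => ?_
  have hp := prod_of_mem_tup hD
  have h0 : ∀ o, D o ≠ 0 := fun o h =>
    hc.ne_zero (by rw [← hp]; exact prod_eq_zero (mem_univ o) h)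
  simp_rw [prod_mul_distrib, ← mul_assoc, ← sum_mul]
  rw [exp3_unity g τ Z thr D fun s => F (insert uR s)]
  split_ifs with hR
  · have hom : om c = 1 + ∑ v, om (D (some v)) := by
      rw [← hp, exp3_om_prod _ _ (hp ▸ hc), Fintype.sum_option,
        om_prime (mem_filter.1 hR).2]
    rw [exp3_prof hZ uR (h0 _) hR, exp3_prod_merge uR D L (hL _ _ _ (h0 _) (h0 _)),
      Fintype.prod_option, hom, pow_add, pow_one, prod_pow_eq_pow_sum]
    simp only [Option.getD_none, Option.getD_some]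
    ring
  · simp

lemma exp3_lk_mul (τ : ZMod 2) (A B : U → ℕ) (a : ℕ) (u : U) (m n : ℕ) (hm : m ≠ 0)
    (hn : n ≠ 0) : lk τ u A B a (m * n) = lk τ u A B a m * lk τ u A B a n := by
  simp only [lk, lkA, Jp_mul_right _ _ hm hn, prod_mul_distrib]
  ring

lemma exp3_gw (τ : ZMod 2) (Z : ℕ) (sg : (U → ℕ) → ℝ) {a : ℕ} {A : U → ℕ} (hA : A ∈ tup U a)
    (G : Finset U → ℝ) :
    ∑ s : Finset U, G s * gw τ Z sg s A = G (prof Z A) * (sg A * (sgn τ / 2) ^ om a) := by
  rw [sum_eq_single (prof Z A)]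
  · simp [gw, prod_of_mem_tup hA]
  · intro s _ hs
    simp [gw, hs.symm]
  · simp

lemma exp3_point {g Z c : ℕ} (hZ : Z ≤ 2 ^ (9 * g)) (hc : Squarefree c) (τ : ZMod 2)
    (thr : U → ℕ) (a b n : ℕ) :
    (WW g c : ℝ) * Et τ Z a b c n =
      ∑ e : ZMod 2, ∑ f : ZMod 2, ∑ uR : U, ∑ sA : Finset U, ∑ sB : Finset U, ∑ sC : Finset U,
        ∑ tC : Finset U, (if EEs sA sB (insert uR sC) then sgn τ / 2 else 0) *
          ∑ A ∈ tup U a, ∑ B ∈ tup U b, ∑ D ∈ tup (Option U) c,
            gw τ Z (sgA e f) sA A * gw τ Z (sgB e f) sB B * kab A B *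
              ∏ o, (φw g τ Z thr sC tC o (D o) * lk τ (o.getD uR) A B n (D o)) := by
  rw [Et, ← mul_assoc, mul_sum]
  refine sum_congr rfl fun e _ => ?_
  rw [mul_sum]
  refine sum_congr rfl fun f _ => ?_
  simp_rw [mul_sum (tup U a)]
  simp_rw [← sum_comm (s := tup U a)]
  refine sum_congr rfl fun A hA => ?_
  simp_rw [mul_sum (tup U b)]
  simp_rw [← sum_comm (s := tup U b)]
  refine sum_congr rfl fun B hB => ?_
  have h1 := exp3_key (g := g) hZ hc τ thr
    (fun s => if EEs (prof Z A) (prof Z B) s then sgn τ / 2 else 0)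
    (fun u m => lk τ u A B n m) (exp3_lk_mul τ A B n)
  have h2 : ∀ uR : U, ∑ sA : Finset U, ∑ sB : Finset U, ∑ sC : Finset U, ∑ tC : Finset U,
      (if EEs sA sB (insert uR sC) then sgn τ / 2 else 0) * ∑ D ∈ tup (Option U) c,
        gw τ Z (sgA e f) sA A * gw τ Z (sgB e f) sB B * kab A B *
          ∏ o, (φw g τ Z thr sC tC o (D o) * lk τ (o.getD uR) A B n (D o)) =
      (sgA e f A * (sgn τ / 2) ^ om a * (sgB e f B * (sgn τ / 2) ^ om b) * kab A B) *
        ∑ sC : Finset U, ∑ tC : Finset U, ∑ D ∈ tup (Option U) c,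
          (if EEs (prof Z A) (prof Z B) (insert uR sC) then sgn τ / 2 else 0) *
            ∏ o, (φw g τ Z thr sC tC o (D o) * lk τ (o.getD uR) A B n (D o)) := by
    intro uR
    set G : Finset U → Finset U → ℝ := fun sA sB =>
      ∑ sC : Finset U, ∑ tC : Finset U, ∑ D ∈ tup (Option U) c,
        (if EEs sA sB (insert uR sC) then sgn τ / 2 else 0) *
          ∏ o, (φw g τ Z thr sC tC o (D o) * lk τ (o.getD uR) A B n (D o)) with hG
    have h3 : ∀ sA sB : Finset U, ∑ sC : Finset U, ∑ tC : Finset U,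
        (if EEs sA sB (insert uR sC) then sgn τ / 2 else 0) * ∑ D ∈ tup (Option U) c,
          gw τ Z (sgA e f) sA A * gw τ Z (sgB e f) sB B * kab A B *
            ∏ o, (φw g τ Z thr sC tC o (D o) * lk τ (o.getD uR) A B n (D o)) =
        G sA sB * kab A B * gw τ Z (sgA e f) sA A * gw τ Z (sgB e f) sB B := by
      intro sA sB
      simp only [hG, sum_mul, mul_sum]
      refine sum_congr rfl fun _ _ => sum_congr rfl fun _ _ => sum_congr rfl fun _ _ => ?_
      ring
    simp_rw [h3, exp3_gw τ Z (sgB e f) hB]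
    have h4 : ∀ sA : Finset U, G sA (prof Z B) * kab A B * gw τ Z (sgA e f) sA A *
        (sgB e f B * (sgn τ / 2) ^ om b) = G sA (prof Z B) * kab A B *
          (sgB e f B * (sgn τ / 2) ^ om b) * gw τ Z (sgA e f) sA A := fun sA => by ring
    simp_rw [h4]
    rw [exp3_gw τ Z (sgA e f) hA]
    ring
  simp_rw [h2]
  rw [← mul_sum, ← h1]
  simp_rw [mul_sum]
  refine sum_congr rfl fun C _ => ?_
  split_ifs
  · ring
  · simp

theorem Et_decomp {g Z : ℕ} (C : Cell g Z) (hZ : Z ≤ 2 ^ (9 * g)) (τ : ZMod 2) (thr : U → ℕ) :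
    FS C (fun a b P _ c => WW g c * Et τ Z a b c (a * P)) =
      ∑ e : ZMod 2, ∑ f : ZMod 2, ∑ uR : U, ∑ sA : Finset U, ∑ sB : Finset U, ∑ sC : Finset U,
        ∑ tC : Finset U, if EEs sA sB (insert uR sC) then
          sgn τ / 2 * TT C τ uR (gw τ Z (sgA e f) sA) (gw τ Z (sgB e f) sB) (φw g τ Z thr sC tC)
        else 0 := by
  rw [FS_congr C fun a _ b _ P _ _ _ c _ _ _ hc => exp3_point hZ hc.1 τ thr a b (a * P)]
  iterate 7 (rw [FS_sum]; refine sum_congr rfl fun _ _ => ?_)
  rw [FS_mul]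
  split_ifs
  · rfl
  · simp

end Pool.Agent.Lib.MP_788af2_nt.R0
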