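import Pool.Agent.Lib.MP_788af2_nt.R0.Main2

namespace Pool.Agent.Lib.MP_788af2_nt.R0

open Finset Filter
open scoped NumberTheorySymbols

/-! Transfer to the height ordering. -/

theorem card_SX_le : ∃ C : ℕ, ∀ T X : ℕ, 1 ≤ T → X ≤ T ^ 6 → (SX 2 2 X).card ≤ C * T ^ 2 := by
  classical
  refine ⟨144 * 57 ^ 2, fun T X hT hX => ?_⟩
  choose! v m n r h2 h3 h4 h5 h6 h7 h8 using fun x (hx : x ∈ SX 2 2 X) =>
    param22.cover hT (by simpa using hX) (A := x.1) (B := x.2) hx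
  have h1 : (SX 2 2 X).card ≤ (Icc 1 144 ×ˢ Icc (-(28 * T) : ℤ) (28 * T) ×ˢ
      Icc (-(28 * T) : ℤ) (28 * T)).card := by
    refine card_le_card_of_injOn (fun x => (v x, m x, n x)) (fun x hx => ?_) fun x hx x' hx' e => ?_
    · have a2 := h2 x hx
      have a3 := abs_le.1 (h3 x hx)
      have a4 := abs_le.1 (h4 x hx)
      simp only [pow_one] at a4
      simp only [coe_product, Set.mem_prod, mem_coe, mem_Icc] at a2 ⊢
      omega
    · have e2 : v x = v x' := congrArg Prod.fst e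
      have e3 : m x = m x' := congrArg (fun y => y.2.1) e
      have e4 : n x = n x' := congrArg (fun y => y.2.2) e
      refine Prod.ext (Int.cast_injective (α := ℚ) ?_) (Int.cast_injective (α := ℚ) ?_)
      · rw [h5 x hx, h5 x' hx', e2, e3, e4]
      · rw [h6 x hx, h6 x' hx', e2, e3, e4]
  have h9 : ((28 * T : ℤ) + 1 - -(28 * T)).toNat ≤ 57 * T := by omega
  simp only [card_product, Nat.card_Icc, Int.card_Icc] at h1
  calc _ ≤ _ := h1
    _ ≤ (144 + 1 - 1) * (57 * T * (57 * T)) := by gcongr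
    _ = _ := by ring

/-- The short model attached to a pair of root differences. -/
def finalAB (x : ℕ × ℕ) : ℤ × ℤ :=
  ((x.1 : ℤ) * x.2 - 3 * ((x.1 + x.2) / 3 : ℕ) ^ 2,
    ((x.1 + x.2) / 3 : ℕ) * ((x.1 : ℤ) * x.2 - 2 * ((x.1 + x.2) / 3 : ℕ) ^ 2))

theorem final_third {x : ℕ × ℕ} (h : 3 ∣ x.1 + x.2) : ∃ k : ℤ, (x.1 : ℤ) + x.2 = 3 * k ∧
    finalAB x = ((x.1 : ℤ) * x.2 - 3 * k ^ 2, k * ((x.1 : ℤ) * x.2 - 2 * k ^ 2)) :=
  ⟨((x.1 + x.2) / 3 : ℕ), by omega, rfl⟩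

theorem final_root {p A B r : ℤ} (hp : Prime p) (hA : p ^ 4 ∣ A) (hB : p ^ 6 ∣ B)
    (h : r ^ 3 + A * r + B = 0) : p ∣ r := by
  obtain ⟨A, rfl⟩ := hA
  obtain ⟨B, rfl⟩ := hB
  exact hp.dvd_of_dvd_pow (n := 3) ⟨-(p ^ 3 * A * r) - p ^ 5 * B, by linear_combination h⟩

theorem final_min {a b : ℕ} {k : ℤ} (hk : (a : ℤ) + b = 3 * k) (hc : a.Coprime b) :
    Mn ((a : ℤ) * b - 3 * k ^ 2) (k * ((a : ℤ) * b - 2 * k ^ 2)) := by
  rintro p hp ⟨hA, hB⟩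
  have hp' : Prime (p : ℤ) := Nat.prime_iff_prime_int.1 hp
  have h0 := final_root (r := -k) hp' hA hB (by ring)
  have h1 := final_root (r := a - k) hp' hA hB
    (by linear_combination (a : ℤ) ^ 2 * hk)
  have h2 := final_root (r := b - k) hp' hA hB
    (by linear_combination (b : ℤ) ^ 2 * hk)
  have h3 : (p : ℤ) ∣ a := by simpa using dvd_sub h1 h0
  have h4 : (p : ℤ) ∣ b := by simpa using dvd_sub h2 h0
  exact hp.one_lt.ne' (Nat.eq_one_of_dvd_coprimes hc (Int.natCast_dvd_natCast.1 h3)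
    (Int.natCast_dvd_natCast.1 h4))

theorem final_le {a b a' b' k k' : ℤ} (hb' : 0 < b') (ha' : 0 < a')
    (hk' : a' + b' = 3 * k') (hA : a * b - 3 * k ^ 2 = a' * b' - 3 * k' ^ 2)
    (hB : k * (a * b - 2 * k ^ 2) = k' * (a' * b' - 2 * k' ^ 2)) : k ≤ k' := by
  by_contra hc
  have h1 : (k - k') * ((k - k' + a') * (k - k' + b')) = 0 := by
    linear_combination hB - k * hA + (k - k') ^ 2 * hk'
  have h2 : 0 < k - k' := by omega
  have h3 : 0 < (k - k') * ((k - k' + a') * (k - k' + b')) := by positivity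
  exact h3.ne' h1

theorem final_inj {x y : ℕ × ℕ} (hx : 0 < x.2) (hx' : x.2 < x.1) (hx3 : 3 ∣ x.1 + x.2)
    (hy : 0 < y.2) (hy' : y.2 < y.1) (hy3 : 3 ∣ y.1 + y.2) (h : finalAB x = finalAB y) : x = y := by
  obtain ⟨k, hk, e⟩ := final_third hx3
  obtain ⟨k', hk', e'⟩ := final_third hy3
  rw [e, e', Prod.mk.injEq] at h
  have h1 := final_le (by omega) (by omega) hk' h.1 h.2
  have h2 := final_le (by omega) (by omega) hk h.1.symm h.2.symm
  obtain rfl : k = k' := le_antisymm h1 h2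
  have h3 : ((x.1 : ℤ) - x.2) ^ 2 = ((y.1 : ℤ) - y.2) ^ 2 := by
    linear_combination ((x.1 : ℤ) + x.2 + 3 * k) * hk - ((y.1 : ℤ) + y.2 + 3 * k) * hk' - 4 * h.1
  have h4 := (pow_left_inj₀ (by omega) (by omega) two_ne_zero).1 h3
  exact Prod.ext (by omega) (by omega)

theorem final_mem {x : ℕ × ℕ} {Y X : ℕ} (hx : 0 < x.2) (hx' : x.2 < x.1) (hY : x.1 ≤ Y)
    (hc : x.1.Coprime x.2) (h3 : 3 ∣ x.1 + x.2) (hX : 108 * Y ^ 6 ≤ X) :
    finalAB x ∈ SX 2 2 X ∧ Module.rank ℤ (cv 0 (finalAB x).1 (finalAB x).2).Point ≤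
      Module.rank ℤ (cvE ![0, (x.1 : ℤ), (x.2 : ℤ)]).Point := by
  obtain ⟨k, hk, e⟩ := final_third h3
  have hkq : ((x.1 : ℤ) : ℚ) + ((x.2 : ℤ) : ℚ) = 3 * k := by exact_mod_cast hk
  have hA : ((finalAB x).1 : ℚ) = AA false (x.1 : ℤ) (x.2 : ℤ) := by
    rw [e]
    simp only [AA, aa, bb, Bool.false_eq_true, if_false]
    rw [hkq]
    push_cast
    ring
  have hB : ((finalAB x).2 : ℚ) = BB false (x.1 : ℤ) (x.2 : ℤ) := by
    rw [e]
    simp only [BB, aa, bb, Bool.false_eq_true, if_false]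
    rw [hkq]
    push_cast
    ring
  have hd : ((x.1 : ℤ) : ℚ) * ((x.2 : ℤ) : ℚ) * (((x.1 : ℤ) : ℚ) - ((x.2 : ℤ) : ℚ)) ≠ 0 := by
    have h1 : (x.1 : ℤ) * x.2 * ((x.1 : ℤ) - x.2) ≠ 0 :=
      mul_ne_zero (mul_ne_zero (by omega) (by omega)) (by omega)
    exact_mod_cast h1
  refine ⟨(mem_SX (A := (finalAB x).1) (B := (finalAB x).2)).2 ⟨fun h0 => hd ?_, ?_, ?_, ?_⟩,
    rank_AB (cy := false) (u := 1) one_ne_zero (by rw [hA]; ring) (by rw [hB]; ring) hd⟩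
  · refine (disc_AB (cy := false)).1 ?_
    rw [← hA, ← hB]
    exact_mod_cast h0
  · rw [e]
    exact final_min hk hc
  · obtain ⟨g1, g2⟩ := growth_AB (cy := false) (x := (x.1 : ℤ)) (y := (x.2 : ℤ)) (Y := Y)
      (by rw [abs_of_nonneg (by positivity)]; exact_mod_cast hY)
      (by rw [abs_of_nonneg (by positivity)]; exact_mod_cast (hx'.le.trans hY))
    rw [← hA] at g1
    rw [← hB] at g2
    have g3 : |(finalAB x).1| ≤ 3 * (Y : ℤ) ^ 2 := by exact_mod_cast g1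
    have g4 : |(finalAB x).2| ≤ 2 * (Y : ℤ) ^ 3 := by exact_mod_cast g2
    have g5 : 108 * (Y : ℤ) ^ 6 ≤ X := by exact_mod_cast hX
    refine max_le ?_ ?_
    · calc 4 * |(finalAB x).1| ^ 3 ≤ 4 * (3 * (Y : ℤ) ^ 2) ^ 3 := by gcongr
        _ = 108 * (Y : ℤ) ^ 6 := by ring
        _ ≤ _ := g5
    · calc 27 * (finalAB x).2 ^ 2 = 27 * |(finalAB x).2| ^ 2 := by rw [sq_abs]
        _ ≤ 27 * (2 * (Y : ℤ) ^ 3) ^ 2 := by gcongr
        _ = 108 * (Y : ℤ) ^ 6 := by ring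
        _ ≤ _ := g5
  · exact has_AB (cy := false) (u := 1) one_ne_zero (by rw [hA]; ring) (by rw [hB]; ring)
      (param22.low x.1 x.2 (by omega) hd)

theorem final_scale (c b g₀ : ℕ) (hc : 0 < c) (hb : 1 < b) : ∀ᶠ X : ℕ in atTop,
    ∃ g, g₀ ≤ g ∧ c * b ^ g ≤ X ∧ X ≤ c * b ^ (g + 1) := by
  filter_upwards [eventually_ge_atTop (c * b ^ g₀)] with X hX
  have h1 : b ^ g₀ ≤ X / c := (Nat.le_div_iff_mul_le hc).2 (by rwa [mul_comm])
  have h2 : X / c ≠ 0 := (lt_of_lt_of_le (by positivity) h1).ne'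
  refine ⟨Nat.log b (X / c), Nat.le_log_of_pow_le hb h1, ?_, ?_⟩
  · rw [mul_comm]
    exact (Nat.le_div_iff_mul_le hc).1 (Nat.pow_log_le_self b h2)
  · have h3 := Nat.lt_pow_succ_log_self hb (X / c)
    rw [Nat.div_lt_iff_lt_mul hc, mul_comm] at h3
    exact h3.le

theorem final : ∃ C : ℕ, ∀ᶠ X : ℕ in atTop, (SX 2 2 X).Nonempty ∧ ∃ T ⊆ SX 2 2 X,
    (∀ x ∈ T, Module.rank ℤ (cv 0 x.1 x.2).Point = 0) ∧ (SX 2 2 X).card ≤ C * T.card := by
  classical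
  obtain ⟨c, hc, H⟩ := main_pairs
  obtain ⟨C₁, hC₁⟩ := card_SX_le
  obtain ⟨g₀, hg₀⟩ := eventually_atTop.1 H
  obtain ⟨w, hw⟩ : ∃ w : ℕ, w = 2 ^ 40 := ⟨_, rfl⟩
  have hw1 : 1 < w := by rw [hw]; norm_num
  have hXX : ∀ g, XX g = w ^ g := fun g => by rw [hw, XX, pow_mul]
  refine ⟨⌈(C₁ * (192 * w) ^ 2 : ℕ) / c⌉₊, ?_⟩
  filter_upwards [final_scale (108 * 64 ^ 6) (w ^ 6) g₀ (by norm_num)
    (Nat.one_lt_pow (by norm_num) hw1)] with X ⟨g, hg, hX1, hX2⟩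
  obtain ⟨T, hT, hcard⟩ := hg₀ g hg
  have hwg : 0 < w ^ g := by positivity
  have hY : 108 * (64 * XX g) ^ 6 ≤ X := by
    refine le_trans (le_of_eq ?_) hX1
    rw [hXX]
    ring
  have hmem := fun x (hx : x ∈ T) =>
    final_mem (hT x hx).1 (hT x hx).2.1 (hT x hx).2.2.1 (hT x hx).2.2.2.1 (hT x hx).2.2.2.2.1 hY
  have hsub : T.image finalAB ⊆ SX 2 2 X := image_subset_iff.2 fun x hx => (hmem x hx).1
  have hci : (T.image finalAB).card = T.card := card_image_of_injOn fun x hx y hy h =>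
    final_inj (hT x hx).1 (hT x hx).2.1 (hT x hx).2.2.2.2.1 (hT y hy).1 (hT y hy).2.1
      (hT y hy).2.2.2.2.1 h
  have hpos : (0 : ℝ) < T.card := by
    refine lt_of_lt_of_le ?_ hcard
    rw [hXX]
    have : (0 : ℝ) < (w ^ g : ℕ) := by exact_mod_cast hwg
    positivity
  have hne : T.Nonempty := card_pos.1 (by exact_mod_cast hpos)
  refine ⟨(hne.image finalAB).mono hsub, T.image finalAB, hsub, fun y hy => ?_, ?_⟩
  · obtain ⟨x, hx, rfl⟩ := mem_image.1 hy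
    have h1 := (hmem x hx).2
    rw [(hT x hx).2.2.2.2.2] at h1
    exact nonpos_iff_eq_zero.1 h1
  · have h1 := hC₁ (192 * w * w ^ g) X (Nat.succ_le_of_lt (by positivity)) (hX2.trans (by
      calc 108 * 64 ^ 6 * (w ^ 6) ^ (g + 1) ≤ 729 * 64 ^ 6 * (w ^ 6) ^ (g + 1) := by
            gcongr
            norm_num
        _ = _ := by ring))
    rw [hci]
    have h2 : ((SX 2 2 X).card : ℝ) ≤ (C₁ * (192 * w) ^ 2 : ℕ) * (XX g : ℝ) ^ 2 := by
      rw [hXX]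
      have h3 : (SX 2 2 X).card ≤ C₁ * (192 * w) ^ 2 * (w ^ g) ^ 2 := h1.trans (le_of_eq (by ring))
      exact_mod_cast h3
    have h4 : ((SX 2 2 X).card : ℝ) ≤ (⌈(C₁ * (192 * w) ^ 2 : ℕ) / c⌉₊ : ℕ) * (T.card : ℝ) := by
      calc _ ≤ _ := h2
        _ = (C₁ * (192 * w) ^ 2 : ℕ) / c * (c * (XX g : ℝ) ^ 2) := by field_simp
        _ ≤ _ := mul_le_mul (Nat.le_ceil _) hcard (by positivity) (by positivity)
    exact_mod_cast h4

end Pool.Agent.Lib.MP_788af2_nt.R0
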