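import Pool.Agent.Lib.MP_788af2_nt.R0.Rows

namespace Pool.Agent.Lib.MP_788af2_nt.R0

open Finset Filter
open scoped NumberTheorySymbols

/-! Integers all of whose large prime factors split. -/

lemma ht_euler (S P : Finset ℕ) (h : ℕ → ℝ) (h0 : ∀ p, 0 ≤ h p)
    (hS : ∀ n ∈ S, Squarefree n ∧ n.primeFactors ⊆ P) :
    ∑ n ∈ S, (∏ p ∈ n.primeFactors, h p) / n ≤ Real.exp (∑ p ∈ P, h p / p) := by
  have hg : ∀ p : ℕ, 0 ≤ h p / p := fun p => div_nonneg (h0 p) (Nat.cast_nonneg p)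
  refine le_trans ?_ (prod_one_add_le_exp P (fun p => h p / p) fun p _ => by linarith [hg p])
  have e : ∀ n ∈ S, (∏ p ∈ n.primeFactors, h p) / n = ∏ p ∈ n.primeFactors, h p / p := by
    intro n hn
    rw [prod_div_distrib, ← Nat.cast_prod, Nat.prod_primeFactors_of_squarefree (hS n hn).1]
  have hi : Set.InjOn Nat.primeFactors (S : Set ℕ) := fun m hm n hn h => by
    rw [← Nat.prod_primeFactors_of_squarefree (hS m hm).1, h,
      Nat.prod_primeFactors_of_squarefree (hS n hn).1]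
  rw [sum_congr rfl e, prod_one_add, ← sum_image (f := fun T : Finset ℕ => ∏ p ∈ T, h p / p) hi]
  refine sum_le_sum_of_subset_of_nonneg ?_ fun T _ _ => prod_nonneg fun p _ => hg p
  intro T hT
  obtain ⟨n, hn, rfl⟩ := mem_image.1 hT
  exact mem_powerset.2 (hS n hn).2

lemma ht_drop (h : ℕ → ℝ) (h0 : ∀ p, 0 ≤ h p) (h2 : ∀ p, h p ≤ 2) {n p : ℕ} (hn : Squarefree n)
    (hp : p.Prime) (hd : p ∣ n) :
    ∏ q ∈ n.primeFactors, h q ≤ 2 * ∏ q ∈ (n / p).primeFactors, h q := by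
  obtain ⟨m, rfl⟩ := hd
  have hc : p.Coprime m := Nat.coprime_of_squarefree_mul hn
  rw [Nat.mul_div_cancel_left m hp.pos, hc.primeFactors_mul, prod_union hc.disjoint_primeFactors,
    hp.primeFactors, prod_singleton]
  exact mul_le_mul_of_nonneg_right (h2 p) (prod_nonneg fun q _ => h0 q)

lemma ht_log (h : ℕ → ℝ) (h0 : ∀ p, 0 ≤ h p) (h2 : ∀ p, h p ≤ 2) (x : ℕ) :
    ∑ n ∈ (Icc 1 x).filter Squarefree, (∏ p ∈ n.primeFactors, h p) * Real.log n ≤
      6 * x * ∑ n ∈ (Icc 1 x).filter Squarefree, (∏ p ∈ n.primeFactors, h p) / n := by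
  set S := (Icc 1 x).filter Squarefree with hS
  set F : ℕ → ℝ := fun n => ∏ p ∈ n.primeFactors, h p with hF
  have F0 : ∀ n, 0 ≤ F n := fun n => prod_nonneg fun q _ => h0 q
  have mS : ∀ n, n ∈ S ↔ (1 ≤ n ∧ n ≤ x) ∧ Squarefree n := fun n => by
    rw [hS, mem_filter, mem_Icc]
  have e1 : ∀ n ∈ S, F n * Real.log n ≤
      ∑ p ∈ Nat.primesLE x, if p ∣ n then 2 * F (n / p) * Real.log p else 0 := by
    intro n hn
    obtain ⟨⟨a1, a2⟩, a3⟩ := (mS n).1 hn
    have e : (Nat.primesLE x).filter (· ∣ n) = n.primeFactors := by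
      ext p
      simp only [mem_filter, Nat.mem_primesLE, Nat.mem_primeFactors]
      exact ⟨fun hp => ⟨hp.1.2, hp.2, by omega⟩,
        fun hp => ⟨⟨(Nat.le_of_dvd a1 hp.2.1).trans a2, hp.1⟩, hp.2.1⟩⟩
    have e' : Real.log n = ∑ p ∈ n.primeFactors, Real.log p := by
      rw [← Real.log_prod (fun p hp => by
        exact_mod_cast (Nat.prime_of_mem_primeFactors hp).ne_zero), ← Nat.cast_prod,
        Nat.prod_primeFactors_of_squarefree a3]
    rw [← sum_filter, e, e', mul_sum]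
    exact sum_le_sum fun p hp => mul_le_mul_of_nonneg_right
      (ht_drop h h0 h2 a3 (Nat.prime_of_mem_primeFactors hp) (Nat.dvd_of_mem_primeFactors hp))
      (Real.log_natCast_nonneg p)
  have e2 : ∀ p ∈ Nat.primesLE x,
      (∑ n ∈ S, if p ∣ n then 2 * F (n / p) * Real.log p else 0) ≤
        ∑ m ∈ S, if p ≤ x / m then 2 * F m * Real.log p else 0 := by
    intro p hp
    have hp' := (Nat.mem_primesLE.1 hp).2
    have hi : Set.InjOn (· / p) (S.filter (p ∣ ·) : Set ℕ) := fun m hm n hn e => by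
      rw [← Nat.div_mul_cancel (mem_filter.1 hm).2, ← Nat.div_mul_cancel (mem_filter.1 hn).2]
      exact congrArg (· * p) e
    rw [← sum_filter, ← sum_filter, ← sum_image (f := fun m => 2 * F m * Real.log p) hi]
    refine sum_le_sum_of_subset_of_nonneg ?_ fun m _ _ =>
      mul_nonneg (mul_nonneg two_pos.le (F0 m)) (Real.log_natCast_nonneg p)
    intro m hm
    obtain ⟨n, hn, rfl⟩ := mem_image.1 hm
    obtain ⟨hn, m, rfl⟩ := mem_filter.1 hn
    obtain ⟨⟨a1, a2⟩, a3⟩ := (mS _).1 hn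
    have hm0 : 0 < m := Nat.pos_of_mul_pos_left a1
    rw [Nat.mul_div_cancel_left m hp'.pos, mem_filter, mS, Nat.le_div_iff_mul_le hm0]
    exact ⟨⟨⟨hm0, (Nat.le_mul_of_pos_left m hp'.pos).trans a2⟩, a3.of_mul_right⟩, a2⟩
  have e3 : ∀ m ∈ S, (∑ p ∈ Nat.primesLE x, if p ≤ x / m then 2 * F m * Real.log p else 0) ≤
      6 * x * (F m / m) := by
    intro m _
    have a1 : ∑ p ∈ (Nat.primesLE x).filter (· ≤ x / m), Real.log p ≤
        ∑ p ∈ Nat.primesLE (x / m), Real.log p :=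
      sum_le_sum_of_subset_of_nonneg (fun p hp => Nat.mem_primesLE.2
        ⟨(mem_filter.1 hp).2, (Nat.mem_primesLE.1 (mem_filter.1 hp).1).2⟩)
        fun p _ _ => Real.log_natCast_nonneg p
    have a2 := Chebyshev.theta_le_log4_mul_x (Nat.cast_nonneg (x / m))
    rw [Chebyshev.theta_eq_sum_primesLE_log] at a2
    have a3 : Real.log 4 ≤ 3 := by linarith [Real.log_le_sub_one_of_pos (x := 4) (by norm_num)]
    have a4 : ((x / m : ℕ) : ℝ) ≤ x / m := Nat.cast_div_le
    have a5 : Real.log 4 * ((x / m : ℕ) : ℝ) ≤ 3 * (x / m) :=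
      mul_le_mul a3 a4 (Nat.cast_nonneg _) (by norm_num)
    rw [← sum_filter, ← mul_sum]
    calc _ ≤ 2 * F m * (3 * (x / m)) :=
          mul_le_mul_of_nonneg_left (a1.trans (a2.trans a5)) (mul_nonneg two_pos.le (F0 m))
      _ = _ := by ring
  calc _ ≤ _ := sum_le_sum e1
    _ = _ := sum_comm
    _ ≤ _ := sum_le_sum e2
    _ = _ := sum_comm
    _ ≤ _ := sum_le_sum e3
    _ = _ := (mul_sum _ _ _).symm

/-- The inequality of Hall and Tenenbaum. -/
lemma ht_main (h : ℕ → ℝ) (h0 : ∀ p, 0 ≤ h p) (h2 : ∀ p, h p ≤ 2) (x : ℕ) :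
    Real.log x * ∑ n ∈ (Icc 1 x).filter Squarefree, ∏ p ∈ n.primeFactors, h p ≤
      7 * x * Real.exp (∑ p ∈ Nat.primesLE x, h p / p) := by
  have a1 := ht_log h h0 h2 x
  have a2 := ht_euler ((Icc 1 x).filter Squarefree) (Nat.primesLE x) h h0 fun n hn =>
    ⟨(mem_filter.1 hn).2, fun p hp => Nat.mem_primesLE.2 ⟨(Nat.le_of_mem_primeFactors hp).trans
      (mem_Icc.1 (mem_filter.1 hn).1).2, Nat.prime_of_mem_primeFactors hp⟩⟩
  have a3 : Real.log x * ∑ n ∈ (Icc 1 x).filter Squarefree, ∏ p ∈ n.primeFactors, h p ≤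
      ∑ n ∈ (Icc 1 x).filter Squarefree, (∏ p ∈ n.primeFactors, h p) * Real.log n +
        x * ∑ n ∈ (Icc 1 x).filter Squarefree, (∏ p ∈ n.primeFactors, h p) / n := by
    rw [mul_sum, mul_sum, ← sum_add_distrib]
    refine sum_le_sum fun n hn => ?_
    obtain ⟨b1, b2⟩ := mem_Icc.1 (mem_filter.1 hn).1
    have b3 : (0 : ℝ) < n := by exact_mod_cast b1
    have b4 : (0 : ℝ) < x := by exact_mod_cast b1.trans b2
    have b5 := Real.log_le_sub_one_of_pos (div_pos b4 b3)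
    rw [Real.log_div b4.ne' b3.ne'] at b5
    have b6 : 0 ≤ ∏ p ∈ n.primeFactors, h p := prod_nonneg fun q _ => h0 q
    calc _ = (∏ p ∈ n.primeFactors, h p) * Real.log x := mul_comm _ _
      _ ≤ (∏ p ∈ n.primeFactors, h p) * (Real.log n + x / n) :=
          mul_le_mul_of_nonneg_left (by linarith) b6
      _ = _ := by ring
  have a4 := mul_le_mul_of_nonneg_left a2 (Nat.cast_nonneg (α := ℝ) x)
  linarith

lemma ht_LL {n : ℕ} (hn : 2 ≤ n) :
    Real.exp (∑ p ∈ Nat.primesLE n, (p : ℝ)⁻¹) ≤ Real.exp 3 * (1 + Real.log n) := by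
  have h0 : 0 < 1 + Real.log n := by linarith [Real.log_natCast_nonneg n]
  refine (Real.exp_le_exp.2 (MP_0a06fe_nt.sum_inv_primesLE_le hn)).trans_eq ?_
  rw [Real.exp_add, Real.exp_log h0, mul_comm]

/-- The character. -/
noncomputable def ht_chi (D : ℕ) (e : ZMod 2) (n : ℕ) : ℝ :=
  (J((n : ℤ) | D) : ℝ) * (if e = 0 then fun _ => 1 else chi4) n

lemma ht_is24 (e : ZMod 2) : IsCh24 (if e = 0 then fun _ => 1 else chi4) := by
  split_ifs
  · exact isCh24_one
  · exact isCh24_chi4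

lemma ht_isCh (D : ℕ) (e : ZMod 2) : IsCh (ht_chi D e) := (isCh_jac D).mul (ht_is24 e).1

lemma ht_interval {D : ℕ} {e : ZMod 2} (hD : Squarefree D) (h6 : D.Coprime 6)
    (hne : ¬(D = 1 ∧ e = 0)) (u v : ℕ) :
    |∑ n ∈ Ioc u v, ht_chi D e n| ≤ (2 * (24 * D) : ℕ) := by
  rcases eq_or_ne D 1 with rfl | h1
  · have he : e ≠ 0 := fun h => hne ⟨rfl, h⟩
    have h2 : ht_chi 1 e = chi4 := funext fun n => by simp [ht_chi, he]
    rw [h2]
    refine abs_sum_Ioc_le isCh24_chi4.1.abs_le (by norm_num) isCh24_chi4.2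
      (sum_range_eq_zero isCh24_chi4.1.2.1 (by norm_num) isCh24_chi4.2 (n₀ := 23)
        (by norm_num) ?_) u v
    rw [chi4, ZMod.χ₄_nat_three_mod_four (by norm_num)]
    simp
  · obtain ⟨l, hl, a, rfl⟩ := Nat.exists_prime_and_dvd h1
    have hc : l.Coprime a := Nat.coprime_of_squarefree_mul hD
    have h7 : l.Coprime 6 := Nat.Coprime.coprime_mul_right h6
    have h3 : 3 < l := by
      have := hl.two_le
      by_contra h
      have h4 : l = 2 ∨ l = 3 := by omega
      rcases h4 with rfl | rfl <;> norm_num at h7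
    exact jac_twist_interval (ht_is24 e) hl h3 (Nat.pos_of_ne_zero fun h => hD.ne_zero (by simp [h]))
      (hl.coprime_iff_not_dvd.1 hc) u v

lemma ht_one {D p : ℕ} {e : ZMod 2} (hp : p.Prime) (h2 : 2 < p) (h : lj p D + e * lam p = 0)
    (hc : p.Coprime D) : ht_chi D e p = 1 := by
  have hJ := jacobiSym.eq_one_or_neg_one (a := (p : ℤ)) (b := D) (by simpa using hc)
  have ho := Nat.odd_mod_four_iff.1 (hp.eq_two_or_odd.resolve_left h2.ne')
  have he : ∀ e : ZMod 2, e = 0 ∨ e = 1 := by decide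
  have h01 : (1 : ZMod 2) ≠ 0 := by decide
  unfold lj lam at h
  unfold ht_chi
  rcases he e with rfl | rfl
  · rcases hJ with a | a
    · simp [a]
    · simp [a] at h
  · rw [if_neg h01, chi4]
    rcases hJ with a | a <;> rcases ho with b | b
    · rw [a, ZMod.χ₄_nat_one_mod_four b]; simp
    · simp [a, b] at h
    · simp [a, b] at h
    · rw [a, ZMod.χ₄_nat_three_mod_four b]; simp

theorem killed_count : ∃ c : ℝ, 0 < c ∧ ∀ (x Z D t : ℕ) (e : ZMod 2), 2 ≤ x → 2 ≤ Z →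
    Squarefree D → D.Coprime 6 → ¬(D = 1 ∧ e = 0) →
    (((Icc 1 x).filter fun n => Squarefree n ∧ t + omZ Z n ≤ om n ∧ killed Z n D e).card : ℝ) ≤
      c * x * (1 + Real.log D) * (1 + Real.log Z) / 2 ^ t := by
  refine ⟨7 * (Real.exp 3 * 3) * (34 * Real.exp 8 * 50) * Real.exp 3, by positivity, ?_⟩
  intro x Z D t e hx hZ hD h6 hne
  have hch := ht_isCh D e
  set h : ℕ → ℝ := fun p => if Z < p then 1 + ht_chi D e p else 1 with hh
  have h0 : ∀ p, 0 ≤ h p := fun p => by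
    have := abs_le.1 (hch.abs_le p)
    simp only [hh]
    split_ifs <;> linarith
  have h2 : ∀ p, h p ≤ 2 := fun p => by
    have := abs_le.1 (hch.abs_le p)
    simp only [hh]
    split_ifs <;> linarith
  have a1 := ht_main h h0 h2 x
  set T := (Icc 1 x).filter fun n => Squarefree n ∧ t + omZ Z n ≤ om n ∧ killed Z n D e with hT
  have a2 : (T.card : ℝ) * 2 ^ t ≤
      ∑ n ∈ (Icc 1 x).filter Squarefree, ∏ p ∈ n.primeFactors, h p := by
    refine le_trans ?_ (sum_le_sum_of_subset_of_nonneg (s := T)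
      (fun n hn => mem_filter.2 ⟨(mem_filter.1 hn).1, (mem_filter.1 hn).2.1⟩)
      fun n _ _ => prod_nonneg fun p _ => h0 p)
    rw [← nsmul_eq_mul]
    refine card_nsmul_le_sum _ _ _ fun n hn => ?_
    obtain ⟨-, -, b1, b2⟩ := mem_filter.1 hn
    have b3 : ∏ p ∈ n.primeFactors, h p = ∏ p ∈ n.primeFactors, if ¬p ≤ Z then (2 : ℝ) else 1 := by
      refine prod_congr rfl fun p hp => ?_
      simp only [hh, not_le]
      split_ifs with b4
      · rw [ht_one (Nat.prime_of_mem_primeFactors hp) (by omega) (b2 p hp b4).1 (b2 p hp b4).2]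
        norm_num
      · rfl
    have b4 := card_filter_add_card_filter_not (s := n.primeFactors) (· ≤ Z)
    rw [b3, ← prod_filter, prod_const]
    unfold omZ om at b1
    exact pow_le_pow_right₀ one_le_two (by omega)
  have a3 : ∑ p ∈ Nat.primesLE x, h p / p ≤ ∑ p ∈ Nat.primesLE x, (p : ℝ)⁻¹ +
      ∑ p ∈ Nat.primesLE x, ht_chi D e p / p + ∑ p ∈ Nat.primesLE Z, (p : ℝ)⁻¹ := by
    have b1 : (∑ p ∈ Nat.primesLE x, if p ≤ Z then (p : ℝ)⁻¹ else 0) ≤
        ∑ p ∈ Nat.primesLE Z, (p : ℝ)⁻¹ := by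
      rw [← sum_filter]
      exact sum_le_sum_of_subset_of_nonneg (fun p hp => Nat.mem_primesLE.2
        ⟨(mem_filter.1 hp).2, (Nat.mem_primesLE.1 (mem_filter.1 hp).1).2⟩)
        fun p _ _ => by positivity
    refine le_trans ?_ (add_le_add le_rfl b1)
    rw [← sum_add_distrib, ← sum_add_distrib]
    refine sum_le_sum fun p _ => ?_
    have b2 := (abs_le.1 (hch.abs_le p)).1
    have b3 : (0 : ℝ) ≤ (p : ℝ)⁻¹ := by positivity
    simp only [hh, div_eq_mul_inv]
    by_cases b4 : Z < p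
    · rw [if_pos b4, if_neg (by omega)]
      linarith
    · rw [if_neg b4, if_pos (by omega)]
      nlinarith
  have lD := Real.log_natCast_nonneg D
  have lZ := Real.log_natCast_nonneg Z
  have a4 : Real.exp (∑ p ∈ Nat.primesLE x, ht_chi D e p / p) ≤
      34 * Real.exp 8 * (50 * (1 + Real.log D)) := by
    refine (char_upper hch (ht_interval hD h6 hne) x).trans
      (mul_le_mul_of_nonneg_left ?_ (by positivity))
    have b1 : (D : ℝ) ≠ 0 := Nat.cast_ne_zero.2 hD.ne_zero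
    have b2 := Real.log_le_sub_one_of_pos (x := 48) (by norm_num)
    rw [show ((2 * (24 * D) : ℕ) : ℝ) = 48 * D by push_cast; ring, Real.log_mul (by norm_num) b1]
    linarith
  have lx : 1 / 2 ≤ Real.log x := by
    have b1 : Real.log 2 ≤ Real.log x := Real.log_le_log two_pos (by exact_mod_cast hx)
    linarith [Real.log_two_gt_d9]
  have a5 : Real.exp (∑ p ∈ Nat.primesLE x, (p : ℝ)⁻¹) ≤ Real.exp 3 * (3 * Real.log x) :=
    (ht_LL hx).trans (mul_le_mul_of_nonneg_left (by linarith) (Real.exp_pos 3).le)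
  have a6 : Real.exp (∑ p ∈ Nat.primesLE x, h p / p) ≤ Real.exp 3 * (3 * Real.log x) *
      (34 * Real.exp 8 * (50 * (1 + Real.log D))) * (Real.exp 3 * (1 + Real.log Z)) := by
    refine (Real.exp_le_exp.2 a3).trans ?_
    rw [Real.exp_add, Real.exp_add]
    exact mul_le_mul (mul_le_mul a5 a4 (Real.exp_pos _).le (by positivity)) (ht_LL hZ)
      (Real.exp_pos _).le (by positivity)
  rw [le_div_iff₀ (by positivity)]
  refine le_of_mul_le_mul_left ?_ (show 0 < Real.log x by linarith)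
  calc _ ≤ _ := mul_le_mul_of_nonneg_left a2 (by linarith)
    _ ≤ _ := a1
    _ ≤ _ := mul_le_mul_of_nonneg_left a6 (by positivity)
    _ = _ := by ring

/-- The sum of the reciprocals of the squarefree integers without large prime factor. -/
theorem sum_inv_smooth {Z : ℕ} (hZ : 2 ≤ Z) (S : Finset ℕ)
    (hS : ∀ n ∈ S, Squarefree n ∧ ¬big Z n) :
    ∑ n ∈ S, (n : ℝ)⁻¹ ≤ Real.exp 3 * (1 + Real.log Z) := by
  have h := ht_euler S (Nat.primesLE Z) (fun _ => 1) (fun _ => zero_le_one) fun n hn =>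
    ⟨(hS n hn).1, fun p hp => Nat.mem_primesLE.2
      ⟨not_lt.1 fun h => (hS n hn).2 ⟨p, hp, h⟩, Nat.prime_of_mem_primeFactors hp⟩⟩
  simp only [prod_const_one, one_div] at h
  exact h.trans (ht_LL hZ)

end Pool.Agent.Lib.MP_788af2_nt.R0
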