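import Pool.Agent.Lib.MP_788af2_nt.R0.Tup

namespace Pool.Agent.Lib.MP_788af2_nt.R0

open Finset Filter
open scoped NumberTheorySymbols

/-! The bilinear bound for the Jacobi symbol when the numerator is the long variable. -/

lemma jac1_pos {g n : ℕ} (h : good g n) : n ≠ 0 := h.1.ne_zero

lemma jac1_orth_aux {g n n' l : ℕ} (h : good g n) (h' : good g n') (hl : l.Prime) (h1 : l ∣ n)
    (h2 : ¬l ∣ n') (R : ℕ) :
    |∑ r ∈ Ioc 0 R, (J((r : ℤ) | n) : ℝ) * (J((r : ℤ) | n') : ℝ)| ≤ 48 * (n * n') := by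
  obtain ⟨k, rfl⟩ := h1
  have hk : ¬l ∣ k := fun hd => by
    obtain ⟨j, rfl⟩ := hd
    exact hl.one_lt.ne' (Nat.isUnit_iff.1 (h.1 l ⟨j, by ring⟩))
  have hc : l.Coprime 6 := Nat.Coprime.coprime_dvd_left (dvd_mul_right l k) h.2.1
  have hl3 : 3 < l := by
    have := hl.two_le
    by_contra hh
    have h4 : l = 2 ∨ l = 3 := by omega
    rcases h4 with rfl | rfl <;> exact absurd hc (by decide)
  have hk0 : k ≠ 0 := right_ne_zero_of_mul (jac1_pos h)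
  have := jac_twist_interval isCh24_one hl hl3
    (Nat.pos_of_ne_zero (mul_ne_zero hk0 (jac1_pos h')))
    (fun hd => (hl.dvd_mul.1 hd).elim hk h2) 0 R
  simp only [mul_one, ← mul_assoc] at this
  simp only [jacobiSym.mul_right' _ (jac1_pos h) (jac1_pos h'), Int.cast_mul] at this
  refine this.trans (le_of_eq ?_)
  push_cast
  ring

lemma jac1_orth {g n n' : ℕ} (h : good g n) (h' : good g n') (hne : n ≠ n') (R : ℕ) :
    |∑ r ∈ Ioc 0 R, (J((r : ℤ) | n) : ℝ) * (J((r : ℤ) | n') : ℝ)| ≤ 48 * (n * n') := by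
  have hp : n.primeFactors ≠ n'.primeFactors := fun e => hne (by
    rw [← Nat.prod_primeFactors_of_squarefree h.1, e, Nat.prod_primeFactors_of_squarefree h'.1])
  by_cases hs : n.primeFactors ⊆ n'.primeFactors
  · obtain ⟨l, hl, hl'⟩ := exists_of_ssubset (Finset.ssubset_iff_subset_ne.2 ⟨hs, hp⟩)
    have hpl := Nat.prime_of_mem_primeFactors hl
    have := jac1_orth_aux h' h hpl (Nat.dvd_of_mem_primeFactors hl)
      (fun hd => hl' (hpl.mem_primeFactors hd (jac1_pos h))) R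
    simpa only [mul_comm] using this
  · obtain ⟨l, hl, hl'⟩ := not_subset.1 hs
    have hpl := Nat.prime_of_mem_primeFactors hl
    exact jac1_orth_aux h h' hpl (Nat.dvd_of_mem_primeFactors hl)
      (fun hd => hl' (hpl.mem_primeFactors hd (jac1_pos h'))) R

lemma jac1_sieve {N g : ℕ} {B : Finset ℕ} (hB : ∀ n ∈ B, good g n ∧ n ≤ N) (hc : B.card ≤ N)
    (ε : ℕ → ℝ) (hε : ∀ n, |ε n| ≤ 1) (R : ℕ) :
    ∑ r ∈ Ioc 0 R, (∑ n ∈ B, ε n * (J((r : ℤ) | n) : ℝ)) ^ 2 ≤ N * (R + 48 * (N : ℝ) ^ 3) := by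
  have e : ∑ r ∈ Ioc 0 R, (∑ n ∈ B, ε n * (J((r : ℤ) | n) : ℝ)) ^ 2 = ∑ n ∈ B, ∑ n' ∈ B,
      ε n * ε n' * ∑ r ∈ Ioc 0 R, (J((r : ℤ) | n) : ℝ) * (J((r : ℤ) | n') : ℝ) := by
    simp only [sq, sum_mul_sum]
    rw [sum_comm]
    refine sum_congr rfl fun n _ => ?_
    rw [sum_comm]
    refine sum_congr rfl fun n' _ => ?_
    rw [mul_sum]
    exact sum_congr rfl fun r _ => by ring
  have hc' : (B.card : ℝ) ≤ N := by exact_mod_cast hc
  have row : ∀ n ∈ B, ∑ n' ∈ B,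
      ε n * ε n' * ∑ r ∈ Ioc 0 R, (J((r : ℤ) | n) : ℝ) * (J((r : ℤ) | n') : ℝ) ≤
        R + 48 * (N : ℝ) ^ 3 := by
    intro n hn
    have b : ∀ n' ∈ B,
        ε n * ε n' * ∑ r ∈ Ioc 0 R, (J((r : ℤ) | n) : ℝ) * (J((r : ℤ) | n') : ℝ) ≤
          (if n = n' then (R : ℝ) else 0) + 48 * (N : ℝ) ^ 2 := by
      intro n' hn'
      refine (le_abs_self _).trans ?_
      rw [abs_mul, abs_mul]
      have h1 : |ε n| * |ε n'| ≤ 1 := mul_le_one₀ (hε n) (abs_nonneg _) (hε n')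
      refine (mul_le_of_le_one_left (abs_nonneg _) h1).trans ?_
      split_ifs with h
      · refine (abs_sum_le_sum_abs _ _).trans ((sum_le_card_nsmul _ _ 1 fun r _ => ?_).trans ?_)
        · rw [abs_mul]
          exact mul_le_one₀ (abs_jac_le _ _) (abs_nonneg _) (abs_jac_le _ _)
        · simp
      · refine (jac1_orth (hB n hn).1 (hB n' hn').1 h R).trans ?_
        have h2 : (n : ℝ) ≤ N := by exact_mod_cast (hB n hn).2
        have h3 : (n' : ℝ) ≤ N := by exact_mod_cast (hB n' hn').2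
        rw [zero_add, sq]
        gcongr
    refine (sum_le_sum b).trans ?_
    rw [sum_add_distrib, sum_ite_eq, if_pos hn, sum_const, nsmul_eq_mul]
    have : (B.card : ℝ) * (48 * (N : ℝ) ^ 2) ≤ N * (48 * (N : ℝ) ^ 2) := by gcongr
    linarith
  rw [e]
  refine (sum_le_card_nsmul _ _ _ row).trans ?_
  rw [nsmul_eq_mul]
  gcongr

lemma jac1_sqf (r : ℕ) : (r.divisors.filter Squarefree).card ≤ 2 ^ om r := by
  rw [om, ← card_powerset]
  refine card_le_card_of_injOn Nat.primeFactors (fun d hd => ?_) fun d hd d' hd' e => ?_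
  · rw [mem_coe, mem_filter, Nat.mem_divisors] at hd
    exact mem_coe.2 (mem_powerset.2 (Nat.primeFactors_mono hd.1.1 hd.1.2))
  · rw [mem_coe, mem_filter] at hd hd'
    rw [← Nat.prod_primeFactors_of_squarefree hd.2, e, Nat.prod_primeFactors_of_squarefree hd'.2]

lemma jac1_om {a b : ℕ} (ha : a ≠ 0) (hb : b ≠ 0) : om (a * b) ≤ om a + om b := by
  unfold om
  rw [Nat.primeFactors_mul ha hb]
  exact card_union_le _ _

lemma jac1_fib {g : ℕ} {A : Finset ℕ} (hA : ∀ m ∈ A, good g m) (r : ℕ) :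
    ((A ×ˢ A ×ˢ A).filter fun t => t.1 * t.2.1 * t.2.2 = r).card ≤ g ^ 6 := by
  rcases ((A ×ˢ A ×ˢ A).filter fun t => t.1 * t.2.1 * t.2.2 = r).eq_empty_or_nonempty with
    h | ⟨⟨a, b, c⟩, h⟩
  · rw [h]; simp
  simp only [mem_filter, mem_product] at h
  obtain ⟨⟨ha, hb, hc⟩, hr⟩ := h
  have ga := hA a ha
  have gb := hA b hb
  have gc := hA c hc
  have hr0 : r ≠ 0 := hr ▸ mul_ne_zero (mul_ne_zero (jac1_pos ga) (jac1_pos gb)) (jac1_pos gc)
  have h1 : 2 ^ om r ≤ g ^ 3 := by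
    have h2 : om r ≤ om a + om b + om c := by
      rw [← hr]
      exact (jac1_om (mul_ne_zero (jac1_pos ga) (jac1_pos gb)) (jac1_pos gc)).trans
        (Nat.add_le_add_right (jac1_om (jac1_pos ga) (jac1_pos gb)) _)
    calc 2 ^ om r ≤ 2 ^ (om a + om b + om c) := Nat.pow_le_pow_right (by norm_num) h2
      _ = 2 ^ om a * 2 ^ om b * 2 ^ om c := by rw [pow_add, pow_add]
      _ ≤ g * g * g := Nat.mul_le_mul (Nat.mul_le_mul ga.2.2 gb.2.2) gc.2.2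
      _ = g ^ 3 := by ring
  have h3 := (jac1_sqf r).trans h1
  calc _ ≤ ((r.divisors.filter Squarefree) ×ˢ (r.divisors.filter Squarefree)).card := by
        refine card_le_card_of_injOn (fun t => (t.1, t.2.1)) ?_ ?_
        · rintro ⟨x, y, w⟩ ht
          simp only [mem_coe, mem_filter, mem_product, Nat.mem_divisors] at ht ⊢
          obtain ⟨⟨hx, hy, -⟩, e⟩ := ht
          exact ⟨⟨⟨⟨y * w, by rw [← e]; ring⟩, hr0⟩, (hA x hx).1⟩,
            ⟨⟨x * w, by rw [← e]; ring⟩, hr0⟩, (hA y hy).1⟩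
        · rintro ⟨x, y, w⟩ ht ⟨x', y', w'⟩ ht' e
          simp only [mem_coe, mem_filter, mem_product, Prod.mk.injEq] at ht ht' e ⊢
          obtain ⟨rfl, rfl⟩ := e
          refine ⟨rfl, rfl, Nat.eq_of_mul_eq_mul_left (Nat.pos_of_ne_zero
            (mul_ne_zero (jac1_pos (hA x ht.1.1)) (jac1_pos (hA y ht.1.2.1)))) ?_⟩
          rw [ht.2, ht'.2]
    _ ≤ g ^ 3 * g ^ 3 := by rw [card_product]; exact Nat.mul_le_mul h3 h3
    _ = g ^ 6 := by ring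

lemma jac1_cube {M g : ℕ} {A : Finset ℕ} (hA : ∀ m ∈ A, good g m ∧ m ≤ M) (hc : A.card ≤ M)
    (T : ℕ → ℝ) : (∑ t ∈ A ×ˢ A ×ˢ A, |T (t.1 * t.2.1 * t.2.2)|) ^ 2 ≤
      (M : ℝ) ^ 3 * ((g : ℝ) ^ 6 * ∑ r ∈ Ioc 0 (M ^ 3), T r ^ 2) := by
  refine sq_sum_le_card_mul_sum_sq.trans ?_
  have hc' : ((A ×ˢ A ×ˢ A).card : ℝ) ≤ (M : ℝ) ^ 3 := by
    have : (A ×ˢ A ×ˢ A).card ≤ M ^ 3 := by
      rw [card_product, card_product]
      calc _ ≤ M * (M * M) := Nat.mul_le_mul hc (Nat.mul_le_mul hc hc)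
        _ = M ^ 3 := by ring
    exact_mod_cast this
  refine mul_le_mul hc' ?_ (sum_nonneg fun _ _ => sq_nonneg _) (by positivity)
  have hm : ∀ t ∈ A ×ˢ A ×ˢ A, t.1 * t.2.1 * t.2.2 ∈ Ioc 0 (M ^ 3) := by
    rintro ⟨x, y, w⟩ ht
    simp only [mem_product] at ht
    obtain ⟨hx, hy, hw⟩ := ht
    refine mem_Ioc.2 ⟨Nat.pos_of_ne_zero (mul_ne_zero (mul_ne_zero (jac1_pos (hA x hx).1)
      (jac1_pos (hA y hy).1)) (jac1_pos (hA w hw).1)), ?_⟩
    calc x * y * w ≤ M * M * M :=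
          Nat.mul_le_mul (Nat.mul_le_mul (hA x hx).2 (hA y hy).2) (hA w hw).2
      _ = M ^ 3 := by ring
  rw [← sum_fiberwise_of_maps_to hm, mul_sum]
  refine sum_le_sum fun r _ => ?_
  rw [sum_congr rfl (g := fun _ => T r ^ 2) fun t ht => by rw [(mem_filter.1 ht).2, sq_abs],
    sum_const, nsmul_eq_mul]
  refine mul_le_mul_of_nonneg_right ?_ (sq_nonneg _)
  exact_mod_cast jac1_fib (fun m hm => (hA m hm).1) r

theorem jac_core {M N g z : ℕ} (hz : 0 < z) (hN : z ^ 6 ≤ N) (hM : N ≤ M) (α β : ℕ → ℝ)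
    (hα : ∀ m, |α m| ≤ 1) (hβ : ∀ n, |β n| ≤ 1) (sα : ∀ m, α m ≠ 0 → good g m)
    (sβ : ∀ n, β n ≠ 0 → good g n) :
    |∑ m ∈ Icc 1 M, ∑ n ∈ Icc 1 N, α m * β n * (J((m : ℤ) | n) : ℝ)| ≤ 2 * g * M * N / z := by
  set A := (Icc 1 M).filter (good g) with hA
  set B := (Icc 1 N).filter (good g) with hB
  have hA' : ∀ m ∈ A, good g m ∧ m ≤ M := fun m hm =>
    ⟨(mem_filter.1 hm).2, (mem_Icc.1 (mem_filter.1 hm).1).2⟩
  have hB' : ∀ m ∈ B, good g m ∧ m ≤ N := fun m hm =>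
    ⟨(mem_filter.1 hm).2, (mem_Icc.1 (mem_filter.1 hm).1).2⟩
  have cA : A.card ≤ M := (card_filter_le _ _).trans (by simp)
  have cB : B.card ≤ N := (card_filter_le _ _).trans (by simp)
  set S : ℕ → ℝ := fun n => ∑ m ∈ A, α m * (J((m : ℤ) | n) : ℝ) with hS
  have e1 : ∑ m ∈ Icc 1 M, ∑ n ∈ Icc 1 N, α m * β n * (J((m : ℤ) | n) : ℝ) =
      ∑ n ∈ B, β n * S n := by
    rw [sum_comm, hB, sum_filter_of_ne fun n _ h => sβ n (left_ne_zero_of_mul h)]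
    refine sum_congr rfl fun n _ => ?_
    simp only [hS]
    rw [hA, sum_filter_of_ne fun m _ h => sα m (left_ne_zero_of_mul h), mul_sum]
    exact sum_congr rfl fun m _ => by ring
  have b1 : |∑ n ∈ B, β n * S n| ≤ ∑ n ∈ B, |S n| := by
    refine (abs_sum_le_sum_abs _ _).trans (sum_le_sum fun n _ => ?_)
    rw [abs_mul]
    exact mul_le_of_le_one_left (abs_nonneg _) (hβ n)
  have b2 : (∑ n ∈ B, |S n|) ^ 3 ≤ (N : ℝ) ^ 2 * ∑ n ∈ B, |S n| ^ 3 := by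
    refine (pow_sum_le_card_mul_sum_pow (fun n _ => abs_nonneg (S n)) 2).trans ?_
    have : (B.card : ℝ) ≤ N := by exact_mod_cast cB
    exact mul_le_mul_of_nonneg_right (by gcongr) (sum_nonneg fun n _ => by positivity)
  set ε : ℕ → ℝ := fun n => if 0 ≤ S n then 1 else -1 with hε
  have hε1 : ∀ n, |ε n| ≤ 1 := fun n => by
    simp only [hε]; split_ifs <;> simp
  set T : ℕ → ℝ := fun r => ∑ n ∈ B, ε n * (J((r : ℤ) | n) : ℝ) with hT
  have e2 : ∀ n, |S n| ^ 3 = ∑ t ∈ A ×ˢ A ×ˢ A, α t.1 * α t.2.1 * α t.2.2 *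
      (ε n * (J(((t.1 * t.2.1 * t.2.2 : ℕ) : ℤ) | n) : ℝ)) := by
    intro n
    have h1 : |S n| ^ 3 = ε n * (S n * (S n * S n)) := by
      simp only [hε]
      split_ifs with h
      · rw [abs_of_nonneg h]; ring
      · rw [abs_of_neg (not_le.1 h)]; ring
    rw [h1]
    simp only [hS, sum_product, mul_sum, sum_mul]
    refine sum_congr rfl fun a _ => sum_congr rfl fun b _ => sum_congr rfl fun c _ => ?_
    simp only [Nat.cast_mul, jacobiSym.mul_left, Int.cast_mul]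
    ring
  have b3 : ∑ n ∈ B, |S n| ^ 3 ≤ ∑ t ∈ A ×ˢ A ×ˢ A, |T (t.1 * t.2.1 * t.2.2)| := by
    simp only [e2]
    rw [sum_comm]
    refine sum_le_sum fun t _ => ?_
    rw [← mul_sum]
    refine (le_abs_self _).trans ?_
    rw [abs_mul, abs_mul, abs_mul]
    exact mul_le_of_le_one_left (abs_nonneg _)
      (mul_le_one₀ (mul_le_one₀ (hα _) (abs_nonneg _) (hα _)) (abs_nonneg _) (hα _))
  have b4 := jac1_cube hA' cA T
  have b5 := jac1_sieve hB' cB ε hε1 (M ^ 3)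
  have hM' : (N : ℝ) ≤ M := by exact_mod_cast hM
  have hN' : (z : ℝ) ^ 6 ≤ N := by exact_mod_cast hN
  have hz' : (0 : ℝ) < z := by exact_mod_cast hz
  have b6 : ∑ r ∈ Ioc 0 (M ^ 3), T r ^ 2 ≤ N * (49 * (M : ℝ) ^ 3) := by
    refine b5.trans ?_
    have : (N : ℝ) ^ 3 ≤ (M : ℝ) ^ 3 := by gcongr
    push_cast
    exact mul_le_mul_of_nonneg_left (by linarith) (by positivity)
  have b7 : (∑ n ∈ B, |S n| ^ 3) ^ 2 ≤ (M : ℝ) ^ 3 * ((g : ℝ) ^ 6 * (N * (49 * (M : ℝ) ^ 3))) := by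
    refine (pow_le_pow_left₀ (sum_nonneg fun n _ => by positivity) b3 2).trans (b4.trans ?_)
    gcongr
  have b0 : 0 ≤ ∑ n ∈ B, |S n| := sum_nonneg fun n _ => abs_nonneg _
  rw [e1]
  refine b1.trans (le_of_pow_le_pow_left₀ (n := 6) (by norm_num) (by positivity) ?_)
  calc (∑ n ∈ B, |S n|) ^ 6 = ((∑ n ∈ B, |S n|) ^ 3) ^ 2 := by ring
    _ ≤ ((N : ℝ) ^ 2 * ∑ n ∈ B, |S n| ^ 3) ^ 2 := by gcongr
    _ = (N : ℝ) ^ 4 * (∑ n ∈ B, |S n| ^ 3) ^ 2 := by ring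
    _ ≤ (N : ℝ) ^ 4 * ((M : ℝ) ^ 3 * ((g : ℝ) ^ 6 * (N * (49 * (M : ℝ) ^ 3)))) := by gcongr
    _ = 49 * ((g : ℝ) ^ 6 * (M : ℝ) ^ 6 * (N : ℝ) ^ 5) * 1 := by ring
    _ ≤ 64 * ((g : ℝ) ^ 6 * (M : ℝ) ^ 6 * (N : ℝ) ^ 5) * (N / (z : ℝ) ^ 6) := by
        gcongr
        · norm_num
        · exact (one_le_div (by positivity)).2 hN'
    _ = (2 * g * M * N / z) ^ 6 := by
        field_simp
        ring

end Pool.Agent.Lib.MP_788af2_nt.R0
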