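import Pool.Agent.Lib.MP_788af2_nt.R0.Jac1

namespace Pool.Agent.Lib.MP_788af2_nt.R0

open Finset Filter
open scoped NumberTheorySymbols

/-! Bilinear bounds for the Jacobi symbol. -/

lemma jac2_odd {g n : ℕ} (h : good g n) : Odd n :=
  Nat.coprime_two_right.1 (h.2.1.coprime_dvd_right (by norm_num))

lemma jac2_real {M N : ℕ} {K : ℕ → ℕ → ℝ} {p : ℕ → Prop} [DecidablePred p] {Bd : ℝ}
    (H : ∀ α β : ℕ → ℝ, (∀ m, |α m| ≤ 1) → (∀ n, |β n| ≤ 1) → (∀ m, α m ≠ 0 → p m) →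
      (∀ n, β n ≠ 0 → p n) → |∑ m ∈ Icc 1 M, ∑ n ∈ Icc 1 N, α m * β n * K m n| ≤ Bd)
    (β : ℕ → ℝ) (hβ : ∀ n, |β n| ≤ 1) (sβ : ∀ n, β n ≠ 0 → p n) :
    ∑ m ∈ Icc 1 M with p m, |∑ n ∈ Icc 1 N, β n * K m n| ≤ Bd := by
  refine le_trans (le_of_eq ?_) ((le_abs_self _).trans (H (fun m => if p m then
    (if 0 ≤ ∑ n ∈ Icc 1 N, β n * K m n then 1 else -1) else 0) β (fun m => ?_) hβ
    (fun m hm => ?_) sβ))
  · rw [sum_filter]
    refine sum_congr rfl fun m _ => ?_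
    simp only [mul_assoc, ← mul_sum]
    split_ifs with h1 h2
    · rw [abs_of_nonneg h2, one_mul]
    · rw [abs_of_neg (not_le.1 h2), neg_one_mul]
    · rw [zero_mul]
  · split_ifs <;> simp
  · by_contra h
    exact hm (if_neg h)

lemma jac2_cx {M N : ℕ} {K : ℕ → ℕ → ℝ} {p : ℕ → Prop} [DecidablePred p] {Bd : ℝ}
    (H : ∀ α β : ℕ → ℝ, (∀ m, |α m| ≤ 1) → (∀ n, |β n| ≤ 1) → (∀ m, α m ≠ 0 → p m) →
      (∀ n, β n ≠ 0 → p n) → |∑ m ∈ Icc 1 M, ∑ n ∈ Icc 1 N, α m * β n * K m n| ≤ Bd)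
    (β : ℕ → ℂ) (hβ : ∀ n, ‖β n‖ ≤ 1) (sβ : ∀ n, β n ≠ 0 → p n) :
    ∑ m ∈ Icc 1 M with p m, ‖∑ n ∈ Icc 1 N, β n * (K m n : ℂ)‖ ≤ 2 * Bd := by
  have h1 := jac2_real H (fun n => (β n).re) (fun n => (Complex.abs_re_le_norm _).trans (hβ n))
    fun n hn => sβ n fun h => hn (by simp [h])
  have h2 := jac2_real H (fun n => (β n).im) (fun n => (Complex.abs_im_le_norm _).trans (hβ n))
    fun n hn => sβ n fun h => hn (by simp [h])
  rw [two_mul]
  refine le_trans ?_ (add_le_add h1 h2)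
  rw [← sum_add_distrib]
  refine sum_le_sum fun m _ => (Complex.norm_le_abs_re_add_abs_im _).trans (le_of_eq ?_)
  simp [Complex.re_sum, Complex.im_sum]

theorem jac_bil (M N g : ℕ) {z : ℕ} (hz : 0 < z) (α β : ℕ → ℝ) (hα : ∀ m, |α m| ≤ 1)
    (hβ : ∀ n, |β n| ≤ 1) (sα : ∀ m, α m ≠ 0 → good g m ∧ z ^ 6 ≤ m)
    (sβ : ∀ n, β n ≠ 0 → good g n ∧ z ^ 6 ≤ n) :
    |∑ m ∈ Icc 1 M, ∑ n ∈ Icc 1 N, α m * β n * (J((m : ℤ) | n) : ℝ)| ≤ 4 * g * M * N / z := by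
  have h0 : (0 : ℝ) ≤ 2 * g * M * N / z := by positivity
  have e4 : (4 : ℝ) * g * M * N / z = 2 * g * M * N / z + 2 * g * M * N / z := by ring
  by_cases hN : N < z ^ 6
  · rw [sum_eq_zero fun m _ => sum_eq_zero fun n hn => ?_, abs_zero]
    · positivity
    · have : β n = 0 := by
        by_contra h
        have := (sβ n h).2
        have := (mem_Icc.1 hn).2
        omega
      simp [this]
  by_cases hM : M < z ^ 6
  · rw [sum_eq_zero fun m hm => sum_eq_zero fun n _ => ?_, abs_zero]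
    · positivity
    · have : α m = 0 := by
        by_contra h
        have := (sα m h).2
        have := (mem_Icc.1 hm).2
        omega
      simp [this]
  rcases le_total N M with h | h
  · have := jac_core hz (not_lt.1 hN) h α β hα hβ (fun m hm => (sα m hm).1) fun n hn => (sβ n hn).1
    linarith
  have h1 := jac_core (g := g) hz (not_lt.1 hM) h β (fun m => if m % 4 = 3 then 0 else α m) hβ
    (fun m => by split_ifs; exacts [by simp, hα m]) (fun n hn => (sβ n hn).1)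
    fun m hm => (sα m fun h => hm (by simp [h])).1
  have h2 := jac_core (g := g) hz (not_lt.1 hM) h (fun n => β n * chi4 n)
    (fun m => if m % 4 = 3 then α m else 0)
    (fun n => by
      rw [abs_mul]
      exact mul_le_one₀ (hβ n) (abs_nonneg _) (isCh24_chi4.1.abs_le _))
    (fun m => by split_ifs; exacts [hα m, by simp])
    (fun n hn => (sβ n (left_ne_zero_of_mul hn)).1)
    fun m hm => (sα m fun h => hm (by simp [h])).1
  have e5 : (2 : ℝ) * g * N * M / z = 2 * g * M * N / z := by ring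
  rw [e5] at h1 h2
  rw [e4]
  refine le_trans (le_of_eq ?_) ((abs_add_le _ _).trans (add_le_add h1 h2))
  rw [sum_comm, ← sum_add_distrib]
  congr 1
  refine sum_congr rfl fun n _ => ?_
  rw [← sum_add_distrib]
  refine sum_congr rfl fun m _ => ?_
  by_cases ha : α m = 0
  · simp [ha]
  by_cases hb : β n = 0
  · simp [hb]
  rw [recip (jac2_odd (sβ n hb).1) (jac2_odd (sα m ha).1), th]
  split_ifs <;> ring

theorem jac_l1a (M N g : ℕ) {z : ℕ} (hz : 0 < z) (β : ℕ → ℂ) (hβ : ∀ n, ‖β n‖ ≤ 1)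
    (sβ : ∀ n, β n ≠ 0 → good g n ∧ z ^ 6 ≤ n) :
    ∑ m ∈ Icc 1 M with good g m ∧ z ^ 6 ≤ m, ‖∑ n ∈ Icc 1 N, β n * (J((m : ℤ) | n) : ℂ)‖ ≤
      8 * g * M * N / z := by
  have := jac2_cx (K := fun m n => (J((m : ℤ) | n) : ℝ)) (p := fun m => good g m ∧ z ^ 6 ≤ m)
    (fun α β => jac_bil M N g hz α β) β hβ sβ
  simp only [Complex.ofReal_intCast] at this
  refine this.trans (le_of_eq ?_)
  ring

theorem jac_l1b (M N g : ℕ) {z : ℕ} (hz : 0 < z) (α : ℕ → ℂ) (hα : ∀ m, ‖α m‖ ≤ 1)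
    (sα : ∀ m, α m ≠ 0 → good g m ∧ z ^ 6 ≤ m) :
    ∑ n ∈ Icc 1 N with good g n ∧ z ^ 6 ≤ n, ‖∑ m ∈ Icc 1 M, α m * (J((m : ℤ) | n) : ℂ)‖ ≤
      8 * g * M * N / z := by
  have := jac2_cx (M := N) (N := M) (K := fun n m => (J((m : ℤ) | n) : ℝ))
    (p := fun m => good g m ∧ z ^ 6 ≤ m) (Bd := 4 * g * M * N / z)
    (fun a b h1 h2 h3 h4 => by
      refine le_trans (le_of_eq ?_) (jac_bil M N g hz b a h2 h1 h4 h3)
      rw [sum_comm]
      simp only [mul_comm (a _)]) α hα sα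
  simp only [Complex.ofReal_intCast] at this
  refine this.trans (le_of_eq ?_)
  ring

end Pool.Agent.Lib.MP_788af2_nt.R0
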