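import Pool.Agent.Lib.MP_788af2_nt.R0.HT
import Pool.Agent.Lib.MP_788af2_nt.R0.Cheb

namespace Pool.Agent.Lib.MP_788af2_nt.R0

open Finset Filter
open scoped NumberTheorySymbols

/-! Small kernel vectors are rare. -/

/-- One residue class in an interval. -/
lemma l3a_class {x l D : ℕ} (hD : 0 < D) (hl : D ≤ l) (F : Finset ℕ) (hF : F ⊆ Ioc x (x + l))
    (h : ∀ b ∈ F, ∀ b' ∈ F, b ≡ b' [MOD D]) : (F.card : ℝ) ≤ 2 * l / D := by
  have hD' : (0 : ℝ) < D := by exact_mod_cast hD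
  rcases F.eq_empty_or_nonempty with rfl | ⟨v, hv⟩
  · simp only [card_empty, Nat.cast_zero]; positivity
  have h1 : F ⊆ (Ioc x (x + l)).filter (· ≡ v [MOD D]) := fun b hb =>
    mem_filter.2 ⟨hF hb, h b hb v hv⟩
  have h2 := Nat.Ioc_filter_modEq_card x (x + l) hD v
  have hq : (0 : ℚ) < D := by exact_mod_cast hD
  have h3 : (((Ioc x (x + l)).filter (· ≡ v [MOD D])).card : ℚ) ≤ 2 * l / D := by
    have h4 : ((((Ioc x (x + l)).filter (· ≡ v [MOD D])).card : ℤ) : ℚ) =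
        ((max (⌊(((x + l : ℕ) : ℚ) - v) / (D : ℚ)⌋ - ⌊((x : ℚ) - v) / (D : ℚ)⌋) 0 : ℤ) : ℚ) := by
      rw [h2]
    have h5 := Int.floor_le ((((x + l : ℕ) : ℚ) - v) / (D : ℚ))
    have h6 := Int.lt_floor_add_one (((x : ℚ) - v) / (D : ℚ))
    have h7 : (((x + l : ℕ) : ℚ) - v) / (D : ℚ) = ((x : ℚ) - v) / (D : ℚ) + l / D := by
      push_cast; ring
    have h8 : (1 : ℚ) ≤ l / D := by
      rw [le_div_iff₀ hq, one_mul]; exact_mod_cast hl
    have h9 : (2 : ℚ) * l / D = l / D + l / D := by ring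
    rw [Int.cast_natCast] at h4
    rw [h4, Int.cast_max, Int.cast_sub, Int.cast_zero, max_le_iff]
    constructor <;> linarith
  have h10 : (((Ioc x (x + l)).filter (· ≡ v [MOD D])).card : ℝ) ≤ 2 * l / D := by
    have := (Rat.cast_le (K := ℝ)).2 h3
    push_cast at this
    exact this
  exact le_trans (by exact_mod_cast card_le_card h1) h10

/-- The pairs `(b, c)` with prescribed divisors. -/
lemma l3a_count {x N Q B C : ℕ} (SB T : Finset ℕ) (hSB : SB ⊆ Ioc x (x + x)) (hB : 0 < B)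
    (hC : 0 < C) (hBC : B.Coprime C) (hQ : C.Coprime Q) (hx : B * C ≤ x) :
    ∑ b ∈ SB, ∑ c ∈ T, (if N = b * Q + 16 * c ∧ B ∣ b ∧ C ∣ c then (1 : ℝ) else 0) ≤
      2 * x / (B * C) := by
  classical
  have h1 : ∀ b ∈ SB, ∑ c ∈ T, (if N = b * Q + 16 * c ∧ B ∣ b ∧ C ∣ c then (1 : ℝ) else 0) ≤
      if (∃ c, N = b * Q + 16 * c ∧ B ∣ b ∧ C ∣ c) then 1 else 0 := by
    intro b _
    split_ifs with h
    · rw [sum_boole]
      have : (T.filter fun c => N = b * Q + 16 * c ∧ B ∣ b ∧ C ∣ c).card ≤ 1 := by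
        refine card_le_one.2 fun c hc c' hc' => ?_
        have e1 := (mem_filter.1 hc).2.1
        have e2 := (mem_filter.1 hc').2.1
        omega
      exact_mod_cast this
    · refine le_of_eq (sum_eq_zero fun c _ => if_neg fun hc => h ⟨c, hc⟩)
  refine (sum_le_sum h1).trans ?_
  rw [sum_boole]
  have h2 := l3a_class (Nat.mul_pos hB hC) hx
    (SB.filter fun b => ∃ c, N = b * Q + 16 * c ∧ B ∣ b ∧ C ∣ c)
    ((filter_subset _ _).trans hSB) ?_
  · push_cast at h2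
    exact h2
  intro b hb b' hb'
  obtain ⟨c, e1, d1, d2⟩ := (mem_filter.1 hb).2
  obtain ⟨c', e2, d3, d4⟩ := (mem_filter.1 hb').2
  refine (Nat.modEq_and_modEq_iff_modEq_mul hBC).1 ⟨?_, ?_⟩
  · exact ((Nat.modEq_zero_iff_dvd).2 d1).trans ((Nat.modEq_zero_iff_dvd).2 d3).symm
  · have m1 : b * Q + 16 * c ≡ b * Q + 0 [MOD C] :=
      Nat.ModEq.add_left _ ((Nat.modEq_zero_iff_dvd).2 (d2.mul_left 16))
    have m2 : b' * Q + 16 * c' ≡ b' * Q + 0 [MOD C] :=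
      Nat.ModEq.add_left _ ((Nat.modEq_zero_iff_dvd).2 (d4.mul_left 16))
    rw [← e1, add_zero] at m1
    rw [← e2, add_zero] at m2
    exact Nat.ModEq.cancel_right_of_coprime hQ (m1.symm.trans m2)

/-- A divisor without large prime factor is small. -/
lemma l3a_small {Z n B k : ℕ} (hZ : 1 ≤ Z) (hn : Squarefree n) (hB : B ∣ n) (hb : ¬big Z B)
    (hk : omZ Z n ≤ k) : B ≤ Z ^ k := by
  have hsq : Squarefree B := hn.squarefree_of_dvd hB
  have hp : ∀ p ∈ B.primeFactors, p ≤ Z := fun p hp => not_lt.1 fun h => hb ⟨p, hp, h⟩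
  have h1 : B.primeFactors.card ≤ omZ Z n := by
    refine card_le_card fun p hp' => mem_filter.2 ⟨?_, hp p hp'⟩
    exact Nat.primeFactors_mono hB hn.ne_zero hp'
  calc B = ∏ p ∈ B.primeFactors, p := (Nat.prod_primeFactors_of_squarefree hsq).symm
    _ ≤ Z ^ B.primeFactors.card := prod_le_pow_card _ _ _ hp
    _ ≤ Z ^ k := Nat.pow_le_pow_right hZ (h1.trans hk)

/-- The small squarefree numbers without large prime factor. -/
def l3aS (Z Y : ℕ) : Finset ℕ :=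
  (Icc 1 Y).filter fun n => Squarefree n ∧ n.Coprime 6 ∧ ¬big Z n

lemma l3a_sum_le {s t : Finset ℕ} {f f' : ℕ → ℝ} (h0 : ∀ x, 0 ≤ f' x)
    (h : ∀ x ∈ s, f x ≠ 0 → x ∈ t) (h' : ∀ x ∈ s, f x ≤ f' x) : ∑ x ∈ s, f x ≤ ∑ x ∈ t, f' x := by
  classical
  rw [← sum_filter_ne_zero]
  refine (sum_le_sum fun x hx => h' x (mem_filter.1 hx).1).trans ?_
  exact sum_le_sum_of_subset_of_nonneg (fun x hx => h x (mem_filter.1 hx).1 (mem_filter.1 hx).2)
    fun x _ _ => h0 x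

lemma l3a_point {g Z k a b c : ℕ} (hZ : 1 ≤ Z) (hb : typ g Z b) (hc : typ g Z c)
    (hbc : b.Coprime c) (hk : Real.log g / 100 < k + 1) :
    (n1 Z a b c : ℝ) ≤ ∑ B ∈ l3aS Z (Z ^ k), ∑ C ∈ l3aS Z (Z ^ k), ∑ e : ZMod 2,
      if (B.Coprime C ∧ ¬(B * C = 1 ∧ e = 0)) ∧ killed Z a (B * C) e ∧ B ∣ b ∧ C ∣ c then (1 : ℝ)
      else 0 := by
  have hmem : ∀ {n B : ℕ}, typ g Z n → B ∣ n → ¬big Z B → B ∈ l3aS Z (Z ^ k) := by
    intro n B hn hB hbig
    have hk' : omZ Z n ≤ k := by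
      have : (omZ Z n : ℝ) < k + 1 := hn.2.2.2.trans_lt hk
      have : omZ Z n < k + 1 := by exact_mod_cast this
      omega
    have hsq : Squarefree B := hn.1.squarefree_of_dvd hB
    refine mem_filter.2 ⟨mem_Icc.2 ⟨Nat.pos_of_ne_zero hsq.ne_zero,
      l3a_small hZ hn.1 hB hbig hk'⟩, hsq, Nat.Coprime.of_dvd_left hB hn.2.1, hbig⟩
  unfold n1
  push_cast
  refine l3a_sum_le (fun B => sum_nonneg fun C _ => sum_nonneg fun e _ => by positivity) ?_ ?_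
  · intro B hB h0
    refine hmem hb (Nat.dvd_of_mem_divisors hB) fun hbig => h0 ?_
    exact sum_eq_zero fun C _ => sum_eq_zero fun e _ => if_neg fun h => h.1 hbig
  intro B hB
  refine l3a_sum_le (fun C => sum_nonneg fun e _ => by positivity) ?_ ?_
  · intro C hC h0
    refine hmem hc (Nat.dvd_of_mem_divisors hC) fun hbig => h0 ?_
    exact sum_eq_zero fun e _ => if_neg fun h => h.2.1 hbig
  intro C hC
  refine sum_le_sum fun e _ => ?_
  have hB' := Nat.dvd_of_mem_divisors hB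
  have hC' := Nat.dvd_of_mem_divisors hC
  by_cases h : ¬big Z B ∧ ¬big Z C ∧ ¬(B * C = 1 ∧ e = 0) ∧ killed Z a (B * C) e
  · rw [if_pos h, if_pos ⟨⟨Nat.Coprime.of_dvd hB' hC' hbc, h.2.2.1⟩, h.2.2.2, hB', hC'⟩]
  · rw [if_neg h]; positivity

/-- The contribution of fixed divisors. -/
lemma l3a_fix {g Z Y t : ℕ} {c₀ : ℝ} (C : Cell g Z) (hZ : 2 ≤ Z) (hc₀ : 0 < c₀)
    (hk : ∀ (x Z D t : ℕ) (e : ZMod 2), 2 ≤ x → 2 ≤ Z →
      Squarefree D → D.Coprime 6 → ¬(D = 1 ∧ e = 0) →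
      (((Icc 1 x).filter fun n => Squarefree n ∧ t + omZ Z n ≤ om n ∧ killed Z n D e).card : ℝ) ≤
        c₀ * x * (1 + Real.log D) * (1 + Real.log Z) / 2 ^ t)
    (hY : Y * Y ≤ 2 ^ g) (ht : (t : ℝ) ≤ 98 / 100 * Real.log g) {B D : ℕ} (hB : B ∈ l3aS Z Y)
    (hD : D ∈ l3aS Z Y) (e : ZMod 2) :
    FS C (fun a b _ _ c => if (B.Coprime D ∧ ¬(B * D = 1 ∧ e = 0)) ∧ killed Z a (B * D) e ∧
        B ∣ b ∧ D ∣ c then (1 : ℝ) else 0) ≤
      (c₀ * 2 ^ (C.i + 1) * (1 + 2 * Real.log Y) * (1 + Real.log Z) / 2 ^ t *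
        (C.SP.card * C.SQ.card * (2 * 2 ^ C.j))) * ((B : ℝ)⁻¹ * (D : ℝ)⁻¹) := by
  obtain ⟨hB1, hBs, hB6, -⟩ := mem_filter.1 hB
  obtain ⟨hD1, hDs, hD6, -⟩ := mem_filter.1 hD
  obtain ⟨hB1, hBY⟩ := mem_Icc.1 hB1
  obtain ⟨hD1, hDY⟩ := mem_Icc.1 hD1
  have hY1 : 1 ≤ Y := hB1.trans hBY
  have hlY : 0 ≤ Real.log Y := Real.log_natCast_nonneg _
  have hlZ : 0 ≤ Real.log Z := Real.log_natCast_nonneg _
  by_cases h : B.Coprime D ∧ ¬(B * D = 1 ∧ e = 0)
  swap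
  · have : FS C (fun a b _ _ c => if (B.Coprime D ∧ ¬(B * D = 1 ∧ e = 0)) ∧
        killed Z a (B * D) e ∧ B ∣ b ∧ D ∣ c then (1 : ℝ) else 0) = 0 := by
      unfold FS
      refine sum_eq_zero fun a _ => sum_eq_zero fun b _ => sum_eq_zero fun P _ =>
        sum_eq_zero fun Q _ => sum_eq_zero fun c _ => ?_
      beta_reduce
      split_ifs with h1 h2
      · exact absurd h2.1 h
      · rfl
      · rfl
    rw [this]; positivity
  have hBD : B * D ≤ 2 ^ g := (Nat.mul_le_mul hBY hDY).trans hY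
  have hBDj : B * D ≤ 2 ^ C.j := hBD.trans (Nat.pow_le_pow_right (by norm_num) C.hj)
  set K : ℝ := C.SP.card * C.SQ.card * (2 * 2 ^ C.j) * ((B : ℝ)⁻¹ * (D : ℝ)⁻¹) with hK
  have hK0 : 0 ≤ K := by positivity
  have hSB : C.SB ⊆ Ioc (2 ^ C.j) (2 ^ C.j + 2 ^ C.j) := by
    intro b hb
    obtain ⟨h1, h2, -⟩ := C.hB b hb
    refine mem_Ioc.2 ⟨h1, ?_⟩
    rw [pow_succ] at h2
    omega
  have hQ : ∀ Q ∈ C.SQ, D.Coprime Q := by
    intro Q hQ
    obtain ⟨hp, h1, -⟩ := C.hQ Q hQ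
    have hlt : D < Q := by
      by_contra hle
      have h2 : Q ≤ 2 ^ g := (not_lt.1 hle).trans ((Nat.le_mul_of_pos_left D hB1).trans hBD)
      have h3 : 2 ^ C.j * Q ≤ 2 ^ (2 * g) * 2 ^ g :=
        Nat.mul_le_mul (Nat.pow_le_pow_right (by norm_num) C.hj'.le) h2
      have h4 : 2 ^ (2 * g) * 2 ^ g ≤ XX g := by
        rw [← pow_add]
        exact Nat.pow_le_pow_right (by norm_num) (by omega)
      omega
    exact ((Nat.Prime.coprime_iff_not_dvd hp).2 (Nat.not_dvd_of_pos_of_lt hD1 hlt)).symm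
  have h1 : FS C (fun a b _ _ c => if (B.Coprime D ∧ ¬(B * D = 1 ∧ e = 0)) ∧
      killed Z a (B * D) e ∧ B ∣ b ∧ D ∣ c then (1 : ℝ) else 0) ≤
      ∑ a ∈ C.SA, if killed Z a (B * D) e then K else 0 := by
    unfold FS
    refine sum_le_sum fun a _ => ?_
    by_cases hka : killed Z a (B * D) e
    swap
    · rw [if_neg hka]
      refine le_of_eq (sum_eq_zero fun b _ => sum_eq_zero fun P _ =>
        sum_eq_zero fun Q _ => sum_eq_zero fun c _ => ?_)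
      beta_reduce
      split_ifs with h1 h2
      · exact absurd h2.2.1 hka
      · rfl
      · rfl
    rw [if_pos hka, sum_comm]
    calc _ ≤ ∑ P ∈ C.SP, ∑ Q ∈ C.SQ, (2 * ((2 ^ C.j : ℕ) : ℝ) / (B * D)) := by
          refine sum_le_sum fun P _ => ?_
          rw [sum_comm]
          refine sum_le_sum fun Q hQ' => ?_
          refine le_trans ?_ (l3a_count (N := a * P) C.SB (Icc 1 (4 * XX g)) hSB hB1 hD1 h.1
            (hQ Q hQ') hBDj)
          refine sum_le_sum fun b _ => sum_le_sum fun c _ => ?_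
          beta_reduce
          by_cases h2 : a * P = b * Q + 16 * c ∧ B ∣ b ∧ D ∣ c
          · rw [if_pos h2]
            split_ifs <;> norm_num
          · rw [if_neg h2]
            split_ifs with h3 h4
            · exact absurd ⟨h3.2.1, h4.2.2⟩ h2
            · exact le_rfl
            · exact le_rfl
      _ = K := by
          rw [sum_const, sum_const, nsmul_eq_mul, nsmul_eq_mul, hK]
          push_cast
          rw [div_eq_mul_inv, mul_inv]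
          ring
  have h2 : (∑ a ∈ C.SA, if killed Z a (B * D) e then K else 0) =
      ((C.SA.filter fun a => killed Z a (B * D) e).card : ℝ) * K := by
    rw [← sum_filter, sum_const, nsmul_eq_mul]
  have h3 : (C.SA.filter fun a => killed Z a (B * D) e) ⊆ (Icc 1 (2 ^ (C.i + 1))).filter
      fun n => Squarefree n ∧ t + omZ Z n ≤ om n ∧ killed Z n (B * D) e := by
    intro a ha
    obtain ⟨ha, hka⟩ := mem_filter.1 ha
    obtain ⟨h4, h5, h6⟩ := C.hA a ha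
    refine mem_filter.2 ⟨mem_Icc.2 ⟨by omega, h5⟩, h6.1, ?_, hka⟩
    have h7 := (abs_le.1 h6.2.2.1).1
    have h8 := h6.2.2.2
    have : (t : ℝ) + omZ Z a ≤ om a := by linarith
    exact_mod_cast this
  have hx : 2 ≤ 2 ^ (C.i + 1) := by
    calc 2 = 2 ^ 1 := rfl
      _ ≤ _ := Nat.pow_le_pow_right (by norm_num) (by omega)
  have h4 := hk (2 ^ (C.i + 1)) Z (B * D) t e hx hZ
    (Nat.squarefree_mul_iff.2 ⟨h.1, hBs, hDs⟩) (Nat.Coprime.mul_left hB6 hD6) h.2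
  have h5 : Real.log ((B * D : ℕ) : ℝ) ≤ 2 * Real.log Y := by
    have : ((B * D : ℕ) : ℝ) ≤ (Y : ℝ) ^ 2 := by
      rw [sq]; exact_mod_cast Nat.mul_le_mul hBY hDY
    have h0 : (0 : ℝ) < ((B * D : ℕ) : ℝ) := by exact_mod_cast Nat.mul_pos hB1 hD1
    have := Real.log_le_log h0 this
    rwa [Real.log_pow, Nat.cast_ofNat] at this
  have h6 : ((C.SA.filter fun a => killed Z a (B * D) e).card : ℝ) ≤
      c₀ * 2 ^ (C.i + 1) * (1 + 2 * Real.log Y) * (1 + Real.log Z) / 2 ^ t := by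
    refine le_trans (by exact_mod_cast card_le_card h3) (h4.trans ?_)
    push_cast at h5 ⊢
    gcongr
  calc _ ≤ _ := h1
    _ = _ := h2
    _ ≤ (c₀ * 2 ^ (C.i + 1) * (1 + 2 * Real.log Y) * (1 + Real.log Z) / 2 ^ t) * K :=
        mul_le_mul_of_nonneg_right h6 hK0
    _ = _ := by rw [hK]; ring

/-- The explicit bound. -/
lemma l3a_main {g Z k t : ℕ} {c₀ : ℝ} (C : Cell g Z) (hg : 10 ≤ g) (hZ : 2 ≤ Z) (hc₀ : 0 < c₀)
    (hk : ∀ (x Z D t : ℕ) (e : ZMod 2), 2 ≤ x → 2 ≤ Z →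
      Squarefree D → D.Coprime 6 → ¬(D = 1 ∧ e = 0) →
      (((Icc 1 x).filter fun n => Squarefree n ∧ t + omZ Z n ≤ om n ∧ killed Z n D e).card : ℝ) ≤
        c₀ * x * (1 + Real.log D) * (1 + Real.log Z) / 2 ^ t)
    (hY : Z ^ k * Z ^ k ≤ 2 ^ g) (ht : (t : ℝ) ≤ 98 / 100 * Real.log g)
    (hk' : Real.log g / 100 < k + 1) :
    FS C (fun a b _ _ c => 2 ^ omZ Z a * (n1 Z a b c : ℝ)) ≤
      8 * c₀ * Real.exp 3 ^ 2 * (Real.exp (Real.log g / 100) / 2 ^ t) *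
        (1 + 2 * (k * Real.log Z)) * (1 + Real.log Z) ^ 3 *
        ((2 ^ C.i * C.SP.card) * (2 ^ C.j * C.SQ.card)) := by
  set M : ℝ := Real.exp (Real.log g / 100) with hM
  have hM0 : 0 ≤ M := (Real.exp_pos _).le
  set S := l3aS Z (Z ^ k) with hS
  set W : ℝ := c₀ * 2 ^ (C.i + 1) * (1 + 2 * Real.log ((Z ^ k : ℕ) : ℝ)) * (1 + Real.log Z) /
    2 ^ t * (C.SP.card * C.SQ.card * (2 * 2 ^ C.j)) with hW
  have hlZ : 0 ≤ Real.log Z := Real.log_natCast_nonneg _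
  have hlY : 0 ≤ Real.log ((Z ^ k : ℕ) : ℝ) := Real.log_natCast_nonneg _
  have hW0 : 0 ≤ W := by positivity
  have h1 : FS C (fun a b _ _ c => 2 ^ omZ Z a * (n1 Z a b c : ℝ)) ≤
      FS C (fun a b _ _ c => M * ∑ B ∈ S, ∑ D ∈ S, ∑ e : ZMod 2,
        if (B.Coprime D ∧ ¬(B * D = 1 ∧ e = 0)) ∧ killed Z a (B * D) e ∧ B ∣ b ∧ D ∣ c
        then (1 : ℝ) else 0) := by
    refine FS_mono C fun a ha b hb P hP Q hQ c _ hab he hc => ?_
    have hcop := C.coprime hg ha hb hP hQ hab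
    have hbc : b.Coprime c := by
      have d1 : Nat.gcd b c ∣ b * Q := (Nat.gcd_dvd_left b c).mul_right Q
      have d2 : Nat.gcd b c ∣ a * P := by
        rw [he]
        exact dvd_add d1 ((Nat.gcd_dvd_right b c).mul_left 16)
      exact Nat.eq_one_of_dvd_coprimes hcop d2 d1
    have h2 : (2 : ℝ) ^ omZ Z a ≤ M := by
      have h3 := (C.hA a ha).2.2.2.2.2
      calc (2 : ℝ) ^ omZ Z a ≤ Real.exp 1 ^ omZ Z a := by
            refine pow_le_pow_left₀ (by norm_num) ?_ _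
            have := Real.add_one_le_exp 1
            linarith
        _ = Real.exp (omZ Z a) := by rw [← Real.exp_nat_mul, mul_one]
        _ ≤ M := Real.exp_le_exp.2 h3
    exact mul_le_mul h2 (l3a_point (by omega) (C.hB b hb).2.2 hc hbc hk') (by positivity) hM0
  have h2 : FS C (fun a b _ _ c => ∑ B ∈ S, ∑ D ∈ S, ∑ e : ZMod 2,
        if (B.Coprime D ∧ ¬(B * D = 1 ∧ e = 0)) ∧ killed Z a (B * D) e ∧ B ∣ b ∧ D ∣ c
        then (1 : ℝ) else 0) ≤ 2 * W * (∑ B ∈ S, (B : ℝ)⁻¹) ^ 2 := by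
    have e1 : 2 * W * (∑ B ∈ S, (B : ℝ)⁻¹) ^ 2 =
        ∑ B ∈ S, ∑ D ∈ S, ∑ _e : ZMod 2, W * ((B : ℝ)⁻¹ * (D : ℝ)⁻¹) := by
      rw [sq, sum_mul_sum, mul_sum]
      refine sum_congr rfl fun B _ => ?_
      rw [mul_sum]
      refine sum_congr rfl fun D _ => ?_
      rw [sum_const, card_univ, ZMod.card, nsmul_eq_mul]
      push_cast
      ring
    rw [e1, FS_sum C S fun B a b _ _ c => ∑ D ∈ S, ∑ e : ZMod 2,
        if (B.Coprime D ∧ ¬(B * D = 1 ∧ e = 0)) ∧ killed Z a (B * D) e ∧ B ∣ b ∧ D ∣ c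
        then (1 : ℝ) else 0]
    refine sum_le_sum fun B hB => ?_
    rw [FS_sum C S fun D a b _ _ c => ∑ e : ZMod 2,
        if (B.Coprime D ∧ ¬(B * D = 1 ∧ e = 0)) ∧ killed Z a (B * D) e ∧ B ∣ b ∧ D ∣ c
        then (1 : ℝ) else 0]
    refine sum_le_sum fun D hD => ?_
    rw [FS_sum C univ fun e a b _ _ c =>
        if (B.Coprime D ∧ ¬(B * D = 1 ∧ e = 0)) ∧ killed Z a (B * D) e ∧ B ∣ b ∧ D ∣ c
        then (1 : ℝ) else 0]
    exact sum_le_sum fun e _ => l3a_fix C hZ hc₀ hk hY ht hB hD e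
  have h3 : ∑ B ∈ S, (B : ℝ)⁻¹ ≤ Real.exp 3 * (1 + Real.log Z) :=
    sum_inv_smooth hZ S fun n hn => ⟨(mem_filter.1 hn).2.1, (mem_filter.1 hn).2.2.2⟩
  have h4 : (∑ B ∈ S, (B : ℝ)⁻¹) ^ 2 ≤ (Real.exp 3 * (1 + Real.log Z)) ^ 2 :=
    pow_le_pow_left₀ (sum_nonneg fun _ _ => by positivity) h3 2
  rw [FS_mul] at h1
  calc _ ≤ _ := h1
    _ ≤ M * (2 * W * (Real.exp 3 * (1 + Real.log Z)) ^ 2) := by
        refine mul_le_mul_of_nonneg_left (h2.trans ?_) hM0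
        exact mul_le_mul_of_nonneg_left h4 (by positivity)
    _ = _ := by
        rw [hW, Nat.cast_pow, Real.log_pow]
        ring

theorem sum_n1 {ε : ℝ} (hε : 0 < ε) {kZ : ℕ} (hk : 1 ≤ kZ) :
    ∀ᶠ g : ℕ in atTop, ∀ C : Cell g (g ^ kZ),
    FS C (fun a b _ _ c => 2 ^ omZ (g ^ kZ) a * (n1 (g ^ kZ) a b c : ℝ)) ≤
      ε * (XX g : ℝ) ^ 2 / (g : ℝ) ^ 2 := by
  obtain ⟨c₀, hc₀, hkc⟩ := killed_count
  have hk1 : (1 : ℝ) ≤ kZ := by exact_mod_cast hk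
  have hlog : Tendsto (fun g : ℕ => Real.log g) atTop atTop :=
    Real.tendsto_log_atTop.comp tendsto_natCast_atTop_atTop
  set A : ℝ := 8 * c₀ * Real.exp 3 ^ 2 * Real.exp 1 * 24 * kZ ^ 4 * 32 with hA
  have hA0 : 0 < A := by positivity
  have E1 : ∀ᶠ g : ℕ in atTop, Real.log g ^ 2 ≤ 1 / (4 * kZ) * g := by
    have h := (Real.isLittleO_pow_log_id_atTop (n := 2)).bound
      (c := 1 / (4 * kZ)) (by positivity)
    filter_upwards [tendsto_natCast_atTop_atTop (R := ℝ) |>.eventually h] with g hg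
    rw [Real.norm_of_nonneg (by positivity), id, Real.norm_of_nonneg (Nat.cast_nonneg _)] at hg
    exact hg
  have E2 : ∀ᶠ g : ℕ in atTop, (Real.log g / 2) ^ 5 * Real.exp (-(Real.log g / 2)) ≤ ε / A := by
    have h := (Real.tendsto_pow_mul_exp_neg_atTop_nhds_zero 5).comp
      (hlog.atTop_div_const (r := 2) (by norm_num))
    exact h.eventually (eventually_le_nhds (by positivity))
  filter_upwards [E1, E2, hlog.eventually_ge_atTop 1, eventually_ge_atTop 10, cell_card] with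
    g h1 h2 hL hg hcard C
  set L : ℝ := Real.log g with hLdef
  have hZ : 2 ≤ g ^ kZ := le_trans (by omega) (Nat.le_self_pow (by omega) g)
  have hlZ : Real.log ((g ^ kZ : ℕ) : ℝ) = kZ * L := by rw [Nat.cast_pow, Real.log_pow]
  set k : ℕ := ⌊L / 100⌋₊ with hkdef
  set t : ℕ := ⌊98 / 100 * L⌋₊ with htdef
  have hk0 : (k : ℝ) ≤ L / 100 := Nat.floor_le (by positivity)
  have hk' : L / 100 < k + 1 := Nat.lt_floor_add_one _
  have ht0 : (t : ℝ) ≤ 98 / 100 * L := Nat.floor_le (by positivity)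
  have ht' : 98 / 100 * L < t + 1 := Nat.lt_floor_add_one _
  have hl2 := Real.log_two_gt_d9
  have hkL : (k : ℝ) * (kZ * L) ≤ kZ * L ^ 2 := by
    have : (k : ℝ) ≤ L := by linarith
    calc (k : ℝ) * (kZ * L) ≤ L * (kZ * L) := mul_le_mul_of_nonneg_right this (by positivity)
      _ = _ := by ring
  have hY : (g ^ kZ) ^ k * (g ^ kZ) ^ k ≤ 2 ^ g := by
    have h0 : (0 : ℝ) < ((g ^ kZ : ℕ) : ℝ) := by exact_mod_cast (by omega : 0 < g ^ kZ)
    have h3 : (((g ^ kZ : ℕ) : ℝ)) ^ (k + k) ≤ 2 ^ g := by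
      rw [← Real.log_le_log_iff (by positivity) (by positivity), Real.log_pow, Real.log_pow, hlZ]
      have h4 : kZ * L ^ 2 ≤ g / 4 := by
        calc kZ * L ^ 2 ≤ kZ * (1 / (4 * kZ) * g) := mul_le_mul_of_nonneg_left h1 (by positivity)
          _ = g / 4 := by field_simp
      have h5 : (g : ℝ) * (1 / 2) ≤ g * Real.log 2 :=
        mul_le_mul_of_nonneg_left (by linarith) (Nat.cast_nonneg _)
      push_cast
      linarith
    rw [← pow_add]
    exact_mod_cast h3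
  have hm := l3a_main C hg hZ hc₀ hkc hY ht0 hk'
  rw [hlZ] at hm
  obtain ⟨c1, c2, -⟩ := hcard _ C
  have hg0 : (0 : ℝ) < g := by exact_mod_cast (by omega : 0 < g)
  have b1 : ((2 : ℝ) ^ C.i * C.SP.card) * (2 ^ C.j * C.SQ.card) ≤ (XX g : ℝ) ^ 2 / (g : ℝ) ^ 2 := by
    calc _ ≤ (2 * XX g / g : ℝ) * (XX g / (2 * g)) :=
          mul_le_mul c1 c2 (by positivity) (by positivity)
      _ = _ := by field_simp
  have b2 : Real.exp (L / 100) / 2 ^ t ≤ Real.exp 1 * Real.exp (-(L / 2)) := by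
    have e2 : (2 : ℝ) ^ t = Real.exp (t * Real.log 2) := by
      rw [Real.exp_nat_mul, Real.exp_log (by norm_num)]
    rw [e2, ← Real.exp_sub, ← Real.exp_add, Real.exp_le_exp]
    have : (t : ℝ) * (69 / 100) ≤ t * Real.log 2 :=
      mul_le_mul_of_nonneg_left (by linarith) (Nat.cast_nonneg _)
    linarith
  have hkL1 : 1 ≤ kZ * L := one_le_mul_of_one_le_of_one_le hk1 hL
  have b3 : 1 + 2 * ((k : ℝ) * (kZ * L)) ≤ 3 * (kZ * L ^ 2) := by
    have : kZ * L * 1 ≤ kZ * L * L := mul_le_mul_of_nonneg_left hL (by positivity)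
    nlinarith
  have b4 : (1 + kZ * L) ^ 3 ≤ (2 * (kZ * L)) ^ 3 :=
    pow_le_pow_left₀ (by positivity) (by linarith) 3
  have b5 : A * ((L / 2) ^ 5 * Real.exp (-(L / 2))) ≤ ε := by
    rw [le_div_iff₀ hA0] at h2
    linarith
  calc _ ≤ _ := hm
    _ ≤ 8 * c₀ * Real.exp 3 ^ 2 * (Real.exp 1 * Real.exp (-(L / 2))) * (3 * (kZ * L ^ 2)) *
        (2 * (kZ * L)) ^ 3 * ((XX g : ℝ) ^ 2 / (g : ℝ) ^ 2) := by gcongr
    _ = A * ((L / 2) ^ 5 * Real.exp (-(L / 2))) * ((XX g : ℝ) ^ 2 / (g : ℝ) ^ 2) := by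
        rw [hA]; ring
    _ ≤ ε * ((XX g : ℝ) ^ 2 / (g : ℝ) ^ 2) := mul_le_mul_of_nonneg_right b5 (by positivity)
    _ = _ := by ring

end Pool.Agent.Lib.MP_788af2_nt.R0
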