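import Pool.Agent.Lib.MP_788af2_nt.R0.Rows

namespace Pool.Agent.Lib.MP_788af2_nt.R0

open Finset Filter
open scoped NumberTheorySymbols

/-! Small kernel vectors. -/

lemma nsle_big {Z m n : ℕ} (hn : n ≠ 0) (hm : m ∣ n) (h : ¬big Z n) : ¬big Z m := by
  rintro ⟨p, hp, hZ⟩
  exact h ⟨p, Nat.primeFactors_mono hm hn hp, hZ⟩

lemma nsle_small {n : ℕ} (hn : Squarefree n) (Z : ℕ) :
    (n.divisors.filter fun A => ¬big Z A).card ≤ 2 ^ omZ Z n := by
  unfold omZ
  rw [← card_powerset]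
  refine card_le_card_of_injOn Nat.primeFactors ?_ ?_
  · intro A hA
    rw [coe_filter] at hA
    obtain ⟨h1, h2⟩ := hA
    rw [mem_coe, mem_powerset]
    intro p hp
    refine mem_filter.2 ⟨Nat.primeFactors_mono (Nat.dvd_of_mem_divisors h1) hn.ne_zero hp, ?_⟩
    by_contra h3
    exact h2 ⟨p, hp, not_le.1 h3⟩
  · intro A hA B hB hAB
    rw [coe_filter] at hA hB
    rw [← Nat.prod_primeFactors_of_squarefree
      (hn.squarefree_of_dvd (Nat.dvd_of_mem_divisors hA.1)), hAB,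
      Nat.prod_primeFactors_of_squarefree (hn.squarefree_of_dvd (Nat.dvd_of_mem_divisors hB.1))]

lemma nsle_lj_one (a : ℕ) : lj a 1 = 0 := by simp [lj]

lemma nsle_lam_one : lam 1 = 0 := by simp [lam]

theorem NS_le {a1 b1 P Q c : ℕ} (h : Adm a1 b1 P Q c) (Z : ℕ) :
    NS Z a1 b1 c (a1 * P) ≤ 1 + 2 ^ omZ Z a1 * n1 Z a1 b1 c + n2 Z a1 b1 := by
  classical
  obtain ⟨hsq, oa, ob, oc, -, -, cab, cac, cbc, -, -⟩ := h.facts
  have h0 : a1 * b1 * c ≠ 0 := hsq.ne_zero
  have ha0 : a1 ≠ 0 := fun e => h0 (by simp [e])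
  have hb0 : b1 ≠ 0 := fun e => h0 (by simp [e])
  have hc0 : c ≠ 0 := fun e => h0 (by simp [e])
  have da : a1 ∣ a1 * b1 * c := (dvd_mul_right _ _).mul_right _
  have db : b1 ∣ a1 * b1 * c := (dvd_mul_left _ _).mul_right _
  set N1 : Finset (ℕ × ℕ × ZMod 2) := (b1.divisors ×ˢ c.divisors ×ˢ univ).filter fun t =>
    ¬big Z t.1 ∧ ¬big Z t.2.1 ∧ ¬(t.1 * t.2.1 = 1 ∧ t.2.2 = 0) ∧ killed Z a1 (t.1 * t.2.1) t.2.2
    with hN1
  set N2 : Finset ℕ := a1.divisors.filter fun A => ¬big Z A ∧ A ≠ 1 ∧ killed Z b1 A (lam A)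
    with hN2
  set N0 : Finset ℕ := a1.divisors.filter fun A => ¬big Z A with hN0
  have e1 : N1.card = n1 Z a1 b1 c := by
    rw [hN1, card_filter, sum_product]
    refine sum_congr rfl fun B _ => ?_
    rw [sum_product]
  have e2 : N2.card = n2 Z a1 b1 := by rw [hN2, card_filter]; rfl
  have e0 : N0.card ≤ 2 ^ omZ Z a1 := nsle_small (hsq.squarefree_of_dvd da) Z
  have hsub : ((Sm a1 b1 c Z).filter fun x => (mat a1 b1 c (a1 * P)).mulVec x = 0) ⊆
      ({0} ∪ (N0 ×ˢ N1).image fun t => vecD a1 b1 c t.2.2.2 (t.1 * t.2.1 * t.2.2.1)) ∪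
        N2.image fun A => vecD a1 b1 c 0 (A * 1 * 1) := by
    intro x hx
    obtain ⟨hS, hK⟩ := mem_filter.1 hx
    obtain ⟨A, B, C, hA, hB, hC, hxe⟩ := h.exists_vecD x
    generalize x none = e at hxe
    subst hxe
    have hd : A * B * C ∣ a1 * b1 * c := mul_dvd_mul (mul_dvd_mul hA hB) hC
    have hd0 : A * B * C ≠ 0 := ne_zero_of_dvd_ne_zero h0 hd
    rw [h.vecD_mem_Sm hd] at hS
    have sA : ¬big Z A := nsle_big hd0 ((dvd_mul_right _ _).mul_right _) hS
    have sB : ¬big Z B := nsle_big hd0 ((dvd_mul_left _ _).mul_right _) hS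
    have sC : ¬big Z C := nsle_big hd0 (dvd_mul_left _ _) hS
    have hA0 : A ≠ 0 := ne_zero_of_dvd_ne_zero ha0 hA
    have hB0 : B ≠ 0 := ne_zero_of_dvd_ne_zero hb0 hB
    have hC0 : C ≠ 0 := ne_zero_of_dvd_ne_zero hc0 hC
    by_cases hBC : B * C = 1 ∧ e = 0
    · obtain ⟨h1, rfl⟩ := hBC
      obtain rfl : B = 1 := Nat.eq_one_of_mul_eq_one_right h1
      obtain rfl : C = 1 := Nat.eq_one_of_mul_eq_one_left h1
      by_cases hA1 : A = 1
      · subst hA1
        refine mem_union_left _ (mem_union_left _ (mem_singleton.2 ?_))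
        exact (h.vecD_eq_zero hd).2 ⟨rfl, rfl⟩
      · refine mem_union_right _ (mem_image.2 ⟨A, mem_filter.2
          ⟨Nat.mem_divisors.2 ⟨hA, ha0⟩, sA, hA1, fun p hp hZ => ?_⟩, rfl⟩)
        have pp := Nat.prime_of_mem_primeFactors hp
        have pb := Nat.dvd_of_mem_primeFactors hp
        have cp : A.Coprime p := (cab.coprime_dvd_left hA).coprime_dvd_right pb
        have hr := h.row_b (a1 * P) 0 hA hB hC ⟨p, Nat.primeFactors_mono db h0 hp⟩ pb
        rw [hK] at hr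
        simp only [Pi.zero_apply, zero_mul, zero_add, nsle_lj_one, nsle_lam_one, mul_zero,
          add_zero, Nat.dvd_one, pp.ne_one, if_false] at hr
        rw [lj_recip (oa.of_dvd_nat hA) (ob.of_dvd_nat pb) cp] at hr
        exact ⟨hr.symm, cp.symm⟩
    · refine mem_union_left _ (mem_union_right _ (mem_image.2 ⟨(A, B, C, e), mem_product.2
        ⟨mem_filter.2 ⟨Nat.mem_divisors.2 ⟨hA, ha0⟩, sA⟩, mem_filter.2
          ⟨mem_product.2 ⟨Nat.mem_divisors.2 ⟨hB, hb0⟩, mem_product.2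
            ⟨Nat.mem_divisors.2 ⟨hC, hc0⟩, mem_univ _⟩⟩, sB, sC, hBC, fun p hp hZ => ?_⟩⟩, rfl⟩))
      have pp := Nat.prime_of_mem_primeFactors hp
      have pa := Nat.dvd_of_mem_primeFactors hp
      have cB : p.Coprime B := (cab.coprime_dvd_left pa).coprime_dvd_right hB
      have cC : p.Coprime C := (cac.coprime_dvd_left pa).coprime_dvd_right hC
      have nA : ¬p ∣ A := fun hpA => sA ⟨p, Nat.mem_primeFactors.2 ⟨pp, hpA, hA0⟩, hZ⟩
      have hr := h.row_a (a1 * P) e hA hB hC ⟨p, Nat.primeFactors_mono da h0 hp⟩ pa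
      rw [hK] at hr
      simp only [Pi.zero_apply, nA, if_false, add_zero] at hr
      refine ⟨?_, Nat.Coprime.mul_right cB cC⟩
      show lj p (B * C) + e * lam p = 0
      rw [lj_mul_right hB0 hC0 cB cC, hr]
      ring
  refine (card_le_card hsub).trans ((card_union_le _ _).trans (add_le_add
    ((card_union_le _ _).trans (add_le_add (card_singleton _).le (card_image_le.trans ?_)))
    (card_image_le.trans e2.le)))
  rw [card_product, e1]
  exact Nat.mul_le_mul_right _ e0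

end Pool.Agent.Lib.MP_788af2_nt.R0
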