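import Pool.Agent.Lib.MP_788af2_nt.R0.L3a
import Pool.Agent.Lib.MP_788af2_nt.R0.NSle

namespace Pool.Agent.Lib.MP_788af2_nt.R0

open Finset Filter
open scoped NumberTheorySymbols

/-! Small kernel vectors are rare, second part. -/

lemma l3b_sub {Z a A : ℕ} (ha : a ≠ 0) (hA : A ∣ a) (hb : ¬big Z A) :
    A.primeFactors ⊆ a.primeFactors.filter (· ≤ Z) := by
  intro p hp
  refine mem_filter.2 ⟨Nat.primeFactors_mono hA ha hp, ?_⟩
  by_contra h
  exact hb ⟨p, hp, not_le.1 h⟩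

lemma l3b_card {Z a : ℕ} (ha : Squarefree a) :
    (a.divisors.filter fun A => ¬big Z A).card ≤ 2 ^ omZ Z a := by
  unfold omZ
  rw [← card_powerset]
  refine card_le_card_of_injOn (fun A => A.primeFactors) ?_ ?_
  · intro A hA
    have h := mem_filter.1 (mem_coe.1 hA)
    exact mem_coe.2 (mem_powerset.2 (l3b_sub ha.ne_zero (Nat.dvd_of_mem_divisors h.1) h.2))
  · intro A hA B hB hAB
    have h1 := (mem_filter.1 (mem_coe.1 hA)).1
    have h2 := (mem_filter.1 (mem_coe.1 hB)).1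
    have e : A.primeFactors = B.primeFactors := hAB
    rw [← Nat.prod_primeFactors_of_squarefree
        (ha.squarefree_of_dvd (Nat.dvd_of_mem_divisors h1)),
      ← Nat.prod_primeFactors_of_squarefree
        (ha.squarefree_of_dvd (Nat.dvd_of_mem_divisors h2)), e]

lemma l3b_le_pow {Z a A : ℕ} (hZ : 1 ≤ Z) (ha : Squarefree a) (hA : A ∣ a) (hb : ¬big Z A) :
    A ≤ Z ^ omZ Z a := by
  have hs := l3b_sub ha.ne_zero hA hb
  calc A = ∏ p ∈ A.primeFactors, p :=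
        (Nat.prod_primeFactors_of_squarefree (ha.squarefree_of_dvd hA)).symm
    _ ≤ Z ^ A.primeFactors.card :=
        prod_le_pow_card _ _ _ fun p hp => (mem_filter.1 (hs hp)).2
    _ ≤ Z ^ omZ Z a := Nat.pow_le_pow_right hZ (card_le_card hs)

lemma l3b_FS_le {g Z : ℕ} (C : Cell g Z) (f : ℕ → ℕ → ℝ) (hf : ∀ a b, 0 ≤ f a b) :
    FS C (fun a b _ _ _ => f a b) ≤
      (C.SP.card * C.SQ.card : ℝ) * ∑ a ∈ C.SA, ∑ b ∈ C.SB, f a b := by
  unfold FS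
  rw [mul_sum]
  refine sum_le_sum fun a _ => ?_
  rw [mul_sum]
  refine sum_le_sum fun b _ => ?_
  have key : ∀ P Q : ℕ, ∑ c ∈ Icc 1 (4 * XX g),
      (if a.Coprime b ∧ a * P = b * Q + 16 * c ∧ typ g Z c then f a b else 0) ≤ f a b := by
    intro P Q
    rw [← sum_filter, sum_const, nsmul_eq_mul]
    have h1 : ((Icc 1 (4 * XX g)).filter fun c =>
        a.Coprime b ∧ a * P = b * Q + 16 * c ∧ typ g Z c).card ≤ 1 := by
      refine card_le_one.2 fun c hc c' hc' => ?_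
      have e1 := (mem_filter.1 hc).2.2.1
      have e2 := (mem_filter.1 hc').2.2.1
      omega
    have h2 : (((Icc 1 (4 * XX g)).filter fun c =>
        a.Coprime b ∧ a * P = b * Q + 16 * c ∧ typ g Z c).card : ℝ) ≤ 1 := by exact_mod_cast h1
    nlinarith [hf a b]
  calc _ ≤ ∑ _P ∈ C.SP, ∑ _Q ∈ C.SQ, f a b :=
        sum_le_sum fun P _ => sum_le_sum fun Q _ => key P Q
    _ = _ := by simp only [sum_const, nsmul_eq_mul]; ring

lemma l3b_ratio {L : ℝ} (hL : 0 ≤ L) {m : ℕ} (hm : (m : ℝ) ≤ L / 100) :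
    (2 : ℝ) ^ m / 2 ^ ⌊0.98 * L⌋₊ ≤ 2 * Real.exp (-(0.6 * L)) := by
  have h2 : (0.69 : ℝ) ≤ Real.log 2 := by have := Real.log_two_gt_d9; linarith
  have e : ∀ n : ℕ, (2 : ℝ) ^ n = Real.exp (n * Real.log 2) := fun n => by
    rw [Real.exp_nat_mul, Real.exp_log two_pos]
  have ht : 0.98 * L - 1 ≤ (⌊0.98 * L⌋₊ : ℝ) := (Nat.sub_one_lt_floor _).le
  have e2 : 2 * Real.exp (-(0.6 * L)) = Real.exp (Real.log 2 + -(0.6 * L)) := by
    rw [Real.exp_add, Real.exp_log two_pos]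
  rw [e m, e, ← Real.exp_sub, e2]
  refine Real.exp_le_exp.2 ?_
  nlinarith [mul_nonneg (sub_nonneg.2 hm) (by linarith : (0 : ℝ) ≤ Real.log 2),
    mul_nonneg (sub_nonneg.2 ht) (by linarith : (0 : ℝ) ≤ Real.log 2),
    mul_nonneg hL (sub_nonneg.2 h2)]

lemma l3b_ev (K : ℝ) {ε : ℝ} (hε : 0 < ε) (hK : 0 < K) :
    ∀ᶠ g : ℕ in atTop, K * Real.log g ^ 3 * Real.exp (-(0.6 * Real.log g)) ≤ ε := by
  have h := (isLittleO_pow_exp_pos_mul_atTop 3 (b := 0.6) (by norm_num)).def (div_pos hε hK)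
  have h2 := (Real.tendsto_log_atTop.comp tendsto_natCast_atTop_atTop).eventually h
  filter_upwards [h2] with g hg
  simp only [Function.comp, Real.norm_eq_abs, abs_of_pos (Real.exp_pos _)] at hg
  have h3 : Real.log g ^ 3 ≤ ε / K * Real.exp (0.6 * Real.log g) := (le_abs_self _).trans hg
  rw [Real.exp_neg, ← div_eq_mul_inv, div_le_iff₀ (Real.exp_pos _)]
  calc K * Real.log g ^ 3 ≤ K * (ε / K * Real.exp (0.6 * Real.log g)) := by gcongr
    _ = ε * Real.exp (0.6 * Real.log g) := by field_simp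

theorem sum_n2 {ε : ℝ} (hε : 0 < ε) {kZ : ℕ} (hk : 1 ≤ kZ) :
    ∀ᶠ g : ℕ in atTop, ∀ C : Cell g (g ^ kZ),
    FS C (fun a b _ _ _ => (n2 (g ^ kZ) a b : ℝ)) ≤ ε * (XX g : ℝ) ^ 2 / (g : ℝ) ^ 2 := by
  obtain ⟨c, hc, hkc⟩ := killed_count
  have hk' : (1 : ℝ) ≤ kZ := by exact_mod_cast hk
  filter_upwards [cell_card, l3b_ev (16 * c * kZ ^ 2) hε (by positivity), eventually_ge_atTop 3]
    with g hcard hev hg
  obtain ⟨Z, hZ⟩ : ∃ Z, Z = g ^ kZ := ⟨_, rfl⟩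
  rw [← hZ]
  intro C
  set L := Real.log g with hL
  have hg' : (3 : ℝ) ≤ g := by exact_mod_cast hg
  have hL1 : 1 ≤ L := by
    rw [hL, Real.le_log_iff_exp_le (by linarith)]
    have := Real.exp_one_lt_d9
    linarith
  have hZ2 : 2 ≤ Z := by
    rw [hZ]
    calc 2 ≤ g ^ 1 := by rw [pow_one]; omega
      _ ≤ g ^ kZ := Nat.pow_le_pow_right (by omega) hk
  have hlogZ : Real.log (Z : ℝ) = kZ * L := by rw [hZ, Nat.cast_pow, Real.log_pow]
  set t := ⌊0.98 * L⌋₊ with ht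
  set K : ℝ := c * 2 ^ (C.j + 1) * (2 * kZ * L ^ 2) * (2 * kZ * L) / 2 ^ t with hK
  have hK0 : 0 ≤ K := by positivity
  have hin : ∀ a ∈ C.SA, ∑ b ∈ C.SB, (n2 Z a b : ℝ) ≤ 2 ^ omZ Z a * K := by
    intro a ha
    obtain ⟨-, -, hsq, h6, -, hz⟩ := C.hA a ha
    have e1 : ∑ b ∈ C.SB, (n2 Z a b : ℝ) = ∑ A ∈ a.divisors,
        ∑ b ∈ C.SB, (if ¬big Z A ∧ A ≠ 1 ∧ killed Z b A (lam A) then (1 : ℝ) else 0) := by
      rw [sum_comm]
      refine sum_congr rfl fun b _ => ?_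
      unfold n2
      push_cast
      rfl
    rw [e1]
    have h2 : ∀ A ∈ a.divisors,
        ∑ b ∈ C.SB, (if ¬big Z A ∧ A ≠ 1 ∧ killed Z b A (lam A) then (1 : ℝ) else 0) ≤
          if ¬big Z A then K else 0 := by
      intro A hA
      have hAa := Nat.dvd_of_mem_divisors hA
      by_cases hb : big Z A
      · simp [hb]
      by_cases h1 : A = 1
      · simp [h1, hK0, apply_ite]
      simp only [hb, not_false_eq_true, ne_eq, h1, true_and, if_true]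
      rw [sum_boole]
      have hsub : (C.SB.filter fun b => killed Z b A (lam A)) ⊆
          (Icc 1 (2 ^ (C.j + 1))).filter fun n =>
            Squarefree n ∧ t + omZ Z n ≤ om n ∧ killed Z n A (lam A) := by
        intro b hb'
        obtain ⟨hb1, hb2⟩ := mem_filter.1 hb'
        obtain ⟨l1, l2, s1, -, s3, s4⟩ := C.hB b hb1
        refine mem_filter.2 ⟨mem_Icc.2 ⟨by omega, l2⟩, s1, ?_, hb2⟩
        have h4 : (t : ℝ) ≤ 0.98 * L := Nat.floor_le (by linarith)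
        have h5 := (abs_le.1 s3).1
        have h6 : (t : ℝ) + omZ Z b ≤ om b := by linarith
        exact_mod_cast h6
      have h3 := hkc (2 ^ (C.j + 1)) Z A t (lam A)
        (by calc 2 = 2 ^ 1 := rfl
              _ ≤ 2 ^ (C.j + 1) := Nat.pow_le_pow_right two_pos (by omega))
        hZ2 (hsq.squarefree_of_dvd hAa) (Nat.Coprime.coprime_dvd_left hAa h6) (fun h => h1 h.1)
      have hA0 : 0 < A := Nat.pos_of_mem_divisors hA
      have hlogA : Real.log (A : ℝ) ≤ kZ * L ^ 2 := by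
        have h7 : (A : ℝ) ≤ (Z : ℝ) ^ omZ Z a := by
          exact_mod_cast l3b_le_pow (by omega) hsq hAa hb
        have h8 := Real.log_le_log (by exact_mod_cast hA0) h7
        rw [Real.log_pow, hlogZ] at h8
        have h9 : (omZ Z a : ℝ) ≤ L := by linarith
        have h10 : 0 ≤ (kZ : ℝ) * L := by positivity
        nlinarith
      have hlA0 : 0 ≤ Real.log (A : ℝ) := Real.log_natCast_nonneg A
      have b1 : 1 + Real.log (A : ℝ) ≤ 2 * kZ * L ^ 2 := by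
        have : (1 : ℝ) ≤ kZ * L ^ 2 := by nlinarith
        linarith
      have b2 : 1 + Real.log (Z : ℝ) ≤ 2 * kZ * L := by
        rw [hlogZ]
        have : (1 : ℝ) ≤ kZ * L := by nlinarith
        linarith
      have b3 : 0 ≤ 1 + Real.log (Z : ℝ) := by
        have := Real.log_natCast_nonneg Z
        linarith
      calc _ ≤ _ := by exact_mod_cast card_le_card hsub
        _ ≤ _ := h3
        _ ≤ K := by
          rw [hK]
          push_cast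
          gcongr
    refine (sum_le_sum h2).trans ?_
    rw [← sum_filter, sum_const, nsmul_eq_mul]
    have h3 : ((a.divisors.filter fun A => ¬big Z A).card : ℝ) ≤ 2 ^ omZ Z a := by
      exact_mod_cast l3b_card hsq
    exact mul_le_mul_of_nonneg_right h3 hK0
  have hin2 : ∀ a ∈ C.SA, ∑ b ∈ C.SB, (n2 Z a b : ℝ) ≤ 2 ^ C.j * ε := by
    intro a ha
    obtain ⟨-, -, -, -, -, hz⟩ := C.hA a ha
    refine (hin a ha).trans ?_
    have h1 := l3b_ratio (by linarith : 0 ≤ L) hz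
    calc 2 ^ omZ Z a * K
        = 2 ^ C.j * (8 * c * kZ ^ 2 * L ^ 3) * (2 ^ omZ Z a / 2 ^ t) := by rw [hK]; ring
      _ ≤ 2 ^ C.j * (8 * c * kZ ^ 2 * L ^ 3) * (2 * Real.exp (-(0.6 * L))) := by gcongr
      _ = 2 ^ C.j * (16 * c * kZ ^ 2 * L ^ 3 * Real.exp (-(0.6 * L))) := by ring
      _ ≤ 2 ^ C.j * ε := by gcongr
  refine (l3b_FS_le C (fun a b => (n2 Z a b : ℝ)) fun _ _ => Nat.cast_nonneg _).trans ?_
  have h1 : ∑ a ∈ C.SA, ∑ b ∈ C.SB, (n2 Z a b : ℝ) ≤ 2 ^ C.i * (2 ^ C.j * ε) := by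
    refine (sum_le_card_nsmul _ _ _ hin2).trans ?_
    rw [nsmul_eq_mul]
    have : (C.SA.card : ℝ) ≤ 2 ^ C.i := by exact_mod_cast C.card_SA
    gcongr
  obtain ⟨c1, c2, -⟩ := hcard Z C
  calc _ ≤ (C.SP.card * C.SQ.card : ℝ) * (2 ^ C.i * (2 ^ C.j * ε)) := by gcongr
    _ = ε * ((2 ^ C.i * C.SP.card) * (2 ^ C.j * C.SQ.card)) := by ring
    _ ≤ ε * ((2 * XX g / g) * (XX g / (2 * g))) := by gcongr
    _ = _ := by field_simp

theorem sum_NS {ε : ℝ} (hε : 0 < ε) {kZ : ℕ} (hk : 1 ≤ kZ) :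
    ∀ᶠ g : ℕ in atTop, ∀ C : Cell g (g ^ kZ),
    FS C (fun a b P _ c => WW g c * ((NS (g ^ kZ) a b c (a * P) : ℝ) - 1)) ≤
      ε * (XX g : ℝ) ^ 2 / (g : ℝ) ^ 2 := by
  have hε8 : 0 < ε / 8 := by positivity
  filter_upwards [sum_n1 hε8 hk, sum_n2 hε8 hk, eventually_ge_atTop 10] with g h1 h2 hg C
  have hm : FS C (fun a b P _ c => WW g c * ((NS (g ^ kZ) a b c (a * P) : ℝ) - 1)) ≤
      FS C (fun a b _ _ c => 4 * (2 ^ omZ (g ^ kZ) a * (n1 (g ^ kZ) a b c : ℝ)) +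
        4 * (n2 (g ^ kZ) a b : ℝ)) := by
    refine FS_mono C fun a ha b hb P hP Q hQ c hc hab he ht => ?_
    have hadm := C.adm hg ha hb hP hQ hab he ht.1
    have hN : (NS (g ^ kZ) a b c (a * P) : ℝ) ≤
        1 + 2 ^ omZ (g ^ kZ) a * (n1 (g ^ kZ) a b c : ℝ) + n2 (g ^ kZ) a b := by
      exact_mod_cast NS_le hadm (g ^ kZ)
    have hW : (WW g c : ℝ) ≤ 4 := by
      exact_mod_cast WW_le (by omega) (mem_Icc.1 hc).1 (mem_Icc.1 hc).2
    have hW0 : (0 : ℝ) ≤ WW g c := Nat.cast_nonneg _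
    have hR : (0 : ℝ) ≤ 2 ^ omZ (g ^ kZ) a * (n1 (g ^ kZ) a b c : ℝ) + n2 (g ^ kZ) a b := by
      positivity
    nlinarith [mul_nonneg hW0 (sub_nonneg.2 hN), mul_nonneg (sub_nonneg.2 hW) hR]
  refine hm.trans ?_
  rw [FS_add C (fun a b _ _ c => 4 * (2 ^ omZ (g ^ kZ) a * (n1 (g ^ kZ) a b c : ℝ)))
      (fun a b _ _ _ => 4 * (n2 (g ^ kZ) a b : ℝ)),
    FS_mul C 4 (fun a b _ _ c => 2 ^ omZ (g ^ kZ) a * (n1 (g ^ kZ) a b c : ℝ)),
    FS_mul C 4 (fun a b _ _ _ => (n2 (g ^ kZ) a b : ℝ))]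
  have e : ε * (XX g : ℝ) ^ 2 / (g : ℝ) ^ 2 = 4 * (ε / 8 * (XX g : ℝ) ^ 2 / (g : ℝ) ^ 2) +
      4 * (ε / 8 * (XX g : ℝ) ^ 2 / (g : ℝ) ^ 2) := by ring
  rw [e]
  have := h1 C
  have := h2 C
  linarith

end Pool.Agent.Lib.MP_788af2_nt.R0
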