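import Pool.Agent.Lib.MP_788af2_nt.R0.PL

namespace Pool.Agent.Lib.MP_788af2_nt.R0

open Finset Filter
open scoped NumberTheorySymbols

/-! The large sieve inequality. -/

lemma ls_inv_sq (s : Finset ℕ) {k : ℕ} (hk : 0 < k) (hs : ∀ n ∈ s, k < n) :
    ∑ n ∈ s, 1 / (n : ℝ) ^ 2 ≤ 1 / (k : ℝ) := by
  have h1 : ∀ N : ℕ, ∑ n ∈ Ioc k (k + N), 1 / (n : ℝ) ^ 2 ≤ 1 / k - 1 / ((k + N : ℕ) : ℝ) := by
    intro N
    induction N with
    | zero => simp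
    | succ N ih =>
      rw [← add_assoc, sum_Ioc_succ_top (Nat.le_add_right k N)]
      have h0 : (0 : ℝ) < ((k + N : ℕ) : ℝ) := by exact_mod_cast Nat.add_pos_left hk N
      have h2 : 1 / (((k + N + 1 : ℕ) : ℝ)) ^ 2 ≤
          1 / ((k + N : ℕ) : ℝ) - 1 / ((k + N + 1 : ℕ) : ℝ) := by
        rw [Nat.cast_add_one (k + N), div_sub_div _ _ h0.ne' (by positivity),
          div_le_div_iff₀ (by positivity) (by positivity)]
        nlinarith
      linarith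
  have h3 : s ⊆ Ioc k (k + s.sup id) := fun n hn =>
    mem_Ioc.2 ⟨hs n hn, (le_sup (f := id) hn).trans (Nat.le_add_left _ _)⟩
  refine (sum_le_sum_of_subset_of_nonneg h3 fun _ _ _ => by positivity).trans ((h1 _).trans ?_)
  have : (0 : ℝ) ≤ 1 / ((k + s.sup id : ℕ) : ℝ) := by positivity
  linarith

lemma ls_side {ι : Type} (T : Finset ι) (u f : ι → ℝ) {δ a b : ℝ} (hδ : 0 < δ) (ha : 0 ≤ a)
    (hb : 0 ≤ b) {k : ℕ} (hk : 0 < k) (hu : ∀ i ∈ T, 0 ≤ u i)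
    (hs : ∀ i ∈ T, ∀ j ∈ T, i ≠ j → δ ≤ |u i - u j|) (h1 : ∀ i ∈ T, f i ≤ a)
    (h2 : ∀ i ∈ T, 0 < u i → f i ≤ b / u i ^ 2) :
    ∑ i ∈ T, f i ≤ a * (k + 1) + b / δ ^ 2 * (1 / k) := by
  classical
  set m : ι → ℕ := fun i => ⌊u i / δ⌋₊ with hm
  have hlo : ∀ i ∈ T, (m i : ℝ) * δ ≤ u i := fun i hi =>
    (le_div_iff₀ hδ).1 (Nat.floor_le (div_nonneg (hu i hi) hδ.le))
  have hhi : ∀ i, u i < ((m i : ℝ) + 1) * δ := fun i =>
    (div_lt_iff₀ hδ).1 (Nat.lt_floor_add_one _)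
  have hinj : Set.InjOn m T := by
    intro i hi j hj hij
    by_contra hne
    have h3 := hs i hi j hj hne
    have h4 := hlo i hi
    have h5 := hlo j hj
    have h6 := hhi i
    have h7 := hhi j
    rw [hij] at h4 h6
    have : |u i - u j| < δ := abs_lt.2 ⟨by linarith, by linarith⟩
    linarith
  rw [← sum_filter_add_sum_filter_not T fun i => m i ≤ k]
  refine add_le_add ?_ ?_
  · have hc : (T.filter fun i => m i ≤ k).card ≤ k + 1 := by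
      rw [← card_range (k + 1)]
      refine card_le_card_of_injOn m (fun i hi => ?_) (hinj.mono (coe_subset.2 (filter_subset _ _)))
      have := (mem_filter.1 (mem_coe.1 hi)).2
      exact mem_coe.2 (mem_range.2 (by omega))
    have hc' : ((T.filter fun i => m i ≤ k).card : ℝ) ≤ k + 1 := by exact_mod_cast hc
    calc ∑ i ∈ T.filter fun i => m i ≤ k, f i ≤ ∑ _i ∈ T.filter fun i => m i ≤ k, a :=
          sum_le_sum fun i hi => h1 i (mem_filter.1 hi).1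
      _ = (T.filter fun i => m i ≤ k).card * a := by rw [sum_const, nsmul_eq_mul]
      _ ≤ a * (k + 1) := by nlinarith
  · calc ∑ i ∈ T.filter fun i => ¬m i ≤ k, f i
        ≤ ∑ i ∈ T.filter fun i => ¬m i ≤ k, b / δ ^ 2 * (1 / (m i : ℝ) ^ 2) := by
          refine sum_le_sum fun i hi => ?_
          obtain ⟨hi1, hi2⟩ := mem_filter.1 hi
          have hm0 : (0 : ℝ) < m i := by exact_mod_cast (by omega : 0 < m i)
          have h3 := hlo i hi1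
          have h4 : 0 < (m i : ℝ) * δ := by positivity
          refine (h2 i hi1 (h4.trans_le h3)).trans ?_
          have h5 : b / δ ^ 2 * (1 / (m i : ℝ) ^ 2) = b / ((m i : ℝ) * δ) ^ 2 := by
            field_simp
          rw [h5]
          exact div_le_div_of_nonneg_left hb (by positivity) (pow_le_pow_left₀ h4.le h3 2)
      _ = b / δ ^ 2 * ∑ n ∈ (T.filter fun i => ¬m i ≤ k).image m, 1 / (n : ℝ) ^ 2 := by
          rw [sum_image (hinj.mono (coe_subset.2 (filter_subset _ _))), mul_sum]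
      _ ≤ b / δ ^ 2 * (1 / k) := by
          refine mul_le_mul_of_nonneg_left (ls_inv_sq _ hk fun n hn => ?_) (by positivity)
          obtain ⟨i, hi, rfl⟩ := mem_image.1 hn
          exact not_le.1 (mem_filter.1 hi).2

lemma ls_triv (x : ℤ) (l : ℕ) (θ : ℝ) : ‖∑ y ∈ Ioc x (x + l), ex (θ * y)‖ ≤ l := by
  refine (norm_sum_le _ _).trans ?_
  simp [norm_ex]

/-- The kernel. -/
noncomputable def lsK (x : ℤ) (l : ℕ) (d : ℝ) : ℝ :=
  ‖∑ s ∈ Ioc x (x + (2 * l : ℕ)), ex (d * s)‖ * ‖∑ t ∈ Ioc (0 : ℤ) (0 + l), ex (-d * t)‖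

lemma lsK_nonneg (x : ℤ) (l : ℕ) (d : ℝ) : 0 ≤ lsK x l d := by unfold lsK; positivity

lemma lsK_le (x : ℤ) (l : ℕ) (d : ℝ) : lsK x l d ≤ 2 * (l : ℝ) ^ 2 := by
  have h1 := ls_triv x (2 * l) d
  have h2 := ls_triv 0 l (-d)
  unfold lsK
  calc _ ≤ ((2 * l : ℕ) : ℝ) * l := mul_le_mul h1 h2 (norm_nonneg _) (by positivity)
    _ = _ := by push_cast; ring

lemma lsK_le' (x : ℤ) (l : ℕ) (d : ℝ) (h : 0 < |d - round d|) :
    lsK x l d ≤ (1 / 4) / |d - round d| ^ 2 := by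
  have h1 := geo_sum_le x (2 * l) h fun n => round_le d n
  have h2 := geo_sum_le 0 l (θ := -d) h fun n => by
    have := round_le d (-n)
    have e1 : -d - (n : ℝ) = -(d - ((-n : ℤ) : ℝ)) := by push_cast; ring
    rw [e1, abs_neg]
    exact this
  unfold lsK
  calc _ ≤ 1 / (2 * |d - round d|) * (1 / (2 * |d - round d|)) :=
        mul_le_mul h1 h2 (norm_nonneg _) (by positivity)
    _ = _ := by field_simp; norm_num

lemma ls_row {ι : Type} (T : Finset ι) (φ : ι → ℝ) {δ : ℝ} (hδ : 0 < δ) (x : ℤ) (l : ℕ) {k : ℕ}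
    (hk : 0 < k) (hs : ∀ i ∈ T, ∀ j ∈ T, i ≠ j → ∀ n : ℤ, δ ≤ |φ i - φ j - n|) :
    ∑ i ∈ T, lsK x l (φ i) ≤ 2 * (2 * (l : ℝ) ^ 2 * (k + 1) + 1 / 4 / δ ^ 2 * (1 / k)) := by
  classical
  have hd : ∀ i ∈ T, ∀ j ∈ T, i ≠ j → δ ≤ |(φ i - round (φ i)) - (φ j - round (φ j))| := by
    intro i hi j hj hij
    have := hs i hi j hj hij (round (φ i) - round (φ j))
    push_cast at this
    convert this using 2
    ring
  rw [← sum_filter_add_sum_filter_not T fun i => 0 ≤ φ i - round (φ i), two_mul]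
  refine add_le_add ?_ ?_
  · refine ls_side _ (fun i => φ i - round (φ i)) _ hδ (by positivity) (by norm_num) hk
      (fun i hi => (mem_filter.1 hi).2)
      (fun i hi j hj hij => hd i (mem_filter.1 hi).1 j (mem_filter.1 hj).1 hij)
      (fun i _ => lsK_le x l _) fun i _ h => ?_
    have := lsK_le' x l (φ i) (abs_pos.2 h.ne')
    rwa [sq_abs] at this
  · refine ls_side _ (fun i => -(φ i - round (φ i))) _ hδ (by positivity) (by norm_num) hk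
      (fun i hi => by linarith [not_le.1 (mem_filter.1 hi).2])
      (fun i hi j hj hij => ?_) (fun i _ => lsK_le x l _) fun i _ h => ?_
    · have := hd i (mem_filter.1 hi).1 j (mem_filter.1 hj).1 hij
      rw [← abs_neg] at this
      convert this using 2
      ring
    · have := lsK_le' x l (φ i) (abs_pos.2 (by linarith))
      rwa [sq_abs, ← neg_sq] at this

lemma ls_sq (z : ℂ) : ((‖z‖ ^ 2 : ℝ) : ℂ) = z * (starRingEnd ℂ) z := by
  rw [Complex.mul_conj, Complex.normSq_eq_norm_sq]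

lemma ls_expand {ι : Type} (T : Finset ι) (θ : ι → ℝ) (c : ι → ℂ) (x : ℤ) (l : ℕ) :
    ∑ t ∈ Ioc (0 : ℤ) (0 + l), ∑ s ∈ Ioc x (x + (2 * l : ℕ)),
      ‖∑ i ∈ T, c i * ex (θ i * ((s - t : ℤ) : ℝ))‖ ^ 2 ≤
      ∑ i ∈ T, ∑ j ∈ T, ‖c i‖ * ‖c j‖ * lsK x l (θ i - θ j) := by
  have h1 : ((∑ t ∈ Ioc (0 : ℤ) (0 + l), ∑ s ∈ Ioc x (x + (2 * l : ℕ)),
      ‖∑ i ∈ T, c i * ex (θ i * ((s - t : ℤ) : ℝ))‖ ^ 2 : ℝ) : ℂ) =
      ∑ i ∈ T, ∑ j ∈ T, c i * (starRingEnd ℂ) (c j) *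
        ((∑ s ∈ Ioc x (x + (2 * l : ℕ)), ex ((θ i - θ j) * s)) *
          ∑ t ∈ Ioc (0 : ℤ) (0 + l), ex (-(θ i - θ j) * t)) := by
    have h2 : ∀ s t : ℤ, ((‖∑ i ∈ T, c i * ex (θ i * ((s - t : ℤ) : ℝ))‖ ^ 2 : ℝ) : ℂ) =
        ∑ i ∈ T, ∑ j ∈ T, c i * (starRingEnd ℂ) (c j) *
          (ex ((θ i - θ j) * s) * ex (-(θ i - θ j) * t)) := by
      intro s t
      rw [ls_sq, map_sum, sum_mul_sum]
      refine sum_congr rfl fun i _ => sum_congr rfl fun j _ => ?_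
      rw [map_mul, conj_ex, ← ex_add, mul_mul_mul_comm, ← ex_add]
      congr 2
      push_cast
      ring
    rw [Complex.ofReal_sum]
    simp_rw [Complex.ofReal_sum, h2]
    simp_rw [sum_mul_sum, mul_sum]
    rw [sum_comm]
    symm
    calc _ = ∑ i ∈ T, ∑ s ∈ Ioc x (x + (2 * l : ℕ)), ∑ t ∈ Ioc (0 : ℤ) (0 + l), ∑ j ∈ T,
          c i * (starRingEnd ℂ) (c j) * (ex ((θ i - θ j) * s) * ex (-(θ i - θ j) * t)) := by
          refine sum_congr rfl fun i _ => ?_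
          rw [sum_comm]
          exact sum_congr rfl fun s _ => sum_comm
      _ = _ := by
          rw [sum_comm]
          exact sum_congr rfl fun s _ => sum_comm
  have h3 := congrArg norm h1
  rw [Complex.norm_real, Real.norm_eq_abs] at h3
  refine (le_abs_self _).trans (h3.le.trans ((norm_sum_le _ _).trans (sum_le_sum fun i _ =>
    (norm_sum_le _ _).trans (sum_le_sum fun j _ => ?_))))
  rw [norm_mul, norm_mul, norm_mul, Complex.norm_conj]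
  rfl

lemma ls_window (G : ℤ → ℝ) (hG : ∀ y, 0 ≤ G y) (x : ℤ) (l : ℕ) :
    l * ∑ y ∈ Ioc x (x + l), G y ≤
      ∑ t ∈ Ioc (0 : ℤ) (0 + l), ∑ s ∈ Ioc x (x + (2 * l : ℕ)), G (s - t) := by
  have h1 : (l : ℝ) * ∑ y ∈ Ioc x (x + l), G y =
      ∑ _t ∈ Ioc (0 : ℤ) (0 + l), ∑ y ∈ Ioc x (x + l), G y := by
    rw [sum_const, nsmul_eq_mul]
    simp
  rw [h1]
  refine sum_le_sum fun t ht => ?_
  have ht' := mem_Ioc.1 ht
  have h2 : ∑ y ∈ Ioc x (x + l), G y = ∑ s ∈ (Ioc x (x + l)).image (· + t), G (s - t) := by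
    rw [sum_image fun a _ b _ h => add_right_cancel h]
    simp
  rw [h2]
  refine sum_le_sum_of_subset_of_nonneg (fun s hs => ?_) fun _ _ _ => hG _
  obtain ⟨y, hy, rfl⟩ := mem_image.1 hs
  have hy' := mem_Ioc.1 hy
  refine mem_Ioc.2 ⟨by omega, ?_⟩
  push_cast
  omega

lemma ls_spaced {ι : Type} (T : Finset ι) (θ : ι → ℝ) {δ : ℝ} (hδ : 0 < δ) (x : ℤ) {l : ℕ}
    (hl : 0 < l) {k : ℕ} (hk : 0 < k)
    (hs : ∀ i ∈ T, ∀ j ∈ T, i ≠ j → ∀ n : ℤ, δ ≤ |θ i - θ j - n|) (H : ℤ → ℂ) :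
    l * ∑ i ∈ T, ‖FT (Ioc x (x + l)) H (θ i)‖ ^ 2 ≤
      2 * (2 * (l : ℝ) ^ 2 * (k + 1) + 1 / 4 / δ ^ 2 * (1 / k)) * N2 (Ioc x (x + l)) H := by
  set R := 2 * (2 * (l : ℝ) ^ 2 * (k + 1) + 1 / 4 / δ ^ 2 * (1 / k)) with hR
  have hR0 : 0 ≤ R := by positivity
  set S : ι → ℂ := fun i => FT (Ioc x (x + l)) H (θ i) with hS
  set c : ι → ℂ := fun i => (starRingEnd ℂ) (S i) with hc
  set A := ∑ i ∈ T, ‖S i‖ ^ 2 with hA
  set G : ℤ → ℂ := fun y => ∑ i ∈ T, c i * ex (θ i * (y : ℝ)) with hG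
  have hA0 : 0 ≤ A := sum_nonneg fun _ _ => by positivity
  have hN0 := N2_nonneg (Ioc x (x + l)) H
  have hcn : ∀ i, ‖c i‖ = ‖S i‖ := fun i => Complex.norm_conj _
  have hrow : ∀ i, ∑ j ∈ T, lsK x l (θ i - θ j) ≤ R := fun i =>
    ls_row T (fun j => θ i - θ j) hδ x l hk fun a ha b hb hab n => by
      have := hs b hb a ha hab.symm n
      convert this using 2
      ring
  have hcol : ∀ j, ∑ i ∈ T, lsK x l (θ i - θ j) ≤ R := fun j =>
    ls_row T (fun i => θ i - θ j) hδ x l hk fun a ha b hb hab n => by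
      have := hs a ha b hb hab n
      convert this using 2
      ring
  have hB : l * ∑ y ∈ Ioc x (x + l), ‖G y‖ ^ 2 ≤ R * A := by
    refine (ls_window (fun y => ‖G y‖ ^ 2) (fun _ => by positivity) x l).trans
      ((ls_expand T θ c x l).trans ?_)
    calc ∑ i ∈ T, ∑ j ∈ T, ‖c i‖ * ‖c j‖ * lsK x l (θ i - θ j)
        ≤ ∑ i ∈ T, ∑ j ∈ T, (‖S i‖ ^ 2 / 2 * lsK x l (θ i - θ j) +
            ‖S j‖ ^ 2 / 2 * lsK x l (θ i - θ j)) := by
          refine sum_le_sum fun i _ => sum_le_sum fun j _ => ?_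
          rw [← add_mul, hcn, hcn]
          refine mul_le_mul_of_nonneg_right ?_ (lsK_nonneg _ _ _)
          nlinarith [sq_nonneg (‖S i‖ - ‖S j‖)]
      _ = ∑ i ∈ T, ‖S i‖ ^ 2 / 2 * ∑ j ∈ T, lsK x l (θ i - θ j) +
            ∑ j ∈ T, ‖S j‖ ^ 2 / 2 * ∑ i ∈ T, lsK x l (θ i - θ j) := by
          simp_rw [sum_add_distrib, mul_sum]
          congr 1
          exact sum_comm
      _ ≤ ∑ i ∈ T, ‖S i‖ ^ 2 / 2 * R + ∑ j ∈ T, ‖S j‖ ^ 2 / 2 * R :=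
          add_le_add (sum_le_sum fun i _ => mul_le_mul_of_nonneg_left (hrow i) (by positivity))
            (sum_le_sum fun j _ => mul_le_mul_of_nonneg_left (hcol j) (by positivity))
      _ = R * A := by
          rw [← sum_add_distrib, hA, mul_sum]
          exact sum_congr rfl fun i _ => by ring
  have hdual : (A : ℂ) = ∑ y ∈ Ioc x (x + l), H y * G y := by
    rw [hA, Complex.ofReal_sum]
    simp_rw [ls_sq, hG, mul_sum]
    rw [sum_comm]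
    refine sum_congr rfl fun i _ => ?_
    show S i * c i = _
    rw [hS]
    simp only [FT]
    rw [sum_mul]
    exact sum_congr rfl fun y _ => by ring
  have hA1 : A ≤ ∑ y ∈ Ioc x (x + l), ‖H y‖ * ‖G y‖ := by
    have h3 := congrArg norm hdual
    rw [Complex.norm_real, Real.norm_eq_abs, abs_of_nonneg hA0] at h3
    exact h3.le.trans ((norm_sum_le _ _).trans (sum_le_sum fun y _ => (norm_mul _ _).le))
  have hA2 : A ^ 2 ≤ N2 (Ioc x (x + l)) H * ∑ y ∈ Ioc x (x + l), ‖G y‖ ^ 2 :=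
    (pow_le_pow_left₀ hA0 hA1 2).trans (sum_mul_sq_le_sq_mul_sq _ _ _)
  have hl' : (0 : ℝ) < l := by exact_mod_cast hl
  rcases hA0.eq_or_lt with h0 | h0
  · rw [← h0, mul_zero]; positivity
  · refine le_of_mul_le_mul_right ?_ h0
    calc l * A * A = l * A ^ 2 := by ring
      _ ≤ l * (N2 (Ioc x (x + l)) H * ∑ y ∈ Ioc x (x + l), ‖G y‖ ^ 2) :=
          mul_le_mul_of_nonneg_left hA2 hl'.le
      _ = N2 (Ioc x (x + l)) H * (l * ∑ y ∈ Ioc x (x + l), ‖G y‖ ^ 2) := by ring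
      _ ≤ N2 (Ioc x (x + l)) H * (R * A) := mul_le_mul_of_nonneg_left hB hN0
      _ = _ := by ring

theorem large_sieve (x : ℤ) (l Q : ℕ) (H : ℤ → ℂ) :
    ∑ q ∈ Icc 1 Q, Mq (Ioc x (x + l)) H q ≤ 100 * ((Q : ℝ) ^ 2 + l) * N2 (Ioc x (x + l)) H := by
  have hN0 := N2_nonneg (Ioc x (x + l)) H
  rcases Nat.eq_zero_or_pos l with rfl | hl
  · simp [Mq, FT, N2]
  rcases Nat.eq_zero_or_pos Q with rfl | hQ
  · simp only [Icc_eq_empty_of_lt Nat.zero_lt_one, sum_empty]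
    positivity
  have hl' : (0 : ℝ) < l := by exact_mod_cast hl
  have hQ' : (0 : ℝ) < Q := by exact_mod_cast hQ
  have hk0 : (0 : ℝ) < (Q : ℝ) ^ 2 / l := by positivity
  have hk : 0 < ⌈(Q : ℝ) ^ 2 / l⌉₊ := Nat.ceil_pos.2 hk0
  have hk1 : (Q : ℝ) ^ 2 / l ≤ ⌈(Q : ℝ) ^ 2 / l⌉₊ := Nat.le_ceil _
  have hk2 : (⌈(Q : ℝ) ^ 2 / l⌉₊ : ℝ) < (Q : ℝ) ^ 2 / l + 1 := Nat.ceil_lt_add_one hk0.le
  have h := ls_spaced ((Icc 1 Q).sigma fun q => (range q).filter fun h => h.Coprime q)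
    (fun p => (p.2 : ℝ) / p.1) (δ := 1 / (Q : ℝ) ^ 2) (by positivity) x hl hk (by
      rintro ⟨q, h⟩ hi ⟨q', h'⟩ hj hne n
      rw [mem_sigma, mem_filter, mem_range] at hi hj
      refine farey_spaced hi.1 hj.1 hi.2.1 hj.2.1 hi.2.2 hj.2.2 (fun he => hne ?_) n
      obtain ⟨rfl, rfl⟩ := Prod.ext_iff.1 he
      rfl) H
  rw [sum_sigma] at h
  set k : ℝ := (⌈(Q : ℝ) ^ 2 / l⌉₊ : ℝ)
  have hkp : 0 < k := hk0.trans_le hk1
  have h1 : (l : ℝ) * k ≤ Q ^ 2 + l := by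
    have := mul_le_mul_of_nonneg_left hk2.le hl'.le
    rwa [mul_add, mul_div_cancel₀ _ hl'.ne', mul_one] at this
  have h2 : 1 / 4 / (1 / (Q : ℝ) ^ 2) ^ 2 * (1 / k) ≤ l * Q ^ 2 := by
    have h3 : (Q : ℝ) ^ 2 ≤ k * l := (div_le_iff₀ hl').1 hk1
    have h4 : 1 / 4 / (1 / (Q : ℝ) ^ 2) ^ 2 * (1 / k) = Q ^ 2 * Q ^ 2 / (4 * k) := by
      field_simp
    rw [h4, div_le_iff₀ (by positivity)]
    have h5 : (0 : ℝ) ≤ Q ^ 2 := by positivity
    have h6 : (0 : ℝ) ≤ k * l := by positivity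
    nlinarith [mul_le_mul_of_nonneg_left h3 h5, mul_nonneg h5 h6]
  have h7 : 2 * (2 * (l : ℝ) ^ 2 * (k + 1) + 1 / 4 / (1 / (Q : ℝ) ^ 2) ^ 2 * (1 / k)) ≤
      l * (100 * ((Q : ℝ) ^ 2 + l)) := by
    have h5 : (0 : ℝ) ≤ l * Q ^ 2 := by positivity
    have h6 := mul_le_mul_of_nonneg_left h1 hl'.le
    nlinarith [mul_pos hl' hl']
  refine le_of_mul_le_mul_left (h.trans ?_) hl'
  rw [← mul_assoc]
  exact mul_le_mul_of_nonneg_right h7 hN0

/-- The large sieve with decaying weights. -/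
theorem sieve_weighted (x : ℤ) (l : ℕ) (H : ℤ → ℂ) (n : ℕ → ℝ) {Z1 Qm : ℕ} (hZ : 1 ≤ Z1)
    {ν1 ν2 : ℝ} (h1 : 0 ≤ ν1) (h2 : 0 ≤ ν2) (hn : ∀ q ∈ Ioc Z1 Qm, n q ≤ ν1 ∧ n q * q ≤ ν2) :
    ∑ q ∈ Ioc Z1 Qm, n q * Mq (Ioc x (x + l)) H q ≤
      100 * (Nat.log 2 Qm + 1) * (ν1 * l + 4 * ν2 * Qm) * N2 (Ioc x (x + l)) H := by
  have hN0 := N2_nonneg (Ioc x (x + l)) H
  rcases Nat.eq_zero_or_pos Qm with rfl | hQ
  · simp only [Ioc_eq_empty_of_le (Nat.zero_le Z1), sum_empty]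
    positivity
  have hmap : ∀ q ∈ Ioc Z1 Qm, Nat.log 2 q ∈ range (Nat.log 2 Qm + 1) := fun q hq =>
    mem_range.2 (Nat.lt_succ_of_le (Nat.log_mono_right (mem_Ioc.1 hq).2))
  rw [← sum_fiberwise_of_maps_to hmap]
  have hb : ∀ t ∈ range (Nat.log 2 Qm + 1),
      ∑ q ∈ Ioc Z1 Qm with Nat.log 2 q = t, n q * Mq (Ioc x (x + l)) H q ≤
        100 * (ν1 * l + 4 * ν2 * Qm) * N2 (Ioc x (x + l)) H := by
    intro t ht
    have ht1 : 2 ^ t ≤ Qm := Nat.pow_le_of_le_log hQ.ne' (Nat.lt_succ_iff.1 (mem_range.1 ht))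
    have ht2 : (2 : ℝ) ^ t ≤ Qm := by exact_mod_cast ht1
    have hp : (0 : ℝ) < 2 ^ t := by positivity
    set μ := min ν1 (ν2 / 2 ^ t) with hμ
    have hμ0 : 0 ≤ μ := le_min h1 (by positivity)
    have hμ2 : μ * 2 ^ t ≤ ν2 := (le_div_iff₀ hp).1 (min_le_right _ _)
    calc ∑ q ∈ Ioc Z1 Qm with Nat.log 2 q = t, n q * Mq (Ioc x (x + l)) H q
        ≤ ∑ q ∈ Ioc Z1 Qm with Nat.log 2 q = t, μ * Mq (Ioc x (x + l)) H q := by
          refine sum_le_sum fun q hq => mul_le_mul_of_nonneg_right ?_ (Mq_nonneg _ _ _)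
          obtain ⟨hq1, hq2⟩ := mem_filter.1 hq
          have hq0 : q ≠ 0 := by have := (mem_Ioc.1 hq1).1; omega
          have hq3 : 2 ^ t ≤ q := hq2 ▸ Nat.pow_log_le_self 2 hq0
          have hq4 : (2 : ℝ) ^ t ≤ q := by exact_mod_cast hq3
          refine le_min (hn q hq1).1 ?_
          rw [le_div_iff₀ hp]
          rcases le_total 0 (n q) with h0 | h0
          · exact (mul_le_mul_of_nonneg_left hq4 h0).trans (hn q hq1).2
          · exact (mul_nonpos_of_nonpos_of_nonneg h0 hp.le).trans h2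
      _ ≤ ∑ q ∈ Icc 1 (2 ^ (t + 1)), μ * Mq (Ioc x (x + l)) H q := by
          refine sum_le_sum_of_subset_of_nonneg (fun q hq => ?_)
            fun _ _ _ => mul_nonneg hμ0 (Mq_nonneg _ _ _)
          obtain ⟨hq1, hq2⟩ := mem_filter.1 hq
          refine mem_Icc.2 ⟨hZ.trans (mem_Ioc.1 hq1).1.le, ?_⟩
          exact hq2 ▸ (Nat.lt_pow_succ_log_self (by norm_num) q).le
      _ ≤ μ * (100 * ((((2 ^ (t + 1) : ℕ) : ℝ)) ^ 2 + l) * N2 (Ioc x (x + l)) H) := by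
          rw [← mul_sum]
          exact mul_le_mul_of_nonneg_left (large_sieve x l _ H) hμ0
      _ = 100 * (μ * l + 4 * (μ * 2 ^ t) * 2 ^ t) * N2 (Ioc x (x + l)) H := by
          push_cast; ring
      _ ≤ _ := by
          have hl0 : (0 : ℝ) ≤ l := Nat.cast_nonneg _
          gcongr
          exact min_le_left _ _
  refine (sum_le_sum hb).trans (le_of_eq ?_)
  rw [sum_const, card_range, nsmul_eq_mul]
  push_cast
  ring

end Pool.Agent.Lib.MP_788af2_nt.R0
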