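import Pool.Agent.Lib.MP_788af2_nt.R0.Defs

namespace Pool.Agent.Lib.MP_788af2_nt.R0

open Finset Filter
open scoped NumberTheorySymbols

/-! Linear algebra over the field with two elements. -/

variable {ι : Type} [Fintype ι] [DecidableEq ι]

lemma lin1_det {m : ℕ} (A : Matrix (Fin m) (Fin m) (ZMod 2)) (hs : ∀ i j, A j i = A i j)
    (h0 : ∀ i, A i i = 0) (hd : A.det ≠ 0) : Even m := by
  by_contra hm
  rw [Nat.not_even_iff_odd] at hm
  apply hd
  let A' : Matrix (Fin m) (Fin m) ℤ := Matrix.of fun i j =>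
    if i < j then ((A i j).val : ℤ) else if j < i then -((A i j).val : ℤ) else 0
  have h1 : A'.transpose = -A' := by
    ext i j
    rcases lt_trichotomy i j with h | rfl | h
    · simp [A', h, h.not_gt, hs i j]
    · simp [A']
    · simp [A', h, h.not_gt, hs i j]
  have h2 : A'.det = 0 := by
    have := Matrix.det_transpose A'
    rw [h1, Matrix.det_neg, Fintype.card_fin, hm.neg_one_pow] at this
    linarith
  have h3 : (Int.castRingHom (ZMod 2)).mapMatrix A' = A := by
    ext i j
    rcases lt_trichotomy i j with h | rfl | h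
    · simp [A', h]
    · simp [A', h0]
    · simp [A', h, h.not_gt]
  rw [← h3, ← RingHom.map_det, h2, map_zero]

lemma lin1_alt (N : Matrix ι ι (ZMod 2)) (hN : N.IsSymm) (h0 : ∀ i, N i i = 0) :
    ∃ s : ℕ, (univ.filter fun x : ι → ZMod 2 => N.mulVec x = 0).card = 2 ^ s ∧
      (s : ZMod 2) = (Fintype.card ι : ZMod 2) := by
  have hsym : ∀ x y : ι → ZMod 2, x ⬝ᵥ N.mulVec y = y ⬝ᵥ N.mulVec x := by
    intro x y
    rw [Matrix.dotProduct_mulVec, ← Matrix.mulVec_transpose, hN.eq, dotProduct_comm]
  have halt : ∀ x : ι → ZMod 2, x ⬝ᵥ N.mulVec x = 0 := by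
    intro x
    simp only [dotProduct, Matrix.mulVec, Finset.mul_sum]
    rw [← Finset.sum_product']
    refine Finset.sum_involution (fun p _ => p.swap) ?_ ?_ (fun _ _ => by simp) fun _ _ => rfl
    · rintro ⟨i, j⟩ -
      simp only [Prod.swap_prod_mk]
      rw [hN.apply i j]
      generalize x i = a, x j = b, N i j = c
      revert a b c
      decide
    · rintro ⟨i, j⟩ - h e
      simp only [Prod.swap_prod_mk, Prod.mk.injEq] at e
      obtain ⟨rfl, -⟩ := e
      simp [h0] at h
  let K : Submodule (ZMod 2) (ι → ZMod 2) := LinearMap.ker N.mulVecLin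
  obtain ⟨W, hW⟩ := K.exists_isCompl
  let b := Module.finBasis (ZMod 2) W
  let A : Matrix (Fin (Module.finrank (ZMod 2) W)) (Fin (Module.finrank (ZMod 2) W)) (ZMod 2) :=
    Matrix.of fun i j => (b i : ι → ZMod 2) ⬝ᵥ N.mulVec (b j)
  have hd : A.det ≠ 0 := by
    intro h
    obtain ⟨v, hv, hA⟩ := Matrix.exists_mulVec_eq_zero_iff.2 h
    apply hv
    set y : W := ∑ j, v j • b j with hy
    have h1 : ∀ i, (b i : ι → ZMod 2) ⬝ᵥ N.mulVec y = 0 := by
      intro i
      have e : A.mulVec v i = 0 := congrFun hA i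
      rw [← e, hy, Submodule.coe_sum, Matrix.mulVec_sum, dotProduct_sum]
      refine Finset.sum_congr rfl fun j _ => ?_
      rw [Submodule.coe_smul, Matrix.mulVec_smul, dotProduct_smul, smul_eq_mul, mul_comm]
      rfl
    have h2 : ∀ x : W, (x : ι → ZMod 2) ⬝ᵥ N.mulVec y = 0 := by
      intro x
      rw [← b.sum_repr x, Submodule.coe_sum, sum_dotProduct]
      refine Finset.sum_eq_zero fun j _ => ?_
      rw [Submodule.coe_smul, smul_dotProduct, h1, smul_zero]
    have h3 : ∀ x : ι → ZMod 2, x ⬝ᵥ N.mulVec y = 0 := by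
      intro x
      obtain ⟨k, hk, u, hu, rfl⟩ := Submodule.mem_sup.1
        (show x ∈ K ⊔ W by rw [hW.sup_eq_top]; trivial)
      have hk' : N.mulVec k = 0 := hk
      rw [add_dotProduct, h2 ⟨u, hu⟩, hsym, hk', dotProduct_zero, add_zero]
    have h4 : (y : ι → ZMod 2) ∈ K := by
      change N.mulVec y = 0
      ext i
      simpa using h3 (Pi.single i 1)
    have h5 : y = 0 := Subtype.ext ((Submodule.disjoint_def.1 hW.disjoint) _ h4 y.2)
    ext j
    exact Fintype.linearIndependent_iff.1 b.linearIndependent v (hy ▸ h5) j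
  have he := lin1_det A (fun i j => hsym _ _) (fun i => halt _) hd
  have hr := Submodule.finrank_add_eq_of_isCompl hW
  rw [Module.finrank_fintype_fun_eq_card] at hr
  refine ⟨Module.finrank (ZMod 2) K, ?_, ?_⟩
  · have := Module.natCard_eq_pow_finrank (K := ZMod 2) (V := K)
    rw [Nat.card_zmod] at this
    rw [← this, ← Fintype.card_subtype, ← Nat.card_eq_fintype_card]
    rfl
  · rw [← hr, Nat.cast_add, (ZMod.natCast_eq_zero_iff_even).2 he, add_zero]

/-- The corank of a symmetric matrix has the parity of `n + w M w` for a characteristic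
vector `w`. -/
theorem ker_parity (M : Matrix ι ι (ZMod 2)) (hM : M.IsSymm) (w : ι → ZMod 2)
    (hw : ∀ i, M.mulVec w i = M i i) :
    ∃ s : ℕ, (univ.filter fun x : ι → ZMod 2 => M.mulVec x = 0).card = 2 ^ s ∧
      (s : ZMod 2) = (Fintype.card ι : ZMod 2) + w ⬝ᵥ M.mulVec w := by
  set d := M.mulVec w with hd
  have hsym : ∀ x : ι → ZMod 2, w ⬝ᵥ M.mulVec x = d ⬝ᵥ x := by
    intro x
    rw [Matrix.dotProduct_mulVec, ← Matrix.mulVec_transpose, hM.eq]
  have two : ∀ e : ZMod 2, e = 0 ∨ e = 1 := by decide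
  have dbl : ∀ x : ι → ZMod 2, x + x = 0 := fun x => funext fun i => CharTwo.add_self_eq_zero _
  obtain ⟨s, h1, h2⟩ := lin1_alt (M + Matrix.vecMulVec d d) (by
      ext i j
      simp [Matrix.vecMulVec_apply, hM.apply i j, mul_comm]) (by
      intro i
      rw [Matrix.add_apply, Matrix.vecMulVec_apply, hw i]
      generalize M i i = a
      revert a
      decide)
  have hN : ∀ x, (M + Matrix.vecMulVec d d).mulVec x = M.mulVec x + (d ⬝ᵥ x) • d := by
    intro x
    rw [Matrix.add_mulVec, Matrix.vecMulVec_mulVec]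
    simp
  simp only [hN] at h1
  have hk : ∀ x, M.mulVec x = 0 → d ⬝ᵥ x = 0 := fun x hx => by
    rw [← hsym, hx, dotProduct_zero]
  rcases two (w ⬝ᵥ d) with h | h
  · refine ⟨s, ?_, by rw [h2, h, add_zero]⟩
    rw [← h1]
    congr 1
    refine filter_congr fun x _ => ⟨fun hx => by rw [hx, hk x hx, zero_smul, add_zero], fun hx => ?_⟩
    have := congrArg (fun v => w ⬝ᵥ v) hx
    simp only [dotProduct_add, dotProduct_smul, h, smul_zero, add_zero, dotProduct_zero,
      hsym] at this
    rwa [this, zero_smul, add_zero] at hx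
  · have e := card_filter_add_card_filter_not
      (s := univ.filter fun x : ι → ZMod 2 => M.mulVec x + (d ⬝ᵥ x) • d = 0) fun x => d ⬝ᵥ x = 0
    have e1 : ((univ.filter fun x : ι → ZMod 2 => M.mulVec x + (d ⬝ᵥ x) • d = 0).filter
        fun x => d ⬝ᵥ x = 0) = univ.filter fun x : ι → ZMod 2 => M.mulVec x = 0 := by
      ext x
      simp only [mem_filter, mem_univ, true_and]
      refine ⟨fun hx => ?_, fun hx => ⟨by rw [hx, hk x hx, zero_smul, add_zero], hk x hx⟩⟩
      have := hx.1
      rwa [hx.2, zero_smul, add_zero] at this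
    have hdw : d ⬝ᵥ w = 1 := by rw [dotProduct_comm, h]
    have e2 : ((univ.filter fun x : ι → ZMod 2 => M.mulVec x + (d ⬝ᵥ x) • d = 0).filter
        fun x => ¬d ⬝ᵥ x = 0).card = (univ.filter fun x : ι → ZMod 2 => M.mulVec x = 0).card := by
      refine card_nbij' (fun x => x + w) (fun x => x + w) ?_ ?_ ?_ ?_
      · intro x hx
        simp only [coe_filter, mem_filter, mem_univ, true_and, Set.mem_ofPred_eq] at hx ⊢
        have := hx.1
        rw [(two _).resolve_left hx.2, one_smul] at this
        rw [Matrix.mulVec_add, this]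
      · intro x hx
        simp only [coe_filter, mem_filter, mem_univ, true_and, Set.mem_ofPred_eq] at hx ⊢
        rw [Matrix.mulVec_add, dotProduct_add, hx, hk x hx, hdw, zero_add, zero_add, one_smul]
        exact ⟨dbl d, one_ne_zero⟩
      · intro x _
        simp only [add_assoc, dbl, add_zero]
      · intro x _
        simp only [add_assoc, dbl, add_zero]
    rw [e1, e2, h1] at e
    rcases s with _ | s
    · omega
    · refine ⟨s, by omega, ?_⟩
      rw [← h2, h]
      push_cast
      rw [add_assoc, CharTwo.add_self_eq_zero, add_zero]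

end Pool.Agent.Lib.MP_788af2_nt.R0
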