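import Pool.Agent.Lib.MP_788af2_nt.R0.Lin1

namespace Pool.Agent.Lib.MP_788af2_nt.R0

open Finset Filter
open scoped NumberTheorySymbols

/-! The first moment inequality for a symmetric matrix. -/

variable {ι : Type} [Fintype ι] [DecidableEq ι]

lemma lin2_bit (e : ZMod 2) : e = 0 ∨ e = 1 := by
  revert e
  decide

lemma lin2_add_self (e : ZMod 2) : e + e = 0 := by
  revert e
  decide

lemma lin2_mul_self (e : ZMod 2) : e * e = e := by
  revert e
  decide

lemma lin2_sgn_zero : sgn 0 = 1 := by simp [sgn]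

lemma lin2_sgn_one : sgn 1 = -1 := by
  have h : (1 : ZMod 2) ≠ 0 := by decide
  simp [sgn, h]

lemma lin2_orth (v : ι → ZMod 2) :
    ∑ y : ι → ZMod 2, sgn (v ⬝ᵥ y) = if v = 0 then 2 ^ Fintype.card ι else 0 := by
  split_ifs with hv
  · subst hv
    simp [lin2_sgn_zero, ZMod.card]
  · obtain ⟨i, hi⟩ := Function.ne_iff.mp hv
    have hi1 : v i = 1 := (lin2_bit (v i)).resolve_left hi
    have h1 := Equiv.sum_comp (Equiv.addRight (Pi.single i (1 : ZMod 2) : ι → ZMod 2))
      (fun y : ι → ZMod 2 => sgn (v ⬝ᵥ y))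
    have h2 : ∀ y : ι → ZMod 2,
        sgn (v ⬝ᵥ (Equiv.addRight (Pi.single i (1 : ZMod 2) : ι → ZMod 2)) y) =
          -sgn (v ⬝ᵥ y) := by
      intro y
      rw [Equiv.coe_addRight, dotProduct_add, dotProduct_single, hi1, mul_one, sgn_add,
        lin2_sgn_one]
      ring
    simp only [h2, Finset.sum_neg_distrib] at h1
    linarith

lemma lin2_symm {M : Matrix ι ι (ZMod 2)} (hM : M.IsSymm) (x y : ι → ZMod 2) :
    x ⬝ᵥ M.mulVec y = M.mulVec x ⬝ᵥ y := by
  rw [Matrix.dotProduct_mulVec, ← Matrix.mulVec_transpose, hM.eq]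

lemma lin2_diag {M : Matrix ι ι (ZMod 2)} (hM : M.IsSymm) {w : ι → ZMod 2}
    (hw : ∀ i, M.mulVec w i = M i i) (x : ι → ZMod 2) :
    x ⬝ᵥ M.mulVec x = x ⬝ᵥ M.mulVec w := by
  have h0 : ∑ p ∈ (univ : Finset (ι × ι)).filter (fun p => ¬ p.1 = p.2),
      x p.1 * (M p.1 p.2 * x p.2) = 0 := by
    refine Finset.sum_involution (fun p _ => p.swap) (fun p _ => ?_) (fun p hp _ => ?_)
      (fun p hp => ?_) (fun p _ => Prod.swap_swap p)
    · have e : x p.swap.1 * (M p.swap.1 p.swap.2 * x p.swap.2) =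
          x p.1 * (M p.1 p.2 * x p.2) := by
        rw [Prod.fst_swap, Prod.snd_swap, hM.apply p.1 p.2]
        ring
      rw [e]
      exact lin2_add_self _
    · intro h
      have h1 := congrArg Prod.fst h
      exact (Finset.mem_filter.mp hp).2 (by simpa using h1.symm)
    · simp only [Finset.mem_filter, Finset.mem_univ, true_and, Prod.fst_swap, Prod.snd_swap] at hp ⊢
      exact fun h => hp h.symm
  have h1 : ∑ p ∈ (univ : Finset (ι × ι)).filter (fun p => p.1 = p.2),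
      x p.1 * (M p.1 p.2 * x p.2) = ∑ i, x i * M i i := by
    rw [Finset.sum_filter, Fintype.sum_prod_type]
    refine Finset.sum_congr rfl fun i _ => ?_
    rw [Finset.sum_ite_eq]
    simp only [Finset.mem_univ, if_true]
    calc x i * (M i i * x i) = x i * x i * M i i := by ring
      _ = x i * M i i := by rw [lin2_mul_self]
  have h2 : x ⬝ᵥ M.mulVec x = ∑ p : ι × ι, x p.1 * (M p.1 p.2 * x p.2) := by
    rw [Fintype.sum_prod_type]
    simp only [dotProduct, Matrix.mulVec, Finset.mul_sum]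
  rw [h2, ← Finset.sum_filter_add_sum_filter_not univ (fun p : ι × ι => p.1 = p.2), h0, h1,
    add_zero]
  simp only [dotProduct, hw]

lemma lin2_three (x w z : ι → ZMod 2) : x + (x + w + z) + w = z := by
  funext i
  simp only [Pi.add_apply]
  have h1 := lin2_add_self (x i)
  have h2 := lin2_add_self (w i)
  linear_combination h1 + h2

/-- The indicator of a finite set. -/
noncomputable def lin2I (S : Finset (ι → ZMod 2)) (x : ι → ZMod 2) : ℝ := if x ∈ S then 1 else 0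

lemma lin2_sumI (S : Finset (ι → ZMod 2)) : ∑ x, lin2I S x = S.card := by
  simp [lin2I]

lemma lin2_shift (x w : ι → ZMod 2) (f : (ι → ZMod 2) → (ι → ZMod 2) → ℝ) :
    ∑ y, f y (x + y + w) = ∑ z, f (x + w + z) z := by
  rw [← Equiv.sum_comp (Equiv.addLeft (x + w)) fun y => f y (x + y + w)]
  refine Finset.sum_congr rfl fun z _ => ?_
  rw [Equiv.coe_addLeft, lin2_three]

open Classical in
lemma lin2_fam (M : Matrix ι ι (ZMod 2)) (S : Finset (ι → ZMod 2)) :
    ∑ x, lin2I S x * ∑ y : ι → ZMod 2, sgn (M.mulVec x ⬝ᵥ y) =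
      2 ^ Fintype.card ι * ((S.filter fun x => M.mulVec x = 0).card : ℝ) := by
  have h : ∀ x, lin2I S x * ∑ y : ι → ZMod 2, sgn (M.mulVec x ⬝ᵥ y) =
      2 ^ Fintype.card ι * lin2I (S.filter fun x => M.mulVec x = 0) x := by
    intro x
    rw [lin2_orth]
    unfold lin2I
    by_cases h1 : x ∈ S <;> by_cases h2 : M.mulVec x = 0 <;> simp [h1, h2]
  simp only [h]
  rw [← Finset.mul_sum, lin2_sumI]

lemma lin2_point (S : Finset (ι → ZMod 2)) (x y z : ι → ZMod 2) (e : ZMod 2) :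
    sgn e ≤ (if x ∉ S ∧ y ∉ S ∧ z ∉ S then sgn e else 0) +
      (lin2I S x * sgn e + lin2I S y * sgn e + lin2I S z * sgn e) +
      (lin2I S x * lin2I S y + lin2I S x * lin2I S z + lin2I S y * lin2I S z) := by
  unfold lin2I
  rcases lin2_bit e with rfl | rfl <;> by_cases hx : x ∈ S <;> by_cases hy : y ∈ S <;>
    by_cases hz : z ∈ S <;> simp [hx, hy, hz, lin2_sgn_zero, lin2_sgn_one] <;> norm_num

open Classical in
lemma lin2_main {M : Matrix ι ι (ZMod 2)} (hM : M.IsSymm) {w : ι → ZMod 2}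
    (hw : ∀ i, M.mulVec w i = M i i) (S : Finset (ι → ZMod 2)) :
    2 ^ Fintype.card ι * ((univ.filter fun x : ι → ZMod 2 => M.mulVec x = 0).card : ℝ) ≤
      E0 M w S + 3 * (2 ^ Fintype.card ι * ((S.filter fun x => M.mulVec x = 0).card : ℝ)) +
        3 * (S.card : ℝ) ^ 2 := by
  have hall : ∑ x : ι → ZMod 2, ∑ y : ι → ZMod 2, sgn (x ⬝ᵥ M.mulVec y) =
      2 ^ Fintype.card ι * ((univ.filter fun x : ι → ZMod 2 => M.mulVec x = 0).card : ℝ) := by
    rw [← lin2_fam M univ]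
    refine Finset.sum_congr rfl fun x _ => ?_
    simp only [lin2I, Finset.mem_univ, if_true, one_mul, lin2_symm hM]
  have f1 : ∑ x : ι → ZMod 2, ∑ y : ι → ZMod 2, lin2I S x * sgn (x ⬝ᵥ M.mulVec y) =
      2 ^ Fintype.card ι * ((S.filter fun x => M.mulVec x = 0).card : ℝ) := by
    rw [← lin2_fam M S]
    refine Finset.sum_congr rfl fun x _ => ?_
    simp only [Finset.mul_sum, lin2_symm hM]
  have f2 : ∑ x : ι → ZMod 2, ∑ y : ι → ZMod 2, lin2I S y * sgn (x ⬝ᵥ M.mulVec y) =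
      2 ^ Fintype.card ι * ((S.filter fun x => M.mulVec x = 0).card : ℝ) := by
    rw [← lin2_fam M S, Finset.sum_comm]
    refine Finset.sum_congr rfl fun y _ => ?_
    simp only [Finset.mul_sum, dotProduct_comm (M.mulVec y)]
  have f3 : ∑ x : ι → ZMod 2, ∑ y : ι → ZMod 2, lin2I S (x + y + w) * sgn (x ⬝ᵥ M.mulVec y) =
      2 ^ Fintype.card ι * ((S.filter fun x => M.mulVec x = 0).card : ℝ) := by
    rw [← f2]
    refine Finset.sum_congr rfl fun x _ => ?_
    rw [lin2_shift x w fun y z => lin2I S z * sgn (x ⬝ᵥ M.mulVec y)]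
    refine Finset.sum_congr rfl fun z _ => ?_
    rw [Matrix.mulVec_add, Matrix.mulVec_add, dotProduct_add, dotProduct_add, lin2_diag hM hw,
      lin2_add_self, zero_add]
  have p12 : ∑ x : ι → ZMod 2, ∑ y : ι → ZMod 2, lin2I S x * lin2I S y = (S.card : ℝ) ^ 2 := by
    rw [← Finset.sum_mul_sum, lin2_sumI, sq]
  have p13 : ∑ x : ι → ZMod 2, ∑ y : ι → ZMod 2, lin2I S x * lin2I S (x + y + w) =
      (S.card : ℝ) ^ 2 := by
    rw [← p12]
    refine Finset.sum_congr rfl fun x _ => ?_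
    exact lin2_shift x w fun _ z => lin2I S x * lin2I S z
  have p23 : ∑ x : ι → ZMod 2, ∑ y : ι → ZMod 2, lin2I S y * lin2I S (x + y + w) =
      (S.card : ℝ) ^ 2 := by
    rw [← p13, Finset.sum_comm]
    simp only [add_comm]
  have hle : ∑ x : ι → ZMod 2, ∑ y : ι → ZMod 2, sgn (x ⬝ᵥ M.mulVec y) ≤
      ∑ x : ι → ZMod 2, ∑ y : ι → ZMod 2,
        ((if x ∉ S ∧ y ∉ S ∧ x + y + w ∉ S then sgn (x ⬝ᵥ M.mulVec y) else 0) +
        (lin2I S x * sgn (x ⬝ᵥ M.mulVec y) + lin2I S y * sgn (x ⬝ᵥ M.mulVec y) +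
          lin2I S (x + y + w) * sgn (x ⬝ᵥ M.mulVec y)) +
        (lin2I S x * lin2I S y + lin2I S x * lin2I S (x + y + w) +
          lin2I S y * lin2I S (x + y + w))) :=
    Finset.sum_le_sum fun x _ => Finset.sum_le_sum fun y _ => lin2_point S x y (x + y + w) _
  simp only [Finset.sum_add_distrib] at hle
  rw [hall, f1, f2, f3, p12, p13, p23] at hle
  unfold E0
  linarith

open Classical in
theorem lin_ineq (M : Matrix ι ι (ZMod 2)) (hM : M.IsSymm) (w : ι → ZMod 2)
    (hw : ∀ i, M.mulVec w i = M i i) (S : Finset (ι → ZMod 2)) (h0 : 0 ∈ S) (σ : ℝ)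
    (hσ : σ = sgn ((Fintype.card ι : ZMod 2) + w ⬝ᵥ M.mulVec w)) :
    1 + σ - 6 * (((S.filter fun x => M.mulVec x = 0).card : ℝ) - 1) -
        6 * (S.card : ℝ) ^ 2 / 2 ^ Fintype.card ι - (1 + σ) * E0 M w S / 2 ^ Fintype.card ι ≤
      if ∀ x, M.mulVec x = 0 → x = 0 then 6 else 0 := by
  have hT : (0 : ℝ) < 2 ^ Fintype.card ι := by positivity
  have hR : (0 : ℝ) ≤ if ∀ x, M.mulVec x = 0 → x = 0 then 6 else 0 := by
    split_ifs <;> norm_num
  have hNS : (1 : ℝ) ≤ ((S.filter fun x => M.mulVec x = 0).card : ℝ) := by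
    have : 0 < (S.filter fun x => M.mulVec x = 0).card :=
      Finset.card_pos.mpr ⟨0, Finset.mem_filter.mpr ⟨h0, Matrix.mulVec_zero M⟩⟩
    exact_mod_cast this
  have hq : 0 ≤ 6 * (S.card : ℝ) ^ 2 / 2 ^ Fintype.card ι := by positivity
  obtain ⟨s, hs, hpar⟩ := ker_parity M hM w hw
  rcases lin2_bit ((Fintype.card ι : ZMod 2) + w ⬝ᵥ M.mulVec w) with he | he
  · rw [he, lin2_sgn_zero] at hσ
    subst hσ
    have hmain := lin2_main hM hw S
    have hkey : 1 + 1 - 6 * (((S.filter fun x => M.mulVec x = 0).card : ℝ) - 1) -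
        6 * (S.card : ℝ) ^ 2 / 2 ^ Fintype.card ι - (1 + 1) * E0 M w S / 2 ^ Fintype.card ι ≤
        8 - 2 * ((univ.filter fun x : ι → ZMod 2 => M.mulVec x = 0).card : ℝ) := by
      have e : 1 + 1 - 6 * (((S.filter fun x => M.mulVec x = 0).card : ℝ) - 1) -
          6 * (S.card : ℝ) ^ 2 / 2 ^ Fintype.card ι - (1 + 1) * E0 M w S / 2 ^ Fintype.card ι =
          8 - 2 * ((E0 M w S +
            3 * (2 ^ Fintype.card ι * ((S.filter fun x => M.mulVec x = 0).card : ℝ)) +
            3 * (S.card : ℝ) ^ 2) / 2 ^ Fintype.card ι) := by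
        field_simp
        ring
      have h1 : ((univ.filter fun x : ι → ZMod 2 => M.mulVec x = 0).card : ℝ) ≤
          (E0 M w S +
            3 * (2 ^ Fintype.card ι * ((S.filter fun x => M.mulVec x = 0).card : ℝ)) +
            3 * (S.card : ℝ) ^ 2) / 2 ^ Fintype.card ι := by
        rw [le_div_iff₀ hT]
        linarith
      rw [e]
      linarith
    refine hkey.trans ?_
    rw [he] at hpar
    obtain ⟨k, hk⟩ := ZMod.natCast_eq_zero_iff_even.mp hpar
    rcases Nat.eq_zero_or_pos k with hk0 | hk0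
    · have hs0 : s = 0 := by omega
      rw [hs0, pow_zero] at hs
      have htriv : ∀ x, M.mulVec x = 0 → x = 0 := fun x hx =>
        Finset.card_le_one.mp hs.le x (Finset.mem_filter.mpr ⟨Finset.mem_univ _, hx⟩) 0
          (Finset.mem_filter.mpr ⟨Finset.mem_univ _, Matrix.mulVec_zero M⟩)
      rw [if_pos htriv, hs]
      norm_num
    · have h4 : 2 ^ 2 ≤ 2 ^ s := Nat.pow_le_pow_right (by norm_num) (by omega)
      rw [← hs] at h4
      have h5 : (4 : ℝ) ≤ ((univ.filter fun x : ι → ZMod 2 => M.mulVec x = 0).card : ℝ) := by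
        exact_mod_cast h4
      linarith
  · rw [he, lin2_sgn_one] at hσ
    subst hσ
    have e : (1 + -1 : ℝ) * E0 M w S / 2 ^ Fintype.card ι = 0 := by simp
    rw [e]
    linarith

end Pool.Agent.Lib.MP_788af2_nt.R0
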