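import Pool.Agent.Lib.MP_788af2_nt.R0.Jac2
import Pool.Agent.Lib.MP_788af2_nt.R0.Base

namespace Pool.Agent.Lib.MP_788af2_nt.R0

open Finset Filter
open scoped NumberTheorySymbols

/-! A Jacobi symbol between two large components of two factorisations. -/

/-- A harmonic sum over split factorisations. -/
lemma link1_harm {κ : Type} [Fintype κ] [DecidableEq κ] (N : ℕ) (o : κ) {C : ℝ} (hC : 0 ≤ C) :
    ∑ t ∈ Icc 1 N, ∑ _D ∈ tup κ t with _D o = 1, C * ((N / t : ℕ) : ℝ) ≤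
      C * N * (1 + Real.log N) ^ Fintype.card κ := by
  calc ∑ t ∈ Icc 1 N, ∑ _D ∈ tup κ t with _D o = 1, C * ((N / t : ℕ) : ℝ)
      ≤ ∑ t ∈ Icc 1 N, C * N * (((tup κ t).card : ℝ) / t) := by
        refine sum_le_sum fun t _ => ?_
        rw [sum_const, nsmul_eq_mul]
        have h1 : (((tup κ t).filter fun D => D o = 1).card : ℝ) ≤ (tup κ t).card := by
          exact_mod_cast card_filter_le _ _
        have h2 : ((N / t : ℕ) : ℝ) ≤ (N : ℝ) / t := Nat.cast_div_le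
        calc (((tup κ t).filter fun D => D o = 1).card : ℝ) * (C * ((N / t : ℕ) : ℝ))
            ≤ ((tup κ t).card : ℝ) * (C * ((N : ℝ) / t)) := by gcongr
          _ = C * N * (((tup κ t).card : ℝ) / t) := by ring
    _ = C * N * ∑ t ∈ Icc 1 N, ((tup κ t).card : ℝ) / t := by rw [mul_sum]
    _ ≤ C * N * (1 + Real.log N) ^ Fintype.card κ := by
        gcongr
        exact sum_inv_tup_le N

/-- The bound for a fixed outer cofactor. -/
lemma link1_inner {κ : Type} [Fintype κ] [DecidableEq κ] (N Y g : ℕ) {z : ℕ} (hz : 0 < z)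
    (o : κ) (w : (κ → ℕ) → ℂ) (s : ℕ → (κ → ℕ) → ℂ) (hw : ∀ D, ‖w D‖ ≤ 1)
    (hs : ∀ x D, ‖s x D‖ ≤ 1) (hso : ∀ x D r, s x (Function.update D o r) = s x D)
    (sw : ∀ D, w D ≠ 0 → good g (D o) ∧ z ^ 6 ≤ D o) (ss : ∀ x D, s x D ≠ 0 → z ^ 6 ≤ x) :
    ∑ x ∈ Icc 1 N, (if good g x then ‖∑ c ∈ Icc 1 Y, ∑ D ∈ tup κ c,
      w D * s x D * (J((x : ℤ) | D o) : ℂ)‖ else 0) ≤
      8 * g * N / z * Y * (1 + Real.log Y) ^ Fintype.card κ := by
  have key : ∀ x : ℕ, (if good g x then ‖∑ c ∈ Icc 1 Y, ∑ D ∈ tup κ c,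
      w D * s x D * (J((x : ℤ) | D o) : ℂ)‖ else 0) ≤
      ∑ t ∈ Icc 1 Y, ∑ D ∈ tup κ t with D o = 1, (if good g x ∧ z ^ 6 ≤ x then
        ‖∑ r ∈ Icc 1 (Y / t), w (Function.update D o r) * (J((x : ℤ) | r) : ℂ)‖ else 0) := by
    intro x
    by_cases hx : good g x
    · rw [if_pos hx, sum_Icc_tup_split Y o]
      refine (norm_sum_le _ _).trans (sum_le_sum fun t _ => ?_)
      refine (norm_sum_le _ _).trans (sum_le_sum fun D _ => ?_)
      have e : ∑ r ∈ Icc 1 (Y / t), w (Function.update D o r) * s x (Function.update D o r) *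
          (J((x : ℤ) | Function.update D o r o) : ℂ) =
          s x D * ∑ r ∈ Icc 1 (Y / t), w (Function.update D o r) * (J((x : ℤ) | r) : ℂ) := by
        rw [mul_sum]
        refine sum_congr rfl fun r _ => ?_
        rw [hso, Function.update_self]
        ring
      rw [e, norm_mul]
      by_cases h0 : s x D = 0
      · rw [h0, norm_zero, zero_mul]
        split_ifs
        · exact norm_nonneg _
        · exact le_rfl
      · rw [if_pos ⟨hx, ss x D h0⟩]
        exact mul_le_of_le_one_left (norm_nonneg _) (hs x D)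
    · rw [if_neg hx]
      refine sum_nonneg fun t _ => sum_nonneg fun D _ => ?_
      split_ifs
      · exact norm_nonneg _
      · exact le_rfl
  refine (sum_le_sum fun x _ => key x).trans ?_
  rw [sum_comm]
  refine le_trans (sum_le_sum fun t _ => ?_) (link1_harm Y o (C := 8 * g * N / z) (by positivity))
  rw [sum_comm]
  refine sum_le_sum fun D _ => ?_
  rw [← sum_filter]
  refine (jac_l1a N (Y / t) g hz (fun r => w (Function.update D o r)) (fun r => hw _)
    fun r hr => ?_).trans (le_of_eq ?_)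
  · simpa using sw _ hr
  · ring

lemma link1_log {g N : ℕ} (hg : 42 ≤ g) (hN : N ≤ 2 ^ (41 * g)) :
    0 ≤ 1 + Real.log N ∧ 1 + Real.log N ≤ (g : ℝ) ^ 2 := by
  have h0 : 0 ≤ Real.log N := Real.log_natCast_nonneg N
  refine ⟨by linarith, ?_⟩
  have hg' : (42 : ℝ) ≤ g := by exact_mod_cast hg
  have h1 : Real.log N ≤ 41 * g := by
    rcases Nat.eq_zero_or_pos N with h | h
    · rw [h, Nat.cast_zero, Real.log_zero]
      positivity
    · have h2 : (N : ℝ) ≤ 2 ^ (41 * g) := by exact_mod_cast hN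
      have h3 : (0 : ℝ) < N := by exact_mod_cast h
      have h4 : Real.log 2 ≤ 1 := by
        have := Real.log_two_lt_d9
        linarith
      calc Real.log N ≤ Real.log (2 ^ (41 * g)) := Real.log_le_log h3 h2
        _ = (41 * g : ℕ) * Real.log 2 := Real.log_pow _ _
        _ ≤ (41 * g : ℕ) * 1 := by gcongr
        _ = 41 * g := by push_cast; ring
  nlinarith

theorem link_core (κ : Type) [Fintype κ] [DecidableEq κ] (k : ℕ) : ∃ k' : ℕ,
    ∀ᶠ g : ℕ in atTop, ∀ (M Y : ℕ) (SA : Finset ℕ) (v : U) (o : κ)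
    (w s : (U → ℕ) → (κ → ℕ) → ℂ), M ≤ 2 ^ (41 * g) → Y ≤ 2 ^ (41 * g) →
    (∀ a ∈ SA, a ≤ M ∧ good g a) → (∀ A D, ‖w A D‖ ≤ 1) → (∀ A D, ‖s A D‖ ≤ 1) →
    (∀ A D x, w (Function.update A v x) D = w A D) →
    (∀ A D x, s A (Function.update D o x) = s A D) →
    (∀ A D, w A D ≠ 0 → good g (D o) ∧ g ^ k' ≤ D o) → (∀ A D, s A D ≠ 0 → g ^ k' ≤ A v) →
    ∑ a ∈ SA, ∑ A ∈ tup U a, ‖∑ c ∈ Icc 1 Y, ∑ D ∈ tup κ c,
      w A D * s A D * (J((A v : ℤ) | D o) : ℂ)‖ ≤ (M : ℝ) * Y / (g : ℝ) ^ k := by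
  refine ⟨(k + 2 * Fintype.card κ + 10) * 6, ?_⟩
  filter_upwards [eventually_ge_atTop 42] with g hg M Y SA v o w s hM hY hSA hw hs hwv hso sw ss
  set z : ℕ := g ^ (k + 2 * Fintype.card κ + 10) with hzdef
  have hg0 : 0 < g := by omega
  have hz : 0 < z := pow_pos hg0 _
  rw [pow_mul, ← hzdef] at sw ss
  set G : (U → ℕ) → ℝ := fun A => if good g (A v) then ‖∑ c ∈ Icc 1 Y, ∑ D ∈ tup κ c,
      w A D * s A D * (J((A v : ℤ) | D o) : ℂ)‖ else 0 with hG
  have hG0 : ∀ A, 0 ≤ G A := fun A => by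
    simp only [hG]
    split_ifs
    · exact norm_nonneg _
    · exact le_rfl
  have h1 : ∑ a ∈ SA, ∑ A ∈ tup U a, ‖∑ c ∈ Icc 1 Y, ∑ D ∈ tup κ c,
      w A D * s A D * (J((A v : ℤ) | D o) : ℂ)‖ ≤ ∑ a ∈ Icc 1 M, ∑ A ∈ tup U a, G A := by
    have e : ∑ a ∈ SA, ∑ A ∈ tup U a, ‖∑ c ∈ Icc 1 Y, ∑ D ∈ tup κ c,
        w A D * s A D * (J((A v : ℤ) | D o) : ℂ)‖ = ∑ a ∈ SA, ∑ A ∈ tup U a, G A := by
      refine sum_congr rfl fun a ha => sum_congr rfl fun A hA => ?_
      have hd : A v ∣ a := by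
        have := (mem_filter.1 hA).2
        rw [← this]
        exact dvd_prod_of_mem _ (mem_univ v)
      simp only [hG]
      rw [if_pos ((hSA a ha).2.of_dvd hd)]
    rw [e]
    refine sum_le_sum_of_subset_of_nonneg (fun a ha => ?_) fun a _ _ =>
      sum_nonneg fun A _ => hG0 A
    exact mem_Icc.2 ⟨Nat.pos_of_ne_zero (hSA a ha).2.1.ne_zero, (hSA a ha).1⟩
  refine h1.trans ?_
  rw [sum_Icc_tup_split M v G]
  obtain ⟨hY0, hY2⟩ := link1_log hg hY
  obtain ⟨hM0, hM2⟩ := link1_log hg hM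
  have h2 : ∀ (t : ℕ) (A : U → ℕ), ∑ x ∈ Icc 1 (M / t), G (Function.update A v x) ≤
      (8 * g / z * Y * (1 + Real.log Y) ^ Fintype.card κ) * ((M / t : ℕ) : ℝ) := by
    intro t A
    have := link1_inner (M / t) Y g hz o (w A) (fun x D => s (Function.update A v x) D)
      (hw A) (fun x D => hs _ _) (fun x D r => hso _ _ _) (sw A)
      (fun x D h => by simpa using ss _ _ h)
    refine le_trans (le_of_eq ?_) (this.trans (le_of_eq ?_))
    · refine sum_congr rfl fun x _ => ?_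
      simp only [hG, Function.update_self, hwv]
    · ring
  refine (sum_le_sum fun t _ => sum_le_sum fun A _ => h2 t A).trans ?_
  refine (link1_harm M v (by positivity)).trans ?_
  have hU : Fintype.card U = 4 := by simp [U]
  have hg' : (42 : ℝ) ≤ g := by exact_mod_cast hg
  have hgp : (0 : ℝ) < g := by linarith
  rw [hU]
  calc 8 * (g : ℝ) / z * Y * (1 + Real.log Y) ^ Fintype.card κ * M * (1 + Real.log M) ^ 4
      ≤ g * (g : ℝ) / z * Y * ((g : ℝ) ^ 2) ^ Fintype.card κ * M * ((g : ℝ) ^ 2) ^ 4 := by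
        gcongr
        linarith
    _ = (M : ℝ) * Y / (g : ℝ) ^ k := by
        rw [hzdef]
        push_cast
        field_simp
        ring

end Pool.Agent.Lib.MP_788af2_nt.R0
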