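import Pool.Agent.Lib.MP_788af2_nt.R0.Phi1
import Pool.Agent.Lib.MP_788af2_nt.R0.Base

namespace Pool.Agent.Lib.MP_788af2_nt.R0

open Finset Filter
open scoped NumberTheorySymbols

/-! Dispersion over the two large primes of a cell. -/

/-- The index set of a cell. -/
noncomputable def phi2_S {g Z : ℕ} (C : Cell g Z) :
    Finset (Σ _ : ℕ × ℕ, (U → ℕ) × (U → ℕ)) :=
  ((C.SA ×ˢ C.SB).filter fun x => x.1.Coprime x.2).sigma fun x => tup U x.1 ×ˢ tup U x.2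

lemma phi2_PS {g Z : ℕ} (C : Cell g Z) {M : Type} [AddCommMonoid M]
    (f : ℕ → ℕ → (U → ℕ) → (U → ℕ) → M) :
    PS C f = ∑ n ∈ phi2_S C, f n.1.1 n.1.2 n.2.1 n.2.2 := by
  rw [phi2_S, sum_sigma, sum_filter, sum_product]
  refine sum_congr rfl fun a _ => sum_congr rfl fun b _ => ?_
  split_ifs
  · rw [sum_product]
  · rfl

lemma phi2_mem {g Z : ℕ} (C : Cell g Z) {n : Σ _ : ℕ × ℕ, (U → ℕ) × (U → ℕ)}
    (h : n ∈ phi2_S C) : n.1.1 ∈ C.SA ∧ n.1.2 ∈ C.SB ∧ n.1.1.Coprime n.1.2 ∧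
      n.2 ∈ tup U n.1.1 ×ˢ tup U n.1.2 := by
  rw [phi2_S, mem_sigma, mem_filter, mem_product] at h
  exact ⟨h.1.1.1, h.1.1.2, h.1.2, h.2⟩

lemma phi2_fib {g Z : ℕ} (hg : 1 ≤ g) (C : Cell g Z) (x y : ℕ) :
    ((phi2_S C).filter fun n => n.1.1 = x ∧ n.1.2 = y).card ≤ g ^ 4 := by
  rcases ((phi2_S C).filter fun n => n.1.1 = x ∧ n.1.2 = y).eq_empty_or_nonempty with h | ⟨m, hm⟩
  · rw [h]
    simp
  · obtain ⟨hm', rfl, rfl⟩ := mem_filter.1 hm
    obtain ⟨h1, h2, -, -⟩ := phi2_mem C hm'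
    have h3 := ((C.hA _ h1).2.2.good hg).card_tup_U
    have h4 := ((C.hB _ h2).2.2.good hg).card_tup_U
    refine le_trans (card_le_card_of_injOn (t := tup U m.1.1 ×ˢ tup U m.1.2) (fun n => n.2)
      (fun n hn => ?_) (fun n hn n' hn' e => ?_)) ?_
    · obtain ⟨hn, e1, e2⟩ := mem_filter.1 (mem_coe.1 hn)
      have h5 := (phi2_mem C hn).2.2.2
      rw [e1, e2] at h5
      exact h5
    · obtain ⟨-, e1, e2⟩ := mem_filter.1 (mem_coe.1 hn)
      obtain ⟨-, e3, e4⟩ := mem_filter.1 (mem_coe.1 hn')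
      obtain ⟨⟨a, b⟩, t⟩ := n
      obtain ⟨⟨a', b'⟩, t'⟩ := n'
      simp only at e e1 e2 e3 e4
      subst e
      rw [e1, e2, e3, e4]
    · rw [card_product, show g ^ 4 = g ^ 2 * g ^ 2 by ring]
      exact Nat.mul_le_mul h3 h4

lemma phi2_num {a b x V K l Λ z G D p q L : ℝ} (ha : 0 < a) (hb : 0 < b) (hx : 0 < x)
    (hK : 1 ≤ K) (hz : 0 < z) (hD : 0 < D) (hΛ : 0 ≤ Λ) (hG : 0 ≤ G) (hL : 0 ≤ L)
    (hq : 0 ≤ q) (hV : b * V = 4 * x) (hap : a * p ≤ 32 * x) (hbq : b * q ≤ 4 * x)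
    (hl1 : 64 * x ≤ l * K ^ 3) (hl2 : l * K ^ 3 ≤ 128 * x) (h3 : 3 * K ≤ a * b)
    (h4 : a * b * K ^ 3 * z ≤ x) :
    p * q * (V / a) * ((5 * Λ * (2 * a * K ^ 2 * l / V + 3) + 28 * Λ * a * b / K ^ 2) *
        (Λ * a * b * (x * G)) + 5 / l * (6 * Λ * a * b * (a * b * x ^ 2 / D) + 100 * L *
          (6 * Λ * a * b / z * l + 72 * Λ * (a * b) ^ 2) * (Λ * a * b * (x * G)))) ≤
      x ^ 4 * (200000 * Λ ^ 2 * G / K + 240 * Λ * K ^ 3 / D + 2048000 * L * Λ ^ 2 * G / z) := by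
  have hK0 : 0 < K := by linarith
  have hK3 : 0 < K ^ 3 := by positivity
  have hl : 0 < l := by
    by_contra h
    have := mul_nonpos_of_nonpos_of_nonneg (not_lt.1 h) hK3.le
    linarith
  have eV : V = 4 * x / b := by
    rw [eq_div_iff hb.ne']
    linarith
  have e1 : p * q * (V / a) ≤ 512 * x ^ 3 / (a * b) ^ 2 := by
    have h5 : p ≤ 32 * x / a := by
      rw [le_div_iff₀ ha]
      linarith
    have h6 : q ≤ 4 * x / b := by
      rw [le_div_iff₀ hb]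
      linarith
    calc p * q * (V / a) ≤ (32 * x / a) * (4 * x / b) * (4 * x / b / a) := by
          rw [eV]
          gcongr
      _ = _ := by
          field_simp
          ring
  have e2 : 2 * a * K ^ 2 * l / V ≤ 64 * (a * b / K) := by
    have h5 : l ≤ 128 * x / K ^ 3 := by
      rw [le_div_iff₀ hK3]
      exact hl2
    calc 2 * a * K ^ 2 * l / V ≤ 2 * a * K ^ 2 * (128 * x / K ^ 3) / (4 * x / b) := by
          rw [eV]
          gcongr
      _ = _ := by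
          field_simp
          ring
  have e3 : 3 ≤ a * b / K := by
    rw [le_div_iff₀ hK0]
    exact h3
  have e4 : 28 * Λ * a * b / K ^ 2 ≤ 28 * Λ * (a * b / K) := by
    have h5 : K ≤ K ^ 2 := by nlinarith
    calc 28 * Λ * a * b / K ^ 2 ≤ 28 * Λ * a * b / K := by gcongr
      _ = _ := by ring
  have e5 : 5 * Λ * (2 * a * K ^ 2 * l / V + 3) + 28 * Λ * a * b / K ^ 2 ≤
      353 * Λ * (a * b / K) := by
    have h5 : 5 * Λ * (2 * a * K ^ 2 * l / V + 3) ≤ 5 * Λ * (65 * (a * b / K)) :=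
      mul_le_mul_of_nonneg_left (by linarith) (by positivity)
    linarith
  have e6 : 1 / l ≤ K ^ 3 / (64 * x) := by
    rw [div_le_div_iff₀ hl (by positivity)]
    linarith
  have e7 : a * b / l ≤ 1 / (64 * z) := by
    rw [div_le_div_iff₀ hl (by positivity)]
    have h5 : a * b * (64 * z) * K ^ 3 ≤ 1 * l * K ^ 3 := by linarith
    exact le_of_mul_le_mul_right h5 hK3
  have e8 : 5 / l * (6 * Λ * a * b * (a * b * x ^ 2 / D) + 100 * L *
      (6 * Λ * a * b / z * l + 72 * Λ * (a * b) ^ 2) * (Λ * a * b * (x * G))) ≤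
      (a * b) ^ 2 * x * (30 / 64 * Λ * K ^ 3 / D + 4000 * L * Λ ^ 2 * G / z) := by
    have h5 : 5 / l * (6 * Λ * a * b * (a * b * x ^ 2 / D) + 100 * L *
        (6 * Λ * a * b / z * l + 72 * Λ * (a * b) ^ 2) * (Λ * a * b * (x * G))) =
        (a * b) ^ 2 * x * (30 * Λ * x / D * (1 / l) +
          500 * L * Λ ^ 2 * G * (6 / z + 72 * (a * b / l))) := by
      field_simp
      ring
    rw [h5]
    refine mul_le_mul_of_nonneg_left (add_le_add ?_ ?_) (by positivity)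
    · calc 30 * Λ * x / D * (1 / l) ≤ 30 * Λ * x / D * (K ^ 3 / (64 * x)) := by gcongr
        _ = _ := by
          field_simp
    · have h6 : 6 / z + 72 * (a * b / l) ≤ 8 / z := by
        have h7 : 1 / (64 * z) = 1 / 64 * (1 / z) := by field_simp
        have h8 : 0 < 1 / z := by positivity
        have h9 : 6 / z = 6 * (1 / z) := by ring
        have h10 : 8 / z = 8 * (1 / z) := by ring
        linarith
      calc 500 * L * Λ ^ 2 * G * (6 / z + 72 * (a * b / l)) ≤ 500 * L * Λ ^ 2 * G * (8 / z) := by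
            gcongr
        _ = _ := by ring
  have hV0 : 0 < V := by
    rw [eV]
    positivity
  calc _ ≤ 512 * x ^ 3 / (a * b) ^ 2 * (353 * Λ * (a * b / K) * (Λ * a * b * (x * G)) +
        (a * b) ^ 2 * x * (30 / 64 * Λ * K ^ 3 / D + 4000 * L * Λ ^ 2 * G / z)) :=
        mul_le_mul e1 (add_le_add (mul_le_mul_of_nonneg_right e5 (by positivity)) e8)
          (by positivity) (by positivity)
    _ = x ^ 4 * (180736 * (Λ ^ 2 * G / K) + 240 * Λ * K ^ 3 / D +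
          2048000 * L * Λ ^ 2 * G / z) := by
        field_simp
        ring
    _ ≤ _ := by
        have h5 : 0 ≤ Λ ^ 2 * G / K := by positivity
        have h6 : 200000 * Λ ^ 2 * G / K = 200000 * (Λ ^ 2 * G / K) := by ring
        refine mul_le_mul_of_nonneg_left ?_ (by positivity)
        linarith

lemma phi2_fin {g L : ℝ} (k k1 : ℕ) (hg : 20000000 ≤ g) (hL : L ≤ 6 * g) :
    200000 * (g ^ 4) ^ 2 * g ^ k1 / g ^ (2 * k + k1 + 10) +
      240 * g ^ 4 * (g ^ (2 * k + k1 + 10)) ^ 3 / g ^ (3 * (2 * k + k1 + 10) + 2 * k + 5) +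
      2048000 * L * (g ^ 4) ^ 2 * g ^ k1 / g ^ (2 * k + k1 + 10) ≤ 1 / (g ^ k) ^ 2 := by
  have h0 : 0 < g := by linarith
  have e1 : 200000 * (g ^ 4) ^ 2 * g ^ k1 / g ^ (2 * k + k1 + 10) =
      200000 / g ^ 2 * (1 / (g ^ k) ^ 2) := by
    field_simp
    ring
  have e2 : 240 * g ^ 4 * (g ^ (2 * k + k1 + 10)) ^ 3 / g ^ (3 * (2 * k + k1 + 10) + 2 * k + 5) =
      240 / g * (1 / (g ^ k) ^ 2) := by
    field_simp
    ring
  have e3 : 2048000 * L * (g ^ 4) ^ 2 * g ^ k1 / g ^ (2 * k + k1 + 10) =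
      2048000 * L / g ^ 2 * (1 / (g ^ k) ^ 2) := by
    field_simp
    ring
  have e4 : 200000 / g ^ 2 + 240 / g + 2048000 * L / g ^ 2 ≤ 1 := by
    have h1 : 200000 / g ^ 2 + 240 / g + 2048000 * L / g ^ 2 =
        (200000 + 240 * g + 2048000 * L) / g ^ 2 := by
      field_simp
    rw [h1, div_le_one (by positivity)]
    nlinarith
  rw [e1, e2, e3, ← add_mul, ← add_mul]
  exact mul_le_of_le_one_left (by positivity) e4

theorem phi_cell (k k1 : ℕ) : ∃ kK kz k2 : ℕ, ∀ᶠ g : ℕ in atTop, ∀ (Z : ℕ) (C : Cell g Z)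
    (F : ℕ → ℕ → ℂ) (H : (U → ℕ) → (U → ℕ) → ℤ → ℂ), (∀ P Q, ‖F P Q‖ ≤ 1) →
    (∀ A B y, H A B y ≠ 0 → y ∈ Ioc (0 : ℤ) ((g ^ (3 * kK) : ℕ) * ell g kK)) →
    (∀ A B, N2 (Ioc 0 ((g ^ (3 * kK) : ℕ) * ell g kK)) (H A B) ≤ XX g * (g : ℝ) ^ k1) →
    PS C (fun _ _ A B => ∑ i ∈ range (g ^ (3 * kK)), ∑ q ∈ Icc 1 (g ^ kz),
      Mq (Iv (ell g kK) i) (H A B) q) ≤ 2 ^ C.i * 2 ^ C.j * (XX g : ℝ) ^ 2 / (g : ℝ) ^ k2 →
    ‖∑ P ∈ C.SP, ∑ Q ∈ C.SQ, F P Q * PS C fun a b A B => H A B ((a : ℤ) * P - b * Q)‖ ≤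
      (XX g : ℝ) ^ 2 / (g : ℝ) ^ k := by
  refine ⟨2 * k + k1 + 10, 2 * k + k1 + 10, 3 * (2 * k + k1 + 10) + 2 * k + 5, ?_⟩
  generalize hkK : 2 * k + k1 + 10 = kK
  filter_upwards [eventually_ge_atTop 20000000, ev_pow_le 3 (4 * kK)] with g hg hp Z C F H hF hH
    hN hS
  have hg1 : 1 ≤ g := by omega
  have hi := C.hi
  have hi' := C.hi'
  have hj := C.hj
  have hj' := C.hj'
  have hK1 : 1 ≤ g ^ kK := Nat.one_le_pow _ _ hg1
  have hK2 : 2 ≤ g ^ kK := le_trans (by omega) (Nat.le_self_pow (by omega) g)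
  have hK4 : (g ^ kK) ^ 3 * g ^ kK = g ^ (4 * kK) := by ring
  have hK3 : g ^ (3 * kK) = (g ^ kK) ^ 3 := by ring
  have hBV : 2 ^ C.j * 2 ^ (40 * g + 2 - C.j) = 4 * XX g := by
    rw [← pow_add, show C.j + (40 * g + 2 - C.j) = 2 + 40 * g by omega, pow_add, XX]
    norm_num
  have hl : 0 < ell g kK := Nat.succ_pos _
  have key := phi_gen (phi2_S C) (fun n => n.1.1) (fun n => n.1.2) (fun n => H n.2.1 n.2.2)
    (A := 2 ^ C.i) (B := 2 ^ C.j) (V := 2 ^ (40 * g + 2 - C.j)) (K := g ^ kK)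
    (l := ell g kK) (N := g ^ (3 * kK)) (Λ := g ^ 4) (Z1 := g ^ kK) (h2 := XX g * (g : ℝ) ^ k1)
    (Sm := 2 ^ C.i * 2 ^ C.j * (XX g : ℝ) ^ 2 / (g : ℝ) ^ (3 * kK + 2 * k + 5))
    (by positivity) (by positivity) (Nat.pow_le_pow_right (by norm_num) (by omega)) hK2 hl hK1
    (by positivity)
    (fun n hn => by
      obtain ⟨h1, h2, h3, -⟩ := phi2_mem C hn
      have h4 := C.hA _ h1
      have h5 := C.hB _ h2
      rw [pow_succ'] at h4 h5
      exact ⟨h4.1, h4.2.1, h5.1, h5.2.1, h3⟩)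
    (phi2_fib hg1 C) (fun n _ y hy => hH _ _ y hy) (fun n _ => hN _ _)
    (by rw [phi2_PS] at hS; exact hS) C.SP C.SQ
    (fun Q hQ => by
      have h1 := (C.hQ Q hQ).2.2
      rw [← hBV] at h1
      exact Nat.le_of_mul_le_mul_left h1 (by positivity)) F hF
  simp only [phi2_PS]
  have hX : (0 : ℝ) < XX g := by
    rw [XX]
    positivity
  have hg0 : (0 : ℝ) < g := by exact_mod_cast hg1
  have hab : 2 ^ C.i * 2 ^ C.j ≤ 2 ^ (6 * g - 2) := by
    rw [← pow_add]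
    exact Nat.pow_le_pow_right (by norm_num) (by omega)
  have hL : Nat.log 2 (3 * 2 ^ C.i * 2 ^ C.j) + 1 ≤ 6 * g := by
    refine Nat.succ_le_of_lt (Nat.log_lt_of_lt_pow (by positivity) ?_)
    have h1 : 2 ^ (6 * g) = 4 * 2 ^ (6 * g - 2) := by
      rw [show 6 * g = 2 + (6 * g - 2) by omega, pow_add]
      simp
    have h2 : 0 < 2 ^ (6 * g - 2) := by positivity
    rw [h1, mul_assoc]
    omega
  have hKg : (g ^ kK) ^ 3 * g ^ kK ≤ 2 ^ g := by
    rw [hK4]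
    omega
  have hK3' : 0 < (g ^ kK) ^ 3 := by positivity
  have hKX : (g ^ kK) ^ 3 ≤ 64 * XX g := by
    have h1 : 2 ^ g ≤ XX g := Nat.pow_le_pow_right (by norm_num) (by omega)
    have h2 : (g ^ kK) ^ 3 ≤ (g ^ kK) ^ 3 * g ^ kK := Nat.le_mul_of_pos_right _ hK1
    omega
  have hl1 : 64 * XX g ≤ ell g kK * (g ^ kK) ^ 3 := by
    rw [ell, hK3, add_mul, one_mul]
    exact (Nat.lt_div_mul_add hK3').le
  have hl2 : ell g kK * (g ^ kK) ^ 3 ≤ 128 * XX g := by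
    rw [ell, hK3, add_mul, one_mul]
    have h1 := Nat.div_mul_le_self (64 * XX g) ((g ^ kK) ^ 3)
    omega
  have h3 : 3 * g ^ kK ≤ 2 ^ C.i * 2 ^ C.j := by
    have h1 : g ^ kK ≤ g ^ (4 * kK) := Nat.pow_le_pow_right hg1 (by omega)
    have h2 : 2 ^ g ≤ 2 ^ C.i * 2 ^ C.j := by
      rw [← pow_add]
      exact Nat.pow_le_pow_right (by norm_num) (by omega)
    omega
  have h4 : 2 ^ C.i * 2 ^ C.j * (g ^ kK) ^ 3 * g ^ kK ≤ XX g := by
    rw [mul_assoc]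
    refine (Nat.mul_le_mul hab hKg).trans ?_
    rw [← pow_add]
    exact Nat.pow_le_pow_right (by norm_num) (by omega)
  have num := phi2_num (a := ((2 ^ C.i : ℕ) : ℝ)) (b := ((2 ^ C.j : ℕ) : ℝ)) (x := XX g)
    (V := ((2 ^ (40 * g + 2 - C.j) : ℕ) : ℝ)) (K := ((g ^ kK : ℕ) : ℝ)) (l := ell g kK)
    (Λ := ((g ^ 4 : ℕ) : ℝ)) (z := ((g ^ kK : ℕ) : ℝ)) (G := (g : ℝ) ^ k1)
    (D := (g : ℝ) ^ (3 * kK + 2 * k + 5)) (p := C.SP.card) (q := C.SQ.card)
    (L := (Nat.log 2 (3 * 2 ^ C.i * 2 ^ C.j) : ℝ) + 1) (by positivity) (by positivity) hX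
    (by exact_mod_cast hK1) (by positivity) (by positivity) (by positivity) (by positivity)
    (by positivity) (by positivity) (by exact_mod_cast hBV)
    (by exact_mod_cast C.card_SP) (by exact_mod_cast C.card_SQ) (by exact_mod_cast hl1)
    (by exact_mod_cast hl2) (by exact_mod_cast h3) (by exact_mod_cast h4)
  have fin := phi2_fin (g := g) (L := (Nat.log 2 (3 * 2 ^ C.i * 2 ^ C.j) : ℝ) + 1) k k1
    (by exact_mod_cast hg) (by exact_mod_cast hL)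
  rw [hkK] at fin
  refine (pow_le_pow_iff_left₀ (norm_nonneg _) (by positivity) two_ne_zero).1 (key.trans ?_)
  push_cast at num ⊢
  refine num.trans ?_
  calc _ ≤ (XX g : ℝ) ^ 4 * (1 / ((g : ℝ) ^ k) ^ 2) :=
        mul_le_mul_of_nonneg_left fin (by positivity)
    _ = _ := by
        field_simp

end Pool.Agent.Lib.MP_788af2_nt.R0
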