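import Pool.Agent.Lib.MP_788af2_nt.R0.Link1
import Pool.Agent.Lib.MP_788af2_nt.R0.Phi2

namespace Pool.Agent.Lib.MP_788af2_nt.R0

open Finset Filter
open scoped NumberTheorySymbols

/-! The link case. -/

/-- The generic form of the link bound. -/
lemma link2_gen (k : ℕ) : ∃ k' : ℕ, ∀ᶠ g : ℕ in atTop, ∀ (M Y : ℕ) (SA : Finset ℕ) (v : U)
    (o : Option U) (ty : Option U → U) (ψ : (Option U → ℕ) → ℂ) (σ : (U → ℕ) → ℝ)
    (ρ : Option U → (U → ℕ) → ℕ → ℝ), M ≤ 2 ^ (41 * g) → Y ≤ 2 ^ (41 * g) →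
    (∀ a ∈ SA, a ≤ M ∧ good g a) → (∀ D, ‖ψ D‖ ≤ 1) → (∀ A, |σ A| ≤ 1) →
    (∀ o' A n, |ρ o' A n| ≤ 1) → (∀ A n, ρ o A n = 1) → br v (ty o) + qf v = 1 →
    (∀ D, ψ D ≠ 0 → good g (D o) ∧ g ^ k' ≤ D o) → (∀ A, σ A ≠ 0 → g ^ k' ≤ A v) →
    ∑ a ∈ SA, ∑ A ∈ tup U a, ‖∑ c ∈ Icc 1 Y, ∑ D ∈ tup (Option U) c,
      ψ D * ((σ A * ∏ o', (lkA (ty o') A (D o') * ρ o' A (D o')) : ℝ) : ℂ)‖ ≤
      (M : ℝ) * Y / (g : ℝ) ^ k := by
  obtain ⟨k', hk'⟩ := link_core (Option U) k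
  refine ⟨k', ?_⟩
  filter_upwards [hk'] with g hg M Y SA v o ty ψ σ ρ hM hY hSA hψ hσ hρ hρo hbr hψ0 hσ0
  have key := hg M Y SA v o
    (fun A D => ψ D * ((∏ v' ∈ univ.erase v, Jp (br v' (ty o) + qf v') (A v') (D o) : ℝ) : ℂ))
    (fun A D => ((σ A * ∏ o' ∈ univ.erase o, (lkA (ty o') A (D o') * ρ o' A (D o')) : ℝ) : ℂ))
    hM hY hSA ?_ ?_ ?_ ?_ ?_ ?_
  · refine le_trans (le_of_eq ?_) key
    refine sum_congr rfl fun a _ => sum_congr rfl fun A _ => ?_
    congr 1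
    refine sum_congr rfl fun c _ => sum_congr rfl fun D _ => ?_
    rw [← mul_prod_erase univ _ (mem_univ o), hρo, lkA, ← mul_prod_erase univ _ (mem_univ v), hbr]
    have h1 : Jp 1 (A v) (D o) = (J((A v : ℤ) | D o) : ℝ) := by
      unfold Jp; rw [if_neg (by decide)]
    rw [h1]; push_cast; ring
  · intro A D
    rw [norm_mul, Complex.norm_real, Real.norm_eq_abs]
    exact mul_le_one₀ (hψ D) (abs_nonneg _) (abs_prod_le_one _ _ fun _ _ => abs_Jp_le _ _ _)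
  · intro A D
    rw [Complex.norm_real, Real.norm_eq_abs, abs_mul]
    refine mul_le_one₀ (hσ A) (abs_nonneg _) (abs_prod_le_one _ _ fun _ _ => ?_)
    rw [abs_mul]
    exact mul_le_one₀ (abs_lkA_le ..) (abs_nonneg _) (hρ ..)
  · intro A D x
    congr 2
    refine prod_congr rfl fun v' hv' => ?_
    rw [Function.update_of_ne (ne_of_mem_erase hv')]
  · intro A D x
    congr 2
    refine prod_congr rfl fun o' ho' => ?_
    rw [Function.update_of_ne (ne_of_mem_erase ho')]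
  · intro A D h
    exact hψ0 D (left_ne_zero_of_mul h)
  · intro A D h
    refine hσ0 A fun h0 => h ?_
    simp [h0]

/-- The components whose symbol with `P` is present. -/
def link2_Sp (τ : ZMod 2) (uR : U) : Finset (Option U) :=
  univ.filter fun o' => qf (o'.getD uR) + τ = 1

/-- The summand without the symbol of `P`. -/
noncomputable def link2_G (τ : ZMod 2) (uR : U) (gA gB : (U → ℕ) → ℝ) (φ : Option U → ℕ → ℝ)
    (A B : U → ℕ) (D : Option U → ℕ) : ℝ :=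
  gA A * gB B * kab A B * ∏ o, (φ o (D o) * lk τ (o.getD uR) A B (∏ u, A u) (D o))

/-- The coefficient of `c`. -/
noncomputable def link2_K (g Z : ℕ) (Sp : Finset (Option U)) (G : (Option U → ℕ) → ℝ) (s0 c : ℕ) :
    ℂ :=
  if typ g Z c then ∑ D ∈ tup (Option U) c, (if ∏ o ∈ Sp, D o = s0 then (G D : ℂ) else 0) else 0

/-- The function fed to the dispersion bound. -/
noncomputable def link2_H (N : ℕ) (K : ℕ → ℂ) (y : ℤ) : ℂ :=
  ∑ c ∈ Icc 1 N, if 16 * (c : ℤ) = y then K c else 0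

lemma link2_abs_G {g : ℕ} {gA gB : (U → ℕ) → ℝ} {φ : Option U → ℕ → ℝ} (h : Wt g gA gB φ)
    (τ : ZMod 2) (uR : U) (A B : U → ℕ) (D : Option U → ℕ) :
    |link2_G τ uR gA gB φ A B D| ≤ 1 := by
  unfold link2_G
  rw [abs_mul, abs_mul, abs_mul]
  refine mul_le_one₀ (mul_le_one₀ (mul_le_one₀ (h.hA A) (abs_nonneg _) (h.hB B)) (abs_nonneg _)
    (abs_kab_le ..)) (abs_nonneg _) (abs_prod_le_one _ _ fun _ _ => ?_)
  rw [abs_mul]
  exact mul_le_one₀ (h.hφ ..) (abs_nonneg _) (abs_lk_le ..)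

lemma link2_norm_K {g : ℕ} (hg : 1 ≤ g) (Z : ℕ) (Sp : Finset (Option U))
    {G : (Option U → ℕ) → ℝ} (hG : ∀ D, |G D| ≤ 1) (s0 c : ℕ) :
    ‖link2_K g Z Sp G s0 c‖ ≤ (g : ℝ) ^ 3 := by
  unfold link2_K
  split_ifs with h
  · refine (norm_sum_le _ _).trans ?_
    refine (sum_le_card_nsmul _ _ 1 fun D _ => ?_).trans ?_
    · split_ifs
      · rw [Complex.norm_real, Real.norm_eq_abs]; exact hG D
      · simp
    · rw [nsmul_eq_mul, mul_one]
      exact_mod_cast (h.good hg).card_tup_opt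
  · simp

lemma link2_H_supp {N : ℕ} {K : ℕ → ℂ} {y : ℤ} (h : link2_H N K y ≠ 0) :
    0 < y ∧ y ≤ 16 * (N : ℤ) := by
  obtain ⟨c, hc, h0⟩ := exists_ne_zero_of_sum_ne_zero h
  rw [mem_Icc] at hc
  have : 16 * (c : ℤ) = y := by
    by_contra hne
    exact h0 (if_neg hne)
  omega

lemma link2_norm_H {N : ℕ} {K : ℕ → ℂ} {B : ℝ} (hB : 0 ≤ B) (hK : ∀ c, ‖K c‖ ≤ B) (y : ℤ) :
    ‖link2_H N K y‖ ≤ B := by
  unfold link2_H
  by_cases h : ∃ c ∈ Icc 1 N, 16 * (c : ℤ) = y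
  · obtain ⟨c, hc, hy⟩ := h
    rw [sum_eq_single_of_mem c hc, if_pos hy]
    · exact hK c
    · intro c' _ hne
      rw [if_neg]
      intro h'
      exact hne (by omega)
  · rw [sum_eq_zero, norm_zero]
    · exact hB
    · intro c hc
      exact if_neg fun h' => h ⟨c, hc, h'⟩

lemma link2_l1_H {N : ℕ} {K : ℕ → ℂ} {B : ℝ} (hB : 0 ≤ B) (hK : ∀ c, ‖K c‖ ≤ B)
    (I : Finset ℤ) : ∑ y ∈ I, ‖link2_H N K y‖ ≤ N * B := by
  calc ∑ y ∈ I, ‖link2_H N K y‖
      ≤ ∑ y ∈ I, ∑ c ∈ Icc 1 N, (if 16 * (c : ℤ) = y then B else 0) := by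
        refine sum_le_sum fun y _ => (norm_sum_le _ _).trans (sum_le_sum fun c _ => ?_)
        split_ifs
        · exact hK c
        · simp
    _ = ∑ c ∈ Icc 1 N, ∑ y ∈ I, (if 16 * (c : ℤ) = y then B else 0) := sum_comm
    _ ≤ ∑ _c ∈ Icc 1 N, B := by
        refine sum_le_sum fun c _ => ?_
        rw [sum_ite_eq]
        split_ifs
        · exact le_rfl
        · exact hB
    _ = N * B := by simp

lemma link2_N2 {N : ℕ} {K : ℕ → ℂ} {B : ℝ} (hB : 0 ≤ B) (hK : ∀ c, ‖K c‖ ≤ B)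
    (I : Finset ℤ) : N2 I (link2_H N K) ≤ N * B ^ 2 := by
  calc N2 I (link2_H N K) ≤ ∑ y ∈ I, B * ‖link2_H N K y‖ := by
        refine sum_le_sum fun y _ => ?_
        rw [sq]
        exact mul_le_mul_of_nonneg_right (link2_norm_H hB hK y) (norm_nonneg _)
    _ = B * ∑ y ∈ I, ‖link2_H N K y‖ := by rw [mul_sum]
    _ ≤ B * (N * B) := mul_le_mul_of_nonneg_left (link2_l1_H hB hK I) hB
    _ = N * B ^ 2 := by ring

lemma link2_norm_FT {N : ℕ} {K : ℕ → ℂ} {B : ℝ} (hB : 0 ≤ B) (hK : ∀ c, ‖K c‖ ≤ B)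
    (I : Finset ℤ) (θ : ℝ) : ‖FT I (link2_H N K) θ‖ ≤ N * B := by
  refine (norm_sum_le _ _).trans (le_trans (le_of_eq ?_) (link2_l1_H hB hK I))
  refine sum_congr rfl fun y _ => ?_
  rw [norm_mul, norm_ex, mul_one]

/-- The weight depending on `D` only. -/
noncomputable def link2_W (g Z : ℕ) (Sp : Finset (Option U)) (s0 : ℕ) (I : Finset ℤ) (θ : ℝ)
    (D : Option U → ℕ) : ℂ :=
  if 16 * ((∏ o, D o : ℕ) : ℤ) ∈ I ∧ typ g Z (∏ o, D o) ∧ ∏ o ∈ Sp, D o = s0 then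
    ex (θ * ((16 * ((∏ o, D o : ℕ) : ℤ) : ℤ) : ℝ)) else 0

lemma link2_norm_W (g Z : ℕ) (Sp : Finset (Option U)) (s0 : ℕ) (I : Finset ℤ) (θ : ℝ)
    (D : Option U → ℕ) : ‖link2_W g Z Sp s0 I θ D‖ ≤ 1 := by
  unfold link2_W
  split_ifs
  · rw [norm_ex]
  · simp

lemma link2_FT (g Z N : ℕ) (Sp : Finset (Option U)) (G : (Option U → ℕ) → ℝ) (s0 : ℕ)
    (I : Finset ℤ) (θ : ℝ) :
    FT I (link2_H N (link2_K g Z Sp G s0)) θ =
      ∑ c ∈ Icc 1 N, ∑ D ∈ tup (Option U) c, link2_W g Z Sp s0 I θ D * (G D : ℂ) := by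
  unfold FT link2_H
  simp only [sum_mul, ite_mul, zero_mul]
  rw [sum_comm]
  refine sum_congr rfl fun c _ => ?_
  rw [sum_ite_eq]
  have hW : ∀ D ∈ tup (Option U) c, link2_W g Z Sp s0 I θ D * (G D : ℂ) =
      if 16 * (c : ℤ) ∈ I ∧ typ g Z c then
        (if ∏ o ∈ Sp, D o = s0 then (G D : ℂ) else 0) * ex (θ * ((16 * (c : ℤ) : ℤ) : ℝ))
      else 0 := by
    intro D hD
    unfold link2_W
    rw [prod_of_mem_tup hD]
    by_cases h1 : 16 * (c : ℤ) ∈ I <;> by_cases h2 : typ g Z c <;>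
      by_cases h3 : ∏ o ∈ Sp, D o = s0 <;> simp [h1, h2, h3, mul_comm]
  rw [sum_congr rfl hW]
  unfold link2_K
  by_cases h1 : 16 * (c : ℤ) ∈ I <;> by_cases h2 : typ g Z c <;> simp [h1, h2, sum_mul]

lemma link2_jac_prod {ι : Type} [DecidableEq ι] (P : ℕ) (s : Finset ι) (D : ι → ℕ)
    (h : ∀ o, D o ≠ 0) : (J((P : ℤ) | ∏ o ∈ s, D o) : ℝ) = ∏ o ∈ s, (J((P : ℤ) | D o) : ℝ) := by
  induction s using Finset.induction_on with
  | empty => simp
  | insert o s ho ih =>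
    rw [prod_insert ho, prod_insert ho, jacobiSym.mul_right' _ (h o) (prod_ne_zero_iff.2
      fun o _ => h o), Int.cast_mul, ih]

lemma link2_term (τ : ZMod 2) (uR : U) (gA gB : (U → ℕ) → ℝ) (φ : Option U → ℕ → ℝ)
    {a : ℕ} {A : U → ℕ} (hA : A ∈ tup U a) (B : U → ℕ) (P : ℕ) {D : Option U → ℕ}
    (hD : ∀ o, D o ≠ 0) :
    gA A * gB B * kab A B * ∏ o, (φ o (D o) * lk τ (o.getD uR) A B (a * P) (D o)) =
      (J((P : ℤ) | ∏ o ∈ link2_Sp τ uR, D o) : ℝ) * link2_G τ uR gA gB φ A B D := by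
  have h1 : (J((P : ℤ) | ∏ o ∈ link2_Sp τ uR, D o) : ℝ) =
      ∏ o, Jp (qf (o.getD uR) + τ) P (D o) := by
    rw [link2_jac_prod P _ D hD, link2_Sp, prod_filter]
    refine prod_congr rfl fun o _ => ?_
    have h : ∀ e : ZMod 2, e = 0 ∨ e = 1 := by decide
    unfold Jp
    rcases h (qf (o.getD uR) + τ) with h0 | h0 <;> simp [h0]
  have h2 : ∀ o, φ o (D o) * lk τ (o.getD uR) A B (a * P) (D o) =
      Jp (qf (o.getD uR) + τ) P (D o) *
        (φ o (D o) * lk τ (o.getD uR) A B (∏ u, A u) (D o)) := by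
    intro o
    rw [prod_of_mem_tup hA]
    unfold lk
    rw [Jp_mul_left]; ring
  rw [h1, link2_G, prod_congr rfl fun o _ => h2 o, prod_mul_distrib]
  ring

lemma link2_point {g Z N S : ℕ} (Sp : Finset (Option U)) (G : (Option U → ℕ) → ℝ)
    (hG : ∀ D, (∀ o, D o ≠ 0) → G D ≠ 0 → ∏ o ∈ Sp, D o ∈ Icc 1 S) (F : ℕ → ℂ) (y : ℤ) :
    ∑ s0 ∈ Icc 1 S, F s0 * link2_H N (link2_K g Z Sp G s0) y =
      ∑ c ∈ Icc 1 N, if 16 * (c : ℤ) = y ∧ typ g Z c then
        ∑ D ∈ tup (Option U) c, F (∏ o ∈ Sp, D o) * (G D : ℂ) else 0 := by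
  unfold link2_H
  simp only [mul_sum]
  rw [sum_comm]
  refine sum_congr rfl fun c hc => ?_
  have hc0 : c ≠ 0 := by rw [mem_Icc] at hc; omega
  unfold link2_K
  by_cases h1 : 16 * (c : ℤ) = y <;> by_cases h2 : typ g Z c <;>
    simp only [h1, h2, if_true, if_false, and_true, and_false, mul_zero, sum_const_zero]
  simp only [mul_sum]
  rw [sum_comm]
  refine sum_congr rfl fun D hD => ?_
  have hD0 : ∀ o, D o ≠ 0 := by
    intro o h0
    apply hc0
    rw [← prod_of_mem_tup hD]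
    exact prod_eq_zero (mem_univ o) h0
  simp only [mul_ite, mul_zero]
  rw [sum_ite_eq]
  split_ifs with h3
  · rfl
  · have : G D = 0 := by
      by_contra h0
      exact h3 (hG D hD0 h0)
    simp [this]

lemma link2_TT {g Z S : ℕ} (C : Cell g Z) (τ : ZMod 2) (uR : U) (gA gB : (U → ℕ) → ℝ)
    (φ : Option U → ℕ → ℝ)
    (hG : ∀ A B D, (∀ o, D o ≠ 0) → link2_G τ uR gA gB φ A B D ≠ 0 →
      ∏ o ∈ link2_Sp τ uR, D o ∈ Icc 1 S) :
    (TT C τ uR gA gB φ : ℂ) = ∑ s0 ∈ Icc 1 S, ∑ P ∈ C.SP, ∑ Q ∈ C.SQ,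
      (J((P : ℤ) | s0) : ℂ) * PS C fun a b A B => link2_H (4 * XX g)
        (link2_K g Z (link2_Sp τ uR) (link2_G τ uR gA gB φ A B) s0) ((a : ℤ) * P - b * Q) := by
  have hR : ∀ P Q : ℕ, ∑ s0 ∈ Icc 1 S, (J((P : ℤ) | s0) : ℂ) * PS C (fun a b A B =>
      link2_H (4 * XX g) (link2_K g Z (link2_Sp τ uR) (link2_G τ uR gA gB φ A B) s0)
        ((a : ℤ) * P - b * Q)) = ∑ a ∈ C.SA, ∑ b ∈ C.SB, ∑ c ∈ Icc 1 (4 * XX g),
      ((if a.Coprime b ∧ a * P = b * Q + 16 * c ∧ typ g Z c then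
        ∑ A ∈ tup U a, ∑ B ∈ tup U b, ∑ D ∈ tup (Option U) c, gA A * gB B * kab A B *
          ∏ o, (φ o (D o) * lk τ (o.getD uR) A B (a * P) (D o)) else 0 : ℝ) : ℂ) := by
    intro P Q
    unfold PS
    simp only [mul_sum]
    rw [sum_comm]
    refine sum_congr rfl fun a _ => ?_
    rw [sum_comm]
    refine sum_congr rfl fun b _ => ?_
    by_cases hab : a.Coprime b
    · simp only [eq_true hab, if_true, true_and, mul_sum]
      rw [sum_comm]
      have e1 : ∀ A ∈ tup U a, ∑ s0 ∈ Icc 1 S, ∑ B ∈ tup U b, (J((P : ℤ) | s0) : ℂ) *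
          link2_H (4 * XX g) (link2_K g Z (link2_Sp τ uR) (link2_G τ uR gA gB φ A B) s0)
            ((a : ℤ) * P - b * Q) = ∑ c ∈ Icc 1 (4 * XX g), ∑ B ∈ tup U b,
          (if a * P = b * Q + 16 * c ∧ typ g Z c then ∑ D ∈ tup (Option U) c,
            ((gA A * gB B * kab A B *
              ∏ o, (φ o (D o) * lk τ (o.getD uR) A B (a * P) (D o)) : ℝ) : ℂ) else 0) := by
        intro A hA
        rw [sum_comm, sum_comm (s := Icc 1 (4 * XX g))]
        refine sum_congr rfl fun B _ => ?_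
        rw [link2_point (link2_Sp τ uR) _ (hG A B) (fun s0 => (J((P : ℤ) | s0) : ℂ))]
        refine sum_congr rfl fun c hc => ?_
        have hc0 : c ≠ 0 := by rw [mem_Icc] at hc; omega
        have hiff : (16 * (c : ℤ) = (a : ℤ) * P - b * Q) ↔ a * P = b * Q + 16 * c := by
          constructor
          · intro h
            have : ((a * P : ℕ) : ℤ) = ((b * Q + 16 * c : ℕ) : ℤ) := by push_cast; linarith
            exact_mod_cast this
          · intro h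
            have : ((a * P : ℕ) : ℤ) = ((b * Q + 16 * c : ℕ) : ℤ) := by rw [h]
            push_cast at this; linarith
        simp only [hiff]
        split_ifs
        · refine sum_congr rfl fun D hD => ?_
          have hD0 : ∀ o, D o ≠ 0 := by
            intro o h0
            apply hc0
            rw [← prod_of_mem_tup hD]
            exact prod_eq_zero (mem_univ o) h0
          rw [link2_term τ uR gA gB φ hA B P hD0]
          push_cast; rfl
        · rfl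
      rw [sum_congr rfl e1, sum_comm]
      refine sum_congr rfl fun c _ => ?_
      split_ifs
      · push_cast; rfl
      · simp
    · simp [hab]
  rw [sum_comm]
  rw [sum_congr rfl fun P _ => sum_comm]
  rw [sum_congr rfl fun P _ => sum_congr rfl fun Q _ => hR P Q]
  unfold TT FS
  rw [Complex.ofReal_sum, sum_congr rfl fun P _ => sum_comm, sum_comm]
  refine sum_congr rfl fun a _ => ?_
  rw [Complex.ofReal_sum, sum_congr rfl fun P _ => sum_comm, sum_comm]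
  refine sum_congr rfl fun b _ => ?_
  simp only [Complex.ofReal_sum]

lemma link2_PS_le {g Z : ℕ} (C : Cell g Z) (f : (U → ℕ) → (U → ℕ) → ℝ) (hf : ∀ A B, 0 ≤ f A B) :
    PS C (fun _ _ A B => f A B) ≤
      ∑ a ∈ C.SA, ∑ A ∈ tup U a, ∑ b ∈ C.SB, ∑ B ∈ tup U b, f A B := by
  unfold PS
  refine sum_le_sum fun a _ => ?_
  rw [sum_comm]
  refine sum_le_sum fun b _ => ?_
  split_ifs
  · exact le_rfl
  · exact sum_nonneg fun _ _ => sum_nonneg fun _ _ => hf _ _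

lemma link2_sum_tup_le {g : ℕ} {S : Finset ℕ} (hS : ∀ a ∈ S, good g a) {n : ℕ} (hn : S.card ≤ n)
    {T : ℝ} (hT : 0 ≤ T) (f : (U → ℕ) → ℝ) (hf : ∀ A, f A ≤ T) :
    ∑ a ∈ S, ∑ A ∈ tup U a, f A ≤ n * (g : ℝ) ^ 2 * T := by
  calc ∑ a ∈ S, ∑ A ∈ tup U a, f A ≤ ∑ _a ∈ S, (g : ℝ) ^ 2 * T := by
        refine sum_le_sum fun a ha => (sum_le_card_nsmul _ _ T fun A _ => hf A).trans ?_
        rw [nsmul_eq_mul]
        refine mul_le_mul_of_nonneg_right ?_ hT
        exact_mod_cast (hS a ha).card_tup_U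
    _ = S.card * ((g : ℝ) ^ 2 * T) := by simp
    _ ≤ n * ((g : ℝ) ^ 2 * T) := by
        refine mul_le_mul_of_nonneg_right ?_ (by positivity)
        exact_mod_cast hn
    _ = n * (g : ℝ) ^ 2 * T := by ring

/-- The average of the exponential sums over the factorisations of `a` and `b`. -/
lemma link2_small (k : ℕ) : ∃ k' : ℕ, ∀ᶠ g : ℕ in atTop, ∀ (Z : ℕ) (C : Cell g Z)
    (τ : ZMod 2) (uR : U) (gA gB : (U → ℕ) → ℝ) (φ : Option U → ℕ → ℝ) (o : Option U) (v : U),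
    Wt g gA gB φ → qf (o.getD uR) + τ = 0 → br v (o.getD uR) + qf v = 1 →
    (∀ n, φ o n ≠ 0 → g ^ k' < n) →
    ((∀ A, gA A ≠ 0 → g ^ k' < A v) ∨ ∀ B, gB B ≠ 0 → g ^ k' < B v) →
    ∀ (s0 : ℕ) (I : Finset ℤ) (θ : ℝ),
    ∑ a ∈ C.SA, ∑ A ∈ tup U a, ∑ b ∈ C.SB, ∑ B ∈ tup U b,
      ‖FT I (link2_H (4 * XX g)
        (link2_K g Z (link2_Sp τ uR) (link2_G τ uR gA gB φ A B) s0)) θ‖ ≤
      8 * 2 ^ C.i * 2 ^ C.j * (g : ℝ) ^ 2 * XX g / (g : ℝ) ^ k := by
  obtain ⟨k', hk'⟩ := link2_gen k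
  refine ⟨k', ?_⟩
  filter_upwards [hk', eventually_ge_atTop 2] with g hg hg2 Z C τ uR gA gB φ o v hW hq hbr hφ hAB
    s0 I θ
  have hY : 4 * XX g ≤ 2 ^ (41 * g) := by
    unfold XX
    calc 4 * 2 ^ (40 * g) = 2 ^ (40 * g + 2) := by ring
      _ ≤ 2 ^ (41 * g) := Nat.pow_le_pow_right (by norm_num) (by omega)
  have hMA : 2 ^ (C.i + 1) ≤ 2 ^ (41 * g) :=
    Nat.pow_le_pow_right (by norm_num) (by have := C.hi'; omega)
  have hMB : 2 ^ (C.j + 1) ≤ 2 ^ (41 * g) :=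
    Nat.pow_le_pow_right (by norm_num) (by have := C.hj'; omega)
  have hSA : ∀ a ∈ C.SA, a ≤ 2 ^ (C.i + 1) ∧ good g a := fun a ha =>
    ⟨(C.hA a ha).2.1, (C.hA a ha).2.2.good (by omega)⟩
  have hSB : ∀ b ∈ C.SB, b ≤ 2 ^ (C.j + 1) ∧ good g b := fun b hb =>
    ⟨(C.hB b hb).2.1, (C.hB b hb).2.2.good (by omega)⟩
  have hψ0 : ∀ (D : Option U → ℕ) (r : ℝ) (t : Option U → ℝ),
      link2_W g Z (link2_Sp τ uR) s0 I θ D * ((r * ∏ o', (φ o' (D o') * t o') : ℝ) : ℂ) ≠ 0 →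
      good g (D o) ∧ g ^ k' ≤ D o := by
    intro D r t h
    constructor
    · have h1 := left_ne_zero_of_mul h
      unfold link2_W at h1
      have h2 := (ite_ne_right_iff.1 h1).1.2.1
      exact (h2.good (by omega)).of_dvd (dvd_prod_of_mem _ (mem_univ o))
    · have h1 := right_ne_zero_of_mul h
      have h2 : r * ∏ o', (φ o' (D o') * t o') ≠ 0 := by exact_mod_cast h1
      have h3 := prod_ne_zero_iff.1 (right_ne_zero_of_mul h2) o (mem_univ o)
      exact (hφ _ (left_ne_zero_of_mul h3)).le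
  have hψ1 : ∀ (D : Option U → ℕ) (r : ℝ) (t : Option U → ℝ), |r| ≤ 1 → (∀ o', |t o'| ≤ 1) →
      ‖link2_W g Z (link2_Sp τ uR) s0 I θ D * ((r * ∏ o', (φ o' (D o') * t o') : ℝ) : ℂ)‖ ≤ 1 := by
    intro D r t hr ht
    rw [norm_mul, Complex.norm_real, Real.norm_eq_abs, abs_mul]
    refine mul_le_one₀ (link2_norm_W ..) (by positivity)
      (mul_le_one₀ hr (abs_nonneg _) (abs_prod_le_one _ _ fun _ _ => ?_))
    rw [abs_mul]
    exact mul_le_one₀ (hW.hφ ..) (abs_nonneg _) (ht _)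
  simp only [link2_FT]
  rcases hAB with hA | hB
  · have h1 : ∀ B : U → ℕ, ∑ a ∈ C.SA, ∑ A ∈ tup U a, ‖∑ c ∈ Icc 1 (4 * XX g),
        ∑ D ∈ tup (Option U) c, link2_W g Z (link2_Sp τ uR) s0 I θ D *
          (link2_G τ uR gA gB φ A B D : ℂ)‖ ≤
        ((2 ^ (C.i + 1) : ℕ) : ℝ) * ((4 * XX g : ℕ) : ℝ) / (g : ℝ) ^ k := by
      intro B
      have key := hg (2 ^ (C.i + 1)) (4 * XX g) C.SA v o (fun o' => o'.getD uR)
        (fun D => link2_W g Z (link2_Sp τ uR) s0 I θ D *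
          ((gB B * ∏ o', (φ o' (D o') * lkA (o'.getD uR) B (D o')) : ℝ) : ℂ))
        (fun A => gA A * kab A B)
        (fun o' A n => Jp (qf (o'.getD uR) + τ) (∏ u, A u) n) hMA hY hSA
        (fun D => hψ1 D _ _ (hW.hB B) fun _ => abs_lkA_le ..)
        (fun A => by
          rw [abs_mul]; exact mul_le_one₀ (hW.hA A) (abs_nonneg _) (abs_kab_le ..))
        (fun _ _ _ => abs_Jp_le ..) (fun A n => by rw [hq]; simp [Jp]) hbr
        (fun D h => hψ0 D _ _ h) (fun A h => (hA A (left_ne_zero_of_mul h)).le)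
      refine le_trans (le_of_eq ?_) key
      refine sum_congr rfl fun a _ => sum_congr rfl fun A _ => ?_
      congr 1
      refine sum_congr rfl fun c _ => sum_congr rfl fun D _ => ?_
      rw [mul_assoc, ← Complex.ofReal_mul]
      congr 2
      unfold link2_G lk
      simp only [prod_mul_distrib]
      ring
    rw [sum_congr rfl fun a _ => sum_comm, sum_comm,
      sum_congr rfl fun b _ => (sum_congr rfl fun a _ => sum_comm).trans sum_comm]
    refine (link2_sum_tup_le (fun b hb => (hSB b hb).2) C.card_SB (by positivity) _ h1).trans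
      (le_of_eq ?_)
    push_cast; ring
  · have h1 : ∀ A : U → ℕ, ∑ b ∈ C.SB, ∑ B ∈ tup U b, ‖∑ c ∈ Icc 1 (4 * XX g),
        ∑ D ∈ tup (Option U) c, link2_W g Z (link2_Sp τ uR) s0 I θ D *
          (link2_G τ uR gA gB φ A B D : ℂ)‖ ≤
        ((2 ^ (C.j + 1) : ℕ) : ℝ) * ((4 * XX g : ℕ) : ℝ) / (g : ℝ) ^ k := by
      intro A
      have key := hg (2 ^ (C.j + 1)) (4 * XX g) C.SB v o (fun o' => o'.getD uR)
        (fun D => link2_W g Z (link2_Sp τ uR) s0 I θ D *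
          ((gA A * ∏ o', (φ o' (D o') * (lkA (o'.getD uR) A (D o') *
            Jp (qf (o'.getD uR) + τ) (∏ u, A u) (D o'))) : ℝ) : ℂ))
        (fun B => gB B * kab A B) (fun _ _ _ => 1) hMB hY hSB
        (fun D => hψ1 D _ _ (hW.hA A) fun _ => by
          rw [abs_mul]; exact mul_le_one₀ (abs_lkA_le ..) (abs_nonneg _) (abs_Jp_le ..))
        (fun B => by
          rw [abs_mul]; exact mul_le_one₀ (hW.hB B) (abs_nonneg _) (abs_kab_le ..))
        (fun _ _ _ => by simp) (fun _ _ => rfl) hbr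
        (fun D h => hψ0 D _ _ h) (fun B h => (hB B (left_ne_zero_of_mul h)).le)
      refine le_trans (le_of_eq ?_) key
      refine sum_congr rfl fun b _ => sum_congr rfl fun B _ => ?_
      congr 1
      refine sum_congr rfl fun c _ => sum_congr rfl fun D _ => ?_
      rw [mul_assoc, ← Complex.ofReal_mul]
      congr 2
      unfold link2_G lk
      simp only [prod_mul_distrib, prod_const_one]
      ring
    refine (link2_sum_tup_le (fun a ha => (hSA a ha).2) C.card_SA (by positivity) _ h1).trans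
      (le_of_eq ?_)
    push_cast; ring

theorem case_link (k k2 : ℕ) : ∃ k' : ℕ, ∀ᶠ g : ℕ in atTop, ∀ (Z : ℕ) (C : Cell g Z)
    (τ : ZMod 2) (uR : U) (gA gB : (U → ℕ) → ℝ) (φ : Option U → ℕ → ℝ) (o : Option U) (v : U),
    Wt g gA gB φ → (∀ o' n, qf (o'.getD uR) + τ = 1 → φ o' n ≠ 0 → n ≤ g ^ k2) →
    qf (o.getD uR) + τ = 0 → br v (o.getD uR) + qf v = 1 → (∀ n, φ o n ≠ 0 → g ^ k' < n) →
    ((∀ A, gA A ≠ 0 → g ^ k' < A v) ∨ ∀ B, gB B ≠ 0 → g ^ k' < B v) →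
    |TT C τ uR gA gB φ| ≤ (XX g : ℝ) ^ 2 / (g : ℝ) ^ k := by
  obtain ⟨kK, kz, k3, hphi⟩ := phi_cell (k + 5 * k2) 7
  obtain ⟨k', hk'⟩ := link2_small (3 * kK + 2 * kz + 6 + k3)
  refine ⟨k', ?_⟩
  filter_upwards [hphi, hk', eventually_ge_atTop 32] with g hg1 hg2 hg Z C τ uR gA gB φ o v hW hsm
    hq hbr hφ hAB
  have hg0 : (0 : ℝ) < g := by exact_mod_cast (by omega : 0 < g)
  have hg32 : (32 : ℝ) ≤ g := by exact_mod_cast hg
  have hgp : 0 < g := by omega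
  have hX : (0 : ℝ) < XX g := by unfold XX; positivity
  have hG : ∀ A B D, (∀ o, D o ≠ 0) → link2_G τ uR gA gB φ A B D ≠ 0 →
      ∏ o ∈ link2_Sp τ uR, D o ∈ Icc 1 (g ^ (5 * k2)) := by
    intro A B D hD h
    rw [mem_Icc]
    refine ⟨Nat.one_le_iff_ne_zero.2 (prod_ne_zero_iff.2 fun o _ => hD o), ?_⟩
    have h1 := prod_ne_zero_iff.1 (right_ne_zero_of_mul h)
    calc ∏ o ∈ link2_Sp τ uR, D o ≤ (g ^ k2) ^ (link2_Sp τ uR).card :=
          prod_le_pow_card _ _ _ fun o' ho' => hsm o' _ (mem_filter.1 ho').2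
            (left_ne_zero_of_mul (h1 o' (mem_univ _)))
      _ ≤ (g ^ k2) ^ 5 := by
          refine Nat.pow_le_pow_right (by positivity) ?_
          refine (card_le_univ _).trans ?_
          simp [U]
      _ = g ^ (5 * k2) := by ring
  have hK : ∀ A B s0 c, ‖link2_K g Z (link2_Sp τ uR) (link2_G τ uR gA gB φ A B) s0 c‖ ≤
      (g : ℝ) ^ 3 := fun A B s0 c =>
    link2_norm_K (by omega) Z _ (link2_abs_G hW τ uR A B) s0 c
  have hmain : ∀ s0 : ℕ, ‖∑ P ∈ C.SP, ∑ Q ∈ C.SQ,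
      (J((P : ℤ) | s0) : ℂ) * PS C fun a b A B => link2_H (4 * XX g)
        (link2_K g Z (link2_Sp τ uR) (link2_G τ uR gA gB φ A B) s0) ((a : ℤ) * P - b * Q)‖ ≤
      (XX g : ℝ) ^ 2 / (g : ℝ) ^ (k + 5 * k2) := by
    intro s0
    refine hg1 Z C (fun P _ => (J((P : ℤ) | s0) : ℂ)) (fun A B => link2_H (4 * XX g)
      (link2_K g Z (link2_Sp τ uR) (link2_G τ uR gA gB φ A B) s0)) ?_ ?_ ?_ ?_
    · intro P _
      have := abs_jac_le (P : ℤ) s0
      rw [← Complex.ofReal_intCast, Complex.norm_real, Real.norm_eq_abs]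
      exact this
    · intro A B y hy
      obtain ⟨h1, h2⟩ := link2_H_supp hy
      rw [mem_Ioc]
      refine ⟨h1, h2.trans ?_⟩
      have h3 : 64 * XX g < g ^ (3 * kK) * ell g kK :=
        Nat.lt_mul_div_succ _ (by positivity)
      have h4 : 16 * (4 * XX g) ≤ g ^ (3 * kK) * ell g kK := by omega
      exact_mod_cast h4
    · intro A B
      refine (link2_N2 (by positivity) (hK A B s0) _).trans ?_
      have : (4 : ℝ) * (g : ℝ) ^ 6 ≤ (g : ℝ) ^ 7 := by
        have : (0 : ℝ) < (g : ℝ) ^ 6 := by positivity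
        nlinarith
      push_cast
      nlinarith
    · set T : ℝ := 8 * 2 ^ C.i * 2 ^ C.j * (g : ℝ) ^ 2 * XX g / (g : ℝ) ^ (3 * kK + 2 * kz + 6 + k3)
        with hT
      have hT0 : 0 ≤ T := by positivity
      set L : ℝ := ((4 * XX g : ℕ) : ℝ) * (g : ℝ) ^ 3 with hL
      have hL0 : 0 ≤ L := by positivity
      refine (link2_PS_le C (fun A B => ∑ i ∈ range (g ^ (3 * kK)), ∑ q ∈ Icc 1 (g ^ kz),
        Mq (Iv (ell g kK) i) (link2_H (4 * XX g)
          (link2_K g Z (link2_Sp τ uR) (link2_G τ uR gA gB φ A B) s0)) q)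
        fun A B => sum_nonneg fun _ _ => sum_nonneg fun _ _ => Mq_nonneg ..).trans ?_
      calc _ ≤ ∑ a ∈ C.SA, ∑ A ∈ tup U a, ∑ b ∈ C.SB, ∑ B ∈ tup U b,
            ∑ x ∈ range (g ^ (3 * kK)) ×ˢ (Icc 1 (g ^ kz) ×ˢ range (g ^ kz)),
              L * ‖FT (Iv (ell g kK) x.1) (link2_H (4 * XX g)
                (link2_K g Z (link2_Sp τ uR) (link2_G τ uR gA gB φ A B) s0))
                ((x.2.2 : ℝ) / x.2.1)‖ := by
            refine sum_le_sum fun a _ => sum_le_sum fun A _ => sum_le_sum fun b _ =>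
              sum_le_sum fun B _ => ?_
            rw [sum_product]
            refine sum_le_sum fun i _ => ?_
            rw [sum_product]
            refine sum_le_sum fun q hq => ?_
            unfold Mq
            refine le_trans (sum_le_sum fun h _ => ?_) (sum_le_sum_of_subset_of_nonneg
              ((filter_subset _ _).trans (range_subset_range.2 (mem_Icc.1 hq).2))
              fun _ _ _ => by positivity)
            rw [sq]
            exact mul_le_mul_of_nonneg_right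
              (link2_norm_FT (by positivity) (hK A B s0) _ _) (norm_nonneg _)
        _ = ∑ x ∈ range (g ^ (3 * kK)) ×ˢ (Icc 1 (g ^ kz) ×ˢ range (g ^ kz)),
            L * ∑ a ∈ C.SA, ∑ A ∈ tup U a, ∑ b ∈ C.SB, ∑ B ∈ tup U b,
              ‖FT (Iv (ell g kK) x.1) (link2_H (4 * XX g)
                (link2_K g Z (link2_Sp τ uR) (link2_G τ uR gA gB φ A B) s0))
                ((x.2.2 : ℝ) / x.2.1)‖ := by
            simp only [mul_sum]
            symm
            rw [sum_comm]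
            refine sum_congr rfl fun a _ => ?_
            rw [sum_comm]
            refine sum_congr rfl fun A _ => ?_
            rw [sum_comm]
            refine sum_congr rfl fun b _ => ?_
            rw [sum_comm]
        _ ≤ ∑ _x ∈ range (g ^ (3 * kK)) ×ˢ (Icc 1 (g ^ kz) ×ˢ range (g ^ kz)), L * T :=
            sum_le_sum fun x _ => mul_le_mul_of_nonneg_left
              (hg2 Z C τ uR gA gB φ o v hW hq hbr hφ hAB s0 _ _) hL0
        _ = (g : ℝ) ^ (3 * kK + 2 * kz) * (L * T) := by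
            rw [sum_const, card_product, card_product, card_range, card_range, Nat.card_Icc,
              nsmul_eq_mul]
            congr 1
            rw [Nat.add_sub_cancel]
            push_cast; ring
        _ = 32 / g * (2 ^ C.i * 2 ^ C.j * (XX g : ℝ) ^ 2 / (g : ℝ) ^ k3) := by
            rw [hL, hT]
            push_cast
            field_simp
            ring
        _ ≤ 1 * (2 ^ C.i * 2 ^ C.j * (XX g : ℝ) ^ 2 / (g : ℝ) ^ k3) := by
            refine mul_le_mul_of_nonneg_right ?_ (by positivity)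
            rw [div_le_one hg0]; exact hg32
        _ = _ := one_mul _
  have hTT := link2_TT C τ uR gA gB φ hG
  rw [← Real.norm_eq_abs, ← Complex.norm_real, hTT]
  refine (norm_sum_le _ _).trans ((sum_le_card_nsmul _ _ _ fun s0 _ => hmain s0).trans
    (le_of_eq ?_))
  rw [Nat.card_Icc, Nat.add_sub_cancel, nsmul_eq_mul]
  push_cast
  field_simp
  ring

end Pool.Agent.Lib.MP_788af2_nt.R0
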