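import Pool.Agent.Lib.MP_788af2_nt.R0.Cheb

namespace Pool.Agent.Lib.MP_788af2_nt.R0

open Finset Filter
open scoped NumberTheorySymbols

/-! Terms of low entropy. -/

lemma low_om_mul_le (m n : ℕ) : om (m * n) ≤ om m + om n := by
  unfold om
  rcases eq_or_ne m 0 with rfl | hm
  · simp
  rcases eq_or_ne n 0 with rfl | hn
  · simp
  rw [Nat.primeFactors_mul hm hn]
  exact card_union_le _ _

lemma low_om_prod_le {κ : Type} (s : Finset κ) (D : κ → ℕ) :
    om (∏ u ∈ s, D u) ≤ ∑ u ∈ s, om (D u) := by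
  classical
  induction s using Finset.induction_on with
  | empty => simp [om]
  | insert x s hx ih =>
    rw [prod_insert hx, sum_insert hx]
    exact (low_om_mul_le _ _).trans (Nat.add_le_add_left ih _)

lemma low_om_mono {m n : ℕ} (h : m ∣ n) (hn : n ≠ 0) : om m ≤ om n :=
  card_le_card (Nat.primeFactors_mono h hn)

lemma low_omZ_mono (Z : ℕ) {m n : ℕ} (h : m ∣ n) (hn : n ≠ 0) : omZ Z m ≤ omZ Z n :=
  card_le_card (filter_subset_filter _ (Nat.primeFactors_mono h hn))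

lemma low_abs_half (τ : ZMod 2) : |sgn τ / 2| = 1 / 2 := by
  rw [abs_div, abs_sgn]; norm_num

/-- The weight bound. -/
noncomputable def lowB (Z m n : ℕ) : ℝ := (m : ℝ) ^ om n * 4 ^ omZ Z n / 2 ^ om n

lemma lowB_nonneg (Z m n : ℕ) : 0 ≤ lowB Z m n := by unfold lowB; positivity

lemma low_card {n : ℕ} (hn : Squarefree n) (Z : ℕ) (s : Finset U) :
    (((tup U n).filter fun A => ∀ u, big Z (A u) → u ∈ s).card : ℝ) ≤
      ((max 1 s.card : ℕ) : ℝ) ^ om n * 4 ^ omZ Z n := by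
  have h := card_tup_prof_le (κ := U) hn Z s
  have h4 : Fintype.card U = 4 := by simp [U]
  rw [h4] at h
  exact_mod_cast h

lemma low_gw_sum (τ : ZMod 2) (Z : ℕ) {sg : (U → ℕ) → ℝ} (hsg : ∀ A, |sg A| ≤ 1) (s : Finset U)
    {a : ℕ} (ha : Squarefree a) :
    ∑ A ∈ tup U a, |gw τ Z sg s A| ≤ lowB Z (max 1 s.card) a := by
  have h1 : ∀ A ∈ tup U a, |gw τ Z sg s A| ≤
      if (∀ u, big Z (A u) → u ∈ s) then (1 / 2 : ℝ) ^ om a else 0 := by
    intro A hA
    unfold gw
    by_cases hp : prof Z A = s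
    · rw [if_pos hp, if_pos, abs_mul, abs_pow, low_abs_half, prod_of_mem_tup hA]
      · exact mul_le_of_le_one_left (by positivity) (hsg A)
      · intro u hu
        rw [← hp]
        exact mem_filter.2 ⟨mem_univ _, hu⟩
    · rw [if_neg hp, abs_zero]
      split_ifs
      · positivity
      · exact le_rfl
  refine (sum_le_sum h1).trans ?_
  rw [← sum_filter, sum_const, nsmul_eq_mul]
  unfold lowB
  rw [one_div, inv_pow, ← div_eq_mul_inv]
  exact div_le_div_of_nonneg_right (low_card ha Z s) (by positivity)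

lemma low_big_lt {Z n : ℕ} (h : big Z n) : Z < n := by
  obtain ⟨p, hp, hZ⟩ := h
  exact hZ.trans_le (Nat.le_of_mem_primeFactors hp)

lemma low_phi_in (g : ℕ) (τ : ZMod 2) (Z : ℕ) {thr : U → ℕ} (hthr : ∀ u, thr u ≤ Z)
    (sC tC : Finset U) {m : ℕ} (hm : Squarefree m) :
    ∑ D ∈ tup U m, ∏ u, |φw g τ Z thr sC tC (some u) (D u)| ≤ lowB Z (max 1 tC.card) m := by
  have h1 : ∀ D ∈ tup U m, ∏ u, |φw g τ Z thr sC tC (some u) (D u)| ≤
      if (∀ u, big Z (D u) → u ∈ tC) then (1 / 2 : ℝ) ^ om m else 0 := by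
    intro D hD
    split_ifs with hb
    · calc ∏ u, |φw g τ Z thr sC tC (some u) (D u)| ≤ ∏ u, (1 / 2 : ℝ) ^ om (D u) := by
            refine prod_le_prod (fun _ _ => abs_nonneg _) fun u _ => ?_
            simp only [φw]
            split_ifs
            · rw [abs_pow, low_abs_half]
            · rw [abs_zero]; positivity
        _ = (1 / 2 : ℝ) ^ (∑ u, om (D u)) := prod_pow_eq_pow_sum _ _ _
        _ ≤ (1 / 2 : ℝ) ^ om m := by
            refine pow_le_pow_of_le_one (by norm_num) (by norm_num) ?_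
            rw [← prod_of_mem_tup hD]
            exact low_om_prod_le _ _
    · push Not at hb
      obtain ⟨u, hu, hu'⟩ := hb
      refine (prod_eq_zero (mem_univ u) ?_).le
      simp only [φw]
      rw [if_neg, abs_zero]
      rintro ⟨-, h2⟩
      exact hu' (h2.1 ((hthr u).trans_lt (low_big_lt hu)))
  refine (sum_le_sum h1).trans ?_
  rw [← sum_filter, sum_const, nsmul_eq_mul]
  unfold lowB
  rw [one_div, inv_pow, ← div_eq_mul_inv]
  exact div_le_div_of_nonneg_right (low_card hm Z tC) (by positivity)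

lemma low_phi_sum (g : ℕ) (τ : ZMod 2) (Z : ℕ) {thr : U → ℕ} (hthr : ∀ u, thr u ≤ Z)
    (sC tC : Finset U) {c : ℕ} (hc : Squarefree c) :
    ∑ D ∈ tup (Option U) c, ∏ o, |φw g τ Z thr sC tC o (D o)| ≤
      WW g c * lowB Z (max 1 tC.card) c := by
  have hc0 : c ≠ 0 := hc.ne_zero
  rw [sum_tup_option hc0]
  have h1 : ∀ x ∈ c.divisorsAntidiagonal,
      ∑ D ∈ tup U x.2, ∏ o : Option U, |φw g τ Z thr sC tC o (o.elim x.1 D)| ≤
        if x.1 ∈ RR g then lowB Z (max 1 tC.card) c else 0 := by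
    intro x hx
    have hxc : x.1 * x.2 = c := (Nat.mem_divisorsAntidiagonal.1 hx).1
    have hd : x.2 ∣ c := Dvd.intro_left _ hxc
    simp only [Fintype.prod_option, Option.elim]
    rw [← mul_sum]
    split_ifs with hR
    · have hp : x.1.Prime := (mem_filter.1 hR).2
      have e1 : |φw g τ Z thr sC tC none x.1| = 1 / 2 := by
        simp only [φw]; rw [if_pos hR, low_abs_half]
      rw [e1]
      refine (mul_le_mul_of_nonneg_left
        (low_phi_in g τ Z hthr sC tC (hc.squarefree_of_dvd hd)) (by norm_num)).trans ?_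
      have ho : om c ≤ om x.2 + 1 := by
        have := low_om_mul_le x.1 x.2
        rw [hxc, om_prime hp] at this
        omega
      have hm1 : (1 : ℝ) ≤ ((max 1 tC.card : ℕ) : ℝ) := by exact_mod_cast le_max_left _ _
      unfold lowB
      rw [show (1 / 2 : ℝ) * (((max 1 tC.card : ℕ) : ℝ) ^ om x.2 * 4 ^ omZ Z x.2 / 2 ^ om x.2) =
        ((max 1 tC.card : ℕ) : ℝ) ^ om x.2 * 4 ^ omZ Z x.2 / 2 ^ (om x.2 + 1) by
          rw [pow_succ]; field_simp]
      refine div_le_div₀ (by positivity) ?_ (by positivity) (pow_le_pow_right₀ (by norm_num) ho)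
      exact mul_le_mul (pow_le_pow_right₀ hm1 (low_om_mono hd hc0))
        (pow_le_pow_right₀ (by norm_num) (low_omZ_mono Z hd hc0)) (by positivity) (by positivity)
    · have e1 : |φw g τ Z thr sC tC none x.1| = 0 := by
        simp only [φw]; rw [if_neg hR, abs_zero]
      rw [e1, zero_mul]
  refine (sum_le_sum h1).trans ?_
  rw [← sum_filter, sum_const, nsmul_eq_mul]
  refine mul_le_mul_of_nonneg_right ?_ (lowB_nonneg _ _ _)
  have : (c.divisorsAntidiagonal.filter fun x => x.1 ∈ RR g).card ≤ WW g c := by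
    unfold WW
    refine card_le_card_of_injOn (fun x => x.1) ?_ ?_
    · intro x hx
      have hx' := mem_filter.1 (mem_coe.1 hx)
      exact mem_coe.2 (mem_filter.2
        ⟨hx'.2, Dvd.intro _ (Nat.mem_divisorsAntidiagonal.1 hx'.1).1⟩)
    · intro x hx y hy hxy
      have hx' := (Nat.mem_divisorsAntidiagonal.1 (mem_filter.1 (mem_coe.1 hx)).1).1
      have hy' := (Nat.mem_divisorsAntidiagonal.1 (mem_filter.1 (mem_coe.1 hy)).1).1
      have hxy' : x.1 = y.1 := hxy
      have h0 : x.1 ≠ 0 := by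
        rintro h0
        rw [h0, zero_mul] at hx'
        exact hc0 hx'.symm
      refine Prod.ext hxy' (Nat.eq_of_mul_eq_mul_left (Nat.pos_of_ne_zero h0) ?_)
      rw [hx', hxy', hy']
  exact_mod_cast this

lemma low_pow_eq {m : ℝ} (hm : 0 < m) (k : ℕ) : m ^ k = Real.exp (k * Real.log m) := by
  rw [Real.exp_nat_mul, Real.exp_log hm]

lemma lowB_le {g Z n m : ℕ} (hm : 1 ≤ m) (h : typ g Z n) :
    lowB Z m n ≤ Real.exp (101 / 100 * Real.log g * Real.log m -
      97 / 100 * Real.log g * Real.log 2) := by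
  obtain ⟨-, -, h1, h2⟩ := h
  have hm' : (1 : ℝ) ≤ m := by exact_mod_cast hm
  have hl : 0 ≤ Real.log m := Real.log_nonneg hm'
  have h2' : 0 < Real.log 2 := Real.log_pos (by norm_num)
  have h4 : Real.log 4 = 2 * Real.log 2 := by
    rw [show (4 : ℝ) = 2 ^ 2 by norm_num, Real.log_pow]; norm_num
  obtain ⟨h1a, h1b⟩ := abs_le.1 h1
  unfold lowB
  rw [low_pow_eq (by linarith : (0 : ℝ) < m), low_pow_eq (by norm_num : (0 : ℝ) < 4),
    low_pow_eq (by norm_num : (0 : ℝ) < 2), ← Real.exp_add, ← Real.exp_sub, h4]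
  refine Real.exp_le_exp.2 ?_
  have e1 : (om n : ℝ) * Real.log m ≤ 101 / 100 * Real.log g * Real.log m :=
    mul_le_mul_of_nonneg_right (by linarith) hl
  have e2 : (omZ Z n : ℝ) * Real.log 2 ≤ Real.log g / 100 * Real.log 2 :=
    mul_le_mul_of_nonneg_right h2 h2'.le
  have e3 : 99 / 100 * Real.log g * Real.log 2 ≤ (om n : ℝ) * Real.log 2 :=
    mul_le_mul_of_nonneg_right (by linarith) h2'.le
  linarith

lemma low_num {g Z a b c mA mB mC : ℕ} (hg : 1 ≤ g) (ha : typ g Z a) (hb : typ g Z b)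
    (hc : typ g Z c) (hA : 1 ≤ mA) (hB : 1 ≤ mB) (hC : 1 ≤ mC) (h : mA * mB * mC ≤ 6) :
    lowB Z mA a * lowB Z mB b * lowB Z mC c ≤ Real.exp (-(Real.log g / 10)) := by
  have hL : 0 ≤ Real.log g := Real.log_nonneg (by exact_mod_cast hg)
  have hA' : (0 : ℝ) < mA := by exact_mod_cast hA
  have hB' : (0 : ℝ) < mB := by exact_mod_cast hB
  have hC' : (0 : ℝ) < mC := by exact_mod_cast hC
  have h6 : Real.log mA + Real.log mB + Real.log mC ≤ Real.log 6 := by
    rw [← Real.log_mul hA'.ne' hB'.ne', ← Real.log_mul (by positivity) hC'.ne']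
    refine Real.log_le_log (by positivity) ?_
    exact_mod_cast h
  have h62 : 5 * Real.log 6 ≤ 13 * Real.log 2 := by
    have : Real.log ((6 : ℝ) ^ 5) ≤ Real.log ((2 : ℝ) ^ 13) :=
      Real.log_le_log (by norm_num) (by norm_num)
    rw [Real.log_pow, Real.log_pow] at this
    exact_mod_cast this
  have h2 : 0.69 < Real.log 2 := lt_trans (by norm_num) Real.log_two_gt_d9
  refine (mul_le_mul (mul_le_mul (lowB_le hA ha) (lowB_le hB hb) (lowB_nonneg _ _ _)
    (Real.exp_pos _).le) (lowB_le hC hc) (lowB_nonneg _ _ _) (by positivity)).trans ?_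
  rw [← Real.exp_add, ← Real.exp_add]
  refine Real.exp_le_exp.2 ?_
  have e1 : Real.log g * (101 / 100 * (Real.log mA + Real.log mB + Real.log mC) -
      291 / 100 * Real.log 2) ≤ Real.log g * (-(1 / 10)) :=
    mul_le_mul_of_nonneg_left (by linarith) hL
  linarith

lemma low_ev {ε : ℝ} (hε : 0 < ε) :
    ∀ᶠ g : ℕ in atTop, 96 * Real.exp (-(Real.log g / 10)) ≤ ε := by
  have h1 : Tendsto (fun g : ℕ => Real.log g / 10) atTop atTop :=
    (Real.tendsto_log_atTop.comp tendsto_natCast_atTop_atTop).atTop_div_const (by norm_num)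
  have h2 : Tendsto (fun g : ℕ => 96 * Real.exp (-(Real.log g / 10))) atTop (nhds (96 * 0)) :=
    (Real.tendsto_exp_neg_atTop_nhds_zero.comp h1).const_mul 96
  rw [mul_zero] at h2
  exact h2.eventually (ge_mem_nhds hε)

lemma low_fin {ε : ℝ} (hε : 0 < ε) {g Z : ℕ} (C : Cell g Z) {f : ℕ → ℕ → ℕ → ℕ → ℕ → ℝ}
    (hcard : (C.SA.card * C.SB.card * C.SP.card * C.SQ.card : ℝ) ≤
      (XX g : ℝ) ^ 2 / (g : ℝ) ^ 2)
    (h : ∀ a ∈ C.SA, ∀ b ∈ C.SB, ∀ P ∈ C.SP, ∀ Q ∈ C.SQ, ∀ c ∈ Icc 1 (4 * XX g), a.Coprime b →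
      a * P = b * Q + 16 * c → typ g Z c → |f a b P Q c| ≤ ε) :
    |FS C f| ≤ ε * (XX g : ℝ) ^ 2 / (g : ℝ) ^ 2 := by
  refine (abs_FS_le C hε.le h).trans ?_
  rw [mul_div_assoc]
  exact mul_le_mul_of_nonneg_left hcard hε.le

theorem case_low {ε : ℝ} (hε : 0 < ε) : ∀ᶠ g : ℕ in atTop, ∀ (Z : ℕ) (C : Cell g Z)
    (τ : ZMod 2) (uR : U) (sgA' sgB' : (U → ℕ) → ℝ) (thr : U → ℕ) (sA sB sC tC : Finset U),
    (∀ A, |sgA' A| ≤ 1) → (∀ B, |sgB' B| ≤ 1) → (∀ u, thr u ≤ Z) →
    max 1 sA.card * max 1 sB.card * (insert uR tC).card ≤ 6 →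
    |TT C τ uR (gw τ Z sgA' sA) (gw τ Z sgB' sB) (φw g τ Z thr sC tC)| ≤
      ε * (XX g : ℝ) ^ 2 / (g : ℝ) ^ 2 := by
  filter_upwards [cell_card, low_ev hε, eventually_ge_atTop 1] with g hcard hev hg
  intro Z C τ uR sgA' sgB' thr sA sB sC tC hsA hsB hthr h6
  unfold TT
  refine low_fin hε C (hcard Z C).2.2 ?_
  intro a ha b hb P _ Q _ c hc _ _ htc
  have hta := (C.hA a ha).2.2
  have htb := (C.hB b hb).2.2
  have hc' := mem_Icc.1 hc
  have hW : (WW g c : ℝ) ≤ 4 := by exact_mod_cast WW_le hg hc'.1 hc'.2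
  have hm : max 1 tC.card ≤ (insert uR tC).card :=
    max_le (card_pos.2 (insert_nonempty _ _)) (card_le_card (subset_insert _ _))
  have hnum := low_num hg hta htb htc (le_max_left 1 sA.card) (le_max_left 1 sB.card)
    (le_max_left 1 tC.card) ((Nat.mul_le_mul_left _ hm).trans h6)
  have hA := low_gw_sum τ Z hsA sA hta.1
  have hB := low_gw_sum τ Z hsB sB htb.1
  have hD := low_phi_sum g τ Z hthr sC tC htc.1
  have key : |∑ A ∈ tup U a, ∑ B ∈ tup U b, ∑ D ∈ tup (Option U) c,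
      gw τ Z sgA' sA A * gw τ Z sgB' sB B * kab A B *
        ∏ o, (φw g τ Z thr sC tC o (D o) * lk τ (o.getD uR) A B (a * P) (D o))| ≤
      (∑ A ∈ tup U a, |gw τ Z sgA' sA A|) * (∑ B ∈ tup U b, |gw τ Z sgB' sB B|) *
        ∑ D ∈ tup (Option U) c, ∏ o, |φw g τ Z thr sC tC o (D o)| := by
    rw [sum_mul_sum, sum_mul]
    refine (abs_sum_le_sum_abs _ _).trans (sum_le_sum fun A _ => ?_)
    rw [sum_mul]
    refine (abs_sum_le_sum_abs _ _).trans (sum_le_sum fun B _ => ?_)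
    rw [mul_sum]
    refine (abs_sum_le_sum_abs _ _).trans (sum_le_sum fun D _ => ?_)
    rw [abs_mul, abs_mul, abs_mul, abs_prod]
    refine mul_le_mul (mul_le_of_le_one_right (by positivity) (abs_kab_le A B))
      (prod_le_prod (fun _ _ => abs_nonneg _) fun o _ => ?_)
      (prod_nonneg fun _ _ => abs_nonneg _) (by positivity)
    rw [abs_mul]
    exact mul_le_of_le_one_right (abs_nonneg _) (abs_lk_le ..)
  refine key.trans ?_
  have hA0 := lowB_nonneg Z (max 1 sA.card) a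
  have hB0 := lowB_nonneg Z (max 1 sB.card) b
  have hC0 := lowB_nonneg Z (max 1 tC.card) c
  calc _ ≤ lowB Z (max 1 sA.card) a * lowB Z (max 1 sB.card) b *
        (4 * lowB Z (max 1 tC.card) c) := by
        refine mul_le_mul (mul_le_mul hA hB (sum_nonneg fun _ _ => abs_nonneg _) hA0)
          (hD.trans (mul_le_mul_of_nonneg_right hW hC0))
          (sum_nonneg fun _ _ => prod_nonneg fun _ _ => abs_nonneg _) (by positivity)
    _ = 4 * (lowB Z (max 1 sA.card) a * lowB Z (max 1 sB.card) b *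
        lowB Z (max 1 tC.card) c) := by ring
    _ ≤ ε := by
        have := Real.exp_pos (-(Real.log g / 10))
        linarith

theorem sum_overlap {ε : ℝ} (hε : 0 < ε) : ∀ᶠ g : ℕ in atTop, ∀ (Z : ℕ) (C : Cell g Z),
    FS C (fun a b _ _ c => WW g c *
      (24 * 4 ^ (omZ Z a + omZ Z b + omZ Z c) / 2 ^ (om a + om b + om c + 1))) ≤
      ε * (XX g : ℝ) ^ 2 / (g : ℝ) ^ 2 := by
  filter_upwards [cell_card, low_ev hε, eventually_ge_atTop 1] with g hcard hev hg
  intro Z C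
  refine (le_abs_self _).trans (low_fin hε C (hcard Z C).2.2 ?_)
  intro a ha b hb P _ Q _ c hc _ _ htc
  have hta := (C.hA a ha).2.2
  have htb := (C.hB b hb).2.2
  have hc' := mem_Icc.1 hc
  have hW : (WW g c : ℝ) ≤ 4 := by exact_mod_cast WW_le hg hc'.1 hc'.2
  have hnum := low_num hg hta htb htc (le_refl 1) (le_refl 1) (le_refl 1) (by norm_num)
  have e : (24 * 4 ^ (omZ Z a + omZ Z b + omZ Z c) / 2 ^ (om a + om b + om c + 1) : ℝ) =
      12 * (lowB Z 1 a * lowB Z 1 b * lowB Z 1 c) := by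
    unfold lowB
    simp only [pow_add, Nat.cast_one, one_pow]
    field_simp
    ring
  have h0 : 0 ≤ lowB Z 1 a * lowB Z 1 b * lowB Z 1 c :=
    mul_nonneg (mul_nonneg (lowB_nonneg ..) (lowB_nonneg ..)) (lowB_nonneg ..)
  rw [e, abs_of_nonneg (by positivity)]
  have := Real.exp_pos (-(Real.log g / 10))
  calc (WW g c : ℝ) * (12 * (lowB Z 1 a * lowB Z 1 b * lowB Z 1 c)) ≤
        4 * (12 * (lowB Z 1 a * lowB Z 1 b * lowB Z 1 c)) :=
        mul_le_mul_of_nonneg_right hW (by positivity)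
    _ ≤ ε := by linarith

end Pool.Agent.Lib.MP_788af2_nt.R0
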