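import Pool.Agent.Lib.MP_788af2_nt.R0.S0c

namespace Pool.Agent.Lib.MP_788af2_nt.R0

open Finset Filter
open scoped NumberTheorySymbols

/-! The family is large. -/

lemma s0d_W1 : ∃ W1 : ℕ, 0 < W1 ∧ Odd W1 ∧ ∀ p, p.Prime → (p ∣ 2 * W1 ↔ p ≤ 2000) := by
  refine ⟨∏ p ∈ (range 2001).filter fun p => p.Prime ∧ p ≠ 2, p, ?_, ?_, fun p hp => ?_⟩
  · exact prod_pos fun p hp => (mem_filter.1 hp).2.1.pos
  · refine prod_induction _ Odd (fun a b => Odd.mul) odd_one fun p hp => ?_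
    exact (mem_filter.1 hp).2.1.odd_of_ne_two (mem_filter.1 hp).2.2
  · rw [hp.dvd_mul, hp.prime.dvd_finsetProd_iff]
    constructor
    · rintro (h | ⟨q, hq, h⟩)
      · exact (Nat.le_of_dvd two_pos h).trans (by norm_num)
      · rw [mem_filter, mem_range] at hq
        exact (Nat.le_of_dvd hq.2.1.pos h).trans (by omega)
    · intro h
      by_cases h2 : p = 2
      · exact Or.inl (h2 ▸ dvd_rfl)
      · exact Or.inr ⟨p, mem_filter.2 ⟨mem_range.2 (by omega), hp, h2⟩, dvd_rfl⟩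

lemma s0d_solve {W r : ℕ} (hW : 0 < W) (hr : r.Coprime W) (t n : ℕ) :
    ∃ α, n < α ∧ α ≤ n + W ∧ α * r ≡ t [MOD W] := by
  obtain ⟨s, hs⟩ : ∃ s, r * s ≡ 1 [MOD W] := by
    rcases Nat.eq_or_lt_of_le hW with h | h
    · exact ⟨0, by rw [← h]; exact Nat.modEq_one⟩
    · obtain ⟨s, -, hs⟩ := Nat.exists_mul_mod_eq_one_of_coprime hr h
      exact ⟨s, by rw [Nat.ModEq, hs, Nat.mod_eq_of_lt h]⟩
  refine ⟨n + 1 + (s * t + (W - 1) * (n + 1)) % W, by omega, ?_, ?_⟩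
  · have := Nat.mod_lt (s * t + (W - 1) * (n + 1)) hW
    omega
  · have h1 : n + 1 + (s * t + (W - 1) * (n + 1)) % W ≡ s * t [MOD W] := by
      refine ((Nat.mod_modEq _ _).add_left _).trans ?_
      have : n + 1 + (s * t + (W - 1) * (n + 1)) = s * t + W * (n + 1) := by
        obtain ⟨k, rfl⟩ : ∃ k, W = k + 1 := ⟨W - 1, by omega⟩
        simp; ring
      rw [this]
      exact (Nat.modEq_iff_dvd' (by omega)).2 (by simp) |>.symm
    refine (h1.mul_right r).trans ?_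
    have h2 := hs.mul_right t
    rw [one_mul] at h2
    rwa [show s * t * r = r * s * t by ring]

lemma s0d_div {n W : ℕ} (hW : 0 < W) (h : W ≤ n) : (n : ℝ) / (2 * W) ≤ (n / W : ℕ) := by
  have h1 : 0 < n / W := Nat.div_pos h hW
  have h2 : n < W * (n / W + 1) := Nat.lt_mul_div_succ n hW
  have h3 : n ≤ 2 * W * (n / W) := by nlinarith
  rw [div_le_iff₀ (by positivity)]
  exact_mod_cast (by linarith : n ≤ n / W * (2 * W))

theorem exists_cell : ∃ c : ℝ, 0 < c ∧ ∀ k : ℕ, ∀ᶠ g : ℕ in atTop, ∀ i j : ℕ, 3 * g ≤ i →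
    i < 4 * g → g ≤ j → j < 2 * g → ∃ C : Cell g (g ^ k), C.i = i ∧ C.j = j ∧
      c * (XX g : ℝ) ^ 2 / (g : ℝ) ^ 2 ≤ FS C fun _ _ _ _ c => WW g c := by
  obtain ⟨W1, hW1, hodd, hWE⟩ := s0d_W1
  have hW : 0 < 64 * W1 := by positivity
  obtain ⟨c, hc, h1⟩ := prime_class (64 * W1) hW
  set c' : ℝ := c ^ 2 / (100 * ((64 * W1 : ℕ) : ℝ) ^ 2) with hc'
  have hc0 : 0 < c' := by positivity
  refine ⟨c', hc0, fun k => ?_⟩
  have hcop : Nat.Coprime 64 W1 := by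
    have : Nat.Coprime 2 W1 := Nat.coprime_two_left.2 hodd
    simpa using this.pow_left 6
  filter_upwards [h1, precell k W1 hW1 hWE hodd, ev_pow_le ⌈200 / c'⌉₊ 2, ev_pow_le (64 * W1) 0,
    eventually_ge_atTop 1] with g h1 h2 h3 h4 hg i j hi hi' hj hj'
  obtain ⟨rP, hrP, hP⟩ := h1 (2 ^ (40 * g + 3 - i)) (Nat.pow_le_pow_right two_pos (by omega))
    (Nat.pow_le_pow_right two_pos (by omega))
  obtain ⟨rQ, hrQ, hQ⟩ := h1 (2 ^ (40 * g - j)) (Nat.pow_le_pow_right two_pos (by omega))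
    (Nat.pow_le_pow_right two_pos (by omega))
  obtain ⟨ra, ha1, ha2⟩ := Nat.chineseRemainder hcop 17 1
  obtain ⟨rb, hb1, hb2⟩ := Nat.chineseRemainder hcop 1 (W1 - 1)
  obtain ⟨α, hα1, hα2, hα3⟩ := s0d_solve hW hrP ra (2 ^ i)
  obtain ⟨β, hβ1, hβ2, hβ3⟩ := s0d_solve hW hrQ rb (2 ^ j)
  have eP : 2 ^ i * 2 ^ (40 * g + 3 - i) = 8 * XX g := by
    rw [← pow_add, XX, show i + (40 * g + 3 - i) = 3 + 40 * g by omega, pow_add]; norm_num
  have eQ : 2 ^ j * 2 ^ (40 * g - j) = XX g := by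
    rw [← pow_add, XX, show j + (40 * g - j) = 40 * g by omega]
  obtain ⟨C, hCi, hCj, h5⟩ := h2 i j α β
    ((Ioc (2 ^ (40 * g + 3 - i)) (4 * 2 ^ (40 * g + 3 - i))).filter
      fun p => p.Prime ∧ p ≡ rP [MOD 64 * W1])
    ((Ioc (2 ^ (40 * g - j)) (4 * 2 ^ (40 * g - j))).filter
      fun p => p.Prime ∧ p ≡ rQ [MOD 64 * W1]) hi hi' hj hj' hα1 hα2 hβ1 hβ2
    (by
      intro P hP
      simp only [mem_filter, mem_Ioc] at hP
      have h6 : α * P ≡ ra [MOD 64 * W1] := (hP.2.2.mul_left α).trans hα3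
      refine ⟨hP.2.1, ?_, ?_, (h6.of_mul_right _).trans ha1, (h6.of_mul_left _).trans ha2⟩
      · rw [← eP]; exact Nat.mul_lt_mul_of_pos_left hP.1.1 (by positivity)
      · have := Nat.mul_le_mul_left (2 ^ i) hP.1.2
        rw [mul_left_comm, eP] at this
        omega)
    (by
      intro Q hQ
      simp only [mem_filter, mem_Ioc] at hQ
      have h6 : β * Q ≡ rb [MOD 64 * W1] := (hQ.2.2.mul_left β).trans hβ3
      refine ⟨hQ.2.1, ?_, ?_, (h6.of_mul_right _).trans hb1, ?_⟩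
      · rw [← eQ]; exact Nat.mul_lt_mul_of_pos_left hQ.1.1 (by positivity)
      · have := Nat.mul_le_mul_left (2 ^ j) hQ.1.2
        rw [mul_left_comm, eQ] at this
        omega
      · have h7 := ((h6.of_mul_left _).trans hb2).add_right 1
        rw [Nat.sub_add_cancel hW1] at h7
        exact (Nat.modEq_zero_iff_dvd).1 (h7.trans (by simp [Nat.ModEq])))
  refine ⟨C, hCi, hCj, le_trans ?_ h5⟩
  have hg' : (0 : ℝ) < g := by exact_mod_cast hg
  simp only [pow_zero, mul_one] at h4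
  have hA := s0d_div hW (h4.trans (Nat.pow_le_pow_right two_pos (by omega : g ≤ i)))
  have hB := s0d_div hW (h4.trans (Nat.pow_le_pow_right two_pos hj))
  have eP' : (2 : ℝ) ^ i * ((2 ^ (40 * g + 3 - i) : ℕ) : ℝ) = 8 * XX g := by exact_mod_cast eP
  have eQ' : (2 : ℝ) ^ j * ((2 ^ (40 * g - j) : ℕ) : ℝ) = XX g := by exact_mod_cast eQ
  have h6 := mul_le_mul (mul_le_mul (mul_le_mul hA hB (by positivity) (by positivity)) hP
    (by positivity) (by positivity)) hQ (by positivity) (by positivity)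
  have h7 : ((2 ^ i : ℕ) : ℝ) / (2 * ((64 * W1 : ℕ) : ℝ)) *
      (((2 ^ j : ℕ) : ℝ) / (2 * ((64 * W1 : ℕ) : ℝ))) *
      (c * ((2 ^ (40 * g + 3 - i) : ℕ) : ℝ) / g) * (c * ((2 ^ (40 * g - j) : ℕ) : ℝ) / g) =
      200 * (c' * (XX g : ℝ) ^ 2 / (g : ℝ) ^ 2) := by
    have h8 : (XX g : ℝ) ^ 2 = ((2 : ℝ) ^ i * ((2 ^ (40 * g + 3 - i) : ℕ) : ℝ)) *
        ((2 : ℝ) ^ j * ((2 ^ (40 * g - j) : ℕ) : ℝ)) / 8 := by rw [eP', eQ']; ring
    rw [h8, hc', Nat.cast_pow 2 i, Nat.cast_pow 2 j]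
    have : (0 : ℝ) < ((64 * W1 : ℕ) : ℝ) := by exact_mod_cast hW
    generalize ((64 * W1 : ℕ) : ℝ) = w at this ⊢
    generalize ((2 ^ (40 * g + 3 - i) : ℕ) : ℝ) = x
    generalize ((2 ^ (40 * g - j) : ℕ) : ℝ) = y
    rw [Nat.cast_ofNat]
    field_simp
    ring
  rw [h7] at h6
  have h8 : 200 * (XX g : ℝ) ^ 2 / 2 ^ g ≤ c' * (XX g : ℝ) ^ 2 / (g : ℝ) ^ 2 := by
    have h9 : (200 / c') * (g : ℝ) ^ 2 ≤ 2 ^ g := by
      refine le_trans (mul_le_mul_of_nonneg_right (Nat.le_ceil _) (by positivity)) ?_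
      exact_mod_cast h3
    rw [div_mul_eq_mul_div, div_le_iff₀ hc0] at h9
    rw [div_le_div_iff₀ (by positivity) (by positivity)]
    have h10 : 0 ≤ (XX g : ℝ) ^ 2 := by positivity
    nlinarith
  linarith

end Pool.Agent.Lib.MP_788af2_nt.R0
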