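import Pool.Agent.Lib.MP_788af2_nt.R0.S3b

namespace Pool.Agent.Lib.MP_788af2_nt.R0

open Finset Filter
open scoped NumberTheorySymbols

/-! The third case. -/

/-- The real form of `s3_core`. -/
lemma s3c_core (k k1 : ℕ) : ∃ k' : ℕ, ∀ᶠ g : ℕ in atTop, ∀ (Z : ℕ) (C : Cell g Z) (v w : U)
    (F : ℕ → ℕ → ℝ) (α β : (U → ℕ) → (U → ℕ) → ℝ) (H : (U → ℕ) → (U → ℕ) → ℤ → ℝ),
    (∀ P Q, |F P Q| ≤ 1) → (∀ A B, |α A B| ≤ 1) → (∀ A B, |β A B| ≤ 1) →
    (∀ A B y, |H A B y| ≤ (g : ℝ) ^ k1) →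
    (∀ A B y, H A B y ≠ 0 → y ∈ Ioc (0 : ℤ) (64 * XX g)) →
    (∀ A B x, α A (Function.update B w x) = α A B) →
    (∀ A B x, β (Function.update A v x) B = β A B) →
    (∀ A B x, H (Function.update A v x) B = H A B) →
    (∀ A B, α A B ≠ 0 → g ^ k' ≤ A v) → (∀ A B, β A B ≠ 0 → g ^ k' ≤ B w) →
    |∑ P ∈ C.SP, ∑ Q ∈ C.SQ, F P Q * PS C fun a b A B =>
      α A B * β A B * (J((A v : ℤ) | B w) : ℝ) * H A B ((a : ℤ) * P - b * Q)| ≤
      (XX g : ℝ) ^ 2 / (g : ℝ) ^ k := by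
  obtain ⟨k', hk'⟩ := s3_core k k1
  refine ⟨k', ?_⟩
  filter_upwards [hk'] with g hg Z C v w F α β H hF hα hβ hH hs hαw hβv hHv hA hB
  have key := hg Z C v w (fun P Q => (F P Q : ℂ)) (fun A B => (α A B : ℂ))
    (fun A B => (β A B : ℂ)) (fun A B y => (H A B y : ℂ))
    (fun P Q => by rw [Complex.norm_real, Real.norm_eq_abs]; exact hF P Q)
    (fun A B => by rw [Complex.norm_real, Real.norm_eq_abs]; exact hα A B)
    (fun A B => by rw [Complex.norm_real, Real.norm_eq_abs]; exact hβ A B)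
    (fun A B y => by rw [Complex.norm_real, Real.norm_eq_abs]; exact hH A B y)
    (fun A B y h => hs A B y fun h0 => h (by rw [h0]; rfl))
    (fun A B x => by rw [hαw]) (fun A B x => by rw [hβv]) (fun A B x => by rw [hHv])
    (fun A B h => hA A B fun h0 => h (by rw [h0]; rfl))
    (fun A B h => hB A B fun h0 => h (by rw [h0]; rfl))
  refine le_trans (le_of_eq ?_) key
  rw [← Real.norm_eq_abs, ← Complex.norm_real]
  congr 1
  unfold PS
  push_cast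
  refine sum_congr rfl fun P _ => sum_congr rfl fun Q _ => ?_
  congr 1
  refine sum_congr rfl fun a _ => sum_congr rfl fun b _ => ?_
  split_ifs
  · push_cast; rfl
  · rfl

/-- The possible values of the small components. -/
def s3cXi (N : ℕ) (uR : U) : Finset (U → ℕ) :=
  Fintype.piFinset fun u => if u = uR then {1} else Icc 1 N

lemma s3c_card {N : ℕ} (hN : 1 ≤ N) (uR : U) : (s3cXi N uR).card ≤ N ^ 4 := by
  unfold s3cXi
  rw [Fintype.card_piFinset]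
  have h4 : (univ : Finset U).card = 4 := by decide
  rw [← h4]
  refine prod_le_pow_card _ _ _ fun u _ => ?_
  split_ifs
  · simpa using hN
  · simp

/-- The factor depending on `P`. -/
noncomputable def s3cF (τ : ZMod 2) (uR : U) (ξ : U → ℕ) (P : ℕ) : ℝ :=
  ∏ u ∈ univ.erase uR, Jp (qf u + τ) P (ξ u)

/-- The factor independent of `B w`. -/
noncomputable def s3cA (τ : ZMod 2) (uR w : U) (gA : (U → ℕ) → ℝ) (ξ A B : U → ℕ) : ℝ :=
  gA A * ((∏ v', ∏ w' ∈ univ.erase w, Jp (br v' w') (A v') (B w')) *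
    ∏ u ∈ univ.erase uR, (lkA u A (ξ u) * Jp (qf u + τ) (∏ t, A t) (ξ u)))

/-- The factor independent of `A v`. -/
noncomputable def s3cB (uR v w : U) (gB : (U → ℕ) → ℝ) (ξ A B : U → ℕ) : ℝ :=
  gB B * ((∏ v' ∈ univ.erase v, Jp (br v' w) (A v') (B w)) *
    ∏ u ∈ univ.erase uR, lkA u B (ξ u))

/-- The summand depending on the factorisation of `c`. -/
noncomputable def s3cG (uR : U) (φ : Option U → ℕ → ℝ) (A B : U → ℕ) (D : Option U → ℕ) : ℝ :=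
  (∏ o, φ o (D o)) * ((lkA uR A (D none) * lkA uR B (D none)) *
    (lkA uR A (D (some uR)) * lkA uR B (D (some uR))))

/-- The function of `16 c`. -/
noncomputable def s3cH (g Z : ℕ) (uR : U) (φ : Option U → ℕ → ℝ) (ξ A B : U → ℕ) (y : ℤ) : ℝ :=
  ∑ c ∈ Icc 1 (4 * XX g), if (16 * c : ℤ) = y ∧ typ g Z c then
    ∑ D ∈ tup (Option U) c,
      if ∀ u, u ≠ uR → D (some u) = ξ u then s3cG uR φ A B D else 0 else 0

lemma s3c_abs_mul {x y : ℝ} (hx : |x| ≤ 1) (hy : |y| ≤ 1) : |x * y| ≤ 1 := by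
  rw [abs_mul]; exact mul_le_one₀ hx (abs_nonneg _) hy

lemma s3c_abs_F (τ : ZMod 2) (uR : U) (ξ : U → ℕ) (P : ℕ) : |s3cF τ uR ξ P| ≤ 1 :=
  abs_prod_le_one _ _ fun _ _ => abs_Jp_le _ _ _

lemma s3c_abs_A (τ : ZMod 2) (uR w : U) {gA : (U → ℕ) → ℝ} (h : ∀ A, |gA A| ≤ 1)
    (ξ A B : U → ℕ) : |s3cA τ uR w gA ξ A B| ≤ 1 :=
  s3c_abs_mul (h A) (s3c_abs_mul
    (abs_prod_le_one _ _ fun _ _ => abs_prod_le_one _ _ fun _ _ => abs_Jp_le _ _ _)
    (abs_prod_le_one _ _ fun _ _ => s3c_abs_mul (abs_lkA_le _ _ _) (abs_Jp_le _ _ _)))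

lemma s3c_abs_B (uR v w : U) {gB : (U → ℕ) → ℝ} (h : ∀ B, |gB B| ≤ 1)
    (ξ A B : U → ℕ) : |s3cB uR v w gB ξ A B| ≤ 1 :=
  s3c_abs_mul (h B) (s3c_abs_mul (abs_prod_le_one _ _ fun _ _ => abs_Jp_le _ _ _)
    (abs_prod_le_one _ _ fun _ _ => abs_lkA_le _ _ _))

lemma s3c_abs_G (uR : U) {φ : Option U → ℕ → ℝ} (h : ∀ o n, |φ o n| ≤ 1) (A B : U → ℕ)
    (D : Option U → ℕ) : |s3cG uR φ A B D| ≤ 1 :=
  s3c_abs_mul (abs_prod_le_one _ _ fun _ _ => h _ _)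
    (s3c_abs_mul (s3c_abs_mul (abs_lkA_le _ _ _) (abs_lkA_le _ _ _))
      (s3c_abs_mul (abs_lkA_le _ _ _) (abs_lkA_le _ _ _)))

lemma s3c_abs_H {g : ℕ} (hg : 1 ≤ g) (Z : ℕ) (uR : U) {φ : Option U → ℕ → ℝ}
    (h : ∀ o n, |φ o n| ≤ 1) (ξ A B : U → ℕ) (y : ℤ) :
    |s3cH g Z uR φ ξ A B y| ≤ (g : ℝ) ^ 3 := by
  unfold s3cH
  by_cases hy : ∃ c ∈ Icc 1 (4 * XX g), (16 * c : ℤ) = y ∧ typ g Z c
  · obtain ⟨c, hc, hcy, hty⟩ := hy
    rw [sum_eq_single_of_mem c hc]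
    · rw [if_pos ⟨hcy, hty⟩]
      refine (abs_sum_le_sum_abs _ _).trans ?_
      refine (sum_le_card_nsmul _ _ 1 fun D _ => ?_).trans ?_
      · split_ifs
        · exact s3c_abs_G uR h A B D
        · simp
      · rw [nsmul_eq_mul, mul_one]
        exact_mod_cast (hty.good hg).card_tup_opt
    · intro c' _ hne
      rw [if_neg]
      rintro ⟨h1, -⟩
      exact hne (by omega)
  · rw [sum_eq_zero]
    · simp
    · intro c hc
      rw [if_neg]
      exact fun h' => hy ⟨c, hc, h'⟩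

lemma s3c_supp_H (g Z : ℕ) (uR : U) (φ : Option U → ℕ → ℝ) (ξ A B : U → ℕ) (y : ℤ)
    (h : s3cH g Z uR φ ξ A B y ≠ 0) : y ∈ Ioc (0 : ℤ) (64 * XX g) := by
  unfold s3cH at h
  obtain ⟨c, hc, hne⟩ := exists_ne_zero_of_sum_ne_zero h
  have h1 : (16 * c : ℤ) = y := by
    by_contra h1
    exact hne (if_neg fun h' => h1 h'.1)
  rw [mem_Icc] at hc
  rw [mem_Ioc]
  omega

lemma s3c_A_update (τ : ZMod 2) (uR w : U) (gA : (U → ℕ) → ℝ) (ξ A B : U → ℕ) (x : ℕ) :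
    s3cA τ uR w gA ξ A (Function.update B w x) = s3cA τ uR w gA ξ A B := by
  unfold s3cA
  congr 2
  refine prod_congr rfl fun v' _ => prod_congr rfl fun w' hw' => ?_
  rw [Function.update_of_ne (ne_of_mem_erase hw')]

lemma s3c_B_update (uR v w : U) (gB : (U → ℕ) → ℝ) (ξ A B : U → ℕ) (x : ℕ) :
    s3cB uR v w gB ξ (Function.update A v x) B = s3cB uR v w gB ξ A B := by
  unfold s3cB
  congr 2
  refine prod_congr rfl fun v' hv' => ?_
  rw [Function.update_of_ne (ne_of_mem_erase hv')]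

lemma s3c_lkA_update {uR v : U} (hv : br v uR + qf v = 0) (A : U → ℕ) (x n : ℕ) :
    lkA uR (Function.update A v x) n = lkA uR A n := by
  unfold lkA
  refine prod_congr rfl fun v' _ => ?_
  by_cases h : v' = v
  · subst h
    unfold Jp
    rw [if_pos hv, if_pos hv]
  · rw [Function.update_of_ne h]

lemma s3c_H_update (g Z : ℕ) {uR v : U} (hv : br v uR + qf v = 0) (φ : Option U → ℕ → ℝ)
    (ξ A B : U → ℕ) (x : ℕ) :
    s3cH g Z uR φ ξ (Function.update A v x) B = s3cH g Z uR φ ξ A B := by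
  funext y
  unfold s3cH s3cG
  simp only [s3c_lkA_update hv]

lemma s3c_kab {v w : U} (hvw : br v w = 1) (A B : U → ℕ) :
    kab A B = (∏ v', ∏ w' ∈ univ.erase w, Jp (br v' w') (A v') (B w')) *
      (∏ v' ∈ univ.erase v, Jp (br v' w) (A v') (B w)) * (J((A v : ℤ) | B w) : ℝ) := by
  unfold kab
  have h1 : ∀ v', ∏ w', Jp (br v' w') (A v') (B w') =
      (∏ w' ∈ univ.erase w, Jp (br v' w') (A v') (B w')) * Jp (br v' w) (A v') (B w) :=
    fun v' => (prod_erase_mul _ _ (mem_univ w)).symm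
  have h2 : Jp (br v w) (A v) (B w) = (J((A v : ℤ) | B w) : ℝ) := by
    unfold Jp
    rw [hvw, if_neg (by decide)]
  rw [prod_congr rfl fun v' _ => h1 v', prod_mul_distrib, mul_assoc, ← h2,
    prod_erase_mul _ (fun v' => Jp (br v' w) (A v') (B w)) (mem_univ v)]

/-- The factorisation of one term. -/
lemma s3c_term {τ : ZMod 2} {uR v w : U} (hτ : qf uR + τ = 0) (hvw : br v w = 1)
    (gA gB : (U → ℕ) → ℝ) (φ : Option U → ℕ → ℝ) (ξ A B : U → ℕ) (P : ℕ) (D : Option U → ℕ)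
    (hD : ∀ u, u ≠ uR → D (some u) = ξ u) :
    gA A * gB B * kab A B * ∏ o, (φ o (D o) * lk τ (o.getD uR) A B ((∏ t, A t) * P) (D o)) =
      s3cF τ uR ξ P * (s3cA τ uR w gA ξ A B * s3cB uR v w gB ξ A B * (J((A v : ℤ) | B w) : ℝ) *
        s3cG uR φ A B D) := by
  have hR : ∀ a n, lk τ uR A B a n = lkA uR A n * lkA uR B n := by
    intro a n
    unfold lk Jp
    rw [if_pos hτ, mul_one]
  have h0 : ∏ u ∈ univ.erase uR, lk τ u A B ((∏ t, A t) * P) (D (some u)) =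
      (∏ u ∈ univ.erase uR, (lkA u A (ξ u) * Jp (qf u + τ) (∏ t, A t) (ξ u))) *
        (∏ u ∈ univ.erase uR, lkA u B (ξ u)) * ∏ u ∈ univ.erase uR, Jp (qf u + τ) P (ξ u) := by
    rw [← prod_mul_distrib, ← prod_mul_distrib]
    refine prod_congr rfl fun u hu => ?_
    rw [hD u (ne_of_mem_erase hu)]
    unfold lk
    rw [Jp_mul_left]
    ring
  have h1 : ∏ o : Option U, lk τ (o.getD uR) A B ((∏ t, A t) * P) (D o) =
      (lkA uR A (D none) * lkA uR B (D none)) *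
        ((lkA uR A (D (some uR)) * lkA uR B (D (some uR))) *
        ((∏ u ∈ univ.erase uR, (lkA u A (ξ u) * Jp (qf u + τ) (∏ t, A t) (ξ u))) *
          (∏ u ∈ univ.erase uR, lkA u B (ξ u)) * ∏ u ∈ univ.erase uR, Jp (qf u + τ) P (ξ u))) := by
    rw [Fintype.prod_option]
    simp only [Option.getD_none, Option.getD_some]
    rw [← mul_prod_erase _ (fun u => lk τ u A B ((∏ t, A t) * P) (D (some u))) (mem_univ uR),
      h0, hR, hR]
  rw [prod_mul_distrib, h1, s3c_kab hvw]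
  unfold s3cF s3cA s3cB s3cG
  ring

/-- The partition of unity over the small components. -/
lemma s3c_part {N : ℕ} {uR : U} {φ : Option U → ℕ → ℝ}
    (hφ : ∀ u n, u ≠ uR → φ (some u) n ≠ 0 → n ≤ N) {c : ℕ} (hc : c ≠ 0) {D : Option U → ℕ}
    (hD : D ∈ tup (Option U) c) (r : ℝ) (f : Option U → ℝ) :
    r * ∏ o, (φ o (D o) * f o) = ∑ ξ ∈ s3cXi N uR,
      if ∀ u, u ≠ uR → D (some u) = ξ u then r * ∏ o, (φ o (D o) * f o) else 0 := by
  by_cases h0 : ∏ o, (φ o (D o) * f o) = 0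
  · rw [h0, mul_zero]; simp
  have hne : ∀ o, φ o (D o) ≠ 0 := fun o h =>
    h0 (prod_eq_zero (mem_univ o) (by rw [h, zero_mul]))
  have hpos : ∀ o, D o ≠ 0 := fun o h =>
    hc (by rw [← prod_of_mem_tup hD]; exact prod_eq_zero (mem_univ o) h)
  rw [sum_eq_single_of_mem (fun u => if u = uR then 1 else D (some u))]
  · rw [if_pos]
    intro u hu
    simp only [if_neg hu]
  · unfold s3cXi
    rw [Fintype.mem_piFinset]
    intro u
    by_cases hu : u = uR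
    · simp [hu]
    · simp only [if_neg hu, mem_Icc]
      exact ⟨Nat.one_le_iff_ne_zero.2 (hpos _), hφ u _ hu (hne _)⟩
  · intro ξ hξ hne'
    rw [if_neg]
    intro h
    apply hne'
    funext u
    by_cases hu : u = uR
    · unfold s3cXi at hξ
      have := Fintype.mem_piFinset.1 hξ u
      simpa [hu] using this
    · rw [if_neg hu, h u hu]

/-- The decomposition for fixed `a`, `b`, `P`, `Q`. -/
lemma s3c_inner (g Z : ℕ) {N : ℕ} {τ : ZMod 2} {uR v w : U} (hτ : qf uR + τ = 0)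
    (hvw : br v w = 1) (gA gB : (U → ℕ) → ℝ) {φ : Option U → ℕ → ℝ}
    (hφ : ∀ u n, u ≠ uR → φ (some u) n ≠ 0 → n ≤ N) (a b P Q : ℕ) :
    (∑ c ∈ Icc 1 (4 * XX g), if a.Coprime b ∧ a * P = b * Q + 16 * c ∧ typ g Z c then
      ∑ A ∈ tup U a, ∑ B ∈ tup U b, ∑ D ∈ tup (Option U) c,
        gA A * gB B * kab A B * ∏ o, (φ o (D o) * lk τ (o.getD uR) A B (a * P) (D o)) else 0) =
    ∑ ξ ∈ s3cXi N uR, s3cF τ uR ξ P * if a.Coprime b then ∑ A ∈ tup U a, ∑ B ∈ tup U b,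
      s3cA τ uR w gA ξ A B * s3cB uR v w gB ξ A B * (J((A v : ℤ) | B w) : ℝ) *
        s3cH g Z uR φ ξ A B ((a : ℤ) * P - b * Q) else 0 := by
  by_cases hab : a.Coprime b
  swap
  · simp [hab]
  simp only [eq_true hab, true_and, if_true]
  have hL : ∀ c, (if a * P = b * Q + 16 * c ∧ typ g Z c then
      ∑ A ∈ tup U a, ∑ B ∈ tup U b, ∑ D ∈ tup (Option U) c,
        gA A * gB B * kab A B * ∏ o, (φ o (D o) * lk τ (o.getD uR) A B (a * P) (D o)) else 0) =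
      ∑ A ∈ tup U a, ∑ B ∈ tup U b, if a * P = b * Q + 16 * c ∧ typ g Z c then
        ∑ D ∈ tup (Option U) c,
        gA A * gB B * kab A B * ∏ o, (φ o (D o) * lk τ (o.getD uR) A B (a * P) (D o)) else 0 := by
    intro c
    split_ifs
    · rfl
    · simp
  rw [sum_congr rfl fun c _ => hL c, sum_comm]
  simp only [mul_sum (tup U a), mul_sum (tup U b)]
  rw [sum_comm (s := s3cXi N uR)]
  refine sum_congr rfl fun A hA => ?_
  rw [sum_comm, sum_comm (s := s3cXi N uR)]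
  refine sum_congr rfl fun B _ => ?_
  unfold s3cH
  simp only [mul_sum (Icc 1 (4 * XX g))]
  rw [sum_comm (s := s3cXi N uR)]
  refine sum_congr rfl fun c hc => ?_
  have hc0 : c ≠ 0 := by rw [mem_Icc] at hc; omega
  have hiff : (a * P = b * Q + 16 * c ∧ typ g Z c) ↔
      ((16 * c : ℤ) = (a : ℤ) * P - b * Q ∧ typ g Z c) := by
    refine and_congr_left fun _ => ⟨fun h => ?_, fun h => ?_⟩
    · have h' : ((a * P : ℕ) : ℤ) = ((b * Q + 16 * c : ℕ) : ℤ) := by rw [h]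
      push_cast at h'
      linarith
    · have h' : ((a * P : ℕ) : ℤ) = ((b * Q + 16 * c : ℕ) : ℤ) := by push_cast; linarith
      exact_mod_cast h'
  by_cases hcond : a * P = b * Q + 16 * c ∧ typ g Z c
  swap
  · rw [if_neg hcond]
    refine (sum_eq_zero fun ξ _ => ?_).symm
    rw [if_neg fun h => hcond (hiff.2 h), mul_zero, mul_zero]
  rw [if_pos hcond]
  simp only [if_pos (hiff.1 hcond), mul_sum (tup (Option U) c)]
  rw [sum_comm (s := s3cXi N uR)]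
  refine sum_congr rfl fun D hD => ?_
  rw [s3c_part hφ hc0 hD]
  refine sum_congr rfl fun ξ _ => ?_
  split_ifs with hm
  · rw [← prod_of_mem_tup hA]
    exact s3c_term hτ hvw gA gB φ ξ A B P D hm
  · rw [mul_zero, mul_zero]

/-- The decomposition of `TT`. -/
lemma s3c_split {g Z : ℕ} (C : Cell g Z) {N : ℕ} {τ : ZMod 2} {uR v w : U}
    (hτ : qf uR + τ = 0) (hvw : br v w = 1) (gA gB : (U → ℕ) → ℝ) {φ : Option U → ℕ → ℝ}
    (hφ : ∀ u n, u ≠ uR → φ (some u) n ≠ 0 → n ≤ N) :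
    TT C τ uR gA gB φ = ∑ ξ ∈ s3cXi N uR, ∑ P ∈ C.SP, ∑ Q ∈ C.SQ, s3cF τ uR ξ P *
      PS C fun a b A B => s3cA τ uR w gA ξ A B * s3cB uR v w gB ξ A B *
        (J((A v : ℤ) | B w) : ℝ) * s3cH g Z uR φ ξ A B ((a : ℤ) * P - b * Q) := by
  unfold TT FS PS
  simp only [s3c_inner g Z hτ hvw gA gB hφ, mul_sum C.SA, mul_sum C.SB]
  calc _ = ∑ a ∈ C.SA, ∑ b ∈ C.SB, ∑ ξ ∈ s3cXi N uR, ∑ P ∈ C.SP, ∑ Q ∈ C.SQ, _ := by
        refine sum_congr rfl fun a _ => sum_congr rfl fun b _ => ?_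
        rw [sum_congr rfl fun P _ => sum_comm, sum_comm]
    _ = ∑ ξ ∈ s3cXi N uR, ∑ a ∈ C.SA, ∑ b ∈ C.SB, ∑ P ∈ C.SP, ∑ Q ∈ C.SQ, _ := by
        rw [sum_congr rfl fun a _ => sum_comm, sum_comm]
    _ = _ := by
        refine sum_congr rfl fun ξ _ => ?_
        rw [sum_congr rfl fun a _ => sum_comm, sum_comm]
        refine sum_congr rfl fun P _ => ?_
        rw [sum_congr rfl fun a _ => sum_comm, sum_comm]

theorem case_S3 (k k3 : ℕ) : ∃ k' : ℕ, ∀ᶠ g : ℕ in atTop, ∀ (Z : ℕ) (C : Cell g Z)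
    (τ : ZMod 2) (uR : U) (gA gB : (U → ℕ) → ℝ) (φ : Option U → ℕ → ℝ) (v w : U),
    Wt g gA gB φ → qf uR + τ = 0 → (∀ u n, u ≠ uR → φ (some u) n ≠ 0 → n ≤ g ^ k3) →
    br v w = 1 → br v uR + qf v = 0 → br w uR + qf w = 0 →
    (∀ A, gA A ≠ 0 → g ^ k' < A v) → (∀ B, gB B ≠ 0 → g ^ k' < B w) →
    |TT C τ uR gA gB φ| ≤ (XX g : ℝ) ^ 2 / (g : ℝ) ^ k := by
  obtain ⟨k', hk'⟩ := s3c_core (k + k3 * 4) 3
  refine ⟨k', ?_⟩
  filter_upwards [hk', eventually_ge_atTop 1] with g hg hg1 Z C τ uR gA gB φ v w hW hτ hφ hvw hv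
    _ hA hB
  rw [s3c_split C hτ hvw gA gB hφ]
  refine (abs_sum_le_sum_abs _ _).trans ?_
  refine (sum_le_card_nsmul _ _ ((XX g : ℝ) ^ 2 / (g : ℝ) ^ (k + k3 * 4)) fun ξ _ => ?_).trans ?_
  · exact hg Z C v w (fun P _ => s3cF τ uR ξ P) (s3cA τ uR w gA ξ) (s3cB uR v w gB ξ)
      (s3cH g Z uR φ ξ) (fun P _ => s3c_abs_F τ uR ξ P) (s3c_abs_A τ uR w hW.hA ξ)
      (s3c_abs_B uR v w hW.hB ξ) (s3c_abs_H hg1 Z uR hW.hφ ξ) (s3c_supp_H g Z uR φ ξ)
      (s3c_A_update τ uR w gA ξ) (s3c_B_update uR v w gB ξ) (s3c_H_update g Z hv φ ξ)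
      (fun A B h => (hA A (left_ne_zero_of_mul h)).le)
      (fun A B h => (hB B (left_ne_zero_of_mul h)).le)
  · have hg0 : (0 : ℝ) < g := by exact_mod_cast hg1
    have hc : ((s3cXi (g ^ k3) uR).card : ℝ) ≤ (g : ℝ) ^ (k3 * 4) := by
      have := s3c_card (Nat.one_le_pow k3 g hg1) uR
      rw [← pow_mul] at this
      exact_mod_cast this
    rw [nsmul_eq_mul]
    calc _ ≤ (g : ℝ) ^ (k3 * 4) * ((XX g : ℝ) ^ 2 / (g : ℝ) ^ (k + k3 * 4)) := by gcongr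
      _ = _ := by rw [pow_add]; field_simp

end Pool.Agent.Lib.MP_788af2_nt.R0
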