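import Pool.Agent.Lib.MP_788af2_nt.R0.Spin2

namespace Pool.Agent.Lib.MP_788af2_nt.R0

open Finset Filter
open scoped NumberTheorySymbols

/-! The spin case. -/

/-- The sum of a product weight over all factorisations. -/
noncomputable def spin3T {κ : Type} [Fintype κ] [DecidableEq κ] (ψ : κ → ℕ → ℝ) (n : ℕ) : ℝ :=
  ∑ D ∈ tup κ n, ∏ o, ψ o (D o)

/-- The weight with one component forced to be `1`. -/
noncomputable def spin3U {κ : Type} [DecidableEq κ] (ψ : κ → ℕ → ℝ) (o : κ) : κ → ℕ → ℝ :=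
  fun o' n => if o' = o then (if n = 1 then 1 else 0) else ψ o' n

lemma spin3T_option {κ : Type} [Fintype κ] [DecidableEq κ] (ψ : Option κ → ℕ → ℝ) {n : ℕ}
    (hn : n ≠ 0) : spin3T ψ n =
      ∑ x ∈ n.divisorsAntidiagonal, ψ none x.1 * spin3T (fun u => ψ (some u)) x.2 := by
  unfold spin3T
  rw [sum_tup_option hn]
  refine sum_congr rfl fun x _ => ?_
  rw [mul_sum]
  refine sum_congr rfl fun D _ => ?_
  rw [Fintype.prod_option]
  rfl

lemma spin3T_split {κ : Type} [Fintype κ] [DecidableEq κ] (ψ : κ → ℕ → ℝ) (o : κ) {n : ℕ}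
    (hn : n ≠ 0) : spin3T ψ n =
      ∑ x ∈ n.divisorsAntidiagonal, ψ o x.1 * spin3T (spin3U ψ o) x.2 := by
  unfold spin3T
  rw [sum_tup_split hn o]
  refine sum_congr rfl fun x _ => ?_
  rw [mul_sum, sum_filter]
  refine sum_congr rfl fun D _ => ?_
  rw [← mul_prod_erase univ _ (mem_univ o), ← mul_prod_erase univ _ (mem_univ o)]
  have h1 : ∏ o' ∈ univ.erase o, ψ o' (Function.update D o x.1 o') =
      ∏ o' ∈ univ.erase o, spin3U ψ o o' (D o') := by
    refine prod_congr rfl fun o' ho' => ?_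
    have hne : o' ≠ o := ne_of_mem_erase ho'
    rw [Function.update_of_ne hne]
    simp [spin3U, hne]
  rw [h1, Function.update_self]
  by_cases hD : D o = 1 <;> simp [spin3U, hD]

lemma spin3T_abs_le {κ : Type} [Fintype κ] [DecidableEq κ] (ψ : κ → ℕ → ℝ)
    (h : ∀ o n, |ψ o n| ≤ 1) (n : ℕ) : |spin3T ψ n| ≤ (tup κ n).card := by
  unfold spin3T
  refine (abs_sum_le_sum_abs _ _).trans ?_
  calc ∑ D ∈ tup κ n, |∏ o, ψ o (D o)| ≤ ∑ _D ∈ tup κ n, (1 : ℝ) :=
        sum_le_sum fun D _ => abs_prod_le_one _ _ fun o _ => h o _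
    _ = _ := by simp

lemma spin3U_abs_le {κ : Type} [DecidableEq κ] (ψ : κ → ℕ → ℝ) (h : ∀ o n, |ψ o n| ≤ 1)
    (o o' : κ) (n : ℕ) : |spin3U ψ o o' n| ≤ 1 := by
  unfold spin3U
  split_ifs
  · simp
  · simp
  · exact h _ _

lemma spin3T_ne_zero {κ : Type} [Fintype κ] [DecidableEq κ] (ψ : κ → ℕ → ℝ) (o : κ) {n : ℕ}
    (hn : n ≠ 0) (h : spin3T ψ n ≠ 0) : ∃ r ≤ n, ψ o r ≠ 0 := by
  obtain ⟨D, hD, hne⟩ := exists_ne_zero_of_sum_ne_zero h
  refine ⟨D o, ?_, (prod_ne_zero_iff.1 hne) o (mem_univ o)⟩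
  refine Nat.le_of_dvd (Nat.pos_of_ne_zero hn) ?_
  rw [← prod_of_mem_tup hD]
  exact dvd_prod_of_mem _ (mem_univ o)

lemma spin3_reidx (N : ℕ) (p : ℕ → Prop) [DecidablePred p] (hp : ∀ c, p c → c ≤ N)
    (h : ℕ → ℕ → ℝ) :
    ∑ c ∈ Icc 1 N, (if p c then ∑ x ∈ c.divisorsAntidiagonal, h x.1 x.2 else 0) =
      ∑ m ∈ Icc 1 N, ∑ s ∈ Icc 1 N, if p (s * m) then h s m else 0 := by
  rw [sum_comm, ← sum_product', ← sum_filter (s := Icc 1 N ×ˢ Icc 1 N)]
  rw [← sum_fiberwise_of_maps_to (s := (Icc 1 N ×ˢ Icc 1 N).filter fun x => p (x.1 * x.2))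
    (t := Icc 1 N) (g := fun x => x.1 * x.2)]
  · refine sum_congr rfl fun c hc => ?_
    have hc' := mem_Icc.1 hc
    split_ifs with hpc
    · refine sum_congr ?_ fun _ _ => rfl
      ext x
      simp only [Nat.mem_divisorsAntidiagonal, mem_filter, mem_product, mem_Icc]
      constructor
      · rintro ⟨hx, h0⟩
        have h1 : x.1 ≠ 0 := fun h => h0 (by rw [← hx, h, zero_mul])
        have h2 : x.2 ≠ 0 := fun h => h0 (by rw [← hx, h, mul_zero])
        have h3 : x.1 ≤ c := hx ▸ Nat.le_mul_of_pos_right _ (Nat.pos_of_ne_zero h2)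
        have h4 : x.2 ≤ c := hx ▸ Nat.le_mul_of_pos_left _ (Nat.pos_of_ne_zero h1)
        exact ⟨⟨⟨⟨Nat.pos_of_ne_zero h1, h3.trans hc'.2⟩, Nat.pos_of_ne_zero h2, h4.trans hc'.2⟩,
          hx ▸ hpc⟩, hx⟩
      · rintro ⟨_, hx⟩
        exact ⟨hx, by omega⟩
    · symm
      refine sum_eq_zero fun x hx => ?_
      simp only [mem_filter] at hx
      exact absurd (hx.2 ▸ hx.1.2) hpc
  · intro x hx
    simp only [mem_filter, mem_product, mem_Icc] at hx ⊢
    exact ⟨Nat.mul_pos hx.1.1.1 hx.1.2.1, hp _ hx.2⟩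

lemma spin3_reidx2 (N : ℕ) (p : ℕ → Prop) [DecidablePred p] (hp : ∀ c, p c → c ≤ N)
    (K : Finset ℕ) (hK : K ⊆ Icc 1 N) (w r T : ℕ → ℝ) (hr : ∀ κ, r κ ≠ 0 → κ ∈ K) :
    ∑ n ∈ Icc 1 N, ∑ s ∈ Icc 1 N,
        (if p (s * n) then w s * ∑ x ∈ n.divisorsAntidiagonal, r x.1 * T x.2 else 0) =
      ∑ m ∈ Icc 1 N, ∑ s ∈ Icc 1 N, ∑ κ ∈ K,
        if p (s * κ * m) then T m * (w s * r κ) else 0 := by
  rw [sum_comm, sum_comm (s := Icc 1 N) (t := Icc 1 N)
    (f := fun m s => ∑ κ ∈ K, if p (s * κ * m) then T m * (w s * r κ) else 0)]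
  refine sum_congr rfl fun s hs => ?_
  have hs1 : 1 ≤ s := (mem_Icc.1 hs).1
  simp_rw [mul_sum]
  rw [spin3_reidx N (fun n => p (s * n))
    (fun n hn => (Nat.le_mul_of_pos_left n hs1).trans (hp _ hn))
    (fun κ m => w s * (r κ * T m))]
  refine sum_congr rfl fun m _ => ?_
  rw [← sum_subset hK]
  · refine sum_congr rfl fun κ _ => ?_
    rw [mul_assoc s κ m]
    split_ifs
    · ring
    · rfl
  · intro κ _ hκ
    have : r κ = 0 := by
      by_contra h
      exact hκ (hr κ h)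
    simp [this]

lemma spin3_PS_mono {g Z : ℕ} (C : Cell g Z) {f f' : ℕ → ℕ → (U → ℕ) → (U → ℕ) → ℝ}
    (h : ∀ a ∈ C.SA, ∀ b ∈ C.SB, ∀ A ∈ tup U a, ∀ B ∈ tup U b, f a b A B ≤ f' a b A B) :
    PS C f ≤ PS C f' := by
  unfold PS
  refine sum_le_sum fun a ha => sum_le_sum fun b hb => ?_
  split_ifs
  · exact sum_le_sum fun A hA => sum_le_sum fun B hB => h a ha b hb A hA B hB
  · exact le_rfl

lemma spin3_PS_add {g Z : ℕ} (C : Cell g Z) (f f' : ℕ → ℕ → (U → ℕ) → (U → ℕ) → ℝ) :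
    PS C (fun a b A B => f a b A B + f' a b A B) = PS C f + PS C f' := by
  unfold PS
  rw [← sum_add_distrib]
  refine sum_congr rfl fun a _ => ?_
  rw [← sum_add_distrib]
  refine sum_congr rfl fun b _ => ?_
  split_ifs
  · simp only [sum_add_distrib]
  · simp

/-- The weight of a factor of `c`. -/
noncomputable def spin3W (τ : ZMod 2) (uR : U) (φ : Option U → ℕ → ℝ) (A B : U → ℕ) (P : ℕ) :
    Option U → ℕ → ℝ :=
  fun o n => φ o n * lk τ (o.getD uR) A B ((∏ v, A v) * P) n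

lemma spin3W_abs_le (τ : ZMod 2) (uR : U) {φ : Option U → ℕ → ℝ} (hφ : ∀ o n, |φ o n| ≤ 1)
    (A B : U → ℕ) (P : ℕ) (o : Option U) (n : ℕ) : |spin3W τ uR φ A B P o n| ≤ 1 := by
  unfold spin3W
  rw [abs_mul]
  exact mul_le_one₀ (hφ _ _) (abs_nonneg _) (abs_lk_le ..)

lemma spin3_abs_TT {g Z : ℕ} (C : Cell g Z) (τ : ZMod 2) (uR : U) (gA gB : (U → ℕ) → ℝ)
    (φ : Option U → ℕ → ℝ) (hW : Wt g gA gB φ) :
    |TT C τ uR gA gB φ| ≤ PS C fun a b A B =>
      |∑ P ∈ C.SP, ∑ Q ∈ C.SQ, ∑ c ∈ Icc 1 (4 * XX g),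
        if a * P = b * Q + 16 * c ∧ typ g Z c then spin3T (spin3W τ uR φ A B P) c else 0| := by
  unfold TT FS PS
  refine (abs_sum_le_sum_abs _ _).trans (sum_le_sum fun a _ => ?_)
  refine (abs_sum_le_sum_abs _ _).trans (sum_le_sum fun b _ => ?_)
  split_ifs with hab
  swap
  · simp [hab]
  have key : (∑ P ∈ C.SP, ∑ Q ∈ C.SQ, ∑ c ∈ Icc 1 (4 * XX g),
      if a.Coprime b ∧ a * P = b * Q + 16 * c ∧ typ g Z c then
        ∑ A ∈ tup U a, ∑ B ∈ tup U b, ∑ D ∈ tup (Option U) c,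
          gA A * gB B * kab A B * ∏ o, (φ o (D o) * lk τ (o.getD uR) A B (a * P) (D o))
        else 0) =
      ∑ A ∈ tup U a, ∑ B ∈ tup U b, gA A * gB B * kab A B *
        ∑ P ∈ C.SP, ∑ Q ∈ C.SQ, ∑ c ∈ Icc 1 (4 * XX g),
          if a * P = b * Q + 16 * c ∧ typ g Z c then spin3T (spin3W τ uR φ A B P) c else 0 := by
    have e1 : ∀ P Q c, (if a.Coprime b ∧ a * P = b * Q + 16 * c ∧ typ g Z c then
        ∑ A ∈ tup U a, ∑ B ∈ tup U b, ∑ D ∈ tup (Option U) c,
          gA A * gB B * kab A B * ∏ o, (φ o (D o) * lk τ (o.getD uR) A B (a * P) (D o))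
        else 0) = ∑ A ∈ tup U a, ∑ B ∈ tup U b, gA A * gB B * kab A B *
          (if a * P = b * Q + 16 * c ∧ typ g Z c then spin3T (spin3W τ uR φ A B P) c
            else 0) := by
      intro P Q c
      by_cases hc : a * P = b * Q + 16 * c ∧ typ g Z c
      · rw [if_pos ⟨hab, hc⟩]
        refine sum_congr rfl fun A hA => sum_congr rfl fun B _ => ?_
        rw [if_pos hc, spin3T, mul_sum]
        simp only [spin3W, prod_of_mem_tup hA]
      · rw [if_neg fun h => hc h.2]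
        simp [hc]
    simp_rw [e1, mul_sum]
    simp_rw [sum_comm (s := Icc 1 (4 * XX g)) (t := tup U a),
      sum_comm (s := Icc 1 (4 * XX g)) (t := tup U b),
      sum_comm (s := C.SQ) (t := tup U a), sum_comm (s := C.SQ) (t := tup U b)]
    rw [sum_comm]
    refine sum_congr rfl fun A _ => ?_
    rw [sum_comm]
  rw [key]
  refine (abs_sum_le_sum_abs _ _).trans (sum_le_sum fun A _ => ?_)
  refine (abs_sum_le_sum_abs _ _).trans (sum_le_sum fun B _ => ?_)
  rw [abs_mul]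
  refine mul_le_of_le_one_left (abs_nonneg _) ?_
  rw [abs_mul, abs_mul]
  exact mul_le_one₀ (mul_le_one₀ (hW.hA A) (abs_nonneg _) (hW.hB B)) (abs_nonneg _)
    (abs_kab_le A B)

lemma spin3_abs3 {x y z : ℝ} (hx : |x| ≤ 1) (hy : |y| ≤ 1) (hz : |z| ≤ 1) : |x * y * z| ≤ 1 := by
  rw [abs_mul, abs_mul]
  exact mul_le_one₀ (mul_le_one₀ hx (abs_nonneg _) hy) (abs_nonneg _) hz

lemma spin3_Jp_one (a n : ℕ) : Jp 1 a n = (J((a : ℤ) | n) : ℝ) := by
  unfold Jp
  rw [if_neg (by decide)]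

lemma spin3_Jp_zero (a n : ℕ) : Jp 0 a n = 1 := by
  unfold Jp
  rw [if_pos rfl]

lemma spin3_RR {g n : ℕ} (h : n ∈ RR g) : 2 ^ (9 * g) < n ∧ n ≤ 2 ^ (18 * g) :=
  mem_Ioc.1 (mem_filter.1 h).1

lemma spin3_pow_le {g e : ℕ} (he : e ≤ 40) : 2 ^ (e * g) ≤ 4 * XX g := by
  unfold XX
  have : 2 ^ (e * g) ≤ 2 ^ (40 * g) := Nat.pow_le_pow_right (by norm_num) (by gcongr)
  omega

theorem case_spin (k : ℕ) : ∃ k' : ℕ, ∀ᶠ g : ℕ in atTop, ∀ (Z : ℕ) (C : Cell g Z) (τ : ZMod 2)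
    (uR : U) (gA gB : (U → ℕ) → ℝ) (φ : Option U → ℕ → ℝ) (o : Option U), Wt g gA gB φ →
    qf (o.getD uR) + τ = 1 → (∀ n, φ o n ≠ 0 → g ^ k' < n) →
    |TT C τ uR gA gB φ| ≤ (XX g : ℝ) ^ 2 / (g : ℝ) ^ k := by
  obtain ⟨k', hk'⟩ := s1_tup (k + 1)
  refine ⟨k', ?_⟩
  filter_upwards [hk', ev_pow_le 1 k', eventually_ge_atTop 10] with g hg hpow hg10
  intro Z C τ uR gA gB φ o hW hq hφo
  have hg1 : (1 : ℝ) ≤ g := by exact_mod_cast (by omega : 1 ≤ g)
  have hg2 : (2 : ℝ) ≤ g := by exact_mod_cast (by omega : 2 ≤ g)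
  have hhalf : (XX g : ℝ) ^ 2 / (g : ℝ) ^ (k + 1) + (XX g : ℝ) ^ 2 / (g : ℝ) ^ (k + 1) ≤
      (XX g : ℝ) ^ 2 / (g : ℝ) ^ k := by
    have h0 : (0 : ℝ) ≤ (XX g : ℝ) ^ 2 / (g : ℝ) ^ k := by positivity
    have h1 : (XX g : ℝ) ^ 2 / (g : ℝ) ^ (k + 1) = (XX g : ℝ) ^ 2 / (g : ℝ) ^ k / g := by
      rw [pow_succ (g : ℝ) k, div_div]
    have h2 : (XX g : ℝ) ^ 2 / (g : ℝ) ^ k / g ≤ (XX g : ℝ) ^ 2 / (g : ℝ) ^ k / 2 :=
      div_le_div_of_nonneg_left h0 (by norm_num) hg2
    rw [h1]; linarith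
  have hnn : (0 : ℝ) ≤ (XX g : ℝ) ^ 2 / (g : ℝ) ^ (k + 1) := by positivity
  have h23 : ((g ^ 2 : ℕ) : ℝ) ≤ (g : ℝ) ^ 3 := by
    push_cast; exact pow_le_pow_right₀ hg1 (by norm_num)
  have hle : ∀ a ∈ C.SA, ∀ b ∈ C.SB, ∀ P ∈ C.SP, ∀ Q ∈ C.SQ, ∀ c,
      (a * P = b * Q + 16 * c ∧ typ g Z c) → c ≤ 4 * XX g := by
    intro a ha b hb P hP Q hQ c hc
    have := (C.sizes hg10 ha hb hP hQ).2.2.2.2.2.1
    omega
  have h39 : 2 ^ (3 * g) ≤ 2 ^ (9 * g) := Nat.pow_le_pow_right (by norm_num) (by omega)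
  refine (spin3_abs_TT C τ uR gA gB φ hW).trans ?_
  by_cases hR : qf uR + τ = 1
  · refine le_trans ?_ ((le_add_of_nonneg_left hnn).trans hhalf)
    refine le_trans (spin3_PS_mono C fun a ha b hb A hA B _ => le_of_eq ?_)
      (hg Z C {1} (fun A B P m => spin3T (fun u => spin3W τ uR φ A B P (some u)) m)
        (fun A B s κ => if κ = 1 then φ none s * lkA uR A s * lkA uR B s else 0)
        (Or.inl rfl) ?_ ?_ ?_)
    · congr 1
      refine sum_congr rfl fun P hP => sum_congr rfl fun Q hQ => ?_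
      rw [← sum_congr rfl fun c hc => if_congr Iff.rfl
        (spin3T_option (spin3W τ uR φ A B P) (n := c) (by have := (mem_Icc.1 hc).1; omega)).symm
        rfl]
      rw [spin3_reidx (4 * XX g) (fun c => a * P = b * Q + 16 * c ∧ typ g Z c)
        (hle a ha b hb P hP Q hQ) (fun s m => spin3W τ uR φ A B P none s *
          spin3T (fun u => spin3W τ uR φ A B P (some u)) m)]
      refine sum_congr rfl fun m _ => sum_congr rfl fun s _ => ?_
      rw [sum_singleton, mul_one, if_pos rfl]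
      split_ifs
      · simp only [spin3W, lk, Option.getD_none, hR, spin3_Jp_one, prod_of_mem_tup hA]
        ring
      · rfl
    · intro A B P m hm
      refine (spin3T_abs_le _ (fun u n => spin3W_abs_le τ uR hW.hφ A B P _ n) m).trans ?_
      exact le_trans (by exact_mod_cast hm.card_tup_U) h23
    · intro A B s κ
      split_ifs
      · exact spin3_abs3 (hW.hφ _ _) (abs_lkA_le ..) (abs_lkA_le ..)
      · simp
    · intro A B s κ h
      split_ifs at h with hκ
      swap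
      · exact absurd rfl h
      have hs := spin3_RR (hW.hR s (left_ne_zero_of_mul (left_ne_zero_of_mul h)))
      have hg9 : 2 ^ g ≤ 2 ^ (9 * g) := Nat.pow_le_pow_right (by norm_num) (by omega)
      subst hκ
      refine ⟨by omega, by omega, ?_⟩
      calc s * 1 * 2 ^ (9 * g) ≤ 2 ^ (18 * g) * 2 ^ (9 * g) := by
            rw [mul_one]; exact Nat.mul_le_mul_right _ hs.2
        _ = 2 ^ (27 * g) := by rw [← pow_add]; congr 1; ring
        _ ≤ _ := spin3_pow_le (by norm_num)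
  · have hR0 : qf uR + τ = 0 := by
      have h : ∀ e : ZMod 2, e ≠ 1 → e = 0 := by decide
      exact h _ hR
    obtain _ | u := o
    · exact absurd hq hR
    rw [Option.getD_some] at hq
    refine le_trans ?_ hhalf
    have H1 := hg Z C (RR g)
      (fun A B P m => spin3T (fun v => spin3U (spin3W τ uR φ A B P) (some u) (some v)) m)
      (fun A B s κ => (if s ≤ 2 ^ (3 * g) then φ (some u) s * lkA u A s * lkA u B s else 0) *
        (φ none κ * lkA uR A κ * lkA uR B κ)) (Or.inr rfl) ?_ ?_ ?_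
    have H2 := hg Z C {1}
      (fun A B P m => spin3T (spin3U (spin3W τ uR φ A B P) (some u)) m)
      (fun A B s κ => if κ = 1 ∧ 2 ^ (3 * g) < s ∧ s * 2 ^ (9 * g) ≤ 4 * XX g then
        φ (some u) s * lkA u A s * lkA u B s else 0) (Or.inl rfl) ?_ ?_ ?_
    · refine le_trans ?_ (add_le_add H1 H2)
      rw [← spin3_PS_add]
      refine spin3_PS_mono C fun a ha b hb A hA B _ => ?_
      refine le_trans (le_of_eq ?_) (abs_add_le _ _)
      congr 1
      rw [← sum_add_distrib]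
      refine sum_congr rfl fun P hP => ?_
      rw [← sum_add_distrib]
      refine sum_congr rfl fun Q hQ => ?_
      have hp := hle a ha b hb P hP Q hQ
      rw [← sum_congr rfl fun c hc => if_congr Iff.rfl
        (spin3T_split (spin3W τ uR φ A B P) (some u) (n := c)
          (by have := (mem_Icc.1 hc).1; omega)).symm rfl]
      rw [spin3_reidx (4 * XX g) (fun c => a * P = b * Q + 16 * c ∧ typ g Z c) hp
        (fun s m => spin3W τ uR φ A B P (some u) s *
          spin3T (spin3U (spin3W τ uR φ A B P) (some u)) m)]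
      have hK : RR g ⊆ Icc 1 (4 * XX g) := fun κ hκ => by
        have h1 := spin3_RR hκ
        have h2 : 2 ^ (18 * g) ≤ 4 * XX g := spin3_pow_le (by norm_num)
        exact mem_Icc.2 ⟨Nat.succ_le_of_lt (Nat.zero_lt_of_lt h1.1), h1.2.trans h2⟩
      have E := spin3_reidx2 (4 * XX g) (fun c => a * P = b * Q + 16 * c ∧ typ g Z c) hp
        (RR g) hK
        (fun s => (if s ≤ 2 ^ (3 * g) then φ (some u) s * lkA u A s * lkA u B s else 0) *
          (J(((a * P : ℕ) : ℤ) | s) : ℝ))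
        (fun κ => φ none κ * lkA uR A κ * lkA uR B κ)
        (fun m => spin3T (fun v => spin3U (spin3W τ uR φ A B P) (some u) (some v)) m)
        (fun κ h => hW.hR κ (left_ne_zero_of_mul (left_ne_zero_of_mul h)))
      have E' : (∑ m ∈ Icc 1 (4 * XX g), ∑ s ∈ Icc 1 (4 * XX g), ∑ κ ∈ RR g,
          if a * P = b * Q + 16 * (s * κ * m) ∧ typ g Z (s * κ * m) then
            spin3T (fun v => spin3U (spin3W τ uR φ A B P) (some u) (some v)) m *
              ((if s ≤ 2 ^ (3 * g) then φ (some u) s * lkA u A s * lkA u B s else 0) *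
                (φ none κ * lkA uR A κ * lkA uR B κ)) * (J(((a * P : ℕ) : ℤ) | s) : ℝ) else 0) =
          ∑ n ∈ Icc 1 (4 * XX g), ∑ s ∈ Icc 1 (4 * XX g),
            if a * P = b * Q + 16 * (s * n) ∧ typ g Z (s * n) then
              (if s ≤ 2 ^ (3 * g) then φ (some u) s * lkA u A s * lkA u B s else 0) *
                (J(((a * P : ℕ) : ℤ) | s) : ℝ) *
                spin3T (spin3U (spin3W τ uR φ A B P) (some u)) n else 0 := by
        refine Eq.trans ?_ (E.symm.trans ?_)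
        · refine sum_congr rfl fun m _ => sum_congr rfl fun s _ => sum_congr rfl fun κ _ => ?_
          refine if_congr Iff.rfl ?_ rfl
          ring
        · refine sum_congr rfl fun n hn => sum_congr rfl fun s _ => ?_
          refine if_congr Iff.rfl ?_ rfl
          rw [spin3T_option _ (n := n) (by have := (mem_Icc.1 hn).1; omega)]
          congr 1
          refine sum_congr rfl fun x _ => ?_
          congr 1
          simp [spin3U, spin3W, lk, hR0, spin3_Jp_zero, mul_assoc]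
      rw [E', ← sum_add_distrib]
      refine sum_congr rfl fun n hn => ?_
      rw [← sum_add_distrib]
      refine sum_congr rfl fun s _ => ?_
      rw [sum_singleton, mul_one]
      by_cases hc : a * P = b * Q + 16 * (s * n) ∧ typ g Z (s * n)
      swap
      · simp only [if_neg hc, add_zero]
      simp only [if_pos hc]
      have hw : spin3W τ uR φ A B P (some u) s =
          φ (some u) s * lkA u A s * lkA u B s * (J(((a * P : ℕ) : ℤ) | s) : ℝ) := by
        simp only [spin3W, lk, Option.getD_some, hq, spin3_Jp_one, prod_of_mem_tup hA]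
        ring
      rw [hw]
      by_cases hs : s ≤ 2 ^ (3 * g)
      · rw [if_pos hs, if_neg (by omega)]
        ring
      · rw [if_neg hs]
        by_cases hT : spin3T (spin3U (spin3W τ uR φ A B P) (some u)) n = 0
        · rw [hT]; ring
        obtain ⟨r, hrn, hr⟩ := spin3T_ne_zero _ none (by have := (mem_Icc.1 hn).1; omega) hT
        have hr' : φ none r ≠ 0 := by
          intro h0
          apply hr
          simp [spin3U, spin3W, h0]
        have h1 := (spin3_RR (hW.hR r hr')).1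
        have h2 : s * 2 ^ (9 * g) ≤ s * n := Nat.mul_le_mul_left _ (by omega)
        rw [if_pos ⟨trivial, by omega, h2.trans (hp _ hc)⟩]
        ring
    · intro A B P m hm
      refine (spin3T_abs_le _ (fun v n =>
        spin3U_abs_le _ (spin3W_abs_le τ uR hW.hφ A B P) _ _ n) m).trans ?_
      exact_mod_cast hm.card_tup_opt
    · intro A B s κ
      split_ifs
      · exact spin3_abs3 (hW.hφ _ _) (abs_lkA_le ..) (abs_lkA_le ..)
      · simp
    · intro A B s κ h
      split_ifs at h with hκ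
      swap
      · exact absurd rfl h
      obtain ⟨rfl, h1, h2⟩ := hκ
      have := hφo s (left_ne_zero_of_mul (left_ne_zero_of_mul h))
      rw [mul_one]
      exact ⟨this.le, h1, h2⟩
    · intro A B P m hm
      refine (spin3T_abs_le _ (fun v n =>
        spin3U_abs_le _ (spin3W_abs_le τ uR hW.hφ A B P) _ _ n) m).trans ?_
      exact le_trans (by exact_mod_cast hm.card_tup_U) h23
    · intro A B s κ
      rw [abs_mul]
      refine mul_le_one₀ ?_ (abs_nonneg _)
        (spin3_abs3 (hW.hφ _ _) (abs_lkA_le ..) (abs_lkA_le ..))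
      split_ifs
      · exact spin3_abs3 (hW.hφ _ _) (abs_lkA_le ..) (abs_lkA_le ..)
      · simp
    · intro A B s κ h
      have h1 := left_ne_zero_of_mul h
      have hκ := spin3_RR (hW.hR κ
        (left_ne_zero_of_mul (left_ne_zero_of_mul (right_ne_zero_of_mul h))))
      split_ifs at h1 with hs
      swap
      · exact absurd rfl h1
      have h2 := hφo s (left_ne_zero_of_mul (left_ne_zero_of_mul h1))
      have h3 : κ ≤ s * κ := Nat.le_mul_of_pos_left κ (by omega)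
      refine ⟨h2.le, by omega, ?_⟩
      calc s * κ * 2 ^ (9 * g) ≤ 2 ^ (3 * g) * 2 ^ (18 * g) * 2 ^ (9 * g) :=
            Nat.mul_le_mul_right _ (Nat.mul_le_mul hs hκ.2)
        _ = 2 ^ (30 * g) := by rw [← pow_add, ← pow_add]; congr 1; ring
        _ ≤ _ := spin3_pow_le (by norm_num)

end Pool.Agent.Lib.MP_788af2_nt.R0
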