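import Pool.Agent.Lib.MP_788af2_nt.R0.Exp3
import Pool.Agent.Lib.MP_788af2_nt.R0.Comb
import Pool.Agent.Lib.MP_788af2_nt.R0.Spin3
import Pool.Agent.Lib.MP_788af2_nt.R0.Link2
import Pool.Agent.Lib.MP_788af2_nt.R0.S3c
import Pool.Agent.Lib.MP_788af2_nt.R0.Low

namespace Pool.Agent.Lib.MP_788af2_nt.R0

open Finset Filter
open scoped NumberTheorySymbols

/-! The error terms are negligible. -/

lemma types_abs_pow (τ : ZMod 2) (n : ℕ) : |(sgn τ / 2) ^ n| ≤ 1 := by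
  rw [abs_pow, abs_div, abs_sgn]
  exact pow_le_one₀ (by norm_num) (by norm_num)

lemma types_abs_gw (τ : ZMod 2) (Z : ℕ) {sg : (U → ℕ) → ℝ} (h : ∀ A, |sg A| ≤ 1) (s : Finset U)
    (A : U → ℕ) : |gw τ Z sg s A| ≤ 1 := by
  unfold gw
  split_ifs
  · rw [abs_mul]
    exact mul_le_one₀ (h A) (abs_nonneg _) (types_abs_pow _ _)
  · simp

lemma types_wt (g : ℕ) (τ : ZMod 2) (Z : ℕ) (e f : ZMod 2) (thr : U → ℕ)
    (sA sB sC tC : Finset U) :
    Wt g (gw τ Z (sgA e f) sA) (gw τ Z (sgB e f) sB) (φw g τ Z thr sC tC) where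
  hA := types_abs_gw τ Z (fun _ => (abs_sgn _).le) sA
  hB := types_abs_gw τ Z (fun _ => (abs_sgn _).le) sB
  hφ o n := by
    rcases o with _ | u
    · simp only [φw]
      split_ifs
      · simpa using types_abs_pow τ 1
      · simp
    · simp only [φw]
      split_ifs
      · exact types_abs_pow _ _
      · simp
  hR n h := by
    simp only [φw] at h
    by_contra h'
    exact h (if_neg h')

lemma types_big {Z n : ℕ} (h : big Z n) : Z < n := by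
  obtain ⟨p, hp, h⟩ := h
  exact h.trans_le (Nat.le_of_mem_primeFactors hp)

lemma types_gw {τ : ZMod 2} {Z : ℕ} {sg : (U → ℕ) → ℝ} {s : Finset U} {A : U → ℕ} {v : U}
    (hv : v ∈ s) (h : gw τ Z sg s A ≠ 0) : Z < A v := by
  unfold gw at h
  have h1 : prof Z A = s := by
    by_contra h'
    exact h (if_neg h')
  rw [← h1] at hv
  exact types_big (mem_filter.1 hv).2

lemma types_φ {g : ℕ} {τ : ZMod 2} {Z : ℕ} {thr : U → ℕ} {sC tC : Finset U} {u : U} {n : ℕ}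
    (h : φw g τ Z thr sC tC (some u) n ≠ 0) : (big Z n ↔ u ∈ sC) ∧ (thr u < n ↔ u ∈ tC) := by
  simp only [φw] at h
  by_contra h'
  exact h (if_neg h')

lemma types_EEs {sA sB sC sC' : Finset U} (h : sC ⊆ sC') (h1 : EEs sA sB sC) : EEs sA sB sC' := by
  obtain ⟨⟨u, hu, h1⟩, ⟨v, hv, h2⟩, h3⟩ := h1
  have h4 : sA ∪ sB ∪ sC ⊆ sA ∪ sB ∪ sC' := union_subset_union (Subset.refl _) h
  exact ⟨⟨u, h4 hu, h1⟩, ⟨v, h4 hv, h2⟩, h3.imp id fun ⟨w, hw, h5⟩ => ⟨w, h hw, h5⟩⟩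

lemma types_zero {g Z : ℕ} (C : Cell g Z) (τ : ZMod 2) (uR : U) (gA gB : (U → ℕ) → ℝ)
    (φ : Option U → ℕ → ℝ) (o : Option U) (h : ∀ n, φ o n = 0) : TT C τ uR gA gB φ = 0 := by
  have h1 : TT C τ uR gA gB φ = FS C fun _ _ _ _ _ => 0 * 0 := by
    refine FS_congr C fun a _ b _ P _ Q _ c _ _ _ _ => ?_
    rw [mul_zero]
    refine sum_eq_zero fun A _ => sum_eq_zero fun B _ => sum_eq_zero fun D _ => ?_
    rw [prod_eq_zero (mem_univ o) (by rw [h, zero_mul]), mul_zero]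
  rw [h1, FS_mul, zero_mul]

lemma types_term {ε : ℝ} (hε : 0 < ε) : ∃ kZ : ℕ, 1 ≤ kZ ∧ ∀ᶠ g : ℕ in atTop,
    g ^ kZ ≤ 2 ^ (9 * g) ∧ ∀ τ : ZMod 2, ∃ thr : U → ℕ, ∀ (C : Cell g (g ^ kZ)) (e f : ZMod 2)
      (uR : U) (sA sB sC tC : Finset U), EEs sA sB (insert uR sC) →
      |TT C τ uR (gw τ (g ^ kZ) (sgA e f) sA) (gw τ (g ^ kZ) (sgB e f) sB)
        (φw g τ (g ^ kZ) thr sC tC)| ≤ ε * (XX g : ℝ) ^ 2 / (g : ℝ) ^ 2 := by
  obtain ⟨k2, h2⟩ := case_spin 3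
  obtain ⟨k3, h3⟩ := case_link 3 k2
  obtain ⟨k4, h4⟩ := case_S3 3 (k2 + k3)
  refine ⟨k2 + k3 + k4 + 1, by omega, ?_⟩
  have hev : ∀ᶠ g : ℕ in atTop, 1 / ε ≤ (g : ℝ) :=
    tendsto_natCast_atTop_atTop.eventually_ge_atTop _
  filter_upwards [h2, h3, h4, case_low hε, ev_pow_le 1 (k2 + k3 + k4 + 1), hev,
    eventually_ge_atTop 1] with g h2 h3 h4 h5 h6 h7 hg
  have hZ : g ^ (k2 + k3 + k4 + 1) ≤ 2 ^ (9 * g) :=
    (by simpa using h6 : g ^ (k2 + k3 + k4 + 1) ≤ 2 ^ g).trans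
      (Nat.pow_le_pow_right two_pos (by omega))
  have hmono : ∀ {m n : ℕ}, m ≤ n → g ^ m ≤ g ^ n := fun h => Nat.pow_le_pow_right hg h
  refine ⟨hZ, fun τ => ⟨fun u => if qf u + τ = 1 then g ^ k2 else g ^ k3, ?_⟩⟩
  set Z := g ^ (k2 + k3 + k4 + 1) with hZd
  set thr : U → ℕ := fun u => if qf u + τ = 1 then g ^ k2 else g ^ k3 with hthr
  intro C e f uR sA sB sC tC hE
  have hg' : (1 : ℝ) ≤ g := by exact_mod_cast hg
  have hfin : (XX g : ℝ) ^ 2 / (g : ℝ) ^ 3 ≤ ε * (XX g : ℝ) ^ 2 / (g : ℝ) ^ 2 := by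
    have h8 : 1 ≤ ε * g := by rw [div_le_iff₀ hε] at h7; linarith
    rw [div_le_div_iff₀ (by positivity) (by positivity)]
    have h9 : 0 ≤ (XX g : ℝ) ^ 2 * (g : ℝ) ^ 2 := by positivity
    nlinarith
  have hthrZ : ∀ u, thr u ≤ Z := by
    intro u
    simp only [hthr]
    split_ifs <;> exact hmono (by omega)
  have hwt := types_wt g τ Z e f thr sA sB sC tC
  have hR : ∀ n, φw g τ Z thr sC tC none n ≠ 0 → Z < n := fun n hn =>
    hZ.trans_lt (mem_Ioc.1 (mem_filter.1 (hwt.hR n hn)).1).1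
  by_cases hsub : sC ⊆ tC
  swap
  · obtain ⟨u, hu, hu'⟩ := not_subset.1 hsub
    rw [types_zero C τ uR _ _ _ (some u), abs_zero]
    · positivity
    intro n
    by_contra hn
    obtain ⟨h8, h9⟩ := types_φ hn
    exact hu' (h9.1 ((hthrZ u).trans_lt (types_big (h8.2 hu))))
  have h01 : ∀ x : ZMod 2, x = 0 → ¬x = 1 := by decide
  have hbig : ∀ u ∈ insert uR tC, ∃ o : Option U, o.getD uR = u ∧
      ∀ n, φw g τ Z thr sC tC o n ≠ 0 → thr u < n := by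
    intro u hu
    rcases mem_insert.1 hu with rfl | hu
    · exact ⟨none, rfl, fun n hn => (hthrZ _).trans_lt (hR n hn)⟩
    · exact ⟨some u, rfl, fun n hn => (types_φ hn).2.2 hu⟩
  by_cases hspin : ∃ u ∈ insert uR tC, qf u + τ = 1
  · obtain ⟨u, hu, h8⟩ := hspin
    obtain ⟨o, ho, h9⟩ := hbig u hu
    refine (h2 Z C τ uR _ _ _ o hwt (ho ▸ h8) fun n hn => ?_).trans hfin
    simpa [hthr, h8] using h9 n hn
  have hsm : ∀ (o' : Option U) n, qf (o'.getD uR) + τ = 1 → φw g τ Z thr sC tC o' n ≠ 0 →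
      n ≤ g ^ k2 := by
    rintro (_ | u) n h8 hn
    · exact absurd ⟨uR, mem_insert_self _ _, h8⟩ hspin
    · have h9 : u ∉ tC := fun h => hspin ⟨u, mem_insert_of_mem h, h8⟩
      have h10 := (types_φ hn).2
      simp only [Option.getD_some] at h8
      simp only [hthr, h8, if_true] at h10
      exact not_lt.1 fun h => h9 (h10.1 h)
  rcases classify τ uR sA sB tC (types_EEs (insert_subset_insert _ hsub) hE) with
    h8 | ⟨u, hu, h8, v, hv, h9⟩ | ⟨u, hu, h8, v, hv, h9⟩ | ⟨h8, h9, v, hv, w, hw, h10, h11, h12⟩ | h8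
  · exact absurd h8 hspin
  · obtain ⟨o, ho, h10⟩ := hbig u hu
    refine (h3 Z C τ uR _ _ _ o v hwt hsm (ho ▸ h8) (ho ▸ h9) (fun n hn => ?_)
      (Or.inl fun A hA => (hmono (by omega)).trans_lt (types_gw hv hA))).trans hfin
    simpa [hthr, h01 _ h8] using h10 n hn
  · obtain ⟨o, ho, h10⟩ := hbig u hu
    refine (h3 Z C τ uR _ _ _ o v hwt hsm (ho ▸ h8) (ho ▸ h9) (fun n hn => ?_)
      (Or.inr fun A hA => (hmono (by omega)).trans_lt (types_gw hv hA))).trans hfin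
    simpa [hthr, h01 _ h8] using h10 n hn
  · refine (h4 Z C τ uR _ _ _ v w hwt h9 (fun u n hu hn => ?_) h10 h11 h12
      (fun A hA => (hmono (by omega)).trans_lt (types_gw hv hA))
      (fun A hA => (hmono (by omega)).trans_lt (types_gw hw hA))).trans hfin
    have h13 : n ≤ thr u := not_lt.1 fun h => hu (h8 u ((types_φ hn).2.1 h))
    refine h13.trans ?_
    simp only [hthr]
    split_ifs <;> exact hmono (by omega)
  · exact h5 Z C τ uR _ _ thr sA sB sC tC (fun _ => (abs_sgn _).le) (fun _ => (abs_sgn _).le)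
      hthrZ h8

lemma types_sum_le {ι : Type} [Fintype ι] (f : ι → ℝ) {δ : ℝ} (h : ∀ i, |f i| ≤ δ) :
    |∑ i, f i| ≤ Fintype.card ι * δ := by
  refine (abs_sum_le_sum_abs _ _).trans ?_
  simpa using sum_le_sum (s := univ) fun i _ => h i

theorem sum_Et {ε : ℝ} (hε : 0 < ε) : ∃ kZ : ℕ, 1 ≤ kZ ∧ ∀ᶠ g : ℕ in atTop,
    ∀ (C : Cell g (g ^ kZ)) (τ : ZMod 2),
      |FS C fun a b P _ c => WW g c * Et τ (g ^ kZ) a b c (a * P)| ≤
        ε * (XX g : ℝ) ^ 2 / (g : ℝ) ^ 2 := by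
  obtain ⟨kZ, hk, h⟩ := types_term (ε := ε / 2 ^ 20) (by positivity)
  refine ⟨kZ, hk, h.mono fun g ⟨hZ, h⟩ C τ => ?_⟩
  obtain ⟨thr, h⟩ := h τ
  rw [Et_decomp C hZ τ thr]
  have c1 : (Fintype.card (ZMod 2) : ℝ) = 2 := by simp
  have c2 : (Fintype.card U : ℝ) = 4 := by simp [Fintype.card_prod]
  have c3 : (Fintype.card (Finset U) : ℝ) = 16 := by
    simp [Fintype.card_finset, Fintype.card_prod]
  refine le_trans (types_sum_le _ fun e => types_sum_le _ fun f => types_sum_le _ fun uR =>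
    types_sum_le _ fun sA => types_sum_le _ fun sB => types_sum_le _ fun sC =>
    types_sum_le (δ := ε / 2 ^ 20 * (XX g : ℝ) ^ 2 / (g : ℝ) ^ 2) _ fun tC => ?_) (le_of_eq ?_)
  · split_ifs with hE
    · rw [abs_mul]
      refine le_trans (mul_le_of_le_one_left (abs_nonneg _) ?_) (h C e f uR sA sB sC tC hE)
      simpa using types_abs_pow τ 1
    · rw [abs_zero]; positivity
  · rw [c1, c2, c3]; ring

end Pool.Agent.Lib.MP_788af2_nt.R0
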