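import Pool.Agent.Lib.MP_788af2_nt.R0.Point
import Pool.Agent.Lib.MP_788af2_nt.R0.Types
import Pool.Agent.Lib.MP_788af2_nt.R0.L3b
import Pool.Agent.Lib.MP_788af2_nt.R0.S0d

namespace Pool.Agent.Lib.MP_788af2_nt.R0

open Finset Filter
open scoped NumberTheorySymbols

/-! Rank zero in a cell. -/

open Classical in
theorem cell_rank_zero : ∃ c : ℝ, 0 < c ∧ ∃ k : ℕ, ∀ᶠ g : ℕ in atTop, ∀ i j : ℕ, 3 * g ≤ i →
    i < 4 * g → g ≤ j → j < 2 * g → ∃ C : Cell g (g ^ k), C.i = i ∧ C.j = j ∧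
      c * (XX g : ℝ) ^ 2 / (g : ℝ) ^ 2 ≤ FS C fun a b P Q _ =>
        if Module.rank ℤ (cvE ![0, ((a * P : ℕ) : ℤ), ((b * Q : ℕ) : ℤ)]).Point = 0 then 1
        else 0 := by
  obtain ⟨c, hc, h1⟩ := exists_cell
  obtain ⟨k, hk, h2⟩ := sum_Et (ε := c / 20) (by positivity)
  refine ⟨c / 48, by positivity, k, ?_⟩
  have hev : ∀ᶠ g : ℕ in atTop, 20 / c ≤ (g : ℝ) :=
    tendsto_natCast_atTop_atTop.eventually_ge_atTop _
  filter_upwards [h1 k, h2, sum_sig 3, sum_NS (ε := c / 20) (by positivity) hk,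
    sum_overlap (ε := c / 20) (by positivity), hev, eventually_ge_atTop 10]
    with g h1 h2 h3 h4 h5 h6 hg i j hi hi' hj hj'
  obtain ⟨C, hCi, hCj, h1⟩ := h1 i j hi hi' hj hj'
  refine ⟨C, hCi, hCj, ?_⟩
  have hg' : (10 : ℝ) ≤ g := by exact_mod_cast hg
  have hfin : (XX g : ℝ) ^ 2 / (g : ℝ) ^ 3 ≤ c / 20 * (XX g : ℝ) ^ 2 / (g : ℝ) ^ 2 := by
    have h8 : 20 ≤ c * g := by rw [div_le_iff₀ hc] at h6; linarith
    rw [div_le_div_iff₀ (by positivity) (by positivity)]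
    have h9 : 0 ≤ (XX g : ℝ) ^ 2 * (g : ℝ) ^ 2 := by positivity
    nlinarith
  have e0 := (abs_le.1 (h2 C 0)).2
  have e1 := (abs_le.1 (h2 C 1)).2
  have e2 := (abs_le.1 ((h3 _ C).trans hfin)).1
  have e3 := h4 C
  have e4 := h5 _ C
  have key : FS C (fun a b P _ c => (WW g c : ℝ) + (WW g c * sig a b c (a * P) +
      (-6 * (WW g c * ((NS (g ^ k) a b c (a * P) : ℝ) - 1)) +
      (-1 * (WW g c * (24 * 4 ^ (omZ (g ^ k) a + omZ (g ^ k) b + omZ (g ^ k) c) /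
        2 ^ (om a + om b + om c + 1))) +
      (-1 * (WW g c * Et 0 (g ^ k) a b c (a * P)) +
        -1 * (WW g c * Et 1 (g ^ k) a b c (a * P))))))) ≤ FS C fun a b P Q _ => 24 *
        if Module.rank ℤ (cvE ![0, ((a * P : ℕ) : ℤ), ((b * Q : ℕ) : ℤ)]).Point = 0 then 1
        else 0 := by
    refine FS_mono C fun a ha b hb P hP Q hQ c hc hab he ht => ?_
    have h7 := point_ineq (C.adm hg ha hb hP hQ hab he ht.1) (g ^ k)
    have h8 : (WW g c : ℝ) ≤ 4 := by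
      exact_mod_cast WW_le (by omega) (mem_Icc.1 hc).1 (mem_Icc.1 hc).2
    have h9 : (0 : ℝ) ≤ WW g c := Nat.cast_nonneg _
    have h10 := mul_le_mul_of_nonneg_left h7 h9
    split_ifs at h10 ⊢ <;> linarith
  rw [FS_add, FS_add, FS_add, FS_add, FS_add, FS_mul, FS_mul, FS_mul, FS_mul, FS_mul] at key
  have e5 : c / 48 * (XX g : ℝ) ^ 2 / (g : ℝ) ^ 2 = 1 / 48 * (c * (XX g : ℝ) ^ 2 / (g : ℝ) ^ 2) := by
    ring
  have e6 : c / 20 * (XX g : ℝ) ^ 2 / (g : ℝ) ^ 2 = 1 / 20 * (c * (XX g : ℝ) ^ 2 / (g : ℝ) ^ 2) := by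
    ring
  rw [e6] at e0 e1 e2 e3 e4
  rw [e5]
  linarith

end Pool.Agent.Lib.MP_788af2_nt.R0
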