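import Pool.Agent.Lib.MP_788af2_nt.R0.Main1

namespace Pool.Agent.Lib.MP_788af2_nt.R0

open Finset Filter
open scoped NumberTheorySymbols

/-! A positive proportion of the pairs `(a, b)` give rank zero. -/

lemma main2_unique {a a' P P' N : ℕ} (hP : P.Prime) (hP' : P'.Prime) (ha : 0 < a') (h1 : a' ≤ N)
    (h2 : N < P) (h : a * P = a' * P') : a = a' ∧ P = P' := by
  have h3 : P ∣ a' * P' := h ▸ dvd_mul_left P a
  have h4 : P = P' := by
    rcases (hP.dvd_mul).1 h3 with h5 | h5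
    · exact absurd (Nat.le_of_dvd ha h5) (by omega)
    · exact (Nat.prime_dvd_prime_iff_eq hP hP').1 h5
  subst h4
  exact ⟨Nat.eq_of_mul_eq_mul_right hP.pos h, rfl⟩

lemma main2_dy {i i' a : ℕ} (h1 : 2 ^ i < a) (h2 : a ≤ 2 ^ (i + 1)) (h3 : 2 ^ i' < a)
    (h4 : a ≤ 2 ^ (i' + 1)) : i = i' := by
  have h5 := (Nat.pow_lt_pow_iff_right (a := 2) (by norm_num)).1 (h1.trans_le h4)
  have h6 := (Nat.pow_lt_pow_iff_right (a := 2) (by norm_num)).1 (h3.trans_le h2)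
  omega

open Classical in
/-- The pairs of a cell with property `p`. -/
noncomputable def main2T {g Z : ℕ} (C : Cell g Z) (p : ℕ → ℕ → Prop) : Finset (ℕ × ℕ) :=
  ((C.SA ×ˢ C.SB ×ˢ C.SP ×ˢ C.SQ).filter fun x =>
    x.1.Coprime x.2.1 ∧ p (x.1 * x.2.2.1) (x.2.1 * x.2.2.2)).image
      fun x => (x.1 * x.2.2.1, x.2.1 * x.2.2.2)

lemma main2_mem {g Z : ℕ} {C : Cell g Z} {p : ℕ → ℕ → Prop} {y : ℕ × ℕ} (h : y ∈ main2T C p) :
    ∃ a ∈ C.SA, ∃ b ∈ C.SB, ∃ P ∈ C.SP, ∃ Q ∈ C.SQ, a.Coprime b ∧ p (a * P) (b * Q) ∧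
      y = (a * P, b * Q) := by
  simp only [main2T, mem_image, mem_filter, mem_product] at h
  obtain ⟨⟨a, b, P, Q⟩, ⟨⟨ha, hb, hP, hQ⟩, h1, h2⟩, rfl⟩ := h
  exact ⟨a, ha, b, hb, P, hP, Q, hQ, h1, h2, rfl⟩

open Classical in
lemma main2_card {g Z : ℕ} (hg : 10 ≤ g) (C : Cell g Z) (p : ℕ → ℕ → Prop) :
    FS C (fun a b P Q _ => if p (a * P) (b * Q) then 1 else 0) ≤ (main2T C p).card := by
  rw [main2T, card_image_of_injOn]
  · rw [card_filter, Nat.cast_sum, sum_product, FS]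
    refine sum_le_sum fun a _ => ?_
    rw [sum_product]
    refine sum_le_sum fun b _ => ?_
    rw [sum_product]
    refine sum_le_sum fun P _ => sum_le_sum fun Q _ => ?_
    by_cases h : a.Coprime b ∧ p (a * P) (b * Q)
    · rw [if_pos h, Nat.cast_one]
      simp only [h.2, if_true]
      rw [← sum_filter, sum_const, nsmul_eq_mul, mul_one, Nat.cast_le_one, card_le_one]
      intro c hc c' hc'
      have h1 := (mem_filter.1 hc).2.2.1
      have h2 := (mem_filter.1 hc').2.2.1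
      omega
    · rw [if_neg h, Nat.cast_zero]
      refine le_of_eq (sum_eq_zero fun c _ => ?_)
      split_ifs with h1 h2
      · exact absurd ⟨h1.1, h2⟩ h
      · rfl
      · rfl
  · rintro ⟨a, b, P, Q⟩ hx ⟨a', b', P', Q'⟩ hx' h
    simp only [coe_filter, mem_product, Set.mem_ofPred_eq] at hx hx'
    obtain ⟨⟨ha, hb, hP, hQ⟩, -⟩ := hx
    obtain ⟨⟨ha', hb', hP', hQ'⟩, -⟩ := hx'
    simp only [Prod.mk.injEq] at h ⊢
    have s := C.sizes hg ha hb hP hQ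
    have s' := C.sizes hg ha' hb' hP' hQ'
    have hle : 2 ^ (4 * g) ≤ 2 ^ (36 * g) := Nat.pow_le_pow_right two_pos (by omega)
    have h1 := main2_unique (C.hP P hP).1 (C.hP P' hP').1 (N := 2 ^ (4 * g)) (by omega) s'.2.1
      (by omega) h.1
    have h2 := main2_unique (C.hQ Q hQ).1 (C.hQ Q' hQ').1 (N := 2 ^ (4 * g))
      (Nat.zero_lt_of_lt (C.hB b' hb').1) (by omega) (by omega) h.2
    exact ⟨h1.1, h2.1, h1.2, h2.2⟩

theorem main_pairs : ∃ c : ℝ, 0 < c ∧ ∀ᶠ g : ℕ in atTop, ∃ T : Finset (ℕ × ℕ),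
    (∀ x ∈ T, 0 < x.2 ∧ x.2 < x.1 ∧ x.1 ≤ 64 * XX g ∧ x.1.Coprime x.2 ∧ 3 ∣ x.1 + x.2 ∧
      Module.rank ℤ (cvE ![0, (x.1 : ℤ), (x.2 : ℤ)]).Point = 0) ∧
    c * (XX g : ℝ) ^ 2 ≤ T.card := by
  classical
  obtain ⟨c, hc, k, h⟩ := cell_rank_zero
  refine ⟨c, hc, ?_⟩
  filter_upwards [h, eventually_ge_atTop 10] with g h hg
  let p : ℕ → ℕ → Prop := fun a b => Module.rank ℤ (cvE ![0, (a : ℤ), (b : ℤ)]).Point = 0
  have h' : ∀ x : (Ico (3 * g) (4 * g) ×ˢ Ico g (2 * g) : Finset (ℕ × ℕ)),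
      ∃ C : Cell g (g ^ k), C.i = x.1.1 ∧ C.j = x.1.2 ∧
        c * (XX g : ℝ) ^ 2 / (g : ℝ) ^ 2 ≤ (main2T C p).card := by
    rintro ⟨⟨i, j⟩, hx⟩
    simp only [mem_product, mem_Ico] at hx
    obtain ⟨C, h1, h2, h3⟩ := h i j hx.1.1 hx.1.2 hx.2.1 hx.2.2
    exact ⟨C, h1, h2, h3.trans (le_trans (FS_mono C fun a _ b _ P _ Q _ _ _ _ _ _ => by
      by_cases h4 : p (a * P) (b * Q)
      · rw [if_pos h4, if_pos h4]
      · rw [if_neg h4, if_neg h4]) (main2_card hg C p))⟩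
  choose C hi hj hC using h'
  refine ⟨univ.biUnion fun x => main2T (C x) p, fun y hy => ?_, ?_⟩
  · obtain ⟨x, -, hy⟩ := mem_biUnion.1 hy
    obtain ⟨a, ha, b, hb, P, hP, Q, hQ, h1, h2, rfl⟩ := main2_mem hy
    have s := (C x).sizes hg ha hb hP hQ
    refine ⟨Nat.mul_pos (Nat.zero_lt_of_lt ((C x).hB b hb).1) ((C x).hQ Q hQ).1.pos,
      s.2.2.2.2.1, s.2.2.2.2.2.1, (C x).coprime hg ha hb hP hQ h1, ?_, h2⟩
    have m1 := (C x).mA a ha P hP
    have m2 := (C x).mB b hb Q hQ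
    simp only
    omega
  · rw [card_biUnion, Nat.cast_sum]
    · refine le_trans (le_of_eq ?_) (sum_le_sum fun x _ => hC x)
      have hg' : (g : ℝ) ≠ 0 := by positivity
      rw [sum_const, card_univ, Fintype.card_coe, card_product, Nat.card_Ico, Nat.card_Ico,
        show 4 * g - 3 * g = g by omega, show 2 * g - g = g by omega, nsmul_eq_mul]
      push_cast
      field_simp
    · intro x _ x' _ hne
      rw [Function.onFun, disjoint_left]
      intro y hy hy'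
      obtain ⟨a, ha, b, hb, P, hP, Q, hQ, -, -, rfl⟩ := main2_mem hy
      obtain ⟨a', ha', b', hb', P', hP', Q', hQ', -, -, h⟩ := main2_mem hy'
      simp only [Prod.mk.injEq] at h
      have s := (C x).sizes hg ha hb hP hQ
      have s' := (C x').sizes hg ha' hb' hP' hQ'
      have hle : 2 ^ (4 * g) ≤ 2 ^ (36 * g) := Nat.pow_le_pow_right two_pos (by omega)
      have h1 := main2_unique ((C x).hP P hP).1 ((C x').hP P' hP').1 (N := 2 ^ (4 * g)) (by omega)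
        s'.2.1 (by omega) h.1
      have h2 := main2_unique ((C x).hQ Q hQ).1 ((C x').hQ Q' hQ').1 (N := 2 ^ (4 * g))
        (Nat.zero_lt_of_lt ((C x').hB b' hb').1) (by omega) (by omega) h.2
      obtain ⟨rfl, -⟩ := h1
      obtain ⟨rfl, -⟩ := h2
      have e1 := main2_dy ((C x).hA a ha).1 ((C x).hA a ha).2.1 ((C x').hA a ha').1
        ((C x').hA a ha').2.1
      have e2 := main2_dy ((C x).hB b hb).1 ((C x).hB b hb).2.1 ((C x').hB b hb').1
        ((C x').hB b hb').2.1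
      rw [hi, hi] at e1
      rw [hj, hj] at e2
      exact hne (Subtype.ext (Prod.ext e1 e2))

end Pool.Agent.Lib.MP_788af2_nt.R0
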