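import Pool.Agent.Lib.MP_788af2_nt.R0.Defs

namespace Pool.Agent.Lib.MP_788af2_nt.R0

open Finset Filter
open scoped NumberTheorySymbols

/-! Parseval for residue classes, geometric sums, Fourier expansion of an interval. -/

lemma pl_ex_pow (t : ℝ) (n : ℕ) : ex (t * n) = ex t ^ n := by
  induction n with
  | zero => simp [ex_zero]
  | succ n ih => rw [Nat.cast_succ, mul_add, mul_one, ex_add, ih, pow_succ]

lemma pl_ex_sub_int (t : ℝ) (n : ℤ) : ex (t - n) = ex t := by
  have h : ex t = ex (t - n) * ex n := by rw [← ex_add, sub_add_cancel]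
  rw [h, ex_int, mul_one]

lemma pl_norm_ex_sub_one (t : ℝ) : 4 * |t - round t| ≤ ‖ex t - 1‖ := by
  rw [← pl_ex_sub_int t (round t)]
  have h1 := abs_sub_round t
  generalize t - round t = s at h1 ⊢
  have hpi := Real.pi_pos
  have h2 : |Real.pi * s| ≤ Real.pi / 2 := by
    rw [abs_mul, abs_of_pos hpi]
    nlinarith
  have h3 := Real.mul_abs_le_abs_sin h2
  have h4 : 2 / Real.pi * |Real.pi * s| = 2 * |s| := by
    rw [abs_mul, abs_of_pos hpi]
    field_simp
  unfold ex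
  rw [mul_comm _ Complex.I, Complex.norm_exp_I_mul_ofReal_sub_one, Real.norm_eq_abs, abs_mul,
    show 2 * Real.pi * s / 2 = Real.pi * s by ring, abs_two]
  linarith

/-- Orthogonality of additive characters. -/
lemma pl_orth {D : ℕ} (hD : 0 < D) (m : ℤ) :
    ∑ h ∈ range D, ex ((h : ℝ) / D * m) = if (D : ℤ) ∣ m then (D : ℂ) else 0 := by
  have hD' : (D : ℝ) ≠ 0 := by exact_mod_cast hD.ne'
  have h1 : ∀ h : ℕ, ex ((h : ℝ) / D * m) = ex ((m : ℝ) / D) ^ h := by
    intro h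
    rw [← pl_ex_pow]
    congr 1
    ring
  simp only [h1]
  split_ifs with hd
  · obtain ⟨k, rfl⟩ := hd
    have h2 : ((((D : ℤ) * k : ℤ) : ℝ) / D) = (k : ℝ) := by
      push_cast
      field_simp
    rw [h2, ex_int]
    simp
  · have h2 : ex ((m : ℝ) / D) - 1 ≠ 0 := by
      intro h3
      have h4 := pl_norm_ex_sub_one ((m : ℝ) / D)
      rw [h3, norm_zero] at h4
      have h5 : |(m : ℝ) / D - round ((m : ℝ) / D)| = 0 :=
        le_antisymm (by linarith) (abs_nonneg _)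
      rw [abs_eq_zero, sub_eq_zero, div_eq_iff hD'] at h5
      apply hd
      refine ⟨round ((m : ℝ) / D), ?_⟩
      have h6 : (m : ℝ) = (((D : ℤ) * round ((m : ℝ) / D) : ℤ) : ℝ) := by
        push_cast
        linarith
      exact_mod_cast h6
    have h3 := geom_sum_mul (ex ((m : ℝ) / D)) D
    rw [← pl_ex_pow, div_mul_cancel₀ _ hD', ex_int, sub_self] at h3
    exact (mul_eq_zero.1 h3).resolve_right h2

lemma pl_dvd_iff {D : ℕ} {a b : ℤ} (h : |a - b| < D) : (D : ℤ) ∣ a - b ↔ a = b := by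
  constructor
  · intro hd
    have := Int.eq_zero_of_abs_lt_dvd hd h
    omega
  · rintro rfl
    simp

/-- Parseval on the residues modulo `D`. -/
lemma pl_pars {D : ℕ} (hD : 0 < D) (S : ℕ → ℂ) :
    ∑ h ∈ range D, ‖∑ r ∈ range D, S r * ex ((h : ℝ) / D * r)‖ ^ 2 =
      D * ∑ r ∈ range D, ‖S r‖ ^ 2 := by
  apply Complex.ofReal_injective
  push_cast
  simp only [← Complex.mul_conj']
  have h1 : ∀ h : ℕ, (∑ r ∈ range D, S r * ex ((h : ℝ) / D * r)) *
      (starRingEnd ℂ) (∑ r ∈ range D, S r * ex ((h : ℝ) / D * r)) =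
      ∑ r ∈ range D, ∑ r' ∈ range D, S r * (starRingEnd ℂ) (S r') *
        ex ((h : ℝ) / D * (((r : ℤ) - (r' : ℤ) : ℤ) : ℝ)) := by
    intro h
    rw [map_sum, sum_mul_sum]
    refine sum_congr rfl fun r _ => sum_congr rfl fun r' _ => ?_
    rw [map_mul, conj_ex, mul_mul_mul_comm, ← ex_add]
    congr 2
    push_cast
    ring
  simp only [h1]
  rw [sum_comm, mul_sum]
  refine sum_congr rfl fun r hr => ?_
  rw [sum_comm]
  simp only [← mul_sum, pl_orth hD]
  rw [sum_eq_single r]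
  · simp [mul_comm]
  · intro r' hr' hne
    rw [mem_range] at hr hr'
    rw [if_neg, mul_zero]
    rw [pl_dvd_iff (by rw [abs_lt]; constructor <;> omega)]
    omega
  · intro h
    exact absurd hr h

lemma pl_FT (I : Finset ℤ) (H : ℤ → ℂ) {D : ℕ} (hD : 0 < D) (h : ℕ) :
    FT I H ((h : ℝ) / D) =
      ∑ r ∈ range D, (∑ y ∈ I with y % (D : ℤ) = r, H y) * ex ((h : ℝ) / D * r) := by
  have hD' : (D : ℝ) ≠ 0 := by exact_mod_cast hD.ne'
  have hD2 : (0 : ℤ) < D := by exact_mod_cast hD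
  unfold FT
  rw [← sum_fiberwise_of_maps_to (s := I) (t := range D) (g := fun y : ℤ => (y % (D : ℤ)).toNat)]
  · refine sum_congr rfl fun r _ => ?_
    rw [sum_mul]
    refine sum_congr ?_ fun y hy => ?_
    · refine filter_congr fun y _ => ?_
      have := Int.emod_nonneg y hD2.ne'
      omega
    · have h1 := (mem_filter.1 hy).2
      have h2 : (y : ℝ) = r + D * ((y / D : ℤ) : ℝ) := by
        have h3 := Int.emod_add_mul_ediv y D
        rw [h1] at h3
        exact_mod_cast h3.symm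
      have h3 : (h : ℝ) / D * y = (h : ℝ) / D * r + (((h : ℤ) * (y / D) : ℤ) : ℝ) := by
        rw [Int.cast_mul, Int.cast_natCast]
        generalize ((y / D : ℤ) : ℝ) = k at h2
        rw [h2]
        field_simp
      rw [h3, ex_add, ex_int, mul_one]
  · intro y _
    have h1 := Int.emod_nonneg y hD2.ne'
    have h2 := Int.emod_lt_of_pos y hD2
    rw [mem_range]
    omega

/-- Every fraction with denominator `D` has one reduced form. -/
lemma pl_regroup {D : ℕ} (hD : 0 < D) (F : ℝ → ℝ) :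
    ∑ h ∈ range D, F ((h : ℝ) / D) =
      ∑ q ∈ D.divisors, ∑ h ∈ range q with h.Coprime q, F ((h : ℝ) / q) := by
  rw [← Nat.sum_div_divisors,
    ← sum_fiberwise_of_maps_to (s := range D) (t := D.divisors) (g := fun h => D.gcd h)
      fun h _ => Nat.mem_divisors.2 ⟨Nat.gcd_dvd_left _ _, hD.ne'⟩]
  refine sum_congr rfl fun d hd => ?_
  obtain ⟨q, rfl⟩ := (Nat.mem_divisors.1 hd).1
  have hd0 : 0 < d := Nat.pos_of_mul_pos_right hD
  have hq0 : 0 < q := Nat.pos_of_mul_pos_left hD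
  rw [Nat.mul_div_cancel_left _ hd0]
  symm
  refine sum_nbij (fun h => d * h) ?_ ?_ ?_ ?_
  · intro h hh
    simp only [mem_filter, mem_range] at hh ⊢
    refine ⟨Nat.mul_lt_mul_of_pos_left hh.1 hd0, ?_⟩
    rw [Nat.gcd_mul_left, hh.2.symm.gcd_eq_one, mul_one]
  · intro h _ h' _ he
    exact Nat.eq_of_mul_eq_mul_left hd0 he
  · intro h hh
    simp only [coe_filter, mem_range, Set.mem_ofPred_eq] at hh
    have h1 : d ∣ h := hh.2 ▸ Nat.gcd_dvd_right _ _
    obtain ⟨k, rfl⟩ := h1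
    refine ⟨k, ?_, rfl⟩
    simp only [coe_filter, mem_range, Set.mem_ofPred_eq]
    refine ⟨Nat.lt_of_mul_lt_mul_left hh.1, ?_⟩
    have h2 := hh.2
    rw [Nat.gcd_mul_left] at h2
    have h3 : q.gcd k = 1 := Nat.eq_of_mul_eq_mul_left hd0 (by rw [h2, mul_one])
    exact Nat.Coprime.symm h3
  · intro h _
    have h1 : (d : ℝ) ≠ 0 := by exact_mod_cast hd0.ne'
    congr 1
    push_cast
    rw [mul_div_mul_left _ _ h1]

theorem parseval_classes (I : Finset ℤ) (H : ℤ → ℂ) {D : ℕ} (hD : 0 < D) :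
    D * Vr I H D = ∑ q ∈ D.divisors, Mq I H q := by
  unfold Vr Mq
  rw [← pl_regroup hD fun t => ‖FT I H t‖ ^ 2, ← pl_pars hD]
  exact sum_congr rfl fun h _ => by rw [pl_FT I H hD]

lemma pl_tele (x : ℤ) (l : ℕ) (θ : ℝ) :
    (∑ y ∈ Ioc x (x + l), ex (θ * y)) * (ex θ - 1) = ex (θ * (x + l + 1)) - ex (θ * (x + 1)) := by
  induction l with
  | zero => simp
  | succ l ih =>
    have h1 : Ioc x (x + (l + 1 : ℕ)) = insert (x + l + 1) (Ioc x (x + l)) := by
      ext y
      simp only [mem_Ioc, mem_insert]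
      push_cast
      omega
    rw [h1, sum_insert (by simp), add_mul, ih, mul_sub, mul_one, ← ex_add]
    push_cast
    rw [show θ * (x + l + 1) + θ = θ * (x + (l + 1) + 1) by ring]
    ring

/-- Geometric sums; `δ` is a lower bound for the distance from `θ` to the integers. -/
theorem geo_sum_le (x : ℤ) (l : ℕ) {θ δ : ℝ} (hδ : 0 < δ) (h : ∀ n : ℤ, δ ≤ |θ - n|) :
    ‖∑ y ∈ Ioc x (x + l), ex (θ * y)‖ ≤ 1 / (2 * δ) := by
  have h1 := congrArg norm (pl_tele x l θ)
  rw [norm_mul] at h1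
  have h2 := norm_sub_le (ex (θ * (x + l + 1))) (ex (θ * (x + 1)))
  rw [norm_ex, norm_ex, ← h1] at h2
  have h3 := pl_norm_ex_sub_one θ
  have h4 := h (round θ)
  have h5 := norm_nonneg (∑ y ∈ Ioc x (x + l), ex (θ * y))
  rw [le_div_iff₀ (by positivity)]
  nlinarith

/-- Distinct reduced fractions in `[0, 1)` are well spaced modulo one. -/
theorem farey_spaced {Q q h q' h' : ℕ} (hq : q ∈ Icc 1 Q) (hq' : q' ∈ Icc 1 Q) (hh : h < q)
    (hh' : h' < q') (hc : h.Coprime q) (hc' : h'.Coprime q') (hne : (q, h) ≠ (q', h')) (n : ℤ) :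
    1 / (Q : ℝ) ^ 2 ≤ |(h : ℝ) / q - (h' : ℝ) / q' - n| := by
  rw [mem_Icc] at hq hq'
  have hN : (h : ℤ) * q' - h' * q - n * q * q' ≠ 0 := by
    intro h0
    have h1 : q ∣ q' := by
      apply hc.symm.dvd_of_dvd_mul_left
      have : (q : ℤ) ∣ (h : ℤ) * q' := ⟨h' + n * q', by linear_combination h0⟩
      exact_mod_cast this
    have h2 : q' ∣ q := by
      apply hc'.symm.dvd_of_dvd_mul_left
      have : (q' : ℤ) ∣ (h' : ℤ) * q := ⟨h - n * q, by linear_combination -h0⟩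
      exact_mod_cast this
    obtain rfl := Nat.dvd_antisymm h1 h2
    have h3 : (q : ℤ) ≠ 0 := by omega
    have h4 : (h : ℤ) - h' = q * n := by
      apply mul_left_cancel₀ h3
      linear_combination h0
    have h5 := (pl_dvd_iff (D := q) (a := h) (b := h')
      (by rw [abs_lt]; constructor <;> omega)).1 ⟨n, h4⟩
    apply hne
    rw [show h = h' by omega]
  have h1 : (1 : ℝ) ≤ |(((h : ℤ) * q' - h' * q - n * q * q' : ℤ) : ℝ)| := by
    exact_mod_cast Int.one_le_abs hN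
  have p1 : (1 : ℝ) ≤ q := by exact_mod_cast hq.1
  have p2 : (1 : ℝ) ≤ q' := by exact_mod_cast hq'.1
  have p3 : (q : ℝ) ≤ Q := by exact_mod_cast hq.2
  have p4 : (q' : ℝ) ≤ Q := by exact_mod_cast hq'.2
  have h2 : (h : ℝ) / q - (h' : ℝ) / q' - n =
      (((h : ℤ) * q' - h' * q - n * q * q' : ℤ) : ℝ) / (q * q') := by
    push_cast
    field_simp
  rw [h2, abs_div, abs_of_pos (show (0 : ℝ) < q * q' by positivity)]
  refine div_le_div₀ (by positivity) h1 (by positivity) ?_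
  rw [sq]
  exact mul_le_mul p3 p4 (by positivity) (by positivity)

lemma pl_harm (M : ℕ) : ∑ r ∈ range M, ((r : ℝ) + 1)⁻¹ ≤ 1 + Real.log M := by
  have := harmonic_le_one_add_log M
  unfold harmonic at this
  push_cast at this
  exact this

lemma pl_coef {M r : ℕ} (h0 : 0 < r) (hr : r < M) (x : ℤ) (l : ℕ) :
    ‖∑ y ∈ Ioc x (x + l), ex (-((r : ℝ) / M) * y)‖ / M ≤
      (r : ℝ)⁻¹ / 2 + (((M - 1 - r : ℕ) : ℝ) + 1)⁻¹ / 2 := by
  obtain ⟨s, rfl⟩ : ∃ s, M = r + (s + 1) := ⟨M - r - 1, by omega⟩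
  rw [show r + (s + 1) - 1 - r = s by omega]
  have p1 : (0 : ℝ) < r := by exact_mod_cast h0
  have p2 : (0 : ℝ) < (s : ℝ) + 1 := by positivity
  have p3 : ((r + (s + 1) : ℕ) : ℝ) = r + (s + 1) := by push_cast; rfl
  rw [p3]
  generalize (s : ℝ) + 1 = b at p2
  generalize (r : ℝ) = a at p1
  have p4 : 0 < a + b := by positivity
  have h1 : ∀ n : ℤ, a * b / (a + b) ^ 2 ≤ |-(a / (a + b)) - n| := by
    intro n
    rcases le_or_gt 0 n with hn | hn
    · have hn' : (0 : ℝ) ≤ n := by exact_mod_cast hn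
      have h2 : a * b / (a + b) ^ 2 ≤ a / (a + b) := by
        rw [div_le_div_iff₀ (by positivity) p4]
        nlinarith [mul_pos p1 p4, mul_pos p1 p1]
      rw [le_abs]
      right
      linarith
    · have hn' : (n : ℝ) ≤ -1 := by exact_mod_cast (show n ≤ -1 by omega)
      have h2 : a * b / (a + b) ^ 2 ≤ b / (a + b) := by
        rw [div_le_div_iff₀ (by positivity) p4]
        nlinarith [mul_pos p2 p4, mul_pos p2 p2]
      have h3 : b / (a + b) = 1 - a / (a + b) := by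
        field_simp
        ring
      rw [le_abs]
      left
      linarith
  have h2 := geo_sum_le x l (by positivity) h1
  refine (div_le_div_of_nonneg_right h2 p4.le).trans (le_of_eq ?_)
  field_simp
  ring

theorem interval_fourier {M : ℕ} (hM : 0 < M) (u v : ℤ) : ∃ η : ℕ → ℂ,
    ∑ r ∈ range M, ‖η r‖ ≤ 2 + Real.log M ∧ ∀ t : ℤ, 0 < t → t ≤ M →
      (if t ∈ Ioc u v then (1 : ℂ) else 0) = ∑ r ∈ range M, η r * ex ((r : ℝ) / M * t) := by
  obtain ⟨x, l, hl, hx⟩ : ∃ (x : ℤ) (l : ℕ), l ≤ M ∧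
      ∀ y : ℤ, y ∈ Ioc x (x + l) ↔ y ∈ Ioc u v ∧ 0 < y ∧ y ≤ M := by
    refine ⟨max u 0, (min v M - max u 0).toNat, by omega, fun y => ?_⟩
    simp only [mem_Ioc]
    omega
  have hM' : (0 : ℝ) < M := by exact_mod_cast hM
  have hM2 : (M : ℂ) ≠ 0 := by exact_mod_cast hM.ne'
  refine ⟨fun r => (∑ y ∈ Ioc x (x + l), ex (-((r : ℝ) / M) * y)) / M, ?_, ?_⟩
  · have h1 : ∀ r ∈ range M, ‖(∑ y ∈ Ioc x (x + l), ex (-((r : ℝ) / M) * y)) / (M : ℂ)‖ ≤
        (if r = 0 then 1 else 0) + ((r : ℝ)⁻¹ / 2 + (((M - 1 - r : ℕ) : ℝ) + 1)⁻¹ / 2) := by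
      intro r hr
      rw [norm_div, Complex.norm_natCast]
      split_ifs with h0
      · have h2 := norm_sum_le (Ioc x (x + l)) fun y : ℤ => ex (-((r : ℝ) / M) * y)
        simp only [norm_ex, sum_const, Int.card_Ioc, add_sub_cancel_left, Int.toNat_natCast,
          nsmul_eq_mul, mul_one] at h2
        have h3 : (l : ℝ) ≤ M := by exact_mod_cast hl
        have h4 := (div_le_one hM').2 (h2.trans h3)
        exact h4.trans (le_add_of_nonneg_right (by positivity))
      · rw [zero_add]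
        exact pl_coef (by omega) (mem_range.1 hr) x l
    refine (sum_le_sum h1).trans ?_
    rw [sum_add_distrib, sum_add_distrib, ← sum_div, ← sum_div,
      sum_range_reflect (fun j : ℕ => ((j : ℝ) + 1)⁻¹) M, sum_ite_eq', if_pos (mem_range.2 hM)]
    have h2 := pl_harm M
    have h3 : ∑ r ∈ range M, (r : ℝ)⁻¹ ≤ ∑ r ∈ range M, ((r : ℝ) + 1)⁻¹ := by
      have h4 := sum_range_succ' (fun r : ℕ => (r : ℝ)⁻¹) M
      rw [sum_range_succ] at h4
      push_cast at h4
      have h5 : (0 : ℝ) ≤ (M : ℝ)⁻¹ := by positivity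
      rw [inv_zero] at h4
      linarith
    linarith
  · intro t ht htM
    have h1 : ∀ r : ℕ, (∑ y ∈ Ioc x (x + l), ex (-((r : ℝ) / M) * y)) / (M : ℂ) *
        ex ((r : ℝ) / M * t) =
        (∑ y ∈ Ioc x (x + l), ex ((r : ℝ) / M * ((t - y : ℤ) : ℝ))) / (M : ℂ) := by
      intro r
      rw [div_mul_eq_mul_div, sum_mul]
      congr 1
      refine sum_congr rfl fun y _ => ?_
      rw [← ex_add]
      congr 1
      push_cast
      ring
    simp only [h1]
    rw [← sum_div, sum_comm]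
    simp only [pl_orth hM]
    have h2 : ∀ y ∈ Ioc x (x + l), (if (M : ℤ) ∣ t - y then (M : ℂ) else 0) =
        if t = y then (M : ℂ) else 0 := by
      intro y hy
      have h3 := ((hx y).1 hy).2
      simp only [pl_dvd_iff (D := M) (a := t) (b := y) (by rw [abs_lt]; constructor <;> omega)]
    rw [sum_congr rfl h2, sum_ite_eq]
    simp only [hx t, ht, htM, and_true]
    split_ifs
    · rw [div_self hM2]
    · rw [zero_div]

end Pool.Agent.Lib.MP_788af2_nt.R0
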