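import Pool.Agent.Lib.MP_788af2_nt.R0.Disp2
import Pool.Agent.Lib.MP_788af2_nt.R0.LS

namespace Pool.Agent.Lib.MP_788af2_nt.R0

open Finset Filter
open scoped NumberTheorySymbols

/-! Dispersion over the two large primes. -/

lemma phi1_card {ι : Type} [DecidableEq ι] (S : Finset ι) (a b : ι → ℕ) {A B Λ : ℕ}
    (hab : ∀ n ∈ S, A < a n ∧ a n ≤ 2 * A ∧ B < b n ∧ b n ≤ 2 * B ∧ (a n).Coprime (b n))
    (hΛ : ∀ x y, (S.filter fun n => a n = x ∧ b n = y).card ≤ Λ) : S.card ≤ Λ * A * B := by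
  have h := card_le_mul_card_image_of_maps_to (f := fun n => (a n, b n)) (s := S)
    (t := Ioc A (2 * A) ×ˢ Ioc B (2 * B)) (fun n hn => by
      obtain ⟨h1, h2, h3, h4, -⟩ := hab n hn
      simp only [mem_product, mem_Ioc]
      exact ⟨⟨h1, h2⟩, h3, h4⟩) Λ (fun p _ => by
      refine le_trans (le_of_eq ?_) (hΛ p.1 p.2)
      congr 1
      refine filter_congr fun n _ => ?_
      exact Prod.ext_iff)
  rw [card_product, Nat.card_Ioc, Nat.card_Ioc] at h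
  have e1 : 2 * A - A = A := by omega
  have e2 : 2 * B - B = B := by omega
  rw [e1, e2, ← mul_assoc] at h
  exact h

lemma phi1_fibre {ι : Type} [DecidableEq ι] (S : Finset ι) (a b : ι → ℕ) {A B Λ : ℕ}
    (hab : ∀ n ∈ S, A < a n ∧ a n ≤ 2 * A ∧ B < b n ∧ b n ≤ 2 * B ∧ (a n).Coprime (b n))
    (hΛ : ∀ x y, (S.filter fun n => a n = x ∧ b n = y).card ≤ Λ) {n : ι} (hn : n ∈ S) (d : ℤ) :
    (S.filter fun n' => (a n : ℤ) * -(b n' : ℤ) - (a n' : ℤ) * -(b n : ℤ) = d).card ≤ Λ := by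
  rcases (S.filter fun n' =>
      (a n : ℤ) * -(b n' : ℤ) - (a n' : ℤ) * -(b n : ℤ) = d).eq_empty_or_nonempty with h | ⟨m, hm⟩
  · rw [h]; simp
  refine le_trans (card_le_card ?_) (hΛ (a m) (b m))
  intro n' hn'
  rw [mem_filter] at hm hn' ⊢
  refine ⟨hn'.1, ?_⟩
  obtain ⟨-, -, h3, -, hc⟩ := hab n hn
  obtain ⟨-, -, p3, p4, -⟩ := hab m hm.1
  obtain ⟨-, -, q3, q4, -⟩ := hab n' hn'.1
  have e : (a n : ℤ) * ((b n' : ℤ) - b m) = ((a n' : ℤ) - a m) * b n := by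
    linear_combination hm.2 - hn'.2
  have hcop : IsCoprime (b n : ℤ) (a n : ℤ) := Nat.isCoprime_iff_coprime.2 hc.symm
  have hd : (b n : ℤ) ∣ (b n' : ℤ) - b m :=
    hcop.dvd_of_dvd_mul_left (e ▸ dvd_mul_left _ _)
  have h0 : (b n' : ℤ) - b m = 0 := by
    refine Int.eq_zero_of_abs_lt_dvd hd ?_
    rw [abs_lt]
    constructor <;> omega
  rw [h0, mul_zero] at e
  have h1 : (a n' : ℤ) - a m = 0 := by
    rcases mul_eq_zero.1 e.symm with h | h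
    · exact h
    · omega
  constructor <;> omega

lemma phi1_count {ι : Type} [DecidableEq ι] (S : Finset ι) (f : ι → ℤ) {Λ : ℕ}
    (h : ∀ d, (S.filter fun n => f n = d).card ≤ Λ) (p : ι → Prop) [DecidablePred p]
    (t : Finset ℤ) (ht : ∀ n ∈ S, p n → f n ∈ t) : (S.filter p).card ≤ Λ * t.card := by
  refine card_le_mul_card_image_of_maps_to (f := f) (fun n hn => ?_) Λ fun d _ => ?_
  · rw [mem_filter] at hn
    exact ht n hn.1 hn.2
  · refine le_trans (card_le_card ?_) (h d)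
    intro n hn
    simp only [mem_filter] at hn ⊢
    exact ⟨hn.1.1, hn.2⟩

lemma phi1_delta {A B x y x' y' : ℕ} (h1 : A < x) (h2 : x ≤ 2 * A) (h3 : B < y) (h4 : y ≤ 2 * B)
    (p1 : A < x') (p2 : x' ≤ 2 * A) (p3 : B < y') (p4 : y' ≤ 2 * B) :
    ((x : ℤ) * -(y' : ℤ) - (x' : ℤ) * -(y : ℤ)).natAbs ≤ 3 * A * B := by
  have a1 : A * B ≤ x * y' := Nat.mul_le_mul h1.le p3.le
  have a2 : x * y' ≤ (2 * A) * (2 * B) := Nat.mul_le_mul h2 p4
  have a3 : A * B ≤ x' * y := Nat.mul_le_mul p1.le h3.le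
  have a4 : x' * y ≤ (2 * A) * (2 * B) := Nat.mul_le_mul p2 h4
  have e : (x : ℤ) * -(y' : ℤ) - (x' : ℤ) * -(y : ℤ) = ((x' * y : ℕ) : ℤ) - ((x * y' : ℕ) : ℤ) := by
    push_cast; ring
  have e1 : (2 * A) * (2 * B) = 4 * (A * B) := by ring
  have e2 : 3 * A * B = 3 * (A * B) := by ring
  rw [e, e2]
  rw [e1] at a2 a4
  omega

/-- The nonzero multiples of `q` up to `M` in absolute value. -/
lemma phi1_mult {q : ℕ} (hq : 0 < q) (M : ℕ) : ∃ t : Finset ℤ, t.card * q ≤ 2 * M ∧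
    ∀ d : ℤ, d.natAbs ≤ M → q ∈ d.natAbs.divisors → d ∈ t := by
  refine ⟨(Ioc 0 (M / q)).image (fun k : ℕ => ((q * k : ℕ) : ℤ)) ∪
    (Ioc 0 (M / q)).image (fun k : ℕ => -((q * k : ℕ) : ℤ)), ?_, ?_⟩
  · have h1 := card_union_le ((Ioc 0 (M / q)).image (fun k : ℕ => ((q * k : ℕ) : ℤ)))
      ((Ioc 0 (M / q)).image (fun k : ℕ => -((q * k : ℕ) : ℤ)))
    have h2 := card_image_le (s := Ioc 0 (M / q)) (f := fun k : ℕ => ((q * k : ℕ) : ℤ))
    have h3 := card_image_le (s := Ioc 0 (M / q)) (f := fun k : ℕ => -((q * k : ℕ) : ℤ))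
    rw [Nat.card_Ioc, Nat.sub_zero] at h2 h3
    have h4 := Nat.div_mul_le_self M q
    calc _ ≤ (M / q + M / q) * q := Nat.mul_le_mul_right _ (by omega)
      _ = 2 * (M / q * q) := by ring
      _ ≤ 2 * M := by omega
  · intro d hd hqd
    rw [Nat.mem_divisors] at hqd
    obtain ⟨⟨k, hk⟩, h0⟩ := hqd
    have hk0 : 0 < k := by
      rcases Nat.eq_zero_or_pos k with h | h
      · rw [h, mul_zero] at hk; exact absurd hk h0
      · exact h
    have hkM : k ≤ M / q := by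
      rw [Nat.le_div_iff_mul_le hq, mul_comm, ← hk]
      exact hd
    rw [mem_union, mem_image, mem_image]
    rcases Int.natAbs_eq d with h | h
    · exact Or.inl ⟨k, mem_Ioc.2 ⟨hk0, hkM⟩, by rw [h, hk]⟩
    · exact Or.inr ⟨k, mem_Ioc.2 ⟨hk0, hkM⟩, by rw [h, hk]⟩

lemma phi1_N2 (l N : ℕ) (H : ℤ → ℂ) :
    ∑ i ∈ range N, N2 (Iv l i) H = N2 (Ioc 0 ((N : ℤ) * l)) H := by
  induction N with
  | zero => simp [N2]
  | succ N ih =>
    rw [sum_range_succ, ih]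
    unfold N2 Iv
    have h1 : (0 : ℤ) ≤ (N : ℤ) * l := by positivity
    have h2 : (N : ℤ) * l ≤ ((N : ℤ) + 1) * l := by nlinarith [Int.natCast_nonneg l]
    rw [← sum_union (Ioc_disjoint_Ioc_of_le le_rfl), Ioc_union_Ioc_eq_Ioc h1 h2]
    push_cast
    rfl

/-- The sum over the divisors of the determinants, for one interval. -/
lemma phi1_div {ι : Type} [DecidableEq ι] (S : Finset ι) (f : ι → ℤ) {Λ M Z1 : ℕ} (hZ : 1 ≤ Z1)
    (h : ∀ d, (S.filter fun n => f n = d).card ≤ Λ) (hM : ∀ n ∈ S, (f n).natAbs ≤ M)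
    (l i : ℕ) (H : ℤ → ℂ) :
    ∑ n ∈ S, ∑ q ∈ (f n).natAbs.divisors, Mq (Iv l i) H q ≤
      2 * Λ * M * ∑ q ∈ Icc 1 Z1, Mq (Iv l i) H q +
        100 * (Nat.log 2 M + 1) * (2 * Λ * M / Z1 * l + 4 * (2 * Λ * M) * M) *
          N2 (Iv l i) H := by
  set w : ℕ → ℝ := fun q => ((S.filter fun n => q ∈ (f n).natAbs.divisors).card : ℝ) with hw
  have hw0 : ∀ q, 0 ≤ w q := fun q => by positivity
  have hwq : ∀ q : ℕ, 0 < q → w q * q ≤ 2 * Λ * M := by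
    intro q hq
    obtain ⟨t, ht1, ht2⟩ := phi1_mult hq M
    have h1 := phi1_count S f h (fun n => q ∈ (f n).natAbs.divisors) t
      fun n hn hp => ht2 _ (hM n hn) hp
    have h2 : (S.filter fun n => q ∈ (f n).natAbs.divisors).card * q ≤ 2 * Λ * M := by
      calc _ ≤ Λ * t.card * q := Nat.mul_le_mul_right _ h1
        _ = Λ * (t.card * q) := by ring
        _ ≤ Λ * (2 * M) := Nat.mul_le_mul_left _ ht1
        _ = 2 * Λ * M := by ring
    simp only [hw]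
    exact_mod_cast h2
  have e1 : ∑ n ∈ S, ∑ q ∈ (f n).natAbs.divisors, Mq (Iv l i) H q =
      ∑ q ∈ Icc 1 M, w q * Mq (Iv l i) H q := by
    have e : ∀ n ∈ S, ∑ q ∈ (f n).natAbs.divisors, Mq (Iv l i) H q =
        ∑ q ∈ Icc 1 M, if q ∈ (f n).natAbs.divisors then Mq (Iv l i) H q else 0 := by
      intro n hn
      rw [← sum_filter]
      refine sum_congr ?_ fun _ _ => rfl
      ext q
      simp only [mem_filter, mem_Icc, iff_and_self]
      intro hq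
      exact ⟨Nat.pos_of_mem_divisors hq, (Nat.divisor_le hq).trans (hM n hn)⟩
    rw [sum_congr rfl e, sum_comm]
    refine sum_congr rfl fun q _ => ?_
    rw [← sum_filter, sum_const, nsmul_eq_mul]
  have hnn : ∀ q, 0 ≤ w q * Mq (Iv l i) H q := fun q => mul_nonneg (hw0 q) (Mq_nonneg _ _ _)
  have e2 : ∑ q ∈ Icc 1 M, w q * Mq (Iv l i) H q ≤
      ∑ q ∈ Icc 1 Z1, w q * Mq (Iv l i) H q + ∑ q ∈ Ioc Z1 M, w q * Mq (Iv l i) H q := by
    rw [← sum_union]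
    · refine sum_le_sum_of_subset_of_nonneg (fun q hq => ?_) fun q _ _ => hnn q
      simp only [mem_union, mem_Icc, mem_Ioc] at hq ⊢
      omega
    · rw [disjoint_left]
      intro q h1 h2
      simp only [mem_Icc, mem_Ioc] at h1 h2
      omega
  have e3 : ∑ q ∈ Icc 1 Z1, w q * Mq (Iv l i) H q ≤
      2 * Λ * M * ∑ q ∈ Icc 1 Z1, Mq (Iv l i) H q := by
    rw [mul_sum]
    refine sum_le_sum fun q hq => mul_le_mul_of_nonneg_right ?_ (Mq_nonneg _ _ _)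
    have h1 : 1 ≤ q := (mem_Icc.1 hq).1
    have h2 : (1 : ℝ) ≤ q := by exact_mod_cast h1
    have h3 := hwq q h1
    nlinarith [hw0 q]
  have hZ' : (0 : ℝ) < Z1 := by exact_mod_cast hZ
  have e4 := sieve_weighted ((i : ℤ) * l) l H w (Z1 := Z1) (Qm := M) hZ
    (ν1 := 2 * Λ * M / Z1) (ν2 := 2 * Λ * M) (by positivity) (by positivity) (fun q hq => by
      have h1 := (mem_Ioc.1 hq).1
      have h2 : (Z1 : ℝ) ≤ q := by exact_mod_cast h1.le
      have h3 := hwq q (by omega)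
      refine ⟨?_, h3⟩
      rw [le_div_iff₀ hZ']
      nlinarith [hw0 q])
  have e5 : Ioc ((i : ℤ) * l) ((i : ℤ) * l + l) = Iv l i := by
    unfold Iv
    congr 1
    ring
  rw [e5] at e4
  rw [e1]
  linarith

theorem phi_gen {ι : Type} [DecidableEq ι] (S : Finset ι) (a b : ι → ℕ) (H : ι → ℤ → ℂ)
    {A B V K l N Λ Z1 : ℕ} {h2 Sm : ℝ} (hA : 0 < A) (hB : 0 < B) (hAV : A ≤ V) (hK : 2 ≤ K)
    (hl : 0 < l) (hZ : 1 ≤ Z1) (hh2 : 0 ≤ h2)
    (hab : ∀ n ∈ S, A < a n ∧ a n ≤ 2 * A ∧ B < b n ∧ b n ≤ 2 * B ∧ (a n).Coprime (b n))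
    (hΛ : ∀ x y, (S.filter fun n => a n = x ∧ b n = y).card ≤ Λ)
    (hH : ∀ n ∈ S, ∀ y, H n y ≠ 0 → y ∈ Ioc (0 : ℤ) (N * l))
    (hN : ∀ n ∈ S, N2 (Ioc 0 (N * l)) (H n) ≤ h2)
    (hS : ∑ n ∈ S, ∑ i ∈ range N, ∑ q ∈ Icc 1 Z1, Mq (Iv l i) (H n) q ≤ Sm)
    (SP SQ : Finset ℕ) (hQ : ∀ Q ∈ SQ, Q ≤ V) (F : ℕ → ℕ → ℂ) (hF : ∀ P Q, ‖F P Q‖ ≤ 1) :
    ‖∑ P ∈ SP, ∑ Q ∈ SQ, F P Q * ∑ n ∈ S, H n ((a n : ℤ) * P - b n * Q)‖ ^ 2 ≤
      (SP.card * SQ.card : ℝ) * ((V : ℝ) / A) *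
        ((5 * Λ * (2 * A * (K : ℝ) ^ 2 * l / V + 3) + 28 * Λ * A * B / (K : ℝ) ^ 2) *
            (Λ * A * B * h2) +
          5 / l * (6 * Λ * A * B * Sm + 100 * (Nat.log 2 (3 * A * B) + 1) *
            (6 * Λ * A * B / Z1 * l + 72 * Λ * (A * B) ^ 2) * (Λ * A * B * h2))) := by
  have hV : 0 < V := lt_of_lt_of_le hA hAV
  set W : ℕ := A * K ^ 2 * l / V with hW
  set T : Finset (ℤ × ℤ) := (SP ×ˢ SQ).image fun p : ℕ × ℕ => ((p.1 : ℤ), (p.2 : ℤ)) with hT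
  have hinj : Set.InjOn (fun p : ℕ × ℕ => ((p.1 : ℤ), (p.2 : ℤ))) (SP ×ˢ SQ : Finset _) := by
    intro p _ p' _ e
    simp only [Prod.mk.injEq, Nat.cast_inj] at e
    exact Prod.ext e.1 e.2
  have hd := disp S (fun n => (a n : ℤ)) (fun n => -(b n : ℤ)) H (A := A) (V := V) (K := K)
    (l := l) (N := N) (n₁ := Λ * (2 * W + 1)) hA hAV hK hl
    (fun n hn => by
      obtain ⟨h1, h2, -⟩ := hab n hn
      rw [Nat.abs_cast]
      constructor <;> omega)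
    (fun n hn => (Nat.isCoprime_iff_coprime.2 (hab n hn).2.2.2.2).neg_right) hH
    (fun n hn => by
      have h := phi1_count S (fun n' => (a n : ℤ) * -(b n' : ℤ) - (a n' : ℤ) * -(b n : ℤ))
        (phi1_fibre S a b hab hΛ hn) (fun n' =>
          |(a n : ℤ) * -(b n' : ℤ) - (a n' : ℤ) * -(b n : ℤ)| * V < (A : ℤ) * K ^ 2 * l)
        (Icc (-(W : ℤ)) W) (fun n' _ hp => by
          rw [mem_Icc, ← abs_le]
          rw [Int.abs_eq_natAbs] at hp ⊢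
          have h3 : ((a n : ℤ) * -(b n' : ℤ) - (a n' : ℤ) * -(b n : ℤ)).natAbs * V ≤
              A * K ^ 2 * l := by exact_mod_cast hp.le
          exact_mod_cast (Nat.le_div_iff_mul_le hV).2 h3)
      have e : (Icc (-(W : ℤ)) W).card = 2 * W + 1 := by
        rw [Int.card_Icc]
        omega
      rwa [e] at h)
    T (fun x hx => by
      rw [hT, mem_image] at hx
      obtain ⟨p, hp, rfl⟩ := hx
      rw [Nat.abs_cast]
      exact_mod_cast hQ _ (mem_product.1 hp).2)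
    (fun x => F x.1.toNat x.2.toNat)
  have eL : ∑ x ∈ T, F x.1.toNat x.2.toNat * ∑ n ∈ S, H n ((a n : ℤ) * x.1 + -(b n : ℤ) * x.2) =
      ∑ P ∈ SP, ∑ Q ∈ SQ, F P Q * ∑ n ∈ S, H n ((a n : ℤ) * P - b n * Q) := by
    rw [hT, sum_image hinj, sum_product]
    refine sum_congr rfl fun P _ => sum_congr rfl fun Q _ => ?_
    simp only [Int.toNat_natCast, neg_mul, sub_eq_add_neg]
  rw [eL] at hd
  refine hd.trans ?_
  have hF2 : ∑ x ∈ T, ‖F x.1.toNat x.2.toNat‖ ^ 2 ≤ (SP.card * SQ.card : ℝ) := by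
    have h1 : ∑ x ∈ T, ‖F x.1.toNat x.2.toNat‖ ^ 2 ≤ T.card • (1 : ℝ) :=
      sum_le_card_nsmul _ _ _ fun x _ => pow_le_one₀ (norm_nonneg _) (hF _ _)
    have h2 : T.card ≤ SP.card * SQ.card := by
      rw [← card_product]
      exact card_image_le
    rw [nsmul_eq_mul, mul_one] at h1
    exact h1.trans (by exact_mod_cast h2)
  have hSc : (S.card : ℝ) ≤ Λ * A * B := by exact_mod_cast phi1_card S a b hab hΛ
  have hN2 : ∑ n ∈ S, N2 (Ioc 0 ((N : ℤ) * l)) (H n) ≤ Λ * A * B * h2 := by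
    have h1 := sum_le_card_nsmul _ _ _ hN
    rw [nsmul_eq_mul] at h1
    exact h1.trans (mul_le_mul_of_nonneg_right hSc hh2)
  have hN0 : 0 ≤ ∑ n ∈ S, N2 (Ioc 0 ((N : ℤ) * l)) (H n) := sum_nonneg fun _ _ => N2_nonneg _ _
  have hWr : (W : ℝ) ≤ A * (K : ℝ) ^ 2 * l / V := by
    have := Nat.cast_div_le (α := ℝ) (m := A * K ^ 2 * l) (n := V)
    push_cast at this
    exact this
  have c1 : (5 * ((Λ * (2 * W + 1) : ℕ) : ℝ) + 28 * S.card / (K : ℝ) ^ 2) ≤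
      5 * Λ * (2 * A * (K : ℝ) ^ 2 * l / V + 3) + 28 * Λ * A * B / (K : ℝ) ^ 2 := by
    push_cast
    have a1 : 28 * (S.card : ℝ) / (K : ℝ) ^ 2 ≤ 28 * Λ * A * B / (K : ℝ) ^ 2 :=
      div_le_div_of_nonneg_right (by linarith) (by positivity)
    have a2 : (2 * (W : ℝ) + 1) ≤ 2 * A * (K : ℝ) ^ 2 * l / V + 3 := by
      have : 2 * A * (K : ℝ) ^ 2 * l / V = 2 * (A * (K : ℝ) ^ 2 * l / V) := by ring
      linarith
    have a3 := mul_le_mul_of_nonneg_left a2 (show (0 : ℝ) ≤ 5 * Λ by positivity)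
    linarith
  set E : ℝ := 100 * (Nat.log 2 (3 * A * B) + 1) *
    (6 * Λ * A * B / Z1 * l + 72 * Λ * (A * B) ^ 2) with hE
  have hE0 : 0 ≤ E := by positivity
  have c2 : ∑ n ∈ S, ∑ n' ∈ S, ∑ i ∈ range N,
      ∑ q ∈ ((a n : ℤ) * -(b n' : ℤ) - (a n' : ℤ) * -(b n : ℤ)).natAbs.divisors,
        Mq (Iv l i) (H n) q ≤ 6 * Λ * A * B * Sm + E * (Λ * A * B * h2) := by
    have a1 : ∀ n ∈ S, ∑ n' ∈ S, ∑ i ∈ range N,
        ∑ q ∈ ((a n : ℤ) * -(b n' : ℤ) - (a n' : ℤ) * -(b n : ℤ)).natAbs.divisors,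
          Mq (Iv l i) (H n) q ≤
        6 * Λ * A * B * ∑ i ∈ range N, ∑ q ∈ Icc 1 Z1, Mq (Iv l i) (H n) q +
          E * N2 (Ioc 0 ((N : ℤ) * l)) (H n) := by
      intro n hn
      rw [sum_comm, ← phi1_N2, mul_sum, mul_sum, ← sum_add_distrib]
      refine sum_le_sum fun i _ => ?_
      have h := phi1_div S (fun n' => (a n : ℤ) * -(b n' : ℤ) - (a n' : ℤ) * -(b n : ℤ))
        (M := 3 * A * B) hZ (phi1_fibre S a b hab hΛ hn) (fun n' hn' => by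
          obtain ⟨h1, h2, h3, h4, -⟩ := hab n hn
          obtain ⟨p1, p2, p3, p4, -⟩ := hab n' hn'
          exact phi1_delta h1 h2 h3 h4 p1 p2 p3 p4) l i (H n)
      refine h.trans (le_of_eq ?_)
      rw [hE]
      push_cast
      ring
    refine (sum_le_sum a1).trans ?_
    rw [sum_add_distrib, ← mul_sum, ← mul_sum]
    exact add_le_add (mul_le_mul_of_nonneg_left hS (by positivity))
      (mul_le_mul_of_nonneg_left hN2 hE0)
  have c3 : 0 ≤ ∑ n ∈ S, ∑ n' ∈ S, ∑ i ∈ range N,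
      ∑ q ∈ ((a n : ℤ) * -(b n' : ℤ) - (a n' : ℤ) * -(b n : ℤ)).natAbs.divisors,
        Mq (Iv l i) (H n) q :=
    sum_nonneg fun _ _ => sum_nonneg fun _ _ => sum_nonneg fun _ _ => sum_nonneg fun _ _ =>
      Mq_nonneg _ _ _
  refine mul_le_mul (mul_le_mul_of_nonneg_right hF2 (by positivity)) ?_ (by positivity)
    (by positivity)
  exact add_le_add (mul_le_mul c1 hN2 hN0 (by positivity))
    (mul_le_mul_of_nonneg_left c2 (by positivity))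

end Pool.Agent.Lib.MP_788af2_nt.R0
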