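import Pool.Agent.Lib.MP_788af2_nt.R0.Lin2
import Pool.Agent.Lib.MP_788af2_nt.R0.Exp1
import Pool.Agent.Lib.MP_788af2_nt.R0.Exp2
import Pool.Agent.Lib.MP_788af2_nt.R0.Desc3

namespace Pool.Agent.Lib.MP_788af2_nt.R0

open Finset Filter
open scoped NumberTheorySymbols

/-! The pointwise inequality. -/

lemma point_Jp {a n : ℕ} (h : a.Coprime n) (e : ZMod 2) :
    Jp (e + 1) a n = Jp (e + 0) a n * (J((a : ℤ) | n) : ℝ) := by
  have h01 : ∀ e : ZMod 2, e = 0 ∨ e = 1 := by decide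
  have h2 : (1 : ZMod 2) + 1 = 0 := by decide
  rcases h01 e with rfl | rfl
  · simp [Jp]
  · have h3 : J((a : ℤ) | n) = 1 ∨ J((a : ℤ) | n) = -1 :=
      jacobiSym.eq_one_or_neg_one (by simpa using h)
    rw [h2]
    rcases h3 with h3 | h3 <;> simp [Jp, h3]

lemma point_jac_prod {ι : Type} (s : Finset ι) (f : ι → ℕ) (hf : ∀ i ∈ s, f i ≠ 0) (a : ℤ) :
    J(a | ∏ i ∈ s, f i) = ∏ i ∈ s, J(a | f i) := by
  classical
  induction s using Finset.induction_on with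
  | empty => simp
  | insert i s hi ih =>
    rw [prod_insert hi, prod_insert hi, jacobiSym.mul_right' _ (hf i (by simp))
      (prod_ne_zero_iff.2 fun j hj => hf j (by simp [hj])), ih fun j hj => hf j (by simp [hj])]

lemma point_lk {a c : ℕ} (h : a.Coprime c) (hc : c ≠ 0) (A B : U → ℕ) {C : U → ℕ}
    (hC : C ∈ tup U c) :
    ∏ u, lk 1 u A B a (C u) = (∏ u, lk 0 u A B a (C u)) * (J((a : ℤ) | c) : ℝ) := by
  have h1 := prod_of_mem_tup hC
  have h2 : ∀ u, C u ∣ c := fun u => h1 ▸ dvd_prod_of_mem _ (mem_univ u)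
  rw [← h1, point_jac_prod _ _ fun u _ => ne_zero_of_dvd_ne_zero hc (h2 u), Int.cast_prod,
    ← prod_mul_distrib]
  refine prod_congr rfl fun u _ => ?_
  rw [lk, lk, point_Jp (h.coprime_dvd_right (h2 u))]
  ring

theorem E0_eq {a1 b1 P Q c : ℕ} (h : Adm a1 b1 P Q c) (Z : ℕ) :
    (1 + sig a1 b1 c (a1 * P)) * E0 (mat a1 b1 c (a1 * P)) (vecD a1 b1 c 0 c) (Sm a1 b1 c Z) /
        2 ^ (om a1 + om b1 + om c + 1) =
      Et 0 Z a1 b1 c (a1 * P) + Et 1 Z a1 b1 c (a1 * P) := by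
  have hf := h.facts
  have hc : c ≠ 0 := by have := h.hc; omega
  set S : ℝ := ∑ e : ZMod 2, ∑ f : ZMod 2, ∑ A ∈ tup U a1, ∑ B ∈ tup U b1, ∑ C ∈ tup U c,
      if EEs (prof Z A) (prof Z B) (prof Z C) then
        sgA e f A * sgB e f B * kab A B * ∏ u, lk 0 u A B (a1 * P) (C u) else 0 with hS
  have h1 : E0 (mat a1 b1 c (a1 * P)) (vecD a1 b1 c 0 c) (Sm a1 b1 c Z) = S := by
    rw [E0, sum_types h]
    refine sum_congr rfl fun e _ => sum_congr rfl fun f _ => sum_congr rfl fun A hA =>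
      sum_congr rfl fun B hB => sum_congr rfl fun C hC => ?_
    rw [sgn_eval h e f hA hB hC]
    exact if_congr (EE_iff h Z e f hA hB hC) rfl rfl
  have h2 : Et 1 Z a1 b1 c (a1 * P) =
      (-1 / 2) ^ (om a1 + om b1 + om c + 1) * (S * (J(((a1 * P : ℕ) : ℤ) | c) : ℝ)) := by
    have hs : sgn 1 = -1 := by simp [sgn]
    rw [Et, hS, hs]
    refine congrArg (fun x => _ * x) ?_
    simp only [sum_mul]
    refine sum_congr rfl fun e _ => sum_congr rfl fun f _ => sum_congr rfl fun A _ =>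
      sum_congr rfl fun B _ => sum_congr rfl fun C hC => ?_
    rw [point_lk hf.2.2.2.2.2.2.2.2.2.1 hc A B hC]
    split_ifs <;> ring
  have h3 : Et 0 Z a1 b1 c (a1 * P) = (1 / 2) ^ (om a1 + om b1 + om c + 1) * S := by
    have hs : sgn 0 = 1 := by simp [sgn]
    rw [Et, hS, hs]
  rw [h1, h2, h3, sig, div_pow, div_pow, one_pow]
  ring

open Classical in
theorem point_ineq {a1 b1 P Q c : ℕ} (h : Adm a1 b1 P Q c) (Z : ℕ) :
    1 + sig a1 b1 c (a1 * P) - 6 * ((NS Z a1 b1 c (a1 * P) : ℝ) - 1) -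
        24 * 4 ^ (omZ Z a1 + omZ Z b1 + omZ Z c) / 2 ^ (om a1 + om b1 + om c + 1) -
        Et 0 Z a1 b1 c (a1 * P) - Et 1 Z a1 b1 c (a1 * P) ≤
      if Module.rank ℤ (cvE ![0, ((a1 * P : ℕ) : ℤ), ((b1 * Q : ℕ) : ℤ)]).Point = 0 then 6
      else 0 := by
  have h0 : (0 : Ix a1 b1 c → ZMod 2) ∈ Sm a1 b1 c Z := by simp [Sm]
  have h1 := lin_ineq (mat a1 b1 c (a1 * P)) (h.symm _) (vecD a1 b1 c 0 c) (h.char_vec _)
    (Sm a1 b1 c Z) h0 _ h.sig_eq
  rw [h.card_Ix, E0_eq h Z, h.card_Sm] at h1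
  have h2 : (6 : ℝ) * ((2 ^ (omZ Z a1 + omZ Z b1 + omZ Z c + 1) : ℕ) : ℝ) ^ 2 =
      24 * 4 ^ (omZ Z a1 + omZ Z b1 + omZ Z c) := by
    push_cast
    rw [← pow_mul, mul_comm _ 2, pow_mul]
    ring
  rw [h2] at h1
  refine le_trans (le_of_eq ?_) (h1.trans ?_)
  · rw [NS]; ring
  · split_ifs with h3 h4
    · exact le_rfl
    · exact absurd (rank_zero h h3) h4
    · norm_num
    · exact le_rfl

end Pool.Agent.Lib.MP_788af2_nt.R0
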