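import Pool.Agent.Lib.MP_788af2_nt.R0.LS

namespace Pool.Agent.Lib.MP_788af2_nt.R0

open Finset Filter
open scoped NumberTheorySymbols

/-! Removing the major arcs. -/

lemma proj_dual (I : Finset ℤ) (l Q : ℕ) (H : ℤ → ℂ) :
    N2 I (flat I l Q H) ≤ ∑ q ∈ Icc 1 Q, ∑ h ∈ range q with h.Coprime q,
      ‖FT I H ((h : ℝ) / q)‖ / l * ‖FT I (flat I l Q H) ((h : ℝ) / q)‖ := by
  have h1 : ((N2 I (flat I l Q H) : ℝ) : ℂ) = ∑ q ∈ Icc 1 Q, ∑ h ∈ range q with h.Coprime q,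
      FT I H ((h : ℝ) / q) / l * (starRingEnd ℂ) (FT I (flat I l Q H) ((h : ℝ) / q)) := by
    have e1 : ((N2 I (flat I l Q H) : ℝ) : ℂ) =
        ∑ y ∈ I, flat I l Q H y * (starRingEnd ℂ) (flat I l Q H y) := by
      simp only [N2, Complex.mul_conj, Complex.normSq_eq_norm_sq]
      push_cast
      rfl
    have e2 : ∀ y ∈ I, flat I l Q H y * (starRingEnd ℂ) (flat I l Q H y) =
        ∑ q ∈ Icc 1 Q, ∑ h ∈ range q with h.Coprime q, FT I H ((h : ℝ) / q) / l *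
          (starRingEnd ℂ) (flat I l Q H y * ex ((h : ℝ) / q * y)) := by
      intro y _
      conv_lhs => rw [flat]
      rw [sum_mul]
      refine sum_congr rfl fun q _ => ?_
      rw [sum_mul]
      refine sum_congr rfl fun h _ => ?_
      rw [map_mul, conj_ex, flat]
      ring
    rw [e1, sum_congr rfl e2, sum_comm]
    refine sum_congr rfl fun q _ => ?_
    rw [sum_comm]
    refine sum_congr rfl fun h _ => ?_
    rw [← mul_sum, ← map_sum]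
    rfl
  have h2 : N2 I (flat I l Q H) ≤ ‖((N2 I (flat I l Q H) : ℝ) : ℂ)‖ := by
    rw [Complex.norm_real]; exact le_abs_self _
  rw [h1] at h2
  refine h2.trans ((norm_sum_le _ _).trans (sum_le_sum fun q _ =>
    (norm_sum_le _ _).trans (sum_le_sum fun h _ => le_of_eq ?_)))
  rw [norm_mul, norm_div, Complex.norm_conj, Complex.norm_natCast]

theorem proj_norm (x : ℤ) {l Q : ℕ} (hQ : 1 ≤ Q) (hl : Q ^ 4 ≤ l) (H : ℤ → ℂ) :
    N2 (Ioc x (x + l)) (fun y => H y - flat (Ioc x (x + l)) l Q H y) ≤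
      100000 * N2 (Ioc x (x + l)) H := by
  set I := Ioc x (x + l) with hI
  have hQl : Q ^ 2 ≤ l := (Nat.pow_le_pow_right hQ (by norm_num)).trans hl
  have hQl' : (Q : ℝ) ^ 2 ≤ l := by exact_mod_cast hQl
  have hl0 : (0 : ℝ) < l := by
    have : 0 < l := lt_of_lt_of_le (by positivity) hl
    exact_mod_cast this
  have n0 : ∀ G : ℤ → ℂ, 0 ≤ N2 I G := fun G => sum_nonneg fun _ _ => by positivity
  have ls : ∀ G : ℤ → ℂ, ∑ q ∈ Icc 1 Q, Mq I G q ≤ 200 * l * N2 I G := fun G =>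
    (large_sieve x l Q G).trans (mul_le_mul_of_nonneg_right (by linarith) (n0 G))
  have h1 : N2 I (flat I l Q H) ≤ 100 / l * ∑ q ∈ Icc 1 Q, Mq I H q +
      1 / (400 * l) * ∑ q ∈ Icc 1 Q, Mq I (flat I l Q H) q := by
    refine (proj_dual I l Q H).trans ?_
    rw [mul_sum, mul_sum, ← sum_add_distrib]
    refine sum_le_sum fun q _ => ?_
    rw [Mq, Mq, mul_sum, mul_sum, ← sum_add_distrib]
    refine sum_le_sum fun h _ => ?_
    generalize ‖FT I H ((h : ℝ) / q)‖ = a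
    generalize ‖FT I (flat I l Q H) ((h : ℝ) / q)‖ = b
    have e : 100 / (l : ℝ) * a ^ 2 + 1 / (400 * l) * b ^ 2 - a / l * b = (10 * a - b / 20) ^ 2 / l := by
      field_simp
      ring
    have : 0 ≤ (10 * a - b / 20) ^ 2 / (l : ℝ) := by positivity
    linarith
  have h2 : 100 / (l : ℝ) * ∑ q ∈ Icc 1 Q, Mq I H q ≤ 20000 * N2 I H := by
    refine (mul_le_mul_of_nonneg_left (ls H) (by positivity)).trans (le_of_eq ?_)
    field_simp
    ring
  have h3 : 1 / (400 * (l : ℝ)) * ∑ q ∈ Icc 1 Q, Mq I (flat I l Q H) q ≤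
      1 / 2 * N2 I (flat I l Q H) := by
    refine (mul_le_mul_of_nonneg_left (ls _) (by positivity)).trans (le_of_eq ?_)
    field_simp
    ring
  have h4 : N2 I (fun y => H y - flat I l Q H y) ≤ 2 * N2 I H + 2 * N2 I (flat I l Q H) := by
    simp only [N2]
    rw [mul_sum, mul_sum, ← sum_add_distrib]
    refine sum_le_sum fun y _ => ?_
    have k := norm_sub_le (H y) (flat I l Q H y)
    have k' := pow_le_pow_left₀ (norm_nonneg _) k 2
    nlinarith [sq_nonneg (‖H y‖ - ‖flat I l Q H y‖)]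
  linarith [n0 H]

/-- The reduced fractions with denominator at most `Q`. -/
def projS (Q : ℕ) : Finset (Σ _ : ℕ, ℕ) :=
  (Icc 1 Q).sigma fun q => (range q).filter fun h => h.Coprime q

lemma proj_card (Q : ℕ) : (projS Q).card ≤ Q ^ 2 := by
  rw [projS, card_sigma]
  calc ∑ q ∈ Icc 1 Q, ((range q).filter fun h => h.Coprime q).card ≤ ∑ _q ∈ Icc 1 Q, Q :=
        sum_le_sum fun q hq => (card_filter_le _ _).trans (by simpa using (mem_Icc.1 hq).2)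
    _ = Q ^ 2 := by simp [sq]

lemma proj_point (x : ℤ) {l Q : ℕ} (hl : 0 < l) (H : ℤ → ℂ) {h : ℝ} (h0 : 0 ≤ h)
    (hH : ∀ y ∈ Ioc x (x + l), ‖H y‖ ≤ h) {s : Σ _ : ℕ, ℕ} (hs : s ∈ projS Q) :
    ‖FT (Ioc x (x + l)) (fun y => H y - flat (Ioc x (x + l)) l Q H y) ((s.2 : ℝ) / s.1)‖ ≤
      (Q : ℝ) ^ 4 * h := by
  classical
  set I := Ioc x (x + l) with hI
  have hl0 : (0 : ℝ) < l := by exact_mod_cast hl
  have hcard : I.card = l := by simp [hI]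
  have hf : ∀ y : ℤ, flat I l Q H y =
      ∑ t ∈ projS Q, FT I H ((t.2 : ℝ) / t.1) / l * ex (-((t.2 : ℝ) / t.1 * y)) := fun y => by
    rw [flat, projS, sum_sigma]
  have e1 : FT I (fun y => H y - flat I l Q H y) ((s.2 : ℝ) / s.1) = FT I H ((s.2 : ℝ) / s.1) -
      ∑ t ∈ projS Q, FT I H ((t.2 : ℝ) / t.1) / l *
        ∑ y ∈ I, ex (((s.2 : ℝ) / s.1 - (t.2 : ℝ) / t.1) * y) := by
    conv_lhs => rw [FT]
    simp only [sub_mul, sum_sub_distrib, hf, sum_mul, mul_sum]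
    rw [sum_comm]
    congr 1
    refine sum_congr rfl fun t _ => sum_congr rfl fun y _ => ?_
    rw [mul_assoc, ← ex_add, neg_add_eq_sub]
  rw [e1, ← add_sum_erase _ _ hs]
  simp only [sub_self, zero_mul, ex_zero, sum_const, hcard, nsmul_eq_mul, mul_one]
  rw [div_mul_cancel₀ _ (by exact_mod_cast hl.ne'), sub_add_cancel_left, norm_neg]
  have hQ : 1 ≤ Q := by
    have := mem_Icc.1 (mem_sigma.1 hs).1
    omega
  have hQ0 : (0 : ℝ) < Q := by exact_mod_cast hQ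
  have e2 : ∀ t ∈ (projS Q).erase s, ‖FT I H ((t.2 : ℝ) / t.1) / l *
      ∑ y ∈ I, ex (((s.2 : ℝ) / s.1 - (t.2 : ℝ) / t.1) * y)‖ ≤ h * (Q : ℝ) ^ 2 := by
    intro t ht
    obtain ⟨hne, ht⟩ := mem_erase.1 ht
    obtain ⟨s1, s2⟩ := mem_sigma.1 hs
    obtain ⟨t1, t2⟩ := mem_sigma.1 ht
    simp only [mem_filter, mem_range] at s2 t2
    have k1 := geo_sum_le x l (θ := (s.2 : ℝ) / s.1 - (t.2 : ℝ) / t.1) (δ := 1 / (Q : ℝ) ^ 2)
      (by positivity) (farey_spaced s1 t1 s2.1 t2.1 s2.2 t2.2 fun e => hne (by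
        obtain ⟨a, b⟩ := Prod.mk.inj e
        exact Sigma.ext a.symm (heq_of_eq b.symm)))
    have k2 : ‖FT I H ((t.2 : ℝ) / t.1)‖ ≤ l * h := by
      refine (norm_sum_le _ _).trans ((sum_le_card_nsmul _ _ h fun y hy => ?_).trans ?_)
      · rw [norm_mul, norm_ex, mul_one]; exact hH y hy
      · rw [hcard, nsmul_eq_mul]
    rw [norm_mul, norm_div, Complex.norm_natCast]
    refine mul_le_mul (by rwa [div_le_iff₀' hl0]) (k1.trans ?_) (norm_nonneg _) h0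
    have : 1 / (2 * (1 / (Q : ℝ) ^ 2)) = (Q : ℝ) ^ 2 / 2 := by field_simp
    rw [this]
    linarith [sq_nonneg (Q : ℝ)]
  refine (norm_sum_le _ _).trans ((sum_le_card_nsmul _ _ _ e2).trans ?_)
  have k3 : (((projS Q).erase s).card : ℝ) ≤ (Q : ℝ) ^ 2 := by
    exact_mod_cast (card_erase_le.trans (proj_card Q))
  rw [nsmul_eq_mul]
  calc (((projS Q).erase s).card : ℝ) * (h * (Q : ℝ) ^ 2) ≤ (Q : ℝ) ^ 2 * (h * (Q : ℝ) ^ 2) := by
        gcongr
    _ = (Q : ℝ) ^ 4 * h := by ring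

theorem proj_small (x : ℤ) {l Q : ℕ} (hl : 0 < l) (H : ℤ → ℂ) {h : ℝ}
    (hH : ∀ y ∈ Ioc x (x + l), ‖H y‖ ≤ h) :
    ∑ q ∈ Icc 1 Q, Mq (Ioc x (x + l)) (fun y => H y - flat (Ioc x (x + l)) l Q H y) q ≤
      (Q : ℝ) ^ 10 * h ^ 2 := by
  have h0 : 0 ≤ h := (norm_nonneg _).trans (hH (x + l) (mem_Ioc.2 ⟨by omega, le_rfl⟩))
  have e : ∑ q ∈ Icc 1 Q, Mq (Ioc x (x + l)) (fun y => H y - flat (Ioc x (x + l)) l Q H y) q =
      ∑ s ∈ projS Q, ‖FT (Ioc x (x + l)) (fun y => H y - flat (Ioc x (x + l)) l Q H y)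
        ((s.2 : ℝ) / s.1)‖ ^ 2 := by
    simp only [Mq]
    rw [projS, sum_sigma]
  rw [e]
  refine (sum_le_card_nsmul _ _ (((Q : ℝ) ^ 4 * h) ^ 2) fun s hs =>
    pow_le_pow_left₀ (norm_nonneg _) (proj_point x hl H h0 hH hs) 2).trans ?_
  have k3 : ((projS Q).card : ℝ) ≤ (Q : ℝ) ^ 2 := by exact_mod_cast proj_card Q
  rw [nsmul_eq_mul]
  calc ((projS Q).card : ℝ) * ((Q : ℝ) ^ 4 * h) ^ 2 ≤ (Q : ℝ) ^ 2 * ((Q : ℝ) ^ 4 * h) ^ 2 := by
        gcongr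
    _ = (Q : ℝ) ^ 10 * h ^ 2 := by ring

end Pool.Agent.Lib.MP_788af2_nt.R0
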