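import Pool.Agent.Lib.MP_788af2_nt.R0.Tup

namespace Pool.Agent.Lib.MP_788af2_nt.R0

open Finset Filter
open scoped NumberTheorySymbols

/-! The rows of the Selmer matrix applied to the vector of a divisor. -/

lemma rows_jac {a n : ℕ} (h : a.Coprime n) : J((a : ℤ) | n) = 1 ∨ J((a : ℤ) | n) = -1 :=
  jacobiSym.eq_one_or_neg_one (by rw [Int.gcd_natCast_natCast]; exact h)

lemma rows_lam_one : lam 1 = 0 := by simp [lam]

lemma rows_lj_one_left (n : ℕ) : lj 1 n = 0 := by simp [lj]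

lemma rows_lj_one_right (a : ℕ) : lj a 1 = 0 := by simp [lj]

lemma rows_sq (e : ZMod 2) : e * e = e := by revert e; decide

lemma lam_mul {m n : ℕ} (hm : Odd m) (hn : Odd n) : lam (m * n) = lam m + lam n := by
  have h1 : m % 4 = 1 ∨ m % 4 = 3 := by obtain ⟨k, rfl⟩ := hm; omega
  have h2 : n % 4 = 1 ∨ n % 4 = 3 := by obtain ⟨k, rfl⟩ := hn; omega
  unfold lam
  rw [Nat.mul_mod]
  rcases h1 with h1 | h1 <;> rcases h2 with h2 | h2 <;> rw [h1, h2] <;> decide

lemma lj_mul_left {a b n : ℕ} (ha : a.Coprime n) (hb : b.Coprime n) :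
    lj (a * b) n = lj a n + lj b n := by
  unfold lj
  rw [Nat.cast_mul, jacobiSym.mul_left]
  rcases rows_jac ha with h1 | h1 <;> rcases rows_jac hb with h2 | h2 <;> rw [h1, h2] <;> decide

lemma lj_mul_right {a m n : ℕ} (hm0 : m ≠ 0) (hn0 : n ≠ 0) (hm : a.Coprime m)
    (hn : a.Coprime n) : lj a (m * n) = lj a m + lj a n := by
  unfold lj
  rw [jacobiSym.mul_right' _ hm0 hn0]
  rcases rows_jac hm with h1 | h1 <;> rcases rows_jac hn with h2 | h2 <;> rw [h1, h2] <;> decide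

lemma sgn_lj {a n : ℕ} (h : a.Coprime n) : sgn (lj a n) = (J((a : ℤ) | n) : ℝ) := by
  unfold lj sgn
  rcases rows_jac h with h1 | h1 <;> rw [h1] <;> simp

lemma lj_recip {m n : ℕ} (hm : Odd m) (hn : Odd n) (h : m.Coprime n) :
    lj m n = lj n m + lam m * lam n := by
  have h1 : m % 4 = 1 ∨ m % 4 = 3 := by obtain ⟨k, rfl⟩ := hm; omega
  have h2 : n % 4 = 1 ∨ n % 4 = 3 := by obtain ⟨k, rfl⟩ := hn; omega
  unfold lj lam
  rcases h1 with h1 | h1
  · rw [jacobiSym.quadratic_reciprocity_one_mod_four h1 hn, h1]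
    simp
  · rcases h2 with h2 | h2
    · rw [jacobiSym.quadratic_reciprocity_one_mod_four' hm h2, h2]
      simp
    · rw [jacobiSym.quadratic_reciprocity_three_mod_four h1 h2, h1, h2]
      rcases rows_jac h.symm with h3 | h3 <;> rw [h3] <;> decide

lemma rows_sum {F : ℕ → ZMod 2} {d : ℕ} (hd : Squarefree d) (h1 : F 1 = 0)
    (hF : ∀ m n, m ∣ d → n ∣ d → F (m * n) = F m + F n) : ∑ p ∈ d.primeFactors, F p = F d := by
  have key : ∀ s : Finset ℕ, s ⊆ d.primeFactors → ∑ p ∈ s, F p = F (∏ p ∈ s, p) := by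
    intro s
    induction s using Finset.induction_on with
    | empty => intro _; simp [h1]
    | insert p s hp ih =>
      intro hs
      have h2 : s ⊆ d.primeFactors := (subset_insert _ _).trans hs
      rw [sum_insert hp, prod_insert hp, ih h2, hF _ _
        (Nat.dvd_of_mem_primeFactors (hs (mem_insert_self _ _)))
        ((prod_dvd_prod_of_subset _ _ _ h2).trans (Nat.prod_primeFactors_dvd d))]
  rw [key _ Subset.rfl, Nat.prod_primeFactors_of_squarefree hd]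

lemma rows_sum_lam {d : ℕ} (hd : Squarefree d) (ho : Odd d) :
    ∑ p ∈ d.primeFactors, lam p = lam d :=
  rows_sum hd rows_lam_one fun _ _ hm hn => lam_mul (ho.of_dvd_nat hm) (ho.of_dvd_nat hn)

lemma rows_sum_left {d n : ℕ} (hd : Squarefree d) (h : d.Coprime n) :
    ∑ p ∈ d.primeFactors, lj p n = lj d n :=
  rows_sum (F := fun p => lj p n) hd (rows_lj_one_left n) fun _ _ hm hn =>
    lj_mul_left (h.coprime_dvd_left hm) (h.coprime_dvd_left hn)

lemma rows_sum_right {d a : ℕ} (hd : Squarefree d) (h : a.Coprime d) :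
    ∑ p ∈ d.primeFactors, lj a p = lj a d :=
  rows_sum (F := fun p => lj a p) hd (rows_lj_one_right a) fun _ _ hm hn =>
    lj_mul_right (ne_zero_of_dvd_ne_zero hd.ne_zero hm) (ne_zero_of_dvd_ne_zero hd.ne_zero hn)
      (h.coprime_dvd_right hm) (h.coprime_dvd_right hn)

lemma rows_split (f : ℕ → ZMod 2) {A B C : ℕ} (h1 : A.Coprime B) (h2 : A.Coprime C)
    (h3 : B.Coprime C) : ∑ p ∈ (A * B * C).primeFactors, f p =
      ∑ p ∈ A.primeFactors, f p + ∑ p ∈ B.primeFactors, f p + ∑ p ∈ C.primeFactors, f p := by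
  have h4 : (A * B).Coprime C := Nat.Coprime.mul_left h2 h3
  rw [h4.primeFactors_mul, sum_union h4.disjoint_primeFactors, h1.primeFactors_mul,
    sum_union h1.disjoint_primeFactors]

lemma rows_sub {n d : ℕ} (hn : n ≠ 0) (hd : d ∣ n) (f : ℕ → ZMod 2) :
    ∑ p : {p // p ∈ n.primeFactors}, (if p.1 ∣ d then f p.1 else 0) =
      ∑ p ∈ d.primeFactors, f p := by
  rw [sum_coe_sort n.primeFactors fun p => if p ∣ d then f p else 0, ← sum_filter]
  refine sum_congr ?_ fun _ _ => rfl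
  ext p
  simp only [mem_filter, Nat.mem_primeFactors]
  exact ⟨fun h => ⟨h.1.1, h.2, ne_zero_of_dvd_ne_zero hn hd⟩,
    fun h => ⟨⟨h.1, h.2.1.trans hd, hn⟩, h.2.1⟩⟩

lemma rows_ndvd {p m n : ℕ} (hp : p.Prime) (h : m.Coprime n) (hm : p ∣ m) : ¬p ∣ n := fun hn =>
  hp.one_lt.ne' (Nat.eq_one_of_dvd_coprimes h hm hn)

lemma rows_single {d p : ℕ} (hd : d ≠ 0) (hp : p.Prime) (v : ZMod 2) :
    ∑ q ∈ d.primeFactors, (if p = q then v else 0) = if p ∣ d then v else 0 := by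
  rw [sum_ite_eq]
  simp [hp, hd]

variable {a1 b1 P Q c : ℕ}

lemma Adm.facts (h : Adm a1 b1 P Q c) :
    Squarefree (a1 * b1 * c) ∧ Odd a1 ∧ Odd b1 ∧ Odd c ∧ Odd P ∧ Odd Q ∧ a1.Coprime b1 ∧
      a1.Coprime c ∧ b1.Coprime c ∧ (a1 * P).Coprime c ∧ (a1 * P).Coprime (b1 * Q) := by
  have o1 : Odd (b1 * Q) := Nat.odd_iff.2 (by have := h.hb; omega)
  have o2 : Odd (a1 * P) := Nat.odd_iff.2 (by have := h.hb; have := h.eq; omega)
  have o3 : Odd c := Nat.odd_iff.2 (by have := h.hc; omega)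
  obtain ⟨c1, s1, -⟩ := Nat.squarefree_mul_iff.1 h.sq
  obtain ⟨c2, -, -⟩ := Nat.squarefree_mul_iff.1 s1
  rw [Nat.odd_mul] at o1 o2
  refine ⟨h.sq.squarefree_of_dvd ⟨P * Q, by ring⟩, o2.1, o1.1, o3, o2.2, o1.2,
    Nat.Coprime.of_dvd (dvd_mul_right _ _) (dvd_mul_right _ _) c2,
    c1.coprime_dvd_left ⟨P * (b1 * Q), by ring⟩, c1.coprime_dvd_left ⟨a1 * P * Q, by ring⟩,
    c1.coprime_dvd_left (dvd_mul_right _ _), c2⟩

lemma Adm.card_Ix (h : Adm a1 b1 P Q c) :
    Fintype.card (Ix a1 b1 c) = om a1 + om b1 + om c + 1 := by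
  obtain ⟨-, -, -, -, -, -, h1, h2, h3, -, -⟩ := h.facts
  rw [Fintype.card_option, Fintype.card_coe, ← om_mul h1, ← om_mul (Nat.Coprime.mul_left h2 h3)]
  rfl

lemma Adm.card_Sm (h : Adm a1 b1 P Q c) (Z : ℕ) :
    (Sm a1 b1 c Z).card = 2 ^ (omZ Z a1 + omZ Z b1 + omZ Z c + 1) := by
  obtain ⟨-, -, -, -, -, -, h1, h2, h3, -, -⟩ := h.facts
  have e : Sm a1 b1 c Z = Fintype.piFinset fun i : Ix a1 b1 c =>
      i.elim univ fun p => if Z < p.1 then ({0} : Finset (ZMod 2)) else univ := by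
    ext x
    simp only [Sm, mem_filter, mem_univ, true_and, Fintype.mem_piFinset, Option.forall,
      Option.elim]
    refine forall_congr' fun p => ?_
    split_ifs with hp <;> simp [hp]
  rw [e, Fintype.card_piFinset, Fintype.prod_option, ← omZ_mul Z h1,
    ← omZ_mul Z (Nat.Coprime.mul_left h2 h3), pow_succ, mul_comm]
  simp only [Option.elim, card_univ, ZMod.card, apply_ite Finset.card, card_singleton]
  rw [prod_coe_sort (a1 * b1 * c).primeFactors fun p => if Z < p then 1 else 2, prod_ite,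
    prod_const_one, prod_const, one_mul]
  simp only [omZ, not_lt]

lemma Adm.symm (h : Adm a1 b1 P Q c) (a : ℕ) : (mat a1 b1 c a).IsSymm := by
  obtain ⟨hs, -, -, -, -, -, h1, h2, h3, -, -⟩ := h.facts
  have key : ∀ p ∈ (a1 * b1 * c).primeFactors, (p ∣ a1 ∧ ¬p ∣ b1 ∧ ¬p ∣ c) ∨
      (¬p ∣ a1 ∧ p ∣ b1 ∧ ¬p ∣ c) ∨ (¬p ∣ a1 ∧ ¬p ∣ b1 ∧ p ∣ c) := fun p hp => by
    have hq := Nat.prime_of_mem_primeFactors hp
    rcases (hq.dvd_mul).1 (Nat.dvd_of_mem_primeFactors hp) with h4 | h4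
    · rcases (hq.dvd_mul).1 h4 with h4 | h4
      · exact .inl ⟨h4, rows_ndvd hq h1 h4, rows_ndvd hq h2 h4⟩
      · exact .inr (.inl ⟨rows_ndvd hq h1.symm h4, h4, rows_ndvd hq h3 h4⟩)
    · exact .inr (.inr ⟨rows_ndvd hq h2.symm h4, rows_ndvd hq h3.symm h4, h4⟩)
  refine Matrix.IsSymm.ext fun i j => ?_
  rcases i with _ | ⟨p, hp⟩ <;> rcases j with _ | ⟨q, hq⟩
  · rfl
  · rfl
  · rfl
  · simp only [mat, Option.map_some, ent]
    by_cases e : p = q
    · subst e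
      rfl
    · have e' : ¬q = p := fun h => e h.symm
      rcases key p hp with ⟨a1, a2, a3⟩ | ⟨a1, a2, a3⟩ | ⟨a1, a2, a3⟩ <;>
        rcases key q hq with ⟨b1, b2, b3⟩ | ⟨b1, b2, b3⟩ | ⟨b1, b2, b3⟩ <;>
        simp [e, e', a1, a2, a3, b1, b2, b3, mul_comm]

/-- Every vector comes from a bit and three divisors. -/
lemma Adm.exists_vecD (h : Adm a1 b1 P Q c) (x : Ix a1 b1 c → ZMod 2) :
    ∃ A B C : ℕ, A ∣ a1 ∧ B ∣ b1 ∧ C ∣ c ∧ x = vecD a1 b1 c (x none) (A * B * C) := by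
  obtain ⟨s, hs⟩ : ∃ s : Finset ℕ, s = (univ.filter fun p : {p // p ∈ (a1 * b1 * c).primeFactors} =>
    x (some p) = 1).map (Function.Embedding.subtype _) := ⟨_, rfl⟩
  have h1 : s ⊆ (a1 * b1 * c).primeFactors := by
    intro p hp
    rw [hs, Finset.mem_map] at hp
    obtain ⟨q, -, rfl⟩ := hp
    exact q.2
  have h2 : (∏ p ∈ s, p).primeFactors = s :=
    Nat.primeFactors_prod fun p hp => Nat.prime_of_mem_primeFactors (h1 hp)
  have h3 : ∏ p ∈ s, p ∣ a1 * b1 * c :=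
    (prod_dvd_prod_of_subset _ _ _ h1).trans (Nat.prod_primeFactors_dvd _)
  have h0 := ne_zero_of_dvd_ne_zero h.facts.1.ne_zero h3
  obtain ⟨d, C, h4, h5, h6⟩ := exists_dvd_and_dvd_of_dvd_mul h3
  obtain ⟨A, B, h7, h8, rfl⟩ := exists_dvd_and_dvd_of_dvd_mul h4
  refine ⟨A, B, C, h7, h8, h5, funext fun i => ?_⟩
  rcases i with _ | p
  · rfl
  · have h9 : p.1 ∣ A * B * C ↔ x (some p) = 1 := by
      have h10 := Nat.mem_primeFactors_of_ne_zero (p := p.1) h0
      rw [h2, and_iff_right (Nat.prime_of_mem_primeFactors p.2), h6] at h10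
      rw [← h10, hs]
      simp
    simp only [vecD, Option.elim, h9]
    generalize x (some p) = y
    revert y
    decide

lemma Adm.vecD_eq_zero (h : Adm a1 b1 P Q c) {e : ZMod 2} {d : ℕ} (hd : d ∣ a1 * b1 * c) :
    vecD a1 b1 c e d = 0 ↔ e = 0 ∧ d = 1 := by
  have h0 := h.facts.1.ne_zero
  constructor
  · intro hv
    refine ⟨congrFun hv none, ?_⟩
    by_contra h1
    obtain ⟨p, hp, hpd⟩ := Nat.exists_prime_and_dvd h1
    have := congrFun hv (some ⟨p, hp.mem_primeFactors (hpd.trans hd) h0⟩)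
    simp [vecD, hpd] at this
  · rintro ⟨rfl, rfl⟩
    funext i
    rcases i with _ | p
    · rfl
    · simp [vecD, (Nat.prime_of_mem_primeFactors p.2).ne_one]

lemma Adm.vecD_mem_Sm (h : Adm a1 b1 P Q c) {e : ZMod 2} {d : ℕ} (hd : d ∣ a1 * b1 * c) (Z : ℕ) :
    vecD a1 b1 c e d ∈ Sm a1 b1 c Z ↔ ¬big Z d := by
  have h0 := h.facts.1.ne_zero
  simp only [Sm, mem_filter, mem_univ, true_and, vecD, Option.elim, big, ite_eq_right_iff,
    one_ne_zero]
  constructor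
  · rintro h1 ⟨p, hp, hZ⟩
    exact h1 ⟨p, Nat.primeFactors_mono hd h0 hp⟩ hZ (Nat.dvd_of_mem_primeFactors hp)
  · intro h1 p hZ hp
    exact h1 ⟨p, (Nat.prime_of_mem_primeFactors p.2).mem_primeFactors hp
      (ne_zero_of_dvd_ne_zero h0 hd), hZ⟩

lemma rows_mulVec (h : Adm a1 b1 P Q c) (a : ℕ) (e : ZMod 2) {A B C : ℕ} (hA : A ∣ a1)
    (hB : B ∣ b1) (hC : C ∣ c) (i : Ix a1 b1 c) :
    (mat a1 b1 c a).mulVec (vecD a1 b1 c e (A * B * C)) i =
      ent a1 b1 c a (i.map Subtype.val) none * e +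
        (∑ q ∈ A.primeFactors, ent a1 b1 c a (i.map Subtype.val) (some q) +
          ∑ q ∈ B.primeFactors, ent a1 b1 c a (i.map Subtype.val) (some q) +
          ∑ q ∈ C.primeFactors, ent a1 b1 c a (i.map Subtype.val) (some q)) := by
  obtain ⟨hs, -, -, -, -, -, h1, h2, h3, -, -⟩ := h.facts
  rw [← rows_split _ (Nat.Coprime.of_dvd hA hB h1) (Nat.Coprime.of_dvd hA hC h2)
    (Nat.Coprime.of_dvd hB hC h3),
    ← rows_sub hs.ne_zero (mul_dvd_mul (mul_dvd_mul hA hB) hC)]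
  simp only [Matrix.mulVec, dotProduct, Fintype.sum_option, mat, vecD, Option.elim, Option.map_none,
    Option.map_some, mul_ite, mul_one, mul_zero]

lemma rows_sqf (h : Adm a1 b1 P Q c) {A B C : ℕ} (hA : A ∣ a1) (hB : B ∣ b1) (hC : C ∣ c) :
    Squarefree A ∧ Squarefree B ∧ Squarefree C :=
  ⟨h.facts.1.squarefree_of_dvd (hA.trans (Dvd.intro _ (mul_assoc _ _ _).symm)),
    h.facts.1.squarefree_of_dvd (hB.trans ((dvd_mul_left _ _).mul_right _)),
    h.facts.1.squarefree_of_dvd (hC.trans (dvd_mul_left _ _))⟩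

lemma rows_sgn_nat (k : ℕ) : sgn (k : ZMod 2) = (-1) ^ k := by
  induction k with
  | zero => simp [sgn]
  | succ k ih =>
    rw [Nat.cast_succ, sgn_add, ih, pow_succ]
    simp [sgn]

lemma Adm.row_none (h : Adm a1 b1 P Q c) (a : ℕ) (e : ZMod 2) {A B C : ℕ} (hA : A ∣ a1)
    (hB : B ∣ b1) (hC : C ∣ c) :
    (mat a1 b1 c a).mulVec (vecD a1 b1 c e (A * B * C)) none = lam A + lam B := by
  obtain ⟨s1, s2, s3⟩ := rows_sqf h hA hB hC
  obtain ⟨-, o1, o2, -, -, -, h1, h2, h3, -, -⟩ := h.facts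
  rw [rows_mulVec h a e hA hB hC, ← rows_sum_lam s1 (o1.of_dvd_nat hA),
    ← rows_sum_lam s2 (o2.of_dvd_nat hB)]
  simp only [Option.map_none, ent, zero_mul, zero_add]
  rw [sum_eq_zero (s := C.primeFactors) fun q hq =>
    if_pos ((Nat.dvd_of_mem_primeFactors hq).trans hC), add_zero]
  congr 1
  · exact sum_congr rfl fun q hq => if_neg (rows_ndvd (Nat.prime_of_mem_primeFactors hq) h2
      ((Nat.dvd_of_mem_primeFactors hq).trans hA))
  · exact sum_congr rfl fun q hq => if_neg (rows_ndvd (Nat.prime_of_mem_primeFactors hq) h3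
      ((Nat.dvd_of_mem_primeFactors hq).trans hB))

lemma Adm.row_a (h : Adm a1 b1 P Q c) (a : ℕ) (e : ZMod 2) {A B C : ℕ} (hA : A ∣ a1)
    (hB : B ∣ b1) (hC : C ∣ c) (p : {p // p ∈ (a1 * b1 * c).primeFactors}) (hp : p.1 ∣ a1) :
    (mat a1 b1 c a).mulVec (vecD a1 b1 c e (A * B * C)) (some p) =
      e * lam p + lj p B + lj p C + if p.1 ∣ A then lj p c else 0 := by
  obtain ⟨s1, s2, s3⟩ := rows_sqf h hA hB hC
  obtain ⟨-, o1, o2, -, -, -, h1, h2, h3, -, -⟩ := h.facts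
  obtain ⟨p, hp0⟩ := p
  have hq := Nat.prime_of_mem_primeFactors hp0
  have n1 := rows_ndvd hq h1 hp
  have n2 := rows_ndvd hq h2 hp
  rw [rows_mulVec h a e hA hB hC, ← rows_sum_right s2 (Nat.Coprime.of_dvd hp hB h1),
    ← rows_sum_right s3 (Nat.Coprime.of_dvd hp hC h2), ← rows_single s1.ne_zero hq]
  have e1 : ∀ q ∈ A.primeFactors, ent a1 b1 c a (some p) (some q) =
      if p = q then lj p c else 0 := fun q hq => by
    simp [ent, n2, show p ∣ a1 from hp, (Nat.dvd_of_mem_primeFactors hq).trans hA]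
  have e2 : ∀ q ∈ B.primeFactors, ent a1 b1 c a (some p) (some q) = lj p q := fun q hq => by
    have d1 := (Nat.dvd_of_mem_primeFactors hq).trans hB
    have d2 : p ≠ q := fun e => n1 (e ▸ d1)
    simp [ent, d2, show p ∣ a1 from hp, rows_ndvd (Nat.prime_of_mem_primeFactors hq) h1.symm d1]
  have e3 : ∀ q ∈ C.primeFactors, ent a1 b1 c a (some p) (some q) = lj p q := fun q hq => by
    have d1 := (Nat.dvd_of_mem_primeFactors hq).trans hC
    have d2 : p ≠ q := fun e => n2 (e ▸ d1)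
    simp [ent, d2, show p ∣ a1 from hp, rows_ndvd (Nat.prime_of_mem_primeFactors hq) h2.symm d1]
  simp only [Option.map_some]
  rw [sum_congr rfl e1, sum_congr rfl e2, sum_congr rfl e3]
  simp only [ent, if_neg n2]
  ring

lemma Adm.row_b (h : Adm a1 b1 P Q c) (a : ℕ) (e : ZMod 2) {A B C : ℕ} (hA : A ∣ a1)
    (hB : B ∣ b1) (hC : C ∣ c) (p : {p // p ∈ (a1 * b1 * c).primeFactors}) (hp : p.1 ∣ b1) :
    (mat a1 b1 c a).mulVec (vecD a1 b1 c e (A * B * C)) (some p) =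
      e * lam p + lj A p + lj p C + lam p * lam B + if p.1 ∣ B then lam p + lj p c else 0 := by
  obtain ⟨s1, s2, s3⟩ := rows_sqf h hA hB hC
  obtain ⟨-, o1, o2, -, -, -, h1, h2, h3, -, -⟩ := h.facts
  obtain ⟨p, hp0⟩ := p
  have hq := Nat.prime_of_mem_primeFactors hp0
  have n1 := rows_ndvd hq h1.symm hp
  have n2 := rows_ndvd hq h3 hp
  rw [rows_mulVec h a e hA hB hC, ← rows_sum_left s1 (Nat.Coprime.of_dvd hA hp h1),
    ← rows_sum_right s3 (Nat.Coprime.of_dvd hp hC h3), ← rows_single s2.ne_zero hq,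
    ← rows_sum_lam s2 (o2.of_dvd_nat hB)]
  have e1 : ∀ q ∈ A.primeFactors, ent a1 b1 c a (some p) (some q) = lj q p := fun q hq => by
    have d1 := (Nat.dvd_of_mem_primeFactors hq).trans hA
    have d2 : p ≠ q := fun e => n1 (e ▸ d1)
    simp [ent, d2, n1, show p ∣ b1 from hp, d1]
  have e2 : ∀ q ∈ B.primeFactors, ent a1 b1 c a (some p) (some q) =
      lam p * lam q + if p = q then lam p + lj p c else 0 := fun q hq => by
    have d1 := (Nat.dvd_of_mem_primeFactors hq).trans hB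
    by_cases d2 : p = q
    · subst d2
      simp only [ent, if_true, if_neg n2, rows_sq]
      rw [← add_assoc, CharTwo.add_self_eq_zero, zero_add]
    · simp [ent, d2, n1, show p ∣ b1 from hp, d1,
        rows_ndvd (Nat.prime_of_mem_primeFactors hq) h1.symm d1]
  have e3 : ∀ q ∈ C.primeFactors, ent a1 b1 c a (some p) (some q) = lj p q := fun q hq => by
    have d1 := (Nat.dvd_of_mem_primeFactors hq).trans hC
    have d2 : p ≠ q := fun e => n2 (e ▸ d1)
    simp [ent, d2, n1, show p ∣ b1 from hp, rows_ndvd (Nat.prime_of_mem_primeFactors hq) h2.symm d1,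
      rows_ndvd (Nat.prime_of_mem_primeFactors hq) h3.symm d1]
  simp only [Option.map_some]
  rw [sum_congr rfl e1, sum_congr rfl e2, sum_congr rfl e3, sum_add_distrib, ← mul_sum]
  simp only [ent, if_neg n2]
  ring

lemma Adm.row_c (h : Adm a1 b1 P Q c) (a : ℕ) (e : ZMod 2) {A B C : ℕ} (hA : A ∣ a1)
    (hB : B ∣ b1) (hC : C ∣ c) (p : {p // p ∈ (a1 * b1 * c).primeFactors}) (hp : p.1 ∣ c) :
    (mat a1 b1 c a).mulVec (vecD a1 b1 c e (A * B * C)) (some p) =
      lj A p + lj B p + if p.1 ∣ C then lj a p else 0 := by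
  obtain ⟨s1, s2, s3⟩ := rows_sqf h hA hB hC
  obtain ⟨-, o1, o2, -, -, -, h1, h2, h3, -, -⟩ := h.facts
  obtain ⟨p, hp0⟩ := p
  have hq := Nat.prime_of_mem_primeFactors hp0
  have n1 := rows_ndvd hq h2.symm hp
  have n2 := rows_ndvd hq h3.symm hp
  rw [rows_mulVec h a e hA hB hC, ← rows_sum_left s1 (Nat.Coprime.of_dvd hA hp h2),
    ← rows_sum_left s2 (Nat.Coprime.of_dvd hB hp h3), ← rows_single s3.ne_zero hq]
  have e1 : ∀ q ∈ A.primeFactors, ent a1 b1 c a (some p) (some q) = lj q p := fun q hq => by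
    have d1 := (Nat.dvd_of_mem_primeFactors hq).trans hA
    have d2 : p ≠ q := fun e => n1 (e ▸ d1)
    simp [ent, d2, n1, n2, rows_ndvd (Nat.prime_of_mem_primeFactors hq) h2 d1]
  have e2 : ∀ q ∈ B.primeFactors, ent a1 b1 c a (some p) (some q) = lj q p := fun q hq => by
    have d1 := (Nat.dvd_of_mem_primeFactors hq).trans hB
    have d2 : p ≠ q := fun e => n2 (e ▸ d1)
    simp [ent, d2, n1, n2, rows_ndvd (Nat.prime_of_mem_primeFactors hq) h3 d1]
  have e3 : ∀ q ∈ C.primeFactors, ent a1 b1 c a (some p) (some q) =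
      if p = q then lj a p else 0 := fun q hq => by
    simp [ent, n1, n2, show p ∣ c from hp, (Nat.dvd_of_mem_primeFactors hq).trans hC]
  simp only [Option.map_some]
  rw [sum_congr rfl e1, sum_congr rfl e2, sum_congr rfl e3]
  simp only [ent, if_pos (show p ∣ c from hp), zero_mul, zero_add]

/-- The indicator of the primes of `c` is a characteristic vector. -/
lemma Adm.char_vec (h : Adm a1 b1 P Q c) (a : ℕ) (i : Ix a1 b1 c) :
    (mat a1 b1 c a).mulVec (vecD a1 b1 c 0 c) i = mat a1 b1 c a i i := by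
  obtain ⟨-, -, -, -, -, -, h1, h2, h3, -, -⟩ := h.facts
  have e : vecD a1 b1 c 0 c = vecD a1 b1 c 0 (1 * 1 * c) := by rw [one_mul, one_mul]
  rw [e]
  rcases i with _ | p
  · rw [h.row_none a 0 (one_dvd _) (one_dvd _) dvd_rfl, rows_lam_one, add_zero]
    rfl
  · have hq := Nat.prime_of_mem_primeFactors p.2
    rcases (hq.dvd_mul).1 (Nat.dvd_of_mem_primeFactors p.2) with h4 | h4
    · rcases (hq.dvd_mul).1 h4 with h4 | h4
      · rw [h.row_a a 0 (one_dvd _) (one_dvd _) dvd_rfl p h4]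
        simp [mat, ent, rows_lj_one_right, hq.ne_one, rows_ndvd hq h2 h4]
      · rw [h.row_b a 0 (one_dvd _) (one_dvd _) dvd_rfl p h4]
        simp [mat, ent, rows_lj_one_left, rows_lam_one, hq.ne_one, rows_ndvd hq h3 h4]
    · rw [h.row_c a 0 (one_dvd _) (one_dvd _) dvd_rfl p h4]
      simp [mat, ent, rows_lj_one_left, h4]

lemma Adm.sig_eq (h : Adm a1 b1 P Q c) :
    sig a1 b1 c (a1 * P) = sgn ((Fintype.card (Ix a1 b1 c) : ZMod 2) +
      vecD a1 b1 c 0 c ⬝ᵥ (mat a1 b1 c (a1 * P)).mulVec (vecD a1 b1 c 0 c)) := by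
  obtain ⟨hs, -, -, -, -, -, -, -, -, h4, -⟩ := h.facts
  have e : vecD a1 b1 c 0 c ⬝ᵥ (mat a1 b1 c (a1 * P)).mulVec (vecD a1 b1 c 0 c) =
      lj (a1 * P) c := by
    rw [← rows_sum_right (hs.squarefree_of_dvd (dvd_mul_left _ _)) h4,
      ← rows_sub hs.ne_zero (dvd_mul_left c (a1 * b1))]
    simp only [dotProduct, h.char_vec, Fintype.sum_option]
    simp only [vecD, Option.elim, zero_mul, zero_add, mat, Option.map_some, ent, if_true]
    refine sum_congr rfl fun p _ => ?_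
    split_ifs <;> simp
  rw [e, sgn_add, rows_sgn_nat, sgn_lj h4, h.card_Ix, sig]

end Pool.Agent.Lib.MP_788af2_nt.R0
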