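import Pool.Agent.Lib.MP_788af2_nt.R0.LS
import Pool.Agent.Lib.MP_788af2_nt.R0.Cheb

namespace Pool.Agent.Lib.MP_788af2_nt.R0

open Finset Filter
open scoped NumberTheorySymbols

/-! Differences divisible by a prime of the distinguished range. -/

/-- The indicator of a set of naturals, as a function on the integers. -/
noncomputable def s0a_ind (𝒜 : Finset ℕ) (y : ℤ) : ℂ :=
  if y ∈ 𝒜.image (fun n : ℕ => (n : ℤ)) then 1 else 0

lemma s0a_sum {M : ℕ} {𝒜 : Finset ℕ} (hA : 𝒜 ⊆ Icc 1 M) {β : Type*} [AddCommMonoid β]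
    (F : ℤ → β) :
    ∑ y ∈ Ioc (0 : ℤ) (0 + M), (if y ∈ 𝒜.image (fun n : ℕ => (n : ℤ)) then F y else 0) =
      ∑ n ∈ 𝒜, F n := by
  rw [← sum_filter, filter_mem_eq_inter, inter_eq_right.2, sum_image]
  · exact fun a _ b _ h => Int.natCast_inj.1 h
  · intro y hy
    obtain ⟨n, hn, rfl⟩ := mem_image.1 hy
    have := mem_Icc.1 (hA hn)
    rw [mem_Ioc]
    omega

lemma s0a_N2 {M : ℕ} {𝒜 : Finset ℕ} (hA : 𝒜 ⊆ Icc 1 M) :
    N2 (Ioc (0 : ℤ) (0 + M)) (s0a_ind 𝒜) = 𝒜.card := by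
  have := s0a_sum hA fun _ => (1 : ℝ)
  rw [sum_const, nsmul_eq_mul, mul_one] at this
  rw [← this]
  refine sum_congr rfl fun y _ => ?_
  unfold s0a_ind
  split_ifs <;> simp

lemma s0a_Mq1 {M : ℕ} {𝒜 : Finset ℕ} (hA : 𝒜 ⊆ Icc 1 M) :
    Mq (Ioc (0 : ℤ) (0 + M)) (s0a_ind 𝒜) 1 = (𝒜.card : ℝ) ^ 2 := by
  have := s0a_sum hA fun _ => (1 : ℂ)
  rw [sum_const, nsmul_eq_mul, mul_one] at this
  have h : FT (Ioc (0 : ℤ) (0 + M)) (s0a_ind 𝒜) 0 = 𝒜.card := by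
    rw [← this]
    refine sum_congr rfl fun y _ => ?_
    rw [zero_mul, ex_zero, mul_one]
    rfl
  have h1 : (range 1).filter (fun h : ℕ => h.Coprime 1) = {0} := by decide
  rw [Mq, h1, sum_singleton, Nat.cast_zero, zero_div, h, Complex.norm_natCast]

lemma s0a_Vr {M : ℕ} {𝒜 : Finset ℕ} (hA : 𝒜 ⊆ Icc 1 M) (R : ℕ) :
    Vr (Ioc (0 : ℤ) (0 + M)) (s0a_ind 𝒜) R =
      ∑ r ∈ range R, ((𝒜.filter fun x => x % R = r).card : ℝ) ^ 2 := by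
  refine sum_congr rfl fun r _ => ?_
  have := s0a_sum hA fun y => if y % (R : ℤ) = r then (1 : ℂ) else 0
  have h : ∑ y ∈ Ioc (0 : ℤ) (0 + M) with y % (R : ℤ) = r, s0a_ind 𝒜 y =
      ((𝒜.filter fun x => x % R = r).card : ℂ) := by
    rw [sum_filter, card_filter, Nat.cast_sum]
    refine Eq.trans (sum_congr rfl fun y _ => ?_) (this.trans (sum_congr rfl fun n _ => ?_))
    · unfold s0a_ind
      split_ifs <;> rfl
    · have : ((n : ℤ) % (R : ℤ) = r) ↔ n % R = r := by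
        rw [← Int.natCast_mod, Int.natCast_inj]
      simp only [this]
      split_ifs <;> simp
  rw [h, Complex.norm_natCast]

lemma s0a_tot (𝒜 : Finset ℕ) {R : ℕ} (hR : 0 < R) :
    ∑ r ∈ range R, ((𝒜.filter fun x => x % R = r).card : ℝ) = 𝒜.card := by
  rw [card_eq_sum_card_fiberwise (f := fun x => x % R) (s := 𝒜) (t := range R)
    fun x _ => mem_coe.2 (mem_range.2 (Nat.mod_lt _ hR)), Nat.cast_sum]

lemma s0a_var {M : ℕ} {𝒜 : Finset ℕ} (hA : 𝒜 ⊆ Icc 1 M) {R : ℕ} (hR : R.Prime) :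
    ∑ r ∈ range R, (((𝒜.filter fun x => x % R = r).card : ℝ) - 𝒜.card / R) ^ 2 =
      Mq (Ioc (0 : ℤ) (0 + M)) (s0a_ind 𝒜) R / R := by
  have h := parseval_classes (Ioc (0 : ℤ) (0 + M)) (s0a_ind 𝒜) hR.pos
  rw [hR.divisors, sum_pair hR.one_lt.ne, s0a_Mq1 hA, s0a_Vr hA] at h
  have hR0 : (R : ℝ) ≠ 0 := by exact_mod_cast hR.ne_zero
  simp only [sub_sq, sum_add_distrib, sum_sub_distrib, ← sum_mul, ← mul_sum, s0a_tot 𝒜 hR.pos,
    sum_const, card_range, nsmul_eq_mul]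
  field_simp
  linear_combination h

lemma s0a_pair (𝒜 ℬ : Finset ℕ) {R : ℕ} (hR : 0 < R) :
    ∑ x ∈ 𝒜, ∑ y ∈ ℬ, (if x ≡ y [MOD R] then (1 : ℝ) else 0) =
      ∑ r ∈ range R, ((𝒜.filter fun x => x % R = r).card : ℝ) *
        ((ℬ.filter fun x => x % R = r).card : ℝ) := by
  rw [← sum_fiberwise_of_maps_to (g := fun x => x % R) (s := 𝒜) (t := range R)
    fun x _ => mem_range.2 (Nat.mod_lt _ hR)]
  refine sum_congr rfl fun r _ => ?_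
  rw [← nsmul_eq_mul, ← sum_const]
  refine sum_congr rfl fun x hx => ?_
  rw [card_filter, Nat.cast_sum]
  refine sum_congr rfl fun y _ => ?_
  have : x ≡ y [MOD R] ↔ y % R = r := by
    rw [← (mem_filter.1 hx).2]
    exact eq_comm
  simp only [this]
  split_ifs <;> simp

lemma s0a_prime {M : ℕ} {𝒜 ℬ : Finset ℕ} (hA : 𝒜 ⊆ Icc 1 M) (hB : ℬ ⊆ Icc 1 M) {R : ℕ}
    (hR : R.Prime) :
    (𝒜.card * ℬ.card : ℝ) * (R : ℝ)⁻¹ - (Mq (Ioc (0 : ℤ) (0 + M)) (s0a_ind 𝒜) R / R +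
      Mq (Ioc (0 : ℤ) (0 + M)) (s0a_ind ℬ) R / R) / 2 ≤
      ∑ x ∈ 𝒜, ∑ y ∈ ℬ, (if x ≡ y [MOD R] then (1 : ℝ) else 0) := by
  have hR0 : (R : ℝ) ≠ 0 := by exact_mod_cast hR.ne_zero
  rw [s0a_pair _ _ hR.pos, ← s0a_var hA hR, ← s0a_var hB hR]
  have h1 : ∑ r ∈ range R, (((𝒜.filter fun x => x % R = r).card : ℝ) - 𝒜.card / R) *
      (((ℬ.filter fun x => x % R = r).card : ℝ) - ℬ.card / R) =
      ∑ r ∈ range R, ((𝒜.filter fun x => x % R = r).card : ℝ) *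
        ((ℬ.filter fun x => x % R = r).card : ℝ) - (𝒜.card * ℬ.card : ℝ) * (R : ℝ)⁻¹ := by
    simp only [sub_mul, mul_sub, sum_sub_distrib, ← sum_mul, ← mul_sum, s0a_tot _ hR.pos,
      sum_const, card_range, nsmul_eq_mul]
    field_simp
    ring
  have h2 : -((∑ r ∈ range R, (((𝒜.filter fun x => x % R = r).card : ℝ) - 𝒜.card / R) ^ 2 +
      ∑ r ∈ range R, (((ℬ.filter fun x => x % R = r).card : ℝ) - ℬ.card / R) ^ 2) / 2) ≤
      ∑ r ∈ range R, (((𝒜.filter fun x => x % R = r).card : ℝ) - 𝒜.card / R) *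
        (((ℬ.filter fun x => x % R = r).card : ℝ) - ℬ.card / R) := by
    rw [← sum_add_distrib, sum_div, ← sum_neg_distrib]
    refine sum_le_sum fun r _ => ?_
    nlinarith [sq_nonneg ((((𝒜.filter fun x => x % R = r).card : ℝ) - 𝒜.card / R) +
      (((ℬ.filter fun x => x % R = r).card : ℝ) - ℬ.card / R))]
  linarith

lemma s0a_sieve {g : ℕ} (hg : 3 ≤ g) {𝒜 : Finset ℕ} (hA : 𝒜 ⊆ Icc 1 (64 * XX g)) :
    ∑ R ∈ RR g, Mq (Ioc (0 : ℤ) (0 + (64 * XX g : ℕ))) (s0a_ind 𝒜) R / R ≤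
      (XX g : ℝ) ^ 2 / 2 ^ g := by
  have hls := large_sieve 0 (64 * XX g) (2 ^ (18 * g)) (s0a_ind 𝒜)
  rw [s0a_N2 hA] at hls
  have hc : (𝒜.card : ℝ) ≤ 64 * XX g := by
    have := card_le_card hA
    rw [Nat.card_Icc, Nat.add_sub_cancel] at this
    exact_mod_cast this
  have hX : ((2 ^ (18 * g) : ℕ) : ℝ) ^ 2 ≤ XX g := by
    have : (2 ^ (18 * g)) ^ 2 ≤ XX g := by
      rw [← pow_mul]
      exact Nat.pow_le_pow_right two_pos (by omega)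
    exact_mod_cast this
  have h8 : (416000 : ℝ) * 2 ^ g ≤ 2 ^ (9 * g) := by
    have h1 : (2 : ℝ) ^ 24 ≤ 2 ^ (8 * g) := pow_le_pow_right₀ one_le_two (by omega)
    have h2 : (2 : ℝ) ^ (9 * g) = 2 ^ (8 * g) * 2 ^ g := by rw [← pow_add]; congr 1; ring
    rw [h2]
    exact mul_le_mul_of_nonneg_right (le_trans (by norm_num) h1) (by positivity)
  have hX0 : (0 : ℝ) ≤ XX g := Nat.cast_nonneg _
  calc ∑ R ∈ RR g, Mq (Ioc (0 : ℤ) (0 + (64 * XX g : ℕ))) (s0a_ind 𝒜) R / R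
      ≤ ∑ R ∈ RR g, Mq (Ioc (0 : ℤ) (0 + (64 * XX g : ℕ))) (s0a_ind 𝒜) R / 2 ^ (9 * g) := by
        refine sum_le_sum fun R hR => ?_
        have h1 := (mem_Ioc.1 (mem_filter.1 hR).1).1
        have h2 : (2 : ℝ) ^ (9 * g) ≤ R := by exact_mod_cast h1.le
        exact div_le_div_of_nonneg_left (Mq_nonneg ..) (by positivity) h2
    _ ≤ (∑ q ∈ Icc 1 (2 ^ (18 * g)),
          Mq (Ioc (0 : ℤ) (0 + (64 * XX g : ℕ))) (s0a_ind 𝒜) q) / 2 ^ (9 * g) := by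
        rw [← sum_div]
        refine div_le_div_of_nonneg_right (sum_le_sum_of_subset_of_nonneg (fun R hR => ?_)
          fun _ _ _ => Mq_nonneg ..) (by positivity)
        have h1 := mem_Ioc.1 (mem_filter.1 hR).1
        exact mem_Icc.2 ⟨(mem_filter.1 hR).2.one_lt.le, h1.2⟩
    _ ≤ 416000 * (XX g : ℝ) ^ 2 / 2 ^ (9 * g) := by
        refine div_le_div_of_nonneg_right (hls.trans ?_) (by positivity)
        push_cast at hX ⊢
        calc 100 * (((2 : ℝ) ^ (18 * g)) ^ 2 + 64 * XX g) * 𝒜.card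
            ≤ 100 * (XX g + 64 * XX g) * (64 * XX g) := by gcongr
          _ = 416000 * (XX g : ℝ) ^ 2 := by ring
    _ ≤ (XX g : ℝ) ^ 2 / 2 ^ g := by
        rw [div_le_div_iff₀ (by positivity) (by positivity)]
        nlinarith [mul_le_mul_of_nonneg_left h8 (sq_nonneg (XX g : ℝ))]

theorem diff_count : ∀ᶠ g : ℕ in atTop, ∀ 𝒜 ℬ : Finset ℕ, 𝒜 ⊆ Icc 1 (64 * XX g) →
    ℬ ⊆ Icc 1 (64 * XX g) →
    (𝒜.card * ℬ.card : ℝ) / 20 - (XX g : ℝ) ^ 2 / 2 ^ g ≤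
      ∑ x ∈ 𝒜, ∑ y ∈ ℬ, (((RR g).filter fun R => x ≡ y [MOD R]).card : ℝ) := by
  filter_upwards [sum_inv_RR, eventually_ge_atTop 3] with g h20 hg 𝒜 ℬ hA hB
  have h1 : ∑ x ∈ 𝒜, ∑ y ∈ ℬ, (((RR g).filter fun R => x ≡ y [MOD R]).card : ℝ) =
      ∑ R ∈ RR g, ∑ x ∈ 𝒜, ∑ y ∈ ℬ, (if x ≡ y [MOD R] then (1 : ℝ) else 0) := by
    rw [sum_comm (s := RR g)]
    refine sum_congr rfl fun x _ => ?_
    rw [sum_comm (s := RR g)]
    refine sum_congr rfl fun y _ => ?_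
    rw [card_filter, Nat.cast_sum]
    refine sum_congr rfl fun R _ => ?_
    split_ifs <;> simp
  have h2 := sum_le_sum fun R (hR : R ∈ RR g) => s0a_prime hA hB (mem_filter.1 hR).2
  rw [sum_sub_distrib, ← mul_sum, ← sum_div, sum_add_distrib] at h2
  have h3 := s0a_sieve hg hA
  have h4 := s0a_sieve hg hB
  have h5 : (𝒜.card * ℬ.card : ℝ) * (1 / 20) ≤ (𝒜.card * ℬ.card : ℝ) * ∑ R ∈ RR g, (R : ℝ)⁻¹ :=
    mul_le_mul_of_nonneg_left h20 (by positivity)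
  rw [h1]
  linarith

end Pool.Agent.Lib.MP_788af2_nt.R0
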