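import Pool.Agent.Lib.MP_788af2_nt.R0.TK
import Pool.Agent.Lib.MP_788af2_nt.R0.AP

namespace Pool.Agent.Lib.MP_788af2_nt.R0

open Finset Filter
open scoped NumberTheorySymbols

/-! Bad events in a pre-cell. `W = 64 W1` with `W1` the product of the odd primes up to `E`. -/

open Classical in
lemma s0b_core (g Z c0 d T E y : ℕ) (hE : 3 ≤ E)
    (hcop : ∀ t p, p.Prime → p ≤ E → ¬p ∣ c0 + d * t)
    (hd : ∀ p, p.Prime → p ∣ d → p ≤ E ∨ y < p) :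
    (((range T).filter fun t => ¬typ g Z (c0 + d * t) ∧
      ¬∃ p, p.Prime ∧ y < p ∧ p ^ 2 ∣ c0 + d * t).card : ℝ) ≤ 2 * T / E + y +
      ((range T).filter fun t => ¬(|(om (c0 + d * t) : ℝ) - Real.log g| ≤ Real.log g / 100 ∧
        (omZ Z (c0 + d * t) : ℝ) ≤ Real.log g / 100)).card := by
  have h1 := sq_ap c0 d T E y (by omega) hd
  have hsub : ((range T).filter fun t => ¬typ g Z (c0 + d * t) ∧
      ¬∃ p, p.Prime ∧ y < p ∧ p ^ 2 ∣ c0 + d * t) ⊆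
      ((range T).filter fun t => ∃ p ∈ Ioc E y, p.Prime ∧ p ^ 2 ∣ c0 + d * t) ∪
      ((range T).filter fun t => ¬(|(om (c0 + d * t) : ℝ) - Real.log g| ≤ Real.log g / 100 ∧
        (omZ Z (c0 + d * t) : ℝ) ≤ Real.log g / 100)) := by
    intro t ht
    rw [mem_filter] at ht
    obtain ⟨ht1, ht2, ht3⟩ := ht
    rw [mem_union, mem_filter, mem_filter]
    by_cases hs : Squarefree (c0 + d * t)
    · refine Or.inr ⟨ht1, fun h => ht2 ⟨hs, ?_, h⟩⟩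
      have h2 : (c0 + d * t).Coprime 2 :=
        ((Nat.Prime.coprime_iff_not_dvd Nat.prime_two).2
          (hcop t 2 Nat.prime_two (by omega))).symm
      have h3 : (c0 + d * t).Coprime 3 :=
        ((Nat.Prime.coprime_iff_not_dvd Nat.prime_three).2
          (hcop t 3 Nat.prime_three hE)).symm
      exact Nat.Coprime.mul_right h2 h3
    · rw [Nat.squarefree_iff_prime_squarefree] at hs
      push Not at hs
      obtain ⟨p, hp, hpp⟩ := hs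
      have hp2 : p ^ 2 ∣ c0 + d * t := by rwa [pow_two]
      refine Or.inl ⟨ht1, p, mem_Ioc.2 ⟨?_, ?_⟩, hp, hp2⟩
      · by_contra h
        exact hcop t p hp (by omega) ((dvd_mul_right p p).trans hpp)
      · by_contra h
        exact ht3 ⟨p, hp, by omega, hp2⟩
  have h2 := (card_le_card hsub).trans (card_union_le _ _)
  have h3 : (((range T).filter fun t => ¬typ g Z (c0 + d * t) ∧
      ¬∃ p, p.Prime ∧ y < p ∧ p ^ 2 ∣ c0 + d * t).card : ℝ) ≤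
      (((range T).filter fun t => ∃ p ∈ Ioc E y, p.Prime ∧ p ^ 2 ∣ c0 + d * t).card : ℝ) +
      ((range T).filter fun t => ¬(|(om (c0 + d * t) : ℝ) - Real.log g| ≤ Real.log g / 100 ∧
        (omZ Z (c0 + d * t) : ℝ) ≤ Real.log g / 100)).card := by exact_mod_cast h2
  linarith

lemma s0b_ev {δ : ℝ} (hδ : 0 < δ) {W : ℕ} (hW : 0 < W) : ∀ᶠ g : ℕ in atTop, ∀ i, g ≤ i →
    W ≤ 2 ^ i ∧ 2 ^ i ≤ 2 * W * (2 ^ i / W) ∧
      ∀ y : ℕ, y ^ 2 ≤ 2 ^ (i + 2) → (y : ℝ) ≤ δ * (2 ^ i / W : ℕ) := by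
  obtain ⟨M, hM⟩ := exists_nat_ge (16 * (W : ℝ) ^ 2 / δ ^ 2)
  filter_upwards [eventually_ge_atTop W, eventually_ge_atTop M] with g h1 h2 i hi
  have hN : i < 2 ^ i := Nat.lt_two_pow_self
  have hWN : W ≤ 2 ^ i := by omega
  have hT : 1 ≤ 2 ^ i / W := (Nat.one_le_div_iff hW).2 hWN
  have hlt : 2 ^ i < W * (2 ^ i / W + 1) := Nat.lt_mul_div_succ _ hW
  have h3 : 2 ^ i ≤ 2 * W * (2 ^ i / W) := by nlinarith
  refine ⟨hWN, h3, fun y hy => ?_⟩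
  have hW' : (0 : ℝ) < W := by exact_mod_cast hW
  have h4 : ((2 ^ i : ℕ) : ℝ) ≤ 2 * W * (2 ^ i / W : ℕ) := by exact_mod_cast h3
  have h5 : (y : ℝ) ^ 2 ≤ 4 * ((2 ^ i : ℕ) : ℝ) := by
    have : y ^ 2 ≤ 4 * 2 ^ i := by rw [pow_add] at hy; omega
    exact_mod_cast this
  have h6 : (M : ℝ) ≤ ((2 ^ i : ℕ) : ℝ) := by
    have : M ≤ 2 ^ i := by omega
    exact_mod_cast this
  generalize ((2 ^ i : ℕ) : ℝ) = N at h4 h5 h6
  generalize ((2 ^ i / W : ℕ) : ℝ) = T at h4 ⊢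
  have h7 : 16 * (W : ℝ) ^ 2 ≤ N * δ ^ 2 := by
    rw [div_le_iff₀ (by positivity)] at hM
    nlinarith [sq_nonneg δ]
  have hN0 : 0 ≤ N := le_trans (Nat.cast_nonneg M) h6
  have hT0 : 0 ≤ T := by
    by_contra h
    push Not at h
    have : 0 < N * δ ^ 2 := lt_of_lt_of_le (by positivity) h7
    have hN1 : 0 < N := (mul_pos_iff_of_pos_right (pow_pos hδ 2)).1 this
    nlinarith
  refine abs_le_of_sq_le_sq' ?_ (by positivity) |>.2
  have h8 : N ^ 2 ≤ (2 * W * T) ^ 2 := by gcongr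
  have h9 : 4 * (W : ℝ) ^ 2 * (y : ℝ) ^ 2 ≤ 4 * (W : ℝ) ^ 2 * (δ * T) ^ 2 := by
    calc 4 * (W : ℝ) ^ 2 * (y : ℝ) ^ 2 ≤ 4 * (W : ℝ) ^ 2 * (4 * N) := by gcongr
      _ = 16 * (W : ℝ) ^ 2 * N := by ring
      _ ≤ N * δ ^ 2 * N := by gcongr
      _ = δ ^ 2 * N ^ 2 := by ring
      _ ≤ δ ^ 2 * (2 * W * T) ^ 2 := by gcongr
      _ = 4 * (W : ℝ) ^ 2 * (δ * T) ^ 2 := by ring
  exact le_of_mul_le_mul_left h9 (by positivity)

open Classical in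
/-- Few terms of a reduced progression are not typical. -/
theorem bad_one {ε : ℝ} (hε : 0 < ε) (k W E : ℕ) (hE : 3 ≤ E) (hW : 0 < W)
    (hWE : ∀ p, p.Prime → (p ∣ W ↔ p ≤ E)) : ∀ᶠ g : ℕ in atTop, ∀ i α : ℕ, g ≤ i → i ≤ 4 * g →
    2 ^ i < α → α ≤ 2 ^ i + W → α.Coprime W →
    (((range (2 ^ i / W)).filter fun t => ¬typ g (g ^ k) (α + W * t)).card : ℝ) ≤
      (2 / E + ε) * (2 ^ i / W : ℕ) := by
  filter_upwards [tk_ap (half_pos hε) k (2 * W), s0b_ev (half_pos hε) hW,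
    eventually_ge_atTop 1] with g h1 h2 hg i α hi hi' ha ha' hc
  obtain ⟨h3, h4, h5⟩ := h2 i hi
  have hWT : W * (2 ^ i / W) ≤ 2 ^ i := Nat.mul_div_le _ _
  have hpow : 2 ^ (i + 2) = 4 * 2 ^ i := by rw [pow_add]; ring
  have hsz : α + W * (2 ^ i / W) ≤ 2 ^ (i + 2) := by omega
  have h6 := h1 α W (2 ^ i / W) (lt_of_le_of_lt (Nat.zero_le _) ha)
    ((Nat.pow_le_pow_right (by norm_num) hi).trans h4)
    (hsz.trans (Nat.pow_le_pow_right (by norm_num) (by omega)))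
    (fun p _ hp => Or.inl ((Nat.le_of_dvd hW hp).trans (by omega)))
  have h7 := s0b_core g (g ^ k) α W (2 ^ i / W) E (Nat.sqrt (2 ^ (i + 2))) hE
    (fun t p hp hpE hdv => by
      have hpW : p ∣ W := (hWE p hp).2 hpE
      have hpa : p ∣ α := (Nat.dvd_add_left (hpW.mul_right t)).1 hdv
      exact hp.one_lt.ne' (Nat.eq_one_of_dvd_coprimes hc hpa hpW))
    (fun p hp hdv => Or.inl ((hWE p hp).1 hdv))
  have h8 := h5 (Nat.sqrt (2 ^ (i + 2))) (Nat.sqrt_le' _)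
  have h9 : ((range (2 ^ i / W)).filter fun t => ¬typ g (g ^ k) (α + W * t)) =
      (range (2 ^ i / W)).filter fun t => ¬typ g (g ^ k) (α + W * t) ∧
        ¬∃ p, p.Prime ∧ Nat.sqrt (2 ^ (i + 2)) < p ∧ p ^ 2 ∣ α + W * t := by
    refine filter_congr fun t ht => ⟨fun h => ⟨h, ?_⟩, fun h => h.1⟩
    rintro ⟨p, -, hp1, hp2⟩
    have a1 : p ^ 2 ≤ α + W * t := Nat.le_of_dvd (by omega) hp2
    have a2 : W * t ≤ W * (2 ^ i / W) := Nat.mul_le_mul_left _ (mem_range.1 ht).le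
    have a3 : p ≤ Nat.sqrt (2 ^ (i + 2)) := Nat.le_sqrt'.2 (by omega)
    omega
  rw [h9]
  have e : (2 / (E : ℝ) + ε) * (2 ^ i / W : ℕ) =
      2 * (2 ^ i / W : ℕ) / E + ε / 2 * (2 ^ i / W : ℕ) + ε / 2 * (2 ^ i / W : ℕ) := by ring
  rw [e]
  linarith

open Classical in
/-- Few values of `c` along a progression in `a` are not typical, apart from large squares. -/
theorem bad_c {ε : ℝ} (hε : 0 < ε) (k W1 E : ℕ) (hE : 3 ≤ E) (hW : 0 < W1)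
    (hWE : ∀ p, p.Prime → (p ∣ 2 * W1 ↔ p ≤ E)) : ∀ᶠ g : ℕ in atTop, ∀ i c0 P : ℕ, 3 * g ≤ i →
    P.Prime → 2 ^ g < P → c0.Coprime (2 * W1) →
    c0 + 4 * W1 * P * (2 ^ i / (64 * W1)) ≤ 2 ^ (41 * g) →
    (((range (2 ^ i / (64 * W1))).filter fun t => ¬typ g (g ^ k) (c0 + 4 * W1 * P * t) ∧
      ¬∃ p, p.Prime ∧ 2 ^ g < p ∧ p ^ 2 ∣ c0 + 4 * W1 * P * t).card : ℝ) ≤
      (2 / E + ε) * (2 ^ i / (64 * W1) : ℕ) := by
  filter_upwards [tk_ap (half_pos hε) k (2 * (64 * W1)),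
    s0b_ev (half_pos hε) (W := 64 * W1) (by omega)] with g h1 h2 i c0 P hi hP hPg hc hsz
  obtain ⟨-, h4, h5⟩ := h2 i (by omega)
  have hdv : ∀ p, p.Prime → p ∣ 4 * W1 * P → p ∣ 2 * W1 ∨ 2 ^ g < p := by
    intro p hp h
    rcases (Nat.Prime.dvd_mul hp).1 h with h | h
    · left
      have e : 4 * W1 = 2 * (2 * W1) := by ring
      rw [e] at h
      rcases (Nat.Prime.dvd_mul hp).1 h with h | h
      · exact h.mul_right _
      · exact h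
    · right
      rw [(Nat.prime_dvd_prime_iff_eq hp hP).1 h]
      exact hPg
  have hc0 : 0 < c0 := by
    rcases Nat.eq_zero_or_pos c0 with h | h
    · rw [h, Nat.coprime_zero_left] at hc
      omega
    · exact h
  have h6 := h1 c0 (4 * W1 * P) (2 ^ i / (64 * W1)) hc0
    ((Nat.pow_le_pow_right (by norm_num) (by omega)).trans h4) hsz
    (fun p hp h => (hdv p hp h).imp_left fun h' => (Nat.le_of_dvd (by omega) h').trans (by omega))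
  have h7 := s0b_core g (g ^ k) c0 (4 * W1 * P) (2 ^ i / (64 * W1)) E (2 ^ g) hE
    (fun t p hp hpE hd => by
      have hpW : p ∣ 2 * W1 := (hWE p hp).2 hpE
      have h2W : 2 * W1 ∣ 4 * W1 * P * t := ⟨2 * P * t, by ring⟩
      have hpa : p ∣ c0 := (Nat.dvd_add_left (hpW.trans h2W)).1 hd
      exact hp.one_lt.ne' (Nat.eq_one_of_dvd_coprimes hc hpa hpW))
    (fun p hp h => (hdv p hp h).imp_left (hWE p hp).1)
  have h8 := h5 (2 ^ g) (by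
    rw [← pow_mul]
    exact Nat.pow_le_pow_right (by norm_num) (by omega))
  have e : (2 / (E : ℝ) + ε) * (2 ^ i / (64 * W1) : ℕ) =
      2 * (2 ^ i / (64 * W1) : ℕ) / E + ε / 2 * (2 ^ i / (64 * W1) : ℕ) +
        ε / 2 * (2 ^ i / (64 * W1) : ℕ) := by ring
  rw [e]
  linarith

open Classical in
/-- Large square divisors are rare. -/
theorem big_sq (Y y : ℕ) :
    (((Icc 1 Y).filter fun c => ∃ p, p.Prime ∧ y < p ∧ p ^ 2 ∣ c).card : ℝ) ≤ 2 * Y / (y + 1) := by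
  have hsub : ((Icc 1 Y).filter fun c => ∃ p, p.Prime ∧ y < p ∧ p ^ 2 ∣ c) ⊆
      (Ioc y Y).biUnion fun p => (Ioc 0 Y).filter fun c => p ^ 2 ∣ c := by
    intro c hc
    rw [mem_filter, mem_Icc] at hc
    obtain ⟨⟨h1, h2⟩, p, -, hp1, hp2⟩ := hc
    have a1 : p ∣ c := (dvd_pow_self p two_ne_zero).trans hp2
    have a2 : p ≤ c := Nat.le_of_dvd (by omega) a1
    exact mem_biUnion.2 ⟨p, mem_Ioc.2 ⟨hp1, by omega⟩,
      mem_filter.2 ⟨mem_Ioc.2 ⟨by omega, h2⟩, hp2⟩⟩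
  have h1 := (card_le_card hsub).trans card_biUnion_le
  have h2 : (((Icc 1 Y).filter fun c => ∃ p, p.Prime ∧ y < p ∧ p ^ 2 ∣ c).card : ℝ) ≤
      ∑ p ∈ Ioc y Y, (((Ioc 0 Y).filter fun c => p ^ 2 ∣ c).card : ℝ) := by exact_mod_cast h1
  have h3 : ∑ p ∈ Ioc y Y, (((Ioc 0 Y).filter fun c => p ^ 2 ∣ c).card : ℝ) ≤
      ∑ p ∈ Ioc y Y, (Y : ℝ) * ((p : ℝ) ^ 2)⁻¹ := by
    refine sum_le_sum fun p _ => ?_
    rw [Nat.Ioc_filter_dvd_card_eq_div, ← div_eq_mul_inv]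
    have := @Nat.cast_div_le ℝ _ _ _ Y (p ^ 2)
    exact_mod_cast this
  have h4 := sum_inv_sq_le (Ioc y Y) y fun n hn => (mem_Ioc.1 hn).1
  rw [← mul_sum] at h3
  calc _ ≤ (Y : ℝ) * ∑ p ∈ Ioc y Y, ((p : ℝ) ^ 2)⁻¹ := h2.trans h3
    _ ≤ (Y : ℝ) * (2 / (y + 1)) := by gcongr
    _ = 2 * Y / (y + 1) := by ring

end Pool.Agent.Lib.MP_788af2_nt.R0
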