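import Pool.Agent.Lib.MP_788af2_nt.R0.S0a
import Pool.Agent.Lib.MP_788af2_nt.R0.S0b

namespace Pool.Agent.Lib.MP_788af2_nt.R0

open Finset Filter
open scoped NumberTheorySymbols

/-! From a pre-cell to a cell. -/

lemma s0c_hi {i α W s : ℕ} (hα : α ≤ 2 ^ i + W) (hs : s < 2 ^ i / W) :
    α + W * s ≤ 2 ^ (i + 1) := by
  have h1 : W * (s + 1) ≤ W * (2 ^ i / W) := Nat.mul_le_mul_left _ hs
  have h2 : W * (2 ^ i / W) ≤ 2 ^ i := Nat.mul_div_le _ _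
  rw [pow_succ]
  rw [mul_add] at h1
  omega

lemma s0c_inj {a a' P P' : ℕ} (hP : P.Prime) (hP' : P'.Prime) (h0 : 0 < a) (h0' : 0 < a')
    (ha : a < P) (ha' : a' < P') (h : a * P = a' * P') : a = a' ∧ P = P' := by
  have key : P = P' := by
    by_contra hne
    have h1 : P ∣ a' * P' := h ▸ Dvd.intro_left _ rfl
    have h2 : P' ∣ a * P := h ▸ Dvd.intro_left _ rfl
    rcases (Nat.Prime.dvd_mul hP).1 h1 with h3 | h3
    · rcases (Nat.Prime.dvd_mul hP').1 h2 with h4 | h4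
      · have := Nat.le_of_dvd h0' h3
        have := Nat.le_of_dvd h0 h4
        omega
      · exact hne ((Nat.prime_dvd_prime_iff_eq hP' hP).1 h4).symm
    · exact hne ((Nat.prime_dvd_prime_iff_eq hP hP').1 h3)
  subst key
  exact ⟨Nat.eq_of_mul_eq_mul_right hP.pos h, rfl⟩

/-- The data of a pre-cell. -/
structure s0cPre (g W1 i j α β : ℕ) (SP SQ : Finset ℕ) : Prop where
  hg : 10 ≤ g
  hW : 0 < W1
  hWE : ∀ p, p.Prime → (p ∣ 2 * W1 ↔ p ≤ 2000)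
  hodd : Odd W1
  hbig : 64 * W1 * (10000 * g) ≤ 2 ^ g
  hi : 3 * g ≤ i
  hi' : i < 4 * g
  hj : g ≤ j
  hj' : j < 2 * g
  a1 : 2 ^ i < α
  a2 : α ≤ 2 ^ i + 64 * W1
  b1 : 2 ^ j < β
  b2 : β ≤ 2 ^ j + 64 * W1
  hP : ∀ P ∈ SP, P.Prime ∧ 8 * XX g < 2 ^ i * P ∧ 2 ^ i * P ≤ 32 * XX g ∧ α * P ≡ 17 [MOD 64] ∧
      α * P ≡ 1 [MOD W1]
  hQ : ∀ Q ∈ SQ, Q.Prime ∧ XX g < 2 ^ j * Q ∧ 2 ^ j * Q ≤ 4 * XX g ∧ β * Q ≡ 1 [MOD 64] ∧
      W1 ∣ β * Q + 1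

/-- The third number. -/
def s0cc (W1 α β s t P Q : ℕ) : ℕ := ((α + 64 * W1 * s) * P - (β + 64 * W1 * t) * Q) / 16

lemma s0c_dvd64 {W1 p : ℕ} (hp : p.Prime) : p ∣ 64 * W1 ↔ p ∣ 2 * W1 := by
  constructor
  · intro h
    rcases (Nat.Prime.dvd_mul hp).1 h with h1 | h1
    · have h2 : p ∣ 2 ^ 6 := by simpa using h1
      exact Dvd.dvd.mul_right (hp.dvd_of_dvd_pow h2) _
    · exact Dvd.dvd.mul_left h1 _
  · intro h
    exact h.trans (Nat.mul_dvd_mul_right (by norm_num) _)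

namespace s0cPre

variable {g W1 i j α β : ℕ} {SP SQ : Finset ℕ} (H : s0cPre g W1 i j α β SP SQ)
include H

lemma three : 3 ∣ W1 := by
  have h := (H.hWE 3 Nat.prime_three).2 (by norm_num)
  exact (Nat.Coprime.dvd_mul_left (by norm_num)).1 h

lemma a_lt {s P : ℕ} (hs : s < 2 ^ i / (64 * W1)) (hP : P ∈ SP) : α + 64 * W1 * s < P := by
  have h1 := s0c_hi H.a2 hs
  have h2 := (H.hP P hP).2.1
  have h3 : 2 ^ i * 2 ^ (i + 1) ≤ XX g := by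
    rw [← pow_add]
    exact Nat.pow_le_pow_right (by norm_num) (by have := H.hi'; omega)
  by_contra hc
  have h4 : 2 ^ i * P ≤ 2 ^ i * 2 ^ (i + 1) := Nat.mul_le_mul_left _ (by omega)
  omega

lemma b_lt {t Q : ℕ} (ht : t < 2 ^ j / (64 * W1)) (hQ : Q ∈ SQ) : β + 64 * W1 * t < Q := by
  have h1 := s0c_hi H.b2 ht
  have h2 := (H.hQ Q hQ).2.1
  have h3 : 2 ^ j * 2 ^ (j + 1) ≤ XX g := by
    rw [← pow_add]
    exact Nat.pow_le_pow_right (by norm_num) (by have := H.hj'; omega)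
  by_contra hc
  have h4 : 2 ^ j * Q ≤ 2 ^ j * 2 ^ (j + 1) := Nat.mul_le_mul_left _ (by omega)
  omega

lemma aP_lo (s : ℕ) {P : ℕ} (hP : P ∈ SP) : 8 * XX g < (α + 64 * W1 * s) * P := by
  have h2 := (H.hP P hP).2.1
  have h3 : 2 ^ i * P ≤ (α + 64 * W1 * s) * P :=
    Nat.mul_le_mul_right _ (by have := H.a1; omega)
  omega

lemma aP_hi {s P : ℕ} (hs : s < 2 ^ i / (64 * W1)) (hP : P ∈ SP) :
    (α + 64 * W1 * s) * P ≤ 64 * XX g := by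
  have h2 := (H.hP P hP).2.2.1
  have h3 : (α + 64 * W1 * s) * P ≤ 2 ^ (i + 1) * P := Nat.mul_le_mul_right _ (s0c_hi H.a2 hs)
  rw [pow_succ, mul_comm (2 ^ i) 2, mul_assoc 2] at h3
  omega

lemma bQ_hi {t Q : ℕ} (ht : t < 2 ^ j / (64 * W1)) (hQ : Q ∈ SQ) :
    (β + 64 * W1 * t) * Q ≤ 8 * XX g := by
  have h2 := (H.hQ Q hQ).2.2.1
  have h3 : (β + 64 * W1 * t) * Q ≤ 2 ^ (j + 1) * Q := Nat.mul_le_mul_right _ (s0c_hi H.b2 ht)
  rw [pow_succ, mul_comm (2 ^ j) 2, mul_assoc 2] at h3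
  omega

lemma aP64 (s : ℕ) {P : ℕ} (hP : P ∈ SP) : (α + 64 * W1 * s) * P % 64 = 17 := by
  have h : α * P % 64 = 17 := (H.hP P hP).2.2.2.1
  have e : (α + 64 * W1 * s) * P = α * P + 64 * (W1 * s * P) := by ring
  omega

lemma bQ64 (t : ℕ) {Q : ℕ} (hQ : Q ∈ SQ) : (β + 64 * W1 * t) * Q % 64 = 1 := by
  have h : β * Q % 64 = 1 := (H.hQ Q hQ).2.2.2.1
  have e : (β + 64 * W1 * t) * Q = β * Q + 64 * (W1 * t * Q) := by ring
  omega

lemma aPW (s : ℕ) {P : ℕ} (hP : P ∈ SP) : (α + 64 * W1 * s) * P ≡ 1 [MOD W1] := by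
  have e : (α + 64 * W1 * s) * P = α * P + (64 * s * P) * W1 := by ring
  rw [e]
  exact (Nat.add_mul_modulus_modEq_iff.2 (H.hP P hP).2.2.2.2)

lemma bQW (t : ℕ) {Q : ℕ} (hQ : Q ∈ SQ) : W1 ∣ (β + 64 * W1 * t) * Q + 1 := by
  have e : (β + 64 * W1 * t) * Q + 1 = β * Q + 1 + W1 * (64 * t * Q) := by ring
  rw [e]
  exact dvd_add (H.hQ Q hQ).2.2.2.2 (Dvd.intro _ rfl)

lemma aP192 (s : ℕ) {P : ℕ} (hP : P ∈ SP) : (α + 64 * W1 * s) * P % 192 = 145 := by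
  have h1 := H.aP64 s hP
  have h2 : (α + 64 * W1 * s) * P % 3 = 1 := (H.aPW s hP).of_dvd H.three
  omega

lemma bQ192 (t : ℕ) {Q : ℕ} (hQ : Q ∈ SQ) : (β + 64 * W1 * t) * Q % 192 = 65 := by
  have h1 := H.bQ64 t hQ
  have h2 := H.three.trans (H.bQW t hQ)
  omega

lemma cop_a (s : ℕ) {P : ℕ} (hP : P ∈ SP) : (α + 64 * W1 * s).Coprime (64 * W1) := by
  refine Nat.Coprime.coprime_mul_right (k := P) (Nat.Coprime.mul_right ?_ ?_)
  · have h1 := H.aP64 s hP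
    have h2 : ((α + 64 * W1 * s) * P).Coprime (2 ^ 6) :=
      Nat.Coprime.pow_right _ ((Nat.coprime_two_right).2 (Nat.odd_iff.2 (by omega)))
    simpa using h2
  · exact Nat.coprime_of_mul_modEq_one 1 (by simpa using H.aPW s hP)

lemma cop_b (t : ℕ) {Q : ℕ} (hQ : Q ∈ SQ) : (β + 64 * W1 * t).Coprime (64 * W1) := by
  refine Nat.Coprime.coprime_mul_right (k := Q) (Nat.Coprime.mul_right ?_ ?_)
  · have h1 := H.bQ64 t hQ
    have h2 : ((β + 64 * W1 * t) * Q).Coprime (2 ^ 6) :=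
      Nat.Coprime.pow_right _ ((Nat.coprime_two_right).2 (Nat.odd_iff.2 (by omega)))
    simpa using h2
  · refine Nat.coprime_of_dvd fun p hp h1 h2 => ?_
    have h3 := h2.trans (H.bQW t hQ)
    exact hp.one_lt.ne' (Nat.dvd_one.1 ((Nat.dvd_add_right h1).1 h3))

lemma c_eq (s : ℕ) {t P Q : ℕ} (ht : t < 2 ^ j / (64 * W1)) (hP : P ∈ SP) (hQ : Q ∈ SQ) :
    (α + 64 * W1 * s) * P = (β + 64 * W1 * t) * Q + 16 * s0cc W1 α β s t P Q ∧
      s0cc W1 α β s t P Q % 4 = 1 := by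
  have h1 := H.aP64 s hP
  have h2 := H.bQ64 t hQ
  have h3 := H.aP_lo s hP
  have h4 := H.bQ_hi ht hQ
  unfold s0cc
  omega

lemma c_mem {s t P Q : ℕ} (hs : s < 2 ^ i / (64 * W1)) (ht : t < 2 ^ j / (64 * W1)) (hP : P ∈ SP)
    (hQ : Q ∈ SQ) : s0cc W1 α β s t P Q ∈ Icc 1 (4 * XX g) := by
  have h1 := H.c_eq s ht hP hQ
  have h2 := H.aP_hi hs hP
  rw [mem_Icc]
  omega

lemma c_cop (s : ℕ) {t P Q : ℕ} (ht : t < 2 ^ j / (64 * W1)) (hP : P ∈ SP) (hQ : Q ∈ SQ) :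
    (s0cc W1 α β s t P Q).Coprime (2 * W1) := by
  obtain ⟨h1, h2⟩ := H.c_eq s ht hP hQ
  refine Nat.Coprime.mul_right ((Nat.coprime_two_right).2 (Nat.odd_iff.2 (by omega))) ?_
  refine Nat.coprime_of_dvd fun p hp h3 h4 => ?_
  have h5 := h4.trans (H.bQW t hQ)
  have h6 : (α + 64 * W1 * s) * P ≡ 1 [MOD p] := (H.aPW s hP).of_dvd h4
  have h7 : p ∣ (α + 64 * W1 * s) * P + 1 := by
    have e : (α + 64 * W1 * s) * P + 1 =
      (β + 64 * W1 * t) * Q + 1 + 16 * s0cc W1 α β s t P Q := by omega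
    rw [e]
    exact dvd_add h5 (Dvd.dvd.mul_left h3 _)
  have h8 : p ∣ 1 + 1 := (Nat.modEq_zero_iff_dvd).1
    ((h6.add_right 1).symm.trans ((Nat.modEq_zero_iff_dvd).2 h7))
  have h9 : p = 2 := (Nat.prime_dvd_prime_iff_eq hp Nat.prime_two).1 h8
  subst h9
  exact (Nat.not_even_iff_odd.2 H.hodd) (even_iff_two_dvd.2 h4)

lemma c_lin (s : ℕ) {t P Q : ℕ} (ht : t < 2 ^ j / (64 * W1)) (hP : P ∈ SP) (hQ : Q ∈ SQ) :
    s0cc W1 α β s t P Q = s0cc W1 α β 0 t P Q + 4 * W1 * P * s := by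
  have h1 := (H.c_eq s ht hP hQ).1
  have h2 := (H.c_eq 0 ht hP hQ).1
  have e : (α + 64 * W1 * s) * P = (α + 64 * W1 * 0) * P + 16 * (4 * W1 * P * s) := by ring
  omega

lemma TB_ge : 10000 * g ≤ 2 ^ j / (64 * W1) := by
  have hW := H.hW
  rw [Nat.le_div_iff_mul_le (by omega), mul_comm]
  exact H.hbig.trans (Nat.pow_le_pow_right (by norm_num) H.hj)

lemma TA_ge : 2 ^ (2 * g) * (10000 * g) ≤ 2 ^ i / (64 * W1) := by
  have hW := H.hW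
  rw [Nat.le_div_iff_mul_le (by omega), mul_assoc, mul_comm (10000 * g)]
  refine (Nat.mul_le_mul_left _ H.hbig).trans ?_
  rw [← pow_add]
  exact Nat.pow_le_pow_right (by norm_num) (by have := H.hi; omega)

lemma W_le : 64 * W1 ≤ 2 ^ i := by
  have h1 : 64 * W1 * 1 ≤ 64 * W1 * (10000 * g) := Nat.mul_le_mul_left _ (by have := H.hg; omega)
  have h2 : 2 ^ g ≤ 2 ^ i := Nat.pow_le_pow_right (by norm_num) (by have := H.hi; omega)
  have := H.hbig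
  omega

lemma c_top {t P Q : ℕ} (ht : t < 2 ^ j / (64 * W1)) (hP : P ∈ SP) (hQ : Q ∈ SQ) :
    s0cc W1 α β 0 t P Q + 4 * W1 * P * (2 ^ i / (64 * W1)) ≤ 2 ^ (41 * g) := by
  rw [← H.c_lin _ ht hP hQ]
  have h1 := (H.c_eq (2 ^ i / (64 * W1)) ht hP hQ).1
  have h2 : 64 * W1 * (2 ^ i / (64 * W1)) ≤ 2 ^ i := Nat.mul_div_le _ _
  have h3 : (α + 64 * W1 * (2 ^ i / (64 * W1))) * P ≤ 3 * 2 ^ i * P :=
    Nat.mul_le_mul_right _ (by have := H.a2; have := H.W_le; omega)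
  have h4 := (H.hP P hP).2.2.1
  have h5 : 2 ^ 3 * XX g ≤ 2 ^ (41 * g) := by
    unfold XX
    rw [← pow_add]
    exact Nat.pow_le_pow_right (by norm_num) (by have := H.hg; omega)
  rw [mul_assoc 3] at h3
  omega

/-- The cell attached to a pre-cell. -/
noncomputable def cell (Z : ℕ) : Cell g Z where
  i := i
  j := j
  SA := ((range (2 ^ i / (64 * W1))).filter fun s => typ g Z (α + 64 * W1 * s)).image
    fun s => α + 64 * W1 * s
  SB := ((range (2 ^ j / (64 * W1))).filter fun t => typ g Z (β + 64 * W1 * t)).image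
    fun t => β + 64 * W1 * t
  SP := SP
  SQ := SQ
  hi := H.hi
  hi' := H.hi'
  hj := H.hj
  hj' := H.hj'
  hA := by
    intro a ha
    obtain ⟨s, hs, rfl⟩ := mem_image.1 ha
    obtain ⟨h1, h2⟩ := mem_filter.1 hs
    exact ⟨by have := H.a1; omega, s0c_hi H.a2 (mem_range.1 h1), h2⟩
  hB := by
    intro b hb
    obtain ⟨t, ht, rfl⟩ := mem_image.1 hb
    obtain ⟨h1, h2⟩ := mem_filter.1 ht
    exact ⟨by have := H.b1; omega, s0c_hi H.b2 (mem_range.1 h1), h2⟩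
  hP := fun P hP => ⟨(H.hP P hP).1, (H.hP P hP).2.1, (H.hP P hP).2.2.1⟩
  hQ := fun Q hQ => ⟨(H.hQ Q hQ).1, (H.hQ Q hQ).2.1, (H.hQ Q hQ).2.2.1⟩
  mA := by
    intro a ha P hP
    obtain ⟨s, -, rfl⟩ := mem_image.1 ha
    exact H.aP192 s hP
  mB := by
    intro b hb Q hQ
    obtain ⟨t, -, rfl⟩ := mem_image.1 hb
    exact H.bQ192 t hQ

end s0cPre

/-- Sums over four variables. -/
noncomputable def s0cS (A B SP SQ : Finset ℕ) (f : ℕ → ℕ → ℕ → ℕ → ℝ) : ℝ :=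
  ∑ s ∈ A, ∑ t ∈ B, ∑ P ∈ SP, ∑ Q ∈ SQ, f s t P Q

lemma s0cS_mono {A B SP SQ : Finset ℕ} {f f' : ℕ → ℕ → ℕ → ℕ → ℝ}
    (h : ∀ s ∈ A, ∀ t ∈ B, ∀ P ∈ SP, ∀ Q ∈ SQ, f s t P Q ≤ f' s t P Q) :
    s0cS A B SP SQ f ≤ s0cS A B SP SQ f' :=
  sum_le_sum fun s hs => sum_le_sum fun t ht => sum_le_sum fun P hP => sum_le_sum fun Q hQ =>
    h s hs t ht P hP Q hQ

lemma s0cS_add (A B SP SQ : Finset ℕ) (f f' : ℕ → ℕ → ℕ → ℕ → ℝ) :
    s0cS A B SP SQ (fun s t P Q => f s t P Q + f' s t P Q) =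
      s0cS A B SP SQ f + s0cS A B SP SQ f' := by
  simp only [s0cS, sum_add_distrib]

lemma s0cS_mul (A B SP SQ : Finset ℕ) (r : ℝ) (f : ℕ → ℕ → ℕ → ℕ → ℝ) :
    s0cS A B SP SQ (fun s t P Q => r * f s t P Q) = r * s0cS A B SP SQ f := by
  simp only [s0cS, mul_sum]

lemma s0cS_PQ (A B SP SQ : Finset ℕ) (f : ℕ → ℕ → ℕ → ℕ → ℝ) :
    s0cS A B SP SQ f = ∑ P ∈ SP, ∑ Q ∈ SQ, ∑ x ∈ A ×ˢ B, f x.1 x.2 P Q := by
  unfold s0cS
  rw [← sum_product' A B fun s t => ∑ P ∈ SP, ∑ Q ∈ SQ, f s t P Q, sum_comm]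
  exact sum_congr rfl fun P _ => sum_comm

lemma s0cS_le {A B SP SQ : Finset ℕ} {f : ℕ → ℕ → ℕ → ℕ → ℝ} {M : ℝ}
    (h : ∀ P ∈ SP, ∀ Q ∈ SQ, ∑ x ∈ A ×ˢ B, f x.1 x.2 P Q ≤ M) :
    s0cS A B SP SQ f ≤ M * SP.card * SQ.card := by
  rw [s0cS_PQ]
  refine (sum_le_sum fun P hP => sum_le_sum fun Q hQ => h P hP Q hQ).trans (le_of_eq ?_)
  simp only [sum_const, nsmul_eq_mul]
  ring

lemma s0cS_sPtQ (A B SP SQ : Finset ℕ) (f : ℕ → ℕ → ℕ → ℕ → ℝ) :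
    s0cS A B SP SQ f = ∑ x ∈ A ×ˢ SP, ∑ y ∈ B ×ˢ SQ, f x.1 y.1 x.2 y.2 := by
  unfold s0cS
  rw [sum_product]
  refine sum_congr rfl fun s _ => ?_
  rw [sum_comm]
  exact sum_congr rfl fun P _ => (sum_product B SQ fun y => f s y.1 P y.2).symm

namespace s0cPre

variable {g W1 i j α β : ℕ} {SP SQ : Finset ℕ} (H : s0cPre g W1 i j α β SP SQ)
include H

open Classical in
lemma FS_ge (Z : ℕ) : s0cS (range (2 ^ i / (64 * W1))) (range (2 ^ j / (64 * W1))) SP SQ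
    (fun s t P Q => if typ g Z (α + 64 * W1 * s) ∧ typ g Z (β + 64 * W1 * t) ∧
      (α + 64 * W1 * s).Coprime (β + 64 * W1 * t) ∧ typ g Z (s0cc W1 α β s t P Q) then
        (WW g (s0cc W1 α β s t P Q) : ℝ) else 0) ≤ FS (H.cell Z) fun _ _ _ _ c => WW g c := by
  have hW := H.hW
  have inj : ∀ (γ : ℕ) (S : Finset ℕ), Set.InjOn (fun s => γ + 64 * W1 * s) S := by
    intro γ S x _ y _ h
    exact Nat.eq_of_mul_eq_mul_left (by omega) (Nat.add_left_cancel h)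
  unfold FS s0cS
  simp only [cell]
  rw [sum_image (inj _ _), sum_filter]
  refine sum_le_sum fun s hs => ?_
  by_cases h1 : typ g Z (α + 64 * W1 * s)
  swap
  · simp [h1]
  rw [if_pos h1, sum_image (inj _ _), sum_filter]
  refine sum_le_sum fun t ht => ?_
  by_cases h2 : typ g Z (β + 64 * W1 * t)
  swap
  · simp [h2]
  rw [if_pos h2]
  refine sum_le_sum fun P hP => sum_le_sum fun Q hQ => ?_
  refine le_trans ?_ (single_le_sum (f := fun c => if (α + 64 * W1 * s).Coprime (β + 64 * W1 * t) ∧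
    (α + 64 * W1 * s) * P = (β + 64 * W1 * t) * Q + 16 * c ∧ typ g Z c then (WW g c : ℝ) else 0)
    (fun c _ => by split_ifs <;> positivity)
    (H.c_mem (mem_range.1 hs) (mem_range.1 ht) hP hQ))
  have h3 := (H.c_eq s (mem_range.1 ht) hP hQ).1
  simp only [h1, h2, true_and]
  rw [if_congr (Iff.intro (fun h => (⟨h.1, h3, h.2⟩ : _ ∧ _ ∧ _)) fun h => ⟨h.1, h.2.2⟩) rfl rfl]

lemma injA : Set.InjOn (fun x : ℕ × ℕ => (α + 64 * W1 * x.1) * x.2)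
    (range (2 ^ i / (64 * W1)) ×ˢ SP : Finset (ℕ × ℕ)) := by
  rintro ⟨s, P⟩ hx ⟨s', P'⟩ hy h
  obtain ⟨h1, h2⟩ := mem_product.1 (mem_coe.1 hx)
  obtain ⟨h3, h4⟩ := mem_product.1 (mem_coe.1 hy)
  have hW := H.hW
  have ha : 0 < α := lt_of_le_of_lt (Nat.zero_le _) H.a1
  obtain ⟨h5, h6⟩ := s0c_inj (H.hP P h2).1 (H.hP P' h4).1 (by omega) (by omega)
    (H.a_lt (mem_range.1 h1) h2) (H.a_lt (mem_range.1 h3) h4) h
  exact Prod.ext (Nat.eq_of_mul_eq_mul_left (by omega) (Nat.add_left_cancel h5)) h6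

lemma injB : Set.InjOn (fun x : ℕ × ℕ => (β + 64 * W1 * x.1) * x.2)
    (range (2 ^ j / (64 * W1)) ×ˢ SQ : Finset (ℕ × ℕ)) := by
  rintro ⟨s, P⟩ hx ⟨s', P'⟩ hy h
  obtain ⟨h1, h2⟩ := mem_product.1 (mem_coe.1 hx)
  obtain ⟨h3, h4⟩ := mem_product.1 (mem_coe.1 hy)
  have hW := H.hW
  have hb : 0 < β := lt_of_le_of_lt (Nat.zero_le _) H.b1
  obtain ⟨h5, h6⟩ := s0c_inj (H.hQ P h2).1 (H.hQ P' h4).1 (by omega) (by omega)
    (H.b_lt (mem_range.1 h1) h2) (H.b_lt (mem_range.1 h3) h4) h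
  exact Prod.ext (Nat.eq_of_mul_eq_mul_left (by omega) (Nat.add_left_cancel h5)) h6

lemma main_ge (hd : ∀ 𝒜 ℬ : Finset ℕ, 𝒜 ⊆ Icc 1 (64 * XX g) → ℬ ⊆ Icc 1 (64 * XX g) →
    (𝒜.card * ℬ.card : ℝ) / 20 - (XX g : ℝ) ^ 2 / 2 ^ g ≤
      ∑ x ∈ 𝒜, ∑ y ∈ ℬ, (((RR g).filter fun R => x ≡ y [MOD R]).card : ℝ)) :
    ((2 ^ i / (64 * W1) : ℕ) * (2 ^ j / (64 * W1) : ℕ) * SP.card * SQ.card : ℝ) / 20 -
      (XX g : ℝ) ^ 2 / 2 ^ g ≤
      s0cS (range (2 ^ i / (64 * W1))) (range (2 ^ j / (64 * W1))) SP SQ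
        fun s t P Q => (WW g (s0cc W1 α β s t P Q) : ℝ) := by
  have h := hd ((range (2 ^ i / (64 * W1)) ×ˢ SP).image fun x => (α + 64 * W1 * x.1) * x.2)
    ((range (2 ^ j / (64 * W1)) ×ˢ SQ).image fun x => (β + 64 * W1 * x.1) * x.2) (by
      intro x hx
      obtain ⟨⟨s, P⟩, h1, rfl⟩ := mem_image.1 hx
      obtain ⟨h2, h3⟩ := mem_product.1 h1
      exact mem_Icc.2 ⟨lt_of_le_of_lt (Nat.zero_le _) (H.aP_lo s h3),
        H.aP_hi (mem_range.1 h2) h3⟩) (by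
      intro x hx
      obtain ⟨⟨t, Q⟩, h1, rfl⟩ := mem_image.1 hx
      obtain ⟨h2, h3⟩ := mem_product.1 h1
      have h4 := H.bQ_hi (mem_range.1 h2) h3
      have h5 := H.bQ64 t h3
      dsimp only at h4 h5 ⊢
      exact mem_Icc.2 ⟨by omega, by omega⟩)
  rw [card_image_of_injOn H.injA, card_image_of_injOn H.injB, card_product, card_product,
    card_range, card_range, sum_image H.injA] at h
  rw [s0cS_sPtQ]
  refine le_trans (le_of_eq ?_) (h.trans (sum_le_sum fun x hx => ?_))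
  · push_cast
    ring
  rw [sum_image H.injB]
  refine sum_le_sum fun y hy => ?_
  obtain ⟨-, h3⟩ := mem_product.1 hx
  obtain ⟨h4, h5⟩ := mem_product.1 hy
  have h6 := (H.c_eq x.1 (mem_range.1 h4) h3 h5).1
  unfold WW
  refine Nat.cast_le.2 (card_le_card fun R hR => ?_)
  obtain ⟨h7, h8⟩ := mem_filter.1 hR
  refine mem_filter.2 ⟨h7, ?_⟩
  obtain ⟨h9, h10⟩ := mem_filter.1 h7
  rw [h6] at h8
  have h11 : R ∣ 16 * s0cc W1 α β x.1 y.1 x.2 y.2 := by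
    have := (Nat.modEq_iff_dvd' (Nat.le_add_right _ _)).1 h8.symm
    simpa using this
  rcases (Nat.Prime.dvd_mul h10).1 h11 with h12 | h12
  · exfalso
    have h13 : R ∣ 2 ^ 4 := by simpa using h12
    have h14 := Nat.le_of_dvd (by norm_num) (h10.dvd_of_dvd_pow h13)
    have h15 : 2 ^ 1 ≤ 2 ^ (9 * g) :=
      Nat.pow_le_pow_right (by norm_num) (by have := H.hg; omega)
    have := (mem_Ioc.1 h9).1
    omega
  · exact h12

open Classical in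
lemma badA {Z : ℕ} {δ : ℝ} (h : α.Coprime (64 * W1) →
    (((range (2 ^ i / (64 * W1))).filter fun t => ¬typ g Z (α + 64 * W1 * t)).card : ℝ) ≤
      δ * (2 ^ i / (64 * W1) : ℕ)) :
    s0cS (range (2 ^ i / (64 * W1))) (range (2 ^ j / (64 * W1))) SP SQ
      (fun s _ _ _ => if ¬typ g Z (α + 64 * W1 * s) then 1 else 0) ≤
      δ * (2 ^ i / (64 * W1) : ℕ) * (2 ^ j / (64 * W1) : ℕ) * SP.card * SQ.card := by
  refine s0cS_le fun P hP Q _ => ?_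
  have h1 := h (by simpa using H.cop_a 0 hP)
  rw [sum_product_right]
  simp only [sum_boole, sum_const, card_range, nsmul_eq_mul]
  rw [mul_comm]
  exact mul_le_mul_of_nonneg_right h1 (Nat.cast_nonneg _)

open Classical in
lemma badB {Z : ℕ} {δ : ℝ} (h : β.Coprime (64 * W1) →
    (((range (2 ^ j / (64 * W1))).filter fun t => ¬typ g Z (β + 64 * W1 * t)).card : ℝ) ≤
      δ * (2 ^ j / (64 * W1) : ℕ)) :
    s0cS (range (2 ^ i / (64 * W1))) (range (2 ^ j / (64 * W1))) SP SQ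
      (fun _ t _ _ => if ¬typ g Z (β + 64 * W1 * t) then 1 else 0) ≤
      δ * (2 ^ i / (64 * W1) : ℕ) * (2 ^ j / (64 * W1) : ℕ) * SP.card * SQ.card := by
  refine s0cS_le fun P _ Q hQ => ?_
  have h1 := h (by simpa using H.cop_b 0 hQ)
  rw [sum_product]
  simp only [sum_boole, sum_const, card_range, nsmul_eq_mul]
  rw [mul_comm δ, mul_assoc]
  exact mul_le_mul_of_nonneg_left h1 (Nat.cast_nonneg _)

open Classical in
lemma badC {Z : ℕ} {δ : ℝ} (h : ∀ c0 P : ℕ, P.Prime → 2 ^ g < P → c0.Coprime (2 * W1) →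
    c0 + 4 * W1 * P * (2 ^ i / (64 * W1)) ≤ 2 ^ (41 * g) →
    (((range (2 ^ i / (64 * W1))).filter fun t => ¬typ g Z (c0 + 4 * W1 * P * t) ∧
      ¬∃ p, p.Prime ∧ 2 ^ g < p ∧ p ^ 2 ∣ c0 + 4 * W1 * P * t).card : ℝ) ≤
      δ * (2 ^ i / (64 * W1) : ℕ)) :
    s0cS (range (2 ^ i / (64 * W1))) (range (2 ^ j / (64 * W1))) SP SQ
      (fun s t P Q => if ¬typ g Z (s0cc W1 α β s t P Q) ∧
        ¬∃ p, p.Prime ∧ 2 ^ g < p ∧ p ^ 2 ∣ s0cc W1 α β s t P Q then 1 else 0) ≤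
      δ * (2 ^ i / (64 * W1) : ℕ) * (2 ^ j / (64 * W1) : ℕ) * SP.card * SQ.card := by
  refine s0cS_le fun P hP Q hQ => ?_
  rw [sum_product_right]
  refine (sum_le_card_nsmul _ _ (δ * (2 ^ i / (64 * W1) : ℕ)) fun t ht => ?_).trans
    (le_of_eq (by rw [card_range, nsmul_eq_mul, mul_comm]))
  have ht' := mem_range.1 ht
  have hpos : 0 < 2 ^ i / (64 * W1) := by
    have h1 := H.TA_ge
    have h2 : 0 < 2 ^ (2 * g) * (10000 * g) := by have := H.hg; positivity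
    omega
  have hP1 : 2 ^ g < P := by
    have h1 := H.a_lt hpos hP
    have h2 : 2 ^ g ≤ 2 ^ i := Nat.pow_le_pow_right (by norm_num) (by have := H.hi; omega)
    have := H.a1
    omega
  have h1 := h (s0cc W1 α β 0 t P Q) P (H.hP P hP).1 hP1 (H.c_cop 0 ht' hP hQ) (H.c_top ht' hP hQ)
  refine le_trans (le_of_eq ?_) h1
  rw [← sum_boole]
  refine sum_congr rfl fun s _ => ?_
  rw [← H.c_lin s ht' hP hQ]

open Classical in
lemma badG : s0cS (range (2 ^ i / (64 * W1))) (range (2 ^ j / (64 * W1))) SP SQ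
      (fun s t _ _ => if ¬(α + 64 * W1 * s).Coprime (β + 64 * W1 * t) then 1 else 0) ≤
      2 / 1000 * (2 ^ i / (64 * W1) : ℕ) * (2 ^ j / (64 * W1) : ℕ) * SP.card * SQ.card := by
  refine s0cS_le fun P hP Q _ => ?_
  have h := gcd_ap α β (64 * W1) (2 ^ i / (64 * W1)) (2 ^ j / (64 * W1)) 2000 (2 ^ (2 * g))
    (by norm_num) fun p hp h => (H.hWE p hp).1 ((s0c_dvd64 hp).1 h)
  rw [sum_boole]
  refine le_trans (Nat.cast_le.2 (card_le_card fun x hx => ?_)) (h.trans ?_)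
  · obtain ⟨h1, h2⟩ := mem_filter.1 hx
    refine mem_filter.2 ⟨h1, ?_⟩
    obtain ⟨p, hp, h3, h4⟩ := Nat.Prime.not_coprime_iff_dvd.1 h2
    refine ⟨p, mem_Ioc.2 ⟨?_, ?_⟩, hp, h3, h4⟩
    · by_contra hc
      have h5 := (s0c_dvd64 hp).2 ((H.hWE p hp).2 (by omega))
      exact hp.one_lt.ne' (Nat.eq_one_of_dvd_coprimes (H.cop_a x.1 hP) h3 h5)
    · have hb : 0 < β := lt_of_le_of_lt (Nat.zero_le _) H.b1
      have h5 := Nat.le_of_dvd (by omega) h4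
      have h6 := s0c_hi H.b2 (mem_range.1 (mem_product.1 h1).2)
      have h7 : 2 ^ (j + 1) ≤ 2 ^ (2 * g) :=
        Nat.pow_le_pow_right (by norm_num) (by have := H.hj'; omega)
      omega
  · have hA : ((2 ^ (2 * g) : ℕ) : ℝ) * (10000 * g) ≤ (2 ^ i / (64 * W1) : ℕ) := by
      exact_mod_cast H.TA_ge
    have hB : (10000 * g : ℝ) ≤ (2 ^ j / (64 * W1) : ℕ) := by exact_mod_cast H.TB_ge
    have hg : (10 : ℝ) ≤ g := by exact_mod_cast H.hg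
    have hy : (1 : ℝ) ≤ ((2 ^ (2 * g) : ℕ) : ℝ) := by exact_mod_cast Nat.one_le_two_pow
    have hl : 1 + Real.log ((2 ^ (2 * g) : ℕ) : ℝ) ≤ 3 * g := by
      rw [Nat.cast_pow, Real.log_pow]
      have := Real.log_two_lt_d9
      push_cast
      nlinarith
    generalize ((2 ^ (2 * g) : ℕ) : ℝ) = y at *
    generalize ((2 ^ i / (64 * W1) : ℕ) : ℝ) = TA at *
    generalize ((2 ^ j / (64 * W1) : ℕ) : ℝ) = TB at *
    have hA' : 10000 * (g : ℝ) ≤ TA := by nlinarith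
    have h1 : (TA + TB) * (1 + Real.log y) ≤ (TA + TB) * (3 * g) :=
      mul_le_mul_of_nonneg_left hl (by linarith)
    have h2 : TA * (10000 * g) ≤ TA * TB := mul_le_mul_of_nonneg_left hB (by linarith)
    have h3 : (10000 * g) * TB ≤ TA * TB := mul_le_mul_of_nonneg_right hA' (by linarith)
    have h4 : 10000 * y ≤ TA := by nlinarith
    have h5 : TA ≤ TA * TB := by nlinarith
    push_cast
    nlinarith

open Classical in
lemma badS : s0cS (range (2 ^ i / (64 * W1))) (range (2 ^ j / (64 * W1))) SP SQ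
      (fun s t P Q => if ∃ p, p.Prime ∧ 2 ^ g < p ∧ p ^ 2 ∣ s0cc W1 α β s t P Q then 1 else 0) ≤
      32 * ((XX g : ℝ) ^ 2 / 2 ^ g) := by
  rw [s0cS_sPtQ, sum_comm]
  have hb := big_sq (4 * XX g) (2 ^ g)
  refine (sum_le_card_nsmul _ _ (8 * (XX g : ℝ) / 2 ^ g) fun y hy => ?_).trans ?_
  · obtain ⟨h1, h2⟩ := mem_product.1 hy
    rw [sum_boole]
    refine le_trans (Nat.cast_le.2 (card_le_card_of_injOn
      (fun x => s0cc W1 α β x.1 y.1 x.2 y.2) (fun x hx => ?_) (fun x hx x' hx' h => ?_)))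
      (hb.trans ?_)
    · obtain ⟨h3, h4⟩ := mem_filter.1 (mem_coe.1 hx)
      obtain ⟨h5, h6⟩ := mem_product.1 h3
      exact mem_coe.2 (mem_filter.2 ⟨H.c_mem (mem_range.1 h5) (mem_range.1 h1) h6 h2, h4⟩)
    · have h3 := (mem_filter.1 (mem_coe.1 hx)).1
      have h4 := (mem_filter.1 (mem_coe.1 hx')).1
      refine H.injA (mem_coe.2 h3) (mem_coe.2 h4) ?_
      have h5 := (H.c_eq x.1 (mem_range.1 h1) (mem_product.1 h3).2 h2).1
      have h6 := (H.c_eq x'.1 (mem_range.1 h1) (mem_product.1 h4).2 h2).1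
      dsimp only at h ⊢
      omega
    · push_cast
      rw [← mul_assoc]
      norm_num
      gcongr
      linarith
  · rw [card_product, card_range, nsmul_eq_mul]
    have h1 : 2 ^ j * SQ.card ≤ 4 * XX g := (H.cell 0).card_SQ
    have h2 : 2 ^ j / (64 * W1) * SQ.card ≤ 4 * XX g :=
      (Nat.mul_le_mul_right _ (Nat.div_le_self _ _)).trans h1
    have h3 : ((2 ^ j / (64 * W1) * SQ.card : ℕ) : ℝ) ≤ 4 * XX g := by exact_mod_cast h2
    refine (mul_le_mul_of_nonneg_right h3 (by positivity)).trans (le_of_eq ?_)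
    ring

end s0cPre

lemma s0c_point {q1 q2 q3 q4 q5 : Prop} [Decidable (q1 ∧ q2 ∧ q3 ∧ q4)] [Decidable ¬q1]
    [Decidable ¬q2] [Decidable (¬q4 ∧ ¬q5)] [Decidable ¬q3] [Decidable q5] {w : ℝ} (hw : w ≤ 4) :
    w ≤ (if q1 ∧ q2 ∧ q3 ∧ q4 then w else 0) + 4 * ((if ¬q1 then 1 else 0) +
      (if ¬q2 then 1 else 0) + (if ¬q4 ∧ ¬q5 then 1 else 0) + (if ¬q3 then 1 else 0) +
      (if q5 then 1 else 0)) := by
  by_cases h1 : q1 <;> by_cases h2 : q2 <;> by_cases h3 : q3 <;> by_cases h4 : q4 <;>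
    by_cases h5 : q5 <;> simp [h1, h2, h3, h4, h5] <;> linarith

theorem precell (k W1 : ℕ) (hW : 0 < W1) (hWE : ∀ p, p.Prime → (p ∣ 2 * W1 ↔ p ≤ 2000))
    (hodd : Odd W1) : ∀ᶠ g : ℕ in atTop, ∀ (i j α β : ℕ) (SP SQ : Finset ℕ), 3 * g ≤ i →
    i < 4 * g → g ≤ j → j < 2 * g → 2 ^ i < α → α ≤ 2 ^ i + 64 * W1 → 2 ^ j < β →
    β ≤ 2 ^ j + 64 * W1 →
    (∀ P ∈ SP, P.Prime ∧ 8 * XX g < 2 ^ i * P ∧ 2 ^ i * P ≤ 32 * XX g ∧ α * P ≡ 17 [MOD 64] ∧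
      α * P ≡ 1 [MOD W1]) →
    (∀ Q ∈ SQ, Q.Prime ∧ XX g < 2 ^ j * Q ∧ 2 ^ j * Q ≤ 4 * XX g ∧ β * Q ≡ 1 [MOD 64] ∧
      W1 ∣ β * Q + 1) →
    ∃ C : Cell g (g ^ k), C.i = i ∧ C.j = j ∧
      ((2 ^ i / (64 * W1) : ℕ) * (2 ^ j / (64 * W1) : ℕ) * SP.card * SQ.card : ℝ) / 100 -
        200 * (XX g : ℝ) ^ 2 / 2 ^ g ≤ FS C fun _ _ _ _ c => WW g c := by
  classical
  have hε : (0 : ℝ) < 1 / 1000 := by norm_num
  filter_upwards [eventually_ge_atTop 10, ev_pow_le (64 * W1 * 10000) 1, diff_count,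
    bad_one hε k (64 * W1) 2000 (by norm_num) (by omega)
      (fun p hp => (s0c_dvd64 hp).trans (hWE p hp)),
    bad_c hε k W1 2000 (by norm_num) hW hWE] with g hg hbig hd h1 hc
  intro i j α β SP SQ hi hi' hj hj' a1 a2 b1 b2 hP hQ
  have H : s0cPre g W1 i j α β SP SQ :=
    ⟨hg, hW, hWE, hodd, by rw [← mul_assoc]; simpa using hbig, hi, hi', hj, hj', a1, a2, b1, b2,
      hP, hQ⟩
  refine ⟨H.cell (g ^ k), rfl, rfl, le_trans ?_ (H.FS_ge (g ^ k))⟩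
  have e1 := H.main_ge hd
  have e2 := H.badA (h1 i α (by omega) (by omega) a1 a2)
  have e3 := H.badB (h1 j β hj (by omega) b1 b2)
  have e4 := H.badC fun c0 P => hc i c0 P hi
  have e5 := H.badG
  have e6 := H.badS
  have key := s0cS_mono (A := range (2 ^ i / (64 * W1))) (B := range (2 ^ j / (64 * W1)))
    (SP := SP) (SQ := SQ) (f := fun s t P Q => (WW g (s0cc W1 α β s t P Q) : ℝ))
    (f' := fun s t P Q => (if typ g (g ^ k) (α + 64 * W1 * s) ∧ typ g (g ^ k) (β + 64 * W1 * t) ∧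
      (α + 64 * W1 * s).Coprime (β + 64 * W1 * t) ∧ typ g (g ^ k) (s0cc W1 α β s t P Q) then
        (WW g (s0cc W1 α β s t P Q) : ℝ) else 0) +
      4 * ((if ¬typ g (g ^ k) (α + 64 * W1 * s) then 1 else 0) +
        (if ¬typ g (g ^ k) (β + 64 * W1 * t) then 1 else 0) +
        (if ¬typ g (g ^ k) (s0cc W1 α β s t P Q) ∧
          ¬∃ p, p.Prime ∧ 2 ^ g < p ∧ p ^ 2 ∣ s0cc W1 α β s t P Q then 1 else 0) +
        (if ¬(α + 64 * W1 * s).Coprime (β + 64 * W1 * t) then 1 else 0) +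
        (if ∃ p, p.Prime ∧ 2 ^ g < p ∧ p ^ 2 ∣ s0cc W1 α β s t P Q then 1 else 0))) (by
      intro s hs t ht P hP Q hQ
      have hm := mem_Icc.1 (H.c_mem (mem_range.1 hs) (mem_range.1 ht) hP hQ)
      have h4 : (WW g (s0cc W1 α β s t P Q) : ℝ) ≤ 4 := by
        exact_mod_cast WW_le (by omega) hm.1 hm.2
      exact s0c_point h4)
  rw [s0cS_add, s0cS_mul, s0cS_add, s0cS_add, s0cS_add, s0cS_add] at key
  have hX : (0 : ℝ) ≤ (XX g : ℝ) ^ 2 / 2 ^ g := by positivity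
  have hM : (0 : ℝ) ≤ ((2 ^ i / (64 * W1) : ℕ) * (2 ^ j / (64 * W1) : ℕ) * SP.card * SQ.card : ℝ) := by
    positivity
  rw [mul_div_assoc 200]
  push_cast at e2 e3 e4
  linarith

end Pool.Agent.Lib.MP_788af2_nt.R0
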