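import Pool.Agent.Lib.MP_788af2_nt.R0.Disp2

namespace Pool.Agent.Lib.MP_788af2_nt.R0

open Finset Filter
open scoped NumberTheorySymbols

/-! Dispersion for the equation `a P = b Q + 16 n m` with `a`, `b` fixed. -/

theorem s1a_inner {I : Finset ℤ} {h : ℤ → ℂ} (hh : ∀ y, h y ≠ 0 → y ∈ I) {b c e y₀ : ℤ}
    (hb : b ≠ 0) (hy : c = b * y₀ + e) :
    (∑ y ∈ I, if c = b * y + e then h y else 0) = h y₀ := by
  have h1 : ∀ y, c = b * y + e ↔ y₀ = y := fun y => by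
    rw [hy, add_left_inj, mul_right_inj' hb]
  simp only [h1, sum_ite_eq]
  split_ifs with h2
  · rfl
  · exact (not_not.1 fun h3 => h2 (hh y₀ h3)).symm

theorem s1a_class {ι : Type} [DecidableEq ι] (S : Finset ι) (pr : ι → ℕ) (h : ι → ℤ → ℂ)
    {a b A V K l N n₁ s₁ r : ℕ} (hA : 0 < A) (hAV : A ≤ V) (hK : 2 ≤ K) (hl : 0 < l)
    (ha : A ≤ a ∧ a ≤ 2 * A) (hab : a.Coprime b) (hao : Odd a) (hb : 0 < b)
    (hS : ∀ n ∈ S, (pr n).Coprime a) (hh : ∀ n ∈ S, ∀ y, h n y ≠ 0 → y ∈ Ioc (0 : ℤ) (N * l))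
    (hr : ∀ n ∈ S, pr n % b = r)
    (hn : ∀ n ∈ S, (S.filter fun n' =>
      16 * Nat.dist (pr n) (pr n') * V < K ^ 2 * l * b).card ≤ n₁) (hs : S.card ≤ s₁)
    (T : Finset (ℕ × ℕ)) (hT : ∀ x ∈ T, x.2 ≤ V ∧ (b : ℤ) ∣ a * x.1 - 16 * r * x.2)
    (F : ℕ × ℕ → ℂ) :
    ‖∑ x ∈ T, F x * ∑ n ∈ S, ∑ y ∈ Ioc (0 : ℤ) (N * l),
        if (a : ℤ) * x.1 = b * y + 16 * pr n * x.2 then h n y else 0‖ ^ 2 ≤
      (∑ x ∈ T, ‖F x‖ ^ 2) * (((V : ℝ) / A) *
        ((5 * n₁ + 28 * s₁ / (K : ℝ) ^ 2) * ∑ n ∈ S, N2 (Ioc 0 (N * l)) (h n) +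
          5 / l * ∑ n ∈ S, ∑ n' ∈ S, ∑ i ∈ range N,
            ∑ q ∈ (a * (16 * Nat.dist (pr n) (pr n') / b)).divisors, Mq (Iv l i) (h n) q)) := by
  have hb' : (b : ℤ) ≠ 0 := by exact_mod_cast hb.ne'
  have hab' : IsCoprime (a : ℤ) b := Nat.isCoprime_iff_coprime.2 hab
  obtain ⟨s, t, hst⟩ := hab'
  obtain ⟨P, hP⟩ : ∃ P : ℤ, (b : ℤ) ∣ a * P - 16 * r :=
    ⟨16 * r * s, -(16 * r * t), by linear_combination (16 * r : ℤ) * hst⟩
  have hβ : ∀ n, ∃ k : ℤ, n ∈ S → b * k = a * P - 16 * pr n := fun n => by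
    by_cases hn : n ∈ S
    · obtain ⟨k, hk⟩ := hP
      have h1 : (b : ℤ) * (pr n / b : ℕ) + r = pr n := by
        rw [← hr n hn]; exact_mod_cast Nat.div_add_mod (pr n) b
      exact ⟨k - 16 * (pr n / b : ℕ), fun _ => by linear_combination -hk - 16 * h1⟩
    · exact ⟨0, fun h => absurd h hn⟩
  choose β hβ using hβ
  have hu : ∀ x : ℕ × ℕ, ∃ u : ℤ, x ∈ T → (x.1 : ℤ) = P * x.2 + b * u := fun x => by
    by_cases hx : x ∈ T
    · obtain ⟨k, hk⟩ := hP
      obtain ⟨k', hk'⟩ := (hT x hx).2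
      exact ⟨s * (k' - k * x.2) + t * (x.1 - P * x.2), fun _ => by
        linear_combination s * hk' - s * x.2 * hk - (x.1 - P * x.2) * hst⟩
    · exact ⟨0, fun h => absurd h hx⟩
  choose u hu using hu
  have hΔ : ∀ n ∈ S, ∀ n' ∈ S, b * (β n' - β n).natAbs = 16 * Nat.dist (pr n) (pr n') :=
    fun n hn n' hn' => by
      have h1 : (b : ℤ) * (β n' - β n) = 16 * (pr n - pr n') := by
        linear_combination hβ n' hn' - hβ n hn
      have h2 := congrArg Int.natAbs h1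
      rw [Int.natAbs_mul, Int.natAbs_mul, Int.natAbs_natCast] at h2
      rw [h2, show Int.natAbs 16 = 16 from rfl]
      unfold Nat.dist
      omega
  have hΔ' : ∀ n n', (a * β n' - a * β n).natAbs = a * (β n' - β n).natAbs := fun n n' => by
    rw [← mul_sub, Int.natAbs_mul, Int.natAbs_natCast]
  have ha0 : 0 < a := hA.trans_le ha.1
  have key := disp S (fun _ => (a : ℤ)) β h (n₁ := n₁) hA hAV hK hl
    (fun _ _ => by rw [Nat.abs_cast]; exact_mod_cast ha)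
    (fun n hn => by
      have h1 : IsCoprime (a : ℤ) (16 * pr n) := by
        have : a.Coprime (2 ^ 4 * pr n) :=
          Nat.Coprime.mul_right (hao.coprime_two_right.pow_right 4) (hS n hn).symm
        exact_mod_cast Nat.isCoprime_iff_coprime.2 this
      have h2 := h1.neg_right.add_mul_left_right P
      rw [show -(16 * (pr n : ℤ)) + a * P = b * β n by linear_combination -hβ n hn] at h2
      exact h2.of_mul_right_right)
    hh (fun n hn' => le_trans (card_le_card fun n' => by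
      simp only [mem_filter, and_imp]
      refine fun h1 h2 => ⟨h1, ?_⟩
      rw [← Int.natCast_natAbs, hΔ'] at h2
      have h3 : a * (β n' - β n).natAbs * V < A * K ^ 2 * l := by exact_mod_cast h2
      have h4 : a * ((β n' - β n).natAbs * V) < a * (K ^ 2 * l) := by
        calc _ = a * (β n' - β n).natAbs * V := by ring
          _ < A * K ^ 2 * l := h3
          _ ≤ a * K ^ 2 * l := by gcongr; exact ha.1
          _ = _ := by ring
      rw [← hΔ n hn' n' h1, mul_comm _ b, mul_assoc]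
      exact Nat.mul_lt_mul_of_pos_left (lt_of_mul_lt_mul_left h4 a.zero_le) hb) (hn n hn'))
    (T.image fun x => (u x, (x.2 : ℤ)))
    (fun x hx => by
      obtain ⟨x, hx', rfl⟩ := mem_image.1 hx
      rw [Nat.abs_cast]
      exact_mod_cast (hT x hx').1)
    (fun z => F ((P * z.2 + b * z.1).toNat, z.2.toNat))
  have hinj : Set.InjOn (fun x : ℕ × ℕ => (u x, (x.2 : ℤ))) T := fun x hx x' hx' e => by
    obtain ⟨e1, e2⟩ := Prod.mk.inj e
    have e3 : (x.1 : ℤ) = x'.1 := by rw [hu x hx, hu x' hx', e1, e2]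
    exact Prod.ext (by exact_mod_cast e3) (by exact_mod_cast e2)
  have hF : ∀ x ∈ T, F ((P * x.2 + b * u x).toNat, (x.2 : ℤ).toNat) = F x := fun x hx => by
    rw [← hu x hx, Int.toNat_natCast, Int.toNat_natCast]
  rw [sum_image hinj, sum_image hinj] at key
  rw [sum_congr rfl fun x hx => congrArg (F x * ·) (sum_congr rfl fun n hn =>
    s1a_inner (hh n hn) (y₀ := a * u x + β n * x.2) hb'
      (by linear_combination a * hu x hx - x.2 * hβ n hn))]
  refine le_trans (le_of_eq ?_) (key.trans ?_)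
  · congr 2
    exact sum_congr rfl fun x hx => by rw [hF x hx]
  · rw [mul_assoc, sum_congr rfl fun x hx => by rw [hF x hx]]
    gcongr ?_ * (?_ * (?_ + ?_))
    · exact mul_le_mul_of_nonneg_right (by gcongr) (sum_nonneg fun _ _ => N2_nonneg _ _)
    · refine le_of_eq (congrArg _ (sum_congr rfl fun n hn => sum_congr rfl fun n' hn' => ?_))
      rw [hΔ', ← hΔ n hn n' hn', Nat.mul_div_cancel_left _ hb]

theorem s1_pair {ι : Type} [DecidableEq ι] (S : Finset ι) (pr : ι → ℕ) (h : ι → ℤ → ℂ)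
    {a b A V K l N n₁ s₁ : ℕ} (hA : 0 < A) (hAV : A ≤ V) (hK : 2 ≤ K) (hl : 0 < l)
    (ha : A ≤ a ∧ a ≤ 2 * A) (hab : a.Coprime b) (hao : Odd a) (hbo : Odd b)
    (hS : ∀ n ∈ S, (pr n).Coprime a) (hh : ∀ n ∈ S, ∀ y, h n y ≠ 0 → y ∈ Ioc (0 : ℤ) (N * l))
    (hn : ∀ n ∈ S, (S.filter fun n' => pr n' ≡ pr n [MOD b] ∧
      16 * Nat.dist (pr n) (pr n') * V < K ^ 2 * l * b).card ≤ n₁)
    (hs : ∀ n ∈ S, (S.filter fun n' => pr n' ≡ pr n [MOD b]).card ≤ s₁)
    (T : Finset (ℕ × ℕ)) (hT : ∀ x ∈ T, x.2.Coprime b ∧ x.2 ≤ V) (F : ℕ × ℕ → ℂ) :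
    ‖∑ x ∈ T, F x * ∑ n ∈ S, ∑ y ∈ Ioc (0 : ℤ) (N * l),
        if (a : ℤ) * x.1 = b * y + 16 * pr n * x.2 then h n y else 0‖ ^ 2 ≤
      (∑ x ∈ T, ‖F x‖ ^ 2) * ((V : ℝ) / A) *
        ((5 * n₁ + 28 * s₁ / (K : ℝ) ^ 2) * ∑ n ∈ S, N2 (Ioc 0 (N * l)) (h n) +
          5 / l * ∑ n ∈ S, ∑ n' ∈ S with pr n' ≡ pr n [MOD b], ∑ i ∈ range N,
            ∑ q ∈ (a * (16 * Nat.dist (pr n) (pr n') / b)).divisors, Mq (Iv l i) (h n) q) := by
  have hb : 0 < b := hbo.pos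
  have hm : ∀ n ∈ S, pr n % b ∈ range b := fun n _ => mem_range.2 (Nat.mod_lt _ hb)
  have hf : ∀ r, ∀ n ∈ S.filter (pr · % b = r),
      S.filter (pr · % b = r) = S.filter fun n' => pr n' ≡ pr n [MOD b] := fun r n hn => by
    rw [← (mem_filter.1 hn).2]
    rfl
  have key := fun r => s1a_class (S.filter (pr · % b = r)) pr h (N := N) (n₁ := n₁) (s₁ := s₁)
    (r := r) hA hAV hK hl ha hab hao hb (fun n h1 => hS n (mem_filter.1 h1).1)
    (fun n h1 => hh n (mem_filter.1 h1).1) (fun n h1 => (mem_filter.1 h1).2)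
    (fun n h1 => by
      rw [hf r n h1, filter_filter]
      exact hn n (mem_filter.1 h1).1)
    (by
      obtain h1 | ⟨n, h1⟩ := (S.filter (pr · % b = r)).eq_empty_or_nonempty
      · rw [h1]
        exact Nat.zero_le _
      · rw [hf r n h1]
        exact hs n (mem_filter.1 h1).1)
    (T.filter fun x => (b : ℤ) ∣ a * x.1 - 16 * r * x.2)
    (fun x h1 => ⟨(hT x (mem_filter.1 h1).1).2, (mem_filter.1 h1).2⟩) F
  have hV : (0 : ℝ) ≤ V / A := by positivity
  have h2 := sum_sq_le_sum_mul_sum_of_sq_le_mul (range b)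
    (fun r _ => sum_nonneg fun _ _ => sq_nonneg _)
    (fun r _ => mul_nonneg hV (add_nonneg
      (mul_nonneg (by positivity) (sum_nonneg fun _ _ => N2_nonneg _ _))
      (mul_nonneg (by positivity) (sum_nonneg fun _ _ => sum_nonneg fun _ _ =>
        sum_nonneg fun _ _ => sum_nonneg fun _ _ => Mq_nonneg _ _ _)))) fun r _ => key r
  refine le_trans (pow_le_pow_left₀ (norm_nonneg _) (le_trans (le_of_eq ?_) (norm_sum_le _ _)) 2)
    (h2.trans ?_)
  · congr 1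
    simp only [sum_filter (s := T)]
    rw [sum_comm]
    refine sum_congr rfl fun x _ => ?_
    rw [← sum_fiberwise_of_maps_to hm, mul_sum]
    refine sum_congr rfl fun r _ => ?_
    split_ifs with h1
    · rfl
    · refine mul_eq_zero_of_right _ (sum_eq_zero fun n h3 => sum_eq_zero fun y _ =>
        if_neg fun h4 => h1 ?_)
      have h5 : (b : ℤ) * (pr n / b : ℕ) + r = pr n := by
        rw [← (mem_filter.1 h3).2]; exact_mod_cast Nat.div_add_mod (pr n) b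
      exact ⟨y + 16 * (pr n / b : ℕ) * x.2, by linear_combination h4 - 16 * x.2 * h5⟩
  · have e : ∀ G : ι → ι → ℝ, ∑ r ∈ range b, ∑ n ∈ S with pr n % b = r,
        ∑ n' ∈ S with pr n' % b = r, G n n' =
        ∑ n ∈ S, ∑ n' ∈ S with pr n' ≡ pr n [MOD b], G n n' := fun G => by
      rw [← sum_fiberwise_of_maps_to hm]
      exact sum_congr rfl fun r _ => sum_congr rfl fun n h1 => by rw [hf r n h1]
    rw [← mul_sum, sum_add_distrib, ← mul_sum, ← mul_sum, sum_fiberwise_of_maps_to hm, e,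
      mul_assoc]
    refine mul_le_mul_of_nonneg_right ?_ (mul_nonneg hV (add_nonneg
      (mul_nonneg (by positivity) (sum_nonneg fun _ _ => N2_nonneg _ _))
      (mul_nonneg (by positivity) (sum_nonneg fun _ _ => sum_nonneg fun _ _ =>
        sum_nonneg fun _ _ => sum_nonneg fun _ _ => Mq_nonneg _ _ _))))
    simp only [sum_filter (s := T)]
    rw [sum_comm]
    refine sum_le_sum fun x hx => ?_
    rw [← sum_filter, sum_const, nsmul_eq_mul]
    refine mul_le_of_le_one_left (sq_nonneg _) (Nat.cast_le_one.2 (card_le_one.2 ?_))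
    intro r h1 r' h3
    obtain ⟨h1, h4⟩ := mem_filter.1 h1
    obtain ⟨h3, h5⟩ := mem_filter.1 h3
    have h6 : IsCoprime (b : ℤ) (16 * x.2) := by
      have : b.Coprime (2 ^ 4 * x.2) :=
        Nat.Coprime.mul_right (hbo.coprime_two_right.pow_right 4) (hT x hx).1.symm
      exact_mod_cast Nat.isCoprime_iff_coprime.2 this
    have h7 : (b : ℤ) ∣ r' - r :=
      h6.dvd_of_dvd_mul_left (by convert dvd_sub h4 h5 using 1; ring)
    exact Nat.ModEq.eq_of_lt_of_lt (Nat.modEq_iff_dvd.2 h7) (mem_range.1 h1) (mem_range.1 h3)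

theorem s1a_tau {q : ℕ} (hq : 0 < q) : q.divisors.card ≤ 2 * q.sqrt := by
  have h1 : q.divisors ⊆ Icc 1 q.sqrt ∪ (Icc 1 q.sqrt).image (q / ·) := fun d hd => by
    obtain ⟨e, rfl⟩ := Nat.dvd_of_mem_divisors hd
    have hd0 : 0 < d := Nat.pos_of_mul_pos_right hq
    have he0 : 0 < e := Nat.pos_of_mul_pos_left hq
    rw [mem_union, mem_image]
    obtain h | h := le_total d e
    · exact Or.inl (mem_Icc.2 ⟨hd0, Nat.le_sqrt.2 (Nat.mul_le_mul_left d h)⟩)
    · exact Or.inr ⟨e, mem_Icc.2 ⟨he0, Nat.le_sqrt.2 (Nat.mul_le_mul_right e h)⟩,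
        Nat.mul_div_cancel _ he0⟩
  have h2 := (card_le_card h1).trans ((card_union_le _ _).trans
    (Nat.add_le_add_left card_image_le _))
  simp only [Nat.card_Icc] at h2
  omega

theorem s1a_mult (D p : ℕ) : ((Icc 1 D).filter (p ∣ ·)).card * p ≤ D := by
  rw [show Icc 1 D = Ioc 0 D from rfl, Nat.Ioc_filter_dvd_card_eq_div]
  exact Nat.div_mul_le_self D p

theorem s1a_cnt (A D : ℕ) {q : ℕ} (hq : 0 < q) :
    ((Icc 1 A ×ˢ Icc 1 D).filter fun x => q ∣ x.1 * x.2).card * q ≤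
      (∑ a ∈ Icc 1 A, q.gcd a) * D := by
  rw [card_filter, sum_product, sum_mul, sum_mul]
  refine sum_le_sum fun a _ => ?_
  obtain ⟨q', a', hc, h1, h2⟩ := Nat.exists_coprime q a
  have hg : 0 < q.gcd a := Nat.gcd_pos_of_pos_left a hq
  generalize q.gcd a = g at *
  subst h1 h2
  have h3 : ∀ d, q' * g ∣ a' * g * d ↔ q' ∣ d := fun d => by
    rw [mul_right_comm, Nat.mul_dvd_mul_iff_right hg, hc.dvd_mul_left]
  simp only [h3]
  rw [← card_filter, ← mul_assoc, mul_comm]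
  exact Nat.mul_le_mul_left g (s1a_mult D q')

theorem s1a_gcd (A : ℕ) {q : ℕ} (hq : 0 < q) : ∑ a ∈ Icc 1 A, q.gcd a ≤ 2 * q.sqrt * A := by
  calc ∑ a ∈ Icc 1 A, q.gcd a ≤ ∑ a ∈ Icc 1 A, ∑ g ∈ q.divisors, if g ∣ a then g else 0 := by
        refine sum_le_sum fun a _ => le_trans ?_ (single_le_sum (fun _ _ => Nat.zero_le _)
          (Nat.mem_divisors.2 ⟨Nat.gcd_dvd_left q a, hq.ne'⟩))
        rw [if_pos (Nat.gcd_dvd_right q a)]
    _ = ∑ g ∈ q.divisors, ((Icc 1 A).filter (g ∣ ·)).card * g := by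
        rw [sum_comm]
        exact sum_congr rfl fun g _ => by rw [← sum_filter, sum_const, smul_eq_mul]
    _ ≤ q.divisors.card * A := sum_le_card_nsmul _ _ _ fun g _ => s1a_mult A g
    _ ≤ 2 * q.sqrt * A := Nat.mul_le_mul_right A (s1a_tau hq)

/-- The number of pairs `(a, d)` with `q ∣ a d`. -/
theorem cnt_qd (A D : ℕ) {q : ℕ} (hq : 0 < q) :
    (((Icc 1 A ×ˢ Icc 1 D).filter fun x => q ∣ x.1 * x.2).card : ℝ) ≤ 2 * A * D / √q ∧
    (((Icc 1 A ×ˢ Icc 1 D).filter fun x => q ∣ x.1 * x.2).card : ℝ) * q ≤ A ^ 2 * D := by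
  have h1 := s1a_cnt A D hq
  constructor
  · have h2 := h1.trans (Nat.mul_le_mul_right D (s1a_gcd A hq))
    have hs : 0 < √(q : ℝ) := Real.sqrt_pos.2 (by exact_mod_cast hq)
    rw [le_div_iff₀ hs]
    refine le_of_mul_le_mul_right ?_ hs
    rw [mul_assoc, Real.mul_self_sqrt q.cast_nonneg]
    calc _ ≤ 2 * (q.sqrt : ℝ) * A * D := by exact_mod_cast h2
      _ ≤ 2 * √(q : ℝ) * A * D := by gcongr; exact Real.nat_sqrt_le_real_sqrt
      _ = _ := by ring
  · have h2 : ∑ a ∈ Icc 1 A, q.gcd a ≤ A ^ 2 := by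
      refine (sum_le_card_nsmul _ _ A fun a ha => ?_).trans (by simp [sq])
      exact (Nat.gcd_le_right q (mem_Icc.1 ha).1).trans (mem_Icc.1 ha).2
    exact_mod_cast h1.trans (Nat.mul_le_mul_right D h2)

end Pool.Agent.Lib.MP_788af2_nt.R0
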