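import Pool.Agent.Lib.MP_788af2_nt.R0.S1a
import Pool.Agent.Lib.MP_788af2_nt.R0.LS

namespace Pool.Agent.Lib.MP_788af2_nt.R0

open Finset Filter
open scoped NumberTheorySymbols

/-! Averaging the dispersion inequality over `a` and `b`. -/

lemma s1b_card {ι : Type} [DecidableEq ι] {S S' : Finset ι} {pr : ι → ℕ} {μ : ℕ}
    (hμ : ∀ x, (S.filter fun n => pr n = x).card ≤ μ) (hS : S' ⊆ S) (Y : Finset ℕ)
    (hY : ∀ n ∈ S', pr n ∈ Y) : S'.card ≤ μ * Y.card :=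
  card_le_mul_card_image_of_maps_to hY μ fun x _ =>
    (card_le_card (filter_subset_filter _ hS)).trans (hμ x)

lemma s1b_dist {x r b : ℕ} (h : x ≡ r [MOD b]) :
    ∃ e, Nat.dist r x = b * e ∧ (x = r + b * e ∨ (x = r - b * e ∧ 1 ≤ e)) := by
  rcases le_or_gt r x with hx | hx
  · obtain ⟨e, he⟩ := (Nat.modEq_iff_dvd' hx).1 h.symm
    exact ⟨e, by rw [Nat.dist_eq_sub_of_le hx, he], Or.inl (by omega)⟩
  · obtain ⟨e, he⟩ := (Nat.modEq_iff_dvd' hx.le).1 h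
    refine ⟨e, by rw [Nat.dist_eq_sub_of_le_right hx.le, he], Or.inr ⟨by omega, ?_⟩⟩
    rcases Nat.eq_zero_or_pos e with rfl | h0
    · omega
    · exact h0

lemma s1b_near {ι : Type} [DecidableEq ι] {S S' : Finset ι} {pr : ι → ℕ} {μ : ℕ}
    (hμ : ∀ x, (S.filter fun n => pr n = x).card ≤ μ) (hS : S' ⊆ S) {b V : ℕ} (hV : 0 < V)
    (r M : ℕ) :
    (S'.filter fun n' => pr n' ≡ r [MOD b] ∧ 16 * Nat.dist r (pr n') * V < M * b).card ≤
      μ * (2 * (M / (16 * V)) + 1) := by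
  refine (s1b_card hμ ((filter_subset _ _).trans hS)
    ((range (M / (16 * V) + 1)).image (fun e => r + b * e) ∪
      (Icc 1 (M / (16 * V))).image fun e => r - b * e) ?_).trans (Nat.mul_le_mul_left _ ?_)
  · intro n hn
    obtain ⟨-, h1, h2⟩ := mem_filter.1 hn
    obtain ⟨e, he, hx⟩ := s1b_dist h1
    rw [he] at h2
    have h3 : e * (16 * V) < M := by
      have h4 : e * (16 * V) * b < M * b := by
        calc e * (16 * V) * b = 16 * (b * e) * V := by ring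
          _ < M * b := h2
      exact lt_of_mul_lt_mul_right h4 (Nat.zero_le _)
    have h5 : e ≤ M / (16 * V) := (Nat.le_div_iff_mul_le (by omega)).2 h3.le
    rcases hx with hx | ⟨hx, h6⟩
    · exact mem_union_left _ (mem_image.2 ⟨e, mem_range.2 (by omega), hx.symm⟩)
    · exact mem_union_right _ (mem_image.2 ⟨e, mem_Icc.2 ⟨h6, h5⟩, hx.symm⟩)
  · refine (card_union_le _ _).trans ?_
    have h1 := card_image_le (s := range (M / (16 * V) + 1)) (f := fun e => r + b * e)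
    have h2 := card_image_le (s := Icc 1 (M / (16 * V))) (f := fun e => r - b * e)
    rw [card_range] at h1
    rw [Nat.card_Icc] at h2
    omega

lemma s1b_class {ι : Type} [DecidableEq ι] {S S' : Finset ι} {pr : ι → ℕ} {μ N0 : ℕ}
    (hμ : ∀ x, (S.filter fun n => pr n = x).card ≤ μ) (hS : S' ⊆ S)
    (hpr : ∀ n ∈ S, N0 < pr n ∧ pr n ≤ 2 * N0) {b B : ℕ} (hB : 0 < B) (hb : B ≤ b) (r : ℕ) :
    (S'.filter fun n' => pr n' ≡ r [MOD b]).card ≤ μ * (N0 / B + 1) := by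
  refine (s1b_card hμ ((filter_subset _ _).trans hS)
    ((Ioc N0 (2 * N0)).filter fun x => x ≡ r [MOD b]) ?_).trans (Nat.mul_le_mul_left _ ?_)
  · intro n hn
    obtain ⟨h0, h1⟩ := mem_filter.1 hn
    exact mem_filter.2 ⟨mem_Ioc.2 (hpr n (hS h0)), h1⟩
  · rw [← card_range (N0 / B + 1)]
    refine card_le_card_of_injOn (fun x => (x - N0) / b) ?_ ?_
    · intro x hx
      obtain ⟨h0, -⟩ := mem_filter.1 (mem_coe.1 hx)
      have h1 := mem_Ioc.1 h0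
      have h2 : (x - N0) / b ≤ N0 / B := Nat.div_le_div (by omega) hb hB.ne'
      exact mem_coe.2 (mem_range.2 (Nat.lt_succ_of_le h2))
    · intro x hx y hy hxy
      obtain ⟨h0, h1⟩ := mem_filter.1 (mem_coe.1 hx)
      obtain ⟨h2, h3⟩ := mem_filter.1 (mem_coe.1 hy)
      have h4 := mem_Ioc.1 h0
      have h5 := mem_Ioc.1 h2
      have h6 : x - N0 ≡ y - N0 [MOD b] := by
        apply Nat.ModEq.add_right_cancel' N0
        rw [Nat.sub_add_cancel h4.1.le, Nat.sub_add_cancel h5.1.le]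
        exact h1.trans h3.symm
      have h7 := Nat.div_add_mod (x - N0) b
      have h8 := Nat.div_add_mod (y - N0) b
      have h9 : (x - N0) / b = (y - N0) / b := hxy
      have h10 : (x - N0) % b = (y - N0) % b := h6
      rw [h9, h10] at h7
      omega

lemma s1b_two {ι : Type} [DecidableEq ι] {S : Finset ι} {pr : ι → ℕ} {μ : ℕ}
    (hμ : ∀ x, (S.filter fun n => pr n = x).card ≤ μ) {b : ℕ} (hb : 0 < b) (r d : ℕ) :
    (S.filter fun n' => pr n' ≡ r [MOD b] ∧ 16 * Nat.dist r (pr n') / b = d).card ≤ μ * 2 := by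
  refine (s1b_card hμ (filter_subset _ _) {r + b * (d / 16), r - b * (d / 16)} ?_).trans
    (Nat.mul_le_mul_left _ card_le_two)
  intro n hn
  obtain ⟨-, h1, h2⟩ := mem_filter.1 hn
  obtain ⟨e, he, hx⟩ := s1b_dist h1
  have h3 : d = 16 * e := by
    rw [← h2, he, show 16 * (b * e) = b * (16 * e) by ring, Nat.mul_div_cancel_left _ hb]
  have h4 : d / 16 = e := by omega
  rw [h4]
  rcases hx with hx | ⟨hx, -⟩
  · exact mem_insert.2 (Or.inl hx)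
  · exact mem_insert.2 (Or.inr (mem_singleton.2 hx))

lemma s1b_N2_sum (l N : ℕ) (H : ℤ → ℂ) :
    ∑ i ∈ range N, N2 (Iv l i) H = N2 (Ioc 0 ((N : ℤ) * l)) H := by
  induction N with
  | zero => simp [N2]
  | succ N ih =>
    rw [sum_range_succ, ih]
    unfold N2 Iv
    have h1 : (0 : ℤ) ≤ (N : ℤ) * l := by positivity
    have h2 : (N : ℤ) * l ≤ ((N : ℤ) + 1) * l := by
      have : (0 : ℤ) ≤ l := by positivity
      nlinarith
    rw [← sum_union (Ioc_disjoint_Ioc_of_le le_rfl), Ioc_union_Ioc_eq_Ioc h1 h2]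
    push_cast
    rfl

lemma s1b_N2_mul {c : ℂ} (hc : ‖c‖ ≤ 1) (I : Finset ℤ) (H : ℤ → ℂ) :
    N2 I (fun y => c * H y) ≤ N2 I H := by
  refine sum_le_sum fun y _ => ?_
  rw [norm_mul]
  exact pow_le_pow_left₀ (by positivity) (mul_le_of_le_one_left (norm_nonneg _) hc) 2

lemma s1b_Mq_mul {c : ℂ} (hc : ‖c‖ ≤ 1) (I : Finset ℤ) (H : ℤ → ℂ) (q : ℕ) :
    Mq I (fun y => c * H y) q ≤ Mq I H q := by
  refine sum_le_sum fun k _ => ?_
  have h1 : FT I (fun y => c * H y) ((k : ℝ) / q) = c * FT I H ((k : ℝ) / q) := by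
    unfold FT
    rw [mul_sum]
    exact sum_congr rfl fun y _ => by ring
  rw [h1, norm_mul]
  exact pow_le_pow_left₀ (by positivity) (mul_le_of_le_one_left (norm_nonneg _) hc) 2

/-- The weight of the denominator `q`. -/
def s1b_w {ι : Type} (S : Finset ι) (pr : ι → ℕ) (SA : Finset ℕ) (b r q : ℕ) : ℕ :=
  ((SA ×ˢ S.filter fun n' => pr n' ≡ r [MOD b]).filter fun x =>
    q ∈ (x.1 * (16 * Nat.dist r (pr x.2) / b)).divisors).card

lemma s1b_w_le {ι : Type} [DecidableEq ι] {S : Finset ι} {pr : ι → ℕ} {μ : ℕ}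
    (hμ : ∀ x, (S.filter fun n => pr n = x).card ≤ μ) {SA : Finset ℕ} {A b r D : ℕ} (hb : 0 < b)
    (hSA : ∀ a ∈ SA, a ≤ 2 * A) (hD : ∀ n ∈ S, 16 * Nat.dist r (pr n) / b ≤ D) (q : ℕ) :
    s1b_w S pr SA b r q ≤
      μ * 2 * ((Icc 1 (2 * A) ×ˢ Icc 1 D).filter fun x => q ∣ x.1 * x.2).card := by
  unfold s1b_w
  refine card_le_mul_card_image_of_maps_to
    (f := fun x : ℕ × ι => (x.1, 16 * Nat.dist r (pr x.2) / b)) ?_ _ ?_
  · intro x hx
    obtain ⟨h1, h2⟩ := mem_filter.1 hx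
    obtain ⟨h3, h4⟩ := mem_product.1 h1
    obtain ⟨h5, h6⟩ := Nat.mem_divisors.1 h2
    refine mem_filter.2 ⟨mem_product.2 ⟨mem_Icc.2 ⟨?_, hSA _ h3⟩,
      mem_Icc.2 ⟨?_, hD _ (mem_filter.1 h4).1⟩⟩, h5⟩
    · exact Nat.pos_of_ne_zero (left_ne_zero_of_mul h6)
    · exact Nat.pos_of_ne_zero (right_ne_zero_of_mul h6)
  · intro y _
    refine le_trans ?_ (s1b_two hμ hb r y.2)
    refine card_le_card_of_injOn (fun x => x.2) ?_ ?_
    · intro x hx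
      obtain ⟨h1, h2⟩ := mem_filter.1 (mem_coe.1 hx)
      obtain ⟨h3, -⟩ := mem_filter.1 h1
      obtain ⟨h5, h6⟩ := mem_filter.1 (mem_product.1 h3).2
      exact mem_coe.2 (mem_filter.2 ⟨h5, h6, by rw [← h2]⟩)
    · intro x hx x' hx' hxx
      have h1 := (mem_filter.1 (mem_coe.1 hx)).2
      have h2 := (mem_filter.1 (mem_coe.1 hx')).2
      refine Prod.ext ?_ hxx
      have h3 := congrArg Prod.fst (h1.trans h2.symm)
      exact h3

lemma s1b_sum_w {ι : Type} {S : Finset ι} {pr : ι → ℕ} {SA : Finset ℕ} {A b r D : ℕ}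
    (hSA : ∀ a ∈ SA, a ≤ 2 * A) (hD : ∀ n ∈ S, 16 * Nat.dist r (pr n) / b ≤ D) (M : ℕ → ℝ) :
    ∑ a ∈ SA, ∑ n' ∈ S with pr n' ≡ r [MOD b],
        ∑ q ∈ (a * (16 * Nat.dist r (pr n') / b)).divisors, M q =
      ∑ q ∈ Icc 1 (2 * A * D), (s1b_w S pr SA b r q : ℝ) * M q := by
  rw [← sum_product' (f := fun a n' => ∑ q ∈ (a * (16 * Nat.dist r (pr n') / b)).divisors, M q)]
  have h1 : ∀ x ∈ SA ×ˢ S.filter fun n' => pr n' ≡ r [MOD b],
      ∑ q ∈ (x.1 * (16 * Nat.dist r (pr x.2) / b)).divisors, M q =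
        ∑ q ∈ Icc 1 (2 * A * D),
          if q ∈ (x.1 * (16 * Nat.dist r (pr x.2) / b)).divisors then M q else 0 := by
    intro x hx
    obtain ⟨h3, h4⟩ := mem_product.1 hx
    rw [← sum_filter, filter_mem_eq_inter, inter_eq_right.2]
    intro q hq
    exact mem_Icc.2 ⟨Nat.pos_of_mem_divisors hq, (Nat.divisor_le hq).trans
      (Nat.mul_le_mul (hSA _ h3) (hD _ (mem_filter.1 h4).1))⟩
  rw [sum_congr rfl h1, sum_comm]
  refine sum_congr rfl fun q _ => ?_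
  rw [← sum_filter, sum_const, nsmul_eq_mul]
  rfl

lemma s1b_third {ι : Type} [DecidableEq ι] {S : Finset ι} {pr : ι → ℕ} {SA : Finset ℕ}
    {A B b N0 μ z r : ℕ} (hB : 0 < B) (hb : B ≤ b) (hz : 1 ≤ z)
    (hμ : ∀ x, (S.filter fun n => pr n = x).card ≤ μ) (hSA : ∀ a ∈ SA, a ≤ 2 * A)
    (hd : ∀ n ∈ S, Nat.dist r (pr n) ≤ N0) (l i : ℕ) (H : ℤ → ℂ) :
    ∑ a ∈ SA, ∑ n' ∈ S with pr n' ≡ r [MOD b],
        ∑ q ∈ (a * (16 * Nat.dist r (pr n') / b)).divisors, Mq (Iv l i) H q ≤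
      8 * μ * A * (16 * N0 / B) * ∑ q ∈ Icc 1 (z ^ 2), Mq (Iv l i) H q +
        100 * (Nat.log 2 (32 * A * N0) + 1) *
          (8 * μ * A * (16 * N0 / B) / z * l + 64 * μ * A ^ 3 * (16 * N0 / B) ^ 2) *
            N2 (Iv l i) H := by
  have hD : ∀ n ∈ S, 16 * Nat.dist r (pr n) / b ≤ 16 * N0 / B := fun n hn =>
    Nat.div_le_div (Nat.mul_le_mul_left _ (hd n hn)) hb hB.ne'
  rw [s1b_sum_w hSA hD]
  set D : ℕ := 16 * N0 / B with hDdef
  have hDr : (D : ℝ) ≤ 16 * N0 / B := by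
    have := Nat.cast_div_le (α := ℝ) (m := 16 * N0) (n := B)
    push_cast at this
    exact this
  have hDN : D ≤ 16 * N0 := Nat.div_le_self _ _
  set D0 : ℝ := 16 * N0 / B with hD0
  have hD0n : 0 ≤ D0 := le_trans (Nat.cast_nonneg _) hDr
  have hw : ∀ q : ℕ, (s1b_w S pr SA b r q : ℝ) ≤
      μ * 2 * (((Icc 1 (2 * A) ×ˢ Icc 1 D).filter fun x => q ∣ x.1 * x.2).card : ℝ) := by
    intro q
    exact_mod_cast s1b_w_le hμ (hB.trans_le hb) hSA hD q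
  have hw1 : ∀ q : ℕ, 0 < q → ∀ t : ℝ, 0 < t → t ≤ √q →
      (s1b_w S pr SA b r q : ℝ) ≤ 8 * μ * A * D0 / t := by
    intro q hq t ht htq
    have h1 := (cnt_qd (2 * A) D hq).1
    have h2 : (2 * ((2 * A : ℕ) : ℝ) * D / √q : ℝ) ≤ 4 * A * D0 / t := by
      push_cast
      refine div_le_div₀ (by positivity) ?_ ht htq
      have : (0 : ℝ) ≤ A := by positivity
      nlinarith
    calc (s1b_w S pr SA b r q : ℝ) ≤ _ := hw q
      _ ≤ μ * 2 * (4 * A * D0 / t) := mul_le_mul_of_nonneg_left (h1.trans h2) (by positivity)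
      _ = 8 * μ * A * D0 / t := by ring
  have hw2 : ∀ q : ℕ, 0 < q → (s1b_w S pr SA b r q : ℝ) * q ≤ 8 * μ * A ^ 2 * D0 := by
    intro q hq
    have h1 := (cnt_qd (2 * A) D hq).2
    have h2 : (((2 * A : ℕ) : ℝ) ^ 2 * D : ℝ) ≤ 4 * A ^ 2 * D0 := by
      push_cast
      have : (0 : ℝ) ≤ (A : ℝ) ^ 2 := by positivity
      nlinarith
    calc (s1b_w S pr SA b r q : ℝ) * q ≤ μ * 2 *
          (((Icc 1 (2 * A) ×ˢ Icc 1 D).filter fun x => q ∣ x.1 * x.2).card : ℝ) * q :=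
          mul_le_mul_of_nonneg_right (hw q) (by positivity)
      _ = μ * 2 *
          ((((Icc 1 (2 * A) ×ˢ Icc 1 D).filter fun x => q ∣ x.1 * x.2).card : ℝ) * q) := by ring
      _ ≤ μ * 2 * (4 * A ^ 2 * D0) := mul_le_mul_of_nonneg_left (h1.trans h2) (by positivity)
      _ = 8 * μ * A ^ 2 * D0 := by ring
  have hsub : Icc 1 (2 * A * D) ⊆ Icc 1 (z ^ 2) ∪ Ioc (z ^ 2) (2 * A * D) := by
    intro q hq
    have := mem_Icc.1 hq
    simp only [mem_union, mem_Icc, mem_Ioc]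
    omega
  have hdis : Disjoint (Icc 1 (z ^ 2)) (Ioc (z ^ 2) (2 * A * D)) := by
    rw [disjoint_left]
    intro q h1 h2
    have := mem_Icc.1 h1
    have := mem_Ioc.1 h2
    omega
  refine (sum_le_sum_of_subset_of_nonneg hsub fun q _ _ =>
    mul_nonneg (Nat.cast_nonneg _) (Mq_nonneg ..)).trans ?_
  rw [sum_union hdis]
  refine add_le_add ?_ ?_
  · rw [mul_sum]
    refine sum_le_sum fun q hq => mul_le_mul_of_nonneg_right ?_ (Mq_nonneg ..)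
    have h1 := (mem_Icc.1 hq).1
    have h2 := hw1 q h1 1 one_pos (Real.one_le_sqrt.2 (by exact_mod_cast h1))
    rwa [div_one] at h2
  · have hIv : Iv l i = Ioc ((i : ℤ) * l) ((i : ℤ) * l + l) := by
      unfold Iv
      congr 1
      ring
    have hz0 : (0 : ℝ) < z := by exact_mod_cast hz
    have h1 := sieve_weighted ((i : ℤ) * l) l H (fun q => (s1b_w S pr SA b r q : ℝ))
      (Z1 := z ^ 2) (Qm := 2 * A * D) (Nat.one_le_pow _ _ hz) (ν1 := 8 * μ * A * D0 / z)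
      (ν2 := 8 * μ * A ^ 2 * D0) (by positivity) (by positivity) (by
        intro q hq
        have h2 := (mem_Ioc.1 hq).1
        have h3 : 0 < q := by omega
        refine ⟨hw1 q h3 z hz0 (Real.le_sqrt_of_sq_le ?_), hw2 q h3⟩
        exact_mod_cast h2.le)
    rw [← hIv] at h1
    refine h1.trans (mul_le_mul_of_nonneg_right ?_ (N2_nonneg ..))
    have h4 : (Nat.log 2 (2 * A * D) : ℝ) ≤ Nat.log 2 (32 * A * N0) := by
      have : 2 * A * D ≤ 32 * A * N0 := by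
        calc 2 * A * D ≤ 2 * A * (16 * N0) := Nat.mul_le_mul_left _ hDN
          _ = 32 * A * N0 := by ring
      exact_mod_cast Nat.log_mono_right this
    have h5 : (4 * (8 * μ * A ^ 2 * D0) * ((2 * A * D : ℕ) : ℝ) : ℝ) ≤
        64 * μ * A ^ 3 * D0 ^ 2 := by
      push_cast
      calc (4 * (8 * μ * A ^ 2 * D0) * (2 * A * D) : ℝ) = 64 * μ * A ^ 3 * D0 * D := by ring
        _ ≤ 64 * μ * A ^ 3 * D0 * D0 := mul_le_mul_of_nonneg_left hDr (by positivity)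
        _ = 64 * μ * A ^ 3 * D0 ^ 2 := by ring
    exact mul_le_mul (by linarith) (by linarith) (by positivity) (by positivity)

lemma s1b_pair {ι : Type} [DecidableEq ι] (S : Finset ι) (pr : ι → ℕ) (h : ι → ℤ → ℂ)
    (SP : Finset ℕ) (β : ι → ℂ) (F : ℕ → ℕ → ℂ) {a b A B V K l N N0 μ : ℕ} {h2 : ℝ}
    (hA : 0 < A) (hB : 0 < B) (hAV : A ≤ V) (hK : 2 ≤ K) (hl : 0 < l) (hBN : B ≤ N0)
    (hh2 : 0 ≤ h2) (ha : A < a ∧ a ≤ 2 * A ∧ Odd a) (hb : B < b ∧ b ≤ 2 * B ∧ Odd b)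
    (hab : a.Coprime b) (hpr : ∀ n ∈ S, N0 < pr n ∧ pr n ≤ 2 * N0)
    (hμ : ∀ x, (S.filter fun n => pr n = x).card ≤ μ)
    (hh : ∀ n ∈ S, ∀ y, h n y ≠ 0 → y ∈ Ioc (0 : ℤ) (N * l))
    (hN : ∀ n ∈ S, N2 (Ioc 0 (N * l)) (h n) ≤ h2)
    (hβ : ∀ n, ‖β n‖ ≤ 1) (sβ : ∀ n, β n ≠ 0 → (pr n).Coprime a)
    (hF : ∀ P m, ‖F P m‖ ≤ 1) (sF : ∀ P m, F P m ≠ 0 → m.Coprime b) :
    ‖∑ P ∈ SP, ∑ m ∈ Icc 1 V, F P m * ∑ n ∈ S, ∑ y ∈ Ioc (0 : ℤ) (N * l),
        if (a : ℤ) * P = b * y + 16 * pr n * m then β n * h n y else 0‖ ^ 2 ≤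
      (SP.card * V : ℝ) * ((V : ℝ) / A) *
        ((5 * μ * ((K : ℝ) ^ 2 * l / (8 * V) + 1) + 56 * μ * N0 / (B * (K : ℝ) ^ 2)) *
            (μ * N0 * h2) +
          5 / l * ∑ n ∈ S, ∑ n' ∈ S with pr n' ≡ pr n [MOD b], ∑ i ∈ range N,
            ∑ q ∈ (a * (16 * Nat.dist (pr n) (pr n') / b)).divisors, Mq (Iv l i) (h n) q) := by
  classical
  have hV : 0 < V := hA.trans_le hAV
  have hsub : (S.filter fun n => β n ≠ 0) ⊆ S := filter_subset _ _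
  have key := s1_pair (S.filter fun n => β n ≠ 0) pr (fun n y => β n * h n y)
    (n₁ := μ * (2 * (K ^ 2 * l / (16 * V)) + 1)) (s₁ := μ * (N0 / B + 1)) (N := N) hA hAV hK hl
    ⟨ha.1.le, ha.2.1⟩ hab ha.2.2 hb.2.2 (fun n hn => sβ n (mem_filter.1 hn).2)
    (fun n hn y hy => hh n (hsub hn) y (right_ne_zero_of_mul hy))
    (fun n _ => s1b_near hμ hsub hV _ _) (fun n _ => s1b_class hμ hsub hpr hB hb.1.le _)
    ((SP ×ˢ Icc 1 V).filter fun x => F x.1 x.2 ≠ 0)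
    (fun x hx => ⟨sF _ _ (mem_filter.1 hx).2, (mem_Icc.1 (mem_product.1 (mem_filter.1 hx).1).2).2⟩)
    (fun x => F x.1 x.2)
  have e1 : (∑ P ∈ SP, ∑ m ∈ Icc 1 V, F P m * ∑ n ∈ S, ∑ y ∈ Ioc (0 : ℤ) (N * l),
        if (a : ℤ) * P = b * y + 16 * pr n * m then β n * h n y else 0) =
      ∑ x ∈ (SP ×ˢ Icc 1 V).filter fun x => F x.1 x.2 ≠ 0, F x.1 x.2 *
        ∑ n ∈ S.filter fun n => β n ≠ 0, ∑ y ∈ Ioc (0 : ℤ) (N * l),
          if (a : ℤ) * x.1 = b * y + 16 * pr n * x.2 then β n * h n y else 0 := by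
    rw [sum_filter_of_ne fun x _ hx => left_ne_zero_of_mul hx, sum_product]
    refine sum_congr rfl fun P _ => sum_congr rfl fun m _ => ?_
    congr 1
    symm
    apply sum_filter_of_ne
    intro n _ hn h0
    apply hn
    simp [h0]
  rw [e1]
  refine key.trans ?_
  have hA0 : (0 : ℝ) < A := by exact_mod_cast hA
  have hB0 : (0 : ℝ) < B := by exact_mod_cast hB
  have hV0 : (0 : ℝ) < V := by exact_mod_cast hV
  have hK0 : (0 : ℝ) < K := by exact_mod_cast (by omega : 0 < K)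
  have b1 : ∑ x ∈ (SP ×ˢ Icc 1 V).filter fun x => F x.1 x.2 ≠ 0, ‖F x.1 x.2‖ ^ 2 ≤
      (SP.card * V : ℝ) := by
    refine (sum_le_card_nsmul _ _ 1 fun x _ =>
      pow_le_one₀ (norm_nonneg _) (hF _ _)).trans ?_
    rw [nsmul_eq_mul, mul_one]
    have h1 := card_filter_le (SP ×ˢ Icc 1 V) fun x => F x.1 x.2 ≠ 0
    rw [card_product, Nat.card_Icc, Nat.add_sub_cancel] at h1
    exact_mod_cast h1
  have b2 : ∑ n ∈ S.filter fun n => β n ≠ 0, N2 (Ioc 0 (N * l)) (fun y => β n * h n y) ≤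
      μ * N0 * h2 := by
    refine (sum_le_card_nsmul _ _ h2 fun n hn =>
      (s1b_N2_mul (hβ n) _ _).trans (hN n (hsub hn))).trans ?_
    rw [nsmul_eq_mul]
    refine mul_le_mul_of_nonneg_right ?_ hh2
    have h1 := s1b_card hμ hsub (Ioc N0 (2 * N0)) fun n hn => mem_Ioc.2 (hpr n (hsub hn))
    rw [Nat.card_Ioc, show 2 * N0 - N0 = N0 by omega] at h1
    exact_mod_cast h1
  have b3 : (5 * ((μ * (2 * (K ^ 2 * l / (16 * V)) + 1) : ℕ) : ℝ) +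
      28 * ((μ * (N0 / B + 1) : ℕ) : ℝ) / (K : ℝ) ^ 2) ≤
      5 * μ * ((K : ℝ) ^ 2 * l / (8 * V) + 1) + 56 * μ * N0 / (B * (K : ℝ) ^ 2) := by
    have h1 : ((K ^ 2 * l / (16 * V) : ℕ) : ℝ) ≤ (K : ℝ) ^ 2 * l / (16 * V) := by
      have := Nat.cast_div_le (α := ℝ) (m := K ^ 2 * l) (n := 16 * V)
      push_cast at this
      exact this
    have h3 : ((N0 / B : ℕ) : ℝ) ≤ (N0 : ℝ) / B := Nat.cast_div_le
    have h4 : (1 : ℝ) ≤ (N0 : ℝ) / B := by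
      rw [le_div_iff₀ hB0, one_mul]
      exact_mod_cast hBN
    have h5 : (K : ℝ) ^ 2 * l / (8 * V) = 2 * ((K : ℝ) ^ 2 * l / (16 * V)) := by
      field_simp
      ring
    have h6 : (56 * μ * N0 / (B * (K : ℝ) ^ 2) : ℝ) =
        28 * (μ * (2 * ((N0 : ℝ) / B))) / (K : ℝ) ^ 2 := by
      field_simp
      ring
    rw [h5, h6, Nat.cast_mul, Nat.cast_mul, Nat.cast_add, Nat.cast_add, Nat.cast_mul,
      Nat.cast_one, Nat.cast_ofNat, mul_assoc]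
    gcongr
    linarith
  have b4 : ∑ n ∈ S.filter fun n => β n ≠ 0,
      ∑ n' ∈ (S.filter fun n => β n ≠ 0) with pr n' ≡ pr n [MOD b], ∑ i ∈ range N,
        ∑ q ∈ (a * (16 * Nat.dist (pr n) (pr n') / b)).divisors,
          Mq (Iv l i) (fun y => β n * h n y) q ≤
      ∑ n ∈ S, ∑ n' ∈ S with pr n' ≡ pr n [MOD b], ∑ i ∈ range N,
        ∑ q ∈ (a * (16 * Nat.dist (pr n) (pr n') / b)).divisors, Mq (Iv l i) (h n) q := by
    refine le_trans (sum_le_sum fun n _ => ?_) (sum_le_sum_of_subset_of_nonneg hsub fun n _ _ =>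
      sum_nonneg fun _ _ => sum_nonneg fun _ _ => sum_nonneg fun _ _ => Mq_nonneg ..)
    refine le_trans (sum_le_sum fun n' _ => sum_le_sum fun i _ => sum_le_sum fun q _ =>
      s1b_Mq_mul (hβ n) _ _ _) (sum_le_sum_of_subset_of_nonneg (filter_subset_filter _ hsub)
        fun n' _ _ => sum_nonneg fun _ _ => sum_nonneg fun _ _ => Mq_nonneg ..)
  have n1 : 0 ≤ ∑ n ∈ S.filter fun n => β n ≠ 0, N2 (Ioc 0 (N * l)) (fun y => β n * h n y) :=
    sum_nonneg fun _ _ => N2_nonneg ..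
  have n2 : 0 ≤ ∑ n ∈ S.filter fun n => β n ≠ 0,
      ∑ n' ∈ (S.filter fun n => β n ≠ 0) with pr n' ≡ pr n [MOD b], ∑ i ∈ range N,
        ∑ q ∈ (a * (16 * Nat.dist (pr n) (pr n') / b)).divisors,
          Mq (Iv l i) (fun y => β n * h n y) q :=
    sum_nonneg fun _ _ => sum_nonneg fun _ _ => sum_nonneg fun _ _ => sum_nonneg fun _ _ =>
      Mq_nonneg ..
  refine mul_le_mul (mul_le_mul_of_nonneg_right b1 (by positivity))
    (add_le_add (mul_le_mul b3 b2 n1 (by positivity))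
      (mul_le_mul_of_nonneg_left b4 (by positivity))) (by positivity) (by positivity)

theorem s1_avg {ι : Type} [DecidableEq ι] (S : Finset ι) (pr : ι → ℕ) (h : ι → ℤ → ℂ)
    (SA SB SP : Finset ℕ) (β : ℕ → ℕ → ι → ℂ) (F : ℕ → ℕ → ℕ → ℕ → ℂ)
    {A B V K l N N0 μ z : ℕ} {h2 Sm : ℝ} (hA : 0 < A) (hB : 0 < B) (hAV : A ≤ V) (hK : 2 ≤ K)
    (hl : 0 < l) (hz : 1 ≤ z) (hBN : B ≤ N0) (hh2 : 0 ≤ h2)
    (hSA : ∀ a ∈ SA, A < a ∧ a ≤ 2 * A ∧ Odd a) (hSB : ∀ b ∈ SB, B < b ∧ b ≤ 2 * B ∧ Odd b)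
    (hpr : ∀ n ∈ S, N0 < pr n ∧ pr n ≤ 2 * N0) (hμ : ∀ x, (S.filter fun n => pr n = x).card ≤ μ)
    (hh : ∀ n ∈ S, ∀ y, h n y ≠ 0 → y ∈ Ioc (0 : ℤ) (N * l))
    (hN : ∀ n ∈ S, N2 (Ioc 0 (N * l)) (h n) ≤ h2)
    (hS : ∑ n ∈ S, ∑ i ∈ range N, ∑ q ∈ Icc 1 (z ^ 2), Mq (Iv l i) (h n) q ≤ Sm)
    (hβ : ∀ a b n, ‖β a b n‖ ≤ 1) (sβ : ∀ a b n, β a b n ≠ 0 → (pr n).Coprime a)
    (hF : ∀ a b P m, ‖F a b P m‖ ≤ 1) (sF : ∀ a b P m, F a b P m ≠ 0 → m.Coprime b) :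
    (∑ a ∈ SA, ∑ b ∈ SB, if a.Coprime b then
      ‖∑ P ∈ SP, ∑ m ∈ Icc 1 V, F a b P m * ∑ n ∈ S, ∑ y ∈ Ioc (0 : ℤ) (N * l),
        if (a : ℤ) * P = b * y + 16 * pr n * m then β a b n * h n y else 0‖ else 0) ^ 2 ≤
      (A * B * SP.card * V : ℝ) * ((V : ℝ) / A) *
        ((5 * μ * ((K : ℝ) ^ 2 * l / (8 * V) + 1) + 56 * μ * N0 / (B * (K : ℝ) ^ 2)) *
            (A * B * μ * N0 * h2) +
          5 / l * B * (8 * μ * A * (16 * N0 / B) * Sm + 100 * (Nat.log 2 (32 * A * N0) + 1) *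
            (8 * μ * A * (16 * N0 / B) / z * l + 64 * μ * A ^ 3 * (16 * N0 / B) ^ 2) *
              (μ * N0 * h2))) := by
  have cA : (SA.card : ℝ) ≤ A := by
    have h1 : SA ⊆ Ioc A (2 * A) := fun a ha => mem_Ioc.2 ⟨(hSA a ha).1, (hSA a ha).2.1⟩
    have h3 := card_le_card h1
    rw [Nat.card_Ioc, show 2 * A - A = A by omega] at h3
    exact_mod_cast h3
  have cB : (SB.card : ℝ) ≤ B := by
    have h1 : SB ⊆ Ioc B (2 * B) := fun b hb => mem_Ioc.2 ⟨(hSB b hb).1, (hSB b hb).2.1⟩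
    have h3 := card_le_card h1
    rw [Nat.card_Ioc, show 2 * B - B = B by omega] at h3
    exact_mod_cast h3
  have cS : (S.card : ℝ) ≤ μ * N0 := by
    have h1 := s1b_card hμ Subset.rfl (Ioc N0 (2 * N0)) fun n hn => mem_Ioc.2 (hpr n hn)
    rw [Nat.card_Ioc, show 2 * N0 - N0 = N0 by omega] at h1
    exact_mod_cast h1
  have hSm : 0 ≤ Sm := le_trans
    (sum_nonneg fun _ _ => sum_nonneg fun _ _ => sum_nonneg fun _ _ => Mq_nonneg ..) hS
  obtain ⟨c0, hc0⟩ : ∃ c0 : ℝ, c0 = (SP.card * V : ℝ) * ((V : ℝ) / A) := ⟨_, rfl⟩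
  obtain ⟨c1, hc1⟩ : ∃ c1 : ℝ, c1 =
    5 * μ * ((K : ℝ) ^ 2 * l / (8 * V) + 1) + 56 * μ * N0 / (B * (K : ℝ) ^ 2) := ⟨_, rfl⟩
  obtain ⟨c2, hc2⟩ : ∃ c2 : ℝ, c2 = 8 * μ * A * (16 * N0 / B) := ⟨_, rfl⟩
  obtain ⟨c3, hc3⟩ : ∃ c3 : ℝ, c3 = 100 * (Nat.log 2 (32 * A * N0) + 1) *
    (8 * μ * A * (16 * N0 / B) / z * l + 64 * μ * A ^ 3 * (16 * N0 / B) ^ 2) := ⟨_, rfl⟩
  obtain ⟨G, hG⟩ : ∃ G : ℕ → ℕ → ℝ, ∀ a b, G a b =
      ∑ n ∈ S, ∑ n' ∈ S with pr n' ≡ pr n [MOD b], ∑ i ∈ range N,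
        ∑ q ∈ (a * (16 * Nat.dist (pr n) (pr n') / b)).divisors, Mq (Iv l i) (h n) q :=
    ⟨_, fun _ _ => rfl⟩
  obtain ⟨X, hX⟩ : ∃ X : ℕ → ℕ → ℝ, ∀ a b, X a b = if a.Coprime b then
      ‖∑ P ∈ SP, ∑ m ∈ Icc 1 V, F a b P m * ∑ n ∈ S, ∑ y ∈ Ioc (0 : ℤ) (N * l),
        if (a : ℤ) * P = b * y + 16 * pr n * m then β a b n * h n y else 0‖ else 0 :=
    ⟨_, fun _ _ => rfl⟩
  have p0 : 0 ≤ c0 := by rw [hc0]; positivity
  have p1 : 0 ≤ c1 := by rw [hc1]; positivity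
  have p2 : 0 ≤ c2 := by rw [hc2]; positivity
  have p3 : 0 ≤ c3 := by rw [hc3]; positivity
  have pG : ∀ a b, 0 ≤ G a b := fun a b => by
    rw [hG]
    exact sum_nonneg fun _ _ => sum_nonneg fun _ _ => sum_nonneg fun _ _ =>
      sum_nonneg fun _ _ => Mq_nonneg ..
  have hXb : ∀ a ∈ SA, ∀ b ∈ SB, X a b ^ 2 ≤ c0 * (c1 * (μ * N0 * h2) + 5 / l * G a b) := by
    intro a ha b hb
    rw [hX]
    split_ifs with hab
    · rw [hc0, hc1, hG]
      exact s1b_pair S pr h SP (β a b) (F a b) hA hB hAV hK hl hBN hh2 (hSA a ha) (hSB b hb) hab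
        hpr hμ hh hN (hβ a b) (sβ a b) (hF a b) (sF a b)
    · have := pG a b
      rw [zero_pow two_ne_zero]
      positivity
  have hGb : ∀ b ∈ SB, ∑ a ∈ SA, G a b ≤ c2 * Sm + c3 * (μ * N0 * h2) := by
    intro b hb
    have h1 : ∑ a ∈ SA, G a b = ∑ n ∈ S, ∑ i ∈ range N, ∑ a ∈ SA,
        ∑ n' ∈ S with pr n' ≡ pr n [MOD b],
          ∑ q ∈ (a * (16 * Nat.dist (pr n) (pr n') / b)).divisors, Mq (Iv l i) (h n) q := by
      simp only [hG]
      rw [sum_comm]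
      refine sum_congr rfl fun n _ => ?_
      rw [sum_comm (s := range N)]
      exact sum_congr rfl fun a _ => sum_comm
    have h3 : ∀ n ∈ S, ∑ i ∈ range N, ∑ a ∈ SA, ∑ n' ∈ S with pr n' ≡ pr n [MOD b],
          ∑ q ∈ (a * (16 * Nat.dist (pr n) (pr n') / b)).divisors, Mq (Iv l i) (h n) q ≤
        c2 * ∑ i ∈ range N, ∑ q ∈ Icc 1 (z ^ 2), Mq (Iv l i) (h n) q + c3 * h2 := by
      intro n hn
      have h4 : ∀ n' ∈ S, Nat.dist (pr n) (pr n') ≤ N0 := by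
        intro n' hn'
        have h5 := hpr n hn
        have h6 := hpr n' hn'
        unfold Nat.dist
        omega
      refine (sum_le_sum fun i _ => s1b_third hB (hSB b hb).1.le hz hμ
        (fun a ha => (hSA a ha).2.1) h4 l i (h n)).trans ?_
      rw [← hc3, ← hc2, sum_add_distrib, ← mul_sum, ← mul_sum, s1b_N2_sum]
      exact add_le_add le_rfl (mul_le_mul_of_nonneg_left (hN n hn) p3)
    rw [h1]
    refine (sum_le_sum h3).trans ?_
    rw [sum_add_distrib, ← mul_sum, sum_const, nsmul_eq_mul]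
    refine add_le_add (mul_le_mul_of_nonneg_left hS p2) ?_
    calc (S.card : ℝ) * (c3 * h2) ≤ μ * N0 * (c3 * h2) :=
          mul_le_mul_of_nonneg_right cS (by positivity)
      _ = c3 * (μ * N0 * h2) := by ring
  have hsum : ∑ a ∈ SA, ∑ b ∈ SB, X a b ^ 2 ≤
      c0 * (c1 * (A * B * μ * N0 * h2) + 5 / l * B * (c2 * Sm + c3 * (μ * N0 * h2))) := by
    refine (sum_le_sum fun a ha => sum_le_sum fun b hb => hXb a ha b hb).trans ?_
    simp only [← mul_sum]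
    refine mul_le_mul_of_nonneg_left ?_ p0
    simp only [sum_add_distrib, sum_const, nsmul_eq_mul, ← mul_sum]
    refine add_le_add ?_ ?_
    · calc (SA.card : ℝ) * (SB.card * (c1 * (μ * N0 * h2))) ≤ A * (B * (c1 * (μ * N0 * h2))) := by
            gcongr
        _ = c1 * (A * B * μ * N0 * h2) := by ring
    · rw [mul_assoc]
      refine mul_le_mul_of_nonneg_left ?_ (by positivity)
      rw [sum_comm]
      refine (sum_le_card_nsmul _ _ _ hGb).trans ?_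
      rw [nsmul_eq_mul]
      exact mul_le_mul_of_nonneg_right cB (by positivity)
  have hcs : (∑ a ∈ SA, ∑ b ∈ SB, X a b) ^ 2 ≤ A * B * ∑ a ∈ SA, ∑ b ∈ SB, X a b ^ 2 := by
    rw [← sum_product', ← sum_product' (f := fun a b => X a b ^ 2)]
    refine sq_sum_le_card_mul_sum_sq.trans (mul_le_mul_of_nonneg_right ?_
      (sum_nonneg fun _ _ => sq_nonneg _))
    rw [card_product, Nat.cast_mul]
    gcongr
  simp only [← hX]
  rw [← hc1, ← hc3, ← hc2]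
  refine hcs.trans ((mul_le_mul_of_nonneg_left hsum (by positivity)).trans_eq ?_)
  rw [hc0]
  ring

end Pool.Agent.Lib.MP_788af2_nt.R0
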