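import Pool.Agent.Lib.MP_788af2_nt.R0.S1b
import Pool.Agent.Lib.MP_788af2_nt.R0.Jac2
import Pool.Agent.Lib.MP_788af2_nt.R0.Base

namespace Pool.Agent.Lib.MP_788af2_nt.R0

open Finset Filter
open scoped NumberTheorySymbols

/-! The spin sum for a dyadic range of `s k`, without coprimality condition. -/

/-- The numerical inequality. -/
lemma s1c_num {A B p V N0 Y X K l z z' H Lg E g : ℝ} (hA : 0 < A) (hB : 0 < B) (hp0 : 0 ≤ p)
    (hV : 0 < V) (hN0 : 0 < N0) (hY : 0 < Y) (hX : 0 < X) (hK : 1 ≤ K) (hl : 0 < l) (hz : 0 < z)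
    (hz' : 0 < z') (hH0 : 0 ≤ H) (_hL0 : 0 ≤ Lg) (hE : 0 < E) (hg : 0 ≤ g)
    (hVN : V * N0 = 4 * X) (hBY : B * Y = 4 * X) (hp : A * p ≤ 32 * X)
    (hl1 : K ^ 3 * l ≤ 2 * Y) (hl2 : Y ≤ K ^ 3 * l) (hBK : B * K ≤ N0)
    (hAN : A ^ 2 * N0 * E ≤ X) (hH : H ≤ 19 * g) (hL : Lg ≤ 43 * g) :
    (A * B * p * V) * (V / A) *
        ((5 * 4 * (K ^ 2 * l / (8 * V) + 1) + 56 * 4 * N0 / (B * K ^ 2)) *
            (A * B * 4 * N0 * Y) +
          5 / l * B * (8 * 4 * A * (16 * N0 / B) *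
              (K ^ 3 * z ^ 4 * (Y * (8 * g * Y * (2 * N0) / z' * H))) + 100 * Lg *
            (8 * 4 * A * (16 * N0 / B) / z * l + 64 * 4 * A ^ 3 * (16 * N0 / B) ^ 2) *
              (4 * N0 * Y))) ≤
      X ^ 4 * (3 * 10 ^ 6 / K + 2 * 10 ^ 9 * g ^ 2 * K ^ 6 * z ^ 4 / z' + 10 ^ 11 * g / z +
        3 * 10 ^ 12 * g * K ^ 3 / E) := by
  have hK0 : 0 < K := by linarith
  have hYl : Y / l ≤ K ^ 3 := by rw [div_le_iff₀ hl]; exact hl2
  have e : (A * B * p * V) * (V / A) *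
        ((5 * 4 * (K ^ 2 * l / (8 * V) + 1) + 56 * 4 * N0 / (B * K ^ 2)) *
            (A * B * 4 * N0 * Y) +
          5 / l * B * (8 * 4 * A * (16 * N0 / B) *
              (K ^ 3 * z ^ 4 * (Y * (8 * g * Y * (2 * N0) / z' * H))) + 100 * Lg *
            (8 * 4 * A * (16 * N0 / B) / z * l + 64 * 4 * A ^ 3 * (16 * N0 / B) ^ 2) *
              (4 * N0 * Y))) =
      4 * (A * p) * (B * Y) * (V * N0) *
          (5 / 2 * (B * (K ^ 3 * l) / K) + 20 * (B * K * V / K) + 224 * (V * N0 / K / K)) +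
        40960 * (A * p) * (V * N0) ^ 2 * (B * Y) * g * H * K ^ 3 * z ^ 4 / z' * (Y / l) +
        1024000 * Lg * (A * p) * (B * Y) * (V * N0) ^ 2 / z +
        131072000 * Lg * (A * p) * (V * N0) ^ 2 * (A ^ 2 * N0 * E / E) * (Y / l) := by
    field_simp
    ring
  rw [e, hVN, hBY]
  have h1 : 4 * (A * p) * (4 * X) * (4 * X) *
      (5 / 2 * (B * (K ^ 3 * l) / K) + 20 * (B * K * V / K) + 224 * (4 * X / K / K)) ≤
      X ^ 4 * (3 * 10 ^ 6 / K) := by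
    have a1 : B * (K ^ 3 * l) / K ≤ 8 * X / K := by
      refine div_le_div_of_nonneg_right ?_ hK0.le
      calc B * (K ^ 3 * l) ≤ B * (2 * Y) := by gcongr
        _ = 8 * X := by linarith
    have a2 : B * K * V / K ≤ 4 * X / K := by
      refine div_le_div_of_nonneg_right ?_ hK0.le
      calc B * K * V ≤ N0 * V := by gcongr
        _ = 4 * X := by linarith
    have a3 : 4 * X / K / K ≤ 4 * X / K := div_le_self (by positivity) hK
    calc _ ≤ 4 * (32 * X) * (4 * X) * (4 * X) *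
          (5 / 2 * (8 * X / K) + 20 * (4 * X / K) + 224 * (4 * X / K)) := by gcongr
      _ = X ^ 4 * (2039808 / K) := by ring
      _ ≤ _ := by gcongr; norm_num
  have h2 : 40960 * (A * p) * (4 * X) ^ 2 * (4 * X) * g * H * K ^ 3 * z ^ 4 / z' * (Y / l) ≤
      X ^ 4 * (2 * 10 ^ 9 * g ^ 2 * K ^ 6 * z ^ 4 / z') := by
    calc _ ≤ 40960 * (32 * X) * (4 * X) ^ 2 * (4 * X) * g * (19 * g) * K ^ 3 * z ^ 4 / z' *
          K ^ 3 := by gcongr
      _ = X ^ 4 * (1593835520 * g ^ 2 * K ^ 6 * z ^ 4 / z') := by ring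
      _ ≤ _ := by gcongr; norm_num
  have h3 : 1024000 * Lg * (A * p) * (4 * X) * (4 * X) ^ 2 / z ≤ X ^ 4 * (10 ^ 11 * g / z) := by
    calc _ ≤ 1024000 * (43 * g) * (32 * X) * (4 * X) * (4 * X) ^ 2 / z := by gcongr
      _ = X ^ 4 * (90177536000 * g / z) := by ring
      _ ≤ _ := by gcongr; norm_num
  have h4 : 131072000 * Lg * (A * p) * (4 * X) ^ 2 * (A ^ 2 * N0 * E / E) * (Y / l) ≤
      X ^ 4 * (3 * 10 ^ 12 * g * K ^ 3 / E) := by
    calc _ ≤ 131072000 * (43 * g) * (32 * X) * (4 * X) ^ 2 * (X / E) * K ^ 3 := by gcongr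
      _ = X ^ 4 * (2885681152000 * g * K ^ 3 / E) := by ring
      _ ≤ _ := by gcongr; norm_num
  calc _ ≤ X ^ 4 * (3 * 10 ^ 6 / K) + X ^ 4 * (2 * 10 ^ 9 * g ^ 2 * K ^ 6 * z ^ 4 / z') +
        X ^ 4 * (10 ^ 11 * g / z) + X ^ 4 * (3 * 10 ^ 12 * g * K ^ 3 / E) := by linarith
    _ = _ := by ring

/-- The choice of the exponents. -/
lemma s1c_exp {g E : ℝ} (k : ℕ) (hg : 10 ^ 13 ≤ g)
    (hE : 12 * 10 ^ 12 * g ^ (8 * k + 4) ≤ E) :
    3 * 10 ^ 6 / g ^ (2 * k + 1) +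
        2 * 10 ^ 9 * g ^ 2 * (g ^ (2 * k + 1)) ^ 6 * (g ^ (2 * k + 2)) ^ 4 / g ^ (22 * k + 17) +
        10 ^ 11 * g / g ^ (2 * k + 2) + 3 * 10 ^ 12 * g * (g ^ (2 * k + 1)) ^ 3 / E ≤
      1 / (g ^ k) ^ 2 := by
  have hg0 : 0 < g := lt_of_lt_of_le (by norm_num) hg
  have hG : 0 < g ^ k := by positivity
  have hE0 : 0 < E := lt_of_lt_of_le (by positivity) hE
  have h1 : 3 * 10 ^ 6 / g ^ (2 * k + 1) = (3 * 10 ^ 6 / g) * (1 / (g ^ k) ^ 2) := by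
    field_simp
    ring
  have h2 : 2 * 10 ^ 9 * g ^ 2 * (g ^ (2 * k + 1)) ^ 6 * (g ^ (2 * k + 2)) ^ 4 /
      g ^ (22 * k + 17) = (2 * 10 ^ 9 / g) * (1 / (g ^ k) ^ 2) := by
    field_simp
    ring
  have h3 : 10 ^ 11 * g / g ^ (2 * k + 2) = (10 ^ 11 / g) * (1 / (g ^ k) ^ 2) := by
    field_simp
    ring
  have h4 : 3 * 10 ^ 12 * g * (g ^ (2 * k + 1)) ^ 3 / E ≤ (1 / 4) * (1 / (g ^ k) ^ 2) := by
    calc _ ≤ 3 * 10 ^ 12 * g * (g ^ (2 * k + 1)) ^ 3 / (12 * 10 ^ 12 * g ^ (8 * k + 4)) := by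
          gcongr
      _ = _ := by
          field_simp
          ring
  have b1 : 3 * 10 ^ 6 / g ≤ 1 / 4 := by rw [div_le_iff₀ hg0]; linarith
  have b2 : 2 * 10 ^ 9 / g ≤ 1 / 4 := by rw [div_le_iff₀ hg0]; linarith
  have b3 : 10 ^ 11 / g ≤ 1 / 4 := by rw [div_le_iff₀ hg0]; linarith
  have hw : 0 ≤ 1 / (g ^ k) ^ 2 := by positivity
  rw [h1, h2, h3]
  nlinarith [mul_le_mul_of_nonneg_right b1 hw, mul_le_mul_of_nonneg_right b2 hw,
    mul_le_mul_of_nonneg_right b3 hw]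

/-- The symbol restricted to a set of natural numbers. -/
noncomputable def s1cH (SQ : Finset ℕ) (n : ℕ × ℕ) (y : ℤ) : ℂ :=
  if y ∈ SQ.image (fun Q : ℕ => (Q : ℤ)) then (J(y | n.1) : ℂ) else 0

lemma s1c_norm_jac (a : ℤ) (n : ℕ) : ‖(J(a | n) : ℂ)‖ ≤ 1 := by
  rcases jacobiSym.trichotomy a n with h | h | h <;> simp [h]

lemma s1c_sum (SQ : Finset ℕ) (I : Finset ℤ) (n : ℕ × ℕ) (f : ℤ → ℂ) :
    ∑ y ∈ I, f y * s1cH SQ n y =
      ∑ Q ∈ SQ, if (Q : ℤ) ∈ I then f Q * (J((Q : ℤ) | n.1) : ℂ) else 0 := by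
  classical
  have h1 : ∑ y ∈ I, f y * s1cH SQ n y =
      ∑ y ∈ I ∩ SQ.image (fun Q : ℕ => (Q : ℤ)), f y * (J(y | n.1) : ℂ) := by
    rw [← Finset.filter_mem_eq_inter, Finset.sum_filter]
    refine sum_congr rfl fun y _ => ?_
    unfold s1cH
    split_ifs <;> simp
  rw [h1, inter_comm, ← Finset.filter_mem_eq_inter, Finset.sum_filter, Finset.sum_image]
  intro a _ b _ hab
  exact Nat.cast_injective (R := ℤ) hab

lemma s1c_N2 (SQ : Finset ℕ) (I : Finset ℤ) (n : ℕ × ℕ) : N2 I (s1cH SQ n) ≤ SQ.card := by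
  classical
  unfold N2
  calc ∑ y ∈ I, ‖s1cH SQ n y‖ ^ 2
      ≤ ∑ y ∈ I, if y ∈ SQ.image (fun Q : ℕ => (Q : ℤ)) then (1 : ℝ) else 0 := by
        refine sum_le_sum fun y _ => ?_
        unfold s1cH
        split_ifs
        · exact pow_le_one₀ (norm_nonneg _) (s1c_norm_jac _ _)
        · simp
    _ = ((I.filter fun y => y ∈ SQ.image (fun Q : ℕ => (Q : ℤ))).card : ℝ) := by
        rw [Finset.sum_boole]
    _ ≤ ((SQ.image (fun Q : ℕ => (Q : ℤ))).card : ℝ) := by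
        exact_mod_cast card_le_card fun y hy => (mem_filter.1 hy).2
    _ ≤ SQ.card := by exact_mod_cast card_image_le

/-- The exponential sums of the symbols are small on average. -/
lemma s1c_FT {g z' Y N0 : ℕ} (hz : 0 < z') (SQ 𝒦 : Finset ℕ) (S : Finset (ℕ × ℕ))
    (hQ : ∀ Q ∈ SQ, 1 ≤ Q ∧ Q ≤ Y ∧ good g Q ∧ z' ^ 6 ≤ Q)
    (hS : ∀ n ∈ S, 1 ≤ n.1 ∧ n.2 ∈ 𝒦 ∧ good g n.1 ∧ z' ^ 6 ≤ n.1 ∧ n.1 * n.2 ≤ 2 * N0)
    (hK : ∀ κ ∈ 𝒦, 0 < κ) (I : Finset ℤ) (θ : ℝ) :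
    ∑ n ∈ S, ‖FT I (s1cH SQ n) θ‖ ^ 2 ≤
      Y * (8 * g * Y * (2 * N0) / z' * ∑ κ ∈ 𝒦, (κ : ℝ)⁻¹) := by
  classical
  set α : ℕ → ℂ := fun m => if m ∈ SQ ∧ (m : ℤ) ∈ I then ex (θ * (m : ℤ)) else 0 with hα
  have hα1 : ∀ m, ‖α m‖ ≤ 1 := by
    intro m
    simp only [hα]
    split_ifs
    · exact (norm_ex _).le
    · simp
  have hFT : ∀ n : ℕ × ℕ, FT I (s1cH SQ n) θ =
      ∑ m ∈ Icc 1 Y, α m * (J((m : ℤ) | n.1) : ℂ) := by
    intro n
    unfold FT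
    rw [sum_congr rfl fun y _ => mul_comm (s1cH SQ n y) (ex (θ * y)), s1c_sum]
    have hsub : SQ ⊆ Icc 1 Y := fun Q hq => mem_Icc.2 ⟨(hQ Q hq).1, (hQ Q hq).2.1⟩
    rw [← sum_subset hsub (f := fun m => α m * (J((m : ℤ) | n.1) : ℂ))]
    · refine sum_congr rfl fun Q hq => ?_
      simp only [hα, hq, true_and]
      split_ifs <;> simp
    · intro m _ hm
      simp [hα, hm]
  have hb : ∀ s : ℕ, ‖∑ m ∈ Icc 1 Y, α m * (J((m : ℤ) | s) : ℂ)‖ ≤ Y := by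
    intro s
    calc _ ≤ ∑ m ∈ Icc 1 Y, ‖α m * (J((m : ℤ) | s) : ℂ)‖ := norm_sum_le _ _
      _ ≤ ∑ _m ∈ Icc 1 Y, (1 : ℝ) := by
          refine sum_le_sum fun m _ => ?_
          rw [norm_mul]
          exact mul_le_one₀ (hα1 m) (norm_nonneg _) (s1c_norm_jac _ _)
      _ = Y := by simp
  have hsub : S ⊆ 𝒦.biUnion fun κ =>
      ((Icc 1 (2 * N0 / κ)).filter fun s => good g s ∧ z' ^ 6 ≤ s).image fun s => (s, κ) := by
    intro n hn
    obtain ⟨h1, h2, h3, h4, h5⟩ := hS n hn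
    refine mem_biUnion.2 ⟨n.2, h2, mem_image.2 ⟨n.1, mem_filter.2 ⟨mem_Icc.2 ⟨h1, ?_⟩, h3, h4⟩,
      rfl⟩⟩
    exact (Nat.le_div_iff_mul_le (hK _ h2)).2 h5
  calc ∑ n ∈ S, ‖FT I (s1cH SQ n) θ‖ ^ 2
      ≤ ∑ n ∈ S, Y * ‖∑ m ∈ Icc 1 Y, α m * (J((m : ℤ) | n.1) : ℂ)‖ := by
        refine sum_le_sum fun n _ => ?_
        rw [hFT, pow_two]
        exact mul_le_mul_of_nonneg_right (hb _) (norm_nonneg _)
    _ = Y * ∑ n ∈ S, ‖∑ m ∈ Icc 1 Y, α m * (J((m : ℤ) | n.1) : ℂ)‖ := by rw [mul_sum]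
    _ ≤ Y * ∑ κ ∈ 𝒦, ∑ s ∈ (Icc 1 (2 * N0 / κ)).filter fun s => good g s ∧ z' ^ 6 ≤ s,
          ‖∑ m ∈ Icc 1 Y, α m * (J((m : ℤ) | s) : ℂ)‖ := by
        gcongr
        refine (sum_le_sum_of_subset_of_nonneg hsub fun _ _ _ => norm_nonneg _).trans ?_
        rw [sum_biUnion]
        · refine sum_le_sum fun κ _ => ?_
          rw [sum_image]
          intro a _ b _ hab
          exact (Prod.ext_iff.1 hab).1
        · intro a _ b _ hab
          refine disjoint_left.2 fun n h1 h2 => hab ?_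
          obtain ⟨s, -, rfl⟩ := mem_image.1 h1
          obtain ⟨s', -, h⟩ := mem_image.1 h2
          exact (Prod.ext_iff.1 h).2.symm
    _ ≤ Y * ∑ κ ∈ 𝒦, 8 * g * Y * (2 * N0) / z' * (κ : ℝ)⁻¹ := by
        gcongr with κ hκ
        refine (jac_l1b Y (2 * N0 / κ) g hz α hα1 ?_).trans ?_
        · intro m hm
          have : m ∈ SQ := by
            by_contra h
            exact hm (by simp [hα, h])
          exact (hQ m this).2.2
        · have h1 : ((2 * N0 / κ : ℕ) : ℝ) ≤ 2 * N0 / κ := by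
            have := Nat.cast_div_le (α := ℝ) (m := 2 * N0) (n := κ)
            push_cast at this
            exact this
          calc 8 * (g : ℝ) * Y * ((2 * N0 / κ : ℕ) : ℝ) / z' ≤ 8 * g * Y * (2 * N0 / κ) / z' := by
                gcongr
            _ = _ := by ring
    _ = _ := by rw [← mul_sum]

lemma s1c_Sm (S : Finset (ℕ × ℕ)) (h : ℕ × ℕ → ℤ → ℂ) (l N z : ℕ) {W : ℝ} (hW : 0 ≤ W)
    (hb : ∀ (I : Finset ℤ) (θ : ℝ), ∑ n ∈ S, ‖FT I (h n) θ‖ ^ 2 ≤ W) :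
    ∑ n ∈ S, ∑ i ∈ range N, ∑ q ∈ Icc 1 (z ^ 2), Mq (Iv l i) (h n) q ≤ N * z ^ 4 * W := by
  rw [sum_comm]
  calc ∑ i ∈ range N, ∑ n ∈ S, ∑ q ∈ Icc 1 (z ^ 2), Mq (Iv l i) (h n) q
      ≤ ∑ _i ∈ range N, (z : ℝ) ^ 4 * W := by
        refine sum_le_sum fun i _ => ?_
        rw [sum_comm]
        calc ∑ q ∈ Icc 1 (z ^ 2), ∑ n ∈ S, Mq (Iv l i) (h n) q
            ≤ ∑ _q ∈ Icc 1 (z ^ 2), (z : ℝ) ^ 2 * W := by
              refine sum_le_sum fun q hq => ?_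
              unfold Mq
              rw [sum_comm]
              calc _ ≤ ∑ _r ∈ (range q).filter fun r => r.Coprime q, W :=
                    sum_le_sum fun r _ => hb _ _
                _ = (((range q).filter fun r => r.Coprime q).card : ℝ) * W := by simp
                _ ≤ (z : ℝ) ^ 2 * W := by
                    gcongr
                    have h1 : ((range q).filter fun r => r.Coprime q).card ≤ z ^ 2 :=
                      (card_filter_le _ _).trans (by simpa using (mem_Icc.1 hq).2)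
                    exact_mod_cast h1
          _ = (z : ℝ) ^ 4 * W := by simp; ring
    _ = _ := by simp; ring

/-- Rewriting the real sum in the form needed for the dispersion inequality. -/
lemma s1c_rewrite (SQ 𝒦 : Finset ℕ) (S : Finset (ℕ × ℕ)) (I : Finset ℤ) (M V a b P : ℕ)
    (F : ℕ → ℝ) (β : ℕ → ℕ → ℝ) (hI : ∀ Q ∈ SQ, (Q : ℤ) ∈ I) (hVM : V ≤ M)
    (hS : S ⊆ Icc 1 M ×ˢ 𝒦) (hS' : ∀ n ∈ Icc 1 M ×ˢ 𝒦, β n.1 n.2 ≠ 0 → n ∈ S)
    (hV : ∀ n ∈ S, ∀ Q m, a * P = b * Q + 16 * (n.1 * n.2 * m) → m ≤ V) :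
    ((∑ Q ∈ SQ, ∑ m ∈ Icc 1 M, ∑ s ∈ Icc 1 M, ∑ κ ∈ 𝒦,
        if a * P = b * Q + 16 * (s * κ * m) then F m * β s κ * (J((Q : ℤ) | s) : ℝ) else 0 : ℝ) :
          ℂ) =
      ∑ m ∈ Icc 1 V, (F m : ℂ) * ∑ n ∈ S, ∑ y ∈ I,
        if (a : ℤ) * P = b * y + 16 * ((n.1 * n.2 : ℕ) : ℤ) * m then
          (β n.1 n.2 : ℂ) * s1cH SQ n y else 0 := by
  classical
  set G : ℕ → ℕ × ℕ → ℕ → ℝ := fun m n Q =>
    if a * P = b * Q + 16 * (n.1 * n.2 * m) then F m * β n.1 n.2 * (J((Q : ℤ) | n.1) : ℝ) else 0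
    with hG
  have h1 : (∑ Q ∈ SQ, ∑ m ∈ Icc 1 M, ∑ s ∈ Icc 1 M, ∑ κ ∈ 𝒦,
        if a * P = b * Q + 16 * (s * κ * m) then F m * β s κ * (J((Q : ℤ) | s) : ℝ) else 0 : ℝ) =
      ∑ m ∈ Icc 1 M, ∑ n ∈ Icc 1 M ×ˢ 𝒦, ∑ Q ∈ SQ, G m n Q := by
    rw [sum_comm]
    refine sum_congr rfl fun m _ => ?_
    rw [sum_comm (s := Icc 1 M ×ˢ 𝒦)]
    refine sum_congr rfl fun Q _ => ?_
    rw [sum_product]
  have h2 : ∀ m, ∑ n ∈ Icc 1 M ×ˢ 𝒦, ∑ Q ∈ SQ, G m n Q = ∑ n ∈ S, ∑ Q ∈ SQ, G m n Q := by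
    intro m
    symm
    refine sum_subset hS fun n hn hn' => sum_eq_zero fun Q _ => ?_
    have : β n.1 n.2 = 0 := by
      by_contra h
      exact hn' (hS' n hn h)
    simp [hG, this]
  have h3 : ∑ m ∈ Icc 1 M, ∑ n ∈ S, ∑ Q ∈ SQ, G m n Q =
      ∑ m ∈ Icc 1 V, ∑ n ∈ S, ∑ Q ∈ SQ, G m n Q := by
    symm
    refine sum_subset (Icc_subset_Icc_right hVM) fun m hm hm' =>
      sum_eq_zero fun n hn => sum_eq_zero fun Q _ => ?_
    simp only [hG]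
    rw [if_neg]
    intro h
    exact hm' (mem_Icc.2 ⟨(mem_Icc.1 hm).1, hV n hn Q m h⟩)
  rw [h1, sum_congr rfl fun m _ => h2 m, h3]
  push_cast
  refine sum_congr rfl fun m _ => ?_
  rw [mul_sum]
  refine sum_congr rfl fun n _ => ?_
  have h4 : ∑ y ∈ I, (if (a : ℤ) * P = b * y + 16 * ((n.1 : ℤ) * n.2) * m then
          (β n.1 n.2 : ℂ) * s1cH SQ n y else 0) =
      ∑ y ∈ I, (if (a : ℤ) * P = b * y + 16 * ((n.1 : ℤ) * n.2) * m then
          (β n.1 n.2 : ℂ) else 0) * s1cH SQ n y := by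
    refine sum_congr rfl fun y _ => ?_
    split_ifs <;> simp
  rw [h4, s1c_sum, mul_sum]
  refine sum_congr rfl fun Q hq => ?_
  rw [if_pos (hI Q hq)]
  have h5 : (a * P = b * Q + 16 * (n.1 * n.2 * m)) ↔
      ((a : ℤ) * P = b * Q + 16 * ((n.1 : ℤ) * n.2) * m) := by
    constructor
    · intro h
      have : ((a * P : ℕ) : ℤ) = ((b * Q + 16 * (n.1 * n.2 * m) : ℕ) : ℤ) := by rw [h]
      push_cast at this
      linarith
    · intro h
      have : ((a * P : ℕ) : ℤ) = ((b * Q + 16 * (n.1 * n.2 * m) : ℕ) : ℤ) := by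
        push_cast
        linarith
      exact_mod_cast this
  simp only [hG, h5]
  split_ifs
  · push_cast
    ring
  · simp

lemma s1c_harm (g : ℕ) (hg : 1 ≤ g) (𝒦 : Finset ℕ) (h : 𝒦 = {1} ∨ 𝒦 = RR g) :
    ∑ κ ∈ 𝒦, (κ : ℝ)⁻¹ ≤ 19 * g := by
  have hg' : (1 : ℝ) ≤ g := by exact_mod_cast hg
  rcases h with rfl | rfl
  · simp
    linarith
  · have hsub : RR g ⊆ Ioc 0 (2 ^ (18 * g)) := by
      intro p hp
      have := mem_Ioc.1 (mem_filter.1 hp).1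
      exact mem_Ioc.2 ⟨lt_of_le_of_lt (Nat.zero_le _) this.1, this.2⟩
    refine (sum_le_sum_of_subset_of_nonneg hsub fun _ _ _ => by positivity).trans ?_
    refine (harm_le_log _).trans ?_
    push_cast
    rw [Real.log_pow]
    have := Real.log_two_lt_d9
    push_cast
    nlinarith

theorem s1_dyadic (k : ℕ) : ∃ k' : ℕ, ∀ᶠ g : ℕ in atTop, ∀ (Z : ℕ) (C : Cell g Z)
    (𝒦 : Finset ℕ) (t : ℕ) (F β : ℕ → ℕ → ℕ → ℕ → ℝ), (𝒦 = {1} ∨ 𝒦 = RR g) → 3 * g ≤ t →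
    t ≤ 31 * g + 2 → (∀ a b P m, |F a b P m| ≤ 1) → (∀ a b s κ, |β a b s κ| ≤ 1) →
    (∀ a b P m, F a b P m ≠ 0 → m.Coprime b) →
    (∀ a b s κ, β a b s κ ≠ 0 → (s * κ).Coprime a ∧ good g s ∧ g ^ k' ≤ s ∧ 2 ^ t < s * κ ∧
      s * κ ≤ 2 ^ (t + 1)) →
    ∑ a ∈ C.SA, ∑ b ∈ C.SB, (if a.Coprime b then
      |∑ P ∈ C.SP, ∑ Q ∈ C.SQ, ∑ m ∈ Icc 1 (4 * XX g), ∑ s ∈ Icc 1 (4 * XX g), ∑ κ ∈ 𝒦,
        if a * P = b * Q + 16 * (s * κ * m) then
          F a b P m * β a b s κ * (J((Q : ℤ) | s) : ℝ) else 0| else 0) ≤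
      (XX g : ℝ) ^ 2 / (g : ℝ) ^ k := by
  classical
  refine ⟨(22 * k + 17) * 6, ?_⟩
  filter_upwards [eventually_ge_atTop (10 ^ 13), ev_pow_le (12 * 10 ^ 12) (8 * k + 4),
    ev_pow_le 1 ((22 * k + 17) * 6), ev_pow_le 1 ((2 * k + 1) * 3)] with g hg hE hz6 hK3
  intro Z C 𝒦 t F β h𝒦 ht1 ht2 hF hβ sF sβ
  rw [one_mul] at hz6 hK3
  have hg10 : 10 ≤ g := le_trans (by norm_num) hg
  have hi := C.hi
  have hi' := C.hi'
  have hj := C.hj
  have hj' := C.hj'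
  set K := g ^ (2 * k + 1) with hKdef
  set z := g ^ (2 * k + 2) with hzdef
  set z' := g ^ (22 * k + 17) with hz'def
  set V := 2 ^ (40 * g + 2 - t) with hVdef
  set Y := 2 ^ (40 * g + 2 - C.j) with hYdef
  set l := Y / K ^ 3 + 1 with hldef
  have hX4 : 4 * XX g = 2 ^ (40 * g + 2) := by unfold XX; ring
  have hVN : V * 2 ^ t = 4 * XX g := by
    rw [hX4, hVdef, ← pow_add]; congr 1; omega
  have hBY : 2 ^ C.j * Y = 4 * XX g := by
    rw [hX4, hYdef, ← pow_add]; congr 1; omega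
  have hg0 : 0 < g := by omega
  have hK2 : 2 ≤ K := le_trans (by omega) (Nat.le_self_pow (by omega) g)
  have hK0 : 0 < K := by omega
  have hK3' : K ^ 3 ≤ 2 ^ g := by rw [hKdef, ← pow_mul]; exact hK3
  have hKg : K ≤ 2 ^ g := le_trans (Nat.le_self_pow (by norm_num) K) hK3'
  have hz'6 : z' ^ 6 = g ^ ((22 * k + 17) * 6) := by rw [hz'def, ← pow_mul]
  have hKY : K ^ 3 ≤ Y := hK3'.trans (Nat.pow_le_pow_right (by norm_num) (by omega))
  have hl2 : Y < K ^ 3 * l := by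
    rw [hldef]
    exact Nat.lt_mul_div_succ Y (by positivity)
  have hl1 : K ^ 3 * l ≤ 2 * Y := by
    rw [hldef, mul_add, mul_one]
    have := Nat.mul_div_le Y (K ^ 3)
    omega
  have hQ : ∀ Q ∈ C.SQ, 1 ≤ Q ∧ Q ≤ Y ∧ good g Q ∧ z' ^ 6 ≤ Q := by
    intro Q hq
    obtain ⟨h1, h2, h3⟩ := C.hQ Q hq
    have h4 : 2 ^ g < Q := by
      by_contra h
      push Not at h
      have h5 : 2 ^ C.j * Q ≤ 2 ^ C.j * 2 ^ g := Nat.mul_le_mul_left _ h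
      rw [← pow_add] at h5
      have h6 : 2 ^ (C.j + g) ≤ 2 ^ (40 * g) := Nat.pow_le_pow_right (by norm_num) (by omega)
      unfold XX at h2
      omega
    have h7 : 2 ^ 2 ≤ 2 ^ g := Nat.pow_le_pow_right (by norm_num) (by omega)
    refine ⟨h1.one_le, ?_, good_prime (by omega) h1 (by omega), ?_⟩
    · rw [← hBY] at h3
      exact Nat.le_of_mul_le_mul_left h3 (by positivity)
    · rw [hz'6]; omega
  have hcard : C.SQ.card ≤ Y := by
    have := C.card_SQ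
    rw [← hBY] at this
    exact Nat.le_of_mul_le_mul_left this (by positivity)
  set S : Finset (ℕ × ℕ) := (Icc 1 (4 * XX g) ×ˢ 𝒦).filter fun n =>
    good g n.1 ∧ z' ^ 6 ≤ n.1 ∧ 2 ^ t < n.1 * n.2 ∧ n.1 * n.2 ≤ 2 * 2 ^ t with hSdef
  have hK : ∀ κ ∈ 𝒦, 0 < κ := by
    intro κ hκ
    rcases h𝒦 with rfl | rfl
    · simp at hκ; omega
    · exact (mem_filter.1 hκ).2.pos
  have hI : ∀ Q ∈ C.SQ, (Q : ℤ) ∈ Ioc (0 : ℤ) ((K ^ 3 : ℕ) * l) := by
    intro Q hq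
    obtain ⟨h1, h2, -⟩ := hQ Q hq
    have h3 : Q ≤ K ^ 3 * l := by omega
    exact mem_Ioc.2 ⟨by exact_mod_cast h1, by exact_mod_cast h3⟩
  have hW : (0 : ℝ) ≤ Y * (8 * g * Y * (2 * (2 ^ t : ℕ)) / z' * ∑ κ ∈ 𝒦, (κ : ℝ)⁻¹) := by
    have : (0 : ℝ) ≤ ∑ κ ∈ 𝒦, (κ : ℝ)⁻¹ := sum_nonneg fun _ _ => by positivity
    positivity
  have hSm := s1c_Sm S (s1cH C.SQ) l (K ^ 3) z hW fun I θ =>
    s1c_FT (by positivity) C.SQ 𝒦 S hQ (fun n hn => by
      obtain ⟨h1, h2, h3, -, h4⟩ := mem_filter.1 hn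
      exact ⟨(mem_Icc.1 (mem_product.1 h1).1).1, (mem_product.1 h1).2, h2, h3, h4⟩) hK I θ
  have hodd : ∀ n, typ g Z n → Odd n := by
    intro n hn
    have : n.Coprime 2 := Nat.Coprime.coprime_dvd_right (by norm_num) hn.2.1
    exact Nat.coprime_two_right.1 this
  have hμ : ∀ x, (S.filter fun n => n.1 * n.2 = x).card ≤ 4 := by
    intro x
    rcases (S.filter fun n => n.1 * n.2 = x).eq_empty_or_nonempty with h | ⟨n0, hn0⟩
    · simp [h]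
    obtain ⟨hn0S, hn0x⟩ := mem_filter.1 hn0
    obtain ⟨-, -, -, h1, h2⟩ := mem_filter.1 hn0S
    have hx0 : 0 < x := by omega
    have hx1 : x ≤ 4 * XX g := by
      have : 2 * 2 ^ t ≤ 2 ^ (40 * g + 2) := by
        rw [← pow_succ']; exact Nat.pow_le_pow_right (by norm_num) (by omega)
      omega
    have h3 : (S.filter fun n => n.1 * n.2 = x).card ≤ (𝒦.filter (· ∣ x)).card := by
      refine card_le_card_of_injOn (fun n => n.2) ?_ ?_
      · intro n hn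
        obtain ⟨hnS, hnx⟩ := mem_filter.1 hn
        exact mem_filter.2 ⟨(mem_product.1 (mem_filter.1 hnS).1).2, Dvd.intro_left _ hnx⟩
      · intro n hn n' hn' h
        obtain ⟨hnS, hnx⟩ := mem_filter.1 hn
        obtain ⟨-, hnx'⟩ := mem_filter.1 hn'
        have h0 : 0 < n.2 := hK _ (mem_product.1 (mem_filter.1 hnS).1).2
        have h' : n.2 = n'.2 := h
        refine Prod.ext (Nat.eq_of_mul_eq_mul_right h0 ?_) h'
        rw [hnx, h', hnx']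
    refine h3.trans ?_
    rcases h𝒦 with rfl | rfl
    · exact (card_filter_le _ _).trans (by simp)
    · exact WW_le (by omega) hx0 hx1
  have main := s1_avg S (fun n => n.1 * n.2) (s1cH C.SQ) C.SA C.SB C.SP
    (fun a b n => (β a b n.1 n.2 : ℂ)) (fun a b P m => (F a b P m : ℂ))
    (A := 2 ^ C.i) (B := 2 ^ C.j) (V := V) (K := K) (l := l) (N := K ^ 3) (N0 := 2 ^ t) (μ := 4)
    (z := z) (h2 := Y) (by positivity) (by positivity)
    (Nat.pow_le_pow_right (by norm_num) (by omega)) hK2 (Nat.succ_pos _)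
    (Nat.one_le_iff_ne_zero.2 (by positivity))
    (Nat.pow_le_pow_right (by norm_num) (by omega)) (by positivity)
    (fun a ha => ⟨(C.hA a ha).1, by rw [← pow_succ']; exact (C.hA a ha).2.1,
      hodd a (C.hA a ha).2.2⟩)
    (fun b hb => ⟨(C.hB b hb).1, by rw [← pow_succ']; exact (C.hB b hb).2.1,
      hodd b (C.hB b hb).2.2⟩)
    (fun n hn => (mem_filter.1 hn).2.2.2) hμ
    (fun n _ y hy => by
      unfold s1cH at hy
      split_ifs at hy with h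
      · obtain ⟨Q, hq, rfl⟩ := mem_image.1 h
        exact hI Q hq
      · exact absurd rfl hy)
    (fun n _ => (s1c_N2 _ _ _).trans (by exact_mod_cast hcard)) hSm
    (fun a b n => by rw [Complex.norm_real]; exact hβ _ _ _ _)
    (fun a b n h => (sβ a b n.1 n.2 (by exact_mod_cast h)).1)
    (fun a b P m => by rw [Complex.norm_real]; exact hF _ _ _ _)
    (fun a b P m h => sF a b P m (by exact_mod_cast h))
  have hrw : ∑ a ∈ C.SA, ∑ b ∈ C.SB, (if a.Coprime b then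
      |∑ P ∈ C.SP, ∑ Q ∈ C.SQ, ∑ m ∈ Icc 1 (4 * XX g), ∑ s ∈ Icc 1 (4 * XX g), ∑ κ ∈ 𝒦,
        if a * P = b * Q + 16 * (s * κ * m) then
          F a b P m * β a b s κ * (J((Q : ℤ) | s) : ℝ) else 0| else 0) =
      ∑ a ∈ C.SA, ∑ b ∈ C.SB, if a.Coprime b then
      ‖∑ P ∈ C.SP, ∑ m ∈ Icc 1 V, (F a b P m : ℂ) * ∑ n ∈ S,
        ∑ y ∈ Ioc (0 : ℤ) ((K ^ 3 : ℕ) * l),
        if (a : ℤ) * P = b * y + 16 * ((n.1 * n.2 : ℕ) : ℤ) * m then
          (β a b n.1 n.2 : ℂ) * s1cH C.SQ n y else 0‖ else 0 := by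
    refine sum_congr rfl fun a ha => sum_congr rfl fun b _ => ?_
    split_ifs
    · rw [← Real.norm_eq_abs, ← Complex.norm_real, Complex.ofReal_sum]
      congr 1
      refine sum_congr rfl fun P hP => ?_
      refine s1c_rewrite C.SQ 𝒦 S _ (4 * XX g) V a b P (F a b P) (β a b) hI ?_
        (filter_subset _ _) ?_ ?_
      · rw [← hVN]; exact Nat.le_mul_of_pos_right _ (by positivity)
      · intro n hn h
        obtain ⟨-, h1, h2, h3, h4⟩ := sβ a b n.1 n.2 h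
        exact mem_filter.2 ⟨hn, h1, by rw [hz'6]; exact h2, h3, by rw [← pow_succ']; exact h4⟩
      · intro n hn Q m h
        obtain ⟨-, -, -, h3, -⟩ := mem_filter.1 hn
        have h4 : a * P ≤ 64 * XX g := by
          have h5 := (C.hA a ha).2.1
          have h6 := (C.hP P hP).2.2
          calc a * P ≤ 2 ^ (C.i + 1) * P := Nat.mul_le_mul_right _ h5
            _ = 2 * (2 ^ C.i * P) := by ring
            _ ≤ 64 * XX g := by omega
        have h7 : 2 ^ t * m ≤ n.1 * n.2 * m := Nat.mul_le_mul_right _ h3.le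
        have h8 : 2 ^ t * m ≤ 2 ^ t * V := by
          rw [mul_comm (2 ^ t) V, hVN]; omega
        exact Nat.le_of_mul_le_mul_left h8 (by positivity)
    · rfl
  rw [hrw]
  have hgR : (10 : ℝ) ^ 13 ≤ g := by exact_mod_cast hg
  have hg0R : (0 : ℝ) < g := by exact_mod_cast hg0
  have hX0 : (0 : ℝ) < XX g := by unfold XX; positivity
  refine (abs_le_of_sq_le_sq' (main.trans ?_) (by positivity)).2
  have hLg : ((Nat.log 2 (32 * 2 ^ C.i * 2 ^ t) : ℕ) : ℝ) + 1 ≤ 43 * g := by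
    have h1 : 32 * 2 ^ C.i * 2 ^ t = 2 ^ (5 + C.i + t) := by ring
    rw [h1, Nat.log_pow (by norm_num)]
    have h2 : 5 + C.i + t + 1 ≤ 43 * g := by omega
    exact_mod_cast h2
  have hBK : 2 ^ C.j * K ≤ 2 ^ t := by
    calc 2 ^ C.j * K ≤ 2 ^ C.j * 2 ^ g := Nat.mul_le_mul_left _ hKg
      _ = 2 ^ (C.j + g) := by rw [pow_add]
      _ ≤ 2 ^ t := Nat.pow_le_pow_right (by norm_num) (by omega)
  have hAN : (2 ^ C.i) ^ 2 * 2 ^ t * 2 ^ g ≤ XX g := by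
    unfold XX
    rw [← pow_mul, ← pow_add, ← pow_add]
    exact Nat.pow_le_pow_right (by norm_num) (by omega)
  have num := s1c_num (A := ((2 ^ C.i : ℕ) : ℝ)) (B := ((2 ^ C.j : ℕ) : ℝ)) (p := C.SP.card)
    (V := V) (N0 := ((2 ^ t : ℕ) : ℝ)) (Y := Y) (X := XX g) (K := K) (l := l) (z := z) (z' := z')
    (H := ∑ κ ∈ 𝒦, (κ : ℝ)⁻¹) (Lg := ((Nat.log 2 (32 * 2 ^ C.i * 2 ^ t) : ℕ) : ℝ) + 1)
    (E := ((2 ^ g : ℕ) : ℝ)) (g := g) (by positivity) (by positivity) (by positivity)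
    (by positivity) (by positivity) (by positivity) hX0 (by exact_mod_cast hK0)
    (by positivity) (by positivity) (by positivity) (sum_nonneg fun _ _ => by positivity)
    (by positivity) (by positivity) hg0R.le (by exact_mod_cast hVN) (by exact_mod_cast hBY)
    (by exact_mod_cast C.card_SP) (by exact_mod_cast hl1) (by exact_mod_cast hl2.le)
    (by exact_mod_cast hBK) (by exact_mod_cast hAN) (s1c_harm g (by omega) 𝒦 h𝒦) hLg
  have hexp := s1c_exp (g := g) (E := ((2 ^ g : ℕ) : ℝ)) k hgR (by exact_mod_cast hE)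
  simp only [Nat.cast_ofNat, Nat.cast_pow (α := ℝ) K 3]
  refine num.trans ?_
  have e1 : (K : ℝ) = (g : ℝ) ^ (2 * k + 1) := by rw [hKdef]; push_cast; rfl
  have e2 : (z : ℝ) = (g : ℝ) ^ (2 * k + 2) := by rw [hzdef]; push_cast; rfl
  have e3 : (z' : ℝ) = (g : ℝ) ^ (22 * k + 17) := by rw [hz'def]; push_cast; rfl
  rw [e1, e2, e3]
  calc _ ≤ (XX g : ℝ) ^ 4 * (1 / ((g : ℝ) ^ k) ^ 2) := by gcongr
    _ = _ := by field_simp

end Pool.Agent.Lib.MP_788af2_nt.R0
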