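import Pool.Agent.Lib.MP_788af2_nt.R0.S1c

namespace Pool.Agent.Lib.MP_788af2_nt.R0

open Finset Filter
open scoped NumberTheorySymbols

/-! The spin sum. -/

/-- The five inner sums. -/
noncomputable def s1dI (SP SQ M K : Finset ℕ) (f : ℕ → ℕ → ℕ → ℕ → ℕ → ℝ) : ℝ :=
  ∑ P ∈ SP, ∑ Q ∈ SQ, ∑ m ∈ M, ∑ s ∈ M, ∑ κ ∈ K, f P Q m s κ

lemma s1d_add (SP SQ M K : Finset ℕ) (f f' : ℕ → ℕ → ℕ → ℕ → ℕ → ℝ) :
    s1dI SP SQ M K (fun P Q m s κ => f P Q m s κ + f' P Q m s κ) =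
      s1dI SP SQ M K f + s1dI SP SQ M K f' := by
  simp only [s1dI, sum_add_distrib]

lemma s1d_sum (SP SQ M K : Finset ℕ) {ι : Type} (T : Finset ι)
    (f : ι → ℕ → ℕ → ℕ → ℕ → ℕ → ℝ) :
    s1dI SP SQ M K (fun P Q m s κ => ∑ x ∈ T, f x P Q m s κ) = ∑ x ∈ T, s1dI SP SQ M K (f x) := by
  classical
  induction T using Finset.induction_on with
  | empty => simp [s1dI]
  | insert x T hx ih =>
    simp only [sum_insert hx]
    rw [s1d_add, ih]

lemma s1d_congr {SP SQ M K : Finset ℕ} {f f' : ℕ → ℕ → ℕ → ℕ → ℕ → ℝ}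
    (h : ∀ P ∈ SP, ∀ Q ∈ SQ, ∀ m ∈ M, ∀ s ∈ M, ∀ κ ∈ K, f P Q m s κ = f' P Q m s κ) :
    s1dI SP SQ M K f = s1dI SP SQ M K f' :=
  sum_congr rfl fun P hP => sum_congr rfl fun Q hQ => sum_congr rfl fun m hm =>
    sum_congr rfl fun s hs => sum_congr rfl fun κ hκ => h P hP Q hQ m hm s hs κ hκ

lemma s1d_abs {SP SQ M K : Finset ℕ} {f f' : ℕ → ℕ → ℕ → ℕ → ℕ → ℝ}
    (h : ∀ P ∈ SP, ∀ Q ∈ SQ, ∀ m ∈ M, ∀ s ∈ M, ∀ κ ∈ K, |f P Q m s κ| ≤ f' P Q m s κ) :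
    |s1dI SP SQ M K f| ≤ s1dI SP SQ M K f' :=
  (abs_sum_le_sum_abs _ _).trans <| sum_le_sum fun P hP =>
    (abs_sum_le_sum_abs _ _).trans <| sum_le_sum fun Q hQ =>
      (abs_sum_le_sum_abs _ _).trans <| sum_le_sum fun m hm =>
        (abs_sum_le_sum_abs _ _).trans <| sum_le_sum fun s hs =>
          (abs_sum_le_sum_abs _ _).trans <| sum_le_sum fun κ hκ => h P hP Q hQ m hm s hs κ hκ

lemma s1d_moeb {n m N : ℕ} (hm : m ∈ Icc 1 N) :
    ∑ e ∈ Icc 1 N, (if e ∣ n ∧ e ∣ m then ((ArithmeticFunction.moebius e : ℤ) : ℝ) else 0) =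
      if n.Coprime m then 1 else 0 := by
  rw [mem_Icc] at hm
  have h0 : n.gcd m ≠ 0 := Nat.gcd_ne_zero_right (by omega)
  have h1 : (Icc 1 N).filter (fun e => e ∣ n ∧ e ∣ m) = (n.gcd m).divisors := by
    ext e
    simp only [mem_filter, mem_Icc, Nat.mem_divisors, Nat.dvd_gcd_iff]
    constructor
    · exact fun h => ⟨h.2, h0⟩
    · intro h
      exact ⟨⟨Nat.pos_of_dvd_of_pos h.1.2 (by omega),
        (Nat.le_of_dvd (by omega) h.1.2).trans hm.2⟩, h.1⟩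
  rw [← sum_filter, h1]
  have h2 := congrArg (fun f : ArithmeticFunction ℤ => f (n.gcd m))
    ArithmeticFunction.moebius_mul_coe_zeta
  simp only [ArithmeticFunction.coe_mul_zeta_apply, ArithmeticFunction.one_apply] at h2
  have h3 := congrArg (fun z : ℤ => (z : ℝ)) h2
  push_cast at h3
  exact h3

lemma s1d_abs_moeb (e : ℕ) : |((ArithmeticFunction.moebius e : ℤ) : ℝ)| ≤ 1 := by
  exact_mod_cast ArithmeticFunction.abs_moebius_le_one (n := e)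

lemma s1d_comm3 (A B S : Finset ℕ) (f : ℕ → ℕ → ℕ → ℝ) :
    ∑ a ∈ A, ∑ p ∈ B, ∑ x ∈ S, f a p x = ∑ x ∈ S, ∑ a ∈ A, ∑ p ∈ B, f a p x := by
  rw [sum_congr rfl fun a _ => sum_comm, sum_comm]

/-- At most one pair `(a, P)` has a given product. -/
lemma s1d_uniq {g Z : ℕ} (C : Cell g Z) (hg : 10 ≤ g) {b Q : ℕ} (hb : b ∈ C.SB) (hQ : Q ∈ C.SQ)
    (c : ℕ) {r : ℝ} (hr : 0 ≤ r) :
    ∑ a ∈ C.SA, ∑ P ∈ C.SP, (if a * P = b * Q + 16 * c then r else 0) ≤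
      if c ≤ 4 * XX g then r else 0 := by
  rw [← sum_product', ← sum_filter, sum_const, nsmul_eq_mul]
  split_ifs with hc
  · refine mul_le_of_le_one_left hr ?_
    rw [Nat.cast_le_one, card_le_one]
    rintro ⟨a, P⟩ h1 ⟨a', P'⟩ h2
    simp only [mem_filter, mem_product] at h1 h2
    obtain ⟨⟨ha, hP⟩, e1⟩ := h1
    obtain ⟨⟨ha', hP'⟩, e2⟩ := h2
    obtain ⟨-, -, s3, -⟩ := C.sizes hg ha hb hP hQ
    obtain ⟨t1, t2, -⟩ := C.sizes hg ha' hb hP' hQ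
    have p1 := (C.hP P hP).1
    have p2 := (C.hP P' hP').1
    have e : a * P = a' * P' := e1.trans e2.symm
    have hlt : a' < P :=
      lt_of_le_of_lt (t2.trans (Nat.pow_le_pow_right two_pos (by omega))) s3
    have hd : P ∣ a' * P' := e ▸ Dvd.intro_left a rfl
    rcases (Nat.Prime.dvd_mul p1).1 hd with h | h
    · exact absurd (Nat.le_of_dvd (by omega) h) (by omega)
    · have hPP : P = P' := (Nat.prime_dvd_prime_iff_eq p1 p2).1 h
      subst hPP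
      rw [Nat.eq_of_mul_eq_mul_right p1.pos e]
  · rw [filter_eq_empty_iff.2, card_empty, Nat.cast_zero, zero_mul]
    rintro ⟨a, P⟩ h1 e
    simp only [mem_product] at h1 e
    obtain ⟨-, -, -, -, -, s6, -⟩ := C.sizes hg h1.1 hb h1.2 hQ
    omega

/-- Products `s κ` take each value at most four times. -/
lemma s1d_mult {g : ℕ} (hg : 1 ≤ g) {K : Finset ℕ} (hK : K = {1} ∨ K = RR g) {φ : ℕ → ℝ}
    (h0 : ∀ n, 0 ≤ φ n) (h1 : ∀ n, 4 * XX g < n → φ n = 0) :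
    ∑ s ∈ Icc 1 (4 * XX g), ∑ κ ∈ K, φ (s * κ) ≤ 4 * ∑ n ∈ Icc 1 (4 * XX g), φ n := by
  have hpos : ∀ κ ∈ K, 0 < κ := fun κ hκ => by
    rcases hK with rfl | rfl
    · rw [mem_singleton] at hκ; omega
    · exact (mem_filter.1 hκ).2.pos
  have e1 : ∀ s ∈ Icc 1 (4 * XX g), ∀ κ ∈ K, φ (s * κ) =
      ∑ n ∈ Icc 1 (4 * XX g), if s * κ = n then φ n else 0 := fun s hs κ hκ => by
    rw [sum_ite_eq]
    split_ifs with h
    · rfl
    · refine h1 _ ?_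
      have := Nat.mul_pos (mem_Icc.1 hs).1 (hpos κ hκ)
      rw [mem_Icc] at h
      omega
  rw [sum_congr rfl fun s hs => sum_congr rfl fun κ hκ => e1 s hs κ hκ, s1d_comm3, mul_sum]
  refine sum_le_sum fun n hn => ?_
  rw [mem_Icc] at hn
  rw [sum_comm]
  have e2 : ∀ κ ∈ K, ∑ s ∈ Icc 1 (4 * XX g), (if s * κ = n then φ n else 0) ≤
      if κ ∣ n then φ n else 0 := fun κ hκ => by
    rw [← sum_filter, sum_const, nsmul_eq_mul]
    split_ifs with h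
    · refine mul_le_of_le_one_left (h0 n) ?_
      rw [Nat.cast_le_one, card_le_one]
      intro s h1 s' h2
      exact Nat.eq_of_mul_eq_mul_right (hpos κ hκ)
        ((mem_filter.1 h1).2.trans (mem_filter.1 h2).2.symm)
    · rw [filter_eq_empty_iff.2, card_empty, Nat.cast_zero, zero_mul]
      exact fun s _ e => h (Dvd.intro_left s e)
  refine (sum_le_sum e2).trans ?_
  rw [← sum_filter, sum_const, nsmul_eq_mul]
  refine mul_le_mul_of_nonneg_right ?_ (h0 n)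
  have : (K.filter (· ∣ n)).card ≤ 4 := by
    rcases hK with rfl | rfl
    · exact (card_filter_le _ _).trans (by simp)
    · exact WW_le hg hn.1 hn.2
  exact_mod_cast this

lemma s1d_inner {N e n : ℕ} (he : 0 < e) (hn : 0 < n) :
    ∑ m ∈ Icc 1 N, (if n * m ≤ N ∧ e ∣ n ∧ e ∣ m then (1 : ℝ) else 0) ≤
      if e ∣ n then (N : ℝ) / e * (n : ℝ)⁻¹ else 0 := by
  split_ifs with h
  · rw [← sum_filter, sum_const, nsmul_eq_mul, mul_one]
    have h1 : ((Icc 1 N).filter fun m => n * m ≤ N ∧ e ∣ n ∧ e ∣ m).card ≤ N / n / e := by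
      rw [← Nat.Ioc_filter_dvd_card_eq_div]
      refine card_le_card fun m hm => ?_
      simp only [mem_filter, mem_Icc, mem_Ioc] at hm ⊢
      exact ⟨⟨hm.1.1, (Nat.le_div_iff_mul_le hn).2 (by rw [mul_comm]; exact hm.2.1)⟩, hm.2.2.2⟩
    calc _ ≤ ((N / n / e : ℕ) : ℝ) := by exact_mod_cast h1
      _ ≤ ((N / n : ℕ) : ℝ) / e := Nat.cast_div_le
      _ ≤ (N : ℝ) / n / e := by gcongr; exact Nat.cast_div_le
      _ = _ := by ring
  · simp [h]

lemma s1d_harm {N e : ℕ} (he : 0 < e) :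
    ∑ n ∈ Icc 1 N, (if e ∣ n then (n : ℝ)⁻¹ else 0) ≤ (e : ℝ)⁻¹ * (1 + Real.log N) := by
  rw [← sum_filter]
  have h1 : (Icc 1 N).filter (e ∣ ·) ⊆ (Ioc 0 N).image (e * ·) := by
    intro n hn
    simp only [mem_filter, mem_Icc, mem_image, mem_Ioc] at hn ⊢
    obtain ⟨⟨h1, h2⟩, k, rfl⟩ := hn
    exact ⟨k, ⟨Nat.pos_of_mul_pos_left h1, (Nat.le_mul_of_pos_left k he).trans h2⟩, rfl⟩
  refine (sum_le_sum_of_subset_of_nonneg h1 fun _ _ _ => by positivity).trans ?_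
  rw [sum_image fun x _ y _ h => Nat.eq_of_mul_eq_mul_left he h]
  simp only [Nat.cast_mul, mul_inv]
  rw [← mul_sum]
  exact mul_le_mul_of_nonneg_left (harm_le_log N) (by positivity)

lemma s1d_count {g : ℕ} (hg : 1 ≤ g) {K : Finset ℕ} (hK : K = {1} ∨ K = RR g) {e : ℕ}
    (he : 0 < e) :
    ∑ m ∈ Icc 1 (4 * XX g), ∑ s ∈ Icc 1 (4 * XX g), ∑ κ ∈ K,
      (if s * κ * m ≤ 4 * XX g ∧ e ∣ s * κ ∧ e ∣ m then (1 : ℝ) else 0) ≤
      4 * ((4 * XX g : ℕ) : ℝ) * (1 + Real.log (4 * XX g : ℕ)) * ((e : ℝ) ^ 2)⁻¹ := by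
  set N := 4 * XX g with hN
  rw [← s1d_comm3]
  have h1 := s1d_mult hg hK
    (φ := fun n => ∑ m ∈ Icc 1 N, if n * m ≤ N ∧ e ∣ n ∧ e ∣ m then (1 : ℝ) else 0)
    (fun n => sum_nonneg fun _ _ => by split_ifs <;> norm_num)
    (fun n hn => sum_eq_zero fun m hm => if_neg fun h => by
      have := Nat.le_mul_of_pos_right n (mem_Icc.1 hm).1
      omega)
  refine h1.trans ?_
  have h2 : ∑ n ∈ Icc 1 N, ∑ m ∈ Icc 1 N, (if n * m ≤ N ∧ e ∣ n ∧ e ∣ m then (1 : ℝ) else 0) ≤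
      (N : ℝ) / e * ((e : ℝ)⁻¹ * (1 + Real.log N)) := by
    refine (sum_le_sum fun n hn => s1d_inner he (mem_Icc.1 hn).1).trans ?_
    refine le_trans (le_of_eq ?_) (mul_le_mul_of_nonneg_left (s1d_harm he) (by positivity))
    rw [mul_sum]
    exact sum_congr rfl fun n _ => by split_ifs <;> simp
  calc _ ≤ 4 * ((N : ℝ) / e * ((e : ℝ)⁻¹ * (1 + Real.log N))) := by linarith
    _ = _ := by field_simp

lemma s1d_log {g : ℕ} (hg : 1 ≤ g) : 1 + Real.log (4 * XX g : ℕ) ≤ 43 * g := by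
  have h1 : ((4 * XX g : ℕ) : ℝ) = 2 ^ (40 * g + 2) := by
    unfold XX; push_cast; ring
  have h2 : Real.log 2 ≤ 1 := by
    have := Real.log_le_sub_one_of_pos (x := 2) two_pos
    linarith
  have h3 : (1 : ℝ) ≤ g := by exact_mod_cast hg
  rw [h1, Real.log_pow]
  push_cast
  nlinarith

/-- The contribution of the large common divisors. -/
lemma s1d_tail {g Z : ℕ} (C : Cell g Z) (hg : 10 ≤ g) {K : Finset ℕ} (hK : K = {1} ∨ K = RR g)
    (E : ℕ) :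
    ∑ a ∈ C.SA, ∑ b ∈ C.SB, s1dI C.SP C.SQ (Icc 1 (4 * XX g)) K (fun P Q m s κ =>
      if a * P = b * Q + 16 * (s * κ * m) then
        ∑ e ∈ Ioc E (4 * XX g), (if e ∣ s * κ ∧ e ∣ m then (1 : ℝ) else 0) else 0) ≤
      5504 * g * (XX g : ℝ) ^ 2 / (E + 1) := by
  set N := 4 * XX g with hN
  have hlog := s1d_log (g := g) (by omega)
  have key : ∀ b ∈ C.SB, ∀ Q ∈ C.SQ,
      ∑ a ∈ C.SA, ∑ P ∈ C.SP, ∑ m ∈ Icc 1 N, ∑ s ∈ Icc 1 N, ∑ κ ∈ K,
        (if a * P = b * Q + 16 * (s * κ * m) then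
          ∑ e ∈ Ioc E N, (if e ∣ s * κ ∧ e ∣ m then (1 : ℝ) else 0) else 0) ≤
        4 * (N : ℝ) * (43 * g) * (2 / (E + 1)) := by
    intro b hb Q hQ
    rw [s1d_comm3]
    have h1 : ∀ m ∈ Icc 1 N, ∑ a ∈ C.SA, ∑ P ∈ C.SP, ∑ s ∈ Icc 1 N, ∑ κ ∈ K,
        (if a * P = b * Q + 16 * (s * κ * m) then
          ∑ e ∈ Ioc E N, (if e ∣ s * κ ∧ e ∣ m then (1 : ℝ) else 0) else 0) ≤
        ∑ e ∈ Ioc E N, ∑ s ∈ Icc 1 N, ∑ κ ∈ K,
          (if s * κ * m ≤ N ∧ e ∣ s * κ ∧ e ∣ m then (1 : ℝ) else 0) := by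
      intro m _
      rw [s1d_comm3, ← s1d_comm3 (Icc 1 N) K (Ioc E N)]
      refine sum_le_sum fun s _ => ?_
      rw [s1d_comm3]
      refine sum_le_sum fun κ _ => ?_
      refine (s1d_uniq C hg hb hQ _ (sum_nonneg fun _ _ => by split_ifs <;> norm_num)).trans ?_
      split_ifs with h
      · exact le_of_eq (sum_congr rfl fun e _ => by simp only [hN, h, true_and])
      · exact sum_nonneg fun _ _ => by split_ifs <;> norm_num
    refine (sum_le_sum h1).trans ?_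
    rw [sum_comm]
    refine (sum_le_sum fun e he => s1d_count (g := g) (by omega) hK
      (Nat.zero_lt_of_lt (mem_Ioc.1 he).1)).trans ?_
    rw [← mul_sum]
    have h2 := sum_inv_sq_le (Ioc E N) E fun n hn => (mem_Ioc.1 hn).1
    have h3 : (0 : ℝ) ≤ ∑ n ∈ Ioc E N, ((n : ℝ) ^ 2)⁻¹ := sum_nonneg fun _ _ => by positivity
    exact mul_le_mul (mul_le_mul_of_nonneg_left hlog (by positivity)) h2 h3 (by positivity)
  unfold s1dI
  rw [sum_comm]
  have h4 : ∀ b ∈ C.SB, ∑ a ∈ C.SA, ∑ P ∈ C.SP, ∑ Q ∈ C.SQ, ∑ m ∈ Icc 1 N, ∑ s ∈ Icc 1 N, ∑ κ ∈ K,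
      (if a * P = b * Q + 16 * (s * κ * m) then
        ∑ e ∈ Ioc E N, (if e ∣ s * κ ∧ e ∣ m then (1 : ℝ) else 0) else 0) ≤
      C.SQ.card * (4 * (N : ℝ) * (43 * g) * (2 / (E + 1))) := by
    intro b hb
    rw [s1d_comm3]
    refine (sum_le_sum fun Q hQ => key b hb Q hQ).trans ?_
    rw [sum_const, nsmul_eq_mul]
  refine (sum_le_sum h4).trans ?_
  rw [sum_const, nsmul_eq_mul, ← mul_assoc]
  have h5 : C.SB.card * C.SQ.card ≤ N :=
    (Nat.mul_le_mul_right _ C.card_SB).trans C.card_SQ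
  have h6 : (C.SB.card : ℝ) * C.SQ.card ≤ N := by exact_mod_cast h5
  calc _ ≤ (N : ℝ) * (4 * (N : ℝ) * (43 * g) * (2 / (E + 1))) :=
        mul_le_mul_of_nonneg_right h6 (by positivity)
    _ = _ := by rw [hN]; push_cast; ring

lemma s1d_range {g n : ℕ} (h1 : 2 ^ (3 * g) < n) (h2 : n * 2 ^ (9 * g) ≤ 4 * XX g) :
    Nat.log 2 (n - 1) ∈ Icc (3 * g) (31 * g + 2) := by
  have h0 : 0 < 2 ^ (3 * g) := by positivity
  have h3 : n ≤ 2 ^ (31 * g + 2) := by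
    have e : 4 * XX g = 2 ^ (31 * g + 2) * 2 ^ (9 * g) := by unfold XX; ring
    rw [e] at h2
    exact Nat.le_of_mul_le_mul_right h2 (by positivity)
  rw [mem_Icc]
  exact ⟨Nat.le_log_of_pow_le one_lt_two (by omega),
    (Nat.log_lt_of_lt_pow (by omega) (by omega)).le⟩

/-- The pointwise decomposition. -/
lemma s1d_point {g E m s κ : ℕ} (hE : E ≤ 4 * XX g) (hm : m ∈ Icc 1 (4 * XX g)) (p : Prop)
    [Decidable p] {F β j : ℝ}
    (hβ : β ≠ 0 → 2 ^ (3 * g) < s * κ ∧ s * κ * 2 ^ (9 * g) ≤ 4 * XX g) :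
    (if p ∧ (s * κ).Coprime m then F * β * j else 0) =
      (∑ x ∈ Icc 1 E ×ˢ Icc (3 * g) (31 * g + 2), if p then (if x.1 ∣ m then F else 0) *
        (if x.1 ∣ s * κ ∧ Nat.log 2 (s * κ - 1) = x.2 then
          ((ArithmeticFunction.moebius x.1 : ℤ) : ℝ) * β else 0) * j else 0) +
      if p then F * β * j * ∑ e ∈ Ioc E (4 * XX g),
        (if e ∣ s * κ ∧ e ∣ m then ((ArithmeticFunction.moebius e : ℤ) : ℝ) else 0) else 0 := by
  by_cases hp : p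
  swap
  · simp [hp]
  by_cases hb : β = 0
  · simp [hb]
  obtain ⟨h1, h2⟩ := hβ hb
  have h3 := s1d_range h1 h2
  simp only [hp, true_and, if_true]
  have h4 : ∑ x ∈ Icc 1 E ×ˢ Icc (3 * g) (31 * g + 2), (if x.1 ∣ m then F else 0) *
        (if x.1 ∣ s * κ ∧ Nat.log 2 (s * κ - 1) = x.2 then
          ((ArithmeticFunction.moebius x.1 : ℤ) : ℝ) * β else 0) * j =
      F * β * j * ∑ e ∈ Icc 1 E,
        (if e ∣ s * κ ∧ e ∣ m then ((ArithmeticFunction.moebius e : ℤ) : ℝ) else 0) := by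
    rw [sum_product, mul_sum]
    refine sum_congr rfl fun e _ => ?_
    rw [sum_eq_single_of_mem _ h3 fun t _ ht => by simp [Ne.symm ht]]
    by_cases a1 : e ∣ m <;> by_cases a2 : e ∣ s * κ <;> simp [a1, a2]
    ring
  rw [h4, ← mul_add]
  have h5 : Icc 1 (4 * XX g) = Icc 1 E ∪ Ioc E (4 * XX g) := by
    ext e
    simp only [mem_Icc, mem_union, mem_Ioc]
    omega
  have h6 : Disjoint (Icc 1 E) (Ioc E (4 * XX g)) := by
    rw [disjoint_left]
    intro e a1 a2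
    rw [mem_Icc] at a1
    rw [mem_Ioc] at a2
    omega
  rw [← sum_union h6, ← h5, s1d_moeb hm]
  split_ifs <;> simp

theorem s1_core (k : ℕ) : ∃ k' : ℕ, ∀ᶠ g : ℕ in atTop, ∀ (Z : ℕ) (C : Cell g Z)
    (𝒦 : Finset ℕ) (F β : ℕ → ℕ → ℕ → ℕ → ℝ), (𝒦 = {1} ∨ 𝒦 = RR g) →
    (∀ a b P m, |F a b P m| ≤ 1) → (∀ a b s κ, |β a b s κ| ≤ 1) →
    (∀ a b P m, F a b P m ≠ 0 → m.Coprime b ∧ good g m) →
    (∀ a b s κ, β a b s κ ≠ 0 → (s * κ).Coprime a ∧ good g s ∧ g ^ k' ≤ s ∧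
      2 ^ (3 * g) < s * κ ∧ s * κ * 2 ^ (9 * g) ≤ 4 * XX g) →
    ∑ a ∈ C.SA, ∑ b ∈ C.SB, (if a.Coprime b then
      |∑ P ∈ C.SP, ∑ Q ∈ C.SQ, ∑ m ∈ Icc 1 (4 * XX g), ∑ s ∈ Icc 1 (4 * XX g), ∑ κ ∈ 𝒦,
        if a * P = b * Q + 16 * (s * κ * m) ∧ (s * κ).Coprime m then
          F a b P m * β a b s κ * (J((Q : ℤ) | s) : ℝ) else 0| else 0) ≤
      (XX g : ℝ) ^ 2 / (g : ℝ) ^ k := by
  obtain ⟨k', hk'⟩ := s1_dyadic (2 * k + 4)
  refine ⟨k', ?_⟩
  filter_upwards [hk', ev_pow_le 1 (k + 2), eventually_ge_atTop 11008] with g H hE hg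
  intro Z C K F β hK hF hβ hF' hβ'
  set E := g ^ (k + 2) with hEdef
  have hEN : E ≤ 4 * XX g := by
    have : 2 ^ g ≤ XX g := Nat.pow_le_pow_right two_pos (by omega)
    omega
  set T := Icc 1 E ×ˢ Icc (3 * g) (31 * g + 2) with hT
  set F' : ℕ × ℕ → ℕ → ℕ → ℕ → ℕ → ℝ := fun x a b P m => if x.1 ∣ m then F a b P m else 0 with hF'd
  set β' : ℕ × ℕ → ℕ → ℕ → ℕ → ℕ → ℝ := fun x a b s κ =>
    if x.1 ∣ s * κ ∧ Nat.log 2 (s * κ - 1) = x.2 then
      ((ArithmeticFunction.moebius x.1 : ℤ) : ℝ) * β a b s κ else 0 with hβ'd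
  have hmain : ∀ x ∈ T, ∑ a ∈ C.SA, ∑ b ∈ C.SB, (if a.Coprime b then
      |s1dI C.SP C.SQ (Icc 1 (4 * XX g)) K fun P Q m s κ =>
        if a * P = b * Q + 16 * (s * κ * m) then
          F' x a b P m * β' x a b s κ * (J((Q : ℤ) | s) : ℝ) else 0| else 0) ≤
      (XX g : ℝ) ^ 2 / (g : ℝ) ^ (2 * k + 4) := by
    intro x hx
    have hx2 := mem_Icc.1 (mem_product.1 hx).2
    refine H Z C K x.2 (F' x) (β' x) hK hx2.1 hx2.2 (fun a b P m => ?_) (fun a b s κ => ?_)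
      (fun a b P m h => ?_) fun a b s κ h => ?_
    · simp only [hF'd]
      split_ifs
      · exact hF ..
      · simp
    · simp only [hβ'd]
      split_ifs
      · rw [abs_mul]
        exact mul_le_one₀ (s1d_abs_moeb _) (abs_nonneg _) (hβ ..)
      · simp
    · simp only [hF'd] at h
      split_ifs at h
      · exact (hF' a b P m h).1
      · exact absurd rfl h
    · simp only [hβ'd] at h
      split_ifs at h with h1
      · obtain ⟨a1, a2, a3, a4, -⟩ := hβ' a b s κ (right_ne_zero_of_mul h)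
        have a0 : 0 < 2 ^ (3 * g) := by positivity
        have b1 := Nat.pow_log_le_self 2 (x := s * κ - 1) (by omega)
        have b2 := Nat.lt_pow_succ_log_self one_lt_two (s * κ - 1)
        rw [h1.2] at b1 b2
        refine ⟨a1, a2, a3, by omega, ?_⟩
        rw [Nat.succ_eq_add_one] at b2
        omega
      · exact absurd rfl h
  have htail := s1d_tail C (by omega) hK E
  have hpt : ∀ a ∈ C.SA, ∀ b ∈ C.SB, (if a.Coprime b then
      |∑ P ∈ C.SP, ∑ Q ∈ C.SQ, ∑ m ∈ Icc 1 (4 * XX g), ∑ s ∈ Icc 1 (4 * XX g), ∑ κ ∈ K,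
        if a * P = b * Q + 16 * (s * κ * m) ∧ (s * κ).Coprime m then
          F a b P m * β a b s κ * (J((Q : ℤ) | s) : ℝ) else 0| else 0) ≤
      (∑ x ∈ T, if a.Coprime b then
        |s1dI C.SP C.SQ (Icc 1 (4 * XX g)) K fun P Q m s κ =>
          if a * P = b * Q + 16 * (s * κ * m) then
            F' x a b P m * β' x a b s κ * (J((Q : ℤ) | s) : ℝ) else 0| else 0) +
      s1dI C.SP C.SQ (Icc 1 (4 * XX g)) K (fun P Q m s κ =>
        if a * P = b * Q + 16 * (s * κ * m) then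
          ∑ e ∈ Ioc E (4 * XX g), (if e ∣ s * κ ∧ e ∣ m then (1 : ℝ) else 0) else 0) := by
    intro a _ b _
    have hR : |s1dI C.SP C.SQ (Icc 1 (4 * XX g)) K (fun P Q m s κ =>
        if a * P = b * Q + 16 * (s * κ * m) then
          F a b P m * β a b s κ * (J((Q : ℤ) | s) : ℝ) * ∑ e ∈ Ioc E (4 * XX g),
            (if e ∣ s * κ ∧ e ∣ m then ((ArithmeticFunction.moebius e : ℤ) : ℝ) else 0)
        else 0)| ≤
        s1dI C.SP C.SQ (Icc 1 (4 * XX g)) K (fun P Q m s κ =>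
          if a * P = b * Q + 16 * (s * κ * m) then
            ∑ e ∈ Ioc E (4 * XX g), (if e ∣ s * κ ∧ e ∣ m then (1 : ℝ) else 0) else 0) := by
      refine s1d_abs fun P _ Q _ m _ s _ κ _ => ?_
      split_ifs
      · rw [abs_mul]
        have c1 : |F a b P m * β a b s κ * (J((Q : ℤ) | s) : ℝ)| ≤ 1 := by
          rw [abs_mul, abs_mul]
          exact mul_le_one₀ (mul_le_one₀ (hF ..) (abs_nonneg _) (hβ ..)) (abs_nonneg _)
            (abs_jac_le _ _)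
        refine (mul_le_of_le_one_left (abs_nonneg _) c1).trans
          ((abs_sum_le_sum_abs _ _).trans (sum_le_sum fun e _ => ?_))
        split_ifs
        · exact s1d_abs_moeb e
        · simp
      · simp
    by_cases hab : a.Coprime b
    · simp only [if_pos hab]
      have e := s1d_congr (SP := C.SP) (SQ := C.SQ) (M := Icc 1 (4 * XX g)) (K := K)
        fun P _ Q _ m hm s _ κ _ => s1d_point (g := g) (E := E) (s := s) (κ := κ) hEN hm
          (a * P = b * Q + 16 * (s * κ * m)) (F := F a b P m) (β := β a b s κ)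
          (j := (J((Q : ℤ) | s) : ℝ)) fun h => (hβ' a b s κ h).2.2.2
      rw [s1d_add, s1d_sum] at e
      refine le_trans (le_of_eq (congrArg abs e)) ((abs_add_le _ _).trans ?_)
      exact add_le_add (abs_sum_le_sum_abs _ _) hR
    · simp only [if_neg hab, sum_const_zero, zero_add]
      exact (abs_nonneg _).trans hR
  refine (sum_le_sum fun a ha => sum_le_sum fun b hb => hpt a ha b hb).trans ?_
  simp only [sum_add_distrib]
  have hsw : ∀ f : ℕ → ℕ → ℕ × ℕ → ℝ, ∑ a ∈ C.SA, ∑ b ∈ C.SB, ∑ x ∈ T, f a b x =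
      ∑ x ∈ T, ∑ a ∈ C.SA, ∑ b ∈ C.SB, f a b x := fun f => by
    rw [sum_congr rfl fun a _ => sum_comm, sum_comm]
  rw [hsw]
  have h1 := sum_le_sum hmain
  rw [sum_const, nsmul_eq_mul] at h1
  have hg' : (11008 : ℝ) ≤ g := by exact_mod_cast hg
  have hg0 : (0 : ℝ) < g := by linarith
  have hc : (T.card : ℝ) ≤ (g : ℝ) ^ (k + 2) * (29 * g) := by
    have : T.card ≤ g ^ (k + 2) * (29 * g) := by
      rw [hT, card_product, Nat.card_Icc, Nat.card_Icc]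
      exact Nat.mul_le_mul (by omega) (by omega)
    exact_mod_cast this
  have hX : (0 : ℝ) ≤ (XX g : ℝ) ^ 2 / (g : ℝ) ^ k := by positivity
  have h2 : (T.card : ℝ) * ((XX g : ℝ) ^ 2 / (g : ℝ) ^ (2 * k + 4)) ≤
      (XX g : ℝ) ^ 2 / (g : ℝ) ^ k / 2 := by
    calc _ ≤ (g : ℝ) ^ (k + 2) * (29 * g) * ((XX g : ℝ) ^ 2 / (g : ℝ) ^ (2 * k + 4)) :=
          mul_le_mul_of_nonneg_right hc (by positivity)
      _ = (XX g : ℝ) ^ 2 / (g : ℝ) ^ k * (29 / g) := by field_simp; ring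
      _ ≤ (XX g : ℝ) ^ 2 / (g : ℝ) ^ k * (1 / 2) := by
          refine mul_le_mul_of_nonneg_left ?_ hX
          rw [div_le_div_iff₀ hg0 two_pos]
          linarith
      _ = _ := by ring
  have h3 : 5504 * g * (XX g : ℝ) ^ 2 / (E + 1) ≤ (XX g : ℝ) ^ 2 / (g : ℝ) ^ k / 2 := by
    calc _ ≤ 5504 * g * (XX g : ℝ) ^ 2 / (g : ℝ) ^ (k + 2) := by
          refine div_le_div_of_nonneg_left (by positivity) (by positivity) ?_
          rw [hEdef]
          push_cast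
          linarith
      _ = (XX g : ℝ) ^ 2 / (g : ℝ) ^ k * (5504 / g) := by field_simp; ring
      _ ≤ (XX g : ℝ) ^ 2 / (g : ℝ) ^ k * (1 / 2) := by
          refine mul_le_mul_of_nonneg_left ?_ hX
          rw [div_le_div_iff₀ hg0 two_pos]
          linarith
      _ = _ := by ring
  linarith

end Pool.Agent.Lib.MP_788af2_nt.R0
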