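import Pool.Agent.Lib.MP_788af2_nt.R0.Link1
import Pool.Agent.Lib.MP_788af2_nt.R0.PL

namespace Pool.Agent.Lib.MP_788af2_nt.R0

open Finset Filter
open scoped NumberTheorySymbols

/-! The major arc part of the third case. -/

lemma s3a_congr {g Z : ℕ} (C : Cell g Z) {f f' : ℕ → ℕ → (U → ℕ) → (U → ℕ) → ℂ}
    (h : ∀ a ∈ C.SA, ∀ b ∈ C.SB, ∀ A B, f a b A B = f' a b A B) : PS C f = PS C f' := by
  unfold PS
  refine sum_congr rfl fun a ha => sum_congr rfl fun b hb => ?_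
  simp only [h a ha b hb]

lemma s3a_sum {g Z : ℕ} (C : Cell g Z) {ι : Type} (s : Finset ι)
    (f : ι → ℕ → ℕ → (U → ℕ) → (U → ℕ) → ℂ) :
    PS C (fun a b A B => ∑ x ∈ s, f x a b A B) = ∑ x ∈ s, PS C (f x) := by
  unfold PS
  rw [sum_comm (s := s)]
  refine sum_congr rfl fun a _ => ?_
  rw [sum_comm (s := s)]
  refine sum_congr rfl fun b _ => ?_
  split_ifs
  · rw [sum_comm (s := s)]
    refine sum_congr rfl fun A _ => ?_
    rw [sum_comm (s := s)]
  · simp

lemma s3a_mul {g Z : ℕ} (C : Cell g Z) (c : ℂ) (f : ℕ → ℕ → (U → ℕ) → (U → ℕ) → ℂ) :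
    PS C (fun a b A B => c * f a b A B) = c * PS C f := by
  unfold PS
  simp only [mul_sum, mul_ite, mul_zero]

lemma s3a_erase (A : U → ℕ) (v : U) (x : ℕ) :
    ∏ u ∈ univ.erase v, Function.update A v x u = ∏ u ∈ univ.erase v, A u :=
  prod_congr rfl fun _ hu => Function.update_of_ne (ne_of_mem_erase hu) _ _

lemma s3a_split (A B : U → ℕ) (v w : U) (hB : B w ≠ 0) (c : ℂ) :
    (if (∏ u, A u).Coprime (∏ u, B u) then c * (J((A v : ℤ) | B w) : ℂ) else 0) =
      if (∏ u ∈ univ.erase v, A u).Coprime (∏ u, B u) ∧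
        (A v).Coprime (∏ u ∈ univ.erase w, B u) then c * (J((A v : ℤ) | B w) : ℂ) else 0 := by
  by_cases h : (A v).Coprime (B w)
  · refine if_congr ?_ rfl rfl
    rw [← mul_prod_erase univ A (mem_univ v), Nat.coprime_mul_iff_left, and_comm]
    refine and_congr_right fun _ => ?_
    rw [← mul_prod_erase univ B (mem_univ w), Nat.coprime_mul_iff_right, and_iff_right h]
  · have h0 : J((A v : ℤ) | B w) = 0 := jacobiSym.eq_zero_iff.2 ⟨hB, by simpa using h⟩
    simp [h0]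

lemma s3a_ite (p : Prop) [Decidable p] (s t : Finset (U → ℕ)) (f : (U → ℕ) → (U → ℕ) → ℂ) :
    (if p then ∑ A ∈ s, ∑ B ∈ t, f A B else 0) = ∑ A ∈ s, ∑ B ∈ t, if p then f A B else 0 := by
  split_ifs <;> simp

/-- One additive character. -/
lemma s3a_term (k : ℕ) : ∃ k' : ℕ, ∀ᶠ g : ℕ in atTop, ∀ (Z : ℕ) (C : Cell g Z) (v w : U)
    (α β G : (U → ℕ) → (U → ℕ) → ℂ) (P Q : ℕ) (θ : ℝ),
    (∀ A B, ‖α A B‖ ≤ 1) → (∀ A B, ‖β A B‖ ≤ 1) → (∀ A B, ‖G A B‖ ≤ 1) →
    (∀ A B x, α A (Function.update B w x) = α A B) →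
    (∀ A B x, β (Function.update A v x) B = β A B) →
    (∀ A B x, G (Function.update A v x) B = G A B) →
    (∀ A B, α A B ≠ 0 → g ^ k' ≤ A v) → (∀ A B, β A B ≠ 0 → g ^ k' ≤ B w) →
    ‖PS C fun a b A B => α A B * β A B * (J((A v : ℤ) | B w) : ℂ) *
      (G A B * ex (θ * (((a : ℤ) * P - b * Q : ℤ) : ℝ)))‖ ≤
      4 * (2 ^ C.i * 2 ^ C.j) / (g : ℝ) ^ k := by
  obtain ⟨k', hk⟩ := link_core U k
  refine ⟨k', ?_⟩
  filter_upwards [hk, eventually_ge_atTop 1] with g hk hg Z C v w α β G P Q θ hα hβ hG uα uβ uG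
    sα sβ
  have h := hk (2 ^ (C.i + 1)) (2 ^ (C.j + 1)) C.SA v w
    (fun A B => if ∏ u, B u ∈ C.SB ∧ (∏ u ∈ univ.erase v, A u).Coprime (∏ u, B u) then
      β A B * G A B * ex (-(θ * ((∏ u, B u : ℕ) * Q))) else 0)
    (fun A B => if (A v).Coprime (∏ u ∈ univ.erase w, B u) then
      α A B * ex (θ * ((∏ u, A u : ℕ) * P)) else 0)
    (Nat.pow_le_pow_right two_pos (by have := C.hi'; omega))
    (Nat.pow_le_pow_right two_pos (by have := C.hj'; omega))
    (fun a ha => ⟨(C.hA a ha).2.1, (C.hA a ha).2.2.good hg⟩) (fun A B => ?_) (fun A B => ?_)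
    (fun A B x => by simp only [s3a_erase, uβ, uG]) (fun A B x => by simp only [s3a_erase, uα])
    (fun A B h => ?_) (fun A B h => ?_)
  · refine le_trans ?_ (h.trans_eq (by push_cast; ring))
    unfold PS
    refine (norm_sum_le _ _).trans (sum_le_sum fun a ha => ?_)
    refine le_trans (le_of_eq (congrArg norm ?_)) (norm_sum_le _ _)
    rw [sum_comm]
    symm
    have hs : C.SB ⊆ Icc 1 (2 ^ (C.j + 1)) := fun b hb =>
      mem_Icc.2 ⟨Nat.one_le_of_lt (C.hB b hb).1, (C.hB b hb).2.1⟩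
    rw [← sum_subset hs]
    · refine sum_congr rfl fun b hb => ?_
      rw [s3a_ite]
      refine sum_congr rfl fun A hA => sum_congr rfl fun B hB => ?_
      have hb0 : b ≠ 0 := (Nat.zero_lt_of_lt (C.hB b hb).1).ne'
      have ea := prod_of_mem_tup hA
      have eb := prod_of_mem_tup hB
      have hw : B w ≠ 0 := fun h0 => hb0 (eb ▸ prod_eq_zero (mem_univ w) h0)
      have e1 : ex (θ * (((a : ℤ) * P - b * Q : ℤ) : ℝ)) =
          ex (θ * (a * P)) * ex (-(θ * (b * Q))) := by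
        rw [← ex_add]
        congr 1
        push_cast
        ring
      have e2 := s3a_split A B v w hw
        (α A B * β A B * (G A B * ex (θ * (((a : ℤ) * P - b * Q : ℤ) : ℝ))))
      rw [ea, eb] at e2
      beta_reduce
      rw [mul_right_comm (α A B * β A B), e2, ea, eb, e1]
      by_cases h1 : (∏ u ∈ univ.erase v, A u).Coprime b
      · by_cases h2 : (A v).Coprime (∏ u ∈ univ.erase w, B u)
        · rw [if_pos ⟨hb, h1⟩, if_pos h2, if_pos ⟨h1, h2⟩]
          ring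
        · rw [if_neg h2, if_neg fun h : _ ∧ _ => h2 h.2, mul_zero, zero_mul]
      · rw [if_neg fun h : _ ∧ _ => h1 h.2, if_neg fun h : _ ∧ _ => h1 h.1, zero_mul, zero_mul]
    · intro b _ hb
      refine sum_eq_zero fun A _ => sum_eq_zero fun B hB => ?_
      rw [prod_of_mem_tup hB, if_neg fun h : _ ∧ _ => hb h.1, zero_mul, zero_mul]
  · split_ifs
    · rw [norm_mul, norm_mul, norm_ex, mul_one]
      exact mul_le_one₀ (hβ A B) (norm_nonneg _) (hG A B)
    · simp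
  · split_ifs
    · rw [norm_mul, norm_ex, mul_one]
      exact hα A B
    · simp
  · split_ifs at h with h1
    · exact ⟨((C.hB _ h1.1).2.2.good hg).of_dvd (dvd_prod_of_mem _ (mem_univ w)),
        sβ A B fun h0 => h (by rw [h0, zero_mul, zero_mul])⟩
    · exact absurd rfl h
  · split_ifs at h with h1
    · exact sα A B fun h0 => h (by rw [h0, zero_mul])
    · exact absurd rfl h

lemma s3a_FT (l i : ℕ) (H : ℤ → ℂ) {h : ℝ} (hH : ∀ y, ‖H y‖ ≤ h) (θ : ℝ) :
    ‖FT (Iv l i) H θ‖ ≤ l * h := by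
  have h1 : (Iv l i).card = l := by
    rw [Iv, Int.card_Ioc, add_mul, one_mul, add_sub_cancel_left, Int.toNat_natCast]
  refine (norm_sum_le _ _).trans ((sum_le_card_nsmul _ _ h fun y _ => ?_).trans_eq ?_)
  · rw [norm_mul, norm_ex, mul_one]
    exact hH y
  · rw [h1, nsmul_eq_mul]

lemma s3a_log {g : ℕ} (hg : 10 ≤ g) : 2 + Real.log (64 * XX g : ℕ) ≤ 41 * g := by
  have h1 : ((64 * XX g : ℕ) : ℝ) = 2 ^ (40 * g + 6) := by
    rw [XX]
    push_cast
    ring
  have h2 : Real.log 2 ≤ 1 := by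
    have := Real.log_two_lt_d9
    linarith
  have h3 : (10 : ℝ) ≤ g := by exact_mod_cast hg
  rw [h1, Real.log_pow]
  push_cast
  nlinarith

lemma s3a_frac (N : ℕ) {c : ℝ} (hc : 0 ≤ c) :
    ∑ q ∈ Icc 1 N, ∑ h ∈ range q with h.Coprime q, c ≤ (N : ℝ) ^ 2 * c := by
  refine (sum_le_card_nsmul _ _ (N * c) fun q hq => ?_).trans_eq ?_
  · rw [sum_const, nsmul_eq_mul]
    refine mul_le_mul_of_nonneg_right ?_ hc
    exact_mod_cast ((card_filter_le _ _).trans_eq (card_range q)).trans (mem_Icc.1 hq).2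
  · rw [Nat.card_Icc, nsmul_eq_mul]
    push_cast [Nat.add_sub_cancel]
    ring

theorem s3_flat (k k1 kK kz : ℕ) : ∃ k' : ℕ, ∀ᶠ g : ℕ in atTop, ∀ (Z : ℕ) (C : Cell g Z)
    (v w : U) (F : ℕ → ℕ → ℂ) (α β : (U → ℕ) → (U → ℕ) → ℂ) (H : (U → ℕ) → (U → ℕ) → ℤ → ℂ),
    (∀ P Q, ‖F P Q‖ ≤ 1) → (∀ A B, ‖α A B‖ ≤ 1) → (∀ A B, ‖β A B‖ ≤ 1) →
    (∀ A B y, ‖H A B y‖ ≤ (g : ℝ) ^ k1) →
    (∀ A B x, α A (Function.update B w x) = α A B) →
    (∀ A B x, β (Function.update A v x) B = β A B) →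
    (∀ A B x, H (Function.update A v x) B = H A B) →
    (∀ A B, α A B ≠ 0 → g ^ k' ≤ A v) → (∀ A B, β A B ≠ 0 → g ^ k' ≤ B w) →
    ‖∑ P ∈ C.SP, ∑ Q ∈ C.SQ, F P Q * PS C fun a b A B =>
      α A B * β A B * (J((A v : ℤ) | B w) : ℂ) * ∑ i ∈ range (g ^ (3 * kK)),
        if (a : ℤ) * P - b * Q ∈ Iv (ell g kK) i then
          flat (Iv (ell g kK) i) (ell g kK) (g ^ kz) (H A B) ((a : ℤ) * P - b * Q) else 0‖ ≤
      (XX g : ℝ) ^ 2 / (g : ℝ) ^ k := by
  obtain ⟨k', hk⟩ := s3a_term (k + k1 + 3 * kK + 2 * kz + 2)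
  refine ⟨k', ?_⟩
  filter_upwards [hk, eventually_ge_atTop 30000] with g hk hg Z C v w F α β H hF hα hβ hH uα uβ
    uH sα sβ
  have hM : 0 < 64 * XX g := by
    unfold XX
    positivity
  have hg0 : (0 : ℝ) < g := by exact_mod_cast (by omega : 0 < g)
  have hl : (0 : ℝ) < ell g kK := by exact_mod_cast Nat.succ_pos _
  choose η hη he using fun i : ℕ =>
    interval_fourier hM ((i : ℤ) * ell g kK) (((i : ℤ) + 1) * ell g kK)
  set B0 : ℝ := 4 * (2 ^ C.i * 2 ^ C.j) / (g : ℝ) ^ (k + k1 + 3 * kK + 2 * kz + 2) with hB0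
  have hB : 0 ≤ B0 := by positivity
  have key : ∀ P ∈ C.SP, ∀ Q ∈ C.SQ, ‖F P Q * PS C fun a b A B =>
      α A B * β A B * (J((A v : ℤ) | B w) : ℂ) * ∑ i ∈ range (g ^ (3 * kK)),
        if (a : ℤ) * P - b * Q ∈ Iv (ell g kK) i then
          flat (Iv (ell g kK) i) (ell g kK) (g ^ kz) (H A B) ((a : ℤ) * P - b * Q) else 0‖ ≤
      (g : ℝ) ^ (3 * kK) * (41 * g * (((g : ℝ) ^ kz) ^ 2 * ((g : ℝ) ^ k1 * B0))) := by
    intro P hP Q hQ
    rw [norm_mul]
    refine (mul_le_of_le_one_left (norm_nonneg _) (hF P Q)).trans ?_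
    rw [s3a_congr C (f' := fun a b A B => ∑ i ∈ range (g ^ (3 * kK)), ∑ r ∈ range (64 * XX g),
      ∑ q ∈ Icc 1 (g ^ kz), ∑ h ∈ range q with h.Coprime q, (η i r * (g : ℂ) ^ k1) *
        (α A B * β A B * (J((A v : ℤ) | B w) : ℂ) *
          (FT (Iv (ell g kK) i) (H A B) ((h : ℝ) / q) / (ell g kK * (g : ℂ) ^ k1) *
            ex (((r : ℝ) / (64 * XX g : ℕ) - (h : ℝ) / q) *
              (((a : ℤ) * P - b * Q : ℤ) : ℝ)))))]
    · rw [s3a_sum]
      refine (norm_sum_le _ _).trans ((sum_le_card_nsmul _ _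
        (41 * g * (((g : ℝ) ^ kz) ^ 2 * ((g : ℝ) ^ k1 * B0))) fun i _ => ?_).trans_eq ?_)
      · rw [s3a_sum]
        refine (norm_sum_le _ _).trans ((sum_le_sum (g := fun r => ‖η i r‖ *
          (((g : ℝ) ^ kz) ^ 2 * ((g : ℝ) ^ k1 * B0))) fun r _ => ?_).trans ?_)
        · rw [s3a_sum]
          refine (norm_sum_le _ _).trans ((sum_le_sum (g := fun q => ∑ h ∈ range q with
            h.Coprime q, ‖η i r‖ * ((g : ℝ) ^ k1 * B0)) fun q _ => ?_).trans ?_)
          · rw [s3a_sum]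
            refine (norm_sum_le _ _).trans (sum_le_sum fun h _ => ?_)
            rw [s3a_mul, norm_mul, norm_mul, norm_pow, Complex.norm_natCast, mul_assoc]
            refine mul_le_mul_of_nonneg_left (mul_le_mul_of_nonneg_left ?_ (by positivity))
              (norm_nonneg _)
            refine hk Z C v w α β (fun A B => FT (Iv (ell g kK) i) (H A B) ((h : ℝ) / q) /
              (ell g kK * (g : ℂ) ^ k1)) P Q _ hα hβ (fun A B => ?_) uα uβ
              (fun A B x => by simp only [uH]) sα sβ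
            rw [norm_div, norm_mul, norm_pow, Complex.norm_natCast, Complex.norm_natCast,
              div_le_one (by positivity)]
            exact s3a_FT _ _ _ (hH A B) _
          · refine (s3a_frac _ (by positivity)).trans_eq ?_
            push_cast
            ring
        · rw [← sum_mul]
          exact mul_le_mul_of_nonneg_right ((hη i).trans (s3a_log (by omega))) (by positivity)
      · rw [card_range, nsmul_eq_mul]
        push_cast
        ring
    · intro a ha b hb A B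
      obtain ⟨-, -, -, -, h1, h2, -⟩ := C.sizes (by omega) ha hb hP hQ
      have t1 : 0 < (a : ℤ) * P - b * Q := by
        have : ((b * Q : ℕ) : ℤ) < (a * P : ℕ) := by exact_mod_cast h1
        push_cast at this
        omega
      have t2 : (a : ℤ) * P - b * Q ≤ (64 * XX g : ℕ) := by
        have h3 : ((a * P : ℕ) : ℤ) ≤ (64 * XX g : ℕ) := by exact_mod_cast h2
        have h4 : (0 : ℤ) ≤ b * Q := by positivity
        rw [Nat.cast_mul a P] at h3
        omega
      generalize (a : ℤ) * P - b * Q = t at t1 t2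
      rw [mul_sum]
      refine sum_congr rfl fun i _ => ?_
      have e := he i t t1 t2
      rw [← boole_mul, Iv, e, ← Iv, sum_mul, mul_sum]
      refine sum_congr rfl fun r _ => ?_
      rw [flat, mul_sum, mul_sum]
      refine sum_congr rfl fun q _ => ?_
      rw [mul_sum, mul_sum]
      refine sum_congr rfl fun h _ => ?_
      have e1 : ex (((r : ℝ) / (64 * XX g : ℕ) - (h : ℝ) / q) * t) =
          ex ((r : ℝ) / (64 * XX g : ℕ) * t) * ex (-((h : ℝ) / q * t)) := by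
        rw [← ex_add]
        congr 1
        ring
      have n1 : (g : ℂ) ≠ 0 := by exact_mod_cast hg0.ne'
      have n2 : (ell g kK : ℂ) ≠ 0 := by exact_mod_cast hl.ne'
      rw [e1]
      field_simp
  refine (norm_sum_le _ _).trans ((sum_le_card_nsmul _ _ _ fun P hP =>
    (norm_sum_le _ _).trans (sum_le_card_nsmul _ _ _ (key P hP))).trans ?_)
  have c1 : (2 : ℝ) ^ C.i * C.SP.card ≤ 32 * XX g := by exact_mod_cast C.card_SP
  have c2 : (2 : ℝ) ^ C.j * C.SQ.card ≤ 4 * XX g := by exact_mod_cast C.card_SQ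
  have c3 := mul_le_mul c1 c2 (by positivity) (by positivity)
  have c4 : (30000 : ℝ) ≤ g := by exact_mod_cast hg
  rw [nsmul_eq_mul, nsmul_eq_mul]
  calc _ = 164 * ((2 : ℝ) ^ C.i * C.SP.card * (2 ^ C.j * C.SQ.card)) / ((g : ℝ) ^ k * g) := by
        rw [hB0]
        field_simp
        ring
    _ ≤ 164 * (32 * XX g * (4 * XX g)) / ((g : ℝ) ^ k * 30000) := by gcongr
    _ ≤ _ := by
        rw [div_le_div_iff₀ (by positivity) (by positivity)]
        have : 0 ≤ (XX g : ℝ) ^ 2 * (g : ℝ) ^ k := by positivity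
        nlinarith

end Pool.Agent.Lib.MP_788af2_nt.R0
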