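import Pool.Agent.Lib.MP_788af2_nt.R0.S3a
import Pool.Agent.Lib.MP_788af2_nt.R0.Phi2
import Pool.Agent.Lib.MP_788af2_nt.R0.Proj

namespace Pool.Agent.Lib.MP_788af2_nt.R0

open Finset Filter
open scoped NumberTheorySymbols

/-! A Jacobi symbol between `a1` and `b1`, against an arbitrary function of `c`. -/

lemma s3b_Iv (l i : ℕ) : Iv l i = Ioc ((i : ℤ) * l) ((i : ℤ) * l + l) := by
  unfold Iv
  congr 1
  ring

lemma s3b_sum_Iv {M : Type} [AddCommMonoid M] (l N : ℕ) (f : ℤ → M) :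
    ∑ i ∈ range N, ∑ y ∈ Iv l i, f y = ∑ y ∈ Ioc (0 : ℤ) ((N : ℤ) * l), f y := by
  induction N with
  | zero => simp
  | succ N ih =>
    have h0 : (0 : ℤ) ≤ (N : ℤ) * l := by positivity
    have h1 : (N : ℤ) * l ≤ ((N : ℤ) + 1) * l := by nlinarith [Int.natCast_nonneg l]
    rw [sum_range_succ, ih, Iv, ← sum_union, Ioc_union_Ioc_eq_Ioc h0 h1]
    · push_cast
      rfl
    · rw [disjoint_left]
      intro y hy hy'
      rw [mem_Ioc] at hy hy'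
      omega

lemma s3b_uniq {l i j : ℕ} {y : ℤ} (hi : y ∈ Iv l i) (hj : y ∈ Iv l j) : i = j := by
  unfold Iv at hi hj
  rw [mem_Ioc] at hi hj
  have hl : (0 : ℤ) ≤ l := Int.natCast_nonneg l
  rcases lt_trichotomy i j with h | h | h
  · have : (i : ℤ) + 1 ≤ j := by exact_mod_cast h
    nlinarith
  · exact h
  · have : (j : ℤ) + 1 ≤ i := by exact_mod_cast h
    nlinarith

lemma s3b_ind (l N : ℕ) (y : ℤ) (c : ℂ) :
    ∑ i ∈ range N, (if y ∈ Iv l i then c else 0) =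
      if y ∈ Ioc (0 : ℤ) ((N : ℤ) * l) then c else 0 := by
  have h := s3b_sum_Iv l N fun y' => if y' = y then c else 0
  simpa only [sum_ite_eq'] using h

/-- The minor arc part of `H`. -/
noncomputable def s3b_Hs (l N Q : ℕ) (H : ℤ → ℂ) (y : ℤ) : ℂ :=
  ∑ i ∈ range N, if y ∈ Iv l i then H y - flat (Iv l i) l Q H y else 0

lemma s3b_Hs_eq {l N Q j : ℕ} (H : ℤ → ℂ) (hj : j ∈ range N) {y : ℤ} (hy : y ∈ Iv l j) :
    s3b_Hs l N Q H y = H y - flat (Iv l j) l Q H y := by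
  unfold s3b_Hs
  rw [sum_eq_single j, if_pos hy]
  · intro i _ hij
    exact if_neg fun h => hij (s3b_uniq h hy)
  · intro h
    exact absurd hj h

lemma s3b_Hs_supp {l N Q : ℕ} (H : ℤ → ℂ) {y : ℤ} (h : s3b_Hs l N Q H y ≠ 0) :
    y ∈ Ioc (0 : ℤ) ((N : ℤ) * l) := by
  by_contra hy
  apply h
  refine sum_eq_zero fun i hi => if_neg fun h' => hy ?_
  have hi' : (i : ℤ) + 1 ≤ N := by exact_mod_cast mem_range.mp hi
  have hl : (0 : ℤ) ≤ l := Int.natCast_nonneg l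
  have hi0 : (0 : ℤ) ≤ (i : ℤ) * l := by positivity
  unfold Iv at h'
  rw [mem_Ioc] at h' ⊢
  constructor
  · linarith [h'.1]
  · nlinarith [h'.2]

lemma s3b_split {l N Q : ℕ} (H : ℤ → ℂ) (hH : ∀ y, H y ≠ 0 → y ∈ Ioc (0 : ℤ) ((N : ℤ) * l))
    (y : ℤ) : H y = s3b_Hs l N Q H y +
      ∑ i ∈ range N, if y ∈ Iv l i then flat (Iv l i) l Q H y else 0 := by
  unfold s3b_Hs
  rw [← sum_add_distrib]
  have e : ∀ i ∈ range N, ((if y ∈ Iv l i then H y - flat (Iv l i) l Q H y else 0) +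
      if y ∈ Iv l i then flat (Iv l i) l Q H y else 0) = if y ∈ Iv l i then H y else 0 := by
    intro i _
    split_ifs <;> simp
  rw [sum_congr rfl e, s3b_ind]
  split_ifs with h
  · rfl
  · by_contra h'
    exact h (hH y h')

lemma s3b_N2 {l N Q : ℕ} (hQ : 1 ≤ Q) (hl : Q ^ 4 ≤ l) (H : ℤ → ℂ) {c : ℂ} (hc : ‖c‖ ≤ 1)
    {Y : ℕ} {h : ℝ} (hs : ∀ y, H y ≠ 0 → y ∈ Ioc (0 : ℤ) Y) (hH : ∀ y, ‖H y‖ ≤ h) :
    N2 (Ioc 0 ((N : ℤ) * l)) (fun y => c * s3b_Hs l N Q H y) ≤ 100000 * (Y * h ^ 2) := by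
  have h1 : N2 (Ioc 0 ((N : ℤ) * l)) H ≤ Y * h ^ 2 := by
    unfold N2
    calc ∑ y ∈ Ioc (0 : ℤ) ((N : ℤ) * l), ‖H y‖ ^ 2
        ≤ ∑ y ∈ Ioc (0 : ℤ) Y, ‖H y‖ ^ 2 := by
          rw [← sum_filter_ne_zero]
          refine sum_le_sum_of_subset_of_nonneg (fun y hy => hs y fun h0 => ?_)
            fun _ _ _ => by positivity
          simp [h0] at hy
      _ ≤ ∑ _y ∈ Ioc (0 : ℤ) Y, h ^ 2 :=
          sum_le_sum fun y _ => pow_le_pow_left₀ (norm_nonneg _) (hH y) 2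
      _ = Y * h ^ 2 := by simp
  calc N2 (Ioc 0 ((N : ℤ) * l)) (fun y => c * s3b_Hs l N Q H y)
      = ∑ i ∈ range N, ∑ y ∈ Iv l i, ‖c * s3b_Hs l N Q H y‖ ^ 2 := by rw [s3b_sum_Iv, N2]
    _ ≤ ∑ i ∈ range N, 100000 * N2 (Iv l i) H := by
        refine sum_le_sum fun i hi => ?_
        have h2 := proj_norm ((i : ℤ) * l) hQ hl H
        rw [← s3b_Iv] at h2
        refine le_trans (sum_le_sum fun y hy => ?_) h2
        rw [s3b_Hs_eq H hi hy, norm_mul]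
        exact pow_le_pow_left₀ (by positivity) (mul_le_of_le_one_left (norm_nonneg _) hc) 2
    _ = 100000 * N2 (Ioc 0 ((N : ℤ) * l)) H := by
        rw [← mul_sum]
        unfold N2
        rw [s3b_sum_Iv]
    _ ≤ 100000 * (Y * h ^ 2) := by linarith

lemma s3b_Mq {l N Q : ℕ} (hl : 0 < l) (H : ℤ → ℂ) {c : ℂ} (hc : ‖c‖ ≤ 1) {h : ℝ}
    (hH : ∀ y, ‖H y‖ ≤ h) :
    ∑ i ∈ range N, ∑ q ∈ Icc 1 Q, Mq (Iv l i) (fun y => c * s3b_Hs l N Q H y) q ≤
      N * ((Q : ℝ) ^ 10 * h ^ 2) := by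
  calc _ ≤ ∑ _i ∈ range N, (Q : ℝ) ^ 10 * h ^ 2 := by
        refine sum_le_sum fun i hi => ?_
        have h2 := proj_small ((i : ℤ) * l) (Q := Q) hl H (h := h) fun y _ => hH y
        rw [← s3b_Iv] at h2
        refine le_trans (sum_le_sum fun q _ => sum_le_sum fun t _ => ?_) h2
        have e : FT (Iv l i) (fun y => c * s3b_Hs l N Q H y) ((t : ℝ) / q) =
            c * FT (Iv l i) (fun y => H y - flat (Iv l i) l Q H y) ((t : ℝ) / q) := by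
          unfold FT
          rw [mul_sum]
          refine sum_congr rfl fun y hy => ?_
          beta_reduce
          rw [s3b_Hs_eq H hi hy, mul_assoc]
        rw [e, norm_mul]
        exact pow_le_pow_left₀ (by positivity) (mul_le_of_le_one_left (norm_nonneg _) hc) 2
    _ = _ := by simp

lemma s3b_PS_le {g Z : ℕ} (hg : 1 ≤ g) (C : Cell g Z) {f : ℕ → ℕ → (U → ℕ) → (U → ℕ) → ℝ}
    {δ : ℝ} (hδ : 0 ≤ δ) (h : ∀ a b A B, f a b A B ≤ δ) :
    PS C f ≤ 2 ^ C.i * 2 ^ C.j * ((g : ℝ) ^ 4 * δ) := by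
  have hA : (C.SA.card : ℝ) ≤ 2 ^ C.i := by exact_mod_cast C.card_SA
  have hB : (C.SB.card : ℝ) ≤ 2 ^ C.j := by exact_mod_cast C.card_SB
  calc PS C f ≤ ∑ _a ∈ C.SA, ∑ _b ∈ C.SB, (g : ℝ) ^ 4 * δ := by
        refine sum_le_sum fun a ha => sum_le_sum fun b hb => ?_
        split_ifs
        · have h1 : ((tup U a).card : ℝ) ≤ (g : ℝ) ^ 2 := by
            exact_mod_cast ((C.hA a ha).2.2.good hg).card_tup_U
          have h2 : ((tup U b).card : ℝ) ≤ (g : ℝ) ^ 2 := by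
            exact_mod_cast ((C.hB b hb).2.2.good hg).card_tup_U
          calc _ ≤ ∑ _A ∈ tup U a, ∑ _B ∈ tup U b, δ :=
                sum_le_sum fun A _ => sum_le_sum fun B _ => h a b A B
            _ = (tup U a).card * ((tup U b).card * δ) := by simp
            _ ≤ (g : ℝ) ^ 2 * ((g : ℝ) ^ 2 * δ) := by gcongr
            _ = _ := by ring
        · positivity
    _ = C.SA.card * (C.SB.card * ((g : ℝ) ^ 4 * δ)) := by simp
    _ ≤ 2 ^ C.i * (2 ^ C.j * ((g : ℝ) ^ 4 * δ)) := by gcongr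
    _ = _ := by ring

lemma s3b_PS_add {g Z : ℕ} (C : Cell g Z) (f f' : ℕ → ℕ → (U → ℕ) → (U → ℕ) → ℂ) :
    PS C (fun a b A B => f a b A B + f' a b A B) = PS C f + PS C f' := by
  unfold PS
  simp only [← sum_add_distrib]
  refine sum_congr rfl fun a _ => sum_congr rfl fun b _ => ?_
  split_ifs
  · simp only [sum_add_distrib]
  · simp

theorem s3_core (k k1 : ℕ) : ∃ k' : ℕ, ∀ᶠ g : ℕ in atTop, ∀ (Z : ℕ) (C : Cell g Z) (v w : U)
    (F : ℕ → ℕ → ℂ) (α β : (U → ℕ) → (U → ℕ) → ℂ) (H : (U → ℕ) → (U → ℕ) → ℤ → ℂ),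
    (∀ P Q, ‖F P Q‖ ≤ 1) → (∀ A B, ‖α A B‖ ≤ 1) → (∀ A B, ‖β A B‖ ≤ 1) →
    (∀ A B y, ‖H A B y‖ ≤ (g : ℝ) ^ k1) →
    (∀ A B y, H A B y ≠ 0 → y ∈ Ioc (0 : ℤ) (64 * XX g)) →
    (∀ A B x, α A (Function.update B w x) = α A B) →
    (∀ A B x, β (Function.update A v x) B = β A B) →
    (∀ A B x, H (Function.update A v x) B = H A B) →
    (∀ A B, α A B ≠ 0 → g ^ k' ≤ A v) → (∀ A B, β A B ≠ 0 → g ^ k' ≤ B w) →
    ‖∑ P ∈ C.SP, ∑ Q ∈ C.SQ, F P Q * PS C fun a b A B =>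
      α A B * β A B * (J((A v : ℤ) | B w) : ℂ) * H A B ((a : ℤ) * P - b * Q)‖ ≤
      (XX g : ℝ) ^ 2 / (g : ℝ) ^ k := by
  obtain ⟨kK, kz, k2, h1⟩ := phi_cell (k + 1) (2 * k1 + 1)
  obtain ⟨k', h2⟩ := s3_flat (k + 1) k1 kK kz
  refine ⟨k', ?_⟩
  filter_upwards [h1, h2, eventually_ge_atTop 6400000, ev_pow_le 1 (4 * kz + 3 * kK),
    ev_pow_le 1 (4 + 3 * kK + 10 * kz + 2 * k1 + k2)] with g h1 h2 hg e1 e2
  intro Z C v w F α β H hF hα hβ hH hs hαw hβv hHv hαk hβk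
  have hg1 : 1 ≤ g := by omega
  have hgR : (6400000 : ℝ) ≤ g := by exact_mod_cast hg
  have hg0 : (0 : ℝ) < g := by linarith
  have hX : 2 ^ g ≤ XX g := Nat.pow_le_pow_right (by norm_num) (by omega)
  have hX1 : 1 ≤ XX g := Nat.one_le_two_pow
  have hN : 0 < g ^ (3 * kK) := Nat.pow_pos (by omega)
  have hl0 : 0 < ell g kK := Nat.succ_pos _
  have hQ1 : 1 ≤ g ^ kz := Nat.one_le_pow _ _ hg1
  have hl : (g ^ kz) ^ 4 ≤ ell g kK := by
    refine le_trans ?_ (Nat.le_succ _)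
    rw [Nat.le_div_iff_mul_le hN, ← pow_mul, ← pow_add, mul_comm kz 4]
    omega
  have hNl : 64 * XX g ≤ g ^ (3 * kK) * ell g kK := (Nat.lt_mul_div_succ _ hN).le
  have hs' : ∀ A B y, H A B y ≠ 0 →
      y ∈ Ioc (0 : ℤ) (((g ^ (3 * kK) : ℕ) : ℤ) * ell g kK) := fun A B y hy => by
    have h := mem_Ioc.mp (hs A B y hy)
    refine mem_Ioc.mpr ⟨h.1, h.2.trans ?_⟩
    exact_mod_cast hNl
  have hc : ∀ A B, ‖α A B * β A B * (J((A v : ℤ) | B w) : ℂ)‖ ≤ 1 := fun A B => by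
    rw [norm_mul, norm_mul]
    refine mul_le_one₀ (mul_le_one₀ (hα A B) (norm_nonneg _) (hβ A B)) (norm_nonneg _) ?_
    rw [Complex.norm_intCast]
    exact abs_jac_le _ _
  have b1 := h1 Z C F (fun A B y => α A B * β A B * (J((A v : ℤ) | B w) : ℂ) *
      s3b_Hs (ell g kK) (g ^ (3 * kK)) (g ^ kz) (H A B) y) hF
    (fun A B y hy => s3b_Hs_supp (H A B) (right_ne_zero_of_mul hy))
    (fun A B => by
      refine (s3b_N2 hQ1 hl (H A B) (hc A B) (Y := 64 * XX g) (h := (g : ℝ) ^ k1)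
        (fun y hy => by simpa using hs A B y hy) (hH A B)).trans ?_
      have hp : (0 : ℝ) ≤ XX g * ((g : ℝ) ^ k1) ^ 2 := by positivity
      have e : (XX g : ℝ) * (g : ℝ) ^ (2 * k1 + 1) = g * (XX g * ((g : ℝ) ^ k1) ^ 2) := by ring
      rw [e]
      push_cast
      nlinarith)
    (by
      refine (s3b_PS_le hg1 C (δ := ((g ^ (3 * kK) : ℕ) : ℝ) *
        (((g ^ kz : ℕ) : ℝ) ^ 10 * ((g : ℝ) ^ k1) ^ 2)) (by positivity)
        fun a b A B => s3b_Mq hl0 (H A B) (hc A B) (hH A B)).trans ?_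
      rw [mul_div_assoc]
      refine mul_le_mul_of_nonneg_left ?_ (by positivity)
      rw [le_div_iff₀ (by positivity)]
      have e3 : g ^ (4 + 3 * kK + 10 * kz + 2 * k1 + k2) ≤ XX g ^ 2 := by nlinarith
      have e4 : (g : ℝ) ^ (4 + 3 * kK + 10 * kz + 2 * k1 + k2) ≤ (XX g : ℝ) ^ 2 := by
        exact_mod_cast e3
      refine le_trans (le_of_eq ?_) e4
      push_cast
      ring)
  have b2 := h2 Z C v w F α β H hF hα hβ hH hαw hβv hHv hαk hβk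
  have e : ∀ P Q : ℕ, (PS C fun a b A B =>
      α A B * β A B * (J((A v : ℤ) | B w) : ℂ) * H A B ((a : ℤ) * P - b * Q)) =
      (PS C fun a b A B => α A B * β A B * (J((A v : ℤ) | B w) : ℂ) *
        s3b_Hs (ell g kK) (g ^ (3 * kK)) (g ^ kz) (H A B) ((a : ℤ) * P - b * Q)) +
      PS C fun a b A B => α A B * β A B * (J((A v : ℤ) | B w) : ℂ) *
        ∑ i ∈ range (g ^ (3 * kK)), if (a : ℤ) * P - b * Q ∈ Iv (ell g kK) i then
          flat (Iv (ell g kK) i) (ell g kK) (g ^ kz) (H A B) ((a : ℤ) * P - b * Q) else 0 := by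
    intro P Q
    rw [← s3b_PS_add]
    congr 1
    funext a b A B
    rw [← mul_add, ← s3b_split (H A B) (hs' A B)]
  simp only [e, mul_add, sum_add_distrib]
  refine (norm_add_le _ _).trans ((add_le_add b1 b2).trans ?_)
  rw [← add_div, div_le_div_iff₀ (by positivity) (by positivity), pow_succ (g : ℝ) k]
  have hp : (0 : ℝ) ≤ (XX g : ℝ) ^ 2 * (g : ℝ) ^ k := by positivity
  nlinarith

end Pool.Agent.Lib.MP_788af2_nt.R0
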