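import Pool.Agent.Lib.MP_788af2_nt.R0.S1d

namespace Pool.Agent.Lib.MP_788af2_nt.R0

open Finset Filter
open scoped NumberTheorySymbols

/-! The spin sum over typical `c`. -/

lemma spin1_swap {ι : Type} (T : Finset ι) (S₁ S₂ S₃ S₄ S₅ : Finset ℕ)
    (f : ι → ℕ → ℕ → ℕ → ℕ → ℕ → ℝ) :
    ∑ P ∈ S₁, ∑ Q ∈ S₂, ∑ m ∈ S₃, ∑ s ∈ S₄, ∑ κ ∈ S₅, ∑ x ∈ T, f x P Q m s κ =
      ∑ x ∈ T, ∑ P ∈ S₁, ∑ Q ∈ S₂, ∑ m ∈ S₃, ∑ s ∈ S₄, ∑ κ ∈ S₅, f x P Q m s κ := by
  symm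
  rw [sum_comm]
  refine sum_congr rfl fun P _ => ?_
  rw [sum_comm]
  refine sum_congr rfl fun Q _ => ?_
  rw [sum_comm]
  refine sum_congr rfl fun m _ => ?_
  rw [sum_comm]
  refine sum_congr rfl fun s _ => ?_
  rw [sum_comm]

/-- The conditions on `m`. -/
def spin1A (g Z : ℕ) (x : ℕ × ℕ) (b m : ℕ) : Prop :=
  (m.Coprime b ∧ good g m) ∧ |((x.1 + om m : ℕ) : ℝ) - Real.log g| ≤ Real.log g / 100 ∧
    ((x.2 + omZ Z m : ℕ) : ℝ) ≤ Real.log g / 100

/-- The conditions on `s` and `κ`. -/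
def spin1B (g Z : ℕ) (x : ℕ × ℕ) (a s κ : ℕ) : Prop :=
  ((s * κ).Coprime a ∧ good g s) ∧ good g (s * κ) ∧ x = (om (s * κ), omZ Z (s * κ))

open Classical in
/-- The new weight of `m`. -/
noncomputable def spin1F (g Z : ℕ) (x : ℕ × ℕ) (F : ℕ → ℕ → ℕ → ℕ → ℝ) (a b P m : ℕ) : ℝ :=
  if spin1A g Z x b m then F a b P m / (g : ℝ) ^ 3 else 0

open Classical in
/-- The new weight of `s` and `κ`. -/
noncomputable def spin1G (g Z : ℕ) (x : ℕ × ℕ) (β : ℕ → ℕ → ℕ → ℕ → ℝ) (a b s κ : ℕ) : ℝ :=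
  if spin1B g Z x a s κ then β a b s κ * (J((b : ℤ) | s) : ℝ) else 0

lemma spin1_typ {g Z a b s κ m : ℕ} {x : ℕ × ℕ} (hc : (s * κ).Coprime m) (hA : spin1A g Z x b m)
    (hB : spin1B g Z x a s κ) : typ g Z (s * κ * m) := by
  obtain ⟨⟨-, h1⟩, h2, h3⟩ := hA
  obtain ⟨-, h4, rfl⟩ := hB
  refine ⟨(Nat.squarefree_mul hc).2 ⟨h4.1, h1.1⟩, Nat.Coprime.mul_left h4.2.1 h1.2.1, ?_, ?_⟩
  · rw [om_mul hc]; exact h2
  · rw [omZ_mul Z hc]; exact h3

lemma spin1_point {g Z a b P Q m s κ : ℕ} (hg : 1 ≤ g) (hco : (a * P).Coprime (b * Q))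
    (F β : ℕ → ℕ → ℕ → ℕ → ℝ) :
    (if a * P = b * Q + 16 * (s * κ * m) ∧ typ g Z (s * κ * m) then
      F a b P m * β a b s κ * (J(((a * P : ℕ) : ℤ) | s) : ℝ) else 0) =
    ∑ x ∈ range (g + 1) ×ˢ range (g + 1), (g : ℝ) ^ 3 *
      if a * P = b * Q + 16 * (s * κ * m) ∧ (s * κ).Coprime m then
        spin1F g Z x F a b P m * spin1G g Z x β a b s κ * (J((Q : ℤ) | s) : ℝ) else 0 := by
  split_ifs with h h' h'
  · obtain ⟨he, ht⟩ := h
    have hc := h'.2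
    have hgd := ht.good hg
    have g1 : good g (s * κ) := hgd.of_dvd (dvd_mul_right _ _)
    have o1 : om (s * κ) < g + 1 :=
      Nat.lt_succ_of_le ((Nat.lt_two_pow_self (n := om (s * κ))).le.trans g1.2.2)
    have o2 : omZ Z (s * κ) < g + 1 := lt_of_le_of_lt (card_filter_le _ _) o1
    have c1 : m.Coprime b := by
      refine Nat.eq_one_of_dvd_coprimes hco ?_ ((Nat.gcd_dvd_right m b).mul_right Q)
      rw [he]
      exact dvd_add ((Nat.gcd_dvd_right m b).mul_right Q)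
        (((Nat.gcd_dvd_left m b).mul_left _).mul_left _)
    have c2 : (s * κ).Coprime a := by
      have d1 := (Nat.gcd_dvd_right (s * κ) a).mul_right P
      refine Nat.eq_one_of_dvd_coprimes hco d1 ?_
      rw [he] at d1
      exact (Nat.dvd_add_left (((Nat.gcd_dvd_left (s * κ) a).mul_right m).mul_left 16)).1 d1
    have hA : spin1A g Z (om (s * κ), omZ Z (s * κ)) b m := by
      refine ⟨⟨c1, hgd.of_dvd (dvd_mul_left _ _)⟩, ?_, ?_⟩
      · rw [← om_mul hc]; exact ht.2.2.1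
      · rw [← omZ_mul Z hc]; exact ht.2.2.2
    have hB : spin1B g Z (om (s * κ), omZ Z (s * κ)) a s κ :=
      ⟨⟨c2, g1.of_dvd (dvd_mul_right _ _)⟩, g1, rfl⟩
    have hJ : J(((a * P : ℕ) : ℤ) | s) = J((b : ℤ) | s) * J((Q : ℤ) | s) := by
      rw [← jacobiSym.mul_left]
      refine jacobiSym.mod_left' ?_
      rw [he]
      push_cast
      rw [show (b : ℤ) * Q + 16 * (s * κ * m) = b * Q + s * (16 * κ * m) by ring,
        Int.add_mul_emod_self_left]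
    rw [sum_eq_single_of_mem (om (s * κ), omZ Z (s * κ))
      (mem_product.2 ⟨mem_range.2 o1, mem_range.2 o2⟩)]
    · have hg0 : (g : ℝ) ≠ 0 := by positivity
      rw [spin1F, spin1G, if_pos hA, if_pos hB, hJ]
      push_cast
      field_simp
    · intro x _ hx
      rw [spin1G, if_neg fun hB' => hx hB'.2.2]
      simp
  · exact absurd ⟨h.1, Nat.coprime_of_squarefree_mul h.2.1⟩ h'
  · symm
    refine sum_eq_zero fun x _ => ?_
    by_cases hA : spin1A g Z x b m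
    · rw [spin1G, if_neg fun hB => h ⟨h'.1, spin1_typ h'.2 hA hB⟩]
      simp
    · rw [spin1F, if_neg hA]
      simp
  · simp

theorem s1_typ (k : ℕ) : ∃ k' : ℕ, ∀ᶠ g : ℕ in atTop, ∀ (Z : ℕ) (C : Cell g Z)
    (𝒦 : Finset ℕ) (F β : ℕ → ℕ → ℕ → ℕ → ℝ), (𝒦 = {1} ∨ 𝒦 = RR g) →
    (∀ a b P m, good g m → |F a b P m| ≤ (g : ℝ) ^ 3) → (∀ a b s κ, |β a b s κ| ≤ 1) →
    (∀ a b s κ, β a b s κ ≠ 0 → g ^ k' ≤ s ∧ 2 ^ (3 * g) < s * κ ∧
      s * κ * 2 ^ (9 * g) ≤ 4 * XX g) →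
    ∑ a ∈ C.SA, ∑ b ∈ C.SB, (if a.Coprime b then
      |∑ P ∈ C.SP, ∑ Q ∈ C.SQ, ∑ m ∈ Icc 1 (4 * XX g), ∑ s ∈ Icc 1 (4 * XX g), ∑ κ ∈ 𝒦,
        if a * P = b * Q + 16 * (s * κ * m) ∧ typ g Z (s * κ * m) then
          F a b P m * β a b s κ * (J(((a * P : ℕ) : ℤ) | s) : ℝ) else 0| else 0) ≤
      (XX g : ℝ) ^ 2 / (g : ℝ) ^ k := by
  obtain ⟨k', hk⟩ := s1_core (k + 6)
  refine ⟨k', ?_⟩
  filter_upwards [hk, eventually_ge_atTop 10] with g hg h10 Z C 𝒦 F β hK hF hβ hs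
  have hg0 : (0 : ℝ) < g := by positivity
  have h3 : (0 : ℝ) < (g : ℝ) ^ 3 := by positivity
  have key := fun x : ℕ × ℕ => hg Z C 𝒦 (spin1F g Z x F) (spin1G g Z x β) hK
    (fun a b P m => by
      unfold spin1F
      split_ifs with h
      · rw [abs_div, abs_of_pos h3, div_le_one h3]
        exact hF a b P m h.1.2
      · simp)
    (fun a b s κ => by
      unfold spin1G
      split_ifs with h
      · rw [abs_mul]
        exact mul_le_one₀ (hβ a b s κ) (abs_nonneg _) (abs_jac_le _ _)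
      · simp)
    (fun a b P m h => by
      unfold spin1F at h
      split_ifs at h with h'
      · exact h'.1
      · exact absurd rfl h)
    (fun a b s κ h => by
      unfold spin1G at h
      split_ifs at h with h'
      · exact ⟨h'.1.1, h'.1.2, hs a b s κ (left_ne_zero_of_mul h)⟩
      · exact absurd rfl h)
  set T := range (g + 1) ×ˢ range (g + 1) with hT
  calc _ ≤ ∑ a ∈ C.SA, ∑ b ∈ C.SB, ∑ x ∈ T, (g : ℝ) ^ 3 * (if a.Coprime b then
        |∑ P ∈ C.SP, ∑ Q ∈ C.SQ, ∑ m ∈ Icc 1 (4 * XX g), ∑ s ∈ Icc 1 (4 * XX g), ∑ κ ∈ 𝒦,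
          if a * P = b * Q + 16 * (s * κ * m) ∧ (s * κ).Coprime m then
            spin1F g Z x F a b P m * spin1G g Z x β a b s κ * (J((Q : ℤ) | s) : ℝ) else 0|
          else 0) := by
        refine sum_le_sum fun a ha => sum_le_sum fun b hb => ?_
        split_ifs with hab
        · rw [sum_congr rfl fun P hP => sum_congr rfl fun Q hQ => sum_congr rfl fun m _ =>
            sum_congr rfl fun s _ => sum_congr rfl fun κ _ =>
              spin1_point (by omega) (C.coprime h10 ha hb hP hQ hab) F β, spin1_swap]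
          refine (abs_sum_le_sum_abs _ _).trans (sum_le_sum fun x _ => ?_)
          simp only [← mul_sum]
          rw [abs_mul, abs_of_pos h3]
        · simp
    _ = ∑ x ∈ T, (g : ℝ) ^ 3 * ∑ a ∈ C.SA, ∑ b ∈ C.SB, (if a.Coprime b then
        |∑ P ∈ C.SP, ∑ Q ∈ C.SQ, ∑ m ∈ Icc 1 (4 * XX g), ∑ s ∈ Icc 1 (4 * XX g), ∑ κ ∈ 𝒦,
          if a * P = b * Q + 16 * (s * κ * m) ∧ (s * κ).Coprime m then
            spin1F g Z x F a b P m * spin1G g Z x β a b s κ * (J((Q : ℤ) | s) : ℝ) else 0|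
          else 0) := by
        symm
        simp only [mul_sum (s := C.SA), mul_sum (s := C.SB)]
        rw [sum_comm]
        exact sum_congr rfl fun a _ => sum_comm
    _ ≤ ∑ x ∈ T, (g : ℝ) ^ 3 * ((XX g : ℝ) ^ 2 / (g : ℝ) ^ (k + 6)) :=
        sum_le_sum fun x _ => mul_le_mul_of_nonneg_left (key x) h3.le
    _ ≤ _ := by
        rw [sum_const, hT, card_product, card_range, nsmul_eq_mul]
        have h10' : (10 : ℝ) ≤ g := by exact_mod_cast h10
        have h4 : (((g + 1) * (g + 1) : ℕ) : ℝ) ≤ (g : ℝ) ^ 3 := by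
          push_cast
          nlinarith [mul_le_mul_of_nonneg_right h10' (mul_pos hg0 hg0).le]
        refine (mul_le_mul_of_nonneg_right h4 (by positivity)).trans (le_of_eq ?_)
        rw [pow_add]
        field_simp

end Pool.Agent.Lib.MP_788af2_nt.R0
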