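import Pool.Agent.Lib.MP_788af2_nt.R0.Spin1

namespace Pool.Agent.Lib.MP_788af2_nt.R0

open Finset Filter
open scoped NumberTheorySymbols

/-! The spin sum with factorisations, and the parity of the Selmer rank. -/

lemma spin2_max {α : Type} [Inhabited α] (s t : Finset α) (G : α → α → ℝ) :
    ∃ x : α × α, ∑ A ∈ s, ∑ B ∈ t, G A B ≤ (s.card * t.card : ℕ) * G x.1 x.2 := by
  rw [← sum_product', ← card_product]
  rcases (s ×ˢ t).eq_empty_or_nonempty with h | h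
  · exact ⟨default, by simp [h]⟩
  · obtain ⟨x, -, hx⟩ := exists_max_image (s ×ˢ t) (fun x => G x.1 x.2) h
    exact ⟨x, (sum_le_card_nsmul _ _ _ hx).trans (by rw [nsmul_eq_mul])⟩

theorem s1_tup (k : ℕ) : ∃ k' : ℕ, ∀ᶠ g : ℕ in atTop, ∀ (Z : ℕ) (C : Cell g Z)
    (𝒦 : Finset ℕ) (F β : (U → ℕ) → (U → ℕ) → ℕ → ℕ → ℝ), (𝒦 = {1} ∨ 𝒦 = RR g) →
    (∀ A B P m, good g m → |F A B P m| ≤ (g : ℝ) ^ 3) → (∀ A B s κ, |β A B s κ| ≤ 1) →
    (∀ A B s κ, β A B s κ ≠ 0 → g ^ k' ≤ s ∧ 2 ^ (3 * g) < s * κ ∧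
      s * κ * 2 ^ (9 * g) ≤ 4 * XX g) →
    PS C (fun a b A B =>
      |∑ P ∈ C.SP, ∑ Q ∈ C.SQ, ∑ m ∈ Icc 1 (4 * XX g), ∑ s ∈ Icc 1 (4 * XX g), ∑ κ ∈ 𝒦,
        if a * P = b * Q + 16 * (s * κ * m) ∧ typ g Z (s * κ * m) then
          F A B P m * β A B s κ * (J(((a * P : ℕ) : ℤ) | s) : ℝ) else 0|) ≤
      (XX g : ℝ) ^ 2 / (g : ℝ) ^ k := by
  obtain ⟨k', h⟩ := s1_typ (k + 4)
  refine ⟨k', ?_⟩
  filter_upwards [h, eventually_ge_atTop 1] with g h hg Z C 𝒦 F β hK hF hβ sβ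
  set G : ℕ → ℕ → (U → ℕ) → (U → ℕ) → ℝ := fun a b A B =>
      |∑ P ∈ C.SP, ∑ Q ∈ C.SQ, ∑ m ∈ Icc 1 (4 * XX g), ∑ s ∈ Icc 1 (4 * XX g), ∑ κ ∈ 𝒦,
        if a * P = b * Q + 16 * (s * κ * m) ∧ typ g Z (s * κ * m) then
          F A B P m * β A B s κ * (J(((a * P : ℕ) : ℤ) | s) : ℝ) else 0| with hG
  choose x hx using fun a b => spin2_max (tup U a) (tup U b) (G a b)
  have h1 := h Z C 𝒦 (fun a b => F (x a b).1 (x a b).2) (fun a b => β (x a b).1 (x a b).2) hK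
    (fun a b => hF _ _) (fun a b => hβ _ _) (fun a b => sβ _ _)
  have hg' : (0 : ℝ) < g := by exact_mod_cast hg
  have h2 : PS C G ≤ (g : ℝ) ^ 4 * ∑ a ∈ C.SA, ∑ b ∈ C.SB,
      (if a.Coprime b then G a b (x a b).1 (x a b).2 else 0) := by
    rw [PS, mul_sum]
    refine sum_le_sum fun a ha => ?_
    rw [mul_sum]
    refine sum_le_sum fun b hb => ?_
    split_ifs
    · refine (hx a b).trans (mul_le_mul_of_nonneg_right ?_ (abs_nonneg _))
      have h3 := Nat.mul_le_mul ((C.hA a ha).2.2.good hg).card_tup_U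
        ((C.hB b hb).2.2.good hg).card_tup_U
      rw [← pow_add] at h3
      exact_mod_cast h3
    · simp
  refine h2.trans ((mul_le_mul_of_nonneg_left h1 (by positivity)).trans (le_of_eq ?_))
  rw [pow_add]
  field_simp

lemma spin2_dvd {s Y : ℕ} (hs : 0 < s) (h : ℕ → ℝ) (hh : ∀ c, h c ≠ 0 → c ≤ Y) :
    ∑ c ∈ Icc 1 Y with s ∣ c, h c = ∑ m ∈ Icc 1 Y, h (s * m) := by
  rw [← sum_image (s := Icc 1 Y) (g := fun m => s * m) (f := h)
    fun m _ m' _ e => Nat.eq_of_mul_eq_mul_left hs e]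
  refine sum_subset (fun c hc => ?_) fun c hc hc' => ?_
  · obtain ⟨h1, m, rfl⟩ := mem_filter.1 hc
    rw [mem_Icc] at h1
    exact mem_image.2 ⟨m, mem_Icc.2 ⟨Nat.pos_of_mul_pos_left h1.1,
      (Nat.le_mul_of_pos_left m hs).trans h1.2⟩, rfl⟩
  · obtain ⟨m, hm, rfl⟩ := mem_image.1 hc
    by_contra h0
    exact hc' (mem_filter.2 ⟨mem_Icc.2 ⟨Nat.mul_pos hs (mem_Icc.1 hm).1, hh _ h0⟩,
      dvd_mul_right _ _⟩)

lemma spin2_RR {g s : ℕ} (hs : s ∈ RR g) : s.Prime ∧ 2 ^ (9 * g) < s ∧ s ≤ 2 ^ (18 * g) := by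
  rw [RR, mem_filter, mem_Ioc] at hs
  exact ⟨hs.2, hs.1⟩

lemma spin2_le {g s : ℕ} (hs : s ∈ RR g) : s * 2 ^ (9 * g) ≤ 4 * XX g := by
  calc s * 2 ^ (9 * g) ≤ 2 ^ (18 * g) * 2 ^ (9 * g) := Nat.mul_le_mul_right _ (spin2_RR hs).2.2
    _ = 2 ^ (27 * g) := by rw [← pow_add]; congr 1; ring
    _ ≤ 2 ^ (40 * g) := Nat.pow_le_pow_right (by norm_num) (by omega)
    _ ≤ 4 * XX g := Nat.le_mul_of_pos_left _ (by norm_num)

lemma spin2_WW {g : ℕ} (h : ℕ → ℝ) (hh : ∀ c, h c ≠ 0 → c ≤ 4 * XX g) :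
    ∑ c ∈ Icc 1 (4 * XX g), WW g c * h c =
      ∑ m ∈ Icc 1 (4 * XX g), ∑ s ∈ Icc 1 (4 * XX g), if s ∈ RR g then h (s * m) else 0 := by
  have hsub : RR g ⊆ Icc 1 (4 * XX g) := fun s hs => mem_Icc.2 ⟨(spin2_RR hs).1.pos,
    (Nat.le_mul_of_pos_right s (by positivity)).trans (spin2_le hs)⟩
  simp only [sum_ite_mem, inter_eq_right.2 hsub]
  rw [sum_comm, ← sum_congr rfl fun s hs => spin2_dvd (spin2_RR hs).1.pos h hh]
  simp only [sum_filter]
  rw [sum_comm]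
  refine sum_congr rfl fun c _ => ?_
  rw [← sum_filter, sum_const, nsmul_eq_mul, WW]

lemma spin2_sig {s m : ℕ} (hs : s.Prime) (h : Squarefree (s * m)) (a b n : ℕ) :
    sig a b (s * m) n =
      (-1) ^ (om a + om b + om m) * (J((n : ℤ) | m) : ℝ) * (J((n : ℤ) | s) : ℝ) := by
  rw [sig, om_mul (Nat.coprime_of_squarefree_mul h), om_prime hs,
    jacobiSym.mul_right' _ hs.ne_zero (right_ne_zero_of_mul h.ne_zero)]
  push_cast
  ring

/-- The parity of the Selmer rank is equidistributed. -/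
theorem sum_sig (k : ℕ) : ∀ᶠ g : ℕ in atTop, ∀ (Z : ℕ) (C : Cell g Z),
    |FS C fun a b P _ c => WW g c * sig a b c (a * P)| ≤ (XX g : ℝ) ^ 2 / (g : ℝ) ^ k := by
  obtain ⟨k', h⟩ := s1_typ k
  filter_upwards [h, eventually_ge_atTop 10, ev_pow_le 1 k'] with g h hg hk Z C
  have hg1 : (1 : ℝ) ≤ g := by exact_mod_cast (by omega : 1 ≤ g)
  have h1 := h Z C {1}
    (fun a b P m => (-1) ^ (om a + om b + om m) * (J(((a * P : ℕ) : ℤ) | m) : ℝ))
    (fun _ _ s κ => if s ∈ RR g ∧ κ = 1 then 1 else 0) (Or.inl rfl)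
    (fun a b P m _ => by
      rw [abs_mul, abs_neg_one_pow, one_mul]
      exact (abs_jac_le _ _).trans (one_le_pow₀ hg1))
    (fun _ _ s κ => by split_ifs <;> simp)
    (fun _ _ s κ h0 => by
      obtain ⟨hs, rfl⟩ : s ∈ RR g ∧ κ = 1 := by
        by_contra hc
        exact h0 (if_neg hc)
      have h2 := (spin2_RR hs).2.1
      have h3 : 2 ^ g ≤ 2 ^ (9 * g) := Nat.pow_le_pow_right (by norm_num) (by omega)
      have h4 : 2 ^ (3 * g) ≤ 2 ^ (9 * g) := Nat.pow_le_pow_right (by norm_num) (by omega)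
      rw [mul_one]
      exact ⟨by omega, by omega, spin2_le hs⟩)
  refine le_trans ?_ h1
  rw [FS]
  refine (abs_sum_le_sum_abs _ _).trans (sum_le_sum fun a ha => ?_)
  refine (abs_sum_le_sum_abs _ _).trans (sum_le_sum fun b hb => ?_)
  by_cases hab : a.Coprime b
  · rw [if_pos hab]
    refine le_of_eq (congrArg _ (sum_congr rfl fun P hP => sum_congr rfl fun Q hQ => ?_))
    have h5 := (C.sizes hg ha hb hP hQ).2.2.2.2.2.1
    have e := spin2_WW (g := g)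
      (fun c => if a * P = b * Q + 16 * c ∧ typ g Z c then sig a b c (a * P) else 0)
      (fun c hc => by
        have : a * P = b * Q + 16 * c ∧ typ g Z c := by
          by_contra h0
          exact hc (if_neg h0)
        omega)
    simp only [mul_ite, mul_zero] at e
    simp only [eq_true hab, true_and, sum_singleton, mul_one, and_true]
    refine e.trans (sum_congr rfl fun m _ => sum_congr rfl fun s _ => ?_)
    by_cases hs : s ∈ RR g
    · simp only [hs, if_true, mul_one]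
      split_ifs with h0
      · exact spin2_sig (spin2_RR hs).1 h0.2.1 a b _
      · rfl
    · simp [hs]
  · simp [hab]

end Pool.Agent.Lib.MP_788af2_nt.R0
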