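import Pool.Agent.Lib.MP_788af2_nt.R0.Base

namespace Pool.Agent.Lib.MP_788af2_nt.R0

open Finset Filter
open scoped NumberTheorySymbols

/-! The normal order of the number of prime factors along arithmetic progressions. -/

/-- The indicator of divisibility. -/
noncomputable def tk_ind (m n : ℕ) : ℝ := if m ∣ n then 1 else 0

lemma tk_ind_nonneg (m n : ℕ) : 0 ≤ tk_ind m n := by
  unfold tk_ind; split_ifs <;> norm_num

lemma tk_count {m d : ℕ} (c0 T : ℕ) (hm : 0 < m) (hco : m.Coprime d) :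
    |∑ t ∈ range T, tk_ind m (c0 + d * t) - T / m| ≤ 1 := by
  obtain ⟨r, hr⟩ : ∃ r : ℕ, ∀ t : ℕ, m ∣ c0 + d * t ↔ t ≡ r [MOD m] := by
    have : NeZero m := ⟨hm.ne'⟩
    let u : (ZMod m)ˣ := ZMod.unitOfCoprime d hco.symm
    have hu : (u : ZMod m) = (d : ZMod m) := ZMod.coe_unitOfCoprime d hco.symm
    refine ⟨((u⁻¹ : (ZMod m)ˣ) * (-(c0 : ZMod m)) : ZMod m).val, fun t => ?_⟩
    rw [← ZMod.natCast_eq_zero_iff, ← ZMod.natCast_eq_natCast_iff, ZMod.natCast_zmod_val]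
    push_cast
    rw [← hu, Units.eq_inv_mul_iff_mul_eq]
    constructor
    · intro h; linear_combination h
    · intro h; linear_combination h
  have h1 : ∑ t ∈ range T, tk_ind m (c0 + d * t) = (T.count (· ≡ r [MOD m]) : ℝ) := by
    rw [Nat.count_eq_card_filter_range, card_filter]
    push_cast
    refine sum_congr rfl fun t _ => ?_
    unfold tk_ind
    simp only [hr]
  rw [h1, Nat.count_modEq_card T hm r]
  have hm' : (0 : ℝ) < m := by exact_mod_cast hm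
  have h2 : ((T / m : ℕ) : ℝ) ≤ T / m := Nat.cast_div_le
  have h3 : (T : ℝ) / m < (T / m : ℕ) + 1 := by
    rw [div_lt_iff₀ hm']
    have := Nat.lt_div_mul_add (a := T) hm
    have h4 : (T : ℝ) < ((T / m * m + m : ℕ) : ℝ) := by exact_mod_cast this
    push_cast at h4
    linarith
  rw [abs_le]
  push_cast
  split_ifs <;> constructor <;> linarith

/-- The number of members of `S` dividing `n`. -/
noncomputable def tk_cnt (S : Finset ℕ) (n : ℕ) : ℝ := ∑ p ∈ S, tk_ind p n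

lemma tk_cnt_nonneg (S : Finset ℕ) (n : ℕ) : 0 ≤ tk_cnt S n :=
  sum_nonneg fun _ _ => tk_ind_nonneg _ _

lemma tk_first {S : Finset ℕ} {d : ℕ} (c0 T : ℕ) (hS : ∀ p ∈ S, p.Prime ∧ ¬p ∣ d) :
    |∑ t ∈ range T, tk_cnt S (c0 + d * t) - T * ∑ p ∈ S, (p : ℝ)⁻¹| ≤ S.card := by
  unfold tk_cnt
  rw [sum_comm, mul_sum, ← sum_sub_distrib]
  refine (abs_sum_le_sum_abs _ _).trans ?_
  rw [card_eq_sum_ones]
  push_cast
  refine sum_le_sum fun p hp => ?_
  obtain ⟨h1, h2⟩ := hS p hp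
  simpa [div_eq_mul_inv] using tk_count c0 T h1.pos ((Nat.Prime.coprime_iff_not_dvd h1).2 h2)

lemma tk_second {S : Finset ℕ} {d : ℕ} (c0 T : ℕ) (hS : ∀ p ∈ S, p.Prime ∧ ¬p ∣ d) :
    ∑ t ∈ range T, tk_cnt S (c0 + d * t) ^ 2 ≤
      T * (∑ p ∈ S, (p : ℝ)⁻¹) ^ 2 + T * ∑ p ∈ S, (p : ℝ)⁻¹ + (S.card : ℝ) ^ 2 := by
  classical
  have key : ∀ p ∈ S, ∀ q ∈ S, ∑ t ∈ range T, tk_ind p (c0 + d * t) * tk_ind q (c0 + d * t) ≤
      T * ((p : ℝ)⁻¹ * (q : ℝ)⁻¹) + (if p = q then T * (p : ℝ)⁻¹ else 0) + 1 := by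
    intro p hp q hq
    obtain ⟨h1, h2⟩ := hS p hp
    obtain ⟨h3, h4⟩ := hS q hq
    have hcp := (Nat.Prime.coprime_iff_not_dvd h1).2 h2
    have hcq := (Nat.Prime.coprime_iff_not_dvd h3).2 h4
    split_ifs with h
    · subst h
      have e : ∀ t ∈ range T, tk_ind p (c0 + d * t) * tk_ind p (c0 + d * t) =
          tk_ind p (c0 + d * t) := by
        intro t _; unfold tk_ind; split_ifs <;> simp
      rw [sum_congr rfl e]
      have h5 := (abs_le.1 (tk_count c0 T h1.pos hcp)).2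
      rw [div_eq_mul_inv] at h5
      have : (0 : ℝ) ≤ T * ((p : ℝ)⁻¹ * (p : ℝ)⁻¹) := by positivity
      linarith
    · have hpq : p.Coprime q := (Nat.coprime_primes h1 h3).2 h
      have e : ∀ t ∈ range T, tk_ind p (c0 + d * t) * tk_ind q (c0 + d * t) =
          tk_ind (p * q) (c0 + d * t) := by
        intro t _
        unfold tk_ind
        by_cases a : p ∣ c0 + d * t
        · by_cases b : q ∣ c0 + d * t
          · simp [a, b, hpq.mul_dvd_of_dvd_of_dvd a b]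
          · have : ¬p * q ∣ c0 + d * t := fun hh => b ((dvd_mul_left q p).trans hh)
            simp [b, this]
        · have : ¬p * q ∣ c0 + d * t := fun hh => a ((dvd_mul_right p q).trans hh)
          simp [a, this]
      rw [sum_congr rfl e]
      have h5 := (abs_le.1 (tk_count c0 T (Nat.mul_pos h1.pos h3.pos)
        (Nat.Coprime.mul_left hcp hcq))).2
      push_cast at h5
      rw [div_eq_mul_inv, mul_inv] at h5
      linarith
  calc ∑ t ∈ range T, tk_cnt S (c0 + d * t) ^ 2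
      = ∑ p ∈ S, ∑ q ∈ S, ∑ t ∈ range T, tk_ind p (c0 + d * t) * tk_ind q (c0 + d * t) := by
        unfold tk_cnt
        simp only [sq, sum_mul_sum]
        rw [sum_comm]
        exact sum_congr rfl fun p _ => sum_comm
    _ ≤ ∑ p ∈ S, ∑ q ∈ S,
        (T * ((p : ℝ)⁻¹ * (q : ℝ)⁻¹) + (if p = q then T * (p : ℝ)⁻¹ else 0) + 1) :=
        sum_le_sum fun p hp => sum_le_sum fun q hq => key p hp q hq
    _ = _ := by
        simp only [sum_add_distrib, sum_const, nsmul_eq_mul, mul_one]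
        congr 1
        · congr 1
          · rw [sq, sum_mul_sum, mul_sum]
            exact sum_congr rfl fun p _ => by rw [mul_sum]
          · rw [mul_sum]
            refine sum_congr rfl fun p hp => ?_
            rw [sum_ite_eq, if_pos hp]
        · ring

lemma tk_var {S : Finset ℕ} {d : ℕ} (c0 T : ℕ) (hS : ∀ p ∈ S, p.Prime ∧ ¬p ∣ d) :
    ∑ t ∈ range T, (tk_cnt S (c0 + d * t) - ∑ p ∈ S, (p : ℝ)⁻¹) ^ 2 ≤
      T * ∑ p ∈ S, (p : ℝ)⁻¹ + 3 * (S.card : ℝ) ^ 2 := by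
  have h1 := (abs_le.1 (tk_first c0 T hS)).1
  have h2 := tk_second c0 T hS
  have h3 : ∑ p ∈ S, (p : ℝ)⁻¹ ≤ S.card := by
    rw [card_eq_sum_ones]
    push_cast
    refine sum_le_sum fun p hp => inv_le_one_of_one_le₀ ?_
    exact_mod_cast (hS p hp).1.one_le
  have h4 : 0 ≤ ∑ p ∈ S, (p : ℝ)⁻¹ := sum_nonneg fun _ _ => by positivity
  generalize ∑ p ∈ S, (p : ℝ)⁻¹ = L at *
  have e : ∑ t ∈ range T, (tk_cnt S (c0 + d * t) - L) ^ 2 =
      ∑ t ∈ range T, tk_cnt S (c0 + d * t) ^ 2 - 2 * L * ∑ t ∈ range T, tk_cnt S (c0 + d * t) +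
        T * L ^ 2 := by
    simp only [sub_sq, sum_add_distrib, sum_sub_distrib, sum_const, card_range, nsmul_eq_mul,
      mul_sum]
    congr 2
    exact sum_congr rfl fun t _ => by ring
  rw [e]
  have h5 : (0 : ℝ) ≤ S.card := Nat.cast_nonneg _
  nlinarith [mul_le_mul_of_nonneg_left h1 h4, mul_le_mul_of_nonneg_right h3 h5]

lemma tk_markov (T : ℕ) (f : ℕ → ℝ) (hf : ∀ t, 0 ≤ f t) (lam : ℝ) (p : ℕ → Prop)
    [DecidablePred p] (h : ∀ t ∈ range T, p t → lam ≤ f t) :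
    (((range T).filter p).card : ℝ) * lam ≤ ∑ t ∈ range T, f t := by
  calc (((range T).filter p).card : ℝ) * lam = ∑ _t ∈ (range T).filter p, lam := by
        rw [sum_const, nsmul_eq_mul]
    _ ≤ ∑ t ∈ (range T).filter p, f t :=
        sum_le_sum fun t ht => h t (mem_filter.1 ht).1 (mem_filter.1 ht).2
    _ ≤ _ := sum_le_sum_of_subset_of_nonneg (filter_subset _ _) fun t _ _ => hf t

/-- The primes in `(W, y]`. -/
def tk_S (W y : ℕ) : Finset ℕ := (Nat.primesLE y).filter (W < ·)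

lemma tk_mem_S {W y p : ℕ} : p ∈ tk_S W y ↔ p.Prime ∧ W < p ∧ p ≤ y := by
  simp only [tk_S, mem_filter, Nat.mem_primesLE]
  tauto

lemma tk_card_S (W y : ℕ) : (tk_S W y).card ≤ y := by
  have : tk_S W y ⊆ Ioc 0 y := fun p hp => by
    obtain ⟨h1, _, h3⟩ := tk_mem_S.1 hp
    exact mem_Ioc.2 ⟨h1.pos, h3⟩
  simpa using card_le_card this

lemma tk_cnt_S {n : ℕ} (hn : n ≠ 0) (W y : ℕ) :
    tk_cnt (tk_S W y) n = ((n.primeFactors.filter fun p => W < p ∧ p ≤ y).card : ℝ) := by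
  have : (n.primeFactors.filter fun p => W < p ∧ p ≤ y) = (tk_S W y).filter (· ∣ n) := by
    ext p
    simp only [mem_filter, Nat.mem_primeFactors, tk_mem_S]
    tauto
  rw [this, card_filter]
  unfold tk_cnt tk_ind
  push_cast
  rfl

lemma tk_small (n W : ℕ) : (n.primeFactors.filter (· ≤ W)).card ≤ W := by
  have : n.primeFactors.filter (· ≤ W) ⊆ Ioc 0 W := fun p hp => by
    obtain ⟨h1, h2⟩ := mem_filter.1 hp
    exact mem_Ioc.2 ⟨(Nat.prime_of_mem_primeFactors h1).pos, h2⟩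
  simpa using card_le_card this

lemma tk_large {n y : ℕ} (hn : n ≠ 0) : y ^ (n.primeFactors.filter (y < ·)).card ≤ n := by
  refine le_trans ?_ (Nat.le_of_dvd (Nat.pos_of_ne_zero hn) (Nat.prod_primeFactors_dvd n))
  calc y ^ (n.primeFactors.filter (y < ·)).card
      ≤ ∏ p ∈ n.primeFactors.filter (y < ·), p :=
        pow_card_le_prod _ _ _ fun p hp => (mem_filter.1 hp).2.le
    _ ≤ ∏ p ∈ n.primeFactors, p :=
        prod_le_prod_of_subset_of_one_le' (filter_subset _ _) fun p hp _ =>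
          (Nat.prime_of_mem_primeFactors hp).one_le

lemma tk_omZ_le {n : ℕ} (hn : n ≠ 0) (W y : ℕ) : (omZ y n : ℝ) ≤ W + tk_cnt (tk_S W y) n := by
  rw [tk_cnt_S hn]
  have h1 : n.primeFactors.filter (· ≤ y) ⊆
      n.primeFactors.filter (· ≤ W) ∪ n.primeFactors.filter fun p => W < p ∧ p ≤ y := by
    intro p hp
    simp only [mem_filter, mem_union] at hp ⊢
    rcases le_or_gt p W with h | h
    · exact Or.inl ⟨hp.1, h⟩
    · exact Or.inr ⟨hp.1, h, hp.2⟩
  have h2 := (card_le_card h1).trans (card_union_le _ _)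
  have h3 := tk_small n W
  unfold omZ
  exact_mod_cast h2.trans (Nat.add_le_add_right h3 _)

lemma tk_om_near {n g : ℕ} (hn : n ≠ 0) (hg : 12 ≤ g) (hle : n ≤ 2 ^ (41 * g)) (W : ℕ) :
    |(om n : ℝ) - tk_cnt (tk_S W (2 ^ (g / 4))) n| ≤ W + 205 := by
  have h0 := tk_omZ_le hn W (2 ^ (g / 4))
  have h1 : (n.primeFactors.filter (2 ^ (g / 4) < ·)).card ≤ 205 := by
    have h := (tk_large (y := 2 ^ (g / 4)) hn).trans hle
    rw [← pow_mul, Nat.pow_le_pow_iff_right (by norm_num)] at h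
    by_contra hh
    have h2 : g / 4 * 206 ≤ g / 4 * (n.primeFactors.filter (2 ^ (g / 4) < ·)).card :=
      Nat.mul_le_mul_left _ (by omega)
    omega
  have h2 : om n = omZ (2 ^ (g / 4)) n + (n.primeFactors.filter (2 ^ (g / 4) < ·)).card := by
    unfold om omZ
    rw [← card_filter_add_card_filter_not (s := n.primeFactors) (· ≤ 2 ^ (g / 4))]
    simp only [not_le]
  have h3 : tk_cnt (tk_S W (2 ^ (g / 4))) n ≤ om n := by
    rw [tk_cnt_S hn]
    unfold om
    exact_mod_cast card_filter_le _ _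
  have h4 : (om n : ℝ) ≤ omZ (2 ^ (g / 4)) n + 205 := by
    rw [h2]; push_cast
    have : (((n.primeFactors.filter (2 ^ (g / 4) < ·)).card : ℕ) : ℝ) ≤ 205 := by
      exact_mod_cast h1
    linarith
  have h5 : (0 : ℝ) ≤ W := Nat.cast_nonneg _
  rw [abs_le]
  constructor <;> linarith

lemma tk_inv_S_le (W y : ℕ) : ∑ p ∈ tk_S W y, (p : ℝ)⁻¹ ≤ LL y :=
  sum_le_sum_of_subset_of_nonneg (filter_subset _ _) fun _ _ _ => by positivity

lemma tk_le_inv_S (W y : ℕ) : LL y ≤ ∑ p ∈ tk_S W y, (p : ℝ)⁻¹ + W := by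
  unfold LL tk_S
  rw [← sum_filter_add_sum_filter_not (Nat.primesLE y) (W < ·)]
  have h1 : (Nat.primesLE y).filter (fun p => ¬W < p) ⊆ Ioc 0 W := fun p hp => by
    obtain ⟨h1, h2⟩ := mem_filter.1 hp
    exact mem_Ioc.2 ⟨(Nat.mem_primesLE.1 h1).2.pos, not_lt.1 h2⟩
  have h2 : ∑ p ∈ (Nat.primesLE y).filter (fun p => ¬W < p), (p : ℝ)⁻¹ ≤ ∑ _p ∈ Ioc 0 W, (1 : ℝ) :=
    (sum_le_sum_of_subset_of_nonneg h1 fun _ _ _ => by positivity).trans
      (sum_le_sum fun p hp => inv_le_one_of_one_le₀ (by exact_mod_cast (mem_Ioc.1 hp).1))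
  simp only [sum_const, Nat.card_Ioc, tsub_zero, nsmul_eq_mul, mul_one] at h2
  linarith

lemma tk_LL {g : ℕ} (hg : 12 ≤ g) :
    Real.log g - 20 ≤ LL (2 ^ (g / 4)) ∧ LL (2 ^ (g / 4)) ≤ Real.log g + 3 := by
  have hg' : (12 : ℝ) ≤ g := by exact_mod_cast hg
  have hl1 : (1 : ℝ) / 2 ≤ Real.log 2 := by linarith [Real.log_two_gt_d9]
  have hl2 : Real.log 2 ≤ 1 := by linarith [Real.log_two_lt_d9]
  have ha : (g : ℝ) ≤ 5 * (g / 4 : ℕ) := by exact_mod_cast (by omega : g ≤ 5 * (g / 4))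
  have hb : 4 * ((g / 4 : ℕ) : ℝ) ≤ g := by exact_mod_cast (by omega : 4 * (g / 4) ≤ g)
  have hlog : Real.log ((2 ^ (g / 4) : ℕ) : ℝ) = (g / 4 : ℕ) * Real.log 2 := by
    push_cast; rw [Real.log_pow]
  have hq : (0 : ℝ) ≤ (g / 4 : ℕ) := Nat.cast_nonneg _
  constructor
  · have h1 := log_le_exp_LL (2 ^ (g / 4))
    have h2 : Real.log ((2 ^ (g / 4) : ℕ) : ℝ) ≤ Real.log (((2 ^ (g / 4) : ℕ) : ℝ) + 1) :=
      Real.log_le_log (by positivity) (by linarith)
    have h3 : (g : ℝ) / 20 ≤ Real.exp (LL (2 ^ (g / 4))) := by nlinarith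
    have h4 := Real.log_le_log (by positivity) h3
    rw [Real.log_exp, Real.log_div (by positivity) (by norm_num)] at h4
    have h5 := Real.log_le_sub_one_of_pos (show (0 : ℝ) < 20 by norm_num)
    linarith
  · have h1 := Pool.Agent.Lib.MP_0a06fe_nt.sum_inv_primesLE_le (n := 2 ^ (g / 4))
      (by calc 2 = 2 ^ 1 := by norm_num
        _ ≤ 2 ^ (g / 4) := Nat.pow_le_pow_right (by norm_num) (by omega))
    have h2 : Real.log (1 + Real.log ((2 ^ (g / 4) : ℕ) : ℝ)) ≤ Real.log g := by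
      rw [hlog]
      exact Real.log_le_log (by positivity) (by nlinarith)
    unfold LL
    linarith

open Classical in
theorem tk_ap {ε : ℝ} (hε : 0 < ε) (k W : ℕ) : ∀ᶠ g : ℕ in atTop, ∀ c0 d T : ℕ, 0 < c0 →
    2 ^ g ≤ W * T → c0 + d * T ≤ 2 ^ (41 * g) → (∀ p, p.Prime → p ∣ d → p ≤ W ∨ 2 ^ g < p) →
    (((range T).filter fun t => ¬(|(om (c0 + d * t) : ℝ) - Real.log g| ≤ Real.log g / 100 ∧
      (omZ (g ^ k) (c0 + d * t) : ℝ) ≤ Real.log g / 100)).card : ℝ) ≤ ε * T := by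
  obtain ⟨C, hC⟩ := LL_le_delta (δ := ε / (800 * (k + 1))) (by positivity)
  have hlog : Tendsto (fun g : ℕ => Real.log g) atTop atTop :=
    Real.tendsto_log_atTop.comp tendsto_natCast_atTop_atTop
  have hy : Tendsto (fun g : ℕ => 2 ^ (g / 4)) atTop atTop :=
    (tendsto_pow_atTop_atTop_of_one_lt (by norm_num : 1 < 2)).comp
      (Nat.tendsto_div_const_atTop (by norm_num))
  filter_upwards [eventually_ge_atTop 12, ev_pow_le W k, hy.eventually_ge_atTop (3 * W),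
    hlog.eventually_ge_atTop (200 * (2 * W + 225)), hlog.eventually_ge_atTop (160000 / ε),
    hlog.eventually_ge_atTop (800 * (C + 1) / ε)] with g hg hgk hyW hl1 hl2 hl3
  intro c0 d T hc0 hWT hle hd
  have hW : 0 < W := by
    rcases Nat.eq_zero_or_pos W with rfl | h
    · simp at hWT
    · exact h
  have hW0 : (0 : ℝ) ≤ W := Nat.cast_nonneg _
  have hT0 : (0 : ℝ) ≤ T := Nat.cast_nonneg _
  have hS : ∀ y, y ≤ 2 ^ g → ∀ p ∈ tk_S W y, p.Prime ∧ ¬p ∣ d := by
    intro y hy p hp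
    obtain ⟨h1, h2, h3⟩ := tk_mem_S.1 hp
    refine ⟨h1, fun h => ?_⟩
    rcases hd p h1 h with h4 | h4 <;> omega
  have hn : ∀ t, c0 + d * t ≠ 0 := fun t => by omega
  have hnle : ∀ t ∈ range T, c0 + d * t ≤ 2 ^ (41 * g) := fun t ht =>
    le_trans (Nat.add_le_add_left (Nat.mul_le_mul_left _ (mem_range.1 ht).le) _) hle
  set L := Real.log g with hL
  have hLpos : 0 < L := by linarith
  have hε2 : 160000 ≤ ε * L := by rw [div_le_iff₀ hε] at hl2; linarith
  have hε3 : 800 * (C + 1) ≤ ε * L := by rw [div_le_iff₀ hε] at hl3; linarith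
  have hA : (((range T).filter fun t => ¬|(om (c0 + d * t) : ℝ) - L| ≤ L / 100).card : ℝ) ≤
      ε / 2 * T := by
    have hy1 : 2 ^ (g / 4) ≤ 2 ^ g := Nat.pow_le_pow_right (by norm_num) (by omega)
    have hv := tk_var c0 T (hS _ hy1)
    have hy2 : 3 * (2 ^ (g / 4)) ^ 2 ≤ T := by
      have h1 : (2 ^ (g / 4)) ^ 3 ≤ 2 ^ g := by
        rw [← pow_mul]; exact Nat.pow_le_pow_right (by norm_num) (by omega)
      have h2 : W * (3 * (2 ^ (g / 4)) ^ 2) ≤ W * T := by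
        calc W * (3 * (2 ^ (g / 4)) ^ 2) = 3 * W * (2 ^ (g / 4)) ^ 2 := by ring
          _ ≤ 2 ^ (g / 4) * (2 ^ (g / 4)) ^ 2 := Nat.mul_le_mul_right _ hyW
          _ = (2 ^ (g / 4)) ^ 3 := by ring
          _ ≤ _ := h1.trans hWT
      exact Nat.le_of_mul_le_mul_left h2 hW
    have hc : 3 * ((tk_S W (2 ^ (g / 4))).card : ℝ) ^ 2 ≤ T := by
      have := (Nat.mul_le_mul_left 3 (Nat.pow_le_pow_left (tk_card_S W (2 ^ (g / 4))) 2)).trans hy2
      exact_mod_cast this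
    obtain ⟨b1, b2⟩ := tk_LL hg
    have b3 := tk_inv_S_le W (2 ^ (g / 4))
    have b4 := tk_le_inv_S W (2 ^ (g / 4))
    have hm := tk_markov T
      (fun t => (tk_cnt (tk_S W (2 ^ (g / 4))) (c0 + d * t) -
        ∑ p ∈ tk_S W (2 ^ (g / 4)), (p : ℝ)⁻¹) ^ 2) (fun t => sq_nonneg _) ((L / 200) ^ 2)
      (fun t => ¬|(om (c0 + d * t) : ℝ) - L| ≤ L / 100) (fun t ht hb => by
        have h1 := abs_le.1 (tk_om_near (hn t) hg (hnle t ht) W)
        rw [sq_le_sq, abs_of_pos (by positivity)]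
        by_contra h2
        have h3 := abs_lt.1 (not_le.1 h2)
        exact hb (abs_le.2 ⟨by linarith [h1.1, h3.1], by linarith [h1.2, h3.2]⟩))
    have h6 : T * ∑ p ∈ tk_S W (2 ^ (g / 4)), (p : ℝ)⁻¹ ≤ T * (L + 3) :=
      mul_le_mul_of_nonneg_left (by linarith) hT0
    have h7 : (L + 4) ≤ ε / 2 * (L / 200) ^ 2 := by nlinarith
    have h8 := mul_le_mul_of_nonneg_left h7 hT0
    refine le_of_mul_le_mul_right ?_ (show 0 < (L / 200) ^ 2 by positivity)
    nlinarith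
  have hB : (((range T).filter fun t => ¬(omZ (g ^ k) (c0 + d * t) : ℝ) ≤ L / 100).card : ℝ) ≤
      ε / 2 * T := by
    have hy1 : g ^ k ≤ 2 ^ g := le_trans (Nat.le_mul_of_pos_left _ hW) hgk
    have hf := (abs_le.1 (tk_first c0 T (hS _ hy1))).2
    have hc : ((tk_S W (g ^ k)).card : ℝ) ≤ T := by
      have := (tk_card_S W (g ^ k)).trans (Nat.le_of_mul_le_mul_left (hgk.trans hWT) hW)
      exact_mod_cast this
    have b3 := tk_inv_S_le W (g ^ k)
    have hg0 : (0 : ℝ) < g := by exact_mod_cast (by omega : 0 < g)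
    have b4 := hC (k * L) (g ^ k) (by positivity) (by
      rw [hL, Real.exp_nat_mul, Real.exp_log hg0]; push_cast; exact le_rfl)
    have b5 : ε / (800 * (k + 1)) * (k * L) ≤ ε * L / 800 := by
      rw [div_mul_eq_mul_div, div_le_div_iff₀ (by positivity) (by norm_num)]
      have : 0 ≤ ε * L := by positivity
      nlinarith
    have hm := tk_markov T (fun t => tk_cnt (tk_S W (g ^ k)) (c0 + d * t))
      (fun t => tk_cnt_nonneg _ _) (L / 200)
      (fun t => ¬(omZ (g ^ k) (c0 + d * t) : ℝ) ≤ L / 100) (fun t _ hb => by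
        have h1 := tk_omZ_le (hn t) W (g ^ k)
        have h2 := not_le.1 hb
        linarith)
    have h6 : T * ∑ p ∈ tk_S W (g ^ k), (p : ℝ)⁻¹ ≤ T * (ε * L / 400 - 1) :=
      mul_le_mul_of_nonneg_left (by linarith) hT0
    refine le_of_mul_le_mul_right ?_ (show 0 < L / 200 by positivity)
    nlinarith
  simp only [not_and_or]
  rw [filter_or]
  have h9 := card_union_le ((range T).filter fun t => ¬|(om (c0 + d * t) : ℝ) - L| ≤ L / 100)
    ((range T).filter fun t => ¬(omZ (g ^ k) (c0 + d * t) : ℝ) ≤ L / 100)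
  have h10 := (Nat.cast_le (α := ℝ)).2 h9
  push_cast at h10
  linarith

end Pool.Agent.Lib.MP_788af2_nt.R0
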