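import Pool.Agent.Lib.MP_788af2_nt.R0.Defs

namespace Pool.Agent.Lib.MP_788af2_nt.R0

open Finset Filter
open scoped NumberTheorySymbols

/-! Basic facts on factorisations and typical integers. -/

section tuples
variable {κ : Type} [Fintype κ] [DecidableEq κ]

lemma tup_prod_update (D : κ → ℕ) (o : κ) (x : ℕ) :
    ∏ u, Function.update D o x u = x * ∏ u ∈ univ.erase o, D u := by
  rw [prod_update_of_mem (mem_univ o), sdiff_singleton_eq_erase]

lemma tup_prod_erase (D : κ → ℕ) (o : κ) : ∏ u, D u = D o * ∏ u ∈ univ.erase o, D u :=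
  (mul_prod_erase univ D (mem_univ o)).symm

/-- Split off one component of a factorisation. -/
lemma sum_tup_split {M : Type} [AddCommMonoid M] {n : ℕ} (hn : n ≠ 0) (o : κ) (f : (κ → ℕ) → M) :
    ∑ D ∈ tup κ n, f D = ∑ x ∈ n.divisorsAntidiagonal,
      ∑ D ∈ tup κ x.2 with D o = 1, f (Function.update D o x.1) := by
  rw [sum_sigma']
  refine sum_nbij' (fun D => ⟨(D o, ∏ u ∈ univ.erase o, D u), Function.update D o 1⟩)
    (fun y => Function.update y.2 o y.1.1) ?_ ?_ ?_ ?_ ?_
  · intro D hD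
    have h := prod_of_mem_tup hD
    rw [tup_prod_erase D o] at h
    have h2 : ∏ u ∈ univ.erase o, D u ≠ 0 := by
      intro h0
      rw [h0, mul_zero] at h
      exact hn h.symm
    simp only [mem_sigma, Nat.mem_divisorsAntidiagonal, mem_filter, Function.update_self, and_true]
    exact ⟨⟨h, hn⟩, (mem_tup h2).2 (by rw [tup_prod_update, one_mul])⟩
  · rintro ⟨⟨x, t⟩, D⟩ hy
    simp only [mem_sigma, Nat.mem_divisorsAntidiagonal, mem_filter] at hy
    obtain ⟨⟨h1, -⟩, h2, h3⟩ := hy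
    have h := prod_of_mem_tup h2
    rw [tup_prod_erase D o, h3, one_mul] at h
    exact (mem_tup hn).2 (by rw [tup_prod_update, h, h1])
  · intro D _
    simp
  · rintro ⟨⟨x, t⟩, D⟩ hy
    simp only [mem_sigma, Nat.mem_divisorsAntidiagonal, mem_filter] at hy
    obtain ⟨-, h2, h3⟩ := hy
    have h := prod_of_mem_tup h2
    rw [tup_prod_erase D o, h3, one_mul] at h
    have e : ∏ u ∈ univ.erase o, Function.update D o x u = t := by
      rw [← h]
      exact prod_congr rfl fun u hu => Function.update_of_ne (ne_of_mem_erase hu) _ _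
    simp only [Function.update_self, Function.update_idem, e]
    rw [← h3, Function.update_eq_self]
  · intro D _
    simp

lemma tup_sum_antidiag {M : Type} [AddCommMonoid M] (N : ℕ) (G : ℕ → ℕ → M) :
    ∑ n ∈ Icc 1 N, ∑ x ∈ n.divisorsAntidiagonal, G x.1 x.2 =
      ∑ t ∈ Icc 1 N, ∑ x ∈ Icc 1 (N / t), G x t := by
  rw [sum_sigma', sum_sigma']
  refine sum_nbij' (fun y => ⟨y.2.2, y.2.1⟩) (fun y => ⟨y.2 * y.1, (y.2, y.1)⟩) ?_ ?_ ?_ ?_ ?_
  · rintro ⟨n, x, t⟩ hy
    simp only [mem_sigma, mem_Icc, Nat.mem_divisorsAntidiagonal] at hy ⊢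
    obtain ⟨⟨-, h2⟩, h3, h4⟩ := hy
    subst h3
    have hx : 0 < x := Nat.pos_of_ne_zero (left_ne_zero_of_mul h4)
    have ht : 0 < t := Nat.pos_of_ne_zero (right_ne_zero_of_mul h4)
    exact ⟨⟨ht, (Nat.le_mul_of_pos_left t hx).trans h2⟩, hx, (Nat.le_div_iff_mul_le ht).2 h2⟩
  · rintro ⟨t, x⟩ hy
    simp only [mem_sigma, mem_Icc, Nat.mem_divisorsAntidiagonal] at hy ⊢
    obtain ⟨⟨h1, -⟩, h3, h4⟩ := hy
    have h5 : 0 < x * t := Nat.mul_pos h3 h1
    exact ⟨⟨h5, (Nat.le_div_iff_mul_le h1).1 h4⟩, trivial, h5.ne'⟩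
  · rintro ⟨n, x, t⟩ hy
    simp only [mem_sigma, mem_Icc, Nat.mem_divisorsAntidiagonal] at hy
    obtain ⟨-, h3, -⟩ := hy
    subst h3
    rfl
  · rintro ⟨t, x⟩ _
    rfl
  · rintro ⟨n, x, t⟩ _
    rfl

/-- The same, summed over all `n ≤ N`. -/
lemma sum_Icc_tup_split {M : Type} [AddCommMonoid M] (N : ℕ) (o : κ) (f : (κ → ℕ) → M) :
    ∑ n ∈ Icc 1 N, ∑ D ∈ tup κ n, f D = ∑ t ∈ Icc 1 N, ∑ D ∈ tup κ t with D o = 1,
      ∑ x ∈ Icc 1 (N / t), f (Function.update D o x) := by
  rw [sum_congr rfl fun n hn => sum_tup_split (by have := (mem_Icc.1 hn).1; omega) o f,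
    tup_sum_antidiag N fun x t => ∑ D ∈ tup κ t with D o = 1, f (Function.update D o x)]
  exact sum_congr rfl fun t _ => sum_comm

/-- Factorisations indexed by `Option κ`. -/
lemma sum_tup_option {M : Type} [AddCommMonoid M] {n : ℕ} (hn : n ≠ 0)
    (f : (Option κ → ℕ) → M) :
    ∑ D ∈ tup (Option κ) n, f D = ∑ x ∈ n.divisorsAntidiagonal,
      ∑ D ∈ tup κ x.2, f fun o => o.elim x.1 D := by
  rw [sum_sigma']
  refine sum_nbij' (fun D => ⟨(D none, ∏ u, D (some u)), fun u => D (some u)⟩)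
    (fun y => fun o => o.elim y.1.1 y.2) ?_ ?_ ?_ ?_ ?_
  · intro D hD
    have h := prod_of_mem_tup hD
    rw [Fintype.prod_option] at h
    have h2 : ∏ u, D (some u) ≠ 0 := by
      intro h0
      rw [h0, mul_zero] at h
      exact hn h.symm
    simp only [mem_sigma, Nat.mem_divisorsAntidiagonal]
    exact ⟨⟨h, hn⟩, (mem_tup h2).2 rfl⟩
  · rintro ⟨⟨x, t⟩, D⟩ hy
    simp only [mem_sigma, Nat.mem_divisorsAntidiagonal] at hy
    obtain ⟨⟨h1, -⟩, h2⟩ := hy
    have h := prod_of_mem_tup h2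
    refine (mem_tup hn).2 ?_
    rw [Fintype.prod_option]
    simp only [Option.elim]
    rw [h, h1]
  · intro D _
    funext o
    cases o <;> rfl
  · rintro ⟨⟨x, t⟩, D⟩ hy
    simp only [mem_sigma, Nat.mem_divisorsAntidiagonal] at hy
    have h := prod_of_mem_tup hy.2
    simp only [Option.elim] at h ⊢
    rw [h]
  · intro D _
    congr 1
    funext o
    cases o <;> rfl

lemma tup_unique {n : ℕ} (hn : Squarefree n) {A : κ → ℕ} (hA : A ∈ tup κ n) {p : ℕ}
    (hp : p.Prime) {u v : κ} (hu : p ∣ A u) (hv : p ∣ A v) : u = v := by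
  by_contra huv
  have h := prod_of_mem_tup hA
  have h1 : A u * A v ∣ n := by
    rw [← h, ← prod_pair huv]
    exact prod_dvd_prod_of_subset _ _ _ (subset_univ _)
  exact hp.not_isUnit (hn p ((mul_dvd_mul hu hv).trans h1))

lemma tup_card_gen {n : ℕ} (hn : Squarefree n) (T : ℕ → Finset κ) (S : Finset (κ → ℕ))
    (hS : ∀ A ∈ S, A ∈ tup κ n ∧ ∀ u p, p.Prime → p ∣ A u → u ∈ T p) :
    S.card ≤ ∏ p ∈ n.primeFactors, (T p).card := by
  have key : S.card ≤ (Fintype.piFinset fun p : n.primeFactors => T p.1).card := by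
    refine card_le_card_of_forall_subsingleton (fun A F => ∀ p, p.1 ∣ A (F p)) ?_ ?_
    · intro A hA
      obtain ⟨h1, h2⟩ := hS A hA
      have h : ∀ p : n.primeFactors, ∃ u, p.1 ∣ A u := by
        intro p
        have hp := Nat.prime_of_mem_primeFactors p.2
        have hd := (Nat.dvd_of_mem_primeFactors p.2).trans (prod_of_mem_tup h1).symm.dvd
        obtain ⟨u, -, hu⟩ := (Prime.dvd_finsetProd_iff hp.prime _).1 hd
        exact ⟨u, hu⟩
      choose F hF using h
      exact ⟨F, Fintype.mem_piFinset.2 fun p =>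
        h2 _ _ (Nat.prime_of_mem_primeFactors p.2) (hF p), hF⟩
    · intro F _
      have aux : ∀ A ∈ S, ∀ B ∈ S, (∀ p : n.primeFactors, p.1 ∣ A (F p)) →
          (∀ p : n.primeFactors, p.1 ∣ B (F p)) → ∀ u p, p.Prime → p ∣ A u → p ∣ B u := by
        intro A hA B _ h1 h2 u p hp hu
        have hA1 := (hS A hA).1
        have hd : p ∣ n := by
          rw [← prod_of_mem_tup hA1]
          exact hu.trans (dvd_prod_of_mem _ (mem_univ u))
        have hm : p ∈ n.primeFactors := Nat.mem_primeFactors.2 ⟨hp, hd, hn.ne_zero⟩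
        rw [tup_unique hn hA1 hp hu (h1 ⟨p, hm⟩)]
        exact h2 ⟨p, hm⟩
      have sq : ∀ A ∈ S, ∀ u, Squarefree (A u) := by
        intro A hA u
        refine hn.squarefree_of_dvd ?_
        rw [← prod_of_mem_tup (hS A hA).1]
        exact dvd_prod_of_mem _ (mem_univ u)
      rintro A ⟨hA, h1⟩ B ⟨hB, h2⟩
      funext u
      exact (Nat.Squarefree.ext_iff (sq A hA u) (sq B hB u)).2 fun p hp =>
        ⟨aux A hA B hB h1 h2 u p hp, aux B hB A hA h2 h1 u p hp⟩
  rw [Fintype.card_piFinset, prod_coe_sort n.primeFactors fun p => (T p).card] at key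
  exact key

lemma card_tup_le {n : ℕ} (hn : Squarefree n) : (tup κ n).card ≤ Fintype.card κ ^ om n := by
  have := tup_card_gen hn (fun _ => (univ : Finset κ)) (tup κ n)
    fun A hA => ⟨hA, fun u _ _ _ => mem_univ u⟩
  rwa [prod_const, card_univ] at this

/-- Factorisations whose large primes all lie in the components of `s`. -/
lemma card_tup_prof_le {n : ℕ} (hn : Squarefree n) (Z : ℕ) (s : Finset κ) :
    ((tup κ n).filter fun A => ∀ u, big Z (A u) → u ∈ s).card ≤
      max 1 s.card ^ om n * Fintype.card κ ^ omZ Z n := by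
  refine (tup_card_gen hn (fun p => if p ≤ Z then univ else s) _ ?_).trans ?_
  · intro A hA
    obtain ⟨h1, h2⟩ := mem_filter.1 hA
    refine ⟨h1, fun u p hp hu => ?_⟩
    split_ifs with h
    · exact mem_univ u
    · refine h2 u ⟨p, Nat.mem_primeFactors.2 ⟨hp, hu, ?_⟩, not_le.1 h⟩
      intro h0
      apply hn.ne_zero
      rw [← prod_of_mem_tup h1]
      exact prod_eq_zero (mem_univ u) h0
  · have e : ∀ p, (if p ≤ Z then (univ : Finset κ) else s).card =
        if p ≤ Z then Fintype.card κ else s.card := by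
      intro p
      split_ifs <;> rfl
    simp only [e]
    rw [prod_ite, prod_const, prod_const, mul_comm]
    refine Nat.mul_le_mul ?_ le_rfl
    exact (Nat.pow_le_pow_left (le_max_right 1 _) _).trans
      (Nat.pow_le_pow_right (lt_of_lt_of_le Nat.one_pos (le_max_left 1 _)) (card_filter_le _ _))

lemma sum_inv_tup_le (N : ℕ) :
    ∑ t ∈ Icc 1 N, ((tup κ t).card : ℝ) / t ≤ (1 + Real.log N) ^ Fintype.card κ := by
  have e : ∀ t ∈ Icc 1 N, ((tup κ t).card : ℝ) / t = ∑ D ∈ tup κ t, ∏ u, ((D u : ℝ))⁻¹ := by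
    intro t _
    rw [sum_congr rfl (g := fun _ => (t : ℝ)⁻¹), sum_const, nsmul_eq_mul, div_eq_mul_inv]
    intro D hD
    rw [prod_inv_distrib, ← Nat.cast_prod, prod_of_mem_tup hD]
  rw [sum_congr rfl e, ← sum_biUnion]
  · calc _ ≤ ∑ D ∈ Fintype.piFinset fun _ : κ => Ioc 0 N, ∏ u, ((D u : ℝ))⁻¹ := by
          refine sum_le_sum_of_subset_of_nonneg ?_ fun _ _ _ => by positivity
          intro D hD
          obtain ⟨t, ht, hD⟩ := mem_biUnion.1 hD
          obtain ⟨h1, h2⟩ := mem_Icc.1 ht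
          refine Fintype.mem_piFinset.2 fun u => ?_
          have hd : D u ∣ t := by
            rw [← prod_of_mem_tup hD]
            exact dvd_prod_of_mem _ (mem_univ u)
          exact mem_Ioc.2 ⟨Nat.pos_of_dvd_of_pos hd h1, (Nat.le_of_dvd h1 hd).trans h2⟩
      _ = (∑ n ∈ Ioc 0 N, (n : ℝ)⁻¹) ^ Fintype.card κ := by
          rw [← prod_univ_sum (fun _ : κ => Ioc 0 N) fun _ n => (n : ℝ)⁻¹, prod_const, card_univ]
      _ ≤ _ := pow_le_pow_left₀ (by positivity) (harm_le_log N) _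
  · intro t _ t' _ htt
    refine disjoint_left.2 fun D h1 h2 => htt ?_
    rw [← prod_of_mem_tup h1, prod_of_mem_tup h2]

end tuples

lemma om_mul {m n : ℕ} (h : m.Coprime n) : om (m * n) = om m + om n := by
  unfold om
  rw [h.primeFactors_mul, card_union_of_disjoint h.disjoint_primeFactors]

lemma omZ_mul (Z : ℕ) {m n : ℕ} (h : m.Coprime n) : omZ Z (m * n) = omZ Z m + omZ Z n := by
  unfold omZ
  rw [h.primeFactors_mul, filter_union,
    card_union_of_disjoint (disjoint_filter_filter h.disjoint_primeFactors)]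

lemma om_prime {p : ℕ} (h : p.Prime) : om p = 1 := by
  unfold om
  rw [h.primeFactors, card_singleton]

lemma card_divisors_sqfree {n : ℕ} (h : Squarefree n) : n.divisors.card = 2 ^ om n := by
  rw [Nat.card_divisors h.ne_zero, om, ← prod_const]
  refine prod_congr rfl fun p hp => ?_
  rw [Nat.factorization_eq_one_of_squarefree h (Nat.prime_of_mem_primeFactors hp)
    (Nat.dvd_of_mem_primeFactors hp)]

lemma good.of_dvd {g m n : ℕ} (h : good g n) (hm : m ∣ n) : good g m := by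
  obtain ⟨h1, h2, h3⟩ := h
  refine ⟨h1.squarefree_of_dvd hm, Nat.Coprime.coprime_dvd_left hm h2, le_trans ?_ h3⟩
  exact Nat.pow_le_pow_right (by norm_num) (card_le_card (Nat.primeFactors_mono hm h1.ne_zero))

lemma good_prime {g p : ℕ} (hg : 2 ≤ g) (hp : p.Prime) (h3 : 3 < p) : good g p := by
  refine ⟨hp.squarefree, ?_, by rw [om_prime hp]; simpa using hg⟩
  have h2 : p.Coprime 2 := (Nat.coprime_primes hp Nat.prime_two).2 (by omega)
  have h3' : p.Coprime 3 := (Nat.coprime_primes hp Nat.prime_three).2 (by omega)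
  exact Nat.Coprime.mul_right h2 h3'

lemma typ.good {g Z n : ℕ} (hg : 1 ≤ g) (h : typ g Z n) : good g n := by
  obtain ⟨h1, h2, h3, -⟩ := h
  refine ⟨h1, h2, ?_⟩
  have hg1 : (1 : ℝ) ≤ g := by exact_mod_cast hg
  have hL : 0 ≤ Real.log g := Real.log_nonneg hg1
  have h4 : (om n : ℝ) ≤ 101 / 100 * Real.log g := by linarith [(abs_le.1 h3).2]
  have h5 : Real.log 2 ≤ 7 / 10 := by linarith [Real.log_two_lt_d9]
  have h6 : Real.log ((2 : ℝ) ^ om n) ≤ Real.log g := by
    rw [Real.log_pow]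
    calc (om n : ℝ) * Real.log 2 ≤ 101 / 100 * Real.log g * (7 / 10) :=
          mul_le_mul h4 h5 (Real.log_nonneg one_le_two) (by positivity)
      _ ≤ _ := by linarith
  have h7 := (Real.log_le_log_iff (by positivity) (by linarith)).1 h6
  exact_mod_cast h7

lemma good.card_tup_U {g n : ℕ} (h : good g n) : (tup U n).card ≤ g ^ 2 := by
  refine (card_tup_le h.1).trans ?_
  have e : Fintype.card U = 2 ^ 2 := by simp
  rw [e, ← pow_mul, mul_comm, pow_mul]
  exact Nat.pow_le_pow_left h.2.2 2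

lemma good.card_tup_opt {g n : ℕ} (h : good g n) : (tup (Option U) n).card ≤ g ^ 3 := by
  refine (card_tup_le h.1).trans ?_
  have e : Fintype.card (Option U) ≤ 2 ^ 3 := by simp
  refine (Nat.pow_le_pow_left e _).trans ?_
  rw [← pow_mul, mul_comm, pow_mul]
  exact Nat.pow_le_pow_left h.2.2 3

end Pool.Agent.Lib.MP_788af2_nt.R0
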